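import Pool.Agent.ULB.StmtsHW

/-!
# Block HW: assembly
-/

set_option autoImplicit false

namespace ULB

open WHP (V3 det be ga dot cross lin tt)
open WHS (hh ev der)

/-- HW from its modules -/
theorem hw_of (hI : Pool.Agent.UHI.Stmt_INV) (hFR : Stmt_HWFR) (hPA : Stmt_HWPA)
    (hBD : Stmt_HWBD) (hEP : Stmt_HWEP) (hFN : Stmt_HWFN) (hPG : Stmt_HWPG) (hSC : Stmt_HWSC) :
    Stmt_HW := by
  refine ⟨1 / 200000, 1 / 10000, by norm_num, by norm_num, ?_⟩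
  intro β hβ hβ1
  obtain ⟨G1, h1⟩ := hPA β hβ hβ1
  obtain ⟨G2, h2⟩ := hPG β hβ hβ1
  obtain ⟨G3, h3⟩ := hSC hI hFR hEP hFN β hβ hβ1
  refine ⟨max G1 (max G2 G3), ?_⟩
  intro B y P wm v R hN hG hB1 hB2 hBas b0 F hb0 hb0B hF
  have hG1 : G1 ≤ GG y P := (le_max_left _ _).trans hG
  have hG2 : G2 ≤ GG y P := ((le_max_left _ _).trans (le_max_right _ _)).trans hG
  have hG3 : G3 ≤ GG y P := ((le_max_right _ _).trans (le_max_right _ _)).trans hG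
  have hp := h1 B y P hN hG1 hB1 hB2
  have hG0 := hp.G0
  have hB0 : 0 < B := by linarith
  have hbad : ∀ a0 : ℤ, a0 ∈ F → ∃ j p : ℤ, 1 ≤ j ∧ (j : ℝ) ≤ dl y ^ (6 / 5 : ℝ) ∧
      |(p : ℝ) - j * (cc y wm * a0 + b0 * cc y v)| ≤
        2 * GG y P ^ (4 * (β / 100)) / (j * Phi (GG y P) (cs β B y P * j)) +
          30 * rr y * j * (a0 * bb y P) ∧
      |(det (wv y wm v b0 a0 j p) : ℝ)| ≤
        2 * (a0 * (bb y P * dl y)) * GG y P ^ (4 * (β / 100)) / Phi (GG y P) (cs β B y P * j) := by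
    intro a0 ha0
    obtain ⟨e1, e2, e3⟩ := hF a0 ha0
    exact hBD β B y P wm v R hβ hβ1 hN hp hBas a0 b0 hb0 hb0B e1 e2 e3
  choose! j p hj using hbad
  have hD1 : 1 ≤ dl y := (one_le_pow₀ hG0).trans hp.D1
  refine h2 (GG y P) (AA β B y P) B (dl y ^ (6 / 5 : ℝ)) F j hG2 hB1 ?_ ?_ ?_ hp.D2 ?_ ?_
  · refine hB2.trans ?_
    calc GG y P ^ (β / 100) ≤ GG y P ^ (1 : ℝ) := Real.rpow_le_rpow_of_exponent_le hG0 (by linarith)
      _ = GG y P := Real.rpow_one _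
  · have e1 : GG y P ^ (9 / 10 : ℝ) ≤ GG y P ^ (1 - 3 * β) :=
      Real.rpow_le_rpow_of_exponent_le hG0 (by linarith)
    have e2 := e1.trans hp.A1
    rw [le_div_iff₀ (by positivity)] at e2
    have e3 : 0 < GG y P ^ (9 / 10 : ℝ) := Real.rpow_pos_of_pos (by linarith) _
    nlinarith
  · exact Real.one_le_rpow hD1 (by norm_num)
  · intro a ha
    obtain ⟨e1, e2, e3⟩ := hF a ha
    exact ⟨e1, e2, (hj a ha).1, (hj a ha).2.1⟩
  · intro A' X S hS hA1 hA2 hX1 hX2 hSa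
    refine h3 B y P wm v R hN hG3 hp hBas b0 A' X S j p hA1 hA2 hX1 hX2 ?_
    intro a ha
    obtain ⟨e1, e2, e3, e4⟩ := hSa a ha
    obtain ⟨f1, f2, f3, f4⟩ := hj a (hS ha)
    exact ⟨e1, e2, f1, e3, e4, f3, f4⟩

end ULB
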