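import Pool.Agent.ULB.StmtsHW

/-!
# HWBD: the vector which is responsible for a bad plane
-/

set_option autoImplicit false

namespace ULB

open WHP (V3 det be ga dot cross lin tt)
open WHS (hh ev der)

namespace HWBDaux

theorem par {y u : V3} (hy : Pr y) (h : cross y u = 0) : ∃ l : ℤ, u = sm l y := by
  obtain ⟨Q, hQ⟩ := hy
  have h1 : y.b * u.c - y.c * u.b = 0 := congrArg V3.a h
  have h2 : y.c * u.a - y.a * u.c = 0 := congrArg V3.b h
  have h3 : y.a * u.b - y.b * u.a = 0 := congrArg V3.c h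
  have hQ' : Q.a * y.a + Q.b * y.b + Q.c * y.c = 1 := hQ
  refine ⟨Q.a * u.a + Q.b * u.b + Q.c * u.c, ?_⟩
  ext
  · show u.a = (Q.a * u.a + Q.b * u.b + Q.c * u.c) * y.a + 0 * y.a
    linear_combination (-u.a) * hQ' + (-Q.b) * h3 + Q.c * h2
  · show u.b = (Q.a * u.a + Q.b * u.b + Q.c * u.c) * y.b + 0 * y.b
    linear_combination (-u.b) * hQ' + Q.a * h3 + (-Q.c) * h1
  · show u.c = (Q.a * u.a + Q.b * u.b + Q.c * u.c) * y.c + 0 * y.c
    linear_combination (-u.c) * hQ' + (-Q.a) * h2 + Q.b * h1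

theorem cross_neg (y w P : V3) (e : ℤ) (h : cross y w = sm e P) :
    cross y (sm (-1) w) = sm (-e) P := by
  have h1 : y.b * w.c - y.c * w.b = e * P.a + 0 * P.a := congrArg V3.a h
  have h2 : y.c * w.a - y.a * w.c = e * P.b + 0 * P.b := congrArg V3.b h
  have h3 : y.a * w.b - y.b * w.a = e * P.c + 0 * P.c := congrArg V3.c h
  ext
  · show y.b * (-1 * w.c + 0 * w.c) - y.c * (-1 * w.b + 0 * w.b) = -e * P.a + 0 * P.a
    linear_combination (-1) * h1
  · show y.c * (-1 * w.a + 0 * w.a) - y.a * (-1 * w.c + 0 * w.c) = -e * P.b + 0 * P.b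
    linear_combination (-1) * h2
  · show y.a * (-1 * w.b + 0 * w.b) - y.b * (-1 * w.a + 0 * w.a) = -e * P.c + 0 * P.c
    linear_combination (-1) * h3

theorem det_neg (w : V3) : det (sm (-1) w) = det w := by
  show (-1 * w.a + 0 * w.a) * (-1 * w.c + 0 * w.c) - (-1 * w.b + 0 * w.b) ^ 2 =
    w.a * w.c - w.b ^ 2
  ring

/-- the form of a vector in the plane `lin a0 P b0 R` -/
theorem form {y P wm v R w : V3} (hy : Pr y) (hm : cross y wm = P) (hR : R = cross y v)
    {a0 b0 e : ℤ} (h : cross y w = sm e (lin a0 P b0 R)) :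
    ∃ l : ℤ, w = lin e (lin a0 wm b0 v) l y := by
  have h0 : cross y (lin 1 w (-e) (lin a0 wm b0 v)) = 0 := by
    have h1 : y.b * w.c - y.c * w.b = e * (a0 * P.a + b0 * R.a) + 0 * (a0 * P.a + b0 * R.a) :=
      congrArg V3.a h
    have h2 : y.c * w.a - y.a * w.c = e * (a0 * P.b + b0 * R.b) + 0 * (a0 * P.b + b0 * R.b) :=
      congrArg V3.b h
    have h3 : y.a * w.b - y.b * w.a = e * (a0 * P.c + b0 * R.c) + 0 * (a0 * P.c + b0 * R.c) :=
      congrArg V3.c h
    have m1 : y.b * wm.c - y.c * wm.b = P.a := congrArg V3.a hm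
    have m2 : y.c * wm.a - y.a * wm.c = P.b := congrArg V3.b hm
    have m3 : y.a * wm.b - y.b * wm.a = P.c := congrArg V3.c hm
    have r1 : R.a = y.b * v.c - y.c * v.b := congrArg V3.a hR
    have r2 : R.b = y.c * v.a - y.a * v.c := congrArg V3.b hR
    have r3 : R.c = y.a * v.b - y.b * v.a := congrArg V3.c hR
    ext
    · show y.b * (1 * w.c + -e * (a0 * wm.c + b0 * v.c)) -
        y.c * (1 * w.b + -e * (a0 * wm.b + b0 * v.b)) = 0
      linear_combination h1 - e * a0 * m1 + e * b0 * r1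
    · show y.c * (1 * w.a + -e * (a0 * wm.a + b0 * v.a)) -
        y.a * (1 * w.c + -e * (a0 * wm.c + b0 * v.c)) = 0
      linear_combination h2 - e * a0 * m2 + e * b0 * r2
    · show y.a * (1 * w.b + -e * (a0 * wm.b + b0 * v.b)) -
        y.b * (1 * w.a + -e * (a0 * wm.a + b0 * v.a)) = 0
      linear_combination h3 - e * a0 * m3 + e * b0 * r3
  obtain ⟨l, hl⟩ := par hy h0
  have l1 : 1 * w.a + -e * (a0 * wm.a + b0 * v.a) = l * y.a + 0 * y.a := congrArg V3.a hl
  have l2 : 1 * w.b + -e * (a0 * wm.b + b0 * v.b) = l * y.b + 0 * y.b := congrArg V3.b hl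
  have l3 : 1 * w.c + -e * (a0 * wm.c + b0 * v.c) = l * y.c + 0 * y.c := congrArg V3.c hl
  refine ⟨l, ?_⟩
  ext
  · show w.a = e * (a0 * wm.a + b0 * v.a) + l * y.a
    linear_combination l1
  · show w.b = e * (a0 * wm.b + b0 * v.b) + l * y.b
    linear_combination l2
  · show w.c = e * (a0 * wm.c + b0 * v.c) + l * y.c
    linear_combination l3

/-- the real estimate for `cc` -/
theorem cc_bound {D Z e Pi dt ca cb cc g ph : ℝ} (hD : 1 ≤ D) (he : 1 ≤ e) (hPi : 99 / 100 ≤ Pi)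
    (hcc : |cc| ≤ 1 / 100) (hca : e * Pi ≤ |ca| + |cc|) (hcb : |cb| ≤ 5 * (e * Pi))
    (hdt : dt = D * ca * cc - Z ^ 2 * cb ^ 2) (hg : 0 < g) (hph : 0 < ph)
    (hd : |dt| ≤ Pi * D * g / ph) :
    |cc| ≤ 103 / 100 * g / (e * ph) + 26 * (Z ^ 2 / D) * e * Pi := by
  have heP : 99 / 100 ≤ e * Pi := by nlinarith
  have hePp : 0 < e * Pi := by linarith
  have h1 : 98 / 100 * (e * Pi) ≤ |ca| := by linarith
  have h2 : D * |ca| * |cc| ≤ Pi * D * g / ph + 25 * Z ^ 2 * (e * Pi) ^ 2 := by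
    have h3 : D * ca * cc = dt + Z ^ 2 * cb ^ 2 := by rw [hdt]; ring
    have h4 : |D * ca * cc| = D * |ca| * |cc| := by
      rw [abs_mul, abs_mul, abs_of_pos (by linarith : 0 < D)]
    have h5 : |dt + Z ^ 2 * cb ^ 2| ≤ |dt| + Z ^ 2 * cb ^ 2 := by
      refine (abs_add_le _ _).trans ?_
      rw [abs_of_nonneg (by positivity : 0 ≤ Z ^ 2 * cb ^ 2)]
    have h6 : cb ^ 2 ≤ 25 * (e * Pi) ^ 2 := by
      have : |cb| ^ 2 ≤ (5 * (e * Pi)) ^ 2 := pow_le_pow_left₀ (abs_nonneg _) hcb 2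
      rw [sq_abs] at this
      nlinarith
    have h7 : Z ^ 2 * cb ^ 2 ≤ 25 * Z ^ 2 * (e * Pi) ^ 2 := by
      have := mul_le_mul_of_nonneg_left h6 (sq_nonneg Z)
      nlinarith
    rw [← h4, h3]
    linarith
  have h8 : D * (98 / 100 * (e * Pi)) * |cc| ≤ D * |ca| * |cc| := by
    refine mul_le_mul_of_nonneg_right ?_ (abs_nonneg _)
    exact mul_le_mul_of_nonneg_left h1 (by linarith)
  have hq : 0 < D * (98 / 100 * (e * Pi)) := by positivity
  have h9 : |cc| ≤ (Pi * D * g / ph + 25 * Z ^ 2 * (e * Pi) ^ 2) / (D * (98 / 100 * (e * Pi))) := by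
    rw [le_div_iff₀ hq]
    linarith
  refine h9.trans ?_
  have hPi0 : Pi ≠ 0 := by
    intro h
    rw [h] at hPi
    linarith
  have he0 : e ≠ 0 := by
    intro h
    rw [h] at he
    linarith
  have hD0 : D ≠ 0 := by
    intro h
    rw [h] at hD
    linarith
  have h10 : (Pi * D * g / ph + 25 * Z ^ 2 * (e * Pi) ^ 2) / (D * (98 / 100 * (e * Pi))) =
      100 / 98 * (g / (e * ph)) + 2500 / 98 * ((Z ^ 2 / D) * e * Pi) := by
    field_simp
    ring
  rw [h10]
  have h11 : 0 ≤ g / (e * ph) := by positivity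
  have h12 : 0 ≤ (Z ^ 2 / D) * e * Pi := by positivity
  have h13 : 103 / 100 * g / (e * ph) = 103 / 100 * (g / (e * ph)) := by ring
  rw [h13]
  have h14 : 26 * (Z ^ 2 / D) * e * Pi = 26 * ((Z ^ 2 / D) * e * Pi) := by ring
  rw [h14]
  nlinarith

/-- the bound for `e` -/
theorem e_bound {β G D c e ph M : ℝ} (hβ : 0 < β) (hβ1 : β ≤ 1 / 10000) (hG : 1 ≤ G)
    (hG1 : 1000000 ≤ G ^ (β / 10000)) (hD : G ^ (20 : ℕ) ≤ D)
    (hc : G ^ (-1 - 3 * (β / 100)) ≤ c) (he : 1 ≤ e) (hph : (c * e) ^ (49 / 50 : ℝ) ≤ ph)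
    (hM : ph * G ^ (-(4 * (β / 100))) ≤ M) (hM1 : M ≤ 101 / 100 * G ^ (1 + 2 * (β / 100)) * D) :
    e ≤ D ^ (6 / 5 : ℝ) := by
  have hGp : 0 < G := by linarith
  have hD1 : 1 ≤ D := (one_le_pow₀ hG).trans hD
  have hDp : 0 < D := by linarith
  have hcp : 0 < c := (Real.rpow_pos_of_pos hGp _).trans_le hc
  have h1 : ph ≤ G ^ (1 + 7 * (β / 100)) * D := by
    have h2 : ph = ph * G ^ (-(4 * (β / 100))) * G ^ (4 * (β / 100)) := by
      rw [mul_assoc, ← Real.rpow_add hGp, neg_add_cancel, Real.rpow_zero, mul_one]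
    have h3 : ph ≤ 101 / 100 * G ^ (1 + 2 * (β / 100)) * D * G ^ (4 * (β / 100)) := by
      rw [h2]
      exact mul_le_mul_of_nonneg_right (hM.trans hM1) (Real.rpow_nonneg hGp.le _)
    have h4 : 101 / 100 * G ^ (1 + 2 * (β / 100)) * D * G ^ (4 * (β / 100)) =
        101 / 100 * (G ^ (1 + 6 * (β / 100)) * D) := by
      have : G ^ (1 + 6 * (β / 100)) = G ^ (1 + 2 * (β / 100)) * G ^ (4 * (β / 100)) := by
        rw [← Real.rpow_add hGp]
        congr 1
        ring
      rw [this]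
      ring
    have h5 : (101 / 100 : ℝ) ≤ G ^ (β / 100) := by
      have : G ^ (β / 10000) ≤ G ^ (β / 100) :=
        Real.rpow_le_rpow_of_exponent_le hG (by linarith)
      linarith
    have h6 : G ^ (1 + 7 * (β / 100)) = G ^ (β / 100) * G ^ (1 + 6 * (β / 100)) := by
      rw [← Real.rpow_add hGp]
      congr 1
      ring
    rw [h4] at h3
    refine h3.trans ?_
    rw [h6, mul_assoc]
    exact mul_le_mul_of_nonneg_right h5 (by positivity)
  have h7 : c * e ≤ (G ^ (1 + 7 * (β / 100)) * D) ^ (50 / 49 : ℝ) := by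
    have h8 : ((c * e) ^ (49 / 50 : ℝ)) ^ (50 / 49 : ℝ) ≤
        (G ^ (1 + 7 * (β / 100)) * D) ^ (50 / 49 : ℝ) :=
      Real.rpow_le_rpow (by positivity) (hph.trans h1) (by norm_num)
    rw [← Real.rpow_mul (by positivity)] at h8
    norm_num at h8
    exact h8
  have h9 : e ≤ G ^ (1 + 3 * (β / 100)) * (c * e) := by
    have h10 : 1 ≤ G ^ (1 + 3 * (β / 100)) * c := by
      have h11 : G ^ (1 + 3 * (β / 100)) * G ^ (-1 - 3 * (β / 100)) = 1 := by
        rw [← Real.rpow_add hGp]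
        have : (1 + 3 * (β / 100)) + (-1 - 3 * (β / 100)) = 0 := by ring
        rw [this, Real.rpow_zero]
      calc (1 : ℝ) = G ^ (1 + 3 * (β / 100)) * G ^ (-1 - 3 * (β / 100)) := h11.symm
        _ ≤ _ := mul_le_mul_of_nonneg_left hc (Real.rpow_nonneg hGp.le _)
    have h12 : 1 * e ≤ G ^ (1 + 3 * (β / 100)) * c * e :=
      mul_le_mul_of_nonneg_right h10 (by linarith)
    linarith
  have h13 : e ≤ G ^ (1 + 3 * (β / 100)) * (G ^ (1 + 7 * (β / 100)) * D) ^ (50 / 49 : ℝ) :=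
    h9.trans (mul_le_mul_of_nonneg_left h7 (Real.rpow_nonneg hGp.le _))
  refine h13.trans ?_
  rw [Real.mul_rpow (Real.rpow_nonneg hGp.le _) hDp.le, ← Real.rpow_mul hGp.le, ← mul_assoc,
    ← Real.rpow_add hGp]
  have h14 : G ^ (1 + 3 * (β / 100) + (1 + 7 * (β / 100)) * (50 / 49)) ≤ G ^ (21 / 10 : ℝ) := by
    refine Real.rpow_le_rpow_of_exponent_le hG ?_
    nlinarith
  have h15 : G ^ (21 / 10 : ℝ) ≤ D ^ (21 / 200 : ℝ) := by
    have h16 : (G ^ (20 : ℕ)) ^ (21 / 200 : ℝ) ≤ D ^ (21 / 200 : ℝ) :=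
      Real.rpow_le_rpow (by positivity) hD (by norm_num)
    rw [← Real.rpow_natCast, ← Real.rpow_mul hGp.le] at h16
    norm_num at h16
    norm_num
    exact h16
  calc G ^ (1 + 3 * (β / 100) + (1 + 7 * (β / 100)) * (50 / 49)) * D ^ (50 / 49 : ℝ)
      ≤ D ^ (21 / 200 : ℝ) * D ^ (50 / 49 : ℝ) :=
        mul_le_mul_of_nonneg_right (h14.trans h15) (Real.rpow_nonneg hDp.le _)
    _ = D ^ (21 / 200 + 50 / 49 : ℝ) := (Real.rpow_add hDp _ _).symm
    _ ≤ D ^ (6 / 5 : ℝ) := Real.rpow_le_rpow_of_exponent_le hD1 (by norm_num)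

end HWBDaux

open HWBDaux in
theorem hwbd (h1 : Stmt_HWFR) (h2 : Stmt_NZ5) (h3 : Stmt_HWPL) : Stmt_HWBD := by
  intro β B y P wm v R hβ hβ1 hN hP hB a0 b0 hb1 hb2 ha1 ha2 hW
  obtain ⟨hl1, hl2, hl3⟩ := h3 β B y P wm v R hβ hβ1 hN hP hB a0 b0 hb1 hb2 ha1 ha2
  have hF := h1 y hP.ya hP.dt
  set G := GG y P with hG
  set b := bb y P with hb
  set D := dl y with hD
  set c := cs β B y P with hc
  set P0 := lin a0 P b0 R with hP0
  have hGp : 0 < G := by linarith [hP.G0]
  have hD1 : 1 ≤ D := hF.D1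
  have hDp : 0 < D := by linarith
  have hcp : 0 < c := (Real.rpow_pos_of_pos hGp _).trans_le hP.c1
  have hGb : (1000000 : ℝ) ≤ G ^ (1 - 3 * β) := by
    refine hP.G1.trans (Real.rpow_le_rpow_of_exponent_le hP.G0 ?_)
    linarith
  have ha0 : (1000000 : ℝ) ≤ a0 := hGb.trans (hP.A1.trans ha1)
  have hb0 : 1 ≤ b := hP.b0
  have hab : (1000000 : ℝ) ≤ a0 * b := by nlinarith
  have habD : 0 < a0 * (b * D) := by
    have : (0 : ℝ) < a0 := by linarith
    positivity
  have hdd : 0 < |dd y P0| := by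
    refine lt_of_lt_of_le ?_ hl1
    positivity
  -- the bad vector
  have hbad : ∃ (w : V3) (e : ℤ), 1 ≤ e ∧ 1 ≤ 2 * c * (e : ℝ) ∧ cross y w = sm e P0 ∧
      |cc y w| ≤ c ∧ |(det w : ℝ)| * (Phi G (c * e) * G ^ (-(4 * (β / 100)))) < |dd y P0| := by
    unfold Wpl at hW
    push Not at hW
    obtain ⟨w, e, he1, hx, hcw, hd⟩ := hW
    have he0 : e ≠ 0 := by
      rintro rfl
      norm_num at he1
    rcases lt_or_gt_of_ne he0 with hlt | hgt
    · refine ⟨sm (-1) w, -e, by omega, ?_, cross_neg y w P0 e hx, ?_, ?_⟩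
      · have : |(e : ℝ)| = ((-e : ℤ) : ℝ) := by
          rw [abs_of_neg (by exact_mod_cast hlt)]
          push_cast
          ring
        rw [← this]
        exact he1
      · have : cc y (sm (-1) w) = -cc y w := by
          rw [sm, hF.lc]
          push_cast
          ring
        rw [this, abs_neg]
        exact hcw
      · have : |(e : ℝ)| = ((-e : ℤ) : ℝ) := by
          rw [abs_of_neg (by exact_mod_cast hlt)]
          push_cast
          ring
        rw [det_neg, ← this]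
        exact hd
    · have : |(e : ℝ)| = (e : ℝ) := abs_of_pos (by exact_mod_cast hgt)
      rw [this] at he1 hd
      exact ⟨w, e, by omega, he1, hx, hcw, hd⟩
  obtain ⟨w, e, he1, hce, hx, hcw, hd⟩ := hbad
  have he1' : (1 : ℝ) ≤ e := by exact_mod_cast he1
  have hep : (0 : ℝ) < e := by linarith
  obtain ⟨l, hl⟩ := form hN.py hB.hm hB.hR hx
  have hss : si y * si y = 1 := by exact_mod_cast hF.ss
  have hwv : wv y wm v b0 a0 e (-(l * si y)) = w := by
    rw [wv, hl]
    congr 1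
    rw [neg_mul, neg_neg, mul_assoc, hss, mul_one]
  have hccw : cc y w = e * (cc y wm * a0 + b0 * cc y v) - ((-(l * si y) : ℤ) : ℝ) := by
    rw [hl, hF.lc, hF.lc, hF.cy]
    push_cast
    ring
  have hph : 0 < Phi G (c * e) := lt_max_of_lt_left (Real.rpow_pos_of_pos hGp _)
  set g := G ^ (4 * (β / 100)) with hg
  have hgp : 0 < g := Real.rpow_pos_of_pos hGp _
  have hgi : G ^ (-(4 * (β / 100))) = g⁻¹ := Real.rpow_neg hGp.le _
  -- `det w`
  have hdet : |(det w : ℝ)| ≤ |dd y P0| * g / Phi G (c * e) := by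
    rw [le_div_iff₀ hph]
    rw [hgi] at hd
    have h4 : |(det w : ℝ)| * (Phi G (c * e) * g⁻¹) * g ≤ |dd y P0| * g :=
      mul_le_mul_of_nonneg_right hd.le hgp.le
    have h5 : |(det w : ℝ)| * (Phi G (c * e) * g⁻¹) * g = |(det w : ℝ)| * Phi G (c * e) := by
      field_simp
    rwa [h5] at h4
  have hcc100 : |cc y w| ≤ 1 / 100 := hcw.trans hP.c2
  -- `Π`
  set Q := |dd y P0| / D with hQ
  have hQD : |dd y P0| = Q * D := by
    rw [hQ]
    field_simp
  have hQ1 : 99 / 100 * (a0 * b) ≤ Q := by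
    rw [hQ, le_div_iff₀ hDp]
    calc 99 / 100 * (a0 * b) * D = 99 / 100 * (a0 * (b * D)) := by ring
      _ ≤ _ := hl1
  have hQ2 : Q ≤ 101 / 100 * (a0 * b) := by
    rw [hQ, div_le_iff₀ hDp]
    calc |dd y P0| ≤ 101 / 100 * (a0 * (b * D)) := hl2
      _ = _ := by ring
  have hsi : |(si y : ℝ)| = 1 := by
    have h6 := hF.ss
    have h7 : |(si y : ℝ)| * |(si y : ℝ)| = 1 := by
      rw [← abs_mul, h6, abs_one]
    nlinarith [abs_nonneg (si y : ℝ)]
  have hca : e * Q ≤ |ca y w| + |cc y w| := by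
    have h8 := hF.crd w P0 e hx
    have h9 : e * |dd y P0| = D * |si y * ca y w - cc y w| := by
      have h10 := congrArg abs h8
      rw [abs_mul, abs_mul, abs_of_pos hep, abs_of_pos hDp] at h10
      exact h10
    have h11 : |si y * ca y w - cc y w| ≤ |ca y w| + |cc y w| := by
      refine (abs_sub _ _).trans ?_
      rw [abs_mul, hsi, one_mul]
    rw [hQD] at h9
    have h12 : D * (e * Q) = D * |si y * ca y w - cc y w| := by
      rw [← h9]
      ring
    have h13 := mul_left_cancel₀ hDp.ne' h12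
    rw [h13]
    exact h11
  have hcb : |cb y w| ≤ 5 * (e * Q) := by
    have h14 := hF.crc w P0 e hx
    have h15 : e * |(P0.c : ℝ)| = D * |cb y w| := by
      have h16 := congrArg abs h14
      rw [abs_mul, abs_mul, abs_of_pos hep, abs_of_pos hDp] at h16
      exact h16
    have h17 : e * |(P0.c : ℝ)| ≤ e * (5 * |dd y P0|) := mul_le_mul_of_nonneg_left hl3 hep.le
    rw [h15, hQD] at h17
    have h18 : D * |cb y w| ≤ D * (5 * (e * Q)) := by
      refine h17.trans (le_of_eq ?_)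
      ring
    exact le_of_mul_le_mul_left h18 hDp
  have hmain := cc_bound (D := D) (Z := zz y) (e := e) (Pi := Q) (dt := (det w : ℝ))
    (ca := ca y w) (cb := cb y w) (cc := cc y w) (g := g) (ph := Phi G (c * e)) hD1 he1'
    (by nlinarith) hcc100 hca hcb (hF.dt w) hgp hph (by rw [← hQD]; exact hdet)
  have hrr : zz y ^ 2 / D = rr y := by
    have hya : (0 : ℝ) < y.a := by exact_mod_cast hP.ya
    rw [zz, rr, ← hD]
    field_simp
  -- the bound for `e`
  have hM1 : |dd y P0| ≤ 101 / 100 * G ^ (1 + 2 * (β / 100)) * D := by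
    have h19 : (a0 : ℝ) * b ≤ AA β B y P * b := mul_le_mul_of_nonneg_right ha2 (by linarith)
    rw [hP.Ab] at h19
    have h20 : B * G ^ (1 + β / 100) ≤ G ^ (β / 100) * G ^ (1 + β / 100) :=
      mul_le_mul_of_nonneg_right hP.B2 (Real.rpow_nonneg hGp.le _)
    rw [← Real.rpow_add hGp] at h20
    have h21 : β / 100 + (1 + β / 100) = 1 + 2 * (β / 100) := by ring
    rw [h21] at h20
    calc |dd y P0| ≤ 101 / 100 * (a0 * (b * D)) := hl2
      _ = 101 / 100 * (a0 * b) * D := by ring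
      _ ≤ 101 / 100 * G ^ (1 + 2 * (β / 100)) * D := by
          refine mul_le_mul_of_nonneg_right ?_ hDp.le
          exact mul_le_mul_of_nonneg_left (h19.trans h20) (by norm_num)
  have hdne : det w ≠ 0 := by
    refine h2 y P0 w e hP.ya hP.dt ?_ hl3 ?_ ?_ (by omega) hx ?_
    · intro h
      rw [h] at hdd
      have : dd y (0 : V3) = 0 := by
        show ((0 : ℤ) : ℝ) + 2 * ((0 : ℤ) : ℝ) * tt y = 0
        simp
      rw [this, abs_zero] at hdd
      exact lt_irrefl _ hdd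
    · show 2000 * D * |dd y P0| ≤ (y.a : ℝ)
      rw [hP.Yf]
      have h22 : 2020 * G ^ (2 * (β / 100)) ≤ b := by
        have h23 : (2020 : ℝ) ≤ G ^ (β / 10000) := by linarith [hP.G1]
        have h24 : 2020 * G ^ (2 * (β / 100)) ≤ G ^ (β / 10000) * G ^ (2 * (β / 100)) :=
          mul_le_mul_of_nonneg_right h23 (Real.rpow_nonneg hGp.le _)
        rw [← Real.rpow_add hGp] at h24
        refine h24.trans (le_trans ?_ hP.b1)
        refine Real.rpow_le_rpow_of_exponent_le hP.G0 ?_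
        linarith
      have h25 : G ^ (1 + 2 * (β / 100)) = G * G ^ (2 * (β / 100)) := by
        rw [Real.rpow_add hGp, Real.rpow_one]
      calc 2000 * D * |dd y P0| ≤ 2000 * D * (101 / 100 * G ^ (1 + 2 * (β / 100)) * D) :=
            mul_le_mul_of_nonneg_left hM1 (by positivity)
        _ = G * (2020 * G ^ (2 * (β / 100))) * D ^ 2 := by
            rw [h25]
            ring
        _ ≤ G * b * D ^ 2 := by
            refine mul_le_mul_of_nonneg_right ?_ (by positivity)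
            exact mul_le_mul_of_nonneg_left h22 hGp.le
    · show D ≤ |dd y P0|
      refine le_trans ?_ hl1
      have : 99 / 100 * (a0 * (b * D)) = 99 / 100 * (a0 * b) * D := by ring
      rw [this]
      nlinarith
    · linarith
  have hdet1 : (1 : ℝ) ≤ |(det w : ℝ)| := by
    rw [← Int.cast_abs]
    exact_mod_cast Int.one_le_abs hdne
  have hphM : Phi G (c * e) * G ^ (-(4 * (β / 100))) ≤ |dd y P0| := by
    have h26 : 0 ≤ Phi G (c * e) * G ^ (-(4 * (β / 100))) :=
      mul_nonneg hph.le (Real.rpow_nonneg hGp.le _)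
    have h27 := mul_le_mul_of_nonneg_right hdet1 h26
    linarith
  have hebd := e_bound (β := β) (G := G) (D := D) (c := c) (e := e) (ph := Phi G (c * e))
    (M := |dd y P0|) hβ hβ1 hP.G0 hP.G1 hP.D1 hP.c1 he1' (le_max_right _ _) hphM hM1
  refine ⟨e, -(l * si y), he1, hebd, ?_, ?_⟩
  · have h28 : |((-(l * si y) : ℤ) : ℝ) - e * (cc y wm * a0 + b0 * cc y v)| = |cc y w| := by
      rw [hccw, abs_sub_comm]
    rw [h28]
    refine hmain.trans ?_
    rw [hrr]
    have hrp : 0 ≤ rr y := by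
      rw [rr]
      positivity
    have h29 : 103 / 100 * g / (e * Phi G (c * e)) ≤ 2 * g / (e * Phi G (c * e)) := by
      refine div_le_div_of_nonneg_right ?_ (by positivity)
      linarith
    have h30 : 26 * rr y * e * Q ≤ 30 * rr y * e * (a0 * b) := by
      have h31 : 0 ≤ rr y * e := by positivity
      have h32 : 26 * Q ≤ 30 * (a0 * b) := by nlinarith
      have h33 := mul_le_mul_of_nonneg_left h32 h31
      linarith
    linarith
  · rw [hwv]
    refine hdet.trans ?_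
    refine div_le_div_of_nonneg_right ?_ hph.le
    refine mul_le_mul_of_nonneg_right ?_ hgp.le
    linarith

end ULB
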