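import Pool.Agent.ULB.StmtsHW

/-!
# HWEP: the size condition of the inverse theorem (MP_c538e3_nt, lower bound 1/3)
-/

set_option autoImplicit false

namespace ULB

namespace HWEPaux

open Real

/-- a lower bound for `log G` -/
lemma logG_bound {β G : ℝ} (hβ : 0 < β) (hβ1 : β ≤ 1 / 10000) (hG6 : 1000000 ≤ G ^ (β / 10000))
    (hG1 : 1 ≤ G) : 100000 ≤ log G := by
  have hGp : 0 < G := by linarith
  have h1 : log 1000000 ≤ log (G ^ (β / 10000)) := log_le_log (by norm_num) hG6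
  rw [log_rpow hGp] at h1
  have h2 : 5 ≤ log 1000000 := by
    rw [le_log_iff_exp_le (by norm_num)]
    have h3 : exp 5 = exp 1 ^ 5 := by
      rw [← exp_nat_mul]; norm_num
    rw [h3]
    have h4 : exp 1 < 3 := lt_trans exp_one_lt_d9 (by norm_num)
    have h5 : exp 1 ^ 5 ≤ 3 ^ 5 := pow_le_pow_left₀ (exp_pos 1).le h4.le 5
    linarith
  have h0 : 0 ≤ log G := log_nonneg hG1
  have h6 : β / 10000 * log G ≤ 1 / 100000000 * log G :=
    mul_le_mul_of_nonneg_right (by linarith) h0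
  linarith

/-- the main term against `Phi` -/
lemma key1 {β G c A' X : ℝ} (hβ : 0 < β) (hβ1 : β ≤ 1 / 10000)
    (hg : 100000 ≤ log G) (hG1 : 1 ≤ G) (hc : G ^ (-1 - 3 * (β / 100)) ≤ c) (hA1 : 1 ≤ A')
    (hAG : A' ≤ G) (hX1 : 1 ≤ X) :
    8 * G ^ (4 * (β / 100)) * X ^ (1 / 3 : ℝ) * A' ^ (1 / 4 : ℝ) ≤ Phi G (c * (X / 2)) := by
  have hGp : 0 < G := by linarith
  have hAp : 0 < A' := by linarith
  have hXp : 0 < X := by linarith
  have hcp : 0 < c := lt_of_lt_of_le (rpow_pos_of_pos hGp _) hc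
  have hag : log A' ≤ log G := log_le_log hAp hAG
  have h8 : log 8 ≤ 7 := by
    have := log_le_sub_one_of_pos (show (0 : ℝ) < 8 by norm_num); linarith
  have h2 : log 2 ≤ 1 := by
    have := log_le_sub_one_of_pos (show (0 : ℝ) < 2 by norm_num); linarith
  have hκ : β / 100 * log G ≤ 1 / 1000000 * log G :=
    mul_le_mul_of_nonneg_right (by linarith) (by linarith)
  have e1 : 8 * G ^ (4 * (β / 100)) * X ^ (1 / 3 : ℝ) * A' ^ (1 / 4 : ℝ) =
      exp (log 8 + log G * (4 * (β / 100)) + log X * (1 / 3) + log A' * (1 / 4)) := by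
    rw [exp_add, exp_add, exp_add, exp_log (by norm_num : (0 : ℝ) < 8), ← rpow_def_of_pos hGp,
      ← rpow_def_of_pos hXp, ← rpow_def_of_pos hAp]
  rw [e1]
  unfold Phi
  rcases le_total (log X) (2 * log G) with h | h
  · refine le_trans ?_ (le_max_left _ _)
    rw [rpow_def_of_pos hGp]
    refine exp_le_exp.2 ?_
    linarith
  · refine le_trans ?_ (le_max_right _ _)
    rw [rpow_def_of_pos (by positivity), log_mul hcp.ne' (by positivity),
      log_div hXp.ne' (by norm_num)]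
    have hlc : log G * (-1 - 3 * (β / 100)) ≤ log c := by
      have := log_le_log (rpow_pos_of_pos hGp _) hc
      rw [log_rpow hGp] at this
      linarith
    refine exp_le_exp.2 ?_
    linarith

/-- the curvature term -/
lemma key2 {G b D r A' X : ℝ} (hg : 100000 ≤ log G) (hG1 : 1 ≤ G) (hb : 1 ≤ b) (hA1 : 1 ≤ A')
    (hAG : A' ≤ G) (hX1 : 1 ≤ X) (hXD : X ≤ 2 * D ^ (6 / 5 : ℝ)) (hGD : G ^ (20 : ℕ) ≤ D)
    (hr : r = 1 / (G ^ 2 * b ^ 2 * D ^ 3)) :
    60 * r * X * (A' * b) * X ^ (4 / 3 : ℝ) * A' ^ (1 / 4 : ℝ) ≤ 1 := by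
  have hGp : 0 < G := by linarith
  have hbp : 0 < b := by linarith
  have hAp : 0 < A' := by linarith
  have hXp : 0 < X := by linarith
  have hDp : 0 < D := lt_of_lt_of_le (by positivity) hGD
  have hag : log A' ≤ log G := log_le_log hAp hAG
  have hb0 : 0 ≤ log b := log_nonneg hb
  have h60 : log 60 ≤ 59 := by
    have := log_le_sub_one_of_pos (show (0 : ℝ) < 60 by norm_num); linarith
  have h2 : log 2 ≤ 1 := by
    have := log_le_sub_one_of_pos (show (0 : ℝ) < 2 by norm_num); linarith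
  have hd : 20 * log G ≤ log D := by
    have := log_le_log (by positivity) hGD
    rw [log_pow] at this
    exact_mod_cast this
  have hx : log X ≤ log 2 + 6 / 5 * log D := by
    have := log_le_log hXp hXD
    rw [log_mul (by norm_num) (rpow_pos_of_pos hDp _).ne', log_rpow hDp] at this
    exact this
  have hr' : r = exp (-(2 * log G + 2 * log b + 3 * log D)) := by
    rw [exp_neg, exp_add, exp_add, hr, one_div]
    congr 1
    rw [← exp_log hGp, ← exp_log hbp, ← exp_log hDp]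
    simp only [log_exp]
    rw [← exp_nat_mul, ← exp_nat_mul, ← exp_nat_mul]
    norm_num
  have e1 : 60 * r * X * (A' * b) * X ^ (4 / 3 : ℝ) * A' ^ (1 / 4 : ℝ) =
      exp (log 60 + -(2 * log G + 2 * log b + 3 * log D) + log X + (log A' + log b) +
        log X * (4 / 3) + log A' * (1 / 4)) := by
    rw [exp_add, exp_add, exp_add, exp_add, exp_add, exp_add (log A'), exp_log (by norm_num : (0 : ℝ) < 60),
      ← rpow_def_of_pos hXp, ← rpow_def_of_pos hAp, exp_log hXp, exp_log hAp, exp_log hbp, ← hr']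
  rw [e1]
  refine exp_le_one_iff.2 ?_
  linarith

end HWEPaux

open HWEPaux in
theorem hwep : Stmt_HWEP := by
  intro β G b D c r A' X hβ hβ1 hG6 hG1 hb hc hA1 hAG hX1 hXD hGD hr
  have hg := logG_bound hβ hβ1 hG6 hG1
  have k1 := key1 hβ hβ1 hg hG1 hc hA1 hAG hX1
  have k2 := key2 hg hG1 hb hA1 hAG hX1 hXD hGD hr
  have hGp : 0 < G := by linarith
  have hAp : 0 < A' := by linarith
  have hXp : 0 < X := by linarith
  have hP : 0 < Phi G (c * (X / 2)) := lt_of_lt_of_le (by positivity) k1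
  have hX43 : X ^ (4 / 3 : ℝ) = X * X ^ (1 / 3 : ℝ) := by
    rw [← Real.rpow_one_add' hXp.le (by norm_num)]
    norm_num
  have e : (4 * G ^ (4 * (β / 100)) / (X * Phi G (c * (X / 2))) + 30 * r * X * (A' * b)) *
      X ^ (4 / 3 : ℝ) * A' ^ (1 / 4 : ℝ) =
      (8 * G ^ (4 * (β / 100)) * X ^ (1 / 3 : ℝ) * A' ^ (1 / 4 : ℝ)) /
        (2 * Phi G (c * (X / 2))) +
      (60 * r * X * (A' * b) * X ^ (4 / 3 : ℝ) * A' ^ (1 / 4 : ℝ)) / 2 := by
    have h1 : 4 * G ^ (4 * (β / 100)) / (X * Phi G (c * (X / 2))) * X ^ (4 / 3 : ℝ) =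
        8 * G ^ (4 * (β / 100)) * X ^ (1 / 3 : ℝ) / (2 * Phi G (c * (X / 2))) := by
      rw [hX43]
      field_simp
      ring
    rw [add_mul, add_mul, h1]
    ring
  rw [e]
  have h3 : (8 * G ^ (4 * (β / 100)) * X ^ (1 / 3 : ℝ) * A' ^ (1 / 4 : ℝ)) /
        (2 * Phi G (c * (X / 2))) ≤ 1 / 2 := by
    rw [div_le_iff₀ (by positivity)]
    linarith
  linarith

end ULB
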