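import Pool.Agent.ULB.StmtsHW

/-!
# HWFN: a numerical inequality for `Phi` (MP_c538e3_nt, lower bound `1/3`)
-/

set_option autoImplicit false

namespace ULB

open WHP (V3 det be ga dot cross lin tt)
open WHS (hh ev der)

namespace HWFNaux

theorem rp (x s : ℝ) : (Real.exp x) ^ s = Real.exp (x * s) := (Real.exp_mul x s).symm

/-- the numbers -/
theorem num (β g l a x t : ℝ) (hβ : 0 < β) (hβ1 : β ≤ 1 / 10000) (hg : 1 ≤ g * (β / 10000))
    (hl : g * (-1 - 3 * (β / 100)) ≤ l) (ha : g * (1 - 3 * β) ≤ a) (ht1 : t ≤ 1) :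
    t + g * (4 * (β / 100)) + a * (-1 + 60 * (1 / 100000)) + g * (99 / 100) < g * (99 / 100) ∧
    (t + g * (4 * (β / 100)) + a * (-1 + 60 * (1 / 100000))
        + (x + a * (60 * (1 / 100000))) * (49 / 50) < g * (99 / 100) ∨
      t + g * (4 * (β / 100)) + a * (-1 + 60 * (1 / 100000))
        + (x + a * (60 * (1 / 100000))) * (49 / 50) < (l + (x - t)) * (49 / 50)) := by
  have hg0 : 0 < g := by
    by_contra h
    have h1 : g ≤ 0 := not_lt.1 h
    nlinarith [mul_nonneg (neg_nonneg.2 h1) hβ.le]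
  have hgb : g * β ≤ g * (1 / 10000) := mul_le_mul_of_nonneg_left hβ1 hg0.le
  have hg8 : 100000000 ≤ g := by nlinarith
  refine ⟨by nlinarith, ?_⟩
  by_cases hx : x ≤ 2 * g
  · left
    nlinarith
  · right
    push Not at hx
    nlinarith

end HWFNaux

open HWFNaux in
theorem hwfn : Stmt_HWFN := by
  intro β G c A' X hβ hβ1 hG6 hG1 hc hA1 hA2 hX
  have hG : 0 < G := by linarith
  have hc0 : 0 < c := lt_of_lt_of_le (Real.rpow_pos_of_pos hG _) hc
  have hA0 : 0 < A' := lt_of_lt_of_le (Real.rpow_pos_of_pos hG _) hA1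
  have hX0 : 0 < X := by linarith
  obtain ⟨g, rfl⟩ : ∃ g, Real.exp g = G := ⟨Real.log G, Real.exp_log hG⟩
  obtain ⟨l, rfl⟩ : ∃ l, Real.exp l = c := ⟨_, Real.exp_log hc0⟩
  obtain ⟨a, rfl⟩ : ∃ a, Real.exp a = A' := ⟨_, Real.exp_log hA0⟩
  obtain ⟨x, rfl⟩ : ∃ x, Real.exp x = X := ⟨_, Real.exp_log hX0⟩
  obtain ⟨t, ht⟩ : ∃ t, Real.exp t = 2 := ⟨_, Real.exp_log (by norm_num)⟩
  rw [rp] at hG6 hc hA1
  rw [Real.exp_le_exp] at hc hA1 hA2
  have ht1 : t ≤ 1 := by
    have h1 : Real.exp t ≤ Real.exp 1 := by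
      rw [ht]
      have := Real.add_one_le_exp (1 : ℝ)
      linarith
    exact Real.exp_le_exp.1 h1
  have hg : 1 ≤ g * (β / 10000) := by
    have h1 : Real.exp 1 ≤ Real.exp (g * (β / 10000)) := by
      have h2 : Real.exp 1 < 3 := by
        have := Real.exp_one_lt_d9
        linarith
      linarith
    exact Real.exp_le_exp.1 h1
  obtain ⟨h1, h2⟩ := num β g l a x t hβ hβ1 hg hc hA1 ht1
  have e1 : Real.exp x * Real.exp a ^ (60 * (1 / 100000) : ℝ)
      = Real.exp (x + a * (60 * (1 / 100000))) := by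
    rw [rp, ← Real.exp_add]
  have e2 : Real.exp l * (Real.exp x / 2) = Real.exp (l + (x - t)) := by
    rw [Real.exp_add, Real.exp_sub, ht]
  unfold Phi
  rw [e1, e2]
  rw [rp, rp, rp, rp, rp]
  rw [← ht, ← Real.exp_add, ← Real.exp_add]
  rw [mul_max_of_nonneg _ _ (Real.exp_pos _).le, ← Real.exp_add, ← Real.exp_add]
  refine max_lt ?_ ?_
  · exact lt_of_lt_of_le (Real.exp_lt_exp.2 h1) (le_max_left _ _)
  · rcases h2 with h2 | h2
    · exact lt_of_lt_of_le (Real.exp_lt_exp.2 h2) (le_max_left _ _)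
    · exact lt_of_lt_of_le (Real.exp_lt_exp.2 h2) (le_max_right _ _)

end ULB
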