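import Pool.Agent.ULB.StmtsHW

/-!
# HWFR: the frame of a node
-/

set_option autoImplicit false

namespace ULB

open WHP (V3 det be ga dot cross lin tt)
open WHS (hh ev der)

namespace HWFRaux

theorem D_pos (y : V3) (h : det y ≠ 0) : 0 < dl y := by
  unfold dl
  exact abs_pos.2 (by exact_mod_cast h)

theorem si_det (y : V3) : (si y : ℝ) * dl y = (det y : ℝ) := by
  unfold si dl
  have h : Int.sign (det y) * |det y| = det y := Int.sign_mul_abs (det y)
  exact_mod_cast h

theorem zz_eq (y : V3) (ha : 0 < y.a) : (y.a : ℝ) * zz y = dl y := by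
  have h : (y.a : ℝ) ≠ 0 := by exact_mod_cast ha.ne'
  unfold zz
  field_simp

end HWFRaux

open HWFRaux

theorem hwfr : Stmt_HWFR := by
  intro y ha hdet
  have hY : (0 : ℝ) < y.a := by exact_mod_cast ha
  have hY' : (y.a : ℝ) ≠ 0 := hY.ne'
  have hD := D_pos y hdet
  have hD' : dl y ≠ 0 := hD.ne'
  have hs := si_det y
  have hz : zz y ≠ 0 := by
    intro h
    have h1 := zz_eq y ha
    rw [h, mul_zero] at h1
    exact hD' h1.symm
  have hdY : (det y : ℝ) = y.a * y.c - (y.b : ℝ) ^ 2 := by
    unfold WHP.det
    push_cast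
    ring
  have hss : si y * si y = 1 := by
    unfold si
    rcases lt_or_gt_of_ne hdet with h | h
    · rw [Int.sign_eq_neg_one_of_neg h]
      norm_num
    · rw [Int.sign_eq_one_of_pos h]
      norm_num
  constructor
  · intro i k v w
    simp only [ca, lin]
    push_cast
    ring
  · intro i k v w
    simp only [cb, lin, be]
    push_cast
    ring
  · intro i k v w
    simp only [cc, lin, ga]
    push_cast
    ring
  · intro i k P R
    simp only [dd, lin, der]
    push_cast
    ring
  · have h1 : ga (tt y) y = (det y : ℝ) / y.a := by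
      rw [hdY]
      unfold ga tt
      field_simp
      ring
    unfold cc
    rw [h1, ← hs]
    unfold zz
    field_simp
  · exact_mod_cast hss
  · unfold dl
    have h1 : (1 : ℤ) ≤ |det y| := Int.one_le_abs hdet
    exact_mod_cast h1
  · intro v
    have h1 : dl y * ca y v * cc y v = (v.a : ℝ) * ga (tt y) v := by
      unfold ca cc zz
      field_simp
    have h2 : zz y ^ 2 * cb y v ^ 2 = be (tt y) v ^ 2 := by
      unfold cb
      field_simp
    rw [h1, h2]
    unfold WHP.det ga be
    push_cast
    ring
  · intro w P e h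
    have hb : (e : ℝ) * P.b = y.c * w.a - y.a * w.c := by
      have h1 := congrArg WHP.V3.b h
      simp only [cross, sm, lin] at h1
      have h2 : ((y.c * w.a - y.a * w.c : ℤ) : ℝ) = ((e * P.b + 0 * P.b : ℤ) : ℝ) := by rw [h1]
      push_cast at h2
      linarith
    have hc : (e : ℝ) * P.c = y.a * w.b - y.b * w.a := by
      have h1 := congrArg WHP.V3.c h
      simp only [cross, sm, lin] at h1
      have h2 : ((y.a * w.b - y.b * w.a : ℤ) : ℝ) = ((e * P.c + 0 * P.c : ℤ) : ℝ) := by rw [h1]
      push_cast at h2
      linarith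
    have h3 : dl y * cc y w = y.a * ga (tt y) w := by
      unfold cc zz
      field_simp
    have h4 : dl y * (si y * ca y w - cc y w) = (det y : ℝ) * w.a / y.a - y.a * ga (tt y) w := by
      rw [← h3, ← hs]
      unfold ca
      ring
    have h5 : (e : ℝ) * dd y P = e * P.b + 2 * (e * P.c) * tt y := by
      unfold dd der
      ring
    rw [h4, h5, hb, hc, hdY]
    unfold ga tt
    field_simp
    ring
  · intro w P e h
    have hc : (e : ℝ) * P.c = y.a * w.b - y.b * w.a := by
      have h1 := congrArg WHP.V3.c h
      simp only [cross, sm, lin] at h1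
      have h2 : ((y.a * w.b - y.b * w.a : ℤ) : ℝ) = ((e * P.c + 0 * P.c : ℤ) : ℝ) := by rw [h1]
      push_cast at h2
      linarith
    have h3 : dl y * cb y w = y.a * be (tt y) w := by
      unfold cb zz
      field_simp
    rw [h3, hc]
    unfold be tt
    field_simp

end ULB
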