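import Pool.Agent.ULB.StmtsHW

/-!
# The sizes of the parameters of a node
-/

set_option autoImplicit false

namespace ULB

open WHP (V3 det be ga dot cross lin tt)
open WHS (hh ev der)

namespace HWPAaux

/-- The parameters: inequalities between powers of `G`. -/
theorem core {β G b B D Y A c : ℝ} (hβ : 0 < β) (hβ1 : β ≤ 1 / 10000) (hG : 1 ≤ G)
    (hG1 : 1000000 ≤ G ^ (β / 10000)) (hb1 : G ^ (β / 4) ≤ b) (hb2 : b ≤ G ^ (2 * β))
    (hB : 1 ≤ B) (hB2 : B ≤ G ^ (β / 100)) (hD : G ^ (20 : ℕ) ≤ D) (hY : Y = G * b * D ^ 2)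
    (hcap : Y ≤ G ^ (1000 / β)) (hA : A = B * G ^ (1 + β / 100) / b)
    (hc : c = G ^ (β / 400) / (A * B)) :
    1 ≤ b ∧ G ^ (1 - 3 * β) ≤ A / (2 * B) ∧ A ≤ G ∧ A * b = B * G ^ (1 + β / 100) ∧
      G ^ (-1 - 3 * (β / 100)) ≤ c ∧ c ≤ 1 / 100 ∧ D ^ (6 / 5 : ℝ) ≤ G ^ (1000 / β) := by
  have hG0 : 0 < G := lt_of_lt_of_le one_pos hG
  have hB0 : 0 < B := lt_of_lt_of_le one_pos hB
  have mono : ∀ u v : ℝ, u ≤ v → G ^ u ≤ G ^ v := fun u v h =>
    Real.rpow_le_rpow_of_exponent_le hG h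
  have pw : ∀ u : ℝ, 0 < G ^ u := fun u => Real.rpow_pos_of_pos hG0 u
  have add : ∀ u v : ℝ, G ^ (u + v) = G ^ u * G ^ v := fun u v => Real.rpow_add hG0 u v
  have hb : 1 ≤ b := le_trans (Real.one_le_rpow hG (by positivity)) hb1
  have hb0 : 0 < b := lt_of_lt_of_le one_pos hb
  have hAb : A * b = B * G ^ (1 + β / 100) := by rw [hA]; field_simp
  have hA0 : 0 < A := by rw [hA]; exact div_pos (mul_pos hB0 (pw _)) hb0
  have big : ∀ u : ℝ, β / 10000 ≤ u → 1000000 ≤ G ^ u := fun u hu => le_trans hG1 (mono _ _ hu)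
  refine ⟨hb, ?_, ?_, hAb, ?_, ?_, ?_⟩
  · -- A1
    rw [le_div_iff₀ (by positivity)]
    have h1 : G ^ (1 - 3 * β) * b ≤ G ^ (1 - β) := by
      calc G ^ (1 - 3 * β) * b ≤ G ^ (1 - 3 * β) * G ^ (2 * β) :=
            mul_le_mul_of_nonneg_left hb2 (pw _).le
        _ = G ^ (1 - β) := by rw [← add]; congr 1; ring
    have h2 : 2 * G ^ (1 - β) ≤ G ^ (1 + β / 100) := by
      have h3 : G ^ (1 + β / 100) = G ^ (1 - β) * G ^ (β + β / 100) := by
        rw [← add]; congr 1; ring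
      have h4 : (2 : ℝ) ≤ G ^ (β + β / 100) := le_trans (by norm_num) (big _ (by linarith))
      rw [h3]
      nlinarith [pw (1 - β)]
    have h5 : G ^ (1 - 3 * β) * (2 * B) * b ≤ A * b := by
      rw [hAb]
      calc G ^ (1 - 3 * β) * (2 * B) * b = B * (2 * (G ^ (1 - 3 * β) * b)) := by ring
        _ ≤ B * (2 * G ^ (1 - β)) := by
            apply mul_le_mul_of_nonneg_left _ hB0.le; linarith
        _ ≤ B * G ^ (1 + β / 100) := mul_le_mul_of_nonneg_left h2 hB0.le
    exact le_of_mul_le_mul_right h5 hb0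
  · -- A2
    have h1 : A * b ≤ G * b := by
      rw [hAb]
      calc B * G ^ (1 + β / 100) ≤ G ^ (β / 100) * G ^ (1 + β / 100) :=
            mul_le_mul_of_nonneg_right hB2 (pw _).le
        _ = G ^ (1 + β / 50) := by rw [← add]; congr 1; ring
        _ ≤ G ^ (1 + β / 4) := mono _ _ (by linarith)
        _ = G * G ^ (β / 4) := by rw [add, Real.rpow_one]
        _ ≤ G * b := mul_le_mul_of_nonneg_left hb1 hG0.le
    exact le_of_mul_le_mul_right h1 hb0
  · -- c1
    rw [hc, le_div_iff₀ (mul_pos hA0 hB0)]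
    have h1 : G ^ (-1 - 3 * (β / 100)) * (A * B) * b ≤ G ^ (β / 400) * b := by
      calc G ^ (-1 - 3 * (β / 100)) * (A * B) * b
          = G ^ (-1 - 3 * (β / 100)) * (A * b) * B := by ring
        _ = G ^ (-1 - 3 * (β / 100)) * G ^ (1 + β / 100) * (B * B) := by rw [hAb]; ring
        _ ≤ G ^ (-1 - 3 * (β / 100)) * G ^ (1 + β / 100) * (G ^ (β / 100) * G ^ (β / 100)) := by
            apply mul_le_mul_of_nonneg_left _ (mul_pos (pw _) (pw _)).le
            exact mul_le_mul hB2 hB2 hB0.le (pw _).le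
        _ = 1 := by
            rw [← add, ← add, ← add]
            have : -1 - 3 * (β / 100) + (1 + β / 100) + (β / 100 + β / 100) = 0 := by ring
            rw [this, Real.rpow_zero]
        _ ≤ G ^ (β / 400) * b := by
            have h2 : 1 ≤ G ^ (β / 400) := Real.one_le_rpow hG (by positivity)
            nlinarith
    exact le_of_mul_le_mul_right h1 hb0
  · -- c2
    rw [hc, div_le_iff₀ (mul_pos hA0 hB0)]
    have h3 : G ^ (β / 400 + 4 * β) * 1000000 ≤ G ^ (1 + β / 100) := by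
      calc G ^ (β / 400 + 4 * β) * 1000000 ≤ G ^ (β / 400 + 4 * β) * G ^ (1 / 2 : ℝ) :=
            mul_le_mul_of_nonneg_left (big _ (by linarith)) (pw _).le
        _ = G ^ (β / 400 + 4 * β + 1 / 2) := by rw [← add]
        _ ≤ G ^ (1 + β / 100) := mono _ _ (by linarith)
    have h4 : G ^ (β / 400) * b ≤ G ^ (β / 400 + 4 * β) := by
      calc G ^ (β / 400) * b ≤ G ^ (β / 400) * G ^ (2 * β) :=
            mul_le_mul_of_nonneg_left hb2 (pw _).le
        _ = G ^ (β / 400 + 2 * β) := by rw [← add]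
        _ ≤ G ^ (β / 400 + 4 * β) := mono _ _ (by linarith)
    have h5 : G ^ (β / 400) * b ≤ 1 / 100 * (A * B) * b := by
      have h6 : (1 : ℝ) ≤ B * B := by nlinarith
      have h7 : 1 / 100 * (A * B) * b = 1 / 100 * (G ^ (1 + β / 100) * (B * B)) := by
        calc 1 / 100 * (A * B) * b = 1 / 100 * ((A * b) * B) := by ring
          _ = 1 / 100 * (G ^ (1 + β / 100) * (B * B)) := by rw [hAb]; ring
      rw [h7]
      have h8 : G ^ (1 + β / 100) ≤ G ^ (1 + β / 100) * (B * B) := by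
        nlinarith [pw (1 + β / 100)]
      have h9 := pw (β / 400 + 4 * β)
      linarith
    exact le_of_mul_le_mul_right h5 hb0
  · -- D2
    have hD1 : 1 ≤ D := le_trans (one_le_pow₀ hG) hD
    calc D ^ (6 / 5 : ℝ) ≤ D ^ (2 : ℝ) :=
          Real.rpow_le_rpow_of_exponent_le hD1 (by norm_num)
      _ = D ^ 2 := by rw [← Real.rpow_natCast]; norm_num
      _ ≤ Y := by
          rw [hY]
          have h1 : 1 ≤ G * b := by nlinarith
          nlinarith [sq_nonneg D]
      _ ≤ G ^ (1000 / β) := hcap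

end HWPAaux

theorem hwpa : Stmt_HWPA := by
  intro β hβ hβ1
  refine ⟨max 1 ((1000000 : ℝ) ^ (10000 / β)), fun B y P hN hG0 hB hB2 => ?_⟩
  have hG : 1 ≤ GG y P := le_trans (le_max_left _ _) hG0
  have hG' : (1000000 : ℝ) ^ (10000 / β) ≤ GG y P := le_trans (le_max_right _ _) hG0
  have hG1 : 1000000 ≤ GG y P ^ (β / 10000) := by
    calc (1000000 : ℝ) = ((1000000 : ℝ) ^ (10000 / β)) ^ (β / 10000) := by
          rw [← Real.rpow_mul (by norm_num)]
          have : 10000 / β * (β / 10000) = 1 := by field_simp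
          rw [this, Real.rpow_one]
      _ ≤ GG y P ^ (β / 10000) :=
          Real.rpow_le_rpow (by positivity) hG' (by positivity)
  have hD1 : 1 ≤ dl y := le_trans (one_le_pow₀ hG) hN.big
  have hD0 : 0 < dl y := lt_of_lt_of_le one_pos hD1
  have hY0 : (0 : ℝ) < y.a := by exact_mod_cast hN.ya
  have hdd : 0 < |dd y P| := by
    rcases (abs_nonneg (dd y P)).lt_or_eq with h | h
    · exact h
    · exfalso
      unfold GG at hG
      rw [← h, mul_zero, div_zero] at hG
      linarith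
  have hdf : |dd y P| = bb y P * dl y := by unfold bb; field_simp
  have hYf : (y.a : ℝ) = GG y P * bb y P * dl y ^ 2 := by unfold GG bb; field_simp
  have hb0 : 0 < bb y P := by unfold bb; positivity
  obtain ⟨c1, c2, c3, c4, c5, c6, c7⟩ := HWPAaux.core (A := AA β B y P) (c := cs β B y P) hβ hβ1 hG
    hG1 hN.b1 hN.b2 hB hB2 hN.big hYf hN.cap rfl rfl
  refine ⟨hN.ya, hN.dt, hB, hB2, hG, hG1, c1, hN.b1, hN.b2, c2, c3, c4, c5, c6, hN.big, c7, hYf,
    hdf, ?_⟩
  unfold rr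
  rw [hYf]
  have hGp : 0 < GG y P := lt_of_lt_of_le one_pos hG
  field_simp

end ULB
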