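import Pool.Agent.ULB.StmtsHW

/-!
# Dyadic pigeonhole
-/

set_option autoImplicit false

namespace ULB

namespace HWPGaux

open Filter Asymptotics

/-- the dyadic scale of a real number -/
lemma scale_lo (x : ℝ) (hx : 1 ≤ x) : ∃ n : ℕ, (2 : ℝ) ^ n ≤ x ∧ x < 2 ^ (n + 1) :=
  exists_nat_pow_near hx (by norm_num)

/-- the dyadic scale of an integer, strict below -/
lemma scale_up (x : ℝ) (hx : 1 ≤ x) : ∃ n : ℕ, (2 : ℝ) ^ n / 2 < x ∧ x ≤ 2 ^ n := by
  have hex : ∃ n : ℕ, x ≤ (2 : ℝ) ^ n := by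
    obtain ⟨n, hn⟩ := pow_unbounded_of_one_lt x (show (1 : ℝ) < 2 by norm_num)
    exact ⟨n, hn.le⟩
  classical
  refine ⟨Nat.find hex, ?_, Nat.find_spec hex⟩
  rcases Nat.eq_zero_or_pos (Nat.find hex) with h | h
  · rw [h]; norm_num; linarith
  · have h1 := Nat.find_min hex (m := Nat.find hex - 1) (by omega)
    push Not at h1
    have h2 : (2 : ℝ) ^ (Nat.find hex) = 2 ^ (Nat.find hex - 1) * 2 := by
      rw [← pow_succ]
      congr 1
      omega
    rw [h2, mul_div_assoc, div_self (by norm_num), mul_one]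
    exact h1

/-- the exponent of a power of two below `2 G ^ t` -/
lemma exp_lt {n : ℕ} {G t K : ℝ} (hG : 1 ≤ G) (ht : 0 ≤ t) (hK : 3 * t ≤ K)
    (h : (2 : ℝ) ^ n ≤ 2 * G ^ t) : n < ⌊K * Real.log G⌋₊ + 3 := by
  have hlog : 0 ≤ Real.log G := Real.log_nonneg hG
  have hGt : 0 < G ^ t := Real.rpow_pos_of_pos (by linarith) t
  have h1 := Real.log_le_log (by positivity) h
  rw [Real.log_pow, Real.log_mul (by norm_num) hGt.ne', Real.log_rpow (by linarith)] at h1
  have h2 : (0.6931471803 : ℝ) < Real.log 2 := Real.log_two_gt_d9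
  have h3 : (n : ℝ) ≤ 1 + 3 * t * Real.log G := by
    have h4 : 0 ≤ t * Real.log G := mul_nonneg ht hlog
    by_contra hcon
    push Not at hcon
    have h5 : (1 + 3 * t * Real.log G) * Real.log 2 < n * Real.log 2 :=
      mul_lt_mul_of_pos_right hcon (by linarith)
    nlinarith
  have h4 : 3 * t * Real.log G ≤ K * Real.log G := mul_le_mul_of_nonneg_right hK hlog
  have h5 : K * Real.log G < ⌊K * Real.log G⌋₊ + 1 := Nat.lt_floor_add_one _
  have h6 : (n : ℝ) < (⌊K * Real.log G⌋₊ : ℝ) + 3 := by linarith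
  exact_mod_cast h6

/-- the number of scales is small -/
lemma count_small (K ε : ℝ) (hK : 0 < K) (hε : 0 < ε) : ∃ G0 : ℝ, 1 ≤ G0 ∧ ∀ G : ℝ, G0 ≤ G →
    ((⌊K * Real.log G⌋₊ + 3 : ℕ) : ℝ) ^ 2 ≤ G ^ ε := by
  have h1 := (isLittleO_log_rpow_atTop (r := ε / 2) (by linarith)).bound
    (show (0 : ℝ) < 1 / (2 * K) by positivity)
  have h2 : Tendsto (fun x : ℝ => x ^ (ε / 2)) atTop atTop := tendsto_rpow_atTop (by linarith)
  have h3 := h2.eventually_ge_atTop 6
  obtain ⟨G0, hG0⟩ := (h1.and h3).exists_forall_of_atTop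
  refine ⟨max 1 G0, le_max_left _ _, fun G hG => ?_⟩
  obtain ⟨h4, h5⟩ := hG0 G ((le_max_right _ _).trans hG)
  have hG1 : 1 ≤ G := (le_max_left _ _).trans hG
  have hlog : 0 ≤ Real.log G := Real.log_nonneg hG1
  have hpos : 0 < G ^ (ε / 2) := Real.rpow_pos_of_pos (by linarith) _
  rw [Real.norm_of_nonneg hlog, Real.norm_of_nonneg hpos.le] at h4
  have h6 : K * Real.log G ≤ G ^ (ε / 2) / 2 := by
    have := mul_le_mul_of_nonneg_left h4 hK.le
    have e : K * (1 / (2 * K) * G ^ (ε / 2)) = G ^ (ε / 2) / 2 := by field_simp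
    rw [e] at this
    exact this
  have h7 : (⌊K * Real.log G⌋₊ : ℝ) ≤ K * Real.log G := Nat.floor_le (by positivity)
  have h8 : ((⌊K * Real.log G⌋₊ + 3 : ℕ) : ℝ) ≤ G ^ (ε / 2) := by
    push_cast
    linarith
  have h9 : (0 : ℝ) ≤ ((⌊K * Real.log G⌋₊ + 3 : ℕ) : ℝ) := Nat.cast_nonneg _
  calc ((⌊K * Real.log G⌋₊ + 3 : ℕ) : ℝ) ^ 2 ≤ (G ^ (ε / 2)) ^ 2 := pow_le_pow_left₀ h9 h8 2
    _ = G ^ ε := by
      rw [← Real.rpow_natCast, ← Real.rpow_mul (by linarith)]
      congr 1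
      push_cast
      ring

end HWPGaux

open HWPGaux in
theorem hwpg : Stmt_HWPG := by
  intro β hβ hβ1
  obtain ⟨G0, hG01, hG0⟩ := count_small (3000 / β) (9 / 2000000) (by positivity) (by norm_num)
  refine ⟨G0, ?_⟩
  intro G A B E F j hG hB1 hBG hGA hE1 hEG hF hS
  have hG1 : 1 ≤ G := hG01.trans hG
  have hGpos : 0 < G := by linarith
  have hA1 : 1 ≤ A := (Real.one_le_rpow hG1 (by norm_num)).trans hGA
  have hApos : 0 < A := by linarith
  classical
  -- the scales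
  have hsc : ∀ a : ℤ, ∃ t : ℕ × ℕ, a ∈ F →
      (2 : ℝ) ^ t.1 ≤ A / a ∧ A / a < 2 ^ (t.1 + 1) ∧ (2 : ℝ) ^ t.2 / 2 < j a ∧
        (j a : ℝ) ≤ 2 ^ t.2 := by
    intro a
    by_cases ha : a ∈ F
    · obtain ⟨h1, h2, h3, h4⟩ := hF a ha
      have ha0 : 0 < (a : ℝ) := lt_of_lt_of_le (by positivity) h1
      obtain ⟨i, hi1, hi2⟩ := scale_lo (A / a) (by rw [le_div_iff₀ ha0]; linarith)
      obtain ⟨k, hk1, hk2⟩ := scale_up (j a) (by exact_mod_cast h3)
      exact ⟨(i, k), fun _ => ⟨hi1, hi2, hk1, hk2⟩⟩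
    · exact ⟨(0, 0), fun h => absurd h ha⟩
  choose φ hφ using hsc
  set N : ℕ := ⌊3000 / β * Real.log G⌋₊ + 3 with hN
  have hmaps : ∀ a ∈ F, φ a ∈ Finset.range N ×ˢ Finset.range N := by
    intro a ha
    obtain ⟨h1, h2, h3, h4⟩ := hF a ha
    obtain ⟨g1, g2, g3, g4⟩ := hφ a ha
    have ha0 : 0 < (a : ℝ) := lt_of_lt_of_le (by positivity) h1
    rw [Finset.mem_product, Finset.mem_range, Finset.mem_range]
    constructor
    · refine exp_lt (t := 1) hG1 zero_le_one ?_ ?_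
      · rw [le_div_iff₀ hβ]; linarith
      · rw [Real.rpow_one]
        have h5 : A / a ≤ 2 * B := by
          rw [div_le_iff₀ ha0]
          rw [div_le_iff₀ (by positivity)] at h1
          linarith
        linarith
    · refine exp_lt (t := 1000 / β) hG1 (by positivity) (le_of_eq (by ring)) ?_
      linarith
  have hfib : ∀ t ∈ Finset.range N ×ˢ Finset.range N,
      ((F.filter (fun a => φ a = t)).card : ℝ) ≤ A ^ (1 - 1 / 100000 : ℝ) := by
    intro t _
    rcases (F.filter (fun a => φ a = t)).eq_empty_or_nonempty with he | ⟨a0, ha0⟩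
    · rw [he]
      simp only [Finset.card_empty, Nat.cast_zero]
      exact Real.rpow_nonneg hApos.le _
    · have hx : (0 : ℝ) < 2 ^ t.1 := by positivity
      have hmem : ∀ a ∈ F.filter (fun a => φ a = t), a ∈ F ∧
          (A / 2 ^ t.1 / 2 ≤ (a : ℝ) ∧ (a : ℝ) ≤ A / 2 ^ t.1 ∧ (2 : ℝ) ^ t.2 / 2 < j a ∧
            (j a : ℝ) ≤ 2 ^ t.2) := by
        intro a ha
        rw [Finset.mem_filter] at ha
        obtain ⟨haF, hat⟩ := ha
        obtain ⟨h1, h2, h3, h4⟩ := hF a haF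
        obtain ⟨g1, g2, g3, g4⟩ := hφ a haF
        rw [hat] at g1 g2 g3 g4
        have ha0 : 0 < (a : ℝ) := lt_of_lt_of_le (by positivity) h1
        refine ⟨haF, ?_, ?_, g3, g4⟩
        · rw [div_div, ← pow_succ, div_le_iff₀ (by positivity)]
          rw [div_lt_iff₀ ha0] at g2
          linarith
        · rw [le_div_iff₀ hx]
          rw [le_div_iff₀ ha0] at g1
          linarith
      obtain ⟨haF, b1, b2, b3, b4⟩ := hmem a0 ha0
      obtain ⟨h1, h2, h3, h4⟩ := hF a0 haF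
      have hA' : A / 2 ^ t.1 ≤ A := div_le_self hApos.le (one_le_pow₀ (by norm_num))
      have h5 := hS (A / 2 ^ t.1) (2 ^ t.2) (F.filter (fun a => φ a = t))
        (Finset.filter_subset _ _) (h1.trans b2) hA' (one_le_pow₀ (by norm_num)) (by linarith)
        (fun a ha => (hmem a ha).2)
      exact h5.trans (Real.rpow_le_rpow (by positivity) hA' (by norm_num))
  have hcard : (F.card : ℝ) ≤ (N : ℝ) ^ 2 * A ^ (1 - 1 / 100000 : ℝ) := by
    rw [Finset.card_eq_sum_card_fiberwise hmaps]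
    push_cast
    refine (Finset.sum_le_sum hfib).trans (le_of_eq ?_)
    rw [Finset.sum_const, Finset.card_product, Finset.card_range, nsmul_eq_mul]
    push_cast
    ring
  have hN2 : (N : ℝ) ^ 2 ≤ A ^ (1 / 200000 : ℝ) := by
    refine (hG0 G hG).trans ?_
    have h1 : G ^ (9 / 2000000 : ℝ) = (G ^ (9 / 10 : ℝ)) ^ (1 / 200000 : ℝ) := by
      rw [← Real.rpow_mul hGpos.le]
      norm_num
    rw [h1]
    exact Real.rpow_le_rpow (by positivity) hGA (by norm_num)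
  calc (F.card : ℝ) ≤ (N : ℝ) ^ 2 * A ^ (1 - 1 / 100000 : ℝ) := hcard
    _ ≤ A ^ (1 / 200000 : ℝ) * A ^ (1 - 1 / 100000 : ℝ) :=
        mul_le_mul_of_nonneg_right hN2 (Real.rpow_nonneg hApos.le _)
    _ = A ^ (1 - 1 / 200000 : ℝ) := by
        rw [← Real.rpow_add hApos]
        norm_num

end ULB
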