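import Pool.Agent.ULB.StmtsHW

/-!
# HWPL: the planes `a0 P + b0 R`
-/

set_option autoImplicit false

namespace ULB

open WHP (V3 det be ga dot cross lin tt)
open WHS (hh ev der)

namespace HWPLaux

/-- the determinant of the two forms -/
theorem wedge {y P R : V3} (hc : cross P R = y) :
    dd y P * R.c - dd y R * P.c = (y.a : ℝ) := by
  have h1 : P.b * R.c - P.c * R.b = y.a := congrArg V3.a hc
  have h2 : (P.b : ℝ) * R.c - P.c * R.b = y.a := by exact_mod_cast h1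
  simp only [dd, der]
  linear_combination h2

/-- the bound for `R.c` -/
theorem rc {y P R : V3} (hc : cross P R = y) {M G b D : ℝ} (hM : |dd y P| = M) (hM0 : 0 < M)
    (hr : |dd y R| ≤ M) (hP : |(P.c : ℝ)| ≤ 2 * M) (hY : (y.a : ℝ) = G * b * D ^ 2)
    (hMd : M = b * D) (hya : 0 < (y.a : ℝ)) : |(R.c : ℝ)| ≤ G * D + 2 * M := by
  have h1 : dd y P * R.c = y.a + dd y R * P.c := by linarith [wedge hc]
  have h2 : M * |(R.c : ℝ)| ≤ y.a + M * (2 * M) := by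
    calc M * |(R.c : ℝ)| = |dd y P * R.c| := by rw [abs_mul, hM]
      _ = |(y.a : ℝ) + dd y R * P.c| := by rw [h1]
      _ ≤ |(y.a : ℝ)| + |dd y R * P.c| := abs_add_le _ _
      _ = y.a + |dd y R| * |(P.c : ℝ)| := by rw [abs_of_pos hya, abs_mul]
      _ ≤ y.a + M * (2 * M) := by
          have := mul_le_mul hr hP (abs_nonneg _) hM0.le
          linarith
  have h3 : (y.a : ℝ) = M * (G * D) := by rw [hY, hMd]; ring
  rw [h3] at h2
  have h4 : M * |(R.c : ℝ)| ≤ M * (G * D + 2 * M) := by linarith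
  exact le_of_mul_le_mul_left h4 hM0

end HWPLaux

theorem hwpl (h : Stmt_HWFR) : Stmt_HWPL := by
  intro β B y P wm v R hβ hβ1 hN hP hB a0 b0 hb1 hb2 ha1 ha2
  have hF := h y hN.ya hN.dt
  obtain ⟨G, hG⟩ : ∃ G : ℝ, G = GG y P := ⟨_, rfl⟩
  obtain ⟨b, hb⟩ : ∃ b : ℝ, b = bb y P := ⟨_, rfl⟩
  obtain ⟨D, hD⟩ : ∃ D : ℝ, D = dl y := ⟨_, rfl⟩
  obtain ⟨A, hA⟩ : ∃ A : ℝ, A = AA β B y P := ⟨_, rfl⟩
  have hB2 := hP.B2
  have hG0 := hP.G0
  have hG1 := hP.G1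
  have hA1 := hP.A1
  have hAb := hP.Ab
  have hb0 := hP.b0
  have hYf := hP.Yf
  have hdf := hP.df
  have hD1 := hF.D1
  have hsb := hN.sb
  have hr := hB.hr
  rw [hdf] at hsb hr
  rw [← hG] at hB2 hG0 hG1 hA1 hAb hYf
  rw [← hb] at hAb hb0 hYf hdf hsb hr
  rw [← hD] at hYf hdf hD1 hsb hr
  rw [← hA] at hA1 hAb ha1 ha2
  rw [← hb, ← hD]
  have hGp : 0 < G := by linarith
  have hBp : 0 < B := by linarith [hP.B1]
  have hM0 : 0 < b * D := by nlinarith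
  have hya : (0 : ℝ) < y.a := by exact_mod_cast hN.ya
  -- `100 B ≤ a0`
  have hBa : 100 * B ≤ a0 := by
    have h1 : (1000000 : ℝ) * B ≤ G ^ (β / 10000) * G ^ (β / 100) :=
      mul_le_mul hG1 hB2 hBp.le (Real.rpow_nonneg hGp.le _)
    rw [← Real.rpow_add hGp] at h1
    have h2 : G ^ (β / 10000 + β / 100) ≤ G ^ (1 - 3 * β) :=
      Real.rpow_le_rpow_of_exponent_le hG0 (by linarith)
    linarith
  have ha0 : (0 : ℝ) < a0 := by linarith
  have hb0' : (0 : ℝ) < b0 := by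
    have : (1 : ℝ) ≤ b0 := by exact_mod_cast hb1
    linarith
  have hba : (b0 : ℝ) ≤ a0 / 100 := by linarith
  -- `b0 G ≤ 2 a0 b`
  have hGb : (b0 : ℝ) * G ≤ 2 * (a0 * b) := by
    have h1 : (b0 : ℝ) * G ≤ G ^ (β / 100) * G := by
      exact mul_le_mul_of_nonneg_right (hb2.trans hB2) hGp.le
    have h2 : G ^ (β / 100) * G = G ^ (1 + β / 100) := by
      rw [add_comm, Real.rpow_add hGp, Real.rpow_one]
    have h3 : A ≤ 2 * B * a0 := by
      have := (div_le_iff₀ (by positivity : (0 : ℝ) < 2 * B)).1 ha1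
      linarith
    have h4 : A * b ≤ 2 * B * a0 * b := mul_le_mul_of_nonneg_right h3 (by linarith)
    rw [hAb] at h4
    have h5 : B * G ^ (1 + β / 100) ≤ B * (2 * (a0 * b)) := by linarith
    have h6 := le_of_mul_le_mul_left h5 hBp
    linarith
  have hld := hF.ld a0 b0 P R
  rw [hld]
  have hx : |(a0 : ℝ) * dd y P| = a0 * (b * D) := by rw [abs_mul, abs_of_pos ha0, hdf]
  have hz : |(b0 : ℝ) * dd y R| ≤ a0 / 100 * (b * D) := by
    rw [abs_mul, abs_of_pos hb0']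
    exact mul_le_mul hba hr (abs_nonneg _) (by positivity)
  have low : 99 / 100 * (a0 * (b * D)) ≤ |(a0 : ℝ) * dd y P + b0 * dd y R| := by
    have h1 : |(a0 : ℝ) * dd y P| - |(b0 : ℝ) * dd y R| ≤ |(a0 : ℝ) * dd y P + b0 * dd y R| := by
      have h2 := abs_sub_abs_le_abs_sub ((a0 : ℝ) * dd y P) (-(b0 * dd y R))
      rw [abs_neg, sub_neg_eq_add] at h2
      exact h2
    linarith
  have upp : |(a0 : ℝ) * dd y P + b0 * dd y R| ≤ 101 / 100 * (a0 * (b * D)) := by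
    have h1 := abs_add_le ((a0 : ℝ) * dd y P) (b0 * dd y R)
    linarith
  refine ⟨low, upp, ?_⟩
  have hRc := HWPLaux.rc hB.hc hdf hM0 hr hsb hYf rfl hya
  have hc : ((lin a0 P b0 R).c : ℝ) = a0 * P.c + b0 * R.c := by
    show ((a0 * P.c + b0 * R.c : ℤ) : ℝ) = _
    push_cast
    ring
  rw [hc]
  have h1 : |(a0 : ℝ) * P.c| ≤ a0 * (2 * (b * D)) := by
    rw [abs_mul, abs_of_pos ha0]
    exact mul_le_mul_of_nonneg_left hsb ha0.le
  have h2 : |(b0 : ℝ) * R.c| ≤ b0 * (G * D + 2 * (b * D)) := by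
    rw [abs_mul, abs_of_pos hb0']
    exact mul_le_mul_of_nonneg_left hRc hb0'.le
  have h3 := abs_add_le ((a0 : ℝ) * P.c) (b0 * R.c)
  have h4 : (b0 : ℝ) * G * D ≤ 2 * (a0 * b) * D :=
    mul_le_mul_of_nonneg_right hGb (by linarith)
  have h5 : (b0 : ℝ) * (b * D) ≤ a0 / 100 * (b * D) :=
    mul_le_mul_of_nonneg_right hba hM0.le
  have h6 : 0 < (a0 : ℝ) * (b * D) := mul_pos ha0 hM0
  nlinarith

end ULB
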