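import Pool.Agent.ULB.StmtsHW

/-!
# HWSC: one dyadic scale of the block HW (MP_c538e3_nt, lower bound 1/3)
-/

set_option autoImplicit false

namespace ULB

open WHP (V3 det be ga dot cross lin tt)
open WHS (hh ev der)

namespace HWSCaux

theorem Phi_mono {G x y : ℝ} (hx : 0 ≤ x) (hxy : x ≤ y) : Phi G x ≤ Phi G y := by
  unfold Phi
  exact max_le_max le_rfl (Real.rpow_le_rpow hx hxy (by norm_num))

theorem Phi_pos {G x : ℝ} (hG : 0 < G) : 0 < Phi G x := by
  unfold Phi
  exact lt_max_of_lt_left (Real.rpow_pos_of_pos hG _)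

/-- the quadratic form `det (v wm + u b0 v - w σ y)` -/
def cf (y wm v : V3) (b0 : ℤ) : Fin 6 → ℤ :=
  ![b0 ^ 2 * det v, det wm, si y ^ 2 * det y, b0 * bil v wm, -(b0 * si y * bil v y),
    -(si y * bil wm y)]

theorem qf_cf (y wm v : V3) (b0 u k w : ℤ) :
    Pool.Agent.UHI.qf (cf y wm v b0) u k w =
      b0 ^ 2 * det v * u ^ 2 + det wm * k ^ 2 + si y ^ 2 * det y * w ^ 2 +
        b0 * bil v wm * (u * k) + -(b0 * si y * bil v y) * (u * w) +
        -(si y * bil wm y) * (k * w) := rfl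

theorem det_wv (y wm v : V3) (b0 a j p : ℤ) :
    det (wv y wm v b0 a j p) = Pool.Agent.UHI.qf (cf y wm v b0) j (a * j) p := by
  rw [qf_cf]
  simp only [wv, det, lin, bil]
  ring

theorem det_w' (y wm v : V3) (b0 j p : ℤ) :
    det (lin j wm (-(p * si y)) y) = Pool.Agent.UHI.qf (cf y wm v b0) 0 j p := by
  rw [qf_cf]
  simp only [det, lin, bil]
  ring

end HWSCaux

open HWSCaux

theorem hwsc : Stmt_HWSC := by
  intro hINV hFR hEP hFN β hβ0 hβ1
  have hC : (1 : ℝ) ≤ 2000 / β := by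
    rw [le_div_iff₀ hβ0]
    linarith
  obtain ⟨A0, hA01, hA0⟩ := hINV (2000 / β) (1 / 100000) hC (by norm_num) (by norm_num)
  refine ⟨max (A0 ^ 2) 16, ?_⟩
  intro B y P wm v R hNd hG0 hPar hBas b0 A' X S j p hA'1 hA'2 hX1 hX2 hS
  by_contra hcon
  push Not at hcon
  have hep := hEP β (GG y P) (bb y P) (dl y) (cs β B y P) (rr y) A' X hβ0 hβ1 hPar.G1 hPar.G0
    hPar.b0 hPar.c1
  have hfn := hFN β (GG y P) (cs β B y P) A' X hβ0 hβ1 hPar.G1 hPar.G0 hPar.c1
  have hF : Frm y := hFR y hPar.ya hPar.dt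
  have hb0 := hPar.b0
  have hA1 := hPar.A1
  have hA2 := hPar.A2
  have hG1' := hPar.G0
  have hD20 := hPar.D1
  have hD2 := hPar.D2
  have hrf := hPar.rf
  have hdf := hPar.df
  have hc1 := hPar.c1
  have hD1 := hF.D1
  set G := GG y P with hGdef
  set b := bb y P with hbdef
  set D := dl y with hDdef
  set c := cs β B y P with hcdef
  set r := rr y with hrdef
  have hGpos : 0 < G := by linarith
  have hDpos : 0 < D := by linarith
  have hbpos : 0 < b := by linarith
  have hcpos : 0 < c := lt_of_lt_of_le (Real.rpow_pos_of_pos hGpos _) hc1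
  have hrpos : 0 < r := by
    rw [hrf]
    positivity
  -- sizes of A'
  have hA'G : G ^ (1 - 3 * β) ≤ A' := le_trans hA1 hA'1
  have hGh : G ^ (1 / 2 : ℝ) ≤ A' := by
    refine le_trans (Real.rpow_le_rpow_of_exponent_le hG1' ?_) hA'G
    linarith
  have hsq : ∀ z : ℝ, 0 ≤ z → z ^ 2 ≤ G → z ≤ G ^ (1 / 2 : ℝ) := by
    intro z hz hzG
    have h1 : (z ^ 2) ^ (1 / 2 : ℝ) ≤ G ^ (1 / 2 : ℝ) :=
      Real.rpow_le_rpow (by positivity) hzG (by norm_num)
    have h2 : (z ^ 2) ^ (1 / 2 : ℝ) = z := by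
      rw [← Real.sqrt_eq_rpow, Real.sqrt_sq hz]
    linarith
  have hA'0 : A0 ≤ A' :=
    le_trans (hsq A0 (by linarith) (le_trans (le_max_left _ _) hG0)) hGh
  have hA'4 : 4 ≤ A' :=
    le_trans (hsq 4 (by norm_num) (le_trans (by norm_num) (le_trans (le_max_right _ _) hG0))) hGh
  have hA'1' : 1 ≤ A' := by linarith
  have hA'pos : 0 < A' := by linarith
  have hA'le : A' ≤ G := le_trans hA'2 hA2
  have hXpos : 0 < X := by linarith
  have hep2 := hep hA'1' hA'le hX1 hX2 hD20 hrf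
  have hfn2 := hfn hA'G hA'le hX1
  -- X ≤ A' ^ C
  have hXC : X ≤ A' ^ (2000 / β) := by
    have h1 : X ≤ 2 * G ^ (1000 / β) := by linarith
    have h2 : (G ^ (9 / 10 : ℝ)) ^ (2000 / β) ≤ A' ^ (2000 / β) := by
      refine Real.rpow_le_rpow (by positivity) ?_ (by positivity)
      refine le_trans (Real.rpow_le_rpow_of_exponent_le hG1' ?_) hA'G
      linarith
    have h3 : (G ^ (9 / 10 : ℝ)) ^ (2000 / β) = G ^ (800 / β) * G ^ (1000 / β) := by
      rw [← Real.rpow_mul hGpos.le, ← Real.rpow_add hGpos]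
      congr 1
      ring
    have h4 : (2 : ℝ) ≤ G ^ (800 / β) := by
      have h5 : G ^ (1 : ℝ) ≤ G ^ (800 / β) := by
        apply Real.rpow_le_rpow_of_exponent_le hG1'
        rw [le_div_iff₀ hβ0]
        linarith
      rw [Real.rpow_one] at h5
      have h6 : (16 : ℝ) ≤ G := le_trans (le_max_right _ _) hG0
      linarith
    have h5 : 0 < G ^ (1000 / β) := by positivity
    calc X ≤ 2 * G ^ (1000 / β) := h1
      _ ≤ G ^ (800 / β) * G ^ (1000 / β) := by nlinarith
      _ = (G ^ (9 / 10 : ℝ)) ^ (2000 / β) := h3.symm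
      _ ≤ _ := h2
  -- the parameters
  set K := G ^ (4 * (β / 100)) with hKdef
  have hKpos : 0 < K := by positivity
  set F := Phi G (c * (X / 2)) with hFdef
  have hFpos : 0 < F := Phi_pos hGpos
  set ε := 4 * K / (X * F) + 30 * r * X * (A' * b) with hεdef
  have hεpos : 0 < ε := by positivity
  set Δ := 2 * (A' * (b * D)) * K / F with hΔdef
  have hΔpos : 0 < Δ := by positivity
  have hja : ∀ a ∈ S, F ≤ Phi G (c * j a) := by
    intro a ha
    obtain ⟨h1, h2, h3, h4, h5, h6, h7⟩ := hS a ha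
    apply Phi_mono (by positivity)
    exact mul_le_mul_of_nonneg_left h4.le hcpos.le
  obtain ⟨d, j', p', hd, hj1, hj2, hp, hq⟩ := hA0 A' (cc y wm) (b0 * cc y v) X ε Δ S j p
    (cf y wm v b0) hA'0 hX1 hXC hεpos hep2
    (fun a ha => ⟨(hS a ha).1, (hS a ha).2.1⟩) hcon.le
    (fun a ha => ⟨(hS a ha).2.2.1, (hS a ha).2.2.2.2.1⟩)
    (by
      intro a ha
      have hFa := hja a ha
      obtain ⟨h1, h2, h3, h4, h5, h6, h7⟩ := hS a ha
      refine le_trans h6 ?_
      have hjpos : (0 : ℝ) < j a := by linarith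
      have hapos : (0 : ℝ) < a := by linarith
      have e1 : 2 * K / (j a * Phi G (c * j a)) ≤ 4 * K / (X * F) := by
        rw [div_le_div_iff₀ (by have := lt_of_lt_of_le hFpos hFa; positivity) (by positivity)]
        have : X * F ≤ 2 * (j a * Phi G (c * j a)) := by
          calc X * F ≤ (2 * j a) * F := by
                apply mul_le_mul_of_nonneg_right _ hFpos.le
                linarith
            _ ≤ (2 * j a) * Phi G (c * j a) := by
                apply mul_le_mul_of_nonneg_left hFa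
                positivity
            _ = _ := by ring
        nlinarith
      have e2 : 30 * r * j a * (a * b) ≤ 30 * r * X * (A' * b) := by
        apply mul_le_mul
        · exact mul_le_mul_of_nonneg_left h5 (by positivity)
        · exact mul_le_mul_of_nonneg_right h2 hbpos.le
        · positivity
        · positivity
      linarith)
    (by
      intro a ha
      have hFa := hja a ha
      obtain ⟨h1, h2, h3, h4, h5, h6, h7⟩ := hS a ha
      rw [← det_wv]
      refine le_trans h7 ?_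
      rw [hΔdef]
      have hapos : (0 : ℝ) < a := by linarith
      apply div_le_div₀ (by positivity) _ hFpos hFa
      apply mul_le_mul_of_nonneg_right _ hKpos.le
      apply mul_le_mul_of_nonneg_left _ (by norm_num)
      exact mul_le_mul_of_nonneg_right h2 (by positivity))
  have hdnn : (0 : ℝ) ≤ (d : ℝ) := Nat.cast_nonneg d
  have hj'pos : (0 : ℝ) < j' := by
    have : (1 : ℝ) ≤ j' := by exact_mod_cast hj1
    linarith
  -- the vector
  have hw1 : cross y (lin j' wm (-(p' * si y)) y) = sm j' P := by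
    rw [cross_lin, cross_self, hBas.hm]
    apply V3.ext
    · show j' * P.a + -(p' * si y) * 0 = j' * P.a + 0 * P.a
      ring
    · show j' * P.b + -(p' * si y) * 0 = j' * P.b + 0 * P.b
      ring
    · show j' * P.c + -(p' * si y) * 0 = j' * P.c + 0 * P.c
      ring
  have hw2 : cc y (lin j' wm (-(p' * si y)) y) = -((p' : ℝ) - j' * cc y wm) := by
    rw [hF.lc, hF.cy]
    push_cast
    have := hF.ss
    linear_combination -(p' : ℝ) * this
  have hA'e : A' ^ (-(d : ℝ) - 1 + 60 * (1 / 100000)) ≤ 1 / 2 := by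
    have h1 : A' ^ (-(d : ℝ) - 1 + 60 * (1 / 100000)) ≤ A' ^ (-(1 / 2) : ℝ) := by
      apply Real.rpow_le_rpow_of_exponent_le hA'1'
      linarith
    have h2 : A' ^ (-(1 / 2) : ℝ) ≤ (4 : ℝ) ^ (-(1 / 2) : ℝ) :=
      Real.rpow_le_rpow_of_nonpos (by norm_num) hA'4 (by norm_num)
    have h3 : (4 : ℝ) ^ (-(1 / 2) : ℝ) = 1 / 2 := by
      rw [Real.rpow_neg (by norm_num), ← Real.sqrt_eq_rpow,
        show (4 : ℝ) = 2 ^ 2 by norm_num, Real.sqrt_sq (by norm_num)]
      norm_num
    linarith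
  have hε1 : ε ≤ 1 := by
    have h1 : 1 ≤ X ^ (4 / 3 : ℝ) := Real.one_le_rpow hX1 (by norm_num)
    have h2 : 1 ≤ A' ^ (1 / 4 : ℝ) := Real.one_le_rpow hA'1' (by norm_num)
    have h3 : ε * 1 ≤ ε * X ^ (4 / 3 : ℝ) := mul_le_mul_of_nonneg_left h1 hεpos.le
    have h4 : ε * X ^ (4 / 3 : ℝ) * 1 ≤ ε * X ^ (4 / 3 : ℝ) * A' ^ (1 / 4 : ℝ) :=
      mul_le_mul_of_nonneg_left h2 (by positivity)
    linarith
  have hw3 : |cc y (lin j' wm (-(p' * si y)) y)| ≤ 1 / 2 := by
    rw [hw2, abs_neg]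
    refine le_trans hp ?_
    calc ε * A' ^ (-(d : ℝ) - 1 + 60 * (1 / 100000)) ≤ 1 * (1 / 2) := by
          apply mul_le_mul hε1 hA'e (by positivity) (by norm_num)
      _ = 1 / 2 := by norm_num
  have hW := hNd.W (lin j' wm (-(p' * si y)) y) j' (by omega) hw1 hw3
  rw [det_w' y wm v b0 j' p', ← hGdef, hdf] at hW
  have hjabs : |(j' : ℝ)| = j' := abs_of_pos hj'pos
  rw [hjabs] at hW
  -- bounds
  have hPhi : Phi G j' ≤ Phi G (X * A' ^ (60 * (1 / 100000) : ℝ)) := by
    apply Phi_mono hj'pos.le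
    refine le_trans hj2 ?_
    apply mul_le_mul_of_nonneg_left _ hXpos.le
    apply Real.rpow_le_rpow_of_exponent_le hA'1'
    linarith
  have hdet : |(Pool.Agent.UHI.qf (cf y wm v b0) 0 j' p' : ℝ)| ≤
      Δ * A' ^ (-2 + 60 * (1 / 100000) : ℝ) := by
    refine le_trans hq ?_
    apply mul_le_mul_of_nonneg_left _ hΔpos.le
    apply Real.rpow_le_rpow_of_exponent_le hA'1'
    linarith
  have hA'A : A' * A' ^ (-2 + 60 * (1 / 100000) : ℝ) = A' ^ (-1 + 60 * (1 / 100000) : ℝ) := by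
    have : A' ^ (1 : ℝ) * A' ^ (-2 + 60 * (1 / 100000) : ℝ) =
        A' ^ (-1 + 60 * (1 / 100000) : ℝ) := by
      rw [← Real.rpow_add hA'pos]
      congr 1
      norm_num
    rwa [Real.rpow_one] at this
  have hΔ2 : Δ * A' ^ (-2 + 60 * (1 / 100000) : ℝ) =
      (b * D) * (2 * K * A' ^ (-1 + 60 * (1 / 100000) : ℝ)) / F := by
    rw [hΔdef, ← hA'A]
    ring
  have hPP : 0 < Phi G (X * A' ^ (60 * (1 / 100000) : ℝ)) := Phi_pos hGpos
  have hfinal : b * D ≤ (b * D) * (2 * K * A' ^ (-1 + 60 * (1 / 100000) : ℝ)) / F *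
      Phi G (X * A' ^ (60 * (1 / 100000) : ℝ)) := by
    refine le_trans hW ?_
    rw [← hΔ2]
    exact mul_le_mul hdet hPhi (Phi_pos hGpos).le (by positivity)
  have hlt : (b * D) * (2 * K * A' ^ (-1 + 60 * (1 / 100000) : ℝ)) / F *
      Phi G (X * A' ^ (60 * (1 / 100000) : ℝ)) < b * D := by
    have h1 : (b * D) * (2 * K * A' ^ (-1 + 60 * (1 / 100000) : ℝ)) / F *
        Phi G (X * A' ^ (60 * (1 / 100000) : ℝ)) =
        (b * D) * ((2 * K * A' ^ (-1 + 60 * (1 / 100000) : ℝ) *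
          Phi G (X * A' ^ (60 * (1 / 100000) : ℝ))) / F) := by ring
    rw [h1]
    have h2 : (2 * K * A' ^ (-1 + 60 * (1 / 100000) : ℝ) *
          Phi G (X * A' ^ (60 * (1 / 100000) : ℝ))) / F < 1 := by
      rw [div_lt_one hFpos]
      exact hfn2
    have h3 : 0 < b * D := by positivity
    nlinarith
  linarith

end ULB
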