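import Pool.Agent.ULB.StmtsUCH

/-!
# No vector with zero determinant in a plane in front of `y` (MP_c538e3_nt, module UC_NZ)
-/

set_option autoImplicit false

namespace ULB

open WHP (V3 det be ga dot cross lin tt)
open WHS (hh ev der)

namespace NZaux

/-- Bezout for three integers. -/
theorem prim_part (P : V3) (hP : P ≠ 0) :
    ∃ (n : ℤ) (P1 Q : V3), 1 ≤ n ∧ P.a = n * P1.a ∧ P.b = n * P1.b ∧ P.c = n * P1.c ∧
      dot Q P1 = 1 := by
  set g1 : ℤ := (Int.gcd P.a P.b : ℤ) with hg1
  set n : ℤ := (Int.gcd g1 P.c : ℤ) with hn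
  have hna : n ∣ P.a := (Int.gcd_dvd_left g1 P.c).trans (Int.gcd_dvd_left P.a P.b)
  have hnb : n ∣ P.b := (Int.gcd_dvd_left g1 P.c).trans (Int.gcd_dvd_right P.a P.b)
  have hnc : n ∣ P.c := Int.gcd_dvd_right g1 P.c
  have hn0 : n ≠ 0 := by
    intro h
    apply hP
    rw [h, zero_dvd_iff] at hna hnb hnc
    exact V3.ext hna hnb hnc
  have hn1 : 1 ≤ n := by
    have : 0 ≤ n := by rw [hn]; positivity
    omega
  obtain ⟨a1, ha1⟩ := hna
  obtain ⟨b1, hb1⟩ := hnb
  obtain ⟨c1, hc1⟩ := hnc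
  have e1 : g1 = P.a * Int.gcdA P.a P.b + P.b * Int.gcdB P.a P.b := Int.gcd_eq_gcd_ab P.a P.b
  have e2 : n = g1 * Int.gcdA g1 P.c + P.c * Int.gcdB g1 P.c := Int.gcd_eq_gcd_ab g1 P.c
  refine ⟨n, ⟨a1, b1, c1⟩, ⟨Int.gcdA P.a P.b * Int.gcdA g1 P.c, Int.gcdB P.a P.b * Int.gcdA g1 P.c,
    Int.gcdB g1 P.c⟩, hn1, ha1, hb1, hc1, ?_⟩
  apply mul_left_cancel₀ hn0
  simp only [dot]
  generalize Int.gcdA g1 P.c = A2 at *
  generalize Int.gcdB g1 P.c = B2 at *
  generalize Int.gcdA P.a P.b = A1 at *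
  generalize Int.gcdB P.a P.b = B1 at *
  have e3 : n * 1 = (P.a * A1 + P.b * B1) * A2 + P.c * B2 := by rw [← e1, ← e2]; ring
  rw [e3]
  linear_combination (-(A1 * A2)) * ha1 + (-(B1 * A2)) * hb1 + (-B2) * hc1

/-- a vector with zero determinant -/
theorem null_form (w : V3) (ha : w.a ≠ 0) (hd : det w = 0) :
    ∃ s u v : ℤ, s ≠ 0 ∧ 1 ≤ v ∧ IsCoprime u v ∧ w.a = s * v ^ 2 ∧ w.b = s * (u * v) ∧
      w.c = s * u ^ 2 := by
  set g : ℤ := (Int.gcd w.b w.a : ℤ) with hg
  have hg0 : g ≠ 0 := by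
    intro h
    have := Int.gcd_dvd_right w.b w.a
    rw [← hg, h, zero_dvd_iff] at this
    exact ha this
  obtain ⟨u0, hu0⟩ := Int.gcd_dvd_left w.b w.a
  obtain ⟨v0, hv0⟩ := Int.gcd_dvd_right w.b w.a
  rw [← hg] at hu0 hv0
  have hcop0 : IsCoprime u0 v0 := by
    have h2 : g = w.b * Int.gcdA w.b w.a + w.a * Int.gcdB w.b w.a := Int.gcd_eq_gcd_ab w.b w.a
    refine ⟨Int.gcdA w.b w.a, Int.gcdB w.b w.a, ?_⟩
    apply mul_left_cancel₀ hg0
    generalize Int.gcdA w.b w.a = A at *
    generalize Int.gcdB w.b w.a = B at *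
    linear_combination -h2 - A * hu0 - B * hv0
  have hv00 : v0 ≠ 0 := by
    intro h
    apply ha
    rw [hv0, h]
    ring
  have key : ∃ u v : ℤ, 1 ≤ v ∧ IsCoprime u v ∧ w.b * v = w.a * u := by
    rcases lt_or_gt_of_ne hv00 with h | h
    · refine ⟨-u0, -v0, by omega, hcop0.neg_left.neg_right, ?_⟩
      linear_combination (-v0) * hu0 + u0 * hv0
    · refine ⟨u0, v0, by omega, hcop0, ?_⟩
      linear_combination v0 * hu0 - u0 * hv0
  obtain ⟨u, v, hv1, hcop, huv⟩ := key
  have hv : v ≠ 0 := by omega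
  simp only [det] at hd
  have h3 : w.c * v ^ 2 = w.a * u ^ 2 := by
    apply mul_left_cancel₀ ha
    linear_combination v ^ 2 * hd + (w.b * v + w.a * u) * huv
  have h4 : v ^ 2 ∣ w.a := by
    have h5 : v ^ 2 ∣ u ^ 2 * w.a := ⟨w.c, by linear_combination -h3⟩
    have h6 : IsCoprime (v ^ 2) (u ^ 2) := (hcop.pow (m := 2) (n := 2)).symm
    exact h6.dvd_of_dvd_mul_left h5
  obtain ⟨s, hs⟩ := h4
  have hv2 : v ^ 2 ≠ 0 := pow_ne_zero _ hv
  refine ⟨s, u, v, ?_, hv1, hcop, by rw [hs]; ring, ?_, ?_⟩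
  · intro h
    apply ha
    rw [hs, h]
    ring
  · apply mul_left_cancel₀ hv
    rw [hs] at huv
    linear_combination huv
  · apply mul_left_cancel₀ hv2
    rw [hs] at h3
    linear_combination h3

end NZaux

open NZaux in
theorem t_NZ (h : Stmt_FRM) : Stmt_NZ := by
  intro y P w j hya hdy _ hP hPc hbig hle hj hcr hcc hdw
  have hYpos : (0 : ℝ) < y.a := by exact_mod_cast hya
  have hD1 : (1 : ℝ) ≤ dl y := by
    have h1 : (1 : ℤ) ≤ |det y| := Int.one_le_abs hdy
    have h2 : ((1 : ℤ) : ℝ) ≤ ((|det y| : ℤ) : ℝ) := by exact_mod_cast h1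
    simpa [dl, Int.cast_abs] using h2
  have hDpos : (0 : ℝ) < dl y := by linarith
  obtain ⟨n, P1, Q, hn1, hPa, hPb, hPcc, hQ⟩ := prim_part P hP
  have hn1R : (1 : ℝ) ≤ n := by exact_mod_cast hn1
  have hddP : dd y P = n * dd y P1 := by
    simp only [dd, der]
    rw [hPb, hPcc]
    push_cast
    ring
  have hddPabs : |dd y P| = n * |dd y P1| := by
    rw [hddP, abs_mul, abs_of_pos (by linarith : (0 : ℝ) < n)]
  set d1 : ℝ := |dd y P1| with hd1
  have hd1nn : 0 ≤ d1 := abs_nonneg _
  rw [hddPabs] at hbig hle hPc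
  have hd1pos : 0 < d1 := by
    rcases hd1nn.lt_or_eq with h0 | h0
    · exact h0
    · rw [← h0] at hle
      linarith
  by_cases ha : w.a = 0
  · -- the vector is a multiple of the last basis vector
    have hb : w.b = 0 := by
      have h1 : w.b ^ 2 = 0 := by
        simp only [det] at hdw
        rw [ha] at hdw
        linarith
      exact pow_eq_zero_iff (two_ne_zero) |>.1 h1
    have hc : w.c ≠ 0 := by
      intro hc
      apply hP
      have e : cross y w = 0 := by
        apply V3.ext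
        · show y.b * w.c - y.c * w.b = 0
          rw [hb, hc]; ring
        · show y.c * w.a - y.a * w.c = 0
          rw [ha, hc]; ring
        · show y.a * w.b - y.b * w.a = 0
          rw [ha, hb]; ring
      rw [e] at hcr
      have e1 := congrArg V3.a hcr
      have e2 := congrArg V3.b hcr
      have e3 := congrArg V3.c hcr
      have z1 : (0 : V3).a = 0 := rfl
      have z2 : (0 : V3).b = 0 := rfl
      have z3 : (0 : V3).c = 0 := rfl
      simp only [sm, lin, z1, z2, z3, zero_mul, add_zero] at e1 e2 e3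
      apply V3.ext
      · exact (mul_eq_zero.1 e1.symm).resolve_left hj
      · exact (mul_eq_zero.1 e2.symm).resolve_left hj
      · exact (mul_eq_zero.1 e3.symm).resolve_left hj
    have hc1 : (1 : ℝ) ≤ |(w.c : ℝ)| := by
      have h1 : (1 : ℤ) ≤ |w.c| := Int.one_le_abs hc
      have h2 : ((1 : ℤ) : ℝ) ≤ ((|w.c| : ℤ) : ℝ) := by exact_mod_cast h1
      simpa [Int.cast_abs] using h2
    have e : cc y w = w.c * (y.a / dl y) := by
      simp only [cc, ga, zz]
      rw [ha, hb]
      push_cast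
      field_simp
      ring
    rw [e, abs_mul, abs_of_pos (div_pos hYpos hDpos)] at hcc
    have h2 : 2000 ≤ (y.a : ℝ) / dl y := by
      rw [le_div_iff₀ hDpos]
      have : 1 ≤ n * d1 := by linarith
      nlinarith
    nlinarith
  · obtain ⟨s, u, v, hs, hv1, hcop, hwa, hwb, hwc⟩ := null_form w ha hdw
    set w0 : V3 := ⟨v ^ 2, u * v, u ^ 2⟩ with hw0
    have hv : v ≠ 0 := by omega
    -- `cross y w0 = j1 P1`
    set j1 : ℤ := dot Q (cross y w0) with hj1
    have c1 : s * (cross y w0).a = j * n * P1.a := by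
      have e1 := congrArg V3.a hcr
      have z1 : (cross y w).a = y.b * w.c - y.c * w.b := rfl
      have z2 : (sm j P).a = j * P.a + 0 * P.a := rfl
      have z3 : (cross y w0).a = y.b * u ^ 2 - y.c * (u * v) := rfl
      rw [z1, z2] at e1
      rw [z3]
      rw [hwb, hwc, hPa] at e1
      linear_combination e1
    have c2 : s * (cross y w0).b = j * n * P1.b := by
      have e1 := congrArg V3.b hcr
      have z1 : (cross y w).b = y.c * w.a - y.a * w.c := rfl
      have z2 : (sm j P).b = j * P.b + 0 * P.b := rfl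
      have z3 : (cross y w0).b = y.c * v ^ 2 - y.a * u ^ 2 := rfl
      rw [z1, z2] at e1
      rw [z3]
      rw [hwa, hwc, hPb] at e1
      linear_combination e1
    have c3 : s * (cross y w0).c = j * n * P1.c := by
      have e1 := congrArg V3.c hcr
      have z1 : (cross y w).c = y.a * w.b - y.b * w.a := rfl
      have z2 : (sm j P).c = j * P.c + 0 * P.c := rfl
      have z3 : (cross y w0).c = y.a * (u * v) - y.b * v ^ 2 := rfl
      rw [z1, z2] at e1
      rw [z3]
      rw [hwa, hwb, hPcc] at e1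
      linear_combination e1
    have hsj : s * j1 = j * n := by
      rw [hj1]
      simp only [dot] at hQ ⊢
      linear_combination Q.a * c1 + Q.b * c2 + Q.c * c3 + j * n * hQ
    have hj1ne : j1 ≠ 0 := by
      intro h0
      rw [h0, mul_zero] at hsj
      rcases mul_eq_zero.1 hsj.symm with h1 | h1
      · exact hj h1
      · omega
    have f1 : (cross y w0).a = j1 * P1.a := by
      apply mul_left_cancel₀ hs
      rw [c1, ← hsj]; ring
    have f2 : (cross y w0).b = j1 * P1.b := by
      apply mul_left_cancel₀ hs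
      rw [c2, ← hsj]; ring
    have f3 : (cross y w0).c = j1 * P1.c := by
      apply mul_left_cancel₀ hs
      rw [c3, ← hsj]; ring
    have hdot : P1.a * v ^ 2 + P1.b * (u * v) + P1.c * u ^ 2 = 0 := by
      have e1 : dot (cross y w0) w0 = 0 := WHP.dot_cross_right y w0
      simp only [dot] at e1
      rw [f1, f2, f3] at e1
      apply mul_left_cancel₀ hj1ne
      have z1 : w0.a = v ^ 2 := rfl
      have z2 : w0.b = u * v := rfl
      have z3 : w0.c = u ^ 2 := rfl
      rw [z1, z2, z3] at e1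
      linear_combination e1
    -- the bound for `v`
    have hvd : (v : ℝ) ≤ 5 / 2 * d1 := by
      have hv0R : (0 : ℝ) < v := by exact_mod_cast (by omega : 0 < v)
      have hcopu2 : IsCoprime v (u ^ 2) := (hcop.pow_left (m := 2)).symm
      have hdvd : v ∣ u ^ 2 * P1.c := ⟨-(P1.a * v + P1.b * u), by linear_combination hdot⟩
      have hdvd2 : v ∣ P1.c := hcopu2.dvd_of_dvd_mul_left hdvd
      by_cases hP1c : P1.c = 0
      · have h5 : P1.a * v + P1.b * u = 0 := by
          apply mul_left_cancel₀ hv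
          rw [hP1c] at hdot
          linear_combination hdot
        have h6 : v ∣ u * P1.b := ⟨-P1.a, by linear_combination h5⟩
        have h7 : v ∣ P1.b := (hcop.symm).dvd_of_dvd_mul_left h6
        have hP1b : P1.b ≠ 0 := by
          intro h0
          rw [h0, zero_mul, add_zero] at h5
          have h8 : P1.a = 0 := (mul_eq_zero.1 h5).resolve_right hv
          simp only [dot] at hQ
          rw [h0, h8, hP1c] at hQ
          norm_num at hQ
        have h9 : v ≤ |P1.b| := Int.le_of_dvd (abs_pos.2 hP1b) ((dvd_abs _ _).2 h7)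
        have h10 : (v : ℝ) ≤ |(P1.b : ℝ)| := by exact_mod_cast h9
        have h11 : dd y P1 = P1.b := by
          simp only [dd, der]
          rw [hP1c]
          push_cast
          ring
        have h12 : d1 = |(P1.b : ℝ)| := by rw [hd1, h11]
        linarith
      · have h9 : v ≤ |P1.c| := Int.le_of_dvd (abs_pos.2 hP1c) ((dvd_abs _ _).2 hdvd2)
        have h10 : (v : ℝ) ≤ |(P1.c : ℝ)| := by exact_mod_cast h9
        have h11 : |(P.c : ℝ)| = n * |(P1.c : ℝ)| := by
          rw [hPcc]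
          push_cast
          rw [abs_mul, abs_of_pos (by linarith : (0 : ℝ) < n)]
        rw [h11] at hPc
        have h12 : |(P1.c : ℝ)| ≤ 5 / 2 * d1 := by
          have h13 : (n : ℝ) * |(P1.c : ℝ)| ≤ n * (5 / 2 * d1) := by linarith
          exact le_of_mul_le_mul_left h13 (by linarith)
        linarith
    -- the frame identity
    have hfr := ((h y hya hdy).2.2.1 w0).2
    have g1 : dd y (cross y w0) = j1 * dd y P1 := by
      simp only [dd, der]
      rw [f2, f3]
      push_cast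
      ring
    have g2 : ca y w0 = (v : ℝ) ^ 2 / y.a := by
      simp only [ca, hw0]
      push_cast
      rfl
    have g3 : cc y w = s * cc y w0 := by
      simp only [cc, ga, hw0]
      rw [hwa, hwb, hwc]
      push_cast
      ring
    rw [g1, g2] at hfr
    have hsi : |(si y : ℝ)| ≤ 1 := by
      have h1 : |si y| ≤ 1 := by
        unfold si
        rcases lt_trichotomy (det y) 0 with h0 | h0 | h0
        · rw [Int.sign_eq_neg_one_of_neg h0]; norm_num
        · rw [h0]; norm_num
        · rw [Int.sign_eq_one_of_pos h0]; norm_num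
      exact_mod_cast h1
    have hj1R : (1 : ℝ) ≤ |(j1 : ℝ)| := by
      have h1 : (1 : ℤ) ≤ |j1| := Int.one_le_abs hj1ne
      exact_mod_cast h1
    have hjR : (1 : ℝ) ≤ |(j : ℝ)| := by
      have h1 : (1 : ℤ) ≤ |j| := Int.one_le_abs hj
      exact_mod_cast h1
    have hsR : (1 : ℝ) ≤ |(s : ℝ)| := by
      have h1 : (1 : ℤ) ≤ |s| := Int.one_le_abs hs
      exact_mod_cast h1
    have hsjR : |(s : ℝ)| * |(j1 : ℝ)| = |(j : ℝ)| * n := by
      have h1 : (s : ℝ) * j1 = j * n := by exact_mod_cast hsj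
      have h2 := congrArg abs h1
      rw [abs_mul, abs_mul, abs_of_pos (by linarith : (0 : ℝ) < n)] at h2
      exact h2
    have hmain : |(j1 : ℝ)| * d1 ≤ dl y * ((v : ℝ) ^ 2 / y.a) + dl y * |cc y w0| := by
      have h1 := congrArg abs hfr
      rw [abs_mul, abs_mul, abs_of_pos hDpos] at h1
      rw [hd1, h1, ← mul_add]
      apply mul_le_mul_of_nonneg_left _ hDpos.le
      calc |(si y : ℝ) * ((v : ℝ) ^ 2 / y.a) - cc y w0|
          ≤ |(si y : ℝ) * ((v : ℝ) ^ 2 / y.a)| + |cc y w0| := abs_sub _ _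
        _ ≤ (v : ℝ) ^ 2 / y.a + |cc y w0| := by
            have h2 : (0 : ℝ) ≤ (v : ℝ) ^ 2 / y.a := by positivity
            rw [abs_mul, abs_of_nonneg h2]
            nlinarith
    have hA : dl y * ((v : ℝ) ^ 2 / y.a) ≤ d1 * (1 / 100) := by
      rw [← mul_div_assoc, div_le_iff₀ hYpos]
      have hv0R : (0 : ℝ) < v := by exact_mod_cast (by omega : 0 < v)
      have h1 : (v : ℝ) ^ 2 ≤ 25 / 4 * d1 ^ 2 := by nlinarith
      have h2 : 2000 * dl y * d1 ≤ y.a := by
        have : dl y * d1 ≤ dl y * (n * d1) := by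
          apply mul_le_mul_of_nonneg_left _ hDpos.le
          nlinarith
        nlinarith
      have h3 : dl y * (v : ℝ) ^ 2 ≤ dl y * (25 / 4 * d1 ^ 2) :=
        mul_le_mul_of_nonneg_left h1 hDpos.le
      have h4 : dl y * (25 / 4 * d1 ^ 2) ≤ d1 * (1 / 100) * y.a := by
        have h5 : d1 * (2000 * dl y * d1) ≤ d1 * y.a := mul_le_mul_of_nonneg_left h2 hd1nn
        nlinarith [mul_pos hDpos (pow_pos hd1pos 2)]
      linarith
    have hB : dl y * |cc y w0| ≤ |(j1 : ℝ)| * d1 / 2 := by
      rw [g3, abs_mul] at hcc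
      have h1 : |(s : ℝ)| * (dl y * |cc y w0|) ≤ |(s : ℝ)| * (|(j1 : ℝ)| * d1 / 2) := by
        have h2 : |(s : ℝ)| * (dl y * |cc y w0|) ≤ dl y * (1 / 2) := by
          have := mul_le_mul_of_nonneg_left hcc hDpos.le
          linarith
        have h3 : |(s : ℝ)| * (|(j1 : ℝ)| * d1 / 2) = |(j : ℝ)| * (n * d1) / 2 := by
          have : |(s : ℝ)| * (|(j1 : ℝ)| * d1 / 2) = (|(s : ℝ)| * |(j1 : ℝ)|) * d1 / 2 := by ring
          rw [this, hsjR]
          ring
        rw [h3]
        have h4 : 0 ≤ n * d1 := by positivity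
        nlinarith
      exact le_of_mul_le_mul_left h1 (by linarith)
    nlinarith

end ULB
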