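import Pool.Agent.UHI.Main
import Pool.Agent.ULB.HW
import Pool.Agent.ULB.HWFR
import Pool.Agent.ULB.NZ5
import Pool.Agent.ULB.HWPA
import Pool.Agent.ULB.HWPL
import Pool.Agent.ULB.HWBD
import Pool.Agent.ULB.HWEP
import Pool.Agent.ULB.HWFN
import Pool.Agent.ULB.HWPG
import Pool.Agent.ULB.HWSC

/-!
MP_c538e3_nt, block HW, closed form (helper25): all modules of StmtsHW.lean are proved.
-/

namespace ULB

theorem hw : Stmt_HW :=
  hw_of Pool.Agent.UHI.inv hwfr hwpa (hwbd hwfr (nz5 hwfr) (hwpl hwfr)) hwep hwfn hwpg hwsc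

end ULB
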