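import Pool.Agent.ULB.StmtsURT
import Pool.Agent.WHP.Basic

/-!
# Block URT: identities and primitivity
-/

namespace ULB

namespace URT

open WHP (V3 det be ga dot cross lin tt)
open WHS (hh ev der)

theorem t_ALG : Stmt_ALG := by
  intro d s m u κ E hm hE
  subst hm
  refine ⟨?_, ?_, ?_, ?_⟩
  · simp only [dot, Pv, yv, az, xz]
    linear_combination (d * (1 + s * d * (s * d - u))) * hE
  · simp only [cross, yv, ys, Pv, az, xz, sm, lin, V3.mk.injEq]
    refine ⟨?_, ?_, ?_⟩
    · linear_combination κ * hE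
    · linear_combination d * hE
    · ring
  · simp only [det, yv, az, xz]
    linear_combination ((1 + s * d * (s * d - u)) *
      (s * d + (s * d - u) * ((s * d) ^ 2 + 1))) * hE
  · intro p j
    simp only [det, lin, yv, ys, az, xz, ff]
    linear_combination ((p * (1 + s * d * (s * d - u)) + j * (d * (s * d))) *
      (p * (s * d + (s * d - u) * ((s * d) ^ 2 + 1)) + j * (d * ((s * d) ^ 2 + 1)))) * hE

/-- `m = s d` -/
theorem mz_eq (n : ℕ) : mz n = sz n * dz n := by
  unfold mz sz dz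
  rw [← pow_add]
  congr 1
  ring

/-- a multiple of `7` plus a number prime to `7` -/
theorem cop7 {a : ℤ} (r : ℕ) (h : ¬ (7 : ℤ) ∣ a) : IsCoprime a ((7 : ℤ) ^ r) := by
  refine IsCoprime.pow_right ?_
  have hp : Prime (7 : ℤ) := by norm_num
  exact ((Prime.coprime_iff_not_dvd hp).2 h).symm

/-- the polynomial is primitive -/
theorem prP (n : ℕ) (κ : ℤ) (hn : 1 ≤ n) (hκ : 7 ∣ κ - 2) : Pr (Pv (dz n) (mz n) κ) := by
  have h7 : ¬ (7 : ℤ) ∣ κ ^ 2 + mz n * κ - 1 := by
    obtain ⟨c, hc⟩ := hκ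
    have hm : (7 : ℤ) ∣ mz n := by
      unfold mz
      exact dvd_pow_self 7 (by omega)
    obtain ⟨e, he⟩ := hm
    rw [he]
    have : κ = 7 * c + 2 := by linarith
    subst this
    intro ⟨f, hf⟩
    have : 7 * (7 * c ^ 2 + 4 * c + e * (7 * c + 2) - f) = -3 := by linarith
    omega
  have hc := cop7 (125 * n * 2) h7
  obtain ⟨a, b, hab⟩ := hc
  refine ⟨⟨a, 0, b⟩, ?_⟩
  simp only [dot, Pv, dz]
  rw [← pow_mul]
  linarith

/-- `y` is primitive -/
theorem prY {y v P : V3} (h : cross y v = sm (-1) P) (hP : Pr P) : Pr y := by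
  obtain ⟨Q, hQ⟩ := hP
  refine ⟨cross Q v, ?_⟩
  have h1 := congrArg V3.a h
  have h2 := congrArg V3.b h
  have h3 := congrArg V3.c h
  simp only [cross, sm, lin] at h1 h2 h3
  simp only [dot, cross] at hQ ⊢
  linear_combination hQ - Q.a * h1 - Q.b * h2 - Q.c * h3

end URT

end ULB
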