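import Pool.Agent.ULB.StmtsURT

/-!
# Module URT_CC: the coordinate `cc` of the second vector of the plane of the root
-/

namespace ULB

namespace URT

namespace CCx

open WHP (V3 det be ga dot cross lin tt)
open WHS (hh ev der)

lemma ys_c (d s m u κ E : ℤ) (hm : m = s * d) (hE : u * κ ^ 2 + 2 * κ + u = d * E) :
    (ys d s m u κ E).c = -2 * κ * m + κ ^ 2 * (m ^ 2 + 1) + 1 := by
  simp only [ys]
  linear_combination m * hE + m * hm

lemma ga_alg (d κ m A X : ℝ) (hd : d ≠ 0) (hA : A ≠ 0) :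
    (-2 * κ * m + κ ^ 2 * (m ^ 2 + 1) + 1) -
      2 * ((X - κ * A) / (d * A)) * (d * m - κ * d * (m ^ 2 + 1)) +
      ((X - κ * A) / (d * A)) ^ 2 * (d ^ 2 * (m ^ 2 + 1)) =
    (A ^ 2 - 2 * A * X * m + X ^ 2 * (m ^ 2 + 1)) / A ^ 2 := by
  field_simp
  ring

lemma ga_ys (d s m u κ E : ℤ) (hm : m = s * d) (hE : u * κ ^ 2 + 2 * κ + u = d * E)
    (hd : (d : ℝ) ≠ 0) (hA : ((m : ℝ) + (m - u) * (m ^ 2 + 1)) ≠ 0) :
    ga (tt (yv d s m u κ E)) (ys d s m u κ E) =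
      ((1 + (m : ℝ) * (m - u)) ^ 2 + ((m : ℝ) - u) ^ 2) /
        ((m : ℝ) + (m - u) * (m ^ 2 + 1)) ^ 2 := by
  have h1 := ys_c d s m u κ E hm hE
  have h2 := ga_alg (d : ℝ) κ m ((m : ℝ) + (m - u) * (m ^ 2 + 1)) (1 + (m : ℝ) * (m - u)) hd hA
  have h3 : (((m : ℝ) + (m - u) * (m ^ 2 + 1)) ^ 2 -
      2 * ((m : ℝ) + (m - u) * (m ^ 2 + 1)) * (1 + (m : ℝ) * (m - u)) * m +
      (1 + (m : ℝ) * (m - u)) ^ 2 * ((m : ℝ) ^ 2 + 1)) =
      (1 + (m : ℝ) * (m - u)) ^ 2 + ((m : ℝ) - u) ^ 2 := by ring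
  rw [h3] at h2
  rw [← h2]
  unfold ga tt
  rw [h1]
  simp only [ys, yv, az, xz]
  push_cast
  ring

lemma cc_lin (y v w : V3) (p j : ℤ) : cc y (lin p v j w) = p * cc y v + j * cc y w := by
  unfold cc
  simp only [ga, lin]
  push_cast
  ring

end CCx

open WHP (V3 det be ga dot cross lin tt)
open WHS (hh ev der)

open CCx

theorem t_CC (h1 : Stmt_ALG) (h2 : Stmt_UZ) (_h3 : Stmt_EST) : Stmt_CC := by
  intro n τ κ E hn hτ hτn _hκ0 _hκ hE
  obtain ⟨hu1, hu2, -, -⟩ := h2 n τ hn hτ hτn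
  obtain ⟨-, -, hdet, -⟩ := h1 (dz n) (sz n) (mz n) (uz n τ) κ E
    (by simp only [mz, sz, dz]; rw [← pow_add]; congr 1; ring) hE
  -- real numbers
  set y := yv (dz n) (sz n) (mz n) (uz n τ) κ E with hy
  set w := ys (dz n) (sz n) (mz n) (uz n τ) κ E with hw
  have hmd : mz n = sz n * dz n := by
    simp only [mz, sz, dz]; rw [← pow_add]; congr 1; ring
  have hq1 : (1 : ℝ) ≤ 7 ^ τ := one_le_pow₀ (by norm_num)
  have hp1 : (1 : ℝ) ≤ 7 ^ (125 * n - τ) := one_le_pow₀ (by norm_num)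
  have hpq : (7 : ℝ) ^ (125 * n - τ) * 7 ^ τ = 7 ^ (125 * n) := by
    rw [← pow_add]; congr 1; omega
  obtain ⟨U, hU⟩ : ∃ U : ℝ, U = (uz n τ : ℝ) := ⟨_, rfl⟩
  obtain ⟨d, hd⟩ : ∃ d : ℝ, d = (dz n : ℝ) := ⟨_, rfl⟩
  obtain ⟨M, hM⟩ : ∃ M : ℝ, M = (mz n : ℝ) := ⟨_, rfl⟩
  obtain ⟨p, hp⟩ : ∃ p : ℝ, p = (7 : ℝ) ^ (125 * n - τ) := ⟨_, rfl⟩
  obtain ⟨q, hq⟩ : ∃ q : ℝ, q = (7 : ℝ) ^ τ := ⟨_, rfl⟩
  have hd' : d = p * q := by
    rw [hd, hp, hq, hpq]; simp only [dz]; push_cast; rfl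
  have hM' : M = (7 : ℝ) ^ (134 * n) := by
    rw [hM]; simp only [mz]; push_cast; rfl
  have hUp : p ≤ U := by
    rw [hU, hp]; exact_mod_cast hu1
  have hUp2 : 1000 * U ≤ 1001 * p := by
    rw [hU, hp]; exact_mod_cast hu2
  rw [← hp] at hp1
  rw [← hq] at hq1
  -- M is large
  have hMq : 2 * q * 7 ^ (130 * n) ≤ M := by
    rw [hM', hq]
    calc 2 * (7 : ℝ) ^ τ * 7 ^ (130 * n) ≤ 7 * (7 : ℝ) ^ τ * 7 ^ (130 * n) := by
          have : (0 : ℝ) ≤ (7 : ℝ) ^ τ * 7 ^ (130 * n) := by positivity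
          nlinarith
      _ = (7 : ℝ) ^ (1 + τ + 130 * n) := by rw [pow_add, pow_add]; ring
      _ ≤ (7 : ℝ) ^ (134 * n) := pow_le_pow_right₀ (by norm_num) (by omega)
  have hMp : 4 * p ≤ M := by
    rw [hM', hp]
    calc 4 * (7 : ℝ) ^ (125 * n - τ) ≤ 7 * (7 : ℝ) ^ (125 * n - τ) := by
          have : (0 : ℝ) ≤ (7 : ℝ) ^ (125 * n - τ) := by positivity
          nlinarith
      _ = (7 : ℝ) ^ (1 + (125 * n - τ)) := by rw [pow_add]; ring
      _ ≤ (7 : ℝ) ^ (134 * n) := pow_le_pow_right₀ (by norm_num) (by omega)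
  have hp0 : 0 < p := by linarith
  have hq0 : 0 < q := by linarith
  have hU0 : 0 < U := by linarith
  have hU1 : 1 ≤ U := by linarith
  have hd0 : 0 < d := by rw [hd']; positivity
  have hM4 : 4 ≤ M := by linarith
  obtain ⟨e, he⟩ : ∃ e : ℝ, e = M - U := ⟨_, rfl⟩
  have he1 : 1 ≤ e := by rw [he]; linarith
  have he0 : 0 < e := by linarith
  obtain ⟨D, hD⟩ : ∃ D : ℝ, D = U * e + 1 := ⟨_, rfl⟩
  have hD0 : 0 < D := by rw [hD]; positivity
  obtain ⟨A, hA⟩ : ∃ A : ℝ, A = M + e * (M ^ 2 + 1) := ⟨_, rfl⟩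
  have hA0 : 0 < A := by rw [hA]; positivity
  -- `δ`, `y.a`
  have hdl : dl y = D := by
    unfold dl
    rw [hdet]
    push_cast
    rw [abs_neg, ← hU, ← hM, ← he, abs_of_pos (by positivity), hD]
  have hya : (y.a : ℝ) = d * A := by
    rw [hy, hA, hd, he, hM, hU]
    simp only [yv, az]
    push_cast
    ring
  have hga : ga (tt y) w = ((1 + M * e) ^ 2 + e ^ 2) / A ^ 2 := by
    rw [hy, hw, ga_ys (dz n) (sz n) (mz n) (uz n τ) κ E hmd hE
      (by rw [← hd]; exact hd0.ne')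
      (by rw [← hM, ← hU, ← he, ← hA]; exact hA0.ne'), ← hM, ← hU, ← he, ← hA]
  have hccw : cc y w = d * ((1 + M * e) ^ 2 + e ^ 2) / (D * A) := by
    unfold cc zz
    rw [hga, hdl, hya]
    field_simp
  have hccy : cc y y = -1 := by
    have hya0 : (y.a : ℝ) ≠ 0 := by rw [hya]; positivity
    unfold cc zz
    rw [WHP.ga_self hya0, hdl, hdet]
    push_cast
    rw [← hU, ← hM, ← he, ← hD]
    field_simp
  -- the error term
  obtain ⟨δ, hδ⟩ : ∃ δ : ℝ, δ = d * e * (M * e + 2) / (D * A) := ⟨_, rfl⟩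
  have hδ0 : 0 ≤ δ := by rw [hδ]; positivity
  have hid : U * cc y w = d - δ := by
    rw [hccw, hδ]
    field_simp
    rw [hD, hA]
    have : M = e + U := by rw [he]; ring
    rw [this]
    ring
  have hpow : (0 : ℝ) < 7 ^ (130 * n) := by positivity
  have hδ1 : δ ≤ 1 / (7 : ℝ) ^ (130 * n) := by
    rw [hδ, div_le_div_iff₀ (by positivity) hpow]
    -- `d e (M e + 2) 7^(130 n) ≤ D A`
    have h5 : U * e * (e * M ^ 2) ≤ D * A := by
      rw [hD, hA]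
      have h51 : U * e ≤ U * e + 1 := by linarith
      have h52 : e * M ^ 2 ≤ M + e * (M ^ 2 + 1) := by nlinarith
      exact mul_le_mul h51 h52 (by positivity) (by positivity)
    have h6 : M * e + 2 ≤ 2 * (M * e) := by nlinarith
    have h7 : d ≤ q * U := by rw [hd']; nlinarith
    calc d * e * (M * e + 2) * 7 ^ (130 * n)
        ≤ (q * U) * e * (2 * (M * e)) * 7 ^ (130 * n) := by
          apply mul_le_mul_of_nonneg_right _ hpow.le
          apply mul_le_mul _ h6 (by positivity) (by positivity)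
          exact mul_le_mul_of_nonneg_right h7 he0.le
      _ = (U * e * (e * M)) * (2 * q * 7 ^ (130 * n)) := by ring
      _ ≤ (U * e * (e * M)) * M := mul_le_mul_of_nonneg_left hMq (by positivity)
      _ = U * e * (e * M ^ 2) := by ring
      _ ≤ D * A := h5
      _ = 1 * (D * A) := by ring
  have hδ2 : δ ≤ 1 := by
    refine hδ1.trans ?_
    rw [div_le_one hpow]
    exact one_le_pow₀ (by norm_num)
  refine ⟨cc y w, ?_, ?_, ?_, ?_⟩
  · rw [← hq]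
    -- `8/10 q U ≤ d - δ`
    have h8 : 8 / 10 * q * U ≤ U * cc y w := by
      rw [hid, hd']
      have hpq10 : 10 ≤ p * q := by
        rw [← hd', hd]
        simp only [dz]
        push_cast
        calc (10 : ℝ) ≤ 7 ^ 2 := by norm_num
          _ ≤ (7 : ℝ) ^ (125 * n) := pow_le_pow_right₀ (by norm_num) (by omega)
      nlinarith
    have h9 : 0 ≤ U * (cc y w - 8 / 10 * q) := by nlinarith
    have h10 := nonneg_of_mul_nonneg_right h9 hU0
    linarith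
  · rw [← hq]
    have h8 : U * cc y w ≤ U * q := by
      rw [hid, hd']
      nlinarith
    have h9 := le_of_mul_le_mul_left h8 hU0
    linarith
  · rw [← hU, ← hd, hid]
    rw [show d - δ - d = -δ by ring, abs_neg, abs_of_nonneg hδ0]
    exact hδ1
  · intro p' j
    rw [cc_lin, hccy]
    ring

end URT

end ULB
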