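import Pool.Agent.ULB.StmtsURT

/-!
# Block URT: sizes at the root
-/

namespace ULB

namespace URT

open WHP (V3 det be ga dot cross lin tt)
open WHS (hh ev der)

namespace MEST

/-- the real inequalities; `D = d`, `M = m`, `A = a'`, `X`, `W = 7^(125n-τ)`, `T = 7^τ` -/
structure Re (D M S T W U A X k : ℝ) : Prop where
  T1 : 7 ≤ T
  S1 : 100000 ≤ S
  W1 : 100000 ≤ W
  WT : W * T = D
  SD : S * D = M
  U1 : W ≤ U
  U2 : 1000 * U ≤ 1001 * W
  hA : A = M + (M - U) * (M ^ 2 + 1)
  hX : X = 1 + M * (M - U)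
  k0 : 0 ≤ k
  k1 : k ≤ D - 1

variable {D M S T W U A X k : ℝ}

theorem Re.Wpos (h : Re D M S T W U A X k) : 0 < W := by linarith [h.W1]

theorem Re.D7 (h : Re D M S T W U A X k) : 7 * W ≤ D := by
  rw [← h.WT]
  nlinarith [h.T1, h.Wpos]

theorem Re.Dpos (h : Re D M S T W U A X k) : 0 < D := by linarith [h.Wpos, h.D7]

theorem Re.MD (h : Re D M S T W U A X k) : 100000 * D ≤ M := by
  rw [← h.SD]
  nlinarith [h.S1, h.Dpos]

theorem Re.UM (h : Re D M S T W U A X k) : 100000 * U ≤ M := by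
  have h1 := h.U2
  have h2 := h.D7
  have h3 := h.MD
  have h4 := h.Wpos
  linarith

theorem Re.Mbig (h : Re D M S T W U A X k) : 100000 * 100000 ≤ M := by
  have h1 := h.W1
  have h2 := h.D7
  have h3 := h.MD
  linarith

theorem Re.Apos (h : Re D M S T W U A X k) : 999 / 1000 * M ^ 3 ≤ A := by
  rw [h.hA]
  have h1 := h.UM
  have h2 := h.Mbig
  have h3 : 999 / 1000 * M ≤ M - U := by linarith
  have h4 : 0 ≤ M ^ 2 + 1 := by positivity
  have h5 := mul_le_mul_of_nonneg_right h3 h4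
  nlinarith [h2]

theorem Re.A2 (h : Re D M S T W U A X k) : 1000 * A ≤ 1001 * M ^ 3 := by
  rw [h.hA]
  have h1 := h.U1
  have h0 := h.W1
  have h2 := h.Mbig
  have h3 : M - U ≤ M := by linarith
  have h4 : 0 ≤ M ^ 2 + 1 := by positivity
  have h5 := mul_le_mul_of_nonneg_right h3 h4
  have h6 : 1000 * (2 * M) ≤ M ^ 3 := by
    have : 2000 ≤ M ^ 2 := by nlinarith
    nlinarith
  nlinarith

theorem Re.Apos' (h : Re D M S T W U A X k) : 0 < A := by
  have h1 := h.Apos
  have h2 := h.Mbig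
  have : 0 < M ^ 3 := by positivity
  linarith

theorem Re.Xpos (h : Re D M S T W U A X k) : 0 < X := by
  rw [h.hX]
  have h1 := h.UM
  have h2 := h.Mbig
  have h3 := h.U1
  have h4 := h.W1
  have : 0 ≤ M * (M - U) := mul_nonneg (by linarith) (by linarith)
  linarith

theorem Re.XA (h : Re D M S T W U A X k) : X ≤ A := by
  rw [h.hX, h.hA]
  have h1 := h.UM
  have h2 := h.Mbig
  have h3 := h.U1
  have h4 := h.W1
  have h5 : 0 ≤ M - U := by linarith
  have h6 : M ≤ M ^ 2 + 1 := by nlinarith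
  have h7 := mul_le_mul_of_nonneg_left h6 h5
  linarith [mul_comm M (M - U)]

/-- `dl` -/
theorem Re.dl1 (h : Re D M S T W U A X k) : 999 / 1000 * (W * M) ≤ U * (M - U) + 1 := by
  have h1 := h.UM
  have h2 := h.Mbig
  have h3 := h.U1
  have h4 := h.W1
  have h5 : 999 / 1000 * M ≤ M - U := by linarith
  have h6 : W * (999 / 1000 * M) ≤ U * (M - U) :=
    mul_le_mul h3 h5 (by linarith) (by linarith)
  linarith

theorem Re.dl2 (h : Re D M S T W U A X k) : 1000 * (U * (M - U) + 1) ≤ 1001 * (W * M) := by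
  have h1 := h.UM
  have h2 := h.Mbig
  have h3 := h.U1
  have h4 := h.W1
  have h5 := h.U2
  have h6 : 1000 * U * M ≤ 1001 * W * M := mul_le_mul_of_nonneg_right h5 (by linarith)
  have h7 : 1 ≤ U * U := by nlinarith
  nlinarith

end MEST

open MEST

theorem t_EST (h1 : Stmt_ALG) (h2 : Stmt_UZ) : Stmt_EST := by
  intro n τ κ E hn hτ hτn hκ0 hκd hE
  obtain ⟨u1, u2, -, -⟩ := h2 n τ hn hτ hτn
  have hmd : mz n = sz n * dz n := by
    unfold mz sz dz
    rw [← pow_add]
    congr 1
    ring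
  obtain ⟨-, -, hdet, -⟩ := h1 (dz n) (sz n) (mz n) (uz n τ) κ E hmd hE
  -- real quantities
  set D : ℝ := (7 : ℝ) ^ (125 * n) with hD
  set M : ℝ := (7 : ℝ) ^ (134 * n) with hM
  set S : ℝ := (7 : ℝ) ^ (9 * n) with hS
  set T : ℝ := (7 : ℝ) ^ τ with hT
  set W : ℝ := (7 : ℝ) ^ (125 * n - τ) with hW
  set U : ℝ := ((uz n τ : ℤ) : ℝ) with hU
  have cD : ((dz n : ℤ) : ℝ) = D := by unfold dz; push_cast; rfl
  have cM : ((mz n : ℤ) : ℝ) = M := by unfold mz; push_cast; rfl
  have hWT : W * T = D := by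
    rw [hW, hT, hD, ← pow_add]
    congr 1
    omega
  have hSD : S * D = M := by
    rw [hS, hD, hM, ← pow_add]
    congr 1
    ring
  have big : ∀ e : ℕ, 6 ≤ e → (100000 : ℝ) ≤ 7 ^ e := by
    intro e he
    calc (100000 : ℝ) ≤ 7 ^ 6 := by norm_num
      _ ≤ 7 ^ e := pow_le_pow_right₀ (by norm_num) he
  have hR : Re D M S T W U (((az (mz n) (uz n τ) : ℤ) : ℝ)) (((xz (mz n) (uz n τ) : ℤ) : ℝ)) (κ : ℝ) := by
    refine ⟨?_, ?_, ?_, hWT, hSD, ?_, ?_, ?_, ?_, ?_, ?_⟩
    · calc (7 : ℝ) = 7 ^ 1 := by norm_num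
        _ ≤ T := pow_le_pow_right₀ (by norm_num) hτ
    · exact big _ (by omega)
    · exact big _ (by omega)
    · have := (Int.cast_le (R := ℝ)).2 u1
      push_cast at this
      exact this
    · have := (Int.cast_le (R := ℝ)).2 u2
      push_cast at this
      exact this
    · unfold az
      push_cast
      rw [cM]
    · unfold xz
      push_cast
      rw [cM]
    · exact_mod_cast hκ0
    · have : κ ≤ dz n - 1 := by omega
      have := (Int.cast_le (R := ℝ)).2 this
      push_cast at this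
      rw [cD] at this
      exact this
  set A : ℝ := ((az (mz n) (uz n τ) : ℤ) : ℝ) with hA
  set X : ℝ := ((xz (mz n) (uz n τ) : ℤ) : ℝ) with hX
  set y := yv (dz n) (sz n) (mz n) (uz n τ) κ E with hy
  set P := Pv (dz n) (mz n) κ with hP
  have ya : ((y.a : ℤ) : ℝ) = D * A := by
    rw [hy]
    simp only [yv]
    push_cast
    rw [cD]
  have yb : ((y.b : ℤ) : ℝ) = X - κ * A := by
    rw [hy]
    simp only [yv]
    push_cast
    rfl
  have Pb : ((P.b : ℤ) : ℝ) = D * (2 * κ + M) := by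
    rw [hP]
    simp only [Pv]
    push_cast
    rw [cD, cM]
  have Pc : ((P.c : ℤ) : ℝ) = D ^ 2 := by
    rw [hP]
    simp only [Pv]
    push_cast
    rw [cD]
  have Dp := hR.Dpos
  have Ap := hR.Apos'
  have Xp := hR.Xpos
  have XA := hR.XA
  have Mb := hR.Mbig
  have MD := hR.MD
  have Wp := hR.Wpos
  have Mp : 0 < M := by linarith
  have ht : tt y = X / (D * A) - κ / D := by
    unfold tt
    rw [ya, yb]
    field_simp
  have hdd : dd y P = D * (M + 2 * (X / A)) := by
    unfold dd der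
    rw [Pb, Pc, ht]
    field_simp
    ring
  have XA1 : X / A ≤ 1 := (div_le_one Ap).2 XA
  have XA0 : 0 < X / A := div_pos Xp Ap
  have hdl : dl y = U * (M - U) + 1 := by
    unfold dl
    rw [hdet]
    push_cast
    rw [cM]
    have h3 := hR.dl1
    have h4 : 0 < W * M := mul_pos Wp Mp
    rw [abs_of_neg (by linarith)]
    ring
  have dlp : 0 < dl y := by
    rw [hdl]
    have h3 := hR.dl1
    have h4 : 0 < W * M := mul_pos Wp Mp
    linarith
  have dl1 : 999 / 1000 * (W * M) ≤ dl y := by rw [hdl]; exact hR.dl1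
  have dl2 : 1000 * dl y ≤ 1001 * (W * M) := by rw [hdl]; exact hR.dl2
  have dd1 : D * M ≤ dd y P := by
    rw [hdd]
    exact mul_le_mul_of_nonneg_left (by linarith) Dp.le
  have dd2 : dd y P ≤ 101 / 100 * (D * M) := by
    rw [hdd]
    have : M + 2 * (X / A) ≤ 101 / 100 * M := by linarith
    calc D * (M + 2 * (X / A)) ≤ D * (101 / 100 * M) := mul_le_mul_of_nonneg_left this Dp.le
      _ = 101 / 100 * (D * M) := by ring
  have DMp : 0 < D * M := mul_pos Dp Mp
  have WMp : 0 < W * M := mul_pos Wp Mp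
  have ddp : 0 < dd y P := lt_of_lt_of_le DMp dd1
  have e259 : (7 : ℝ) ^ (259 * n) = D * M := by
    rw [hD, hM, ← pow_add]
    congr 1
    ring
  have e259' : (7 : ℝ) ^ (259 * n - τ) = W * M := by
    rw [hW, hM, ← pow_add]
    congr 1
    omega
  have e9 : (7 : ℝ) ^ (9 * n + τ) = S * T := by
    rw [hS, hT, ← pow_add]
  have Tp : 0 < T := by linarith [hR.T1]
  have Sp : 0 < S := by linarith [hR.S1]
  have A1 := hR.Apos
  have A2 := hR.A2
  refine ⟨?_, ?_, ?_, ?_, ?_, ?_, ?_, ?_, ?_, ?_, ?_⟩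
  · have : (0 : ℝ) < ((y.a : ℤ) : ℝ) := by rw [ya]; exact mul_pos Dp Ap
    exact_mod_cast this
  · rw [ya]
    have e : (7 : ℝ) ^ (528 * n) = 7 ^ n * (D * M ^ 3) := by
      rw [hD, hM, ← pow_mul, ← pow_add, ← pow_add]
      congr 1
      ring
    rw [e]
    have h7 : (2 : ℝ) ≤ 7 ^ n := by
      calc (2 : ℝ) ≤ 7 ^ 1 := by norm_num
        _ ≤ 7 ^ n := pow_le_pow_right₀ (by norm_num) (by omega)
    have h8 : 0 < M ^ 3 := by positivity
    have h9 : A ≤ 2 * M ^ 3 := by linarith
    calc D * A ≤ D * (2 * M ^ 3) := mul_le_mul_of_nonneg_left h9 Dp.le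
      _ = 2 * (D * M ^ 3) := by ring
      _ ≤ 7 ^ n * (D * M ^ 3) := mul_le_mul_of_nonneg_right h7 (by positivity)
  · rw [ht, abs_le]
    have h3 : X / (D * A) = (X / A) / D := by field_simp
    rw [h3, ← sub_div]
    have k0 := hR.k0
    have k1 := hR.k1
    constructor
    · rw [le_div_iff₀ Dp]
      linarith
    · rw [div_le_iff₀ Dp]
      have : 1 ≤ D := by linarith [hR.D7, hR.W1]
      linarith
  · rw [e259]; exact dd1
  · rw [e259]; exact dd2
  · rw [Pc, abs_of_nonneg (by positivity)]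
    refine le_trans ?_ dd1
    have : D ≤ M := by linarith
    nlinarith
  · rw [e259']
    linarith
  · unfold bb
    rw [abs_of_pos ddp, le_div_iff₀ dlp]
    have h3 : T * (W * M) = D * M := by rw [← hWT]; ring
    have h4 : T * dl y ≤ 1001 / 1000 * (D * M) := by
      calc T * dl y ≤ T * (1001 / 1000 * (W * M)) :=
            mul_le_mul_of_nonneg_left (by linarith) Tp.le
        _ = 1001 / 1000 * (D * M) := by rw [← h3]; ring
    linarith
  · unfold bb
    rw [abs_of_pos ddp, div_le_iff₀ dlp]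
    have h3 : T * (W * M) = D * M := by rw [← hWT]; ring
    have h4 : 999 / 1000 * (D * M) ≤ T * dl y := by
      calc 999 / 1000 * (D * M) = T * (999 / 1000 * (W * M)) := by rw [← h3]; ring
        _ ≤ T * dl y := mul_le_mul_of_nonneg_left dl1 Tp.le
    linarith
  · unfold GG
    rw [abs_of_pos ddp, le_div_iff₀ (mul_pos dlp ddp), ya, e9]
    have h3 : S * T * ((W * M) * (D * M)) = D * M ^ 3 := by
      have : S * T * ((W * M) * (D * M)) = (W * T) * (S * D) * M ^ 2 := by ring
      rw [this, hWT, hSD]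
      ring
    have h4 : dl y * dd y P ≤ (1001 / 1000 * (W * M)) * (101 / 100 * (D * M)) :=
      mul_le_mul (by linarith) dd2 ddp.le (by positivity)
    have h5 : S * T * (dl y * dd y P) ≤ 1001 / 1000 * (101 / 100) * (D * M ^ 3) := by
      calc S * T * (dl y * dd y P) ≤
            S * T * ((1001 / 1000 * (W * M)) * (101 / 100 * (D * M))) :=
            mul_le_mul_of_nonneg_left h4 (by positivity)
        _ = 1001 / 1000 * (101 / 100) * (D * M ^ 3) := by rw [← h3]; ring
    have h6 : 999 / 1000 * (D * M ^ 3) ≤ D * A := by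
      calc 999 / 1000 * (D * M ^ 3) = D * (999 / 1000 * M ^ 3) := by ring
        _ ≤ D * A := mul_le_mul_of_nonneg_left A1 Dp.le
    have h7 : 0 < D * M ^ 3 := by positivity
    linarith
  · unfold GG
    rw [abs_of_pos ddp, div_le_iff₀ (mul_pos dlp ddp), ya, e9]
    have h3 : S * T * ((W * M) * (D * M)) = D * M ^ 3 := by
      have : S * T * ((W * M) * (D * M)) = (W * T) * (S * D) * M ^ 2 := by ring
      rw [this, hWT, hSD]
      ring
    have h4 : (999 / 1000 * (W * M)) * (D * M) ≤ dl y * dd y P :=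
      mul_le_mul dl1 dd1 DMp.le dlp.le
    have h5 : 999 / 1000 * (D * M ^ 3) ≤ S * T * (dl y * dd y P) := by
      calc 999 / 1000 * (D * M ^ 3) = S * T * ((999 / 1000 * (W * M)) * (D * M)) := by
            rw [← h3]; ring
        _ ≤ S * T * (dl y * dd y P) := mul_le_mul_of_nonneg_left h4 (by positivity)
    have h6 : D * A ≤ 1001 / 1000 * (D * M ^ 3) := by
      calc D * A ≤ D * (1001 / 1000 * M ^ 3) := mul_le_mul_of_nonneg_left (by linarith) Dp.le
        _ = 1001 / 1000 * (D * M ^ 3) := by ring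
    have h7 : 0 < D * M ^ 3 := by positivity
    linarith

end URT

end ULB
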