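import Pool.Agent.ULB.StmtsURT

/-!
# Block URT, module HEN: Hensel lifting of the root of `u κ² + 2 κ + u` modulo powers of 7
-/

namespace ULB.URT

namespace HEN

/-- existence of a root modulo `7^r`, `κ ≡ 2 mod 7`, without the bound on `κ` -/
theorem exi (u : ℤ) (hu : (7 : ℤ) ∣ u - 2) : ∀ r : ℕ, 1 ≤ r →
    ∃ κ : ℤ, (7 : ℤ) ∣ κ - 2 ∧ (7 : ℤ) ^ r ∣ u * κ ^ 2 + 2 * κ + u := by
  intro r
  induction r with
  | zero => intro h; omega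
  | succ r ih =>
    intro _
    rcases Nat.eq_zero_or_pos r with h0 | h1
    · subst h0
      refine ⟨2, by simp, ?_⟩
      obtain ⟨c, hc⟩ := hu
      refine ⟨5 * c + 2, ?_⟩
      have hu' : u = 7 * c + 2 := by linarith
      subst hu'
      ring
    · obtain ⟨κ, ⟨a, ha⟩, ⟨b, hb⟩⟩ := ih h1
      obtain ⟨c, hc⟩ := hu
      have hk : κ = 7 * a + 2 := by linarith
      have hu' : u = 7 * c + 2 := by linarith
      -- choose `e` with `b + e (2 u κ + 2) ≡ 0 mod 7`; `2 u κ + 2 ≡ 3`, inverse of 3 is 5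
      refine ⟨κ + 7 ^ r * (2 * b), ?_, ?_⟩
      · obtain ⟨q, rfl⟩ : ∃ q, r = q + 1 := ⟨r - 1, by omega⟩
        refine ⟨a + 7 ^ q * (2 * b), ?_⟩
        rw [hk]; ring
      · obtain ⟨q, rfl⟩ : ∃ q, r = q + 1 := ⟨r - 1, by omega⟩
        have e1 : u * (κ + 7 ^ (q + 1) * (2 * b)) ^ 2 + 2 * (κ + 7 ^ (q + 1) * (2 * b)) + u
            = (u * κ ^ 2 + 2 * κ + u) + 7 ^ (q + 1) * (2 * b) * (2 * u * κ + 2)
              + u * (7 ^ (q + 1) * (2 * b)) ^ 2 := by ring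
        rw [e1, hb, hk, hu']
        refine ⟨b * (3 + 28 * c * a + 8 * c + 8 * a) +
          (7 : ℤ) ^ q * (7 * c + 2) * (4 * b ^ 2), ?_⟩
        ring
end HEN

theorem t_HEN : Stmt_HEN := by
  intro r u hr hu
  obtain ⟨κ, hκ, hr7⟩ := HEN.exi u hu r hr
  have hp : (0 : ℤ) < 7 ^ r := by positivity
  refine ⟨κ % 7 ^ r, Int.emod_nonneg _ hp.ne', Int.emod_lt_of_pos _ hp, ?_, ?_⟩
  · have h7 : (7 : ℤ) ∣ 7 ^ r := dvd_pow_self 7 (by omega)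
    have h1 : (7 : ℤ) ∣ κ - κ % 7 ^ r := dvd_trans h7 (Int.dvd_self_sub_emod)
    have h2 : κ % 7 ^ r - 2 = (κ - 2) - (κ - κ % 7 ^ r) := by ring
    rw [h2]
    exact dvd_sub hκ h1
  · have h1 : (7 : ℤ) ^ r ∣ κ - κ % 7 ^ r := Int.dvd_self_sub_emod
    have h2 : u * (κ % 7 ^ r) ^ 2 + 2 * (κ % 7 ^ r) + u = (u * κ ^ 2 + 2 * κ + u)
        - (κ - κ % 7 ^ r) * (u * (κ + κ % 7 ^ r) + 2) := by ring
    rw [h2]
    exact dvd_sub hr7 (Dvd.dvd.mul_right h1 _)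

end ULB.URT
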