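import Pool.Agent.ULB.StmtsURT

/-!
# Block URT: the lacunary lower bound
-/

set_option autoImplicit false

namespace ULB

namespace URT

namespace MLAC

/-- Either the leading part does not cancel, or `p` is large. -/
theorem dich {N₁ N₂ : ℕ} {a ρ p j u d : ℤ} (hu : u = a * 7 ^ N₂ + ρ) (hd : d = 7 ^ N₁ * 7 ^ N₂)
    (ha : 7 ∣ a - 1) (hp : 1 ≤ p) (hρ : 0 ≤ ρ) (hs : 2 * (ρ * p) ≤ 7 ^ N₂) :
    (7 : ℤ) ^ N₂ ≤ 2 * |u * p - j * d| ∨ ((7 : ℤ) ^ N₁ ≤ p ∧ u * p - j * d = ρ * p) := by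
  have hk : u * p - j * d = (a * p - j * 7 ^ N₁) * 7 ^ N₂ + ρ * p := by rw [hu, hd]; ring
  by_cases h : a * p - j * 7 ^ N₁ = 0
  · right
    refine ⟨?_, by rw [hk, h]; ring⟩
    have hcop : IsCoprime a (7 : ℤ) := by
      obtain ⟨c, hc⟩ := ha
      exact ⟨1, -c, by linarith⟩
    have hdvd : (7 : ℤ) ^ N₁ ∣ a * p := ⟨j, by linarith⟩
    have hdvd' : (7 : ℤ) ^ N₁ ∣ p := (hcop.symm.pow_left).dvd_of_dvd_mul_left hdvd
    exact Int.le_of_dvd (by linarith) hdvd'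
  · left
    have h1 : 1 ≤ |a * p - j * 7 ^ N₁| := Int.one_le_abs h
    have h7 : (0 : ℤ) < 7 ^ N₂ := by positivity
    have h2 : (7 : ℤ) ^ N₂ ≤ |(a * p - j * 7 ^ N₁) * 7 ^ N₂| := by
      rw [abs_mul, abs_of_pos h7]
      nlinarith
    have h3 : |(a * p - j * 7 ^ N₁) * 7 ^ N₂| ≤ |u * p - j * d| + ρ * p := by
      have e : (a * p - j * 7 ^ N₁) * 7 ^ N₂ = (u * p - j * d) - ρ * p := by rw [hk]; ring
      rw [e]
      have := abs_sub (u * p - j * d) (ρ * p)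
      have h0 : |ρ * p| = ρ * p := abs_of_nonneg (mul_nonneg hρ (by linarith))
      rw [h0] at this
      exact this
    linarith

/-- The final comparison. -/
theorem fin {α β γ X P K M : ℝ} (hα : 0 < α) (hβ : 0 < β) (hγ : 0 < γ) (h1 : α ≤ P) (h2 : β ≤ K)
    (h3 : γ ≤ M) (h : 21 * X ≤ 10 * (α * β) * γ) : 21 * X ≤ 10 * (P * K) * M := by
  have e1 : α * β ≤ P * K := mul_le_mul h1 h2 hβ.le (hα.le.trans h1)
  have e2 : 10 * (α * β) * γ ≤ 10 * (P * K) * M := by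
    apply mul_le_mul _ h3 hγ.le
    · have : 0 ≤ α * β := by positivity
      linarith
    · linarith
  linarith

end MLAC

open MLAC in
/-- **LAC.** -/
theorem t_LAC : Stmt_LAC := by
  intro n τ p j x hn hτ h4 hp hk hx
  -- abbreviations
  set q : ℤ := 7 ^ n with hq
  have hpow : ∀ a : ℕ, (7 : ℤ) ^ (a * n) = q ^ a := by
    intro a; rw [hq, ← pow_mul, mul_comm]
  have hqR : ∀ a : ℕ, (7 : ℝ) ^ (a * n) = (q : ℝ) ^ a := by
    intro a; rw [hq]; push_cast; rw [← pow_mul, mul_comm]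
  have hq10 : (7 : ℤ) ^ 10 ≤ q := pow_le_pow_right₀ (by norm_num) hn
  have hq1 : (1000 : ℤ) ≤ q := by have : (1000 : ℤ) ≤ 7 ^ 10 := by norm_num
                                  linarith
  have hq0 : (0 : ℤ) < q := by linarith
  have hqr1 : (1000 : ℝ) ≤ (q : ℝ) := by exact_mod_cast hq1
  have hqr0 : (0 : ℝ) < (q : ℝ) := by linarith
  have hpr : (1 : ℝ) ≤ (p : ℝ) := by exact_mod_cast hp
  have hM1 : (7 : ℝ) ^ (8 * n + 1) ≤ max ((7 : ℝ) ^ (8 * n + 1)) x := le_max_left _ _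
  have hM2 : x ≤ max ((7 : ℝ) ^ (8 * n + 1)) x := le_max_right _ _
  have hgoal : (7 : ℝ) ^ (125 * n) = (q : ℝ) ^ 125 := hqR 125
  have hMr : (7 : ℝ) ^ (8 * n + 1) = 7 * (q : ℝ) ^ 8 := by rw [pow_succ, hqR 8]; ring
  have hcast : (((uz n τ * p - j * dz n : ℤ) : ℝ)) = ((uz n τ * p - j * dz n : ℤ) : ℝ) := rfl
  have habs : |((uz n τ * p - j * dz n : ℤ) : ℝ)| = ((|uz n τ * p - j * dz n| : ℤ) : ℝ) := by
    rw [Int.cast_abs]
  -- monotonicity of powers of q
  have hmono : ∀ a b : ℕ, a ≤ b → q ^ a ≤ q ^ b := fun a b hab =>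
    pow_le_pow_right₀ (by linarith) hab
  have hmonoR : ∀ a b : ℕ, a ≤ b → (q : ℝ) ^ a ≤ (q : ℝ) ^ b := fun a b hab =>
    pow_le_pow_right₀ (by linarith) hab
  have hposR : ∀ a : ℕ, 0 < (q : ℝ) ^ a := fun a => by positivity
  have hpos : ∀ a : ℕ, 0 < q ^ a := fun a => by positivity
  -- final comparison of powers
  have hcmp : ∀ a : ℕ, 126 ≤ a → 21 * (q : ℝ) ^ 125 ≤ 10 / 8 * (q : ℝ) ^ a := by
    intro a ha
    have h1 := hmonoR 126 a ha
    have h2 : (q : ℝ) ^ 126 = q * (q : ℝ) ^ 125 := by rw [pow_succ]; ring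
    have h3 := hposR 125
    nlinarith
  rw [hgoal, habs]
  by_cases c3 : q ^ 75 ≤ 8 * p
  · -- Case 3
    have hxx := hx 75 (by tauto) (by rw [hqR 75]; exact_mod_cast c3)
    rw [show (75 - 2) * n = 73 * n by norm_num, hqR 73] at hxx
    have hk1 : (1 : ℝ) ≤ ((|uz n τ * p - j * dz n| : ℤ) : ℝ) := by
      exact_mod_cast Int.one_le_abs hk
    have hp1 : (q : ℝ) ^ 75 / 8 ≤ (p : ℝ) := by
      have : ((q : ℝ) ^ 75) ≤ 8 * (p : ℝ) := by exact_mod_cast c3
      linarith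
    refine fin (α := (q : ℝ) ^ 75 / 8) (β := 1) (γ := (q : ℝ) ^ 73) (by positivity) one_pos
      (by positivity) hp1 hk1 (hxx.trans hM2) ?_
    have e : 10 * ((q : ℝ) ^ 75 / 8 * 1) * (q : ℝ) ^ 73 = 10 / 8 * (q : ℝ) ^ 148 := by ring
    rw [e]
    exact hcmp 148 (by norm_num)
  have c3' : 8 * p < q ^ 75 := not_le.1 c3
  by_cases c2 : q ^ 30 ≤ 4 * p
  · -- Case 2
    have hu : uz n τ = (7 ^ (50 * n - τ) + 7 ^ (42 * n) + 7 ^ (30 * n) + 1) * 7 ^ (75 * n) + 2 := by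
      rw [uz, show 125 * n - τ = (50 * n - τ) + 75 * n by omega, pow_add,
        show 117 * n = 42 * n + 75 * n by ring, pow_add, show 105 * n = 30 * n + 75 * n by ring,
        pow_add]
      ring
    have hd : dz n = 7 ^ (50 * n) * 7 ^ (75 * n) := by
      rw [dz, ← pow_add]; congr 1; ring
    have ha : (7 : ℤ) ∣ (7 ^ (50 * n - τ) + 7 ^ (42 * n) + 7 ^ (30 * n) + 1) - 1 := by
      rw [add_sub_cancel_right]
      exact dvd_add (dvd_add (dvd_pow_self 7 (by omega)) (dvd_pow_self 7 (by omega)))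
        (dvd_pow_self 7 (by omega))
    have hs : 2 * (2 * p) ≤ (7 : ℤ) ^ (75 * n) := by rw [hpow 75]; linarith
    have hp4 : (q : ℝ) ^ 30 / 4 ≤ (p : ℝ) := by
      have : ((q : ℝ) ^ 30) ≤ 4 * (p : ℝ) := by exact_mod_cast c2
      linarith
    rcases dich (j := j) hu hd ha hp (by norm_num) hs with h | ⟨h1, h2⟩
    · have hxx := hx 30 (by tauto) (by rw [hqR 30]; exact_mod_cast (by linarith : q ^ 30 ≤ 8 * p))
      rw [show (30 - 2) * n = 28 * n by norm_num, hqR 28] at hxx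
      rw [hpow 75] at h
      have hk1 : (q : ℝ) ^ 75 / 2 ≤ ((|uz n τ * p - j * dz n| : ℤ) : ℝ) := by
        have : ((q : ℝ) ^ 75) ≤ 2 * ((|uz n τ * p - j * dz n| : ℤ) : ℝ) := by exact_mod_cast h
        linarith
      refine fin (α := (q : ℝ) ^ 30 / 4) (β := (q : ℝ) ^ 75 / 2) (γ := (q : ℝ) ^ 28) (by positivity)
        (by positivity) (by positivity) hp4 hk1 (hxx.trans hM2) ?_
      have e : 10 * ((q : ℝ) ^ 30 / 4 * ((q : ℝ) ^ 75 / 2)) * (q : ℝ) ^ 28 =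
          10 / 8 * (q : ℝ) ^ 133 := by ring
      rw [e]
      exact hcmp 133 (by norm_num)
    · rw [hpow 50] at h1
      have hxx := hx 50 (by tauto) (by
        rw [hqR 50]; exact_mod_cast (by linarith : q ^ 50 ≤ 8 * p))
      rw [show (50 - 2) * n = 48 * n by norm_num, hqR 48] at hxx
      have hpr' : (q : ℝ) ^ 50 ≤ (p : ℝ) := by exact_mod_cast h1
      have hk1 : (q : ℝ) ^ 50 ≤ ((|uz n τ * p - j * dz n| : ℤ) : ℝ) := by
        rw [h2, abs_of_pos (by linarith : (0 : ℤ) < 2 * p)]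
        push_cast
        linarith
      refine fin (α := (q : ℝ) ^ 50) (β := (q : ℝ) ^ 50) (γ := (q : ℝ) ^ 48) (by positivity)
        (by positivity) (by positivity) hpr' hk1 (hxx.trans hM2) ?_
      have e : 10 * ((q : ℝ) ^ 50 * ((q : ℝ) ^ 50)) * (q : ℝ) ^ 48 = 10 * (q : ℝ) ^ 148 := by ring
      rw [e]
      have := hcmp 148 (by norm_num)
      have h0 := hposR 148
      linarith
  have c2' : 4 * p < q ^ 30 := not_le.1 c2
  by_cases c1 : q ^ 12 ≤ 4 * p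
  · -- Case 1
    have hu : uz n τ = (7 ^ (20 * n - τ) + 7 ^ (12 * n) + 1) * 7 ^ (105 * n) +
        (7 ^ (75 * n) + 2) := by
      rw [uz, show 125 * n - τ = (20 * n - τ) + 105 * n by omega, pow_add,
        show 117 * n = 12 * n + 105 * n by ring, pow_add]
      ring
    have hd : dz n = 7 ^ (20 * n) * 7 ^ (105 * n) := by
      rw [dz, ← pow_add]; congr 1; ring
    have ha : (7 : ℤ) ∣ (7 ^ (20 * n - τ) + 7 ^ (12 * n) + 1) - 1 := by
      rw [add_sub_cancel_right]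
      exact dvd_add (dvd_pow_self 7 (by omega)) (dvd_pow_self 7 (by omega))
    have hs : 2 * ((7 ^ (75 * n) + 2) * p) ≤ (7 : ℤ) ^ (105 * n) := by
      rw [hpow 75, hpow 105]
      have h0 : (2 : ℤ) ≤ q ^ 75 := by
        have := hmono 1 75 (by norm_num)
        rw [pow_one] at this
        linarith
      have h1 : (q ^ 75 + 2) * (4 * p) ≤ (2 * q ^ 75) * q ^ 30 :=
        mul_le_mul (by linarith) c2'.le (by linarith) (by positivity)
      have h2 : (2 * q ^ 75) * q ^ 30 = 2 * q ^ 105 := by ring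
      linarith
    have hp4 : (q : ℝ) ^ 12 / 4 ≤ (p : ℝ) := by
      have : ((q : ℝ) ^ 12) ≤ 4 * (p : ℝ) := by exact_mod_cast c1
      linarith
    rcases dich (j := j) hu hd ha hp (by positivity) hs with h | ⟨h1, h2⟩
    · have hxx := hx 12 (by tauto) (by rw [hqR 12]; exact_mod_cast (by linarith : q ^ 12 ≤ 8 * p))
      rw [show (12 - 2) * n = 10 * n by norm_num, hqR 10] at hxx
      rw [hpow 105] at h
      have hk1 : (q : ℝ) ^ 105 / 2 ≤ ((|uz n τ * p - j * dz n| : ℤ) : ℝ) := by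
        have : ((q : ℝ) ^ 105) ≤ 2 * ((|uz n τ * p - j * dz n| : ℤ) : ℝ) := by exact_mod_cast h
        linarith
      refine fin (α := (q : ℝ) ^ 12 / 4) (β := (q : ℝ) ^ 105 / 2) (γ := (q : ℝ) ^ 10) (by positivity)
        (by positivity) (by positivity) hp4 hk1 (hxx.trans hM2) ?_
      have e : 10 * ((q : ℝ) ^ 12 / 4 * ((q : ℝ) ^ 105 / 2)) * (q : ℝ) ^ 10 =
          10 / 8 * (q : ℝ) ^ 127 := by ring
      rw [e]
      exact hcmp 127 (by norm_num)
    · rw [hpow 20] at h1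
      have hxx := hx 20 (by tauto) (by
        rw [hqR 20]; exact_mod_cast (by linarith : q ^ 20 ≤ 8 * p))
      rw [show (20 - 2) * n = 18 * n by norm_num, hqR 18] at hxx
      have hpr' : (q : ℝ) ^ 20 ≤ (p : ℝ) := by exact_mod_cast h1
      have hk1 : (q : ℝ) ^ 95 ≤ ((|uz n τ * p - j * dz n| : ℤ) : ℝ) := by
        rw [h2, hpow 75, abs_of_pos (by positivity : (0 : ℤ) < (q ^ 75 + 2) * p)]
        push_cast
        have e : (q : ℝ) ^ 95 = (q : ℝ) ^ 75 * (q : ℝ) ^ 20 := by ring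
        rw [e]
        exact mul_le_mul (by linarith) hpr' (by positivity) (by positivity)
      refine fin (α := (q : ℝ) ^ 20) (β := (q : ℝ) ^ 95) (γ := (q : ℝ) ^ 18) (by positivity)
        (by positivity) (by positivity) hpr' hk1 (hxx.trans hM2) ?_
      have e : 10 * ((q : ℝ) ^ 20 * ((q : ℝ) ^ 95)) * (q : ℝ) ^ 18 = 10 * (q : ℝ) ^ 133 := by ring
      rw [e]
      have := hcmp 133 (by norm_num)
      have h0 := hposR 133
      linarith
  have c1' : 4 * p < q ^ 12 := not_le.1 c1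
  -- Case 0
  have hu : uz n τ = (7 ^ (8 * n - τ) + 1) * 7 ^ (117 * n) +
      (7 ^ (105 * n) + 7 ^ (75 * n) + 2) := by
    rw [uz, show 125 * n - τ = (8 * n - τ) + 117 * n by omega, pow_add]
    ring
  have hd : dz n = 7 ^ (8 * n) * 7 ^ (117 * n) := by
    rw [dz, ← pow_add]; congr 1; ring
  have ha : (7 : ℤ) ∣ (7 ^ (8 * n - τ) + 1) - 1 := by
    rw [add_sub_cancel_right]
    exact dvd_pow_self 7 (by omega)
  have hs : 2 * ((7 ^ (105 * n) + 7 ^ (75 * n) + 2) * p) ≤ (7 : ℤ) ^ (117 * n) := by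
    rw [hpow 75, hpow 105, hpow 117]
    have h0 : q ^ 75 + 2 ≤ q ^ 105 := by
      have e1 := hmono 76 105 (by norm_num)
      have e2 : q ^ 76 = q * q ^ 75 := by rw [pow_succ]; ring
      have e3 : (2 : ℤ) ≤ q ^ 75 := by
        have := hmono 1 75 (by norm_num)
        rw [pow_one] at this
        linarith
      nlinarith
    have h1 : (q ^ 105 + q ^ 75 + 2) * (4 * p) ≤ (2 * q ^ 105) * q ^ 12 :=
      mul_le_mul (by linarith) c1'.le (by linarith) (by positivity)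
    have h2 : (2 * q ^ 105) * q ^ 12 = 2 * q ^ 117 := by ring
    linarith
  rcases dich (j := j) hu hd ha hp (by positivity) hs with h | ⟨h1, h2⟩
  · rw [hpow 117] at h
    have hk1 : (q : ℝ) ^ 117 / 2 ≤ ((|uz n τ * p - j * dz n| : ℤ) : ℝ) := by
      have : ((q : ℝ) ^ 117) ≤ 2 * ((|uz n τ * p - j * dz n| : ℤ) : ℝ) := by exact_mod_cast h
      linarith
    refine fin (α := 1) (β := (q : ℝ) ^ 117 / 2) (γ := 7 * (q : ℝ) ^ 8) one_pos
      (by positivity) (by positivity) hpr hk1 (by rw [← hMr]; exact hM1) ?_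
    have e : 10 * (1 * ((q : ℝ) ^ 117 / 2)) * (7 * (q : ℝ) ^ 8) = 35 * (q : ℝ) ^ 125 := by ring
    rw [e]
    have := hposR 125
    linarith
  · rw [hpow 8] at h1
    have hpr' : (q : ℝ) ^ 8 ≤ (p : ℝ) := by exact_mod_cast h1
    have hk1 : (q : ℝ) ^ 113 ≤ ((|uz n τ * p - j * dz n| : ℤ) : ℝ) := by
      rw [h2, hpow 75, hpow 105, abs_of_pos (by positivity : (0 : ℤ) < (q ^ 105 + q ^ 75 + 2) * p)]
      push_cast
      have e : (q : ℝ) ^ 113 = (q : ℝ) ^ 105 * (q : ℝ) ^ 8 := by ring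
      have e2 := hposR 75
      rw [e]
      exact mul_le_mul (by linarith) hpr' (by positivity) (by positivity)
    refine fin (α := (q : ℝ) ^ 8) (β := (q : ℝ) ^ 113) (γ := 7 * (q : ℝ) ^ 8) (by positivity)
      (by positivity) (by positivity) hpr' hk1 (by rw [← hMr]; exact hM1) ?_
    have e : 10 * ((q : ℝ) ^ 8 * (q : ℝ) ^ 113) * (7 * (q : ℝ) ^ 8) = 70 * (q : ℝ) ^ 129 := by ring
    rw [e]
    have := hcmp 129 (by norm_num)
    have h0 := hposR 129
    linarith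

end URT

end ULB
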