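import Pool.Agent.ULB.URTAlg

/-!
# Block URT: the root (assembly)   (helper21)
-/

set_option autoImplicit false

namespace ULB

namespace URT

open WHP (V3 det be ga dot cross lin tt)
open WHS (hh ev der)

theorem t_ROOT (h1 : Stmt_HEN) (h2 : Stmt_UZ) (h3 : Stmt_EST) (h4 : Stmt_WWR) : Stmt_ROOT := by
  intro β M hβ hβ1
  -- choice of n
  obtain ⟨n0, hn0⟩ := exists_nat_ge (max M (3 / (9 * β)))
  obtain ⟨n, hn, hnM, hn3⟩ : ∃ n : ℕ, 10 ≤ n ∧ M ≤ n ∧ 3 ≤ 9 * β * n := by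
    refine ⟨max 10 n0, le_max_left _ _, ?_, ?_⟩
    · have : (n0 : ℝ) ≤ ((max 10 n0 : ℕ) : ℝ) := by exact_mod_cast le_max_right _ _
      exact ((le_max_left _ _).trans hn0).trans this
    · have h5 : (n0 : ℝ) ≤ ((max 10 n0 : ℕ) : ℝ) := by exact_mod_cast le_max_right _ _
      have h6 := ((le_max_right _ _).trans hn0).trans h5
      rw [div_le_iff₀ (by positivity)] at h6
      linarith
  obtain ⟨τ, hτ1, hτ2⟩ : ∃ τ : ℕ, 9 * β * n ≤ τ ∧ (τ : ℝ) < 9 * β * n + 1 :=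
    ⟨⌈9 * β * n⌉₊, Nat.le_ceil _, Nat.ceil_lt_add_one (by positivity)⟩
  have hn' : (10 : ℝ) ≤ n := by exact_mod_cast hn
  have hτ3 : (3 : ℝ) ≤ τ := hn3.trans hτ1
  have hτ3' : 3 ≤ τ := by exact_mod_cast hτ3
  have hβn : β * n ≤ n / 10000 := by
    have := mul_le_mul_of_nonneg_right hβ1 (by positivity : (0 : ℝ) ≤ n)
    linarith
  have h4τ : 4 * τ ≤ n := by
    have : (4 : ℝ) * τ ≤ n := by nlinarith
    exact_mod_cast this
  have h1τ : 1 ≤ τ := by omega
  obtain ⟨-, -, hu7, -⟩ := h2 n τ hn h1τ h4τ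
  obtain ⟨κ, hκ0, hκ1, hκ7, ⟨E, hE⟩⟩ := h1 (125 * n) (uz n τ) (by omega) hu7
  have hE' : uz n τ * κ ^ 2 + 2 * κ + uz n τ = dz n * E := hE
  have hest := h3 n τ κ E hn h1τ h4τ hκ0 hκ1 hE'
  have hW := h4 n τ κ E hn h1τ h4τ hκ0 hκ1 hκ7 hE'
  have hprP := prP n κ (by omega) hκ7
  obtain ⟨ho, hcr, -, -⟩ := t_ALG (dz n) (sz n) (mz n) (uz n τ) κ E (mz_eq n) hE'
  set y := yv (dz n) (sz n) (mz n) (uz n τ) κ E with hy
  set P := Pv (dz n) (mz n) κ with hP
  have hprY := prY hcr hprP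
  have seven : (1 : ℝ) < 7 := by norm_num
  have hp7 : ∀ k : ℕ, (0 : ℝ) < 7 ^ k := fun k => by positivity
  have hG1 := hest.G1
  have hG2 := hest.G2
  have hdl1 := hest.dl1
  have hdlp : 0 < dl y := lt_of_lt_of_le (by positivity) hdl1
  have hGn : (7 : ℝ) ^ (9 * n) ≤ GG y P := by
    refine le_trans ?_ hG1
    rw [pow_add]
    have h5 : (7 : ℝ) ^ 3 ≤ 7 ^ τ := pow_le_pow_right₀ (by norm_num) hτ3'
    nlinarith [hp7 (9 * n)]
  have hGpos : 0 < GG y P := lt_of_lt_of_le (hp7 _) hGn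
  have hGone : 1 ≤ GG y P := by
    refine le_trans ?_ hGn
    exact one_le_pow₀ (by norm_num)
  have hcap : (y.a : ℝ) ≤ GG y P ^ (500 / β) := by
    calc (y.a : ℝ) ≤ 7 ^ (528 * n) := hest.ya2
      _ = (7 : ℝ) ^ ((528 * n : ℕ) : ℝ) := by rw [Real.rpow_natCast]
      _ ≤ (7 : ℝ) ^ (((9 * n : ℕ) : ℝ) * (500 / β)) := by
          refine Real.rpow_le_rpow_of_exponent_le (by norm_num) ?_
          push_cast
          have h5 : (5000000 : ℝ) ≤ 500 / β := by
            rw [le_div_iff₀ hβ]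
            linarith
          nlinarith
      _ = ((7 : ℝ) ^ (9 * n)) ^ (500 / β) := by
          rw [Real.rpow_mul (by norm_num), Real.rpow_natCast]
      _ ≤ GG y P ^ (500 / β) := Real.rpow_le_rpow (hp7 _).le hGn (by positivity)
  have hdd : dd y P ≤ |dd y P| := le_abs_self _
  have hcap2 : (y.a : ℝ) ≤ GG y P ^ (1000 / β) := by
    refine hcap.trans (Real.rpow_le_rpow_of_exponent_le hGone ?_)
    exact div_le_div_of_nonneg_right (by norm_num) hβ.le
  have hb1 : GG y P ^ (β / 4) ≤ bb y P := by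
    refine le_trans ?_ hest.b1
    have e1 : (11 / 10 * (7 : ℝ) ^ (9 * n + τ)) ≤ 7 ^ (9 * n + τ + 1) := by
      rw [pow_succ _ (9 * n + τ)]
      nlinarith [hp7 (9 * n + τ)]
    calc GG y P ^ (β / 4) ≤ ((7 : ℝ) ^ (9 * n + τ + 1)) ^ (β / 4) :=
          Real.rpow_le_rpow hGpos.le (hG2.trans e1) (by positivity)
      _ = (7 : ℝ) ^ (((9 * n + τ + 1 : ℕ) : ℝ) * (β / 4)) := by
          rw [← Real.rpow_natCast 7 (9 * n + τ + 1), ← Real.rpow_mul (by norm_num)]
      _ ≤ (7 : ℝ) ^ ((τ : ℝ) - 1) := by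
          refine Real.rpow_le_rpow_of_exponent_le (by norm_num) ?_
          push_cast
          have h5 : β * τ ≤ τ / 10000 := by
            have := mul_le_mul_of_nonneg_right hβ1 (by positivity : (0 : ℝ) ≤ τ)
            linarith
          have h6 : (9 * (n : ℝ) + τ + 1) * (β / 4) = (9 * β * n) / 4 + β * τ / 4 + β / 4 := by
            ring
          rw [h6]
          linarith
      _ = 7 ^ τ / 7 := by
          rw [Real.rpow_sub (by norm_num), Real.rpow_natCast, Real.rpow_one]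
      _ ≤ 9 / 10 * 7 ^ τ := by linarith [hp7 τ]
  have hb2 : bb y P ≤ GG y P ^ (2 * β) := by
    refine hest.b2.trans ?_
    calc 11 / 10 * (7 : ℝ) ^ τ ≤ 7 ^ (τ + 1) := by
          rw [pow_succ]
          nlinarith [hp7 τ]
      _ = (7 : ℝ) ^ ((τ + 1 : ℕ) : ℝ) := by rw [Real.rpow_natCast]
      _ ≤ (7 : ℝ) ^ (((9 * n : ℕ) : ℝ) * (2 * β)) := by
          refine Real.rpow_le_rpow_of_exponent_le (by norm_num) ?_
          push_cast
          linarith
      _ = ((7 : ℝ) ^ (9 * n)) ^ (2 * β) := by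
          rw [Real.rpow_mul (by norm_num), Real.rpow_natCast]
      _ ≤ GG y P ^ (2 * β) := Real.rpow_le_rpow (hp7 _).le hGn (by positivity)
  have hbig : GG y P ^ (20 : ℕ) ≤ dl y := by
    refine le_trans ?_ hdl1
    calc GG y P ^ (20 : ℕ) ≤ (11 / 10 * 7 ^ (9 * n + τ)) ^ (20 : ℕ) :=
          pow_le_pow_left₀ hGpos.le hG2 _
      _ = (11 / 10) ^ 20 * 7 ^ ((9 * n + τ) * 20) := by rw [mul_pow, ← pow_mul]
      _ ≤ 7 * 7 ^ ((9 * n + τ) * 20) := by
          refine mul_le_mul_of_nonneg_right ?_ (hp7 _).le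
          norm_num
      _ = 7 ^ ((9 * n + τ) * 20 + 1) := by rw [pow_succ]; ring
      _ ≤ 7 ^ (259 * n - τ - 1) := pow_le_pow_right₀ (by norm_num) (by omega)
      _ ≤ 9 / 10 * 7 ^ (259 * n - τ) := by
          have e : 259 * n - τ = (259 * n - τ - 1) + 1 := by omega
          rw [e, pow_succ]
          have := hp7 (259 * n - τ - 1)
          simp only [Nat.add_sub_cancel]
          nlinarith
  refine ⟨y, P, ⟨hest.ya, ?_, hprY, hprP, ho, ?_, ?_, hb1, hb2, hbig, hcap2, hW⟩, hest.tb, ?_,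
    hcap, ?_⟩
  · intro h
    have : dl y = 0 := by
      unfold dl
      rw [h]
      simp
    linarith
  · linarith [hest.tb]
  · have := hest.pc
    have h6 := abs_nonneg (dd y P)
    linarith
  · have := hest.pc
    have h6 := abs_nonneg (dd y P)
    linarith
  · refine le_trans hnM (le_trans ?_ hGn)
    have h5 : n < 7 ^ n := Nat.lt_pow_self (by norm_num)
    have h6 : (n : ℝ) ≤ 7 ^ n := by exact_mod_cast h5.le
    refine h6.trans (pow_le_pow_right₀ (by norm_num) (by omega))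

end URT

end ULB
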