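import Pool.Agent.ULB.StmtsURT

/-!
# URT_UNIT: elementary descent on the form `p² + m p k - k²`
-/

set_option autoImplicit false

namespace ULB

namespace URT

namespace UNITaux

/-- the relation kept by the descent -/
def Rel (d p k : ℤ) : Prop := ∃ v : ℤ, IsCoprime v d ∧ d ∣ k - v * p

theorem Rel.symm {d p k : ℤ} (h : Rel d p k) : Rel d k p := by
  obtain ⟨v, ⟨a, b, hab⟩, hd⟩ := h
  refine ⟨a, ⟨v, b, ?_⟩, ?_⟩
  · linarith
  · have e : p - a * k = (b * p) * d + (-a) * (k - v * p) := by
      linear_combination (-p) * hab
    rw [e]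
    exact dvd_add (Dvd.intro_left _ rfl) (Dvd.dvd.mul_left hd _)

theorem Rel.shift {d m p k : ℤ} (hm : d ∣ m) (h : Rel d p k) : Rel d p (k - m * p) := by
  obtain ⟨v, hv, hd⟩ := h
  refine ⟨v, hv, ?_⟩
  have e : k - m * p - v * p = (k - v * p) - m * p := by ring
  rw [e]
  exact dvd_sub hd (Dvd.dvd.mul_right hm _)

theorem Rel.negk {d p k : ℤ} (h : Rel d p k) : Rel d p (-k) := by
  obtain ⟨v, hv, hd⟩ := h
  refine ⟨-v, hv.neg_left, ?_⟩
  have e : -k - -v * p = -(k - v * p) := by ring
  rw [e]
  exact hd.neg_right

theorem Rel.negp {d p k : ℤ} (h : Rel d p k) : Rel d (-p) k := h.symm.negk.symm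

theorem sq_of_dvd {d k : ℤ} (hd : 1 ≤ d) (h : d ∣ k) (hk : k ≠ 0) : d ^ 2 ≤ k ^ 2 := by
  have h1 : |d| ≤ |k| := by
    have h2 : |d| ∣ |k| := (abs_dvd_abs d k).mpr h
    exact Int.le_of_dvd (abs_pos.mpr hk) h2
  exact sq_le_sq.mpr h1

theorem case1 {m p k : ℤ} (hm : 1 ≤ m) (hp : 1 ≤ p) (hk : 1 ≤ k) (hk2 : k < m * p) :
    m ≤ ff m p k := by
  unfold ff
  have h1 : 0 ≤ (k - 1) * (m * p - k - 1) := mul_nonneg (by linarith) (by linarith)
  have h2 : m * 1 ≤ m * p := mul_le_mul_of_nonneg_left hp (by linarith)
  have h3 : 1 ≤ p ^ 2 := by nlinarith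
  nlinarith

theorem main (m d : ℤ) (hm : 1 ≤ m) (hd : 1 ≤ d) (hdm : d ∣ m) : ∀ N : ℕ, ∀ p k : ℤ,
    p.natAbs + k.natAbs ≤ N → (p ≠ 0 ∨ k ≠ 0) → Rel d p k →
    m ≤ |ff m p k| ∨ d ^ 2 ≤ |ff m p k| := by
  intro N
  induction N with
  | zero =>
    intro p k h1 h2
    exfalso
    rcases h2 with h2 | h2 <;> omega
  | succ N ih =>
    -- positive `p`
    have key : ∀ p k : ℤ, p.natAbs + k.natAbs ≤ N + 1 → 1 ≤ p → k ≠ 0 → Rel d p k →
        m ≤ |ff m p k| ∨ d ^ 2 ≤ |ff m p k| := by
      intro p k h1 hp hk hR
      have hmp : m * 1 ≤ m * p := mul_le_mul_of_nonneg_left hp (by linarith)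
      rcases lt_or_gt_of_ne hk with hk | hk
      · -- `k = - l`
        obtain ⟨l, rfl⟩ : ∃ l : ℤ, k = -l := ⟨-k, by ring⟩
        have hl : 1 ≤ l := by omega
        have hml : m * 1 ≤ m * l := mul_le_mul_of_nonneg_left hl (by linarith)
        by_cases hq : 0 ≤ p - m * l
        · have e : ff m p (-l) = ff m (p - m * l) l := by
            unfold ff
            ring
          rw [e]
          apply ih
          · omega
          · right
            omega
          · have h2 : Rel d p l := by
              have := hR.negk
              rwa [neg_neg] at this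
            exact (h2.symm.shift hdm).symm
        · left
          have e : ff m p (-l) = -ff m l (m * l - p) := by
            unfold ff
            ring
          rw [e, abs_neg]
          refine le_trans ?_ (le_abs_self _)
          exact case1 hm hl (by omega) (by omega)
      · have hk1 : 1 ≤ k := by omega
        by_cases hq : k < m * p
        · left
          exact le_trans (case1 hm hp hk1 hq) (le_abs_self _)
        · have e : ff m p k = -ff m (k - m * p) p := by
            unfold ff
            ring
          rw [e, abs_neg]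
          apply ih
          · omega
          · right
            omega
          · exact (hR.shift hdm).symm
    intro p k h1 h2 hR
    by_cases hk : k = 0
    · right
      subst hk
      have hp : p ≠ 0 := by
        rcases h2 with h | h
        · exact h
        · exact absurd rfl h
      obtain ⟨v, hv, hdv⟩ := hR.symm
      have h3 : d ∣ p := by
        have e : p - v * 0 = p := by ring
        rwa [e] at hdv
      have e : ff m p 0 = p ^ 2 := by
        unfold ff
        ring
      rw [e, abs_of_nonneg (sq_nonneg p)]
      exact sq_of_dvd hd h3 hp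
    · by_cases hp : p = 0
      · right
        subst hp
        obtain ⟨v, hv, hdv⟩ := hR
        have h3 : d ∣ k := by
          have e : k - v * 0 = k := by ring
          rwa [e] at hdv
        have e : ff m 0 k = -k ^ 2 := by
          unfold ff
          ring
        rw [e, abs_neg, abs_of_nonneg (sq_nonneg k)]
        exact sq_of_dvd hd h3 hk
      · rcases lt_or_gt_of_ne hp with hp | hp
        · have e : ff m p k = ff m (-p) (-k) := by
            unfold ff
            ring
          rw [e]
          apply key
          · omega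
          · omega
          · omega
          · exact hR.negk.negp
        · exact key p k h1 (by omega) hk hR

end UNITaux

open UNITaux

theorem t_UNIT : Stmt_UNIT := by
  intro m d u p k hm hd hdm hu hpk hdk
  exact main m d hm hd hdm _ p k le_rfl hpk ⟨u, hu, hdk⟩

end URT

end ULB
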