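import Pool.Agent.ULB.StmtsURT

/-!
# Modules UZ and XP of the root (MP_c538e3_nt, lower bound 1/3)
-/

set_option autoImplicit false

namespace ULB

namespace URT

open WHP (V3 det be ga dot cross lin tt)
open WHS (hh ev der)

namespace UZaux

theorem pow_le {a b : ℕ} (h : a ≤ b) : (7 : ℤ) ^ a ≤ 7 ^ b :=
  pow_le_pow_right₀ (by norm_num) h

theorem dvd_pow {a : ℕ} (h : 1 ≤ a) : (7 : ℤ) ∣ 7 ^ a :=
  dvd_pow_self 7 (by omega)

theorem coprime {u : ℤ} (h : (7 : ℤ) ∣ u - 2) (k : ℕ) : IsCoprime u (7 ^ k) := by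
  obtain ⟨c, hc⟩ := h
  apply IsCoprime.pow_right
  refine ⟨4, -(4 * c + 1), ?_⟩
  have hu : u = 7 * c + 2 := by linarith
  rw [hu]
  ring

end UZaux

open UZaux in
/-- **UZ.** -/
theorem t_UZ : Stmt_UZ := by
  intro n τ hn hτ hτn
  have hx0 : (1 : ℤ) ≤ 7 ^ (75 * n) := one_le_pow₀ (by norm_num)
  have h1 : (7 : ℤ) ^ (105 * n) ≤ 7 ^ (117 * n) := pow_le (by omega)
  have h2 : (7 : ℤ) ^ (75 * n) ≤ 7 ^ (117 * n) := pow_le (by omega)
  have h3 : (7 : ℤ) ^ (117 * n + 5) ≤ 7 ^ (125 * n - τ) := pow_le (by omega)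
  have h4 : (7 : ℤ) ^ (117 * n + 5) = 16807 * 7 ^ (117 * n) := by
    rw [pow_add]
    norm_num
    ring
  have h5 : (7 : ℤ) ^ 1 ≤ 7 ^ (117 * n) := pow_le (by omega)
  have hres : (7 : ℤ) ∣ uz n τ - 2 := by
    unfold uz
    have e : (7 : ℤ) ^ (125 * n - τ) + 7 ^ (117 * n) + 7 ^ (105 * n) + 7 ^ (75 * n) + 2 - 2 =
        7 ^ (125 * n - τ) + 7 ^ (117 * n) + 7 ^ (105 * n) + 7 ^ (75 * n) := by ring
    rw [e]
    exact dvd_add (dvd_add (dvd_add (dvd_pow (by omega)) (dvd_pow (by omega)))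
      (dvd_pow (by omega))) (dvd_pow (by omega))
  refine ⟨?_, ?_, hres, ?_⟩
  · unfold uz
    have h6 : (0 : ℤ) < 7 ^ (117 * n) := by positivity
    have h7 : (0 : ℤ) < 7 ^ (105 * n) := by positivity
    linarith
  · unfold uz
    rw [h4] at h3
    linarith
  · unfold dz
    exact coprime hres _

/-- **XP.** -/
theorem t_XP : Stmt_XP := by
  intro n τ e p J hn hτn he h8 hpJ
  have he75 : e ≤ 75 := by omega
  have he12 : 12 ≤ e := by omega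
  obtain ⟨k, hk⟩ : ∃ k : ℕ, e * n = k + τ + 2 := by
    refine ⟨e * n - τ - 2, ?_⟩
    have h1 : 12 * n ≤ e * n := Nat.mul_le_mul_right n he12
    omega
  have hJ : (7 : ℝ) ^ k ≤ J := by
    have h1 : (7 : ℝ) ^ (e * n) ≤ 16 * 7 ^ τ * J := by linarith
    rw [hk, pow_add, pow_add] at h1
    have h7 : (0 : ℝ) < 7 ^ τ := by positivity
    have h2 : (7 : ℝ) ^ τ * (49 * 7 ^ k) ≤ 7 ^ τ * (16 * J) := by
      have e1 : (7 : ℝ) ^ k * 7 ^ τ * 7 ^ 2 = 7 ^ τ * (49 * 7 ^ k) := by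
        norm_num
        ring
      have e2 : (16 : ℝ) * 7 ^ τ * J = 7 ^ τ * (16 * J) := by ring
      rw [e1, e2] at h1
      exact h1
    have h3 : 49 * (7 : ℝ) ^ k ≤ 16 * J := le_of_mul_le_mul_left h2 h7
    have h4 : (0 : ℝ) < 7 ^ k := by positivity
    linarith
  have h7k : (0 : ℝ) < (7 : ℝ) ^ k := by positivity
  have hexp : ((e - 2) * n) * 50 ≤ k * 49 := by
    have h0 : (e - 2) * n + 2 * n = e * n := by
      rw [← Nat.add_mul]
      congr 1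
      omega
    have h1 : e * n ≤ 75 * n := Nat.mul_le_mul_right n he75
    omega
  have hexpR : (((e - 2) * n : ℕ) : ℝ) ≤ (k : ℝ) * (49 / 50) := by
    have h1 : ((((e - 2) * n) * 50 : ℕ) : ℝ) ≤ ((k * 49 : ℕ) : ℝ) := Nat.cast_le.mpr hexp
    rw [Nat.cast_mul, Nat.cast_mul k] at h1
    norm_num at h1 ⊢
    linarith
  calc (7 : ℝ) ^ ((e - 2) * n) = (7 : ℝ) ^ (((e - 2) * n : ℕ) : ℝ) := (Real.rpow_natCast 7 _).symm
    _ ≤ (7 : ℝ) ^ ((k : ℝ) * (49 / 50)) :=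
        Real.rpow_le_rpow_of_exponent_le (by norm_num) hexpR
    _ = ((7 : ℝ) ^ k) ^ (49 / 50 : ℝ) := by
        rw [Real.rpow_mul (by norm_num), Real.rpow_natCast]
    _ ≤ J ^ (49 / 50 : ℝ) := Real.rpow_le_rpow h7k.le hJ (by norm_num)

end URT

end ULB
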