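import Pool.Agent.ULB.URTAlg

/-!
# Block URT: the property `WW` of the root
-/

namespace ULB

namespace URT

open WHP (V3 det be ga dot cross lin tt)
open WHS (hh ev der)

namespace Wwr

/-- coordinates of a vector of the plane -/
theorem rep {y v P w : V3} {j : ℤ} (hy : Pr y) (h1 : cross y v = sm (-1) P)
    (h2 : cross y w = sm j P) : ∃ p : ℤ, w = lin p y (-j) v := by
  obtain ⟨Q, hQ⟩ := hy
  refine ⟨dot Q w + j * dot Q v, ?_⟩
  have a1 := congrArg V3.a h1
  have a2 := congrArg V3.b h1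
  have a3 := congrArg V3.c h1
  have b1 := congrArg V3.a h2
  have b2 := congrArg V3.b h2
  have b3 := congrArg V3.c h2
  simp only [cross, sm, lin] at a1 a2 a3 b1 b2 b3
  have r1 : y.b * (w.c + j * v.c) - y.c * (w.b + j * v.b) = 0 := by
    linear_combination b1 + j * a1
  have r2 : y.c * (w.a + j * v.a) - y.a * (w.c + j * v.c) = 0 := by
    linear_combination b2 + j * a2
  have r3 : y.a * (w.b + j * v.b) - y.b * (w.a + j * v.a) = 0 := by
    linear_combination b3 + j * a3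
  simp only [dot] at hQ
  apply V3.ext
  · simp only [lin, dot]
    linear_combination (-(w.a + j * v.a)) * hQ + Q.b * (-r3) + Q.c * r2
  · simp only [lin, dot]
    linear_combination (-(w.b + j * v.b)) * hQ + Q.a * r3 + Q.c * (-r1)
  · simp only [lin, dot]
    linear_combination (-(w.c + j * v.c)) * hQ + Q.a * (-r2) + Q.b * r1

/-- powers of `7` -/
theorem pw (a b : ℕ) (h : 50 * b ≤ 49 * a) : (7 : ℝ) ^ b ≤ ((7 : ℝ) ^ a) ^ (49 / 50 : ℝ) := by
  rw [← Real.rpow_natCast, ← Real.rpow_natCast, ← Real.rpow_mul (by norm_num)]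
  refine Real.rpow_le_rpow_of_exponent_le (by norm_num) ?_
  have : (50 : ℝ) * b ≤ 49 * a := by exact_mod_cast h
  linarith

theorem pwG (a b : ℕ) (h : 100 * b ≤ 99 * a) : (7 : ℝ) ^ b ≤ ((7 : ℝ) ^ a) ^ (99 / 100 : ℝ) := by
  rw [← Real.rpow_natCast, ← Real.rpow_natCast, ← Real.rpow_mul (by norm_num)]
  refine Real.rpow_le_rpow_of_exponent_le (by norm_num) ?_
  have : (100 : ℝ) * b ≤ 99 * a := by exact_mod_cast h
  linarith

/-- lower bound for the form -/
theorem ffl {m p k : ℝ} (hp : 1 ≤ |p|) (hk : 1 ≤ |k|) (hp' : |p| ≤ m / 100)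
    (hk' : |k| ≤ m / 100) : 9 / 10 * m * (|p| * |k|) ≤ |p ^ 2 + m * p * k - k ^ 2| := by
  have hm : 0 < m := by linarith
  have h1 : |m * p * k| = m * (|p| * |k|) := by
    rw [abs_mul, abs_mul, abs_of_pos hm]
    ring
  have h2 : |m * p * k| ≤ |p ^ 2 + m * p * k - k ^ 2| + |p ^ 2| + |k ^ 2| := by
    have h3 : m * p * k = (p ^ 2 + m * p * k - k ^ 2) + (-(p ^ 2) + k ^ 2) := by ring
    have h4 : |m * p * k| ≤ |p ^ 2 + m * p * k - k ^ 2| + |-(p ^ 2) + k ^ 2| := by
      conv_lhs => rw [h3]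
      exact abs_add_le _ _
    have h5 : |-(p ^ 2) + k ^ 2| ≤ |-(p ^ 2)| + |k ^ 2| := abs_add_le _ _
    rw [abs_neg] at h5
    linarith
  rw [abs_pow, abs_pow] at h2
  have h3 : |p| ^ 2 ≤ m / 100 * (|p| * |k|) := by
    have : |p| ^ 2 = |p| * |p| := by ring
    rw [this]
    have h31 : |p| * |p| ≤ |p| * (m / 100) := mul_le_mul_of_nonneg_left hp' (by linarith)
    have h32 : |p| * (m / 100) * 1 ≤ |p| * (m / 100) * |k| :=
      mul_le_mul_of_nonneg_left hk (by positivity)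
    nlinarith
  have h4 : |k| ^ 2 ≤ m / 100 * (|p| * |k|) := by
    have : |k| ^ 2 = |k| * |k| := by ring
    rw [this]
    have h31 : |k| * |k| ≤ |k| * (m / 100) := mul_le_mul_of_nonneg_left hk' (by linarith)
    have h32 : |k| * (m / 100) * 1 ≤ |k| * (m / 100) * |p| :=
      mul_le_mul_of_nonneg_left hp (by positivity)
    nlinarith
  rw [h1] at h2
  have h5 : 0 < m * (|p| * |k|) := by positivity
  nlinarith

end Wwr

open Wwr in
theorem t_WWR (hU : Stmt_UNIT) (hZ : Stmt_UZ) (hX : Stmt_XP) (hL : Stmt_LAC) (hE : Stmt_EST)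
    (hC : Stmt_CC) : Stmt_WWR := by
  intro n τ κ E hn hτ h4 hκ0 hκ1 hκ7 hEq
  obtain ⟨a1, a2, a3, a4⟩ := t_ALG (dz n) (sz n) (mz n) (uz n τ) κ E (mz_eq n) hEq
  obtain ⟨η, e1, e2, e3, e4⟩ := hC n τ κ E hn hτ h4 hκ0 hκ1 hEq
  have est := hE n τ κ E hn hτ h4 hκ0 hκ1 hEq
  obtain ⟨u1, u2, u3, u4⟩ := hZ n τ hn hτ h4
  have hPP := prP n κ (by omega) hκ7
  generalize yv (dz n) (sz n) (mz n) (uz n τ) κ E = y at *
  generalize ys (dz n) (sz n) (mz n) (uz n τ) κ E = v at *
  generalize Pv (dz n) (mz n) κ = P at *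
  intro w j hj hcr hcc
  obtain ⟨p, hw⟩ := rep (prY a2 hPP) a2 hcr
  obtain ⟨J, hJ⟩ : ∃ J : ℤ, J = -j := ⟨-j, rfl⟩
  rw [← hJ] at hw
  have hJ0 : J ≠ 0 := by omega
  have hJj : |(j : ℝ)| = |(J : ℝ)| := by
    rw [hJ]
    push_cast
    rw [abs_neg]
  rw [hJj]
  subst hw
  rw [e4 p J] at hcc
  rw [a4 p J]
  have hdz : (dz n : ℝ) = 7 ^ (125 * n) := by
    unfold dz
    push_cast
    rfl
  have hmz : (mz n : ℝ) = 7 ^ (134 * n) := by
    unfold mz
    push_cast
    rfl
  have hd1 : 1 ≤ dz n := by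
    unfold dz
    exact one_le_pow₀ (by norm_num)
  have hm1 : 1 ≤ mz n := by
    unfold mz
    exact one_le_pow₀ (by norm_num)
  have hdm : dz n ∣ mz n := by
    rw [mz_eq]
    exact Dvd.intro_left _ rfl
  generalize hk : uz n τ * p - J * dz n = k at *
  have hpk : p ≠ 0 ∨ k ≠ 0 := by
    by_contra hcon
    push Not at hcon
    obtain ⟨h1, h2⟩ := hcon
    rw [h1, h2] at hk
    have : J * dz n = 0 := by linarith
    rcases mul_eq_zero.1 this with h | h
    · exact hJ0 h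
    · omega
  have hdv : dz n ∣ k - uz n τ * p := ⟨-J, by rw [← hk]; ring⟩
  have hun := hU (mz n) (dz n) (uz n τ) p k hm1 hd1 hdm u4 hpk hdv
  have hdm2 : mz n ≤ dz n ^ 2 := by
    unfold mz dz
    rw [← pow_mul]
    exact pow_le_pow_right₀ (by norm_num) (by omega)
  have hun' : mz n ≤ |ff (mz n) p k| := by
    rcases hun with h | h
    · exact h
    · exact hdm2.trans h
  have hunR : (7 : ℝ) ^ (134 * n) ≤ |(ff (mz n) p k : ℝ)| := by
    rw [← hmz]
    exact_mod_cast hun'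
  have hJ1 : (1 : ℝ) ≤ |(J : ℝ)| := by
    have : (1 : ℤ) ≤ |J| := Int.one_le_abs hJ0
    exact_mod_cast this
  have hdd0 : (0 : ℝ) < dd y P := lt_of_lt_of_le (by positivity) est.dd1
  rw [abs_of_pos hdd0]
  have hdet : |((-ff (mz n) p k : ℤ) : ℝ)| = |(ff (mz n) p k : ℝ)| := by
    push_cast
    rw [abs_neg]
  rw [hdet]
  have hPhi1 : |(J : ℝ)| ^ (49 / 50 : ℝ) ≤ Phi (GG y P) |(J : ℝ)| := le_max_right _ _
  have hPhi2 : (GG y P) ^ (99 / 100 : ℝ) ≤ Phi (GG y P) |(J : ℝ)| := le_max_left _ _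
  have hPhi0 : 0 ≤ Phi (GG y P) |(J : ℝ)| := le_trans (by positivity) hPhi1
  refine est.dd2.trans ?_
  have hfin : ∀ a b : ℕ, 260 * n ≤ a + b → (7 : ℝ) ^ a ≤ |(ff (mz n) p k : ℝ)| →
      (7 : ℝ) ^ b ≤ Phi (GG y P) |(J : ℝ)| →
      101 / 100 * (7 : ℝ) ^ (259 * n) ≤ |(ff (mz n) p k : ℝ)| * Phi (GG y P) |(J : ℝ)| := by
    intro a b hab ha hb
    have h1 : (7 : ℝ) ^ (260 * n) ≤ 7 ^ a * 7 ^ b := by
      rw [← pow_add]
      exact pow_le_pow_right₀ (by norm_num) hab
    have h2 : (7 : ℝ) ^ a * 7 ^ b ≤ |(ff (mz n) p k : ℝ)| * Phi (GG y P) |(J : ℝ)| :=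
      mul_le_mul ha hb (by positivity) (by positivity)
    have h3 : (7 : ℝ) ^ (259 * n) * 7 ≤ 7 ^ (260 * n) := by
      rw [← pow_succ]
      exact pow_le_pow_right₀ (by norm_num) (by omega)
    have h4 : (0 : ℝ) < 7 ^ (259 * n) := by positivity
    linarith
  by_cases hA : (7 : ℝ) ^ (129 * n) ≤ |(J : ℝ)|
  · refine hfin (134 * n) (126 * n) (by omega) hunR ?_
    refine le_trans (pw (129 * n) (126 * n) (by omega)) (le_trans ?_ hPhi1)
    exact Real.rpow_le_rpow (by positivity) hA (by norm_num)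
  · push Not at hA
    have h7 : (7 : ℝ) ≤ 7 ^ τ := le_self_pow₀ (by norm_num) (by omega)
    have hη0 : 0 < η := by linarith
    have hu0 : (0 : ℝ) < uz n τ := by
      have : (0 : ℤ) < uz n τ := lt_of_lt_of_le (by positivity) u1
      exact_mod_cast this
    have hcc' := abs_le.1 hcc
    -- bounds for p
    have hpJ : |(p : ℝ) - J * η| ≤ 1 / 2 := by
      rw [abs_le]
      constructor <;> linarith [hcc'.1, hcc'.2]
    have hJη : |(J : ℝ) * η| = |(J : ℝ)| * η := by rw [abs_mul, abs_of_pos hη0]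
    have hp1 : |(p : ℝ)| ≤ |(J : ℝ)| * η + 1 / 2 := by
      have := abs_add_le ((p : ℝ) - J * η) (J * η)
      rw [sub_add_cancel, hJη] at this
      linarith
    have hp2 : |(J : ℝ)| * η - 1 / 2 ≤ |(p : ℝ)| := by
      have := abs_add_le ((J : ℝ) * η - p) p
      rw [sub_add_cancel, hJη, abs_sub_comm] at this
      linarith
    have hp3 : |(p : ℝ)| ≤ 2 * 7 ^ τ * |(J : ℝ)| := by
      have h1 : |(J : ℝ)| * η ≤ |(J : ℝ)| * (11 / 10 * 7 ^ τ) :=
        mul_le_mul_of_nonneg_left e2 (abs_nonneg _)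
      have h2 : 1 * (7 : ℝ) ≤ |(J : ℝ)| * 7 ^ τ := mul_le_mul hJ1 h7 (by norm_num) (by linarith)
      linarith
    have hp4 : 1 ≤ |(p : ℝ)| := by
      have h1 : 1 * (8 / 10 * 7) ≤ |(J : ℝ)| * η :=
        mul_le_mul hJ1 (by linarith) (by norm_num) (by linarith)
      linarith
    -- bound for k
    have hkR : (k : ℝ) = uz n τ * (p - J * η) + J * (uz n τ * η - dz n) := by
      rw [← hk]
      push_cast
      ring
    have hu1 : (7 : ℝ) ^ (125 * n - τ) ≤ uz n τ := by exact_mod_cast u1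
    have hu2 : 1000 * (uz n τ : ℝ) ≤ 1001 * 7 ^ (125 * n - τ) := by exact_mod_cast u2
    have hk1 : |(k : ℝ)| ≤ uz n τ := by
      rw [hkR]
      refine (abs_add_le _ _).trans ?_
      rw [abs_mul, abs_mul, abs_of_pos hu0]
      have h1 : (uz n τ : ℝ) * |(p : ℝ) - J * η| ≤ uz n τ * (1 / 2) :=
        mul_le_mul_of_nonneg_left hpJ hu0.le
      have h2 : |(J : ℝ)| * |(uz n τ : ℝ) * η - dz n| ≤ 7 ^ (129 * n) * (1 / 7 ^ (130 * n)) :=
        mul_le_mul hA.le e3 (abs_nonneg _) (by positivity)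
      have h3 : (7 : ℝ) ^ (129 * n) * (1 / 7 ^ (130 * n)) ≤ 1 := by
        rw [mul_one_div, div_le_one (by positivity)]
        exact pow_le_pow_right₀ (by norm_num) (by omega)
      have h4 : (7 : ℝ) ≤ 7 ^ (125 * n - τ) := le_self_pow₀ (by norm_num) (by omega)
      linarith
    have hm100 : ∀ a : ℕ, a + 3 ≤ 134 * n → (7 : ℝ) ^ a * 3 ≤ mz n / 100 := by
      intro a ha
      rw [hmz]
      have h1 : (7 : ℝ) ^ a * 7 ^ 3 ≤ 7 ^ (134 * n) := by
        rw [← pow_add]
        exact pow_le_pow_right₀ (by norm_num) ha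
      have h2 : (0 : ℝ) < 7 ^ a := by positivity
      nlinarith
    have hp5 : |(p : ℝ)| ≤ mz n / 100 := by
      refine hp3.trans (le_trans ?_ (hm100 (129 * n + τ) (by omega)))
      rw [pow_add]
      have h1 : 2 * (7 : ℝ) ^ τ * |(J : ℝ)| ≤ 2 * 7 ^ τ * 7 ^ (129 * n) :=
        mul_le_mul_of_nonneg_left hA.le (by positivity)
      have h2 : (0 : ℝ) < 7 ^ (129 * n) * 7 ^ τ := by positivity
      linarith
    have hk5 : |(k : ℝ)| ≤ mz n / 100 := by
      refine hk1.trans (le_trans ?_ (hm100 (125 * n - τ) (by omega)))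
      have h2 : (0 : ℝ) < 7 ^ (125 * n - τ) := by positivity
      linarith
    by_cases hk0 : k = 0
    · -- `k = 0`
      have hdp : dz n ∣ p := by
        have h1 : dz n ∣ uz n τ * p := ⟨J, by rw [hk0] at hk; linarith⟩
        exact u4.symm.dvd_of_dvd_mul_left h1
      have hp0 : p ≠ 0 := by
        rcases hpk with h | h
        · exact h
        · exact absurd hk0 h
      have hdp' : dz n ≤ |p| := by
        have := Int.le_of_dvd (abs_pos.2 hp0) ((dvd_abs _ _).2 hdp)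
        exact this
      have hdpR : (7 : ℝ) ^ (125 * n) ≤ |(p : ℝ)| := by
        rw [← hdz]
        exact_mod_cast hdp'
      have hff : |(ff (mz n) p k : ℝ)| = |(p : ℝ)| ^ 2 := by
        rw [hk0]
        unfold ff
        push_cast
        rw [← abs_pow]
        congr 1
        ring
      refine hfin (250 * n) (121 * n) (by omega) ?_ ?_
      · rw [hff]
        have h1 : (7 : ℝ) ^ (250 * n) = (7 ^ (125 * n)) ^ 2 := by
          rw [← pow_mul]
          congr 1
          ring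
        rw [h1]
        exact pow_le_pow_left₀ (by positivity) hdpR 2
      · refine le_trans (pw (124 * n) (121 * n) (by omega)) (le_trans ?_ hPhi1)
        refine Real.rpow_le_rpow (by positivity) ?_ (by norm_num)
        have h1 : (7 : ℝ) ^ (125 * n) ≤ 2 * 7 ^ τ * |(J : ℝ)| := hdpR.trans hp3
        have h2 : (7 : ℝ) ^ (124 * n) * (2 * 7 ^ τ) ≤ 7 ^ (125 * n) := by
          have h3 : (7 : ℝ) ^ (124 * n) * 7 ^ τ * 7 ≤ 7 ^ (125 * n) := by
            rw [← pow_add, ← pow_succ]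
            exact pow_le_pow_right₀ (by norm_num) (by omega)
          have h4 : (0 : ℝ) < 7 ^ (124 * n) * 7 ^ τ := by positivity
          linarith
        have h3 : (0 : ℝ) < 2 * 7 ^ τ := by positivity
        have h4 : (7 : ℝ) ^ (124 * n) * (2 * 7 ^ τ) ≤ |(J : ℝ)| * (2 * 7 ^ τ) := by linarith
        exact le_of_mul_le_mul_right h4 h3
    · -- `k ≠ 0`
      have hk2 : 1 ≤ |(k : ℝ)| := by
        have : (1 : ℤ) ≤ |k| := Int.one_le_abs hk0
        exact_mod_cast this
      have hffl : 9 / 10 * (mz n : ℝ) * (|(p : ℝ)| * |(k : ℝ)|) ≤ |(ff (mz n) p k : ℝ)| := by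
        have := ffl hp4 hk2 hp5 hk5
        unfold ff
        push_cast
        exact this
      have hp0 : p ≠ 0 := by
        intro h
        rw [h] at hp4
        norm_num at hp4
      have hXP : ∀ e : ℕ, (e = 12 ∨ e = 20 ∨ e = 30 ∨ e = 50 ∨ e = 75) →
          (7 : ℝ) ^ (e * n) ≤ 8 * |(p : ℝ)| →
          (7 : ℝ) ^ ((e - 2) * n) ≤ |(J : ℝ)| ^ (49 / 50 : ℝ) := fun e he h =>
        hX n τ e _ _ hn h4 he h hp3
      have hLac : 21 * (7 : ℝ) ^ (125 * n) ≤ 10 * (|(p : ℝ)| * |(k : ℝ)|) *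
          max ((7 : ℝ) ^ (8 * n + 1)) (|(J : ℝ)| ^ (49 / 50 : ℝ)) := by
        rcases lt_or_gt_of_ne hp0 with hneg | hpos
        · have h1 := hL n τ (-p) (-J) (|(J : ℝ)| ^ (49 / 50 : ℝ)) hn hτ h4 (by omega)
            (by rw [show uz n τ * -p - -J * dz n = -k by rw [← hk]; ring]; omega)
            (by
              intro e he h
              refine hXP e he ?_
              have hpn : (p : ℝ) < 0 := by exact_mod_cast hneg
              rw [abs_of_neg hpn]
              push_cast at h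
              exact h)
          rw [show uz n τ * -p - -J * dz n = -k by rw [← hk]; ring] at h1
          push_cast at h1
          have hpn : (p : ℝ) < 0 := by exact_mod_cast hneg
          rw [abs_neg] at h1
          rw [abs_of_neg hpn]
          exact h1
        · have h1 := hL n τ p J (|(J : ℝ)| ^ (49 / 50 : ℝ)) hn hτ h4 (by omega)
            (by rw [hk]; exact hk0)
            (by
              intro e he h
              refine hXP e he ?_
              have hpn : (0 : ℝ) < p := by exact_mod_cast hpos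
              rw [abs_of_pos hpn]
              exact h)
          rw [hk] at h1
          have hpn : (0 : ℝ) < p := by exact_mod_cast hpos
          rw [abs_of_pos hpn]
          exact h1
      have hPhi3 : max ((7 : ℝ) ^ (8 * n + 1)) (|(J : ℝ)| ^ (49 / 50 : ℝ)) ≤
          Phi (GG y P) |(J : ℝ)| := by
        refine max_le ?_ hPhi1
        refine le_trans (pwG (9 * n) (8 * n + 1) (by omega)) (le_trans ?_ hPhi2)
        refine Real.rpow_le_rpow (by positivity) ?_ (by norm_num)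
        refine le_trans ?_ est.G1
        have h1 : (7 : ℝ) ^ (9 * n + τ) = 7 ^ (9 * n) * 7 ^ τ := pow_add _ _ _
        rw [h1]
        have h2 : (0 : ℝ) < 7 ^ (9 * n) := by positivity
        nlinarith
      have h1 : 9 / 10 * (mz n : ℝ) * (|(p : ℝ)| * |(k : ℝ)|) * Phi (GG y P) |(J : ℝ)| ≤
          |(ff (mz n) p k : ℝ)| * Phi (GG y P) |(J : ℝ)| :=
        mul_le_mul_of_nonneg_right hffl hPhi0
      refine le_trans ?_ h1
      have h2 : 10 * (|(p : ℝ)| * |(k : ℝ)|) *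
          max ((7 : ℝ) ^ (8 * n + 1)) (|(J : ℝ)| ^ (49 / 50 : ℝ)) ≤
          10 * (|(p : ℝ)| * |(k : ℝ)|) * Phi (GG y P) |(J : ℝ)| :=
        mul_le_mul_of_nonneg_left hPhi3 (by positivity)
      have h3 : 21 * (7 : ℝ) ^ (125 * n) ≤
          10 * (|(p : ℝ)| * |(k : ℝ)|) * Phi (GG y P) |(J : ℝ)| := hLac.trans h2
      have hm0 : (0 : ℝ) < 7 ^ (134 * n) := by positivity
      have h4 : 9 / 10 * (7 : ℝ) ^ (134 * n) * (21 * (7 : ℝ) ^ (125 * n)) ≤
          9 / 10 * (7 : ℝ) ^ (134 * n) *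
            (10 * (|(p : ℝ)| * |(k : ℝ)|) * Phi (GG y P) |(J : ℝ)|) :=
        mul_le_mul_of_nonneg_left h3 (by positivity)
      have h5 : (7 : ℝ) ^ (134 * n) * 7 ^ (125 * n) = 7 ^ (259 * n) := by
        rw [← pow_add]
        congr 1
        ring
      rw [hmz]
      have h6 : (0 : ℝ) < 7 ^ (259 * n) := by positivity
      nlinarith [h4, h5, h6]

end URT

end ULB
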