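import Pool.Agent.ULB.Defs

/-!
# Interface statements of the blocks (lower bound 1/3, MP_c538e3_nt)

`κ = β / 100` everywhere. Every statement has the form: for all small `β` there is `G0` such that
it holds for nodes with `G ≥ G0`.
-/

namespace ULB

open WHP (V3 det be ga dot cross lin tt)
open WHS (hh ev der)

/-! ### Block UCH: geometry -/

/-- BAS: every node has an adapted basis. -/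
def Stmt_BAS : Prop := ∀ (β : ℝ) (y P : V3), 0 < β → β ≤ 1 / 10000 → Nd β y P → 100 ≤ GG y P →
  ∃ wm v R : V3, Bas y P wm v R

/-- the facts on a child (see `Stp`) -/
structure Chd (β B : ℝ) (y P : V3) (q g d : ℤ) (y1 P0 : V3) : Prop where
  dt : det y1 ≠ 0
  o1 : dot P0 y1 = 0
  o0 : dot P0 y = 0
  /-- `d ∣ g`, `y × y1 = (q g / d) P0` -/
  dg : d ∣ g
  gB : (g : ℝ) ≤ B
  cr : ∃ q1 : ℤ, q1 * d = q * g ∧ cross y y1 = sm q1 P0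
  tt1 : |(tt y1 - tt y - rr y * si y * (P0.c / dd y P0))| ≤ rr y * GG y P ^ (-2 : ℝ)
  tt2 : |tt y1 - tt y| ≤ 3 * rr y
  sb : |(P0.c / dd y1 P0 : ℝ)| ≤ |(P.c / dd y P : ℝ)| + 4 * GG y P ^ (-(β / 100))
  sb0 : |(P0.c : ℝ)| ≤ 5 / 2 * |dd y P0|
  sb1 : |(P0.c : ℝ)| ≤ 5 / 2 * |dd y1 P0|
  G1 : 9 / 10 * B * GG y P ^ (1 - β / 400) ≤ GG y1 P0
  G2 : GG y1 P0 ≤ 5 * B ^ 3 * GG y P ^ (1 - β / 400)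
  b1 : GG y P ^ β ≤ 3 * B * bb y1 P0
  b2 : bb y1 P0 ≤ 3 * B * GG y P ^ β
  dl1 : GG y P ^ (1 / 2 : ℝ) * dl y ≤ dl y1
  ya1 : 0 < y1.a
  ya2 : (y1.a : ℝ) ≤ GG y P ^ (5 / 2 : ℝ) * y.a
  ca1 : |((ca y y1 * |(d : ℝ)|) - (q * g * |dd y P0| / dl y))| ≤ 1
  da1 : |(dl y1 - dl y * ca y y1 * |cc y y1|)| ≤ dl y1 * GG y P ^ (-2 : ℝ)
  rr0 : rr y ≤ GG y P ^ (-50 : ℝ)
  rr1 : rr y1 ≤ rr y * GG y P ^ (-2 : ℝ)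
  rr2 : rr y * GG y P ^ (-3 : ℝ) ≤ rr y1
  dd1 : |dd y P0| ≤ 2 * B * GG y P ^ (1 + β / 100) * dl y
  dd2 : GG y P ^ (1 + β / 100) * dl y ≤ 3 * |dd y P0|
  dd3 : |dd y1 P0 - dd y P0| ≤ |dd y P0| / 100
  cc1 : |cc y y1| * |(d : ℝ)| ≤ cs β B y P
  cc2 : cs β B y P / 2 ≤ |cc y y1| * |(d : ℝ)|

/-- NZ: no vector with zero determinant in a plane, in front of `y`. -/
def Stmt_NZ : Prop := ∀ (y P w : V3) (j : ℤ), 0 < y.a → det y ≠ 0 → |tt y| ≤ 3 → P ≠ 0 →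
  |(P.c : ℝ)| ≤ 5 / 2 * |dd y P| → 2000 * dl y * |dd y P| ≤ y.a → dl y ≤ |dd y P| →
  j ≠ 0 → cross y w = sm j P → |cc y w| ≤ 1 / 2 → det w ≠ 0

/-- CHD: facts on a child. -/
def Stmt_CHD : Prop := ∀ β : ℝ, 0 < β → β ≤ 1 / 10000 → ∃ G0 : ℝ, ∀ (B : ℝ)
  (y P wm v R y1 P0 : V3) (a b q k g d : ℤ), Nd β y P → G0 ≤ GG y P → 1 ≤ B →
  B ≤ GG y P ^ (β / 100) → Bas y P wm v R → Stp β B y P wm v R a b q k g d y1 P0 →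
  Chd β B y P q g d y1 P0

/-- WCH: `WW` for the child from a good plane. -/
def Stmt_WCH : Prop := ∀ β : ℝ, 0 < β → β ≤ 1 / 10000 → ∃ G0 : ℝ, ∀ (B : ℝ)
  (y P wm v R y1 P0 : V3) (a b q k g d : ℤ), Nd β y P → G0 ≤ GG y P → 1 ≤ B →
  B ≤ GG y P ^ (β / 100) → Bas y P wm v R → Stp β B y P wm v R a b q k g d y1 P0 →
  Chd β B y P q g d y1 P0 → Wpl β B y P P0 → WW y1 P0

/-- VCH: `VV` for the child. -/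
def Stmt_VCH : Prop := ∀ β : ℝ, 0 < β → β ≤ 1 / 10000 → ∃ G0 : ℝ, ∀ (B : ℝ)
  (y P wm v R y1 P0 : V3) (a b q k g d : ℤ), Nd β y P → G0 ≤ GG y P → 1 ≤ B →
  B ≤ GG y P ^ (β / 100) → Bas y P wm v R → Stp β B y P wm v R a b q k g d y1 P0 →
  Chd β B y P q g d y1 P0 → WW y1 P0 → Vpl β y P P0 → VV β y1 P0

/-- UNI: a plane serves one prime and one vector. -/
def Stmt_UNI : Prop := ∀ β : ℝ, 0 < β → β ≤ 1 / 10000 → ∃ G0 : ℝ, ∀ (B : ℝ)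
  (y P wm v R y1 y2 P0 : V3) (a b q k g d a' b' q' k' g' d' : ℤ), Nd β y P → G0 ≤ GG y P →
  1 ≤ B → B ≤ GG y P ^ (β / 100) → Bas y P wm v R → Stp β B y P wm v R a b q k g d y1 P0 →
  Stp β B y P wm v R a' b' q' k' g' d' y2 P0 → q = q' ∧ y1 = y2

/-- SEP: different planes give separated children. -/
def Stmt_SEP : Prop := ∀ β : ℝ, 0 < β → β ≤ 1 / 10000 → ∃ G0 : ℝ, ∀ (B : ℝ)
  (y P wm v R y1 y2 P1 P2 : V3) (a b q k g d a' b' q' k' g' d' : ℤ), Nd β y P → G0 ≤ GG y P →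
  1 ≤ B → B ≤ GG y P ^ (β / 100) → Bas y P wm v R → Stp β B y P wm v R a b q k g d y1 P1 →
  Stp β B y P wm v R a' b' q' k' g' d' y2 P2 → P1 ≠ P2 →
  rr y * GG y P ^ (-1 : ℝ) ≤ |tt y1 - tt y2| - 4 * rr y1 - 4 * rr y2

/-- CHN: the plane of a node is good for the heights between it and the next plane. -/
def Stmt_CHN : Prop := ∀ β : ℝ, 0 < β → β ≤ 1 / 10000 → ∃ G0 : ℝ, ∀ (y P P0 : V3) (ξ : ℝ),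
  St β y P → G0 ≤ GG y P → |(P0.c : ℝ)| ≤ 5 / 2 * |dd y P0| → dot P0 y = 0 →
  |dd y P0| ≤ 2 * GG y P ^ (1 + 2 * (β / 100)) * dl y →
  GG y P ^ (1 + β / 100) * dl y ≤ 3 * |dd y P0| →
  |ξ - tt y| ≤ 4 * rr y →
  der P ξ ≠ 0 ∧ 8 * |(P.c : ℝ)| * |ev P ξ| ≤ der P ξ ^ 2 ∧ 2 * hh P ≤ hh P0 ∧
    |ev P ξ| * hh P * hh P0 ^ (2 + β ^ 2 / 100000) ≤ |der P ξ|

/-! ### Blocks UHW, UHV: few bad planes -/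

/-- HW: few planes are bad for `WW` (from the inverse theorem UHI). -/
def Stmt_HW : Prop := ∃ s β0 : ℝ, 0 < s ∧ 0 < β0 ∧ ∀ β : ℝ, 0 < β → β ≤ β0 → ∃ G0 : ℝ,
  ∀ (B : ℝ) (y P wm v R : V3), Nd β y P → G0 ≤ GG y P → 1 ≤ B → B ≤ GG y P ^ (β / 100) →
    Bas y P wm v R → ∀ (b0 : ℤ) (F : Finset ℤ), 1 ≤ b0 → (b0 : ℝ) ≤ B →
    (∀ a0 ∈ F, AA β B y P / (2 * B) ≤ a0 ∧ (a0 : ℝ) ≤ AA β B y P ∧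
      ¬ Wpl β B y P (lin a0 P b0 R)) → (F.card : ℝ) ≤ AA β B y P ^ (1 - s)

/-- HV: few planes are bad for `VV` (from the inhomogeneous inverse theorem INV2). -/
def Stmt_HV : Prop := ∃ s β0 : ℝ, 0 < s ∧ 0 < β0 ∧ ∀ β : ℝ, 0 < β → β ≤ β0 → ∃ G0 : ℝ,
  ∀ (B : ℝ) (y P wm v R : V3), Nd β y P → G0 ≤ GG y P → 1 ≤ B → B ≤ GG y P ^ (β / 100) →
    Bas y P wm v R → ∀ (b0 : ℤ) (F : Finset ℤ), 1 ≤ b0 → (b0 : ℝ) ≤ B →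
    (∀ a0 ∈ F, AA β B y P / (2 * B) ≤ a0 ∧ (a0 : ℝ) ≤ AA β B y P ∧
      ¬ Vpl β y P (lin a0 P b0 R)) → (F.card : ℝ) ≤ AA β B y P ^ (1 - s)

/-! ### Block UEX: existence of `(a, b)` for most primes -/

/-- EX -/
def Stmt_EX : Prop := ∀ C η : ℝ, 0 < C → 0 < η → ∃ G0 : ℝ, ∀ (G θ ρ x0 c K1 Q : ℝ)
  (A1 A2 B1 B2 : ℤ), G0 ≤ G → A1 ≤ A2 → B1 ≤ B2 → (A2 - A1 + 1 : ℝ) ≤ G ^ C →
  (B2 - B1 + 1 : ℝ) ≤ G ^ C → G ^ (-C) ≤ c → c ≤ 1 / 8 → 1 ≤ Q → Q ≤ G ^ C → 0 < K1 →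
  K1 ≤ Q / c →
  (∀ a b k : ℤ, |(a : ℝ)| ≤ 2 * (A2 - A1 + 1) → |(b : ℝ)| ≤ 2 * (B2 - B1) →
    (a ≠ 0 ∨ b ≠ 0) → 1 / K1 ≤ |a * θ + b * ρ - k|) →
  G ^ η ≤ (A2 - A1 + 1) * (B2 - B1 + 1) * c →
  ∀ F : Finset ℕ, (∀ q ∈ F, q.Prime ∧ Q ≤ q ∧ (q : ℝ) ≤ 2 * Q ∧
    ∀ a b k : ℤ, A1 ≤ a → a ≤ A2 → B1 ≤ b → b ≤ B2 → c < |q * (a * θ + b * ρ) - k - x0|) →
  (F.card : ℝ) ≤ Q * G ^ (-(η / 4))

/-- PRM: many primes in `[Q, 2Q]` -/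
def Stmt_PRM : Prop := ∀ η : ℝ, 0 < η → ∃ Q0 : ℝ, ∀ Q : ℝ, Q0 ≤ Q → ∃ F : Finset ℕ,
  (∀ q ∈ F, q.Prime ∧ Q ≤ q ∧ (q : ℝ) ≤ 2 * Q) ∧ Q ^ (1 - η) ≤ F.card

/-! ### Blocks UCT, UST, URT: one step, first step, root -/

/-- STEP: a node has many children which are nodes. -/
def Stmt_STEP : Prop := ∃ β0 : ℝ, 0 < β0 ∧ ∀ β : ℝ, 0 < β → β ≤ β0 → ∃ G0 : ℝ,
  ∀ y P : V3, St β y P → G0 ≤ GG y P → ∃ F : Finset (V3 × V3),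
    GG y P ^ (1 - 4 * β) ≤ F.card ∧
    (∀ x ∈ F, St β x.1 x.2 ∧ GG y P ^ (1 + β / 200) ≤ GG x.1 x.2 ∧
      GG x.1 x.2 ≤ GG y P ^ (1 + 3 * (β / 100)) ∧
      |tt x.1 - tt y| + 4 * rr x.1 ≤ 4 * rr y ∧ 2 * rr x.1 ≤ rr y ∧
      rr y * GG y P ^ (-3 : ℝ) ≤ rr x.1 ∧
      ∀ ξ : ℝ, |ξ - tt y| ≤ 4 * rr y →
        der P ξ ≠ 0 ∧ 8 * |(P.c : ℝ)| * |ev P ξ| ≤ der P ξ ^ 2 ∧ 2 * hh P ≤ hh x.2 ∧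
        |ev P ξ| * hh P * hh x.2 ^ (2 + β ^ 2 / 100000) ≤ |der P ξ|) ∧
    ∀ x ∈ F, ∀ x' ∈ F, x ≠ x' →
      rr y * GG y P ^ (-1 : ℝ) ≤ |tt x.1 - tt x'.1| - 4 * rr x.1 - 4 * rr x'.1

/-- START: a weak node has a child which is a node. -/
def Stmt_START : Prop := ∃ β0 : ℝ, 0 < β0 ∧ ∀ β : ℝ, 0 < β → β ≤ β0 → ∃ G0 : ℝ,
  ∀ y P : V3, Nd β y P → |tt y| ≤ 1 → |(P.c : ℝ)| ≤ 3 / 2 * |dd y P| →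
    (y.a : ℝ) ≤ GG y P ^ (500 / β) → G0 ≤ GG y P →
    ∃ y1 P1 : V3, St β y1 P1 ∧ GG y P ^ (1 / 2 : ℝ) ≤ GG y1 P1

/-- ROOT: weak nodes with large `G`. -/
def Stmt_ROOT : Prop := ∀ β M : ℝ, 0 < β → β ≤ 1 / 10000 → ∃ y P : V3, Nd β y P ∧ |tt y| ≤ 1 ∧
  |(P.c : ℝ)| ≤ 3 / 2 * |dd y P| ∧ (y.a : ℝ) ≤ GG y P ^ (500 / β) ∧ M ≤ GG y P

end ULB
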