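import Pool.Agent.WHS.Defs

/-!
# Algebra of `V3`: adapted bases, discriminants (MP_c538e3_nt, lower bound `1/3`)
-/

set_option autoImplicit false

namespace ULB

open WHP (V3 det be ga dot cross lin tt)

/-- the polar form of `det`, times two -/
def bil (v w : V3) : ℤ := v.a * w.c + v.c * w.a - 2 * v.b * w.b

/-- the discriminant of `P = p₀ + p₁ X + p₂ X²` -/
def disc (P : V3) : ℤ := P.b ^ 2 - 4 * P.a * P.c

/-- the polar form of `disc`, times one: `disc (P + R) = disc P + 2 dbil P R + disc R` -/
def dbil (P R : V3) : ℤ := P.b * R.b - 2 * P.a * R.c - 2 * P.c * R.a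

theorem det_lin (i k : ℤ) (v w : V3) :
    det (lin i v k w) = i ^ 2 * det v + i * k * bil v w + k ^ 2 * det w := by
  simp only [det, lin, bil]
  ring

theorem disc_lin (i k : ℤ) (v w : V3) :
    disc (lin i v k w) = i ^ 2 * disc v + 2 * i * k * dbil v w + k ^ 2 * disc w := by
  simp only [disc, lin, dbil]
  ring

/-- discriminant of a plane through `y` and `v` -/
theorem disc_cross (y v : V3) : disc (cross y v) = bil y v ^ 2 - 4 * det y * det v := by
  simp only [disc, cross, bil, det]
  ring

/-- polar version -/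
theorem dbil_cross (y v w : V3) :
    dbil (cross y v) (cross y w) = bil y v * bil y w - 2 * det y * bil v w := by
  simp only [dbil, cross, bil, det]
  ring

/-- the Gram determinant of `disc` on `y^⊥` -/
theorem gram (y v w : V3) :
    disc (cross y v) * disc (cross y w) - dbil (cross y v) (cross y w) ^ 2 =
      4 * det y * dot (cross y v) w ^ 2 := by
  simp only [disc, cross, dbil, det, dot]
  ring

theorem bil_comm (v w : V3) : bil v w = bil w v := by
  simp only [bil]
  ring

theorem bil_lin (y v w : V3) (i k : ℤ) :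
    bil y (lin i v k w) = i * bil y v + k * bil y w := by
  simp only [bil, lin]
  ring

theorem bil_self (y : V3) : bil y y = 2 * det y := by
  simp only [bil, det]
  ring

theorem cross_lin (y v w : V3) (i k : ℤ) :
    cross y (lin i v k w) = lin i (cross y v) k (cross y w) := by
  simp only [cross, lin, V3.mk.injEq]
  refine ⟨?_, ?_, ?_⟩ <;> ring

theorem lin_cross (y v w : V3) (i k : ℤ) :
    cross (lin i v k w) y = lin i (cross v y) k (cross w y) := by
  simp only [cross, lin, V3.mk.injEq]
  refine ⟨?_, ?_, ?_⟩ <;> ring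

theorem cross_self (y : V3) : cross y y = 0 := by
  apply V3.ext
  · show y.b * y.c - y.c * y.b = 0; ring
  · show y.c * y.a - y.a * y.c = 0; ring
  · show y.a * y.b - y.b * y.a = 0; ring

theorem cross_anti (v w : V3) : cross v w = lin (-1) (cross w v) 0 0 := by
  simp only [cross, lin, V3.mk.injEq]
  refine ⟨?_, ?_, ?_⟩ <;> ring

/-- every plane through a primitive `y` is `y × v` -/
theorem exists_cross {y P Q : V3} (hQ : dot Q y = 1) (hP : dot P y = 0) :
    ∃ v : V3, cross y v = P := by
  refine ⟨cross P Q, ?_⟩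
  simp only [dot] at hQ hP
  apply V3.ext
  · show y.b * (P.a * Q.b - P.b * Q.a) - y.c * (P.c * Q.a - P.a * Q.c) = P.a
    linear_combination P.a * hQ - Q.a * hP
  · show y.c * (P.b * Q.c - P.c * Q.b) - y.a * (P.a * Q.b - P.b * Q.a) = P.b
    linear_combination P.b * hQ - Q.b * hP
  · show y.a * (P.c * Q.a - P.a * Q.c) - y.b * (P.b * Q.c - P.c * Q.b) = P.c
    linear_combination P.c * hQ - Q.c * hP

/-- Cramer's rule in the basis `y, v, w` -/
theorem cramer {y v w : V3} (h : dot (cross y v) w = 1) (u : V3) :
    u = lin 1 (lin (dot (cross v w) u) y (-(dot (cross y w) u)) v) (dot (cross y v) u) w := by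
  simp only [dot, cross] at h
  apply V3.ext
  · simp only [lin, dot, cross]
    linear_combination -u.a * h
  · simp only [lin, dot, cross]
    linear_combination -u.b * h
  · simp only [lin, dot, cross]
    linear_combination -u.c * h

/-- an adapted basis: `y, v, w` is a basis of `ℤ³` with `y × v = P`, and `(P, y × w)` is a
basis of `y^⊥` -/
theorem exists_adapted {y P : V3} (hy : ∃ Q, dot Q y = 1) (hP : ∃ u, dot P u = 1)
    (h : dot P y = 0) :
    ∃ v w : V3, cross y v = P ∧ dot P w = 1 ∧
      ∀ Q : V3, dot Q y = 0 → ∃ a b : ℤ, Q = lin a P b (cross y w) := by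
  obtain ⟨Q0, hQ0⟩ := hy
  obtain ⟨w, hw⟩ := hP
  obtain ⟨v, hv⟩ := exists_cross hQ0 h
  refine ⟨v, w, hv, hw, ?_⟩
  intro Q hQ
  obtain ⟨u, hu⟩ := exists_cross hQ0 hQ
  have hw' : dot (cross y v) w = 1 := by rw [hv]; exact hw
  refine ⟨-(dot (cross y w) u), dot (cross y v) u, ?_⟩
  have h1 := cramer hw' u
  rw [← hu]
  conv_lhs => rw [h1]
  rw [cross_lin, cross_lin, cross_self, hv]
  apply V3.ext
  · simp only [lin]
    show 1 * (_ * 0 + _) + _ = _
    ring
  · simp only [lin]
    show 1 * (_ * 0 + _) + _ = _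
    ring
  · simp only [lin]
    show 1 * (_ * 0 + _) + _ = _
    ring

end ULB
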