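import Pool.Agent.ULB.Stmts
import Pool.Agent.ULB.Alg

/-!
# BAS: adapted bases (block UCH)
-/

set_option autoImplicit false

namespace ULB

open WHP (V3 det be ga dot cross lin tt)
open WHS (hh ev der)

namespace BASaux

theorem dot_comm (v w : V3) : dot v w = dot w v := by
  simp only [dot]; ring

theorem dd_lin (y v w : V3) (i k : ℤ) : dd y (lin i v k w) = i * dd y v + k * dd y w := by
  simp only [dd, der, lin]
  push_cast
  ring

/-- `P × (y × v) = y (P·v) - v (P·y)` -/
theorem triple {y P v : V3} (h0 : dot P y = 0) (h1 : dot P v = 1) :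
    cross P (cross y v) = y := by
  simp only [dot] at h0 h1
  apply V3.ext
  · show P.b * (y.a * v.b - y.b * v.a) - P.c * (y.c * v.a - y.a * v.c) = y.a
    linear_combination y.a * h1 - v.a * h0
  · show P.c * (y.b * v.c - y.c * v.b) - P.a * (y.a * v.b - y.b * v.a) = y.b
    linear_combination y.b * h1 - v.b * h0
  · show P.a * (y.c * v.a - y.a * v.c) - P.b * (y.b * v.c - y.c * v.b) = y.c
    linear_combination y.c * h1 - v.c * h0

end BASaux

open BASaux in
/-- **BAS.** -/
theorem t_BAS : Stmt_BAS := by
  intro β y P hβ hβ1 hN hG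
  obtain ⟨Q0, hQ0⟩ := hN.py
  obtain ⟨v0', hv0'⟩ := hN.pP
  have hv0 : dot P v0' = 1 := by rw [dot_comm]; exact hv0'
  obtain ⟨wm, hwm⟩ := exists_cross hQ0 hN.orth
  have hL : dd y P ≠ 0 := by
    intro h
    have : GG y P = 0 := by
      simp only [GG, h, abs_zero, mul_zero, div_zero]
    rw [this] at hG
    norm_num at hG
  set L := dd y P with hLdef
  set n : ℤ := -round (dd y (cross y v0') / L) with hn
  set v : V3 := lin 1 v0' n wm with hv
  have hPwm : dot P wm = 0 := by
    rw [← hwm, WHP.dot_cross_right]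
  have hPv : dot P v = 1 := by
    rw [hv, WHP.dot_lin, hv0, hPwm]
    ring
  have hRv : cross y v = lin 1 (cross y v0') n P := by
    rw [hv, cross_lin, hwm]
  refine ⟨wm, v, cross y v, hwm, hPv, rfl, triple hN.orth hPv, ?_, ?_⟩
  · rw [hRv, dd_lin, ← hLdef]
    have h1 := abs_sub_round (dd y (cross y v0') / L)
    have h2 : ((1 : ℤ) : ℝ) * dd y (cross y v0') + (n : ℝ) * L =
        (dd y (cross y v0') / L - round (dd y (cross y v0') / L)) * L := by
      rw [hn]
      push_cast
      field_simp
      ring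
    rw [h2, abs_mul]
    have h3 : 0 ≤ |L| := abs_nonneg _
    nlinarith
  · intro w
    have hdet : dot (cross y wm) v = 1 := by rw [hwm]; exact hPv
    have h1 := cramer hdet w
    refine ⟨-(dot (cross y v) w), dot (cross wm v) w, ?_⟩
    rw [hwm] at h1
    conv_lhs => rw [h1]
    apply V3.ext <;> simp only [lin] <;> ring

end ULB
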