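import Pool.Agent.ULB.StmtsUCH
import Pool.Agent.ULB.Bas

/-!
# ALG: exact facts on a step (block UCH)
-/

set_option autoImplicit false

namespace ULB

open WHP (V3 det be ga dot cross lin tt)
open WHS (hh ev der)

namespace ALGaux

theorem ca_lin (y v w : V3) (i k : ℤ) : ca y (lin i v k w) = i * ca y v + k * ca y w := by
  simp only [ca, lin]
  push_cast
  ring

theorem cb_lin (y v w : V3) (i k : ℤ) : cb y (lin i v k w) = i * cb y v + k * cb y w := by
  simp only [cb, WHP.be_lin]
  ring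

theorem cc_lin (y v w : V3) (i k : ℤ) : cc y (lin i v k w) = i * cc y v + k * cc y w := by
  simp only [cc, WHP.ga_lin]
  ring

theorem ca_self {y : V3} (h : 0 < y.a) : ca y y = 1 := by
  simp only [ca]
  have : (y.a : ℝ) ≠ 0 := by exact_mod_cast h.ne'
  exact div_self this

theorem cb_self {y : V3} (h : 0 < y.a) : cb y y = 0 := by
  simp only [cb]
  have : (y.a : ℝ) ≠ 0 := by exact_mod_cast h.ne'
  rw [WHP.be_self this, zero_div]

theorem si_dl (y : V3) : (si y : ℝ) * dl y = det y := by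
  simp only [si, dl]
  exact_mod_cast Int.sign_mul_abs (det y)

theorem si_sq {y : V3} (h : det y ≠ 0) : (si y : ℝ) ^ 2 = 1 := by
  have h1 : si y * si y = 1 := by
    simp only [si]
    rcases lt_trichotomy (det y) 0 with h2 | h2 | h2
    · rw [Int.sign_eq_neg_one_of_neg h2]; rfl
    · exact absurd h2 h
    · rw [Int.sign_eq_one_of_pos h2]; rfl
  rw [sq]
  exact_mod_cast h1

theorem dl_pos {y : V3} (h : det y ≠ 0) : 0 < dl y := by
  simp only [dl]
  exact abs_pos.2 (by exact_mod_cast h)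

theorem cc_self {y : V3} (h : 0 < y.a) (hd : det y ≠ 0) : cc y y = si y := by
  have h1 : (y.a : ℝ) ≠ 0 := by exact_mod_cast h.ne'
  have h2 := dl_pos hd
  simp only [cc, zz]
  rw [WHP.ga_self h1, ← si_dl]
  field_simp

theorem sm_cross (y v : V3) (k : ℤ) : cross y (sm k v) = sm k (cross y v) := by
  simp only [sm, cross_lin]

theorem dot_sm (P v : V3) (k : ℤ) : dot P (sm k v) = k * dot P v := by
  simp only [sm, WHP.dot_lin]; ring

theorem sm_dot (P v : V3) (k : ℤ) : dot (sm k P) v = k * dot P v := by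
  simp only [sm, dot, lin]; ring

theorem ca_sm (y v : V3) (k : ℤ) : ca y (sm k v) = k * ca y v := by
  simp only [sm, ca_lin]; push_cast; ring

theorem cb_sm (y v : V3) (k : ℤ) : cb y (sm k v) = k * cb y v := by
  simp only [sm, cb_lin]; push_cast; ring

theorem cc_sm (y v : V3) (k : ℤ) : cc y (sm k v) = k * cc y v := by
  simp only [sm, cc_lin]; push_cast; ring

theorem dd_sm (y P : V3) (k : ℤ) : dd y (sm k P) = k * dd y P := by
  simp only [sm, BASaux.dd_lin]; push_cast; ring

theorem sm_a (k : ℤ) (v : V3) : (sm k v).a = k * v.a := by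
  simp only [sm, lin]; ring

theorem sm_b (k : ℤ) (v : V3) : (sm k v).b = k * v.b := by
  simp only [sm, lin]; ring

theorem sm_c (k : ℤ) (v : V3) : (sm k v).c = k * v.c := by
  simp only [sm, lin]; ring

theorem ext_sm {k : ℤ} {v w : V3} (hk : k ≠ 0) (h : sm k v = sm k w) : v = w := by
  have ha := congrArg V3.a h
  have hb := congrArg V3.b h
  have hc := congrArg V3.c h
  rw [sm_a, sm_a] at ha
  rw [sm_b, sm_b] at hb
  rw [sm_c, sm_c] at hc
  exact V3.ext (mul_left_cancel₀ hk ha) (mul_left_cancel₀ hk hb) (mul_left_cancel₀ hk hc)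

theorem sm_sm (k l : ℤ) (v : V3) : sm k (sm l v) = sm (k * l) v := by
  apply V3.ext
  · rw [sm_a, sm_a, sm_a]; ring
  · rw [sm_b, sm_b, sm_b]; ring
  · rw [sm_c, sm_c, sm_c]; ring

end ALGaux

open ALGaux in
/-- **ALG.** -/
theorem t_ALG (hF : Stmt_FRM) : Stmt_ALG := by
  intro β B y P wm v R y1 P0 a b q k g d hya hdt hpy hpP horth hB hS
  obtain ⟨hf1, hf2, hf3, hf4, hf5⟩ := hF y hya hdt
  obtain ⟨Q0, hQ0⟩ := hpy
  obtain ⟨u', hu'⟩ := hS.pP
  have hu : dot P0 u' = 1 := by rw [BASaux.dot_comm]; exact hu'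
  have hg0 : g ≠ 0 := by have := hS.g1; omega
  have hyR : dot R y = 0 := by rw [hB.hR]; exact WHP.dot_cross_left y v
  set V : V3 := lin q (lin a wm b v) (-(k * si y)) y with hV
  have hVy : V = sm d y1 := hS.hy
  have hcrV : cross y V = sm (q * g) P0 := by
    have h1 : cross y V = sm q (lin a P b R) := by
      rw [hV, cross_lin, cross_lin, cross_self, hB.hm, ← hB.hR]
      apply V3.ext
      · rw [sm_a]; show q * _ + -(k * si y) * 0 = _; ring
      · rw [sm_b]; show q * _ + -(k * si y) * 0 = _; ring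
      · rw [sm_c]; show q * _ + -(k * si y) * 0 = _; ring
    rw [h1, hS.hP, sm_sm]
  have hd0 := hS.d0
  -- o0
  have ho0 : dot P0 y = 0 := by
    have h1 : g * dot P0 y = 0 := by
      rw [← sm_dot, ← hS.hP]
      have : dot (lin a P b R) y = a * dot P y + b * dot R y := by
        simp only [dot, lin]; ring
      rw [this, horth, hyR]; ring
    exact (mul_eq_zero.1 h1).resolve_left hg0
  -- o1
  have ho1 : dot P0 y1 = 0 := by
    have h1 : (q * g) * (d * dot P0 y1) = 0 := by
      rw [← dot_sm, ← hVy, ← sm_dot, ← hcrV, WHP.dot_cross_right]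
    have hq0 : q ≠ 0 := hS.q0.ne_zero
    have h2 := (mul_eq_zero.1 h1).resolve_left (mul_ne_zero hq0 hg0)
    exact (mul_eq_zero.1 h2).resolve_left hd0
  -- cr
  have hcr : sm d (cross y y1) = sm (q * g) P0 := by
    rw [← sm_cross, ← hVy, hcrV]
  set q1 : ℤ := dot (cross y y1) u' with hq1
  have hq1d : q1 * d = q * g := by
    have h1 : dot (sm d (cross y y1)) u' = dot (sm (q * g) P0) u' := by rw [hcr]
    rw [sm_dot, sm_dot, hu] at h1
    rw [hq1]; linarith
  have hcr1 : cross y y1 = sm q1 P0 := by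
    apply ext_sm hd0
    rw [hcr, sm_sm, ← hq1d, mul_comm]
  -- q does not divide d
  have hsi : si y * si y = 1 := by
    have := si_sq hdt
    have h2 : ((si y * si y : ℤ) : ℝ) = 1 := by push_cast; rw [← sq]; exact this
    exact_mod_cast h2
  have hqd : ¬ q ∣ d := by
    intro h
    apply hS.qk
    have h1 : q ∣ dot Q0 (sm d y1) := by
      rw [dot_sm]
      exact Dvd.dvd.mul_right h _
    rw [← hVy, hV, WHP.dot_lin, hQ0] at h1
    have h2 : q ∣ -(k * si y) * 1 := (dvd_add_right (dvd_mul_right q _)).1 h1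
    have h3 : q ∣ k * si y := by
      rw [mul_one] at h2
      exact (dvd_neg.1 h2)
    have h4 : q ∣ k * si y * si y := Dvd.dvd.mul_right h3 _
    rwa [mul_assoc, hsi, mul_one] at h4
  have hdg : d ∣ g := by
    have h1 : IsCoprime q d := (Prime.coprime_iff_not_dvd hS.q0).2 hqd
    have h2 : d ∣ q * g := ⟨q1, by rw [← hq1d]; ring⟩
    exact IsCoprime.dvd_of_dvd_mul_left h1.symm h2
  -- g | b
  have hgb : g ∣ b := by
    have h1 : cross P (lin a P b R) = sm b y := by
      rw [cross_lin, cross_self, hB.hc]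
      apply V3.ext
      · rw [sm_a]; show a * 0 + _ = _; ring
      · rw [sm_b]; show a * 0 + _ = _; ring
      · rw [sm_c]; show a * 0 + _ = _; ring
    rw [hS.hP, sm_cross] at h1
    have h2 : dot Q0 (sm g (cross P P0)) = dot Q0 (sm b y) := by rw [h1]
    rw [dot_sm, dot_sm, hQ0, mul_one] at h2
    exact ⟨_, h2.symm⟩
  have hD := dl_pos hdt
  have hsq := si_sq hdt
  -- coordinates
  have hccV : (d : ℝ) * cc y y1 = q * (a * cc y wm + b * cc y v) - k := by
    rw [← cc_sm, ← hVy, hV, cc_lin, cc_lin, cc_self hya hdt]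
    push_cast
    linear_combination (-(k : ℝ)) * hsq
  have hddV : (q : ℝ) * g * dd y P0 = dl y * (si y * ca y V - cc y V) := by
    rw [← (hf3 V).2, hcrV, dd_sm]
    push_cast
    ring
  have hccV2 : cc y V = q * (a * cc y wm + b * cc y v) - k := by
    rw [hVy, cc_sm]; exact hccV
  have hcaV : (d : ℝ) * ca y y1 =
      si y * ((q * (a * cc y wm + b * cc y v) - k) + q * g * dd y P0 / dl y) := by
    rw [← ca_sm, ← hVy, hddV, ← hccV2]
    field_simp
    linear_combination (-(ca y V)) * hsq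
  have hcbV : (d : ℝ) * cb y y1 = q * g * P0.c / dl y := by
    rw [← cb_sm, ← hVy, eq_div_iff hD.ne']
    have h1 := (hf3 V).1
    rw [hcrV, sm_c] at h1
    push_cast at h1
    linarith
  refine ⟨ho1, ho0, hdg, hgb, ⟨q1, hq1d, hcr1⟩, hccV, hcaV, hcbV, ?_, ?_, ?_⟩
  · rw [← dd_sm, ← hS.hP, BASaux.dd_lin]
  · have h1 := congrArg V3.c hS.hP
    rw [sm_c] at h1
    have h2 : a * P.c + b * R.c = g * P0.c := h1
    exact_mod_cast h2.symm
  · have h1 := congrArg V3.a hB.hc
    have h2 : P.b * R.c - P.c * R.b = y.a := h1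
    have h3 : (P.b : ℝ) * R.c - P.c * R.b = y.a := by exact_mod_cast h2
    simp only [dd, der]
    linear_combination h3

end ULB
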