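import Pool.Agent.ULB.Stmts

/-!
# Block CHN (lower bound 1/3, MP_c538e3_nt)

The plane `P` of a node `(y, P)` serves all the heights between `P` and the next plane `P0`, at
every point `ξ` with `|ξ - t| ≤ 4 r`.
-/

namespace ULB

open WHP (V3 det be ga dot cross lin tt)
open WHS (hh ev der)

namespace CHN

theorem abs_ev_tt {y P : V3} (hy : (0 : ℝ) < y.a) (h : dot P y = 0) :
    |ev P (tt y)| = |(P.c : ℝ)| * rr y := by
  have h1 := WHP.dot_eq (tt y) P y
  rw [h, WHP.be_self hy.ne', WHP.ga_self hy.ne'] at h1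
  have h2 : ev P (tt y) = -((P.c : ℝ) * (det y / (y.a : ℝ) ^ 2)) := by
    have hy2 : (y.a : ℝ) ^ 2 ≠ 0 := by positivity
    have h3 : ev P (tt y) * y.a = -((P.c : ℝ) * (det y / y.a)) := by
      simp only [ev]
      push_cast at h1
      linarith
    field_simp at h3 ⊢
    linear_combination (norm := ring_nf) h3
  rw [h2, abs_neg, abs_mul, abs_div, abs_of_pos (show (0 : ℝ) < (y.a : ℝ) ^ 2 by positivity)]
  rfl

theorem der_eq (P : V3) (t ξ : ℝ) : der P ξ = der P t + 2 * P.c * (ξ - t) := by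
  simp only [der]
  ring

theorem ev_eq (P : V3) (t ξ : ℝ) :
    ev P ξ = ev P t + der P t * (ξ - t) + P.c * (ξ - t) ^ 2 := by
  simp only [der, ev]
  ring

/-- the height is at most `33 |P'(t)|` -/
theorem hh_le {y P : V3} (hy : (0 : ℝ) < y.a) (h : dot P y = 0) (ht : |tt y| ≤ 2)
    (hr0 : 0 ≤ rr y) (hr : rr y ≤ 1 / 200) (hc : |(P.c : ℝ)| ≤ 5 / 2 * |dd y P|) :
    hh P ≤ 33 * |dd y P| := by
  have hM : 0 ≤ |dd y P| := abs_nonneg _
  have hev := abs_ev_tt hy h
  have hcn : 0 ≤ |(P.c : ℝ)| := abs_nonneg _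
  have hb : |(P.b : ℝ)| ≤ 11 * |dd y P| := by
    have h1 : (P.b : ℝ) = dd y P - 2 * P.c * tt y := by
      simp only [dd, der]
      ring
    have h2 : |2 * (P.c : ℝ) * tt y| ≤ 10 * |dd y P| := by
      rw [abs_mul, abs_mul, abs_two]
      nlinarith [abs_nonneg (tt y)]
    rw [h1]
    have h3 := abs_sub (dd y P) (2 * P.c * tt y)
    linarith
  have ha : |(P.a : ℝ)| ≤ 33 * |dd y P| := by
    have h1 : (P.a : ℝ) = ev P (tt y) - (P.b * tt y + P.c * tt y ^ 2) := by
      simp only [ev]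
      ring
    have h2 : |(P.b : ℝ) * tt y| ≤ 22 * |dd y P| := by
      rw [abs_mul]
      nlinarith [abs_nonneg (tt y), abs_nonneg (P.b : ℝ)]
    have h3 : |(P.c : ℝ) * tt y ^ 2| ≤ 10 * |dd y P| := by
      rw [abs_mul, abs_pow]
      have h4 : |tt y| ^ 2 ≤ 4 := by nlinarith [abs_nonneg (tt y)]
      have h5 : 0 ≤ |tt y| ^ 2 := by positivity
      nlinarith
    have h4 : |ev P (tt y)| ≤ 1 * |dd y P| := by
      rw [hev]
      nlinarith
    rw [h1]
    have h5 := abs_sub (ev P (tt y)) (P.b * tt y + P.c * tt y ^ 2)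
    have h6 := abs_add_le ((P.b : ℝ) * tt y) (P.c * tt y ^ 2)
    linarith
  unfold hh
  refine max_le ha (max_le ?_ ?_)
  · linarith
  · linarith

/-- the height is at least `|P'(t)| / 5` -/
theorem le_hh {y P : V3} (ht : |tt y| ≤ 2) : |dd y P| ≤ 5 * hh P := by
  have h1 : |(P.b : ℝ)| ≤ hh P := le_trans (le_max_left _ _) (le_max_right _ _)
  have h2 : |(P.c : ℝ)| ≤ hh P := le_trans (le_max_right _ _) (le_max_right _ _)
  have h0 : |dd y P| ≤ |(P.b : ℝ)| + |2 * (P.c : ℝ) * tt y| := by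
    simp only [dd, der]
    exact abs_add_le _ _
  have h3 : |2 * (P.c : ℝ) * tt y| ≤ 4 * hh P := by
    rw [abs_mul, abs_mul, abs_two]
    nlinarith [abs_nonneg (tt y), abs_nonneg (P.c : ℝ)]
  linarith

end CHN

open CHN

theorem t_CHN : Stmt_CHN := by
  intro β hβ hβ1
  have hκ : 0 < β / 100 := by positivity
  refine ⟨((10 : ℝ) ^ (7 : ℕ)) ^ (1 / (β / 100)), ?_⟩
  intro y P P0 ξ hS hG hc0 ho0 hd1 hd2 hξ
  have hG1 : 1 ≤ GG y P := by
    refine le_trans ?_ hG
    exact Real.one_le_rpow (by norm_num) (by positivity)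
  have hGk : (10 : ℝ) ^ (7 : ℕ) ≤ GG y P ^ (β / 100) := by
    calc (10 : ℝ) ^ (7 : ℕ) = ((10 : ℝ) ^ (7 : ℕ)) ^ (1 / (β / 100) * (β / 100)) := by
          rw [one_div_mul_cancel hκ.ne', Real.rpow_one]
      _ = (((10 : ℝ) ^ (7 : ℕ)) ^ (1 / (β / 100))) ^ (β / 100) := by
          rw [Real.rpow_mul (by positivity)]
      _ ≤ GG y P ^ (β / 100) := Real.rpow_le_rpow (by positivity) hG hκ.le
  have hG0 : 0 < GG y P := by linarith
  have hG7 : (10 : ℝ) ^ (7 : ℕ) ≤ GG y P := by
    refine le_trans hGk ?_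
    calc GG y P ^ (β / 100) ≤ GG y P ^ (1 : ℝ) :=
          Real.rpow_le_rpow_of_exponent_le hG1 (by linarith)
      _ = GG y P := Real.rpow_one _
  have hY : (0 : ℝ) < y.a := by exact_mod_cast hS.ya
  have hY1 : (1 : ℝ) ≤ y.a := by exact_mod_cast hS.ya
  have hD : 1 ≤ dl y := by
    unfold dl
    have h1 : 1 ≤ |det y| := Int.one_le_abs hS.dt
    exact_mod_cast h1
  have hM0 : |dd y P| ≠ 0 := by
    intro h0
    have h1 : GG y P = 0 := by
      unfold GG
      rw [h0, mul_zero, div_zero]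
    linarith
  have hM : 0 < |dd y P| := lt_of_le_of_ne (abs_nonneg _) (Ne.symm hM0)
  have hDp : 0 < dl y := by linarith
  have hYeq : (y.a : ℝ) = GG y P * (dl y * |dd y P|) := by
    unfold GG
    field_simp
  have hMb : |dd y P| = bb y P * dl y := by
    unfold bb
    field_simp
  have hb1 : 1 ≤ bb y P := by
    refine le_trans ?_ hS.b3
    exact Real.one_le_rpow hG1 (by linarith)
  have hb0 : 0 < bb y P := by linarith
  -- generalize
  have hr : rr y = dl y / (y.a : ℝ) ^ 2 := rfl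
  have hr0 : 0 < rr y := by rw [hr]; positivity
  have hYD : 200 * dl y ≤ y.a := by
    rw [hYeq]
    have h1 : 1 ≤ |dd y P| := by rw [hMb]; nlinarith
    have h2 : dl y * 1 ≤ dl y * |dd y P| := mul_le_mul_of_nonneg_left h1 hDp.le
    have h3 : 200 ≤ GG y P := le_trans (by norm_num) hG7
    calc 200 * dl y ≤ GG y P * (dl y * 1) := by nlinarith
      _ ≤ GG y P * (dl y * |dd y P|) := mul_le_mul_of_nonneg_left h2 hG0.le
  have hr2 : rr y ≤ 1 / 200 := by
    rw [hr, div_le_div_iff₀ (by positivity) (by norm_num)]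
    nlinarith
  have hcP : |(P.c : ℝ)| ≤ 2 * |dd y P| := hS.sb
  have hev := abs_ev_tt hY hS.orth
  have hxi : |ξ - tt y| ≤ 4 * rr y := hξ
  have hxi0 : 0 ≤ |ξ - tt y| := abs_nonneg _
  have hcn : 0 ≤ |(P.c : ℝ)| := abs_nonneg _
  -- lower bound for the derivative
  have hder : 9 / 10 * |dd y P| ≤ |der P ξ| := by
    have h1 : dd y P = der P ξ - 2 * P.c * (ξ - tt y) := by
      rw [der_eq P (tt y) ξ]
      simp only [dd]
      ring
    have h2 : |2 * (P.c : ℝ) * (ξ - tt y)| ≤ 1 / 10 * |dd y P| := by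
      rw [abs_mul, abs_mul, abs_two]
      have h3 : |(P.c : ℝ)| * |ξ - tt y| ≤ (2 * |dd y P|) * (4 * rr y) :=
        mul_le_mul hcP hxi hxi0 (by positivity)
      nlinarith
    have h3 := abs_sub (der P ξ) (2 * P.c * (ξ - tt y))
    rw [← h1] at h3
    linarith
  have hev2 : |ev P ξ| ≤ 7 * |dd y P| * rr y := by
    have h1 := ev_eq P (tt y) ξ
    have h2 : |der P (tt y) * (ξ - tt y)| ≤ 4 * |dd y P| * rr y := by
      rw [abs_mul]
      have h3 : |der P (tt y)| = |dd y P| := rfl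
      rw [h3]
      nlinarith
    have h3 : |(P.c : ℝ) * (ξ - tt y) ^ 2| ≤ 1 * |dd y P| * rr y := by
      rw [abs_mul, abs_pow]
      have h4 : |ξ - tt y| ^ 2 ≤ (4 * rr y) ^ 2 := pow_le_pow_left₀ hxi0 hxi 2
      have h5 : |(P.c : ℝ)| * |ξ - tt y| ^ 2 ≤ (2 * |dd y P|) * (4 * rr y) ^ 2 :=
        mul_le_mul hcP h4 (by positivity) (by positivity)
      have h6 : 0 ≤ |dd y P| * rr y := by positivity
      nlinarith
    have h4 : |ev P (tt y)| ≤ 2 * |dd y P| * rr y := by
      rw [hev]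
      exact mul_le_mul_of_nonneg_right hcP hr0.le
    rw [h1]
    have h5 := abs_add_le (ev P (tt y) + der P (tt y) * (ξ - tt y)) ((P.c : ℝ) * (ξ - tt y) ^ 2)
    have h6 := abs_add_le (ev P (tt y)) (der P (tt y) * (ξ - tt y))
    linarith
  have hhP : hh P ≤ 33 * |dd y P| := hh_le hY hS.orth hS.tb hr0.le hr2 (by linarith)
  have hhP0 : hh P0 ≤ 33 * |dd y P0| := hh_le hY ho0 hS.tb hr0.le hr2 hc0
  have hhP0' : |dd y P0| ≤ 5 * hh P0 := le_hh hS.tb
  have hhPn : 0 ≤ hh P := le_trans (abs_nonneg _) (le_max_left _ _)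
  refine ⟨?_, ?_, ?_, ?_⟩
  · intro h0
    rw [h0, abs_zero] at hder
    linarith
  · have h1 : |(P.c : ℝ)| * |ev P ξ| ≤ (2 * |dd y P|) * (7 * |dd y P| * rr y) :=
      mul_le_mul hcP hev2 (abs_nonneg _) (by positivity)
    have h2 : (9 / 10 * |dd y P|) ^ 2 ≤ |der P ξ| ^ 2 := pow_le_pow_left₀ (by positivity) hder 2
    rw [sq_abs] at h2
    have h3 : 0 ≤ |dd y P| ^ 2 := by positivity
    nlinarith
  · have h1 : 990 * bb y P ≤ GG y P ^ (1 + β / 100) := by
      have h2 : GG y P ^ (1 + β / 100) = GG y P ^ (β / 100) * GG y P ^ (1 : ℝ) := by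
        rw [← Real.rpow_add hG0]
        congr 1
        ring
      have h3 : bb y P ≤ GG y P ^ (1 : ℝ) :=
        le_trans hS.b4 (Real.rpow_le_rpow_of_exponent_le hG1 (by linarith))
      rw [h2]
      exact mul_le_mul (le_trans (by norm_num) hGk) h3 hb0.le (by positivity)
    have h2 : 990 * |dd y P| ≤ 3 * |dd y P0| := by
      refine le_trans ?_ hd2
      rw [hMb]
      calc 990 * (bb y P * dl y) = 990 * bb y P * dl y := by ring
        _ ≤ GG y P ^ (1 + β / 100) * dl y := mul_le_mul_of_nonneg_right h1 hDp.le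
    linarith
  · -- the main inequality
    set H : ℝ := 66 * GG y P ^ (1 + 2 * (β / 100)) * dl y with hH
    have hHp : 0 < H := by positivity
    have hh0H : hh P0 ≤ H := by
      rw [hH]
      nlinarith
    have hh0n : 0 ≤ hh P0 := le_trans (abs_nonneg _) (le_max_left _ _)
    have hε : 0 < β ^ 2 / 100000 := by positivity
    have h1 : hh P0 ^ (2 + β ^ 2 / 100000) ≤ H ^ (2 + β ^ 2 / 100000) :=
      Real.rpow_le_rpow hh0n hh0H (by positivity)
    have h2 : H ^ (2 + β ^ 2 / 100000) = H ^ (2 : ℕ) * H ^ (β ^ 2 / 100000) := by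
      rw [Real.rpow_add hHp]
      congr 1
      exact_mod_cast Real.rpow_natCast H 2
    -- `H ≤ G ^ (3 + 1000 / β)`
    have h3 : H ≤ GG y P ^ (3 + 1000 / β) := by
      have h4 : dl y ≤ GG y P ^ (1000 / β) := by
        refine le_trans ?_ hS.cap
        linarith
      have h5 : 66 * GG y P ^ (1 + 2 * (β / 100)) ≤ GG y P ^ (3 : ℝ) := by
        have h6 : GG y P ^ (3 : ℝ) = GG y P ^ (1 : ℝ) * GG y P ^ (2 : ℝ) := by
          rw [← Real.rpow_add hG0]
          norm_num
        rw [h6, Real.rpow_one]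
        exact mul_le_mul (le_trans (by norm_num) hG7)
          (Real.rpow_le_rpow_of_exponent_le hG1 (by linarith)) (by positivity) hG0.le
      rw [hH, Real.rpow_add hG0 3 (1000 / β)]
      exact mul_le_mul h5 h4 hDp.le (by positivity)
    have h4 : H ^ (β ^ 2 / 100000) ≤ GG y P ^ (2 * (β / 100)) := by
      calc H ^ (β ^ 2 / 100000) ≤ (GG y P ^ (3 + 1000 / β)) ^ (β ^ 2 / 100000) :=
            Real.rpow_le_rpow hHp.le h3 hε.le
        _ = GG y P ^ ((3 + 1000 / β) * (β ^ 2 / 100000)) := by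
            rw [← Real.rpow_mul hG0.le]
        _ ≤ GG y P ^ (2 * (β / 100)) := by
            apply Real.rpow_le_rpow_of_exponent_le hG1
            have h5 : (3 + 1000 / β) * (β ^ 2 / 100000) = 3 * β ^ 2 / 100000 + β / 100 := by
              field_simp
              ring
            rw [h5]
            nlinarith
    -- `|dd| r H² ≤ 4356 G^(4κ) / b`
    have h5 : |dd y P| * rr y * H ^ 2 * bb y P = 4356 * GG y P ^ (4 * (β / 100)) := by
      have h6 : GG y P ^ (1 + 2 * (β / 100)) = GG y P * GG y P ^ (2 * (β / 100)) := by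
        rw [Real.rpow_add hG0, Real.rpow_one]
      have h7 : GG y P ^ (4 * (β / 100)) =
          GG y P ^ (2 * (β / 100)) * GG y P ^ (2 * (β / 100)) := by
        rw [← Real.rpow_add hG0]
        congr 1
        ring
      rw [hH, hr, h6, h7, hYeq, hMb]
      have hGn : GG y P ≠ 0 := hG0.ne'
      have hbn : bb y P ≠ 0 := hb0.ne'
      have hDn : dl y ≠ 0 := hDp.ne'
      generalize GG y P = G at *
      generalize bb y P = b at *
      generalize dl y = D at *
      generalize G ^ (2 * (β / 100)) = X at *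
      field_simp
      ring
    have h6 : 257 * 4356 * (GG y P ^ (4 * (β / 100)) * GG y P ^ (2 * (β / 100))) ≤
        GG y P ^ (β - 2 * (β / 100)) := by
      have h7 : GG y P ^ (β - 2 * (β / 100)) = GG y P ^ (β / 100) *
          (GG y P ^ (4 * (β / 100)) * GG y P ^ (β - 7 * (β / 100))) := by
        rw [← Real.rpow_add hG0, ← Real.rpow_add hG0]
        congr 1
        ring
      rw [h7]
      have h8 : GG y P ^ (2 * (β / 100)) ≤ GG y P ^ (β - 7 * (β / 100)) :=
        Real.rpow_le_rpow_of_exponent_le hG1 (by linarith)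
      have h9 : GG y P ^ (4 * (β / 100)) * GG y P ^ (2 * (β / 100)) ≤
          GG y P ^ (4 * (β / 100)) * GG y P ^ (β - 7 * (β / 100)) :=
        mul_le_mul_of_nonneg_left h8 (by positivity)
      exact mul_le_mul (le_trans (by norm_num) hGk) h9 (by positivity) (by positivity)
    have h7 : 257 * (|dd y P| * rr y * (H ^ 2 * H ^ (β ^ 2 / 100000))) ≤ 1 := by
      have h8 : 257 * (|dd y P| * rr y * (H ^ 2 * H ^ (β ^ 2 / 100000))) * bb y P =
          257 * 4356 * (GG y P ^ (4 * (β / 100)) * H ^ (β ^ 2 / 100000)) := by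
        calc 257 * (|dd y P| * rr y * (H ^ 2 * H ^ (β ^ 2 / 100000))) * bb y P
            = 257 * (|dd y P| * rr y * H ^ 2 * bb y P) * H ^ (β ^ 2 / 100000) := by ring
          _ = _ := by rw [h5]; ring
      have h9 : 257 * (|dd y P| * rr y * (H ^ 2 * H ^ (β ^ 2 / 100000))) * bb y P ≤
          1 * bb y P := by
        rw [h8, one_mul]
        refine le_trans ?_ hS.b3
        refine le_trans ?_ h6
        have h10 : GG y P ^ (4 * (β / 100)) * H ^ (β ^ 2 / 100000) ≤
            GG y P ^ (4 * (β / 100)) * GG y P ^ (2 * (β / 100)) :=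
          mul_le_mul_of_nonneg_left h4 (by positivity)
        linarith
      exact le_of_mul_le_mul_right h9 hb0
    -- conclusion
    rw [h2] at h1
    have h8 : |ev P ξ| * hh P ≤ (7 * |dd y P| * rr y) * (33 * |dd y P|) :=
      mul_le_mul hev2 hhP hhPn (by positivity)
    have h9 : |ev P ξ| * hh P * hh P0 ^ (2 + β ^ 2 / 100000) ≤
        ((7 * |dd y P| * rr y) * (33 * |dd y P|)) * (H ^ 2 * H ^ (β ^ 2 / 100000)) :=
      mul_le_mul h8 h1 (by positivity) (by positivity)
    have h10 : ((7 * |dd y P| * rr y) * (33 * |dd y P|)) * (H ^ 2 * H ^ (β ^ 2 / 100000)) =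
        231 * |dd y P| * (|dd y P| * rr y * (H ^ 2 * H ^ (β ^ 2 / 100000))) := by ring
    rw [h10] at h9
    refine le_trans h9 (le_trans ?_ hder)
    have h11 : |dd y P| * rr y * (H ^ 2 * H ^ (β ^ 2 / 100000)) ≤ 1 / 257 := by linarith
    have h12 : 0 ≤ 231 * |dd y P| := by positivity
    have h13 := mul_le_mul_of_nonneg_left h11 h12
    refine le_trans h13 ?_
    linarith

end ULB
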