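import Pool.Agent.ULB.Stmts
import Pool.Agent.ULB.Alg
import Pool.Agent.UHJ.Stmts

/-!
# Block HV: few planes are bad for `VV` (lower bound 1/3, MP_c538e3_nt)

`ULB.m_HV`: `Stmt_HV` from the inhomogeneous inverse theorem `UHJ.Stmt_INV2`.
-/

set_option autoImplicit false

namespace ULB

namespace HV

open WHP (V3 det be ga dot cross lin tt)
open WHS (hh ev der)

/-! ### frame identities -/

theorem ca_lin (y v w : V3) (i k : ℤ) : ca y (lin i v k w) = i * ca y v + k * ca y w := by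
  unfold ca
  rw [WHP.a_lin]
  push_cast
  ring

theorem cb_lin (y v w : V3) (i k : ℤ) : cb y (lin i v k w) = i * cb y v + k * cb y w := by
  unfold cb
  rw [WHP.be_lin]
  ring

theorem cc_lin (y v w : V3) (i k : ℤ) : cc y (lin i v k w) = i * cc y v + k * cc y w := by
  unfold cc
  rw [WHP.ga_lin]
  ring

theorem dl_pos {y : V3} (hd : det y ≠ 0) : 0 < dl y := by
  unfold dl
  exact abs_pos.mpr (Int.cast_ne_zero.mpr hd)

theorem dl_one {y : V3} (hd : det y ≠ 0) : 1 ≤ dl y := by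
  unfold dl
  have : (1 : ℤ) ≤ |det y| := Int.one_le_abs hd
  have h : ((1 : ℤ) : ℝ) ≤ ((|det y| : ℤ) : ℝ) := by exact_mod_cast this
  simpa [Int.cast_abs] using h

theorem si_dl (y : V3) : (si y : ℝ) * dl y = det y := by
  unfold si dl
  have := Int.sign_mul_abs (det y)
  have h : ((Int.sign (det y) * |det y| : ℤ) : ℝ) = ((det y : ℤ) : ℝ) := by rw [this]
  rw [Int.cast_mul, Int.cast_abs] at h
  exact h

theorem si_sq {y : V3} (hd : det y ≠ 0) : si y * si y = 1 := by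
  unfold si
  rcases lt_or_gt_of_ne hd with h | h
  · rw [Int.sign_eq_neg_one_of_neg h]; norm_num
  · rw [Int.sign_eq_one_of_pos h]; norm_num

theorem si_sqR {y : V3} (hd : det y ≠ 0) : (si y : ℝ) * si y = 1 := by
  exact_mod_cast si_sq hd

theorem si_abs {y : V3} (hd : det y ≠ 0) : |(si y : ℝ)| = 1 := by
  have h := si_sqR hd
  have h2 : |(si y : ℝ)| * |(si y : ℝ)| = 1 := by rw [← abs_mul, h, abs_one]
  nlinarith [abs_nonneg (si y : ℝ)]

theorem zz_pos {y : V3} (hy : 0 < y.a) (hd : det y ≠ 0) : 0 < zz y := by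
  unfold zz
  exact div_pos (dl_pos hd) (by exact_mod_cast hy)

theorem cc_self {y : V3} (hy : 0 < y.a) (hd : det y ≠ 0) : cc y y = si y := by
  have hY : (0 : ℝ) < y.a := by exact_mod_cast hy
  unfold cc zz
  rw [WHP.ga_self hY.ne', ← si_dl y]
  have := dl_pos hd
  field_simp

theorem det_frame {y : V3} (hy : 0 < y.a) (hd : det y ≠ 0) (w : V3) :
    (det w : ℝ) = dl y * ca y w * cc y w - zz y ^ 2 * cb y w ^ 2 := by
  have hY : (0 : ℝ) < y.a := by exact_mod_cast hy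
  have hD := dl_pos hd
  rw [WHP.det_eq (tt y) w]
  unfold ca cb cc zz
  field_simp

theorem dot_frame {y P : V3} (hy : 0 < y.a) (hd : det y ≠ 0) (ho : dot P y = 0) (w : V3) :
    (dot P w : ℝ) = zz y * (dd y P * cb y w + P.c * (cc y w - si y * ca y w)) := by
  have hY : (0 : ℝ) < y.a := by exact_mod_cast hy
  have hD := dl_pos hd
  have h1 := WHP.dot_eq (tt y) P y
  rw [ho, WHP.be_self hY.ne', WHP.ga_self hY.ne', ← si_dl y] at h1
  rw [WHP.dot_eq (tt y) P w]
  have h2 : ((P.a : ℝ) + P.b * tt y + P.c * tt y ^ 2) = -(P.c * (si y * dl y / y.a)) / y.a := by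
    rw [eq_div_iff hY.ne']
    push_cast at h1
    linarith
  rw [h2]
  unfold ca cb cc zz dd der
  field_simp
  ring

theorem cross_frame {y P w : V3} {j : ℤ} (hy : 0 < y.a) (hd : det y ≠ 0)
    (h : cross y w = sm j P) :
    (j : ℝ) * dd y P = dl y * (si y * ca y w - cc y w) ∧ (j : ℝ) * P.c = dl y * cb y w := by
  have hY : (0 : ℝ) < y.a := by exact_mod_cast hy
  have hD := dl_pos hd
  have h1 := WHP.cross_c (tt y) y w
  have h2 := WHP.cross_der (tt y) y w
  rw [WHP.be_self hY.ne'] at h1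
  rw [WHP.ga_self hY.ne', ← si_dl y] at h2
  rw [h] at h1 h2
  have e1 : ((sm j P).c : ℝ) = j * P.c := by
    show ((j * P.c + 0 * P.c : ℤ) : ℝ) = j * P.c
    push_cast; ring
  have e2 : ((sm j P).b : ℝ) = j * P.b := by
    show ((j * P.b + 0 * P.b : ℤ) : ℝ) = j * P.b
    push_cast; ring
  rw [e1] at h1 h2
  rw [e2] at h2
  constructor
  · unfold dd der ca cc zz
    have : (j : ℝ) * (P.b + 2 * P.c * tt y) = -(y.a * ga (tt y) w - si y * dl y / y.a * w.a) := by
      rw [← h2]; ring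
    rw [this]
    field_simp
    ring
  · unfold cb zz
    rw [h1]
    field_simp
    ring

theorem GG_mul {y P : V3} (hd : det y ≠ 0) (hdd : dd y P ≠ 0) :
    GG y P * (dl y * |dd y P|) = y.a := by
  unfold GG
  have := dl_pos hd
  have := abs_pos.mpr hdd
  field_simp

/-! ### nodes -/

theorem dd_ne {y P : V3} (hG : 1 ≤ GG y P) : dd y P ≠ 0 := by
  intro h
  have : GG y P = 0 := by
    unfold GG
    rw [h]
    simp
  linarith

theorem bb_mul {y P : V3} (hd : det y ≠ 0) : |dd y P| = bb y P * dl y := by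
  unfold bb
  have := dl_pos hd
  field_simp

theorem zz_mul {y P : V3} (hy : 0 < y.a) (hd : det y ≠ 0) (hG : 1 ≤ GG y P) :
    zz y * |dd y P| * GG y P = 1 := by
  have h1 := GG_mul hd (dd_ne hG)
  have hY : (0 : ℝ) < y.a := by exact_mod_cast hy
  unfold zz
  have : dl y / y.a * |dd y P| * GG y P = (GG y P * (dl y * |dd y P|)) / y.a := by ring
  rw [this, h1]
  exact div_self hY.ne'

theorem bb_one {β : ℝ} {y P : V3} (hβ : 0 < β) (h : Nd β y P) (hG : 1 ≤ GG y P) :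
    1 ≤ bb y P :=
  (Real.one_le_rpow hG (by positivity)).trans h.b1

/-- the determinant of a vector of the plane `P` -/
theorem det_bound {β : ℝ} {y P w : V3} {j : ℤ} (hβ : 0 < β) (h : Nd β y P) (hG : 1 ≤ GG y P)
    (hw : cross y w = sm j P) :
    |(det w : ℝ)| ≤ dl y * ((|(j : ℝ)| * bb y P + |cc y w|) * |cc y w|) +
      4 * |(j : ℝ)| ^ 2 / (GG y P * dl y) ^ 2 := by
  have hy := h.ya
  have hd := h.dt
  have hD := dl_pos hd
  have hG0 : 0 < GG y P := by linarith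
  have hY : (0 : ℝ) < y.a := by exact_mod_cast hy
  obtain ⟨h1, h2⟩ := cross_frame hy hd hw
  have hbb := bb_mul (P := P) hd
  have hb0 : 0 ≤ bb y P := by
    have := bb_one hβ h hG
    linarith
  have hs := si_sqR hd
  have hsa := si_abs hd
  -- ca
  have hca : |ca y w| ≤ |(j : ℝ)| * bb y P + |cc y w| := by
    have e1 : (si y : ℝ) * ca y w = j * dd y P / dl y + cc y w := by
      rw [h1]
      field_simp
      ring
    have e2 : |(si y : ℝ) * ca y w| = |ca y w| := by rw [abs_mul, hsa, one_mul]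
    rw [← e2, e1]
    refine (abs_add_le _ _).trans ?_
    rw [abs_div, abs_mul, hbb, abs_of_pos hD]
    apply le_of_eq
    field_simp
  have hcb : zz y ^ 2 * cb y w ^ 2 ≤ 4 * |(j : ℝ)| ^ 2 / (GG y P * dl y) ^ 2 := by
    have e1 : cb y w = j * P.c / dl y := by
      rw [h2]
      field_simp
    have e2 : |cb y w| ≤ |(j : ℝ)| * (2 * |dd y P|) / dl y := by
      rw [e1, abs_div, abs_mul, abs_of_pos hD]
      gcongr
      exact h.sb
    have e3 : zz y * |cb y w| ≤ 2 * |(j : ℝ)| / (GG y P * dl y) := by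
      have hz := zz_mul hy hd hG
      have hz0 := zz_pos hy hd
      calc zz y * |cb y w| ≤ zz y * (|(j : ℝ)| * (2 * |dd y P|) / dl y) := by gcongr
        _ = (zz y * |dd y P| * GG y P) * (2 * |(j : ℝ)| / (GG y P * dl y)) := by
            field_simp
        _ = 2 * |(j : ℝ)| / (GG y P * dl y) := by rw [hz, one_mul]
    have e4 : zz y ^ 2 * cb y w ^ 2 = (zz y * |cb y w|) ^ 2 := by
      rw [mul_pow, sq_abs]
    have e5 : 4 * |(j : ℝ)| ^ 2 / (GG y P * dl y) ^ 2 = (2 * |(j : ℝ)| / (GG y P * dl y)) ^ 2 := by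
      rw [div_pow]
      congr 1
      ring
    rw [e4, e5]
    have hz0 := zz_pos hy hd
    gcongr
  rw [det_frame hy hd w]
  refine (abs_sub _ _).trans ?_
  have e6 : |zz y ^ 2 * cb y w ^ 2| = zz y ^ 2 * cb y w ^ 2 := abs_of_nonneg (by positivity)
  rw [e6, abs_mul, abs_mul, abs_of_pos hD]
  have e7 : dl y * |ca y w| * |cc y w| ≤ dl y * ((|(j : ℝ)| * bb y P + |cc y w|) * |cc y w|) := by
    rw [mul_assoc]
    gcongr
  linarith

/-- `θ = cc y wm` has no good rational approximation -/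
theorem no_approx {β : ℝ} (hβ : 0 < β) (hβ1 : β ≤ 1 / 10000) : ∃ G0 : ℝ, 1 ≤ G0 ∧
    ∀ (y P wm v R : V3), Nd β y P → G0 ≤ GG y P → Bas y P wm v R → ∀ j p : ℤ, j ≠ 0 →
      |(j : ℝ)| ≤ GG y P ^ (2 + 1 / 200 : ℝ) →
      |(j : ℝ)| * |(p : ℝ) - j * cc y wm| ≤ GG y P ^ (-2 + 1 / 100 + 10 * β) → False := by
  refine ⟨7 ^ 50, by norm_num, ?_⟩
  intro y P wm v R h hG hB j p hj hj1 hj2
  have hy := h.ya
  have hd := h.dt
  have hD := dl_pos hd
  have hD1 := dl_one hd
  set G := GG y P with hGd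
  have hG7 : (7 : ℝ) ≤ G := by
    refine le_trans ?_ hG
    norm_num
  have hG1 : 1 ≤ G := by linarith
  have hG0 : 0 < G := by linarith
  have hs := si_sqR hd
  have hb := bb_one hβ h (hGd ▸ hG1)
  -- the vector
  set w : V3 := lin j wm (-(p * si y)) y with hw
  have hcr : cross y w = sm j P := by
    rw [hw, cross_lin, cross_self, hB.hm]
    unfold sm
    apply V3.ext
    · show j * P.a + _ * 0 = j * P.a + 0 * P.a
      ring
    · show j * P.b + _ * 0 = j * P.b + 0 * P.b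
      ring
    · show j * P.c + _ * 0 = j * P.c + 0 * P.c
      ring
  have hccw : cc y w = j * cc y wm - p := by
    rw [hw, cc_lin, cc_self hy hd]
    push_cast
    linear_combination -(p : ℝ) * hs
  have hccw' : |cc y w| = |(p : ℝ) - j * cc y wm| := by
    rw [hccw, abs_sub_comm]
  rw [← hccw'] at hj2
  have hja : 1 ≤ |(j : ℝ)| := by
    have : (1 : ℤ) ≤ |j| := Int.one_le_abs hj
    exact_mod_cast this
  have hc0 := abs_nonneg (cc y w)
  have hcs : |cc y w| ≤ G ^ (-2 + 1 / 100 + 10 * β) := by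
    refine le_trans ?_ hj2
    nlinarith
  have hc1 : |cc y w| ≤ 1 / 2 := by
    refine hcs.trans ?_
    calc G ^ (-2 + 1 / 100 + 10 * β) ≤ G ^ (-1 : ℝ) :=
          Real.rpow_le_rpow_of_exponent_le hG1 (by linarith)
      _ = 1 / G := by rw [Real.rpow_neg_one, one_div]
      _ ≤ 1 / 2 := by
          apply one_div_le_one_div_of_le (by norm_num)
          linarith
  have hW := h.W w j hj hcr hc1
  have hdet := det_bound hβ h (hGd ▸ hG1) hcr
  rw [← hGd] at hW hdet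
  rw [bb_mul hd] at hW
  -- bound for det
  have hE0 : 0 < G ^ (-2 + 1 / 100 + 10 * β) := Real.rpow_pos_of_pos hG0 _
  have hdet2 : |(det w : ℝ)| ≤ 6 * (bb y P * dl y) * G ^ (-2 + 1 / 100 + 10 * β) := by
    have t1 : (|(j : ℝ)| * bb y P + |cc y w|) * |cc y w| ≤
        2 * bb y P * G ^ (-2 + 1 / 100 + 10 * β) := by
      have : |(j : ℝ)| * bb y P + |cc y w| ≤ 2 * (|(j : ℝ)| * bb y P) := by
        nlinarith
      calc (|(j : ℝ)| * bb y P + |cc y w|) * |cc y w| ≤ (2 * (|(j : ℝ)| * bb y P)) * |cc y w| := by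
            gcongr
        _ = 2 * bb y P * (|(j : ℝ)| * |cc y w|) := by ring
        _ ≤ 2 * bb y P * G ^ (-2 + 1 / 100 + 10 * β) := by gcongr
    have t2 : 4 * |(j : ℝ)| ^ 2 / (G * dl y) ^ 2 ≤
        4 * (bb y P * dl y) * G ^ (-2 + 1 / 100 + 10 * β) := by
      have hjj : |(j : ℝ)| ^ 2 ≤ G ^ (4 + 1 / 100 : ℝ) := by
        calc |(j : ℝ)| ^ 2 ≤ (G ^ (2 + 1 / 200 : ℝ)) ^ 2 := by gcongr
          _ = G ^ (4 + 1 / 100 : ℝ) := by
              rw [← Real.rpow_natCast, ← Real.rpow_mul hG0.le]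
              norm_num
      have hbig : G ^ (20 : ℝ) ≤ dl y := by
        have := h.big
        rw [← hGd] at this
        have e : G ^ (20 : ℝ) = G ^ (20 : ℕ) := by
          rw [← Real.rpow_natCast]
          norm_num
        rw [e]
        exact this
      have hden : G ^ (2 : ℝ) * G ^ (20 : ℝ) * 1 ≤ (G * dl y) ^ 2 := by
        have e2 : G ^ (2 : ℝ) = G ^ 2 := by
          rw [← Real.rpow_natCast]
          norm_num
        rw [e2, mul_pow, sq (dl y), mul_assoc]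
        gcongr
      have hnum : G ^ (4 + 1 / 100 : ℝ) ≤
          (G ^ (2 : ℝ) * G ^ (20 : ℝ) * 1) * G ^ (-2 + 1 / 100 + 10 * β) := by
        rw [mul_one, ← Real.rpow_add hG0, ← Real.rpow_add hG0]
        exact Real.rpow_le_rpow_of_exponent_le hG1 (by linarith)
      have hpos : 0 < (G * dl y) ^ 2 := by positivity
      rw [div_le_iff₀ hpos]
      have hbd : 1 ≤ bb y P * dl y := one_le_mul_of_one_le_of_one_le hb hD1
      calc 4 * |(j : ℝ)| ^ 2 ≤ 4 * G ^ (4 + 1 / 100 : ℝ) := by gcongr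
        _ ≤ 4 * ((G ^ (2 : ℝ) * G ^ (20 : ℝ) * 1) * G ^ (-2 + 1 / 100 + 10 * β)) := by gcongr
        _ ≤ 4 * ((G * dl y) ^ 2 * G ^ (-2 + 1 / 100 + 10 * β)) := by gcongr
        _ = 4 * 1 * G ^ (-2 + 1 / 100 + 10 * β) * (G * dl y) ^ 2 := by ring
        _ ≤ 4 * (bb y P * dl y) * G ^ (-2 + 1 / 100 + 10 * β) * (G * dl y) ^ 2 := by gcongr
    calc |(det w : ℝ)| ≤ dl y * ((|(j : ℝ)| * bb y P + |cc y w|) * |cc y w|) +
        4 * |(j : ℝ)| ^ 2 / (G * dl y) ^ 2 := hdet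
      _ ≤ dl y * (2 * bb y P * G ^ (-2 + 1 / 100 + 10 * β)) +
          4 * (bb y P * dl y) * G ^ (-2 + 1 / 100 + 10 * β) := by gcongr
      _ = 6 * (bb y P * dl y) * G ^ (-2 + 1 / 100 + 10 * β) := by ring
  -- bound for Phi
  have hPhi : Phi G |(j : ℝ)| ≤ G ^ (1965 / 1000 : ℝ) := by
    unfold Phi
    apply max_le
    · exact Real.rpow_le_rpow_of_exponent_le hG1 (by norm_num)
    · calc |(j : ℝ)| ^ (49 / 50 : ℝ) ≤ (G ^ (2 + 1 / 200 : ℝ)) ^ (49 / 50 : ℝ) :=
          Real.rpow_le_rpow (abs_nonneg _) hj1 (by norm_num)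
        _ = G ^ ((2 + 1 / 200) * (49 / 50) : ℝ) := by rw [← Real.rpow_mul hG0.le]
        _ ≤ G ^ (1965 / 1000 : ℝ) := Real.rpow_le_rpow_of_exponent_le hG1 (by norm_num)
  have hPhi0 : 0 ≤ Phi G |(j : ℝ)| := by
    unfold Phi
    exact le_max_of_le_left (Real.rpow_nonneg hG0.le _)
  have hbd : 0 < bb y P * dl y := by positivity
  have hfin : bb y P * dl y ≤ bb y P * dl y * (6 * G ^ (-(1 / 50) : ℝ)) := by
    calc bb y P * dl y ≤ |(det w : ℝ)| * Phi G |(j : ℝ)| := hW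
      _ ≤ (6 * (bb y P * dl y) * G ^ (-2 + 1 / 100 + 10 * β)) * G ^ (1965 / 1000 : ℝ) := by
          gcongr
      _ = bb y P * dl y * (6 * (G ^ (-2 + 1 / 100 + 10 * β) * G ^ (1965 / 1000 : ℝ))) := by ring
      _ ≤ bb y P * dl y * (6 * G ^ (-(1 / 50) : ℝ)) := by
          rw [← Real.rpow_add hG0]
          have : G ^ (-2 + 1 / 100 + 10 * β + 1965 / 1000) ≤ G ^ (-(1 / 50) : ℝ) :=
            Real.rpow_le_rpow_of_exponent_le hG1 (by linarith)
          gcongr
  have h6 : 1 ≤ 6 * G ^ (-(1 / 50) : ℝ) := by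
    by_contra hcon
    push Not at hcon
    nlinarith
  have h7 : (7 : ℝ) ≤ G ^ (1 / 50 : ℝ) := by
    calc (7 : ℝ) = ((7 : ℝ) ^ (50 : ℕ)) ^ (1 / 50 : ℝ) := by
          rw [← Real.rpow_natCast, ← Real.rpow_mul (by norm_num)]
          norm_num
      _ ≤ G ^ (1 / 50 : ℝ) := Real.rpow_le_rpow (by positivity) hG (by norm_num)
  rw [Real.rpow_neg hG0.le] at h6
  have h8 : (G ^ (1 / 50 : ℝ))⁻¹ ≤ 7⁻¹ := inv_anti₀ (by norm_num) h7
  nlinarith

/-- the integers attached to a bad plane -/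
theorem bad_data {β : ℝ} (hβ : 0 < β) (hβ1 : β ≤ 1 / 10000) {B : ℝ} {y P wm v R : V3}
    (h : Nd β y P) (hG1 : 1 ≤ GG y P) (hG5 : 5 ≤ GG y P ^ β)
    (hB2 : B ≤ GG y P ^ (β / 100)) (hB : Bas y P wm v R) {b0 a0 : ℤ} (hb0 : 1 ≤ b0)
    (hb1 : (b0 : ℝ) ≤ B) (hbad : ¬ Vpl β y P (lin a0 P b0 R)) :
    ∃ m e p : ℤ, m ≠ 0 ∧ |(m : ℝ)| ≤ GG y P ^ (4 * (β / 100)) ∧
      |(e : ℝ)| ≤ GG y P ^ (2 : ℝ) ∧
      |(p : ℝ) + m * cc y wm - e * (cc y wm * a0 + b0 * cc y v)| ≤ GG y P ^ (-3 + 8 * β) := by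
  have hy := h.ya
  have hd := h.dt
  have hD := dl_pos hd
  set G := GG y P with hGd
  have hG0 : 0 < G := by linarith
  have hs := si_sqR hd
  unfold Vpl at hbad
  rw [← hGd] at hbad
  push Not at hbad
  obtain ⟨w, hca, hcb, hcc, hm0, hm⟩ := hbad
  obtain ⟨x, l, hgen⟩ := hB.gen w
  set m : ℤ := dot (lin a0 P b0 R) w with hmd
  set e : ℤ := dot P w with hed
  -- dot R w = - x
  have hRw : dot R w = -x := by
    have hPm : dot P wm = 0 := by
      rw [← hB.hm]
      exact WHP.dot_cross_right y wm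
    have h1 : dot R y = 0 := by
      rw [hB.hR]
      exact WHP.dot_cross_left y v
    have h2 : dot R v = 0 := by
      rw [hB.hR]
      exact WHP.dot_cross_right y v
    have h3 : dot R wm = -1 := by
      have h4 : dot (cross y v) wm = -dot (cross y wm) v := by
        simp only [dot, cross]
        ring
      rw [hB.hR, h4, hB.hm, hB.hv]
    rw [hgen, WHP.dot_lin, WHP.dot_lin, h1, h2, h3]
    ring
  have hmx : m = a0 * e - b0 * x := by
    have : m = a0 * dot P w + b0 * dot R w := by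
      rw [hmd]
      simp only [dot, lin]
      ring
    rw [this, hRw]
    ring
  -- cc w
  have hccw : cc y w = e * cc y v + x * cc y wm + l * si y := by
    rw [hgen, cc_lin, cc_lin, cc_self hy hd]
    push_cast
    ring
  refine ⟨m, e, -(b0 * l * si y), hm0, hm, ?_, ?_⟩
  · -- size of e
    have hz := zz_mul hy hd hG1
    have hz0 := zz_pos hy hd
    have hdot := dot_frame hy hd h.orth w
    have hsa := si_abs hd
    have hGb : (1 : ℝ) ≤ G ^ (3 - β) := Real.one_le_rpow hG1 (by linarith)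
    have hcc1 : |cc y w| ≤ G ^ (3 - β) := by
      refine hcc.trans ?_
      exact Real.rpow_le_rpow_of_exponent_le hG1 (by linarith)
    have e1 : |(e : ℝ)| ≤ zz y * |dd y P| * (5 * G ^ (3 - β)) := by
      rw [hdot, abs_mul, abs_of_pos hz0, mul_assoc]
      refine mul_le_mul_of_nonneg_left ?_ hz0.le
      refine (abs_add_le _ _).trans ?_
      have e2 : |cc y w - si y * ca y w| ≤ 2 * G ^ (3 - β) := by
        refine (abs_sub _ _).trans ?_
        rw [abs_mul, hsa, one_mul]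
        linarith
      have e3 : |(P.c : ℝ) * (cc y w - si y * ca y w)| ≤ (2 * |dd y P|) * (2 * G ^ (3 - β)) := by
        rw [abs_mul]
        exact mul_le_mul h.sb e2 (abs_nonneg _) (by positivity)
      have e4 : |dd y P * cb y w| ≤ |dd y P| * G ^ (3 - β) := by
        rw [abs_mul]
        exact mul_le_mul_of_nonneg_left hcb (abs_nonneg _)
      calc |dd y P * cb y w| + |(P.c : ℝ) * (cc y w - si y * ca y w)|
          ≤ |dd y P| * G ^ (3 - β) + (2 * |dd y P|) * (2 * G ^ (3 - β)) := add_le_add e4 e3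
        _ = |dd y P| * (5 * G ^ (3 - β)) := by ring
    have e5 : zz y * |dd y P| = G⁻¹ := by
      exact eq_inv_of_mul_eq_one_left hz
    rw [e5] at e1
    refine e1.trans ?_
    calc G⁻¹ * (5 * G ^ (3 - β)) ≤ G⁻¹ * (G ^ β * G ^ (3 - β)) := by gcongr
      _ = G ^ (-1 : ℝ) * (G ^ β * G ^ (3 - β)) := by rw [Real.rpow_neg_one]
      _ = G ^ (2 : ℝ) := by
          rw [← Real.rpow_add hG0, ← Real.rpow_add hG0]
          congr 1
          ring
  · have hmxR : (m : ℝ) = a0 * e - b0 * x := by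
      rw [hmx]
      push_cast
      ring
    have key : ((-(b0 * l * si y) : ℤ) : ℝ) + m * cc y wm -
        e * (cc y wm * a0 + b0 * cc y v) = -(b0 * cc y w) := by
      rw [hccw, hmxR]
      push_cast
      ring
    rw [key, abs_neg, abs_mul]
    have hb0' : |(b0 : ℝ)| ≤ G ^ (β / 100) := by
      have : (1 : ℝ) ≤ b0 := by exact_mod_cast hb0
      rw [abs_of_pos (by linarith)]
      linarith
    calc |(b0 : ℝ)| * |cc y w| ≤ G ^ (β / 100) * G ^ (-3 + 7 * β) :=
          mul_le_mul hb0' hcc (abs_nonneg _) (Real.rpow_nonneg hG0.le _)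
      _ ≤ G ^ (-3 + 8 * β) := by
          rw [← Real.rpow_add hG0]
          exact Real.rpow_le_rpow_of_exponent_le hG1 (by linarith)

/-- powers of large numbers -/
theorem large {K c G : ℝ} (hK : 1 ≤ K) (hc : 0 < c) (hG : K ^ (1 / c) ≤ G) : K ≤ G ^ c := by
  have hK0 : 0 ≤ K := by linarith
  calc K = (K ^ (1 / c)) ^ c := by
        rw [← Real.rpow_mul hK0, one_div, inv_mul_cancel₀ hc.ne', Real.rpow_one]
    _ ≤ G ^ c := Real.rpow_le_rpow (Real.rpow_nonneg hK0 _) hG hc.le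

end HV

open HV
open WHP (V3 det be ga dot cross lin tt)

/-- **Block HV.** -/
theorem m_HV : Pool.Agent.UHJ.Stmt_INV2 → Stmt_HV := by
  intro hI
  obtain ⟨s1, A0, hs1, hs2, hA0, H⟩ := hI 6 (1 / 200) (by norm_num) (by norm_num) (by norm_num)
  refine ⟨s1 / 2, s1 / 100, by positivity, by positivity, ?_⟩
  intro β hβ hβs
  have hβ1 : β ≤ 1 / 10000 := by linarith
  obtain ⟨G1, hG11, hN⟩ := no_approx hβ hβ1
  refine ⟨max G1 (max (5 ^ (1 / (β / 100))) (max (A0 ^ (1 / (1 / 2 : ℝ)))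
    (27 ^ (1 / (s1 / 8))))), ?_⟩
  intro B y P wm v R h hG hB1 hB2 hB b0 F hb0 hb1 hF
  have hy := h.ya
  have hd := h.dt
  have hD := dl_pos hd
  set G := GG y P with hGd
  have hGa : G1 ≤ G := (le_max_left _ _).trans hG
  have hGb : (5 : ℝ) ≤ G ^ (β / 100) :=
    large (by norm_num) (by positivity)
      (((le_max_left _ _).trans (le_max_right _ _)).trans hG)
  have hGc : A0 ≤ G ^ (1 / 2 : ℝ) :=
    large hA0 (by norm_num)
      (((le_max_left _ _).trans ((le_max_right _ _).trans (le_max_right _ _))).trans hG)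
  have hGe : (27 : ℝ) ≤ G ^ (s1 / 8) :=
    large (by norm_num) (by positivity)
      (((le_max_right _ _).trans ((le_max_right _ _).trans (le_max_right _ _))).trans hG)
  have hG1 : 1 ≤ G := hG11.trans hGa
  have hG0 : 0 < G := by linarith
  have hG5 : 5 ≤ G ^ β :=
    hGb.trans (Real.rpow_le_rpow_of_exponent_le hG1 (by linarith))
  have hbb1 := bb_one hβ h (hGd ▸ hG1)
  have hbb0 : 0 < bb y P := by linarith
  set A := AA β B y P with hAd
  have hAe : A = B * G ^ (1 + β / 100) / bb y P := rfl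
  have hB0 : 0 < B := by linarith
  have hA0' : 0 < A := by
    rw [hAe]
    have := Real.rpow_pos_of_pos hG0 (1 + β / 100)
    positivity
  -- A ≤ G
  have hAG : A ≤ G := by
    rw [hAe, div_le_iff₀ hbb0]
    have hb := h.b1
    rw [← hGd] at hb
    calc B * G ^ (1 + β / 100) ≤ G ^ (β / 100) * G ^ (1 + β / 100) := by gcongr
      _ = G ^ (β / 100 + (1 + β / 100)) := by rw [← Real.rpow_add hG0]
      _ ≤ G ^ (1 + β / 4) := Real.rpow_le_rpow_of_exponent_le hG1 (by linarith)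
      _ = G * G ^ (β / 4) := by rw [Real.rpow_add hG0, Real.rpow_one]
      _ ≤ G * bb y P := by gcongr
  -- A / (2B) ≥ G ^ (1 - 2 β)
  have hAB : G ^ (1 - 2 * β) ≤ A / (2 * B) := by
    have e1 : A / (2 * B) = G ^ (1 + β / 100) / (2 * bb y P) := by
      rw [hAe]
      field_simp
    rw [e1, le_div_iff₀ (by positivity)]
    have hb := h.b2
    rw [← hGd] at hb
    calc G ^ (1 - 2 * β) * (2 * bb y P) ≤ G ^ (1 - 2 * β) * (G ^ (β / 100) * G ^ (2 * β)) := by
          gcongr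
          linarith
      _ = G ^ (1 + β / 100) := by
          rw [← Real.rpow_add hG0, ← Real.rpow_add hG0]
          congr 1
          ring
  have hGh : 1 ≤ G ^ (1 / 2 : ℝ) := hA0.trans hGc
  have hG2b : G ^ (1 / 2 : ℝ) ≤ G ^ (1 - 2 * β) :=
    Real.rpow_le_rpow_of_exponent_le hG1 (by linarith)
  set θ := cc y wm with hθ
  set ρ := (b0 : ℝ) * cc y v with hρ
  -- data
  have hdat : ∀ a : ℤ, ∃ (k : ℕ) (m e p : ℤ), a ∈ F → ((2 : ℝ) ^ k ≤ A / a ∧
      A / a < (2 : ℝ) ^ (k + 1) ∧ m ≠ 0 ∧ |(m : ℝ)| ≤ G ^ (4 * (β / 100)) ∧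
      |(e : ℝ)| ≤ G ^ (2 : ℝ) ∧ |(p : ℝ) + m * θ - e * (θ * a + ρ)| ≤ G ^ (-3 + 8 * β)) := by
    intro a
    by_cases ha : a ∈ F
    · obtain ⟨h1, h2, h3⟩ := hF a ha
      have ha0 : (0 : ℝ) < a := lt_of_lt_of_le (by positivity) h1
      obtain ⟨k, hk1, hk2⟩ := exists_nat_pow_near (x := A / a) (y := (2 : ℝ))
        ((one_le_div ha0).mpr h2) (by norm_num)
      obtain ⟨m, e, p, hm⟩ := bad_data hβ hβ1 h (hGd ▸ hG1) (hGd ▸ hG5) hB2 hB hb0 hb1 h3
      exact ⟨k, m, e, p, fun _ => ⟨hk1, hk2, hm⟩⟩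
    · exact ⟨0, 0, 0, 0, fun h => absurd h ha⟩
  choose k m e p hd4 using hdat
  have ha0 : ∀ a ∈ F, (0 : ℝ) < a := fun a ha => lt_of_lt_of_le (by positivity) (hF a ha).1
  -- the classes
  set M : ℤ := ⌊G ^ (4 * (β / 100))⌋ with hM
  set T : Finset (ℕ × ℤ × ℤ) :=
    Finset.range (⌊2 * B⌋₊ + 1) ×ˢ (Finset.Icc (-M) M ×ˢ Finset.Icc (-1) 1) with hT
  have hmaps : ∀ a ∈ F, (k a, m a, Int.sign (e a)) ∈ T := by
    intro a ha
    obtain ⟨h1, h2, h3, h4, h5, h6⟩ := hd4 a ha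
    rw [hT]
    simp only [Finset.mem_product, Finset.mem_range, Finset.mem_Icc]
    refine ⟨?_, ?_, ?_⟩
    · have h7 : A / a ≤ 2 * B := by
        rw [div_le_iff₀ (ha0 a ha)]
        have := (hF a ha).1
        rw [div_le_iff₀ (by positivity)] at this
        linarith
      have h8 : ((k a : ℕ) : ℝ) ≤ 2 * B := by
        have : ((k a : ℕ) : ℝ) < (2 : ℝ) ^ (k a) := by exact_mod_cast Nat.lt_two_pow_self
        linarith
      exact Nat.lt_succ_of_le (Nat.le_floor h8)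
    · have h9 : |m a| ≤ M := by
        rw [hM, Int.le_floor, Int.cast_abs]
        exact h4
      exact abs_le.mp h9
    · rcases lt_trichotomy (e a) 0 with h | h | h
      · rw [Int.sign_eq_neg_one_of_neg h]; norm_num
      · rw [h]; norm_num
      · rw [Int.sign_eq_one_of_pos h]; norm_num
  have hTc : (T.card : ℝ) ≤ 27 * (B * G ^ (4 * (β / 100))) := by
    rw [hT, Finset.card_product, Finset.card_product, Finset.card_range, Int.card_Icc,
      Int.card_Icc]
    have h1 : ((⌊2 * B⌋₊ + 1 : ℕ) : ℝ) ≤ 3 * B := by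
      push_cast
      have := Nat.floor_le (show 0 ≤ 2 * B by positivity)
      linarith
    have hM1 : (M : ℝ) ≤ G ^ (4 * (β / 100)) := Int.floor_le _
    have hM2 : 1 ≤ G ^ (4 * (β / 100)) := Real.one_le_rpow hG1 (by positivity)
    have hM0 : 0 ≤ M := by
      rw [hM]
      exact Int.floor_nonneg.mpr (by linarith)
    have h2 : (((M + 1 - -M).toNat : ℕ) : ℝ) ≤ 3 * G ^ (4 * (β / 100)) := by
      have e1 : (((M + 1 - -M).toNat : ℕ) : ℤ) = M + 1 - -M := Int.toNat_of_nonneg (by omega)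
      have e2 : (((M + 1 - -M).toNat : ℕ) : ℝ) = 2 * M + 1 := by
        have : ((((M + 1 - -M).toNat : ℕ) : ℤ) : ℝ) = ((M + 1 - -M : ℤ) : ℝ) := by rw [e1]
        push_cast at this
        rw [this]
        ring
      rw [e2]
      linarith
    have h3 : (1 + 1 - -1 : ℤ).toNat = 3 := rfl
    rw [h3, Nat.cast_mul, Nat.cast_mul]
    calc ((⌊2 * B⌋₊ + 1 : ℕ) : ℝ) * ((((M + 1 - -M).toNat : ℕ) : ℝ) * ((3 : ℕ) : ℝ))
        ≤ (3 * B) * ((3 * G ^ (4 * (β / 100))) * 3) := by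
          rw [show ((3 : ℕ) : ℝ) = 3 from by norm_num]
          gcongr
      _ = 27 * (B * G ^ (4 * (β / 100))) := by ring
  have hT2 : (T.card : ℝ) * A ^ (1 - s1) ≤ A ^ (1 - s1 / 2) := by
    have h1 : (T.card : ℝ) ≤ A ^ (s1 / 2) := by
      have hGA : G ^ (1 / 2 : ℝ) ≤ A := by
        refine hG2b.trans (hAB.trans ?_)
        exact div_le_self hA0'.le (by linarith)
      calc (T.card : ℝ) ≤ 27 * (B * G ^ (4 * (β / 100))) := hTc
        _ ≤ G ^ (s1 / 8) * (G ^ (β / 100) * G ^ (4 * (β / 100))) := by gcongr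
        _ = G ^ (s1 / 8 + (β / 100 + 4 * (β / 100))) := by
            rw [← Real.rpow_add hG0, ← Real.rpow_add hG0]
        _ ≤ G ^ (1 / 2 * (s1 / 2)) := Real.rpow_le_rpow_of_exponent_le hG1 (by linarith)
        _ = (G ^ (1 / 2 : ℝ)) ^ (s1 / 2) := by rw [← Real.rpow_mul hG0.le]
        _ ≤ A ^ (s1 / 2) := Real.rpow_le_rpow (by positivity) hGA (by positivity)
    calc (T.card : ℝ) * A ^ (1 - s1) ≤ A ^ (s1 / 2) * A ^ (1 - s1) := by gcongr
      _ = A ^ (1 - s1 / 2) := by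
          rw [← Real.rpow_add hA0']
          congr 1
          ring
  refine le_trans ?_ hT2
  rw [Finset.card_eq_sum_card_fiberwise hmaps]
  push_cast
  rw [← nsmul_eq_mul]
  refine Finset.sum_le_card_nsmul T _ _ ?_
  rintro ⟨k0, m0, σ⟩ _
  -- one class
  set S := F.filter (fun a => (k a, m a, Int.sign (e a)) = (k0, m0, σ)) with hS
  by_contra hcon
  push Not at hcon
  have hSF : ∀ a ∈ S, a ∈ F ∧ k a = k0 ∧ m a = m0 ∧ Int.sign (e a) = σ := by
    intro a ha
    rw [hS, Finset.mem_filter, Prod.mk.injEq, Prod.mk.injEq] at ha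
    exact ha
  have hScard : (0 : ℝ) < S.card := lt_of_le_of_lt (Real.rpow_nonneg hA0'.le _) hcon
  obtain ⟨a1, ha1⟩ : S.Nonempty := by
    rw [← Finset.card_pos]
    exact_mod_cast hScard
  obtain ⟨ha1F, hk1, hm1, hσ1⟩ := hSF a1 ha1
  obtain ⟨q1, q2, q3, q4, q5, q6⟩ := hd4 a1 ha1F
  rw [hm1] at q3 q4 q6
  have hε : |(m0 : ℝ)| * G ^ (-3 + 8 * β) ≤ G ^ (-2 + 1 / 100 + 10 * β) := by
    calc |(m0 : ℝ)| * G ^ (-3 + 8 * β) ≤ G ^ (4 * (β / 100)) * G ^ (-3 + 8 * β) := by gcongr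
      _ = G ^ (4 * (β / 100) + (-3 + 8 * β)) := by rw [← Real.rpow_add hG0]
      _ ≤ G ^ (-2 + 1 / 100 + 10 * β) := Real.rpow_le_rpow_of_exponent_le hG1 (by linarith)
  by_cases hσ0 : σ = 0
  · -- e = 0
    rw [hσ0] at hσ1
    have he0 : e a1 = 0 := Int.sign_eq_zero_iff_zero.mp hσ1
    rw [he0] at q6
    refine hN y P wm v R h (hGd ▸ hGa) hB m0 (-(p a1)) q3 ?_ ?_
    · refine q4.trans ?_
      exact Real.rpow_le_rpow_of_exponent_le hG1 (by linarith)
    · refine le_trans ?_ hε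
      refine mul_le_mul_of_nonneg_left ?_ (abs_nonneg _)
      have : |((-(p a1) : ℤ) : ℝ) - m0 * cc y wm| = |(p a1 : ℝ) + m0 * θ - ((0 : ℤ) : ℝ) * (θ * a1 + ρ)| := by
        rw [← abs_neg, ← hθ]
        push_cast
        congr 1
        ring
      rw [this]
      exact q6
  · have hA1 : a1 * (2 : ℝ) ^ k0 ≤ A := by
      rw [hk1] at q1
      rw [le_div_iff₀ (ha0 a1 ha1F)] at q1
      linarith
    set A1 := A / 2 ^ k0 with hA1d
    have h2k : (0 : ℝ) < 2 ^ k0 := by positivity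
    have hA1l : G ^ (1 - 2 * β) ≤ A1 := by
      refine hAB.trans ((hF a1 ha1F).1.trans ?_)
      rw [hA1d, le_div_iff₀ h2k]
      exact hA1
    have hA1u : A1 ≤ A := by
      rw [hA1d]
      exact div_le_self hA0'.le (one_le_pow₀ (by norm_num))
    have hA1pos : 0 < A1 := lt_of_lt_of_le (Real.rpow_pos_of_pos hG0 _) hA1l
    have hA1h : G ^ (1 / 2 : ℝ) ≤ A1 := hG2b.trans hA1l
    have hA1one : 1 ≤ A1 := hGh.trans hA1h
    have hA1G : A1 ≤ G := hA1u.trans hAG
    have hσ' : (σ : ℝ) * σ = 1 := by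
      rcases lt_trichotomy (e a1) 0 with h | h | h
      · rw [← hσ1, Int.sign_eq_neg_one_of_neg h]; norm_num
      · exfalso
        apply hσ0
        rw [← hσ1, h]; rfl
      · rw [← hσ1, Int.sign_eq_one_of_pos h]; norm_num
    have hσa : |(σ : ℝ)| = 1 := by
      have h2 : |(σ : ℝ)| * |(σ : ℝ)| = 1 := by rw [← abs_mul, hσ', abs_one]
      nlinarith [abs_nonneg (σ : ℝ)]
    have hH := H A1 θ ρ (σ * (m0 * θ)) (G ^ (2 : ℝ)) (G ^ (-3 + 8 * β)) S
      (fun a => σ * e a) (fun a => σ * p a) (hGc.trans hA1h)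
      (Real.one_le_rpow hG1 (by norm_num))
    apply False.elim
    refine Exists.elim (hH ?_ ?_ ?_ ?_ ?_ ?_ ?_) ?_
    rotate_left 7
    · -- contradiction
      rintro j' ⟨p', hj1, hj2, hj3⟩
      refine hN y P wm v R h (hGd ▸ hGa) hB j' p' (by omega) ?_ ?_
      · have hjpos : (0 : ℝ) < j' := by exact_mod_cast (by omega : 0 < j')
        rw [abs_of_pos hjpos]
        refine hj2.trans ?_
        calc G ^ (2 : ℝ) * A1 ^ (1 / 200 : ℝ) ≤ G ^ (2 : ℝ) * G ^ (1 / 200 : ℝ) := by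
              gcongr
          _ = G ^ (2 + 1 / 200 : ℝ) := by rw [← Real.rpow_add hG0]
      · have hjpos : (0 : ℝ) < j' := by exact_mod_cast (by omega : 0 < j')
        rw [abs_of_pos hjpos]
        have hA1n : A1 ^ (-1 + 1 / 200 : ℝ) ≤ (G ^ (1 - 2 * β)) ^ (-1 + 1 / 200 : ℝ) :=
          Real.rpow_le_rpow_of_nonpos (Real.rpow_pos_of_pos hG0 _) hA1l (by norm_num)
        calc (j' : ℝ) * |(p' : ℝ) - j' * cc y wm| ≤
            (G ^ (2 : ℝ) * A1 ^ (1 / 200 : ℝ)) * (G ^ (-3 + 8 * β) * A1 ^ (-1 + 1 / 200 : ℝ)) :=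
              mul_le_mul hj2 hj3 (abs_nonneg _) (by positivity)
          _ ≤ (G ^ (2 : ℝ) * G ^ (1 / 200 : ℝ)) *
              (G ^ (-3 + 8 * β) * (G ^ (1 - 2 * β)) ^ (-1 + 1 / 200 : ℝ)) := by
              gcongr
          _ = G ^ (2 + 1 / 200 + (-3 + 8 * β + (1 - 2 * β) * (-1 + 1 / 200))) := by
              rw [← Real.rpow_mul hG0.le, ← Real.rpow_add hG0, ← Real.rpow_add hG0,
                ← Real.rpow_add hG0]
          _ ≤ G ^ (-2 + 1 / 100 + 10 * β) :=
              Real.rpow_le_rpow_of_exponent_le hG1 (by linarith)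
    · -- X ≤ A1 ^ 6
      calc G ^ (2 : ℝ) ≤ G ^ (1 / 2 * 6 : ℝ) :=
            Real.rpow_le_rpow_of_exponent_le hG1 (by norm_num)
        _ = (G ^ (1 / 2 : ℝ)) ^ (6 : ℝ) := by rw [← Real.rpow_mul hG0.le]
        _ ≤ A1 ^ (6 : ℝ) := Real.rpow_le_rpow (by positivity) hA1h (by norm_num)
    · calc A1 ^ (-6 : ℝ) ≤ (G ^ (1 / 2 : ℝ)) ^ (-6 : ℝ) :=
            Real.rpow_le_rpow_of_nonpos (Real.rpow_pos_of_pos hG0 _) hA1h (by norm_num)
        _ = G ^ (1 / 2 * -6 : ℝ) := by rw [← Real.rpow_mul hG0.le]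
        _ ≤ G ^ (-3 + 8 * β) := Real.rpow_le_rpow_of_exponent_le hG1 (by linarith)
    · calc G ^ (-3 + 8 * β) * (G ^ (2 : ℝ)) ^ (4 / 3 : ℝ) * A1 ^ (1 / 4 + 1 / 200 : ℝ)
          ≤ G ^ (-3 + 8 * β) * (G ^ (2 : ℝ)) ^ (4 / 3 : ℝ) * G ^ (1 / 4 + 1 / 200 : ℝ) := by
            gcongr
        _ = G ^ (-3 + 8 * β + 2 * (4 / 3) + (1 / 4 + 1 / 200)) := by
            rw [← Real.rpow_mul hG0.le, ← Real.rpow_add hG0, ← Real.rpow_add hG0]
        _ ≤ 1 := Real.rpow_le_one_of_one_le_of_nonpos hG1 (by linarith)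
    · intro a ha
      obtain ⟨haF, hka, -, -⟩ := hSF a ha
      obtain ⟨r1, r2, -, -, -, -⟩ := hd4 a haF
      rw [hka] at r1 r2
      have := ha0 a haF
      rw [le_div_iff₀ this] at r1
      rw [div_lt_iff₀ this] at r2
      constructor
      · rw [hA1d, div_div, div_le_iff₀ (by positivity)]
        rw [pow_succ] at r2
        linarith
      · rw [hA1d, le_div_iff₀ h2k]
        linarith
    · refine le_trans ?_ hcon.le
      exact Real.rpow_le_rpow hA1pos.le hA1u (by linarith)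
    · intro a ha
      obtain ⟨haF, -, -, hsa⟩ := hSF a ha
      obtain ⟨-, -, -, -, r5, -⟩ := hd4 a haF
      have e1 : σ * e a = |e a| := by
        rw [← hsa]
        exact Int.sign_mul_self_eq_abs (e a)
      have e2 : e a ≠ 0 := by
        intro h0
        apply hσ0
        rw [← hsa, h0]
        rfl
      show 1 ≤ σ * e a ∧ (((σ * e a : ℤ)) : ℝ) ≤ G ^ (2 : ℝ)
      rw [e1]
      refine ⟨Int.one_le_abs e2, ?_⟩
      rw [Int.cast_abs]
      exact r5
    · intro a ha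
      obtain ⟨haF, -, hma, -⟩ := hSF a ha
      obtain ⟨-, -, -, -, -, r6⟩ := hd4 a haF
      rw [hma] at r6
      show |((σ * p a : ℤ) : ℝ) + σ * (m0 * θ) - ((σ * e a : ℤ) : ℝ) * (θ * a + ρ)| ≤ _
      have : ((σ * p a : ℤ) : ℝ) + σ * (m0 * θ) - ((σ * e a : ℤ) : ℝ) * (θ * a + ρ) =
          σ * ((p a : ℝ) + m0 * θ - e a * (θ * a + ρ)) := by
        push_cast
        ring
      rw [this, abs_mul, hσa, one_mul]
      exact r6

end ULB
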