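import Pool.Agent.ULB.Uni

/-!
# SEP: different planes give separated children (lower bound `1/3`, MP_c538e3_nt)
-/

set_option autoImplicit false

namespace ULB

open WHP (V3 det be ga dot cross lin tt)
open WHS (hh ev der)
open MUni

namespace MSep

/-- if `P1, P2` are orthogonal to the primitive `y` then `P1 × P2 = m y` -/
theorem cross_planes {y P1 P2 : V3} (hy : Pr y) (h1 : dot P1 y = 0) (h2 : dot P2 y = 0) :
    ∃ m : ℤ, cross P1 P2 = sm m y := by
  apply par hy
  simp only [dot] at h1 h2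
  apply V3.ext
  · simp only [cross, WHP.zero_a]
    linear_combination P1.a * h2 - P2.a * h1
  · simp only [cross, WHP.zero_b]
    linear_combination P1.b * h2 - P2.b * h1
  · simp only [cross, WHP.zero_c]
    linear_combination P1.c * h2 - P2.c * h1

/-- `dd y P1 P2.c - dd y P2 P1.c = m Y` -/
theorem dd_cross {y P1 P2 : V3} {m : ℤ} (h : cross P1 P2 = sm m y) :
    dd y P1 * P2.c - dd y P2 * P1.c = m * y.a := by
  have h1 : P1.b * P2.c - P1.c * P2.b = m * y.a := by
    have := congrArg V3.a h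
    rw [sm_a] at this
    exact this
  have h2 : (P1.b : ℝ) * P2.c - P1.c * P2.b = m * y.a := by exact_mod_cast h1
  simp only [dd, der]
  linear_combination h2

/-- different primitive planes with positive second coordinate are independent -/
theorem m_ne {y wm P1 P2 : V3} {b b' g g' m : ℤ} (hP1 : Pr P1) (hP2 : Pr P2) (hne : P1 ≠ P2)
    (hb : 0 < b) (hb' : 0 < b') (hg : 0 < g) (hg' : 0 < g') (h1 : -b = g * dot P1 wm)
    (h2 : -b' = g' * dot P2 wm) (h : cross P1 P2 = sm m y) : m ≠ 0 := by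
  rintro rfl
  have h0 : cross P1 P2 = 0 := by
    rw [h]
    apply V3.ext
    · rw [sm_a, zero_mul]; rfl
    · rw [sm_b, zero_mul]; rfl
    · rw [sm_c, zero_mul]; rfl
  obtain ⟨k, hk⟩ := par hP1 h0
  obtain ⟨Q2, hQ2⟩ := hP2
  rw [hk, dot_sm] at hQ2
  have hu : IsUnit k := IsUnit.of_mul_eq_one _ hQ2
  rcases Int.isUnit_iff.mp hu with h3 | h3
  · apply hne
    rw [hk, h3, sm_one]
  · have h4 : dot P2 wm = -dot P1 wm := by rw [hk, h3, sm_dot]; ring
    have h5 : dot P1 wm < 0 := by
      by_contra hcon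
      push Not at hcon
      have := mul_nonneg hg.le hcon
      omega
    have h6 : dot P2 wm < 0 := by
      by_contra hcon
      push Not at hcon
      have := mul_nonneg hg'.le hcon
      omega
    omega

end MSep

open MSep

/-- SEP: different planes give separated children. -/
theorem t_SEP (hCHD : Stmt_CHD) : Stmt_SEP := by
  intro β hβ hβ1
  obtain ⟨G1, hG1⟩ := hCHD β hβ hβ1
  refine ⟨max G1 (max 10 ((12 : ℝ) ^ (5 / β))), ?_⟩
  intro B y P wm v R y1 y2 P1 P2 a b q k g d a' b' q' k' g' d' hN hG0 hB hBG hBas hS hS' hne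
  have hc1 := hG1 B y P wm v R y1 P1 a b q k g d hN ((le_max_left _ _).trans hG0) hB hBG hBas hS
  have hc2 := hG1 B y P wm v R y2 P2 a' b' q' k' g' d' hN ((le_max_left _ _).trans hG0) hB hBG
    hBas hS'
  have hG10 : 10 ≤ GG y P := (le_max_left _ _).trans ((le_max_right _ _).trans hG0)
  have hG12 : (12 : ℝ) ^ (5 / β) ≤ GG y P :=
    (le_max_right _ _).trans ((le_max_right _ _).trans hG0)
  have hGp : 0 < GG y P := by linarith
  have hYp : (0 : ℝ) < y.a := by exact_mod_cast hN.ya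
  have hDp : 0 < dl y := dl_pos hN.dt
  have hrp : 0 < rr y := by rw [rr]; positivity
  have hddp : 0 < |dd y P| := by
    rcases (abs_nonneg (dd y P)).lt_or_eq with h | h
    · exact h
    · exfalso
      have h1 : GG y P = 0 := by rw [GG, ← h, mul_zero, div_zero]
      linarith
  -- the determinant `m`
  obtain ⟨hgB, hgb, -, -, -, -⟩ := step_facts hN hB hBas hS
  obtain ⟨hgB', hgb', -, -, -, -⟩ := step_facts hN hB hBas hS'
  obtain ⟨m, hm⟩ := cross_planes hN.py hc1.o0 hc2.o0
  have hbpos : 0 < b := by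
    have h1 := hS.b1
    have h2 : (0 : ℝ) < b := by linarith
    exact_mod_cast h2
  have hbpos' : 0 < b' := by
    have h1 := hS'.b1
    have h2 : (0 : ℝ) < b' := by linarith
    exact_mod_cast h2
  have hmne : m ≠ 0 := m_ne hS.pP hS'.pP hne hbpos hbpos' (by have := hS.g1; omega)
    (by have := hS'.g1; omega) hgb hgb' hm
  have hmY := dd_cross hm
  have hm1 : (1 : ℝ) ≤ |(m : ℝ)| := by exact_mod_cast Int.one_le_abs hmne
  have hY : (y.a : ℝ) ≤ |dd y P1 * P2.c - dd y P2 * P1.c| := by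
    rw [hmY, abs_mul, abs_of_pos hYp]; nlinarith
  -- sizes of the derivatives
  have hGk : 0 < GG y P ^ (1 + β / 100) := Real.rpow_pos_of_pos hGp _
  have hd1p : 0 < |dd y P1| := by
    have h1 := hc1.dd2
    have h2 : 0 < GG y P ^ (1 + β / 100) * dl y := by positivity
    linarith
  have hd2p : 0 < |dd y P2| := by
    have h1 := hc2.dd2
    have h2 : 0 < GG y P ^ (1 + β / 100) * dl y := by positivity
    linarith
  have hd1n : dd y P1 ≠ 0 := abs_pos.mp hd1p
  have hd2n : dd y P2 ≠ 0 := abs_pos.mp hd2p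
  set M : ℝ := 2 * B * GG y P ^ (1 + β / 100) * dl y with hM
  have hMp : 0 < M := by positivity
  have hprod : |dd y P1| * |dd y P2| ≤ M * M :=
    mul_le_mul hc1.dd1 hc2.dd1 hd2p.le hMp.le
  -- `Y ≥ 3 G⁻¹ M²`
  have hYM : 3 * GG y P ^ (-1 : ℝ) * (M * M) ≤ y.a := by
    have hYeq : (y.a : ℝ) = GG y P * (dl y * |dd y P|) := by
      rw [GG, div_mul_cancel₀]
      positivity
    have hbb : |dd y P| = bb y P * dl y := by
      rw [bb, div_mul_cancel₀ _ hDp.ne']
    have h1 : GG y P ^ (β / 4) ≤ bb y P := hN.b1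
    have hB2 : B * B ≤ GG y P ^ (β / 100) * GG y P ^ (β / 100) :=
      mul_le_mul hBG hBG (by linarith) (Real.rpow_nonneg hGp.le _)
    have h12 : (12 : ℝ) ≤ GG y P ^ (β / 5) := by
      have h4 : ((12 : ℝ) ^ (5 / β)) ^ (β / 5) ≤ GG y P ^ (β / 5) :=
        Real.rpow_le_rpow (by positivity) hG12 (by linarith)
      rw [← Real.rpow_mul (by norm_num)] at h4
      have h5 : 5 / β * (β / 5) = 1 := by field_simp
      rw [h5, Real.rpow_one] at h4
      exact h4
    have e1 : GG y P ^ (-1 : ℝ) * (GG y P ^ (1 + β / 100) * GG y P ^ (1 + β / 100)) *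
        (GG y P ^ (β / 100) * GG y P ^ (β / 100)) * GG y P ^ (β / 5) =
        GG y P ^ (1 + 6 * β / 25) := by
      rw [← Real.rpow_add hGp, ← Real.rpow_add hGp, ← Real.rpow_add hGp, ← Real.rpow_add hGp,
        ← Real.rpow_add hGp]
      congr 1; ring
    have e2 : GG y P ^ (1 + 6 * β / 25) ≤ GG y P * GG y P ^ (β / 4) := by
      have : GG y P * GG y P ^ (β / 4) = GG y P ^ (1 + β / 4) := by
        rw [Real.rpow_add hGp, Real.rpow_one]
      rw [this]
      exact Real.rpow_le_rpow_of_exponent_le (by linarith) (by linarith)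
    have h5 : 3 * GG y P ^ (-1 : ℝ) * (M * M) =
        12 * (GG y P ^ (-1 : ℝ) * (GG y P ^ (1 + β / 100) * GG y P ^ (1 + β / 100)) * (B * B)) *
          (dl y * dl y) := by
      rw [hM]; ring
    rw [h5, hYeq, hbb]
    have hpos1 : 0 < GG y P ^ (-1 : ℝ) * (GG y P ^ (1 + β / 100) * GG y P ^ (1 + β / 100)) := by
      have : 0 < GG y P ^ (-1 : ℝ) := Real.rpow_pos_of_pos hGp _
      positivity
    have h6 : 12 * (GG y P ^ (-1 : ℝ) * (GG y P ^ (1 + β / 100) * GG y P ^ (1 + β / 100)) *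
        (B * B)) ≤ GG y P * bb y P := by
      calc 12 * (GG y P ^ (-1 : ℝ) * (GG y P ^ (1 + β / 100) * GG y P ^ (1 + β / 100)) *
            (B * B))
          ≤ GG y P ^ (β / 5) * (GG y P ^ (-1 : ℝ) *
            (GG y P ^ (1 + β / 100) * GG y P ^ (1 + β / 100)) *
            (GG y P ^ (β / 100) * GG y P ^ (β / 100))) := by
            apply mul_le_mul h12 _ _ (by positivity)
            · exact mul_le_mul_of_nonneg_left hB2 hpos1.le
            · have : 0 ≤ B * B := by positivity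
              positivity
        _ = GG y P ^ (1 + 6 * β / 25) := by rw [← e1]; ring
        _ ≤ GG y P * GG y P ^ (β / 4) := e2
        _ ≤ GG y P * bb y P := mul_le_mul_of_nonneg_left h1 hGp.le
    calc 12 * (GG y P ^ (-1 : ℝ) * (GG y P ^ (1 + β / 100) * GG y P ^ (1 + β / 100)) *
          (B * B)) * (dl y * dl y)
        ≤ (GG y P * bb y P) * (dl y * dl y) := mul_le_mul_of_nonneg_right h6 (by positivity)
      _ = GG y P * (dl y * (bb y P * dl y)) := by ring
  -- the slopes
  have hslope : 3 * GG y P ^ (-1 : ℝ) ≤ |P1.c / dd y P1 - P2.c / dd y P2| := by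
    have h1 : (P1.c : ℝ) / dd y P1 - P2.c / dd y P2 =
        -(dd y P1 * P2.c - dd y P2 * P1.c) / (dd y P1 * dd y P2) := by
      field_simp
      ring
    rw [h1, abs_div, abs_neg, abs_mul, le_div_iff₀ (by positivity)]
    have h2 : 3 * GG y P ^ (-1 : ℝ) * (|dd y P1| * |dd y P2|) ≤
        3 * GG y P ^ (-1 : ℝ) * (M * M) := by
      apply mul_le_mul_of_nonneg_left hprod
      have : 0 < GG y P ^ (-1 : ℝ) := Real.rpow_pos_of_pos hGp _
      positivity
    linarith
  -- conclusion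
  have ht1 := hc1.tt1
  have ht2 := hc2.tt1
  have hr1 := hc1.rr1
  have hr2 := hc2.rr1
  have hG2 : GG y P ^ (-2 : ℝ) ≤ GG y P ^ (-1 : ℝ) / 10 := by
    have h1 : GG y P ^ (-2 : ℝ) = GG y P ^ (-1 : ℝ) * GG y P ^ (-1 : ℝ) := by
      rw [← Real.rpow_add hGp]; norm_num
    have h2 : GG y P ^ (-1 : ℝ) ≤ 1 / 10 := by
      rw [Real.rpow_neg_one, inv_eq_one_div]
      exact one_div_le_one_div_of_le (by norm_num) hG10
    have h3 : 0 < GG y P ^ (-1 : ℝ) := Real.rpow_pos_of_pos hGp _
    rw [h1]; nlinarith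
  have hmain : rr y * (3 * GG y P ^ (-1 : ℝ)) ≤
      |rr y * si y * (P1.c / dd y P1) - rr y * si y * (P2.c / dd y P2)| := by
    rw [← mul_sub, abs_mul, abs_mul, si_abs hN.dt, mul_one, abs_of_pos hrp]
    exact mul_le_mul_of_nonneg_left hslope hrp.le
  have h3 : rr y * (3 * GG y P ^ (-1 : ℝ)) - 2 * (rr y * GG y P ^ (-2 : ℝ)) ≤ |tt y1 - tt y2| := by
    have e : rr y * si y * (P1.c / dd y P1) - rr y * si y * (P2.c / dd y P2) =
        (tt y1 - tt y2) - (tt y1 - tt y - rr y * si y * (P1.c / dd y P1)) +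
          (tt y2 - tt y - rr y * si y * (P2.c / dd y P2)) := by ring
    have h4 : |rr y * si y * (P1.c / dd y P1) - rr y * si y * (P2.c / dd y P2)| ≤
        |tt y1 - tt y2| + |tt y1 - tt y - rr y * si y * (P1.c / dd y P1)| +
          |tt y2 - tt y - rr y * si y * (P2.c / dd y P2)| := by
      rw [e]
      refine (abs_add_le _ _).trans ?_
      have := abs_sub (tt y1 - tt y2) (tt y1 - tt y - rr y * si y * (P1.c / dd y P1))
      linarith
    linarith
  have h5 : rr y * GG y P ^ (-2 : ℝ) ≤ rr y * (GG y P ^ (-1 : ℝ) / 10) :=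
    mul_le_mul_of_nonneg_left hG2 hrp.le
  have h6 : 0 < rr y * GG y P ^ (-1 : ℝ) := by
    have : 0 < GG y P ^ (-1 : ℝ) := Real.rpow_pos_of_pos hGp _
    positivity
  linarith

end ULB
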