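import Pool.Agent.ULB.StartB

/-!
# START, part C: the child, the assembly (block UST, helper33)
-/

set_option autoImplicit false

namespace ULB
namespace StartP

open WHP (V3 det be ga dot cross lin tt)
open WHS (hh ev der)
open Filter
open STARTaux StepP

/-- the child of the first step is a node -/
theorem kid1 (β : ℝ) (hβ : 0 < β) (hβ1 : β ≤ 1 / 10000) :
    ∃ G0 : ℝ, ∀ (y P wm v R y1 P0 : V3) (a b q k g d : ℤ), Nd β y P → G0 ≤ GG y P →
    |tt y| ≤ 1 → |(P.c : ℝ)| ≤ 3 / 2 * |dd y P| → (y.a : ℝ) ≤ GG y P ^ (500 / β) →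
    Stp β 1 y P wm v R a b q k g d y1 P0 →
    Chd β 1 y P q g d y1 P0 → WW y1 P0 → VV β y1 P0 →
    St β y1 P0 ∧ GG y P ^ (1 / 2 : ℝ) ≤ GG y1 P0 := by
  obtain ⟨G2, hMK⟩ := m_MKN β hβ hβ1
  have e1 := pw (10 / 9) (3 / 4) (1 - β / 400) (by linarith)
  have e2 := pw 2 0 (3 / 4) (by norm_num)
  have e3 := pw 6 (-50) 0 (by norm_num)
  have e4 := pw 16 (-(β / 100)) 0 (by linarith)
  have e5 := pw 4 (-(3 * β / 800)) 0 (by linarith)
  obtain ⟨G3, hG3⟩ := eventually_atTop.1 (e1.and (e2.and (e3.and (e4.and (e5.and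
    (eventually_ge_atTop (1 : ℝ)))))))
  refine ⟨max G2 G3, fun y P wm v R y1 P0 a b q k g d S hG ht hs hcap hS hC hW hV => ?_⟩
  have hGb : G2 ≤ GG y P := (le_max_left _ _).trans hG
  have hGc : G3 ≤ GG y P := (le_max_right _ _).trans hG
  obtain ⟨f1, f2, f3, f4, f5, hG1⟩ := hG3 _ hGc
  clear e1 e2 e3 e4 e5 hG3 hG
  have hMK' := hMK 1 y P wm v R y1 P0 a b q k g d S hGb le_rfl
    (Real.one_le_rpow hG1 (by positivity)) hS hC hW hV
  obtain ⟨hb0, hdd0⟩ := MKaux.node_pos S (by linarith)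
  set G := GG y P with hGdef
  have hG0 : 0 < G := by linarith
  have p : ∀ x : ℝ, 0 < G ^ x := fun x => Real.rpow_pos_of_pos hG0 x
  have mono : ∀ s t : ℝ, s ≤ t → G ^ s ≤ G ^ t := fun s t h =>
    Real.rpow_le_rpow_of_exponent_le hG1 h
  rw [Real.rpow_zero] at f3 f4 f5
  rw [Real.rpow_zero, mul_one] at f2
  have g1 : G ^ (3 / 4 : ℝ) ≤ GG y1 P0 := by
    have h := hC.G1
    rw [← hGdef] at h
    linarith
  have hG1p : 0 < GG y1 P0 := (p _).trans_le g1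
  have g4 : (y1.a : ℝ) ≤ GG y1 P0 ^ (1000 / β) := by
    have h1 := hC.ya2
    rw [← hGdef] at h1
    calc (y1.a : ℝ) ≤ G ^ (5 / 2 : ℝ) * G ^ (500 / β) :=
          h1.trans (mul_le_mul_of_nonneg_left hcap (p _).le)
      _ ≤ G ^ ((3 / 4) * (1000 / β)) := by
          rw [← Real.rpow_add hG0]
          refine mono _ _ ?_
          have h2 : (3 / 4) * (1000 / β) = 500 / β + 250 / β := by ring
          have h3 : 5 / 2 ≤ 250 / β := by
            rw [le_div_iff₀ hβ]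
            linarith
          linarith
      _ = (G ^ (3 / 4 : ℝ)) ^ (1000 / β) := by rw [Real.rpow_mul hG0.le]
      _ ≤ GG y1 P0 ^ (1000 / β) := Real.rpow_le_rpow (p _).le g1 (by positivity)
  have g5 : |tt y1| ≤ 2 - 1 / GG y1 P0 := by
    have h2 := hC.tt2
    have h3 := hC.rr0
    rw [← hGdef] at h3
    have h4 : 1 / GG y1 P0 ≤ 1 / 2 := by
      apply one_div_le_one_div_of_le (by norm_num)
      linarith
    have h6 : |tt y1| ≤ |tt y| + |tt y1 - tt y| := by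
      have := abs_add_le (tt y) (tt y1 - tt y)
      rwa [add_sub_cancel] at this
    linarith
  have g6 : |(P0.c : ℝ)| ≤ (2 - GG y1 P0 ^ (-(β / 200))) * |dd y1 P0| := by
    rcases eq_or_ne (dd y1 P0) 0 with h0 | h0
    · have := hC.sb1
      rw [h0] at this ⊢
      simpa using this
    · have h1 := hC.sb
      rw [← hGdef] at h1
      have h3 : |(P.c / dd y P : ℝ)| ≤ 3 / 2 := by
        rw [abs_div, div_le_iff₀ hdd0]
        exact hs
      have h4 : GG y1 P0 ^ (-(β / 200)) ≤ G ^ (-(3 * β / 800)) := by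
        have h5 : GG y1 P0 ^ (-(β / 200)) ≤ (G ^ (3 / 4 : ℝ)) ^ (-(β / 200)) :=
          Real.rpow_le_rpow_of_nonpos (p _) g1 (by linarith)
        rw [← Real.rpow_mul hG0.le] at h5
        have h6 : (3 / 4 : ℝ) * (-(β / 200)) = -(3 * β / 800) := by ring
        rwa [h6] at h5
      have hd1 : 0 < |dd y1 P0| := abs_pos.2 h0
      have h7 : |(P0.c / dd y1 P0 : ℝ)| ≤ 2 - GG y1 P0 ^ (-(β / 200)) := by linarith
      rw [abs_div, div_le_iff₀ hd1] at h7
      exact h7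
  exact ⟨hMK' g4 g5 g6, (mono _ _ (by norm_num)).trans g1⟩

/-- **START.** -/
theorem t_START (hBAS : Stmt_BAS) (hCHD : Stmt_CHD) (hWCH : Stmt_WCH) (hVCH : Stmt_VCH)
    (hUNI : Stmt_UNI) (hHW : Stmt_HW) (hHV : Stmt_HV) (hEX : Stmt_EX) (hPRM : Stmt_PRM) :
    Stmt_START := by
  classical
  obtain ⟨s1, β1, hs1, hβ1, hW1⟩ := hHW
  obtain ⟨s2, β2, hs2, hβ2, hV1⟩ := hHV
  refine ⟨min (min β1 β2) (min (min (s1 / 100) (s2 / 100)) (1 / 10000)), by positivity, ?_⟩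
  intro β hβ hβle
  have hb1 : β ≤ β1 := hβle.trans ((min_le_left _ _).trans (min_le_left _ _))
  have hb2 : β ≤ β2 := hβle.trans ((min_le_left _ _).trans (min_le_right _ _))
  have hb3 : β ≤ s1 / 100 := hβle.trans ((min_le_right _ _).trans ((min_le_left _ _).trans
    (min_le_left _ _)))
  have hb4 : β ≤ s2 / 100 := hβle.trans ((min_le_right _ _).trans ((min_le_left _ _).trans
    (min_le_right _ _)))
  have hb5 : β ≤ 1 / 10000 := hβle.trans ((min_le_right _ _).trans (min_le_right _ _))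
  obtain ⟨g1, hCHD'⟩ := hCHD β hβ hb5
  obtain ⟨g2, hWCH'⟩ := hWCH β hβ hb5
  obtain ⟨g3, hVCH'⟩ := hVCH β hβ hb5
  obtain ⟨g4, hUNI'⟩ := hUNI β hβ hb5
  obtain ⟨g6, hHW'⟩ := hW1 β hβ hb1
  obtain ⟨g7, hHV'⟩ := hV1 β hβ hb2
  obtain ⟨g8, hMKS'⟩ := m_MKS β hβ hb5
  obtain ⟨g9, hKid⟩ := kid1 β hβ hb5
  obtain ⟨g10, hGood⟩ := goodPrimes1 β hβ hb5 hEX hPRM
  have e1 := pw 4 (1 - 5 * β) (1 - 4 * β) (by linarith)
  obtain ⟨g11, hg11⟩ := eventually_atTop.1 (e1.and (eventually_ge_atTop (100 : ℝ)))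
  refine ⟨max (max (max g1 g2) (max g3 g4)) (max (max g6 (max g7 g8))
    (max (max g9 g10) g11)), fun y P S ht hs hcap hG => ?_⟩
  simp only [max_le_iff] at hG
  obtain ⟨⟨⟨k1, k2⟩, k3, k4⟩, ⟨k6, k7, k8⟩, ⟨k9, k10⟩, k11⟩ := hG
  obtain ⟨f1, hG100⟩ := hg11 _ k11
  obtain ⟨wm, v, R, H⟩ := hBAS β y P hβ hb5 S hG100
  have hG1 : 1 ≤ GG y P := by linarith
  obtain ⟨A1, A2, -, -, -, -, -⟩ := siz1 hβ S hG1
  obtain ⟨F0, hF0card, hF0⟩ := hGood y P wm v R S k10 H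
  have hG0 : 0 < GG y P := by linarith
  have p : ∀ x : ℝ, 0 < GG y P ^ x := fun x => Real.rpow_pos_of_pos hG0 x
  have hB1 : (1 : ℝ) ≤ GG y P ^ (β / 100) := Real.one_le_rpow hG1 (by positivity)
  have hA0 : 0 < AA β 1 y P := (p _).trans_le A1
  -- the steps
  have hstp : ∀ q ∈ F0, ∃ (a k g d : ℤ) (y1 P0 : V3),
      Stp β 1 y P wm v R a 1 (q : ℤ) k g d y1 P0 := by
    intro q hq
    obtain ⟨h1, h2, h3, a, k, h4, h5, h8, h9, h10⟩ := hF0 q hq
    obtain ⟨g, d, y1, P0, h⟩ := hMKS' 1 y P wm v R a 1 (q : ℤ) k S k8 le_rfl hB1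
      H h4 h5 (by push_cast; norm_num) (by push_cast; norm_num) h1 (by exact_mod_cast h2)
      (by exact_mod_cast h3)
      (by push_cast; rw [one_mul]; exact h8) (by push_cast; rw [one_mul]; exact h9) h10
    exact ⟨a, k, g, d, y1, P0, h⟩
  choose! fa fk fg fd fy fP hfS using hstp
  have hfC : ∀ q ∈ F0, Chd β 1 y P (q : ℤ) (fg q) (fd q) (fy q) (fP q) :=
    fun q hq => hCHD' _ y P wm v R (fy q) (fP q) (fa q) 1 q (fk q) (fg q) (fd q) S k1
      le_rfl hB1 H (hfS q hq)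
  have hinj : ∀ q ∈ F0, ∀ q' ∈ F0, fP q = fP q' → q = q' := by
    intro q hq q' hq' he
    have h2 := hfS q' hq'
    rw [← he] at h2
    have h := hUNI' _ y P wm v R (fy q) (fy q') (fP q) (fa q) 1 q (fk q) (fg q) (fd q)
      (fa q') 1 q' (fk q') (fg q') (fd q') S k4 le_rfl hB1 H (hfS q hq) h2
    exact_mod_cast h.1
  -- the planes
  have hpl : ∀ q ∈ F0, ∃ a0 b0 : ℤ, 1 ≤ b0 ∧ (b0 : ℝ) ≤ 1 ∧
      AA β 1 y P / (2 * 1) ≤ a0 ∧ (a0 : ℝ) ≤ AA β 1 y P ∧ fP q = lin a0 P b0 R := by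
    intro q hq
    have h1 := hfS q hq
    obtain ⟨a0, b0, ha, hb, hP⟩ := plane_ab H h1.g1 h1.hP
    have hg1 := h1.g1
    have hg : fg q = 1 := by
      have h2 : fg q ∣ 1 := ⟨b0, hb⟩
      exact Int.eq_one_of_dvd_one (by omega) h2
    rw [hg, one_mul] at ha hb
    have ha1 := h1.a1
    have ha2 := h1.a2
    rw [ha] at ha1 ha2
    exact ⟨a0, b0, by omega, by rw [← hb]; norm_num, by linarith, ha2, hP⟩
  -- bad planes
  have hMle : ∀ s : ℝ, 0 < s → β ≤ s / 100 →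
      (1 : ℝ) * AA β 1 y P ^ (1 - s) ≤ GG y P ^ (1 - 5 * β) := by
    intro s hs hbs
    rw [one_mul]
    rcases le_total 0 (1 - s) with h | h
    · have h1 : AA β 1 y P ^ (1 - s) ≤ (GG y P ^ (1 + β / 100)) ^ (1 - s) :=
        Real.rpow_le_rpow hA0.le A2 h
      rw [← Real.rpow_mul hG0.le] at h1
      refine h1.trans ?_
      refine Real.rpow_le_rpow_of_exponent_le hG1 ?_
      nlinarith
    · have h1 : AA β 1 y P ^ (1 - s) ≤ 1 := by
        refine Real.rpow_le_one_of_one_le_of_nonpos ?_ h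
        exact (Real.one_le_rpow hG1 (by linarith)).trans A1
      exact h1.trans (Real.one_le_rpow hG1 (by linarith))
  have hbW : ((F0.filter (fun q => ¬ Wpl β 1 y P (fP q))).card : ℝ) ≤
      GG y P ^ (1 - 5 * β) := by
    refine le_trans ?_ (hMle s1 hs1 hb3)
    refine count_bad (A := AA β 1 y P) (P := P) (R := R)
      (fun X => ¬ Wpl β 1 y P X) ?_ le_rfl _ fP ?_ ?_
    · intro b0 F hb0 hb0B hF
      exact hHW' 1 y P wm v R S k6 le_rfl hB1 H b0 F hb0 hb0B hF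
    · intro q hq q' hq' he
      rw [Finset.mem_filter] at hq hq'
      exact hinj q hq.1 q' hq'.1 he
    · intro q hq
      rw [Finset.mem_filter] at hq
      exact ⟨hq.2, hpl q hq.1⟩
  have hbV : ((F0.filter (fun q => ¬ Vpl β y P (fP q))).card : ℝ) ≤
      GG y P ^ (1 - 5 * β) := by
    refine le_trans ?_ (hMle s2 hs2 hb4)
    refine count_bad (A := AA β 1 y P) (P := P) (R := R)
      (fun X => ¬ Vpl β y P X) ?_ le_rfl _ fP ?_ ?_
    · intro b0 F hb0 hb0B hF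
      exact hHV' 1 y P wm v R S k7 le_rfl hB1 H b0 F hb0 hb0B hF
    · intro q hq q' hq' he
      rw [Finset.mem_filter] at hq hq'
      exact hinj q hq.1 q' hq'.1 he
    · intro q hq
      rw [Finset.mem_filter] at hq
      exact ⟨hq.2, hpl q hq.1⟩
  -- a good plane
  have hex : ∃ q ∈ F0, Wpl β 1 y P (fP q) ∧ Vpl β y P (fP q) := by
    by_contra hcon
    push Not at hcon
    have h1 : F0 ⊆ F0.filter (fun q => ¬ Wpl β 1 y P (fP q)) ∪
        F0.filter (fun q => ¬ Vpl β y P (fP q)) := by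
      intro q hq
      simp only [Finset.mem_union, Finset.mem_filter]
      by_cases h1 : Wpl β 1 y P (fP q)
      · exact Or.inr ⟨hq, hcon q hq h1⟩
      · exact Or.inl ⟨hq, h1⟩
    have h2 := (Finset.card_le_card h1).trans (Finset.card_union_le _ _)
    have h5 : (F0.card : ℝ) ≤ ((F0.filter (fun q => ¬ Wpl β 1 y P (fP q))).card : ℝ) +
        ((F0.filter (fun q => ¬ Vpl β y P (fP q))).card : ℝ) := by
      exact_mod_cast h2
    have h6 := p (1 - 5 * β)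
    linarith
  obtain ⟨q, hq0, hqW, hqV⟩ := hex
  have hW := hWCH' _ y P wm v R (fy q) (fP q) (fa q) 1 q (fk q) (fg q) (fd q) S k2
    le_rfl hB1 H (hfS q hq0) (hfC q hq0) hqW
  have hV := hVCH' _ y P wm v R (fy q) (fP q) (fa q) 1 q (fk q) (fg q) (fd q) S k3
    le_rfl hB1 H (hfS q hq0) (hfC q hq0) hW hqV
  exact ⟨fy q, fP q, hKid y P wm v R (fy q) (fP q) (fa q) 1 q (fk q) (fg q) (fd q) S k9 ht hs
    hcap (hfS q hq0) (hfC q hq0) hW hV⟩

end StartP
end ULB
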