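import Pool.Agent.ULB.StepB

/-!
# STEP, part C: the child, the bad planes, the assembly   (helper21)
-/

set_option autoImplicit false

namespace ULB
namespace StepP

open WHP (V3 det be ga dot cross lin tt)
open WHS (hh ev der)
open Filter

theorem dot_sm (g : ℤ) (P u : V3) : dot (sm g P) u = g * dot P u := by
  simp only [dot, sm, lin]
  ring

theorem dot_lin_left (a b : ℤ) (P R u : V3) :
    dot (lin a P b R) u = a * dot P u + b * dot R u := by
  simp only [dot, lin]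
  ring

/-- the coordinates of the primitive plane -/
theorem plane_ab {y P wm v R P0 : V3} (H : Bas y P wm v R) {a b g : ℤ} (hg : 1 ≤ g)
    (hP : lin a P b R = sm g P0) : ∃ a0 b0 : ℤ, a = g * a0 ∧ b = g * b0 ∧
      P0 = lin a0 P b0 R := by
  have h1 : a = g * dot P0 v := by
    have h : dot (lin a P b R) v = dot (sm g P0) v := by rw [hP]
    rw [dot_sm, dot_lin_left, H.hv, dot_R_v H] at h
    linarith
  have h2 : b = g * (-dot P0 wm) := by
    have h : dot (lin a P b R) wm = dot (sm g P0) wm := by rw [hP]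
    rw [dot_sm, dot_lin_left, dot_P_wm H, dot_R_wm H] at h
    linarith
  refine ⟨dot P0 v, -dot P0 wm, h1, h2, ?_⟩
  have hg0 : g ≠ 0 := by omega
  have ha : (lin a P b R).a = (sm g P0).a := by rw [hP]
  have hb : (lin a P b R).b = (sm g P0).b := by rw [hP]
  have hc : (lin a P b R).c = (sm g P0).c := by rw [hP]
  simp only [lin, sm] at ha hb hc
  apply V3.ext
  · refine mul_left_cancel₀ hg0 ?_
    show g * P0.a = g * (dot P0 v * P.a + -dot P0 wm * R.a)
    linear_combination -ha + P.a * h1 + R.a * h2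
  · refine mul_left_cancel₀ hg0 ?_
    show g * P0.b = g * (dot P0 v * P.b + -dot P0 wm * R.b)
    linear_combination -hb + P.b * h1 + R.b * h2
  · refine mul_left_cancel₀ hg0 ?_
    show g * P0.c = g * (dot P0 v * P.c + -dot P0 wm * R.c)
    linear_combination -hc + P.c * h1 + R.c * h2

/-- few bad planes -/
theorem count_bad {A B M : ℝ} {P R : V3} (bad : V3 → Prop)
    (hbad : ∀ (b0 : ℤ) (F : Finset ℤ), 1 ≤ b0 → (b0 : ℝ) ≤ B →
      (∀ a0 ∈ F, A / (2 * B) ≤ a0 ∧ (a0 : ℝ) ≤ A ∧ bad (lin a0 P b0 R)) → (F.card : ℝ) ≤ M)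
    (hB : 1 ≤ B) (S : Finset ℕ) (fP : ℕ → V3)
    (inj : ∀ q ∈ S, ∀ q' ∈ S, fP q = fP q' → q = q')
    (hS : ∀ q ∈ S, bad (fP q) ∧ ∃ a0 b0 : ℤ, 1 ≤ b0 ∧ (b0 : ℝ) ≤ B ∧ A / (2 * B) ≤ a0 ∧
      (a0 : ℝ) ≤ A ∧ fP q = lin a0 P b0 R) : (S.card : ℝ) ≤ B * M := by
  classical
  have hM : 0 ≤ M := by
    have := hbad 1 ∅ le_rfl (by exact_mod_cast hB) (by simp)
    simpa using this
  choose! hb fa fb h1 h2 h3 h4 h5 using hS
  have hmap : ∀ q ∈ S, fb q ∈ Finset.Icc (1 : ℤ) ⌊B⌋ := by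
    intro q hq
    rw [Finset.mem_Icc]
    exact ⟨h1 q hq, Int.le_floor.2 (h2 q hq)⟩
  have hcard := Finset.card_eq_sum_card_fiberwise hmap
  have hfib : ∀ b0 ∈ Finset.Icc (1 : ℤ) ⌊B⌋, ((S.filter (fun q => fb q = b0)).card : ℝ) ≤ M := by
    intro b0 hb0
    rw [Finset.mem_Icc] at hb0
    have hb0' : (b0 : ℝ) ≤ B := Int.le_floor.1 hb0.2
    have hinj : ((S.filter (fun q => fb q = b0)).image fa).card =
        (S.filter (fun q => fb q = b0)).card := by
      apply Finset.card_image_of_injOn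
      intro q hq q' hq' heq
      rw [Finset.mem_coe, Finset.mem_filter] at hq hq'
      apply inj q hq.1 q' hq'.1
      rw [h5 q hq.1, h5 q' hq'.1, hq.2, hq'.2, heq]
    rw [← hinj]
    refine hbad b0 _ hb0.1 hb0' ?_
    intro a0 ha0
    rw [Finset.mem_image] at ha0
    obtain ⟨q, hq, rfl⟩ := ha0
    rw [Finset.mem_filter] at hq
    refine ⟨h3 q hq.1, h4 q hq.1, ?_⟩
    have := hb q hq.1
    rwa [h5 q hq.1, hq.2] at this
  have e : (S.card : ℝ) = ∑ b0 ∈ Finset.Icc (1 : ℤ) ⌊B⌋,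
      ((S.filter (fun q => fb q = b0)).card : ℝ) := by
    rw [hcard]
    push_cast
    rfl
  rw [e]
  calc ∑ b0 ∈ Finset.Icc (1 : ℤ) ⌊B⌋, ((S.filter (fun q => fb q = b0)).card : ℝ)
      ≤ ∑ b0 ∈ Finset.Icc (1 : ℤ) ⌊B⌋, M := Finset.sum_le_sum hfib
    _ = ((Finset.Icc (1 : ℤ) ⌊B⌋).card : ℝ) * M := by rw [Finset.sum_const, nsmul_eq_mul]
    _ ≤ B * M := by
        refine mul_le_mul_of_nonneg_right ?_ hM
        rw [Int.card_Icc]
        have h0 : 0 ≤ ⌊B⌋ := by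
          rw [Int.floor_nonneg]
          linarith
        have h6 : ((⌊B⌋ + 1 - 1).toNat : ℤ) = ⌊B⌋ := by
          rw [Int.toNat_of_nonneg (by omega)]
          ring
        have h7 : (((⌊B⌋ + 1 - 1).toNat : ℕ) : ℝ) = ((⌊B⌋ : ℤ) : ℝ) := by exact_mod_cast h6
        rw [h7]
        exact Int.floor_le _

/-- what is asked for the child of a node -/
def Kid (β : ℝ) (y P : V3) (x : V3 × V3) : Prop :=
  St β x.1 x.2 ∧ GG y P ^ (1 + β / 200) ≤ GG x.1 x.2 ∧
      GG x.1 x.2 ≤ GG y P ^ (1 + 3 * (β / 100)) ∧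
      |tt x.1 - tt y| + 4 * rr x.1 ≤ 4 * rr y ∧ 2 * rr x.1 ≤ rr y ∧
      rr y * GG y P ^ (-3 : ℝ) ≤ rr x.1 ∧
      ∀ ξ : ℝ, |ξ - tt y| ≤ 4 * rr y →
        der P ξ ≠ 0 ∧ 8 * |(P.c : ℝ)| * |ev P ξ| ≤ der P ξ ^ 2 ∧ 2 * hh P ≤ hh x.2 ∧
        |ev P ξ| * hh P * hh x.2 ^ (2 + β ^ 2 / 100000) ≤ |der P ξ|

theorem rr_nonneg (y : V3) : 0 ≤ rr y := by
  unfold rr dl
  positivity

theorem kid (β : ℝ) (hβ : 0 < β) (hβ1 : β ≤ 1 / 10000) (hCHN : Stmt_CHN) (hMKN : Stmt_MKN) :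
    ∃ G0 : ℝ, ∀ (y P wm v R y1 P0 : V3) (a b q k g d : ℤ), St β y P → G0 ≤ GG y P →
    Stp β (GG y P ^ (β / 100)) y P wm v R a b q k g d y1 P0 →
    Chd β (GG y P ^ (β / 100)) y P q g d y1 P0 → WW y1 P0 → VV β y1 P0 →
    Kid β y P (y1, P0) := by
  obtain ⟨G1, hCN⟩ := hCHN β hβ hβ1
  obtain ⟨G2, hMK⟩ := hMKN β hβ hβ1
  have e1 := pw (10 / 9) (1 + β / 200) (1 + 3 * (β / 400)) (by linarith)
  have e2 := pw 5 (1 + 3 * (β / 100) - β / 400) (1 + 3 * (β / 100)) (by linarith)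
  have e3 := pw 4 (-2) 0 (by norm_num)
  have e4 := pw 6 (-50) (-1) (by norm_num)
  have e5 := pw 2 (-1 - β / 200) (-1) (by linarith)
  have e6 := pw 8 (-(β / 100)) (-(β / 200)) (by linarith)
  have e7 := pw 2 (-(β / 200) - β ^ 2 / 40000) (-(β / 200)) (by
    have : 0 < β ^ 2 := by positivity
    linarith)
  obtain ⟨G3, hG3⟩ := eventually_atTop.1 (e1.and (e2.and (e3.and (e4.and (e5.and (e6.and
    (e7.and (eventually_ge_atTop (1 : ℝ)))))))))
  refine ⟨max G1 (max G2 G3), fun y P wm v R y1 P0 a b q k g d S hG hS hC hW hV => ?_⟩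
  have hGa : G1 ≤ GG y P := (le_max_left _ _).trans hG
  have hGb : G2 ≤ GG y P := (le_max_left _ _).trans ((le_max_right _ _).trans hG)
  have hGc : G3 ≤ GG y P := (le_max_right _ _).trans ((le_max_right _ _).trans hG)
  obtain ⟨f1, f2, f3, f4, f5, f6, f7, hG1⟩ := hG3 _ hGc
  have hMK' := hMK (GG y P ^ (β / 100)) y P wm v R y1 P0 a b q k g d S.toNd hGb
    (Real.one_le_rpow hG1 (by positivity)) le_rfl hS hC hW hV
  have hCN' := hCN y P P0
  set G := GG y P with hGdef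
  have hG0 : 0 < G := by linarith
  have p : ∀ x : ℝ, 0 < G ^ x := fun x => Real.rpow_pos_of_pos hG0 x
  rw [Real.rpow_zero] at f3
  have g1 : G ^ (1 + β / 200) ≤ GG y1 P0 := by
    refine le_trans ?_ hC.G1
    rw [← hGdef]
    have e : 9 / 10 * G ^ (β / 100) * G ^ (1 - β / 400) = 9 / 10 * G ^ (1 + 3 * (β / 400)) := by
      rw [mul_assoc, ← Real.rpow_add hG0]
      ring_nf
    rw [e]
    linarith
  have g2 : GG y1 P0 ≤ G ^ (1 + 3 * (β / 100)) := by
    refine le_trans hC.G2 ?_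
    rw [← hGdef]
    have e : 5 * (G ^ (β / 100)) ^ 3 * G ^ (1 - β / 400) =
        5 * G ^ (1 + 3 * (β / 100) - β / 400) := by
      rw [← Real.rpow_natCast, ← Real.rpow_mul hG0.le, mul_assoc, ← Real.rpow_add hG0]
      push_cast
      ring_nf
    rw [e]
    exact f2
  have hrn := rr_nonneg y
  have g3 : 4 * rr y1 ≤ rr y := by
    have h := hC.rr1
    rw [← hGdef] at h
    have := mul_le_mul_of_nonneg_left f3 hrn
    linarith
  have hG1p : 0 < GG y1 P0 := (p _).trans_le g1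
  have hG11 : 1 ≤ GG y1 P0 := (Real.one_le_rpow hG1 (by positivity)).trans g1
  have g4 : (y1.a : ℝ) ≤ GG y1 P0 ^ (1000 / β) := by
    have h1 := hC.ya2
    rw [← hGdef] at h1
    have h2 := S.cap
    rw [← hGdef] at h2
    calc (y1.a : ℝ) ≤ G ^ (5 / 2 : ℝ) * G ^ (1000 / β) :=
          h1.trans (mul_le_mul_of_nonneg_left h2 (p _).le)
      _ ≤ G ^ ((1 + β / 200) * (1000 / β)) := by
          rw [← Real.rpow_add hG0]
          refine Real.rpow_le_rpow_of_exponent_le hG1 ?_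
          have : (1 + β / 200) * (1000 / β) = 1000 / β + 5 := by
            field_simp
            ring
          linarith
      _ = (G ^ (1 + β / 200)) ^ (1000 / β) := by rw [Real.rpow_mul hG0.le]
      _ ≤ GG y1 P0 ^ (1000 / β) := Real.rpow_le_rpow (p _).le g1 (by positivity)
  have g5 : |tt y1| ≤ 2 - 1 / GG y1 P0 := by
    have h1 := S.tb2
    have h2 := hC.tt2
    have h3 := hC.rr0
    rw [← hGdef] at h1 h3
    have h4 : 1 / GG y1 P0 ≤ G ^ (-1 - β / 200) := by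
      rw [one_div, show (-1 - β / 200 : ℝ) = -(1 + β / 200) by ring, Real.rpow_neg hG0.le]
      exact inv_anti₀ (p _) g1
    have h5 : 1 / G = G ^ (-1 : ℝ) := by
      rw [Real.rpow_neg_one, one_div]
    rw [h5] at h1
    have h6 : |tt y1| ≤ |tt y| + |tt y1 - tt y| := by
      have := abs_add_le (tt y) (tt y1 - tt y)
      rwa [add_sub_cancel] at this
    linarith
  have g6 : |(P0.c : ℝ)| ≤ (2 - GG y1 P0 ^ (-(β / 200))) * |dd y1 P0| := by
    rcases eq_or_ne (dd y1 P0) 0 with h0 | h0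
    · have := hC.sb1
      rw [h0] at this ⊢
      simpa using this
    · have h1 := hC.sb
      rw [← hGdef] at h1
      have h2 := S.sb2
      rw [← hGdef] at h2
      have hdd : 0 < |dd y P| := abs_pos.2 (dd_ne (by rw [← hGdef]; exact hG1))
      have h3 : |(P.c / dd y P : ℝ)| ≤ 2 - G ^ (-(β / 200)) := by
        rw [abs_div, div_le_iff₀ hdd]
        exact h2
      have h4 : GG y1 P0 ^ (-(β / 200)) ≤ G ^ (-(β / 200) - β ^ 2 / 40000) := by
        have h5 : GG y1 P0 ^ (-(β / 200)) ≤ (G ^ (1 + β / 200)) ^ (-(β / 200)) :=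
          Real.rpow_le_rpow_of_nonpos (p _) g1 (by linarith)
        rw [← Real.rpow_mul hG0.le] at h5
        have h6 : (1 + β / 200) * (-(β / 200)) = -(β / 200) - β ^ 2 / 40000 := by ring
        rwa [h6] at h5
      have hd1 : 0 < |dd y1 P0| := abs_pos.2 h0
      have h7 : |(P0.c / dd y1 P0 : ℝ)| ≤ 2 - GG y1 P0 ^ (-(β / 200)) := by
        have h8 := h1
        linarith
      rw [abs_div, div_le_iff₀ hd1] at h7
      exact h7
  refine ⟨hMK' g4 g5 g6, g1, g2, ?_, ?_, ?_, ?_⟩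
  · have := hC.tt2
    show |tt y1 - tt y| + 4 * rr y1 ≤ 4 * rr y
    linarith
  · show 2 * rr y1 ≤ rr y
    linarith [rr_nonneg y1]
  · have := hC.rr2
    rw [← hGdef] at this
    exact this
  · intro ξ hξ
    refine hCN' ξ S hGa hC.sb0 hC.o0 ?_ ?_ hξ
    · have h := hC.dd1
      rw [← hGdef] at h
      have e : 2 * G ^ (β / 100) * G ^ (1 + β / 100) * dl y =
          2 * G ^ (1 + 2 * (β / 100)) * dl y := by
        have : G ^ (β / 100) * G ^ (1 + β / 100) = G ^ (1 + 2 * (β / 100)) := by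
          rw [← Real.rpow_add hG0]
          ring_nf
        rw [← this]
        ring
      rwa [e] at h
    · have h := hC.dd2
      rw [← hGdef] at h
      exact h

/-- STEP: a node has many children which are nodes. -/
theorem t_STEP (hBAS : Stmt_BAS) (hCHD : Stmt_CHD) (hWCH : Stmt_WCH) (hVCH : Stmt_VCH)
    (hUNI : Stmt_UNI) (hSEP : Stmt_SEP) (hCHN : Stmt_CHN) (hHW : Stmt_HW) (hHV : Stmt_HV)
    (hEX : Stmt_EX) (hPRM : Stmt_PRM) (hMKS : Stmt_MKS) (hMKN : Stmt_MKN) : Stmt_STEP := by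
  classical
  obtain ⟨s1, β1, hs1, hβ1, hW1⟩ := hHW
  obtain ⟨s2, β2, hs2, hβ2, hV1⟩ := hHV
  refine ⟨min (min β1 β2) (min (min (s1 / 100) (s2 / 100)) (1 / 10000)), by positivity, ?_⟩
  intro β hβ hβle
  have hb1 : β ≤ β1 := hβle.trans ((min_le_left _ _).trans (min_le_left _ _))
  have hb2 : β ≤ β2 := hβle.trans ((min_le_left _ _).trans (min_le_right _ _))
  have hb3 : β ≤ s1 / 100 := hβle.trans ((min_le_right _ _).trans ((min_le_left _ _).trans
    (min_le_left _ _)))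
  have hb4 : β ≤ s2 / 100 := hβle.trans ((min_le_right _ _).trans ((min_le_left _ _).trans
    (min_le_right _ _)))
  have hb5 : β ≤ 1 / 10000 := hβle.trans ((min_le_right _ _).trans (min_le_right _ _))
  obtain ⟨g1, hCHD'⟩ := hCHD β hβ hb5
  obtain ⟨g2, hWCH'⟩ := hWCH β hβ hb5
  obtain ⟨g3, hVCH'⟩ := hVCH β hβ hb5
  obtain ⟨g4, hUNI'⟩ := hUNI β hβ hb5
  obtain ⟨g5, hSEP'⟩ := hSEP β hβ hb5
  obtain ⟨g6, hHW'⟩ := hW1 β hβ hb1
  obtain ⟨g7, hHV'⟩ := hV1 β hβ hb2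
  obtain ⟨g8, hMKS'⟩ := hMKS β hβ hb5
  obtain ⟨g9, hKid⟩ := kid β hβ hb5 hCHN hMKN
  obtain ⟨g10, hGood⟩ := goodPrimes β hβ hb5 hEX hPRM
  have e1 := pw 4 (1 - 5 * β) (1 - 3 * β) (by linarith)
  have e2 := pw 2 (1 - 4 * β) (1 - 3 * β) (by linarith)
  obtain ⟨g11, hg11⟩ := eventually_atTop.1 (e1.and (e2.and (eventually_ge_atTop (100 : ℝ))))
  refine ⟨max (max (max g1 g2) (max g3 g4)) (max (max (max g5 g6) (max g7 g8))
    (max (max g9 g10) g11)), fun y P S hG => ?_⟩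
  simp only [max_le_iff] at hG
  obtain ⟨⟨⟨k1, k2⟩, k3, k4⟩, ⟨⟨k5, k6⟩, k7, k8⟩, ⟨k9, k10⟩, k11⟩ := hG
  obtain ⟨f1, f2, hG100⟩ := hg11 _ k11
  obtain ⟨wm, v, R, H⟩ := hBAS β y P hβ hb5 S.toNd hG100
  have hG1 : 1 ≤ GG y P := by linarith
  have Z := siz S hG1
  obtain ⟨F0, hF0card, hF0⟩ := hGood y P wm v R S k10 H
  have hG0 : 0 < GG y P := by linarith
  have p : ∀ x : ℝ, 0 < GG y P ^ x := fun x => Real.rpow_pos_of_pos hG0 x
  have hB1 : 1 ≤ GG y P ^ (β / 100) := Real.one_le_rpow hG1 (by positivity)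
  -- the steps
  have hstp : ∀ q ∈ F0, ∃ (a b k g d : ℤ) (y1 P0 : V3),
      Stp β (GG y P ^ (β / 100)) y P wm v R a b (q : ℤ) k g d y1 P0 := by
    intro q hq
    obtain ⟨h1, h2, h3, a, b, k, h4, h5, h6, h7, h8, h9, h10⟩ := hF0 q hq
    obtain ⟨g, d, y1, P0, h⟩ := hMKS' (GG y P ^ (β / 100)) y P wm v R a b (q : ℤ) k S.toNd k8 hB1
      le_rfl H h4 h5 h6 h7 h1 (by exact_mod_cast h2) (by exact_mod_cast h3)
      (by push_cast; exact h8) (by push_cast; exact h9) h10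
    exact ⟨a, b, k, g, d, y1, P0, h⟩
  choose! fa fb fk fg fd fy fP hfS using hstp
  have hfC : ∀ q ∈ F0, Chd β (GG y P ^ (β / 100)) y P (q : ℤ) (fg q) (fd q) (fy q) (fP q) :=
    fun q hq => hCHD' _ y P wm v R (fy q) (fP q) (fa q) (fb q) q (fk q) (fg q) (fd q) S.toNd k1
      hB1 le_rfl H (hfS q hq)
  have hinj : ∀ q ∈ F0, ∀ q' ∈ F0, fP q = fP q' → q = q' ∧ fy q = fy q' := by
    intro q hq q' hq' he
    have h2 := hfS q' hq'
    rw [← he] at h2
    have h := hUNI' _ y P wm v R (fy q) (fy q') (fP q) (fa q) (fb q) q (fk q) (fg q) (fd q)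
      (fa q') (fb q') q' (fk q') (fg q') (fd q') S.toNd k4 hB1 le_rfl H (hfS q hq) h2
    exact ⟨by exact_mod_cast h.1, h.2⟩
  -- the planes
  have hpl : ∀ q ∈ F0, ∃ a0 b0 : ℤ, 1 ≤ b0 ∧ (b0 : ℝ) ≤ GG y P ^ (β / 100) ∧
      AA β (GG y P ^ (β / 100)) y P / (2 * GG y P ^ (β / 100)) ≤ a0 ∧
      (a0 : ℝ) ≤ AA β (GG y P ^ (β / 100)) y P ∧ fP q = lin a0 P b0 R := by
    intro q hq
    have h1 := hfS q hq
    obtain ⟨a0, b0, ha, hb, hP⟩ := plane_ab H h1.g1 h1.hP
    have hg1 : (1 : ℝ) ≤ fg q := by exact_mod_cast h1.g1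
    have hgB := (hfC q hq).gB
    have hA0 : 0 < AA β (GG y P ^ (β / 100)) y P := (p _).trans_le Z.A1
    have ha1 := h1.a1
    have ha2 := h1.a2
    have hbb1 := h1.b1
    have hbb2 := h1.b2
    have ha' : (fa q : ℝ) = fg q * a0 := by exact_mod_cast ha
    have hb' : (fb q : ℝ) = fg q * b0 := by exact_mod_cast hb
    have hap : (0 : ℝ) < a0 := by
      by_contra hcon
      rw [not_lt] at hcon
      have : (fg q : ℝ) * a0 ≤ 0 := mul_nonpos_of_nonneg_of_nonpos (by linarith) hcon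
      linarith
    have hbp : (0 : ℝ) < b0 := by
      by_contra hcon
      rw [not_lt] at hcon
      have : (fg q : ℝ) * b0 ≤ 0 := mul_nonpos_of_nonneg_of_nonpos (by linarith) hcon
      linarith
    have hb01 : 1 ≤ b0 := by
      have : 0 < b0 := by exact_mod_cast hbp
      omega
    refine ⟨a0, b0, hb01, ?_, ?_, ?_, hP⟩
    · have : (b0 : ℝ) ≤ fg q * b0 := by nlinarith
      linarith
    · rw [div_le_iff₀ (by positivity)]
      have : (fg q : ℝ) * a0 ≤ GG y P ^ (β / 100) * a0 :=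
        mul_le_mul_of_nonneg_right hgB hap.le
      linarith
    · have : (a0 : ℝ) ≤ fg q * a0 := by nlinarith
      linarith
  -- bad planes
  have hMle : ∀ s : ℝ, 0 < s → β ≤ s / 100 →
      GG y P ^ (β / 100) * AA β (GG y P ^ (β / 100)) y P ^ (1 - s) ≤ GG y P ^ (1 - 5 * β) := by
    intro s hs hbs
    have hA0 : 0 < AA β (GG y P ^ (β / 100)) y P := (p _).trans_le Z.A1
    rcases le_total 0 (1 - s) with h | h
    · have h1 : AA β (GG y P ^ (β / 100)) y P ^ (1 - s) ≤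
          (GG y P ^ (1 - β + 4 * (β / 100))) ^ (1 - s) :=
        Real.rpow_le_rpow hA0.le Z.A2 h
      rw [← Real.rpow_mul hG0.le] at h1
      calc GG y P ^ (β / 100) * AA β (GG y P ^ (β / 100)) y P ^ (1 - s)
          ≤ GG y P ^ (β / 100) * GG y P ^ ((1 - β + 4 * (β / 100)) * (1 - s)) :=
            mul_le_mul_of_nonneg_left h1 (p _).le
        _ ≤ GG y P ^ (1 - 5 * β) := by
            rw [← Real.rpow_add hG0]
            refine Real.rpow_le_rpow_of_exponent_le hG1 ?_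
            nlinarith
    · have h1 : AA β (GG y P ^ (β / 100)) y P ^ (1 - s) ≤ 1 := by
        refine Real.rpow_le_one_of_one_le_of_nonpos ?_ h
        exact (Real.one_le_rpow hG1 (by linarith)).trans Z.A1
      calc GG y P ^ (β / 100) * AA β (GG y P ^ (β / 100)) y P ^ (1 - s)
          ≤ GG y P ^ (β / 100) * 1 := mul_le_mul_of_nonneg_left h1 (p _).le
        _ ≤ GG y P ^ (1 - 5 * β) := by
            rw [mul_one]
            exact Real.rpow_le_rpow_of_exponent_le hG1 (by linarith)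
  have hbW : ((F0.filter (fun q => ¬ Wpl β (GG y P ^ (β / 100)) y P (fP q))).card : ℝ) ≤
      GG y P ^ (1 - 5 * β) := by
    refine le_trans ?_ (hMle s1 hs1 hb3)
    refine count_bad (A := AA β (GG y P ^ (β / 100)) y P) (P := P) (R := R)
      (fun X => ¬ Wpl β (GG y P ^ (β / 100)) y P X) ?_ hB1 _ fP ?_ ?_
    · intro b0 F hb0 hb0B hF
      exact hHW' (GG y P ^ (β / 100)) y P wm v R S.toNd k6 hB1 le_rfl H b0 F hb0 hb0B hF
    · intro q hq q' hq' he
      rw [Finset.mem_filter] at hq hq'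
      exact (hinj q hq.1 q' hq'.1 he).1
    · intro q hq
      rw [Finset.mem_filter] at hq
      exact ⟨hq.2, hpl q hq.1⟩
  have hbV : ((F0.filter (fun q => ¬ Vpl β y P (fP q))).card : ℝ) ≤
      GG y P ^ (1 - 5 * β) := by
    refine le_trans ?_ (hMle s2 hs2 hb4)
    refine count_bad (A := AA β (GG y P ^ (β / 100)) y P) (P := P) (R := R)
      (fun X => ¬ Vpl β y P X) ?_ hB1 _ fP ?_ ?_
    · intro b0 F hb0 hb0B hF
      exact hHV' (GG y P ^ (β / 100)) y P wm v R S.toNd k7 hB1 le_rfl H b0 F hb0 hb0B hF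
    · intro q hq q' hq' he
      rw [Finset.mem_filter] at hq hq'
      exact (hinj q hq.1 q' hq'.1 he).1
    · intro q hq
      rw [Finset.mem_filter] at hq
      exact ⟨hq.2, hpl q hq.1⟩
  set F1 := F0.filter (fun q => Wpl β (GG y P ^ (β / 100)) y P (fP q) ∧ Vpl β y P (fP q))
    with hF1
  have hF1card : GG y P ^ (1 - 4 * β) ≤ F1.card := by
    have h1 : F0 ⊆ F1 ∪ (F0.filter (fun q => ¬ Wpl β (GG y P ^ (β / 100)) y P (fP q)) ∪
        F0.filter (fun q => ¬ Vpl β y P (fP q))) := by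
      intro q hq
      simp only [hF1, Finset.mem_union, Finset.mem_filter]
      by_cases h1 : Wpl β (GG y P ^ (β / 100)) y P (fP q)
      · by_cases h2 : Vpl β y P (fP q)
        · exact Or.inl ⟨hq, h1, h2⟩
        · exact Or.inr (Or.inr ⟨hq, h2⟩)
      · exact Or.inr (Or.inl ⟨hq, h1⟩)
    have h2 := Finset.card_le_card h1
    have h3 := h2.trans (Finset.card_union_le _ _)
    have h4 := h3.trans (Nat.add_le_add_left (Finset.card_union_le _ _) _)
    have h5 : (F0.card : ℝ) ≤ F1.card +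
        (((F0.filter (fun q => ¬ Wpl β (GG y P ^ (β / 100)) y P (fP q))).card : ℝ) +
        ((F0.filter (fun q => ¬ Vpl β y P (fP q))).card : ℝ)) := by
      exact_mod_cast h4
    linarith
  refine ⟨F1.image (fun q => (fy q, fP q)), ?_, ?_, ?_⟩
  · rw [Finset.card_image_of_injOn]
    · exact hF1card
    · intro q hq q' hq' he
      have h1 : q ∈ F0 := (Finset.mem_filter.1 (Finset.mem_coe.1 hq)).1
      have h2 : q' ∈ F0 := (Finset.mem_filter.1 (Finset.mem_coe.1 hq')).1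
      exact (hinj q h1 q' h2 (Prod.ext_iff.1 he).2).1
  · intro x hx
    rw [Finset.mem_image] at hx
    obtain ⟨q, hq, rfl⟩ := hx
    rw [hF1, Finset.mem_filter] at hq
    obtain ⟨hq0, hqW, hqV⟩ := hq
    have hW := hWCH' _ y P wm v R (fy q) (fP q) (fa q) (fb q) q (fk q) (fg q) (fd q) S.toNd k2
      hB1 le_rfl H (hfS q hq0) (hfC q hq0) hqW
    have hV := hVCH' _ y P wm v R (fy q) (fP q) (fa q) (fb q) q (fk q) (fg q) (fd q) S.toNd k3
      hB1 le_rfl H (hfS q hq0) (hfC q hq0) hW hqV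
    exact hKid y P wm v R (fy q) (fP q) (fa q) (fb q) q (fk q) (fg q) (fd q) S k9
      (hfS q hq0) (hfC q hq0) hW hV
  · intro x hx x' hx' hne
    rw [Finset.mem_image] at hx hx'
    obtain ⟨q, hq, rfl⟩ := hx
    obtain ⟨q', hq', rfl⟩ := hx'
    rw [hF1, Finset.mem_filter] at hq hq'
    have hPne : fP q ≠ fP q' := by
      intro he
      apply hne
      have h := hinj q hq.1 q' hq'.1 he
      rw [h.2, he]
    exact hSEP' _ y P wm v R (fy q) (fy q') (fP q) (fP q') (fa q) (fb q) q (fk q) (fg q) (fd q)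
      (fa q') (fb q') q' (fk q') (fg q') (fd q') S.toNd k5 hB1 le_rfl H (hfS q hq.1)
      (hfS q' hq'.1) hPne

end StepP
end ULB
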