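import Pool.Agent.ULB.StmtsUCH
import Pool.Agent.WHP.Basic

/-!
# FRM: frame identities (block UCH)
-/

set_option autoImplicit false

namespace ULB

open WHP (V3 det be ga dot cross lin tt)
open WHS (hh ev der)

namespace FRMaux

theorem dl_pos {y : V3} (h : det y ≠ 0) : 0 < dl y := by
  unfold dl
  rw [abs_pos]
  exact_mod_cast h

theorem det_si (y : V3) : (det y : ℝ) = si y * dl y := by
  unfold si dl
  have h := Int.sign_mul_abs (det y)
  have h2 : ((Int.sign (det y) * |det y| : ℤ) : ℝ) = ((det y : ℤ) : ℝ) := by rw [h]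
  push_cast at h2
  exact h2.symm

theorem ca_eq {y : V3} (hY : (y.a : ℝ) ≠ 0) (w : V3) : (w.a : ℝ) = y.a * ca y w := by
  unfold ca
  field_simp

theorem zz_pos {y : V3} (hY : 0 < y.a) (h : det y ≠ 0) : 0 < zz y := by
  unfold zz
  have h1 : (0 : ℝ) < y.a := by exact_mod_cast hY
  exact div_pos (dl_pos h) h1

theorem cb_eq {y : V3} (hz : zz y ≠ 0) (w : V3) : be (tt y) w = zz y * cb y w := by
  unfold cb
  field_simp

theorem cc_eq {y : V3} (hz : zz y ≠ 0) (w : V3) : ga (tt y) w = zz y * cc y w := by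
  unfold cc
  field_simp

theorem Yz {y : V3} (hY : (y.a : ℝ) ≠ 0) : (y.a : ℝ) * zz y = dl y := by
  unfold zz
  field_simp

theorem ev_orth {y : V3} (hY : 0 < y.a) (P : V3) (hP : dot P y = 0) :
    ev P (tt y) = -(P.c * si y * rr y) := by
  have hY0 : (0 : ℝ) < y.a := by exact_mod_cast hY
  have hYne : (y.a : ℝ) ≠ 0 := ne_of_gt hY0
  have h1 := WHP.dot_eq (tt y) P y
  rw [WHP.be_self hYne, WHP.ga_self hYne, hP, det_si y] at h1
  push_cast at h1
  have h2 : (P.a + P.b * tt y + P.c * tt y ^ 2) * (y.a : ℝ) =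
      -(P.c * (si y * dl y / y.a)) := by linarith
  have h3 : ev P (tt y) * (y.a : ℝ) = -(P.c * (si y * dl y / y.a)) := h2
  have h4 : ev P (tt y) = -(P.c * (si y * dl y / y.a)) / y.a := by
    rw [eq_div_iff hYne]; exact h3
  rw [h4]
  unfold rr
  field_simp

end FRMaux

open FRMaux

/-- **FRM.** -/
theorem t_FRM : Stmt_FRM := by
  intro y hY hdet
  have hY0 : (0 : ℝ) < y.a := by exact_mod_cast hY
  have hYne : (y.a : ℝ) ≠ 0 := ne_of_gt hY0
  have hD : 0 < dl y := dl_pos hdet
  have hz : 0 < zz y := zz_pos hY hdet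
  have hzne : zz y ≠ 0 := ne_of_gt hz
  have hYz := Yz hYne
  refine ⟨?_, ?_, ?_, ?_, ?_⟩
  · intro w
    rw [WHP.det_eq (tt y) w, cb_eq hzne w, cc_eq hzne w, ca_eq hYne w, ← hYz]
    ring
  · intro w hw
    have hwne : (w.a : ℝ) ≠ 0 := by exact_mod_cast hw
    have hbe : be (tt y) w = w.b - tt y * w.a := by
      simp only [be]
      try ring
    unfold cb ca rr zz
    rw [hbe]
    have hDne : dl y ≠ 0 := ne_of_gt hD
    have htw : tt w = w.b / w.a := rfl
    rw [htw]
    field_simp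
  · intro w
    constructor
    · rw [WHP.cross_c (tt y) y w, WHP.be_self hYne, cb_eq hzne w, ← hYz]
      ring
    · have h1 : dd y (cross y w) = ((cross y w).b : ℝ) + 2 * (cross y w).c * tt y := rfl
      rw [h1, WHP.cross_der (tt y) y w, WHP.ga_self hYne, cc_eq hzne w, ca_eq hYne w, det_si y,
        ← hYz]
      field_simp
      ring
  · intro P hP
    exact ev_orth hY P hP
  · intro P w hP
    have h1 := WHP.dot_eq (tt y) P w
    have h2 : (P.a + P.b * tt y + P.c * tt y ^ 2 : ℝ) = -(P.c * si y * rr y) := ev_orth hY P hP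
    have h3 : ((P.b : ℝ) + 2 * P.c * tt y) = dd y P := rfl
    rw [h1, h2, h3, cb_eq hzne w, cc_eq hzne w, ca_eq hYne w]
    have h4 : rr y * y.a = zz y := by
      unfold rr zz
      field_simp
    have h5 : -(P.c * si y * rr y) * (y.a * ca y w) = -(P.c * si y * ca y w) * (rr y * y.a) := by
      ring
    rw [h5, h4]
    ring

end ULB
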