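import Pool.Agent.ULB.StmtsUCH

/-!
# NUM1: sizes of the numbers of a step
-/

set_option autoImplicit false

namespace ULB

namespace NUM1aux

lemma rpow_neg_nat (G : ℝ) (hG : 0 < G) (n : ℕ) : G ^ (-(n : ℝ)) = (G⁻¹) ^ n := by
  rw [Real.rpow_neg hG.le, Real.rpow_natCast, inv_pow]

/-- size of `W` -/
lemma W_bounds {N Q q gl AbD D W : ℝ} (hD : 0 < D) (hQ : 0 < Q) (hq1 : Q ≤ q) (hq2 : q ≤ 2 * Q)
    (hX : 0 < AbD) (h1 : 49 / 100 * (AbD * D) ≤ gl) (h2 : gl ≤ 101 / 100 * (AbD * D))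
    (hN : N = Q * AbD) (hN1 : 1000 ≤ N) (hW : |W - q * gl / D| ≤ 1) :
    48 / 100 * N ≤ W ∧ W ≤ 203 / 100 * N := by
  have hq0 : 0 < q := lt_of_lt_of_le hQ hq1
  have hgl0 : 0 < gl := lt_of_lt_of_le (by positivity) h1
  have hZ1 : 49 / 100 * N ≤ q * gl / D := by
    rw [le_div_iff₀ hD, hN]
    calc 49 / 100 * (Q * AbD) * D = Q * (49 / 100 * (AbD * D)) := by ring
      _ ≤ q * gl := mul_le_mul hq1 h1 (by positivity) hq0.le
  have hZ2 : q * gl / D ≤ 202 / 100 * N := by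
    rw [div_le_iff₀ hD, hN]
    calc q * gl ≤ (2 * Q) * (101 / 100 * (AbD * D)) := mul_le_mul hq2 h2 hgl0.le (by positivity)
      _ = 202 / 100 * (Q * AbD) * D := by ring
  obtain ⟨hw1, hw2⟩ := abs_le.1 hW
  constructor <;> linarith

end NUM1aux

open NUM1aux in
theorem t_NUM1 : Stmt_NUM1 := by
  intro β hβ hβ1
  refine ⟨1000, ?_⟩
  intro G B b D Y A cst Q q g e c al Y1 D1 l0 l1 r hG0 hn hp
  have hG1 : 1000 ≤ G := hp.G1
  have hGpos : 0 < G := by linarith
  have hG1' : 1 ≤ G := by linarith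
  have hD0 : 0 < D := lt_of_lt_of_le one_pos hp.D1
  have hb0 : 0 < b := lt_of_lt_of_le one_pos hp.b1
  have hA0 := hp.A0
  have hQ0 := hp.Q0
  have hc0 := hp.c0
  have hY0 := hp.Y0
  have hr0 := hp.r0
  have hAb0 : 0 < A * b := mul_pos hA0 hb0
  have he0 : 0 < e := lt_of_lt_of_le one_pos hn.he1
  have hg0 : 0 < g := lt_of_lt_of_le one_pos hn.hg1
  have hB0 : 0 < B := lt_of_lt_of_le one_pos hn.hB1
  -- N
  have hN1 : 1000 ≤ Q * (A * b) := by
    calc (1000 : ℝ) ≤ G := hG1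
      _ = G ^ (1 : ℝ) := (Real.rpow_one G).symm
      _ ≤ G ^ (19 / 10 : ℝ) := Real.rpow_le_rpow_of_exponent_le hG1' (by norm_num)
      _ ≤ Q * (A * b) := hp.N1
  have hN2 : Q * (A * b) ≤ G ^ 2 := by
    have := hp.N2
    rwa [Real.rpow_two] at this
  have hN0 : 0 < Q * (A * b) := by linarith
  -- W
  have hal := hn.hal
  have hal' : |e * al - q * (g * l0) / D| ≤ 1 := by
    rw [← mul_assoc]; exact hal
  obtain ⟨hW1, hW2⟩ := W_bounds hD0 hQ0 hn.hq1 hn.hq2 hAb0 hn.hl01 hn.hl02 rfl hN1 hal'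
  have hW0 : 0 < e * al := by linarith
  have hal0 : 0 < al := by
    by_contra hcon
    push Not at hcon
    have : e * al ≤ 0 := mul_nonpos_of_nonneg_of_nonpos he0.le hcon
    linarith
  have hcpos : 0 < c := lt_of_lt_of_le (by linarith) hn.hc1
  have hl0 : 0 < l0 := by
    by_contra hcon
    push Not at hcon
    have h1 : g * l0 ≤ 0 := mul_nonpos_of_nonneg_of_nonpos hg0.le hcon
    have h2 : 0 < 49 / 100 * (A * b * D) := by positivity
    have h3 := hn.hl01
    linarith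
  -- the small number x
  set x : ℝ := G⁻¹ with hx
  have hx0 : 0 < x := inv_pos.2 hGpos
  have hxG : x * G = 1 := inv_mul_cancel₀ hGpos.ne'
  have hx1 : x ≤ 1 / 1000 := by
    rw [hx, inv_eq_one_div]
    exact one_div_le_one_div_of_le (by norm_num) hG1
  have hx1' : x ≤ 1 := by linarith
  have hG2 : G ^ (-2 : ℝ) = x ^ 2 := by
    rw [show (-2 : ℝ) = -((2 : ℕ) : ℝ) by norm_num]
    exact rpow_neg_nat G hGpos 2
  have hG60 : G ^ (-60 : ℝ) = x ^ 60 := by
    rw [show (-60 : ℝ) = -((60 : ℕ) : ℝ) by norm_num]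
    exact rpow_neg_nat G hGpos 60
  have hGm1 : G ^ (-1 : ℝ) = x := by
    rw [Real.rpow_neg_one]
  have hr1 : r ≤ x ^ 60 := by
    have := hp.r1
    rwa [hG60] at this
  have hcx : x / 2 ≤ c := by
    have h1 := hp.c1
    rw [hGm1] at h1
    have h2 := hn.hc1
    linarith
  have hWG : e * al ≤ 203 / 100 * G ^ 2 := by
    refine hW2.trans ?_
    linarith
  -- the key small term
  have hx58 : x ^ 58 ≤ x ^ 3 / 1000 := by
    have h1 : x ^ 58 ≤ x ^ 4 := pow_le_pow_of_le_one hx0.le hx1' (by norm_num)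
    have h2 : x ^ 4 = x ^ 3 * x := by ring
    have h3 : x ^ 3 * x ≤ x ^ 3 * (1 / 1000) := mul_le_mul_of_nonneg_left hx1 (by positivity)
    rw [h2] at h1
    linarith
  have hxx : x ^ 60 * G ^ 2 = x ^ 58 := by
    have : x ^ 60 * G ^ 2 = x ^ 58 * (x * G) ^ 2 := by ring
    rw [this, hxG]
    ring
  have hkey : 9 * r * (e * al) ≤ c * (x ^ 2 / 2) := by
    calc 9 * r * (e * al) = 9 * (r * (e * al)) := by ring
      _ ≤ 9 * (x ^ 60 * (203 / 100 * G ^ 2)) := by
          apply mul_le_mul_of_nonneg_left _ (by norm_num)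
          exact mul_le_mul hr1 hWG hW0.le (by positivity)
      _ = 1827 / 100 * (x ^ 60 * G ^ 2) := by ring
      _ = 1827 / 100 * x ^ 58 := by rw [hxx]
      _ ≤ 1827 / 100 * (x ^ 3 / 1000) := mul_le_mul_of_nonneg_left hx58 (by norm_num)
      _ ≤ x / 2 * (x ^ 2 / 2) := by
          have : 0 < x ^ 3 := by positivity
          nlinarith
      _ ≤ c * (x ^ 2 / 2) := mul_le_mul_of_nonneg_right hcx (by positivity)
  have hDW : 0 < D * (e * al) := mul_pos hD0 hW0
  have hDWc : 0 < D * (e * al) * c := mul_pos hDW hcpos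
  have hE : |D1 * e ^ 2 - D * (e * al) * c| ≤ D * (e * al) * c * (x ^ 2 / 2) := by
    refine hn.hD1.trans ?_
    calc 9 * (r * D) * (e * al) ^ 2 = D * (e * al) * (9 * r * (e * al)) := by ring
      _ ≤ D * (e * al) * (c * (x ^ 2 / 2)) := mul_le_mul_of_nonneg_left hkey hDW.le
      _ = D * (e * al) * c * (x ^ 2 / 2) := by ring
  have hx2 : x ^ 2 / 2 ≤ 1 / 1000 := by
    have : x ^ 2 ≤ (1 / 1000) ^ 2 := pow_le_pow_left₀ hx0.le hx1 2
    norm_num at this ⊢
    linarith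
  have hE2 : |D1 * e ^ 2 - D * (e * al) * c| ≤ D * (e * al) * c / 1000 := by
    refine hE.trans ?_
    calc D * (e * al) * c * (x ^ 2 / 2) ≤ D * (e * al) * c * (1 / 1000) :=
          mul_le_mul_of_nonneg_left hx2 hDWc.le
      _ = D * (e * al) * c / 1000 := by ring
  obtain ⟨hE3, hE4⟩ := abs_le.1 hE2
  have he2 : 0 < e ^ 2 := by positivity
  have hD1e : 999 / 1000 * (D * (e * al) * c) ≤ D1 * e ^ 2 := by linarith
  have hD1pos : 0 < D1 := by
    by_contra hcon
    push Not at hcon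
    have : D1 * e ^ 2 ≤ 0 := mul_nonpos_of_nonpos_of_nonneg hcon he2.le
    linarith
  refine ⟨hW1, hW2, ?_, hE2, hal0, hcpos, hl0, hD1pos, ?_, ?_⟩
  · -- the relative error
    rw [hG2]
    have h1 : D1 - D * al * (c / e) = (D1 * e ^ 2 - D * (e * al) * c) / e ^ 2 := by
      field_simp
    rw [h1, abs_div, abs_of_pos he2, div_le_iff₀ he2]
    refine hE.trans ?_
    have h2 : D * (e * al) * c ≤ 2 * (D1 * e ^ 2) := by linarith
    have h3 : D * (e * al) * c * (x ^ 2 / 2) ≤ 2 * (D1 * e ^ 2) * (x ^ 2 / 2) :=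
      mul_le_mul_of_nonneg_right h2 (by positivity)
    linarith
  · -- the growth of D
    have hWc : 48 / 100 * (Q * (A * b)) * (cst / 2) ≤ (e * al) * c :=
      mul_le_mul hW1 hn.hc1 (by positivity) hW0.le
    have hWc' : 24 / 100 * (G ^ (-β) * (B * G ^ (1 + β / 100))) ≤ (e * al) * c := by
      rw [← hp.Qc, ← hp.Ab]
      refine le_trans (le_of_eq ?_) hWc
      ring
    have heB : e ^ 2 ≤ B * G ^ (β / 100) := by
      have h1 : e ≤ B := hn.he2.trans hn.hg2
      calc e ^ 2 = e * e := by ring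
        _ ≤ B * B := mul_le_mul h1 h1 he0.le hB0.le
        _ ≤ B * G ^ (β / 100) := mul_le_mul_of_nonneg_left hn.hB2 hB0.le
    have hs1 : G ^ (1 + β / 100) = G * G ^ (β / 100) := by
      rw [Real.rpow_add hGpos, Real.rpow_one]
    have hkap : 0 < G ^ (β / 100) := Real.rpow_pos_of_pos hGpos _
    have hq4 : 5 ≤ G ^ (1 / 4 : ℝ) := by
      have h1 : (5 : ℝ) = (625 : ℝ) ^ (1 / 4 : ℝ) := by
        rw [show (625 : ℝ) = 5 ^ (4 : ℝ) by norm_num, ← Real.rpow_mul (by norm_num)]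
        norm_num
      rw [h1]
      exact Real.rpow_le_rpow (by norm_num) (by linarith) (by norm_num)
    have hhalf : G ^ (1 / 2 : ℝ) ≤ 23 / 100 * (G ^ (-β) * G) := by
      have h1 : G ^ (-β) * G = G ^ (1 / 4 : ℝ) * G ^ (3 / 4 - β) := by
        rw [← Real.rpow_add hGpos]
        nth_rewrite 2 [← Real.rpow_one G]
        rw [← Real.rpow_add hGpos]
        congr 1
        ring
      have h2 : G ^ (1 / 2 : ℝ) ≤ G ^ (3 / 4 - β) :=
        Real.rpow_le_rpow_of_exponent_le hG1' (by linarith)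
      have h3 : 0 < G ^ (3 / 4 - β) := Real.rpow_pos_of_pos hGpos _
      have h4 : 5 * G ^ (3 / 4 - β) ≤ G ^ (1 / 4 : ℝ) * G ^ (3 / 4 - β) :=
        mul_le_mul_of_nonneg_right hq4 h3.le
      rw [h1]
      linarith
    have hfin : G ^ (1 / 2 : ℝ) * D * e ^ 2 ≤ D1 * e ^ 2 := by
      calc G ^ (1 / 2 : ℝ) * D * e ^ 2
          ≤ (23 / 100 * (G ^ (-β) * G)) * D * (B * G ^ (β / 100)) := by
            apply mul_le_mul _ heB he2.le
            · have : 0 < G ^ (-β) := Real.rpow_pos_of_pos hGpos _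
              positivity
            · exact mul_le_mul_of_nonneg_right hhalf hD0.le
        _ = 23 / 100 * D * (G ^ (-β) * (B * G ^ (1 + β / 100))) := by rw [hs1]; ring
        _ ≤ 999 / 1000 * (D * (e * al) * c) := by
            have h5 : D * (24 / 100 * (G ^ (-β) * (B * G ^ (1 + β / 100)))) ≤ D * ((e * al) * c) :=
              mul_le_mul_of_nonneg_left hWc' hD0.le
            have h6 : 0 < D * (G ^ (-β) * (B * G ^ (1 + β / 100))) := by
              have h7 : 0 < G ^ (-β) := Real.rpow_pos_of_pos hGpos _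
              have h8 : 0 < G ^ (1 + β / 100) := Real.rpow_pos_of_pos hGpos _
              positivity
            nlinarith
        _ ≤ D1 * e ^ 2 := hD1e
    exact le_of_mul_le_mul_right hfin he2
  · -- the growth of Y
    rw [hn.hY1]
    apply mul_le_mul_of_nonneg_right _ hY0.le
    have h1 : al ≤ e * al := by
      have := mul_le_mul_of_nonneg_right hn.he1 hal0.le
      linarith
    have h2 : (203 / 100 : ℝ) ≤ G ^ (1 / 2 : ℝ) := by
      have h3 : (5 : ℝ) ≤ G ^ (1 / 2 : ℝ) := by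
        have h1 : (5 : ℝ) = (25 : ℝ) ^ (1 / 2 : ℝ) := by
          rw [show (25 : ℝ) = 5 ^ (2 : ℝ) by norm_num, ← Real.rpow_mul (by norm_num)]
          norm_num
        rw [h1]
        exact Real.rpow_le_rpow (by norm_num) (by linarith) (by norm_num)
      linarith
    calc al ≤ e * al := h1
      _ ≤ 203 / 100 * G ^ 2 := hWG
      _ ≤ G ^ (1 / 2 : ℝ) * G ^ 2 := mul_le_mul_of_nonneg_right h2 (by positivity)
      _ = G ^ (5 / 2 : ℝ) := by
          rw [← Real.rpow_natCast G 2, ← Real.rpow_add hGpos]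
          norm_num

end ULB
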