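import Pool.Agent.ULB.StmtsUCH

/-!
# NUM2: the parameter `G` of the child
-/

set_option autoImplicit false

namespace ULB

namespace NUM2aux

/-- products of the bounds -/
theorem core {T U E1 F1 : ℝ} (hT : 0 < T) (hU : 0 < U)
    (e1 : 999 / 1000 * T ≤ E1) (e2 : E1 ≤ 1001 / 1000 * T)
    (f1 : 999 / 1000 * (49 / 100 * U) ≤ F1) (f2 : F1 ≤ 1001 / 1000 * (101 / 100 * U)) :
    48 / 100 * (T * U) ≤ E1 * F1 ∧ E1 * F1 ≤ 102 / 100 * (T * U) := by
  have hTU : 0 < T * U := mul_pos hT hU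
  have h1 : 999 / 1000 * T * (999 / 1000 * (49 / 100 * U)) ≤ E1 * F1 :=
    mul_le_mul e1 f1 (by positivity) (le_trans (by positivity) e1)
  have h2 : E1 * F1 ≤ 1001 / 1000 * T * (1001 / 1000 * (101 / 100 * U)) :=
    mul_le_mul e2 f2 (le_trans (by positivity) f1) (by positivity)
  constructor
  · nlinarith
  · nlinarith

end NUM2aux

theorem t_NUM2 : Stmt_NUM2 := by
  intro β G B b D Y A cst Q q g e c al Y1 D1 l0 l1 r hN hP hDc hal hc hl0 hD1
  have hG : (0 : ℝ) < G := by linarith [hP.G1]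
  have hB0 : 0 < B := by linarith [hN.hB1]
  have hD0 : 0 < D := by linarith [hP.D1]
  have hb0 : 0 < b := by linarith [hP.b1]
  have he0 : 0 < e := by linarith [hN.he1]
  have hg0 : 0 < g := by linarith [hN.hg1]
  obtain ⟨P, hPd⟩ : ∃ P : ℝ, P = G ^ (1 - β / 400) := ⟨_, rfl⟩
  have hP0 : 0 < P := by rw [hPd]; exact Real.rpow_pos_of_pos hG _
  have hPS : P * G ^ (β / 400) = G := by
    rw [hPd, ← Real.rpow_add hG]
    have : 1 - β / 400 + β / 400 = 1 := by ring
    rw [this, Real.rpow_one]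
  rw [← hPd]
  -- the two products
  have hT : 0 < D * (e * al) * c := by positivity
  have hU : 0 < A * b * D := mul_pos (mul_pos hP.A0 hb0) hD0
  have a1 := abs_le.1 hDc
  have a2 := abs_le.1 hN.hl1
  have hl1 : 0 < l1 := by linarith [a2.1]
  have e1 : 999 / 1000 * (D * (e * al) * c) ≤ D1 * e ^ 2 := by linarith [a1.1]
  have e2 : D1 * e ^ 2 ≤ 1001 / 1000 * (D * (e * al) * c) := by linarith [a1.2]
  have f1 : 999 / 1000 * (49 / 100 * (A * b * D)) ≤ g * l1 := by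
    have h1 : g * (999 / 1000 * l0) ≤ g * l1 :=
      mul_le_mul_of_nonneg_left (by linarith [a2.1]) hg0.le
    linarith [hN.hl01]
  have f2 : g * l1 ≤ 1001 / 1000 * (101 / 100 * (A * b * D)) := by
    have h1 : g * l1 ≤ g * (1001 / 1000 * l0) :=
      mul_le_mul_of_nonneg_left (by linarith [a2.2]) hg0.le
    linarith [hN.hl02]
  obtain ⟨c1, c2⟩ := NUM2aux.core hT hU e1 e2 f1 f2
  -- `W = e al`
  obtain ⟨W, hW⟩ : ∃ W : ℝ, W = e * al := ⟨_, rfl⟩
  have hW0 : 0 < W := by rw [hW]; positivity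
  have hYW : B * P * (cst * (A * b * D ^ 2 * W)) = Y * W := by
    rw [hN.hY]
    calc B * P * (cst * (A * b * D ^ 2 * W)) = P * (cst * A * B) * b * D ^ 2 * W := by ring
      _ = P * G ^ (β / 400) * b * D ^ 2 * W := by rw [hP.cAB]
      _ = _ := by rw [hPS]
  have hX0 : 0 < A * b * D ^ 2 * W := by
    have := hP.A0
    positivity
  have hTU : D * (e * al) * c * (A * b * D) = c * (A * b * D ^ 2 * W) := by
    rw [hW]; ring
  rw [hTU] at c1 c2
  have hBP : 0 < B * P := mul_pos hB0 hP0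
  have up : B * P * (c * (A * b * D ^ 2 * W)) ≤ Y * W := by
    rw [← hYW]
    exact mul_le_mul_of_nonneg_left (mul_le_mul_of_nonneg_right hN.hc2 hX0.le) hBP.le
  have lo : 1 / 2 * (Y * W) ≤ B * P * (c * (A * b * D ^ 2 * W)) := by
    rw [← hYW]
    have h1 : cst / 2 * (A * b * D ^ 2 * W) ≤ c * (A * b * D ^ 2 * W) :=
      mul_le_mul_of_nonneg_right hN.hc1 hX0.le
    have h2 := mul_le_mul_of_nonneg_left h1 hBP.le
    linarith
  have hYW0 : 0 < Y * W := mul_pos hP.Y0 hW0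
  have heg : 0 < e ^ 2 * g := by positivity
  have hY1 : Y1 * (e ^ 2 * g) = Y * W * (e * g) := by
    rw [hN.hY1, hW]; ring
  have heg1 : 1 ≤ e * g := by nlinarith [hN.he1, hN.hg1]
  have heg2 : e * g ≤ B ^ 2 := by
    have h1 : e * g ≤ B * B :=
      mul_le_mul (hN.he2.trans hN.hg2) hN.hg2 hg0.le hB0.le
    linarith [sq B, h1]
  constructor
  · rw [le_div_iff₀ (mul_pos hD1 hl1)]
    refine le_of_mul_le_mul_right ?_ heg
    rw [hY1]
    have h1 : 9 / 10 * B * P * (D1 * l1) * (e ^ 2 * g) =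
        9 / 10 * (B * P * (D1 * e ^ 2 * (g * l1))) := by ring
    rw [h1]
    have h2 : B * P * (D1 * e ^ 2 * (g * l1)) ≤ B * P * (102 / 100 * (c * (A * b * D ^ 2 * W))) :=
      mul_le_mul_of_nonneg_left c2 hBP.le
    have h3 : Y * W * 1 ≤ Y * W * (e * g) := mul_le_mul_of_nonneg_left heg1 hYW0.le
    linarith
  · rw [div_le_iff₀ (mul_pos hD1 hl1)]
    refine le_of_mul_le_mul_right ?_ heg
    rw [hY1]
    have h1 : 5 * B ^ 3 * P * (D1 * l1) * (e ^ 2 * g) =
        5 * (B ^ 2 * (B * P * (D1 * e ^ 2 * (g * l1)))) := by ring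
    rw [h1]
    have h2 : B * P * (48 / 100 * (c * (A * b * D ^ 2 * W))) ≤ B * P * (D1 * e ^ 2 * (g * l1)) :=
      mul_le_mul_of_nonneg_left c1 hBP.le
    have h3 : Y * W * (e * g) ≤ Y * W * B ^ 2 := mul_le_mul_of_nonneg_left heg2 hYW0.le
    have h4 : 24 / 100 * (Y * W) ≤ B * P * (D1 * e ^ 2 * (g * l1)) := by linarith
    have h5 := mul_le_mul_of_nonneg_left h4 (by positivity : (0 : ℝ) ≤ B ^ 2)
    have h6 : 0 < B ^ 2 * (Y * W) := by positivity
    linarith

end ULB
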