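import Pool.Agent.ULB.StmtsUCH

/-!
# NUM3: `b` of the child   (module UC_NUM3, helper1)
-/

set_option autoImplicit false

namespace ULB

namespace NUM3aux

/-- `W` is close to `Z` -/
lemma close {W Z : ℝ} (h1 : |W - Z| ≤ 1) (h2 : 480 ≤ W) :
    W ≤ 101 / 100 * Z ∧ 99 / 100 * Z ≤ W := by
  have h := abs_le.1 h1
  constructor <;> linarith [h.1, h.2]

/-- the size of `W` -/
lemma sizeW {G N W : ℝ} (hG : 1000 ≤ G) (hN : G ^ (19 / 10 : ℝ) ≤ N) (hW : 48 / 100 * N ≤ W) :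
    480 ≤ W := by
  have h1 : G ^ (1 : ℝ) ≤ G ^ (19 / 10 : ℝ) :=
    Real.rpow_le_rpow_of_exponent_le (by linarith) (by norm_num)
  rw [Real.rpow_one] at h1
  linarith

end NUM3aux

open NUM3aux in
theorem t_NUM3 : Stmt_NUM3 := by
  intro β G B b D Y A cst Q q g e c al Y1 D1 l0 l1 r hN hP hW hD hal hc hl0 hD1
  have hG0 : (0 : ℝ) < G := by linarith [hP.G1]
  have hD0 : (0 : ℝ) < D := by linarith [hP.D1]
  have hq0 : 0 < q := hP.Q0.trans_le hN.hq1
  have hg0 : (0 : ℝ) < g := by linarith [hN.hg1]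
  have he0 : (0 : ℝ) < e := by linarith [hN.he1]
  have hB0 : (0 : ℝ) < B := by linarith [hN.hB1]
  -- the variables `W`, `Z`
  obtain ⟨W, hWdef⟩ : ∃ W, W = e * al := ⟨_, rfl⟩
  obtain ⟨Z, hZdef⟩ : ∃ Z, Z = q * g * l0 / D := ⟨_, rfl⟩
  rw [← hWdef] at hW hD
  have hcl : |W - Z| ≤ 1 := by
    rw [hWdef, hZdef]
    exact hN.hal
  have hW480 : 480 ≤ W := sizeW hP.G1 hP.N1 hW
  obtain ⟨hWZ1, hWZ2⟩ := close hcl hW480
  have hDZ : D * Z = q * g * l0 := by
    rw [hZdef]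
    field_simp
  -- the power `u = G^β`
  obtain ⟨u, hu⟩ : ∃ u, u = G ^ β := ⟨_, rfl⟩
  have hu0 : 0 < u := by rw [hu]; positivity
  have hQc : u * (Q * cst) = 1 := by
    rw [hu, hP.Qc, ← Real.rpow_add hG0]
    simp
  rw [← hu]
  have hDD := abs_le.1 hD
  -- `x = D W c`
  obtain ⟨x, hx⟩ : ∃ x, x = D * W * c := ⟨_, rfl⟩
  have hx' : D * (e * al) * c = x := by rw [hx, hWdef]
  rw [← hx] at hDD
  have hx1 : x ≤ 101 / 100 * (q * g * l0 * c) := by
    have h1 : D * W ≤ D * (101 / 100 * Z) := mul_le_mul_of_nonneg_left hWZ1 hD0.le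
    have h2 : D * W * c ≤ D * (101 / 100 * Z) * c := mul_le_mul_of_nonneg_right h1 hc.le
    calc x = D * W * c := hx
      _ ≤ D * (101 / 100 * Z) * c := h2
      _ = 101 / 100 * ((D * Z) * c) := by ring
      _ = 101 / 100 * (q * g * l0 * c) := by rw [hDZ]
  have hx2 : 99 / 100 * (q * g * l0 * c) ≤ x := by
    have h1 : D * (99 / 100 * Z) ≤ D * W := mul_le_mul_of_nonneg_left hWZ2 hD0.le
    have h2 : D * (99 / 100 * Z) * c ≤ D * W * c := mul_le_mul_of_nonneg_right h1 hc.le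
    calc 99 / 100 * (q * g * l0 * c) = 99 / 100 * ((D * Z) * c) := by rw [hDZ]
      _ = D * (99 / 100 * Z) * c := by ring
      _ ≤ D * W * c := h2
      _ = x := hx.symm
  -- `y = g l0`
  have hgl : 0 < g * l0 := mul_pos hg0 hl0
  have hqc1 : q * c ≤ 2 * (Q * cst) := by
    have h1 : q * c ≤ (2 * Q) * cst :=
      mul_le_mul hN.hq2 hN.hc2 hc.le (by linarith [hP.Q0])
    linarith
  have hqc2 : Q * cst / 2 ≤ q * c := by
    have h1 : Q * (cst / 2) ≤ q * c :=
      mul_le_mul hN.hq1 hN.hc1 (by linarith [hP.c0]) hq0.le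
    linarith
  have hy1 : q * g * l0 * c ≤ 2 * (Q * cst) * (g * l0) := by
    have := mul_le_mul_of_nonneg_right hqc1 hgl.le
    calc q * g * l0 * c = q * c * (g * l0) := by ring
      _ ≤ 2 * (Q * cst) * (g * l0) := this
  have hy2 : Q * cst / 2 * (g * l0) ≤ q * g * l0 * c := by
    have := mul_le_mul_of_nonneg_right hqc2 hgl.le
    calc Q * cst / 2 * (g * l0) ≤ q * c * (g * l0) := this
      _ = q * g * l0 * c := by ring
  have hl1 := abs_le.1 hN.hl1
  have hl1lo : 999 / 1000 * l0 ≤ l1 := by linarith [hl1.1]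
  have hl1hi : l1 ≤ 1001 / 1000 * l0 := by linarith [hl1.2]
  -- upper bound for `u D1 e^2`
  have hup : u * (D1 * e ^ 2) ≤ 203 / 100 * (g * l0) := by
    have h1 : D1 * e ^ 2 ≤ 1001 / 1000 * (101 / 100 * (2 * (Q * cst) * (g * l0))) := by
      linarith [hDD.2]
    have h2 := mul_le_mul_of_nonneg_left h1 hu0.le
    have h3 : u * (1001 / 1000 * (101 / 100 * (2 * (Q * cst) * (g * l0)))) =
        1001 / 1000 * (101 / 100) * 2 * (g * l0) := by
      calc u * (1001 / 1000 * (101 / 100 * (2 * (Q * cst) * (g * l0)))) =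
            1001 / 1000 * (101 / 100) * 2 * (g * l0) * (u * (Q * cst)) := by ring
        _ = 1001 / 1000 * (101 / 100) * 2 * (g * l0) := by rw [hQc, mul_one]
    rw [h3] at h2
    linarith
  have hlo : 49 / 100 * (g * l0) ≤ u * (D1 * e ^ 2) := by
    have h1 : 999 / 1000 * (99 / 100 * (Q * cst / 2 * (g * l0))) ≤ D1 * e ^ 2 := by
      linarith [hDD.1]
    have h2 := mul_le_mul_of_nonneg_left h1 hu0.le
    have h3 : u * (999 / 1000 * (99 / 100 * (Q * cst / 2 * (g * l0)))) =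
        999 / 1000 * (99 / 100) / 2 * (g * l0) := by
      calc u * (999 / 1000 * (99 / 100 * (Q * cst / 2 * (g * l0)))) =
            999 / 1000 * (99 / 100) / 2 * (g * l0) * (u * (Q * cst)) := by ring
        _ = 999 / 1000 * (99 / 100) / 2 * (g * l0) := by rw [hQc, mul_one]
    rw [h3] at h2
    linarith
  constructor
  · rw [mul_div_assoc', le_div_iff₀ hD1]
    have he2 : (1 : ℝ) ≤ e ^ 2 := one_le_pow₀ hN.he1
    have h1 : u * D1 ≤ u * (D1 * e ^ 2) := by
      have h0 : 0 ≤ u * D1 := (mul_pos hu0 hD1).le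
      calc u * D1 = u * D1 * 1 := by ring
        _ ≤ u * D1 * e ^ 2 := mul_le_mul_of_nonneg_left he2 h0
        _ = u * (D1 * e ^ 2) := by ring
    have h2 : g * l0 ≤ B * l0 := mul_le_mul_of_nonneg_right hN.hg2 hl0.le
    have h3 : B * (999 / 1000 * l0) ≤ B * l1 := mul_le_mul_of_nonneg_left hl1lo hB0.le
    have h4 : 0 < B * l0 := mul_pos hB0 hl0
    linarith
  · rw [div_le_iff₀ hD1]
    -- `e^2 ≤ g B`
    have he2 : e ^ 2 ≤ g * B := by
      have h1 : e * e ≤ g * B :=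
        mul_le_mul hN.he2 (hN.he2.trans hN.hg2) he0.le hg0.le
      nlinarith
    have h0 : 0 < u * D1 := mul_pos hu0 hD1
    have h1 : u * (D1 * e ^ 2) ≤ u * D1 * (g * B) := by
      calc u * (D1 * e ^ 2) = u * D1 * e ^ 2 := by ring
        _ ≤ u * D1 * (g * B) := mul_le_mul_of_nonneg_left he2 h0.le
    have h2 : g * (49 / 100 * l0) ≤ g * (u * D1 * B) := by
      calc g * (49 / 100 * l0) = 49 / 100 * (g * l0) := by ring
        _ ≤ u * (D1 * e ^ 2) := hlo
        _ ≤ u * D1 * (g * B) := h1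
        _ = g * (u * D1 * B) := by ring
    have h3 : 49 / 100 * l0 ≤ u * D1 * B := le_of_mul_le_mul_left h2 hg0
    have h4 : 3 * B * u * D1 = 3 * (u * D1 * B) := by ring
    rw [h4]
    linarith

end ULB
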