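import Pool.Agent.ULB.StmtsUCH

set_option autoImplicit false

namespace ULB

namespace NUM4aux

/-- lower bound of `cst / N` -/
theorem low (β G B b A cst Q u N : ℝ) (hG : 0 < G) (hu1 : 1 ≤ u) (hB1 : 1 ≤ B) (hBu : B ≤ u ^ 4)
    (hb : 1 ≤ b) (hc : 0 < cst) (hQ : 0 < Q) (hA : 0 < A)
    (hAb : A * b = B * (G * u ^ 4)) (hcAB : cst * A * B = u) (hQc : Q * cst = (u ^ 400)⁻¹)
    (hN : N = Q * (A * b)) (hu5 : 5 ≤ u ^ 200) :
    406 / 100 * N ≤ 999 / 1000 * (cst * G ^ 3) := by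
  have hu0 : 0 < u := by linarith
  have hB0 : 0 < B := by linarith
  have h1 : cst * G * B ^ 2 * u ^ 3 = b := by
    have h : cst * (A * b) * B = u * b := by
      calc cst * (A * b) * B = (cst * A * B) * b := by ring
        _ = u * b := by rw [hcAB]
    rw [hAb] at h
    have h' : u * (cst * G * B ^ 2 * u ^ 3) = u * b := by
      calc u * (cst * G * B ^ 2 * u ^ 3) = cst * (B * (G * u ^ 4)) * B := by ring
        _ = u * b := h
    exact mul_left_cancel₀ hu0.ne' h'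
  have h2 : N * cst * u ^ 396 = B * G := by
    have h : N * cst = (u ^ 400)⁻¹ * (B * (G * u ^ 4)) := by
      rw [hN, hAb]
      calc Q * (B * (G * u ^ 4)) * cst = (Q * cst) * (B * (G * u ^ 4)) := by ring
        _ = _ := by rw [hQc]
    have h400 : u ^ 400 = u ^ 396 * u ^ 4 := by rw [← pow_add]
    have hp396 : (u ^ 396 : ℝ) ≠ 0 := (pow_pos hu0 _).ne'
    have hp4 : (u ^ 4 : ℝ) ≠ 0 := (pow_pos hu0 _).ne'
    rw [h, h400, mul_inv]
    field_simp
  have hU : u ^ 200 ≤ u ^ 370 := pow_le_pow_right₀ hu1 (by norm_num)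
  have hB5 : B ^ 5 ≤ u ^ 20 := by
    calc B ^ 5 ≤ (u ^ 4) ^ 5 := pow_le_pow_left₀ hB0.le hBu 5
      _ = u ^ 20 := by rw [← pow_mul]
  -- main inequality
  have h3 : 406 / 100 * B ^ 5 ≤ 999 / 1000 * ((cst * G * B ^ 2 * u ^ 3) ^ 2 * u ^ 390) := by
    rw [h1]
    have hb2 : 1 ≤ b ^ 2 := one_le_pow₀ hb
    have e1 : u ^ 390 = u ^ 20 * u ^ 370 := by rw [← pow_add]
    have hp : 0 < u ^ 20 := pow_pos hu0 _
    have hp2 : 0 < u ^ 390 := pow_pos hu0 _
    have hx : u ^ 20 * 5 ≤ u ^ 390 := by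
      rw [e1]; exact mul_le_mul_of_nonneg_left (hu5.trans hU) hp.le
    have hy : u ^ 390 ≤ b ^ 2 * u ^ 390 := le_mul_of_one_le_left hp2.le hb2
    linarith
  have h4 : 406 / 100 * B * B ^ 4 ≤ 999 / 1000 * ((cst * G) ^ 2 * u ^ 396) * B ^ 4 := by
    have e1 : u ^ 396 = (u ^ 3) ^ 2 * u ^ 390 := by rw [← pow_mul, ← pow_add]
    have e2 : 999 / 1000 * ((cst * G) ^ 2 * u ^ 396) * B ^ 4 =
        999 / 1000 * ((cst * G * B ^ 2 * u ^ 3) ^ 2 * u ^ 390) := by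
      rw [e1]; ring
    have e3 : 406 / 100 * B * B ^ 4 = 406 / 100 * B ^ 5 := by ring
    rw [e2, e3]; exact h3
  have h5 : 406 / 100 * B ≤ 999 / 1000 * ((cst * G) ^ 2 * u ^ 396) :=
    le_of_mul_le_mul_right h4 (pow_pos hB0 4)
  have hp : 0 < cst * u ^ 396 := mul_pos hc (pow_pos hu0 _)
  have h6 : 406 / 100 * N * (cst * u ^ 396) ≤ 999 / 1000 * (cst * G ^ 3) * (cst * u ^ 396) := by
    have e1 : 406 / 100 * N * (cst * u ^ 396) = 406 / 100 * B * G := by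
      calc 406 / 100 * N * (cst * u ^ 396) = 406 / 100 * (N * cst * u ^ 396) := by ring
        _ = 406 / 100 * B * G := by rw [h2]; ring
    have e2 : 999 / 1000 * (cst * G ^ 3) * (cst * u ^ 396) =
        999 / 1000 * ((cst * G) ^ 2 * u ^ 396) * G := by ring
    rw [e1, e2]
    exact mul_le_mul_of_nonneg_right h5 hG.le
  exact le_of_mul_le_mul_right h6 hp

end NUM4aux

theorem t_NUM4 : Stmt_NUM4 := by
  intro β hβ hβ1
  refine ⟨max 1000 ((5 : ℝ) ^ (2 / β)), ?_⟩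
  intro G B b D Y A cst Q q g e c al Y1 D1 l0 l1 r hG0 hN hP hW1 hW2 hD hal hc hD1
  have hG : (1000 : ℝ) ≤ G := (le_max_left _ _).trans hG0
  have hG5 : (5 : ℝ) ^ (2 / β) ≤ G := (le_max_right _ _).trans hG0
  have hGp : 0 < G := by linarith
  have hY := hP.Y0
  have he : 0 < e := by linarith [hN.he1]
  have hW : 0 < e * al := mul_pos he hal
  have hr := hP.r0
  have hDp : 0 < D := by linarith [hP.D1]
  have hY1 : Y1 = al * Y := hN.hY1
  have hY1p : 0 < Y1 := by rw [hY1]; exact mul_pos hal hY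
  obtain ⟨hDl, hDu⟩ := abs_le.mp hD
  have hcst := hP.c0
  set N : ℝ := Q * (A * b) with hNdef
  have hNpos : 0 < N := by
    have := hP.N1
    have h2 : 0 < G ^ (19 / 10 : ℝ) := Real.rpow_pos_of_pos hGp _
    linarith
  -- identity
  have hid : Y1 ^ 2 * e ^ 2 * r = (e * al) ^ 2 * D := by
    rw [hY1, ← hP.rD]; ring
  constructor
  · -- upper bound
    rw [div_le_iff₀ (pow_pos hY1p 2)]
    -- D1 <= r G^-2 Y1^2
    have h1 : D1 * e ^ 2 ≤ 1001 / 1000 * (D * (e * al) * c) := by linarith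
    have h2 : c * G ^ (2 : ℝ) * (1001 / 1000) ≤ e * al := by
      have ha : c ≤ G ^ (-(99 / 100) : ℝ) := hN.hc2.trans hP.c2
      have hb : c * G ^ (2 : ℝ) ≤ G ^ (-(99 / 100) : ℝ) * G ^ (2 : ℝ) :=
        mul_le_mul_of_nonneg_right ha (Real.rpow_nonneg hGp.le _)
      have hb2 : G ^ (-(99 / 100) : ℝ) * G ^ (2 : ℝ) = G ^ (101 / 100 : ℝ) := by
        rw [← Real.rpow_add hGp]; norm_num
      have hd : G ^ (19 / 10 : ℝ) = G ^ (101 / 100 : ℝ) * G ^ (89 / 100 : ℝ) := by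
        rw [← Real.rpow_add hGp]; norm_num
      have he2 : (3 : ℝ) ≤ G ^ (89 / 100 : ℝ) := by
        have h1 : (1000 : ℝ) ^ (1 / 3 : ℝ) ≤ G ^ (1 / 3 : ℝ) :=
          Real.rpow_le_rpow (by norm_num) hG (by norm_num)
        have h2 : (1000 : ℝ) ^ (1 / 3 : ℝ) = 10 := by
          rw [show (1000 : ℝ) = 10 ^ (3 : ℝ) by norm_num, ← Real.rpow_mul (by norm_num)]
          norm_num
        have h3 : G ^ (1 / 3 : ℝ) ≤ G ^ (89 / 100 : ℝ) :=
          Real.rpow_le_rpow_of_exponent_le (by linarith) (by norm_num)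
        linarith
      have hf : G ^ (101 / 100 : ℝ) * 3 ≤ G ^ (19 / 10 : ℝ) := by
        rw [hd]
        exact mul_le_mul_of_nonneg_left he2 (Real.rpow_nonneg hGp.le _)
      have hg : G ^ (19 / 10 : ℝ) ≤ N := hP.N1
      rw [hb2] at hb
      have hp : 0 < G ^ (101 / 100 : ℝ) := Real.rpow_pos_of_pos hGp _
      linarith
    have hGG : G ^ (-2 : ℝ) * G ^ (2 : ℝ) = 1 := by
      rw [← Real.rpow_add hGp]; norm_num
    have hGp2 : 0 < G ^ (2 : ℝ) := Real.rpow_pos_of_pos hGp _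
    have h3 : D1 * (e ^ 2 * G ^ (2 : ℝ)) ≤ r * G ^ (-2 : ℝ) * Y1 ^ 2 * (e ^ 2 * G ^ (2 : ℝ)) := by
      have e1 : r * G ^ (-2 : ℝ) * Y1 ^ 2 * (e ^ 2 * G ^ (2 : ℝ)) = (e * al) ^ 2 * D := by
        calc r * G ^ (-2 : ℝ) * Y1 ^ 2 * (e ^ 2 * G ^ (2 : ℝ)) =
            (Y1 ^ 2 * e ^ 2 * r) * (G ^ (-2 : ℝ) * G ^ (2 : ℝ)) := by ring
          _ = _ := by rw [hGG, hid, mul_one]
      rw [e1]
      calc D1 * (e ^ 2 * G ^ (2 : ℝ)) = (D1 * e ^ 2) * G ^ (2 : ℝ) := by ring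
        _ ≤ (1001 / 1000 * (D * (e * al) * c)) * G ^ (2 : ℝ) :=
            mul_le_mul_of_nonneg_right h1 hGp2.le
        _ = (D * (e * al)) * (c * G ^ (2 : ℝ) * (1001 / 1000)) := by ring
        _ ≤ (D * (e * al)) * (e * al) := mul_le_mul_of_nonneg_left h2 (mul_pos hDp hW).le
        _ = (e * al) ^ 2 * D := by ring
    exact le_of_mul_le_mul_right h3 (mul_pos (pow_pos he 2) hGp2)
  · -- lower bound
    rw [le_div_iff₀ (pow_pos hY1p 2)]
    set u : ℝ := G ^ (β / 400) with hu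
    have hu1 : 1 ≤ u := Real.one_le_rpow (by linarith) (by positivity)
    have hupow : ∀ n : ℕ, u ^ n = G ^ (β / 400 * n) := by
      intro n
      rw [hu, Real.rpow_mul hGp.le, Real.rpow_natCast]
    have hBu : B ≤ u ^ 4 := by
      have h := hN.hB2
      have h' : G ^ (β / 100) = u ^ 4 := by
        rw [hupow 4]; congr 1; push_cast; ring
      rw [h'] at h; exact h
    have hAb : A * b = B * (G * u ^ 4) := by
      rw [hP.Ab, Real.rpow_add hGp, Real.rpow_one]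
      have h' : G ^ (β / 100) = u ^ 4 := by
        rw [hupow 4]; congr 1; push_cast; ring
      rw [h']
    have hQc : Q * cst = (u ^ 400)⁻¹ := by
      rw [hP.Qc, Real.rpow_neg hGp.le]
      have h' : G ^ β = u ^ 400 := by
        rw [hupow 400]; congr 1; push_cast; ring
      rw [h']
    have hu5 : 5 ≤ u ^ 200 := by
      rw [hupow 200]
      have h1 : ((5 : ℝ) ^ (2 / β)) ^ (β / 400 * (200 : ℕ)) ≤ G ^ (β / 400 * (200 : ℕ)) :=
        Real.rpow_le_rpow (by positivity) hG5 (by positivity)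
      have h2 : ((5 : ℝ) ^ (2 / β)) ^ (β / 400 * (200 : ℕ)) = 5 := by
        rw [← Real.rpow_mul (by norm_num)]
        have : 2 / β * (β / 400 * (200 : ℕ)) = 1 := by
          push_cast; field_simp; norm_num
        rw [this, Real.rpow_one]
      linarith
    have hlow : 406 / 100 * N ≤ 999 / 1000 * (cst * G ^ 3) :=
      NUM4aux.low β G B b A cst Q u N hGp hu1 hN.hB1 hBu hP.b1 hP.c0 hP.Q0 hP.A0 hAb hP.cAB hQc
        hNdef hu5
    have h1 : 999 / 1000 * (D * (e * al) * c) ≤ D1 * e ^ 2 := by linarith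
    have hG3 : G ^ (-3 : ℝ) * G ^ 3 = 1 := by
      have : G ^ (3 : ℕ) = G ^ (3 : ℝ) := by
        rw [← Real.rpow_natCast]; norm_num
      rw [this, ← Real.rpow_add hGp]; norm_num
    have hG3p : 0 < G ^ 3 := pow_pos hGp 3
    have h2 : e * al ≤ 999 / 1000 * (c * G ^ 3) := by
      have hc1 := hN.hc1
      have h3 : cst / 2 * G ^ 3 ≤ c * G ^ 3 := mul_le_mul_of_nonneg_right hc1 hG3p.le
      linarith
    have h3 : r * G ^ (-3 : ℝ) * Y1 ^ 2 * (e ^ 2 * G ^ 3) ≤ D1 * (e ^ 2 * G ^ 3) := by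
      have e1 : r * G ^ (-3 : ℝ) * Y1 ^ 2 * (e ^ 2 * G ^ 3) = (e * al) ^ 2 * D := by
        calc r * G ^ (-3 : ℝ) * Y1 ^ 2 * (e ^ 2 * G ^ 3) =
            (Y1 ^ 2 * e ^ 2 * r) * (G ^ (-3 : ℝ) * G ^ 3) := by ring
          _ = _ := by rw [hG3, hid, mul_one]
      rw [e1]
      calc (e * al) ^ 2 * D = (D * (e * al)) * (e * al) := by ring
        _ ≤ (D * (e * al)) * (999 / 1000 * (c * G ^ 3)) :=
            mul_le_mul_of_nonneg_left h2 (mul_pos hDp hW).le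
        _ = (999 / 1000 * (D * (e * al) * c)) * G ^ 3 := by ring
        _ ≤ (D1 * e ^ 2) * G ^ 3 := mul_le_mul_of_nonneg_right h1 hG3p.le
        _ = D1 * (e ^ 2 * G ^ 3) := by ring
    exact le_of_mul_le_mul_right h3 (mul_pos (pow_pos he 2) hG3p)

end ULB
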