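import Pool.Agent.ULB.StmtsUCH

/-!
# The plane of a step
-/

set_option autoImplicit false

namespace ULB

theorem t_PLN : Stmt_PLN := by
  intro β G B b D Y A cst Q r L L0 M p p0 m a b' g hP hY hB hL hM ha1 ha2 hb0 hb1 hg hgL hgp hdet
  have hD := hP.D1
  have hb := hP.b1
  have hA0 := hP.A0
  have hA1 := hP.A1
  have hG := hP.G1
  have hD0 : 0 < D := by linarith
  have hbp : 0 < b := by linarith
  have hbD : 0 < b * D := mul_pos hbp hD0
  have hG0 : 0 < G := by linarith
  have hB0 : 0 < B := by linarith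
  have hLpos : 0 < |L| := by rw [hL]; exact hbD
  have hLne : L ≠ 0 := abs_pos.1 hLpos
  have ha0 : 0 < a := by linarith
  have hg0 : 0 < g := by linarith
  have hb'M : |b' * M| ≤ B * (b * D) := by
    rw [abs_mul, abs_of_nonneg hb0]
    exact mul_le_mul hb1 (hM.trans hL.le) (abs_nonneg _) hB0.le
  have e1 : |g * L0| = g * |L0| := by rw [abs_mul, abs_of_pos hg0]
  have e2 : |a * L| = a * (b * D) := by rw [abs_mul, abs_of_pos ha0, hL]
  have l1 : a * (b * D) - B * (b * D) ≤ g * |L0| := by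
    rw [← e1, hgL]
    have h := abs_sub_abs_le_abs_sub (a * L) (-(b' * M))
    rw [abs_neg, sub_neg_eq_add, e2] at h
    linarith
  have l2 : g * |L0| ≤ a * (b * D) + B * (b * D) := by
    rw [← e1, hgL]
    have h := abs_add_le (a * L) (b' * M)
    rw [e2] at h
    linarith
  have k1 : A / 2 * (b * D) ≤ a * (b * D) := mul_le_mul_of_nonneg_right ha1 hbD.le
  have k2 : a * (b * D) ≤ A * (b * D) := mul_le_mul_of_nonneg_right ha2 hbD.le
  have k3 : 1000 * B * (b * D) ≤ A * (b * D) := mul_le_mul_of_nonneg_right hA1 hbD.le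
  have hAbD : 0 < A * (b * D) := mul_pos hA0 hbD
  have c1 : 49 / 100 * (A * b * D) ≤ g * |L0| := by
    have : A * b * D = A * (b * D) := by ring
    rw [this]
    linarith
  have c2 : g * |L0| ≤ 101 / 100 * (A * b * D) := by
    have : A * b * D = A * (b * D) := by ring
    rw [this]
    linarith
  refine ⟨c1, c2, ?_⟩
  have hgL0 : 0 < g * |L0| := lt_of_lt_of_le (by positivity) c1
  have hL0pos : 0 < |L0| := pos_of_mul_pos_right hgL0 hg0.le
  have hL0ne : L0 ≠ 0 := abs_pos.1 hL0pos
  have key : p0 / L0 - p / L = b' * Y / (L * (g * L0)) := by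
    rw [div_sub_div _ _ hL0ne hLne, div_eq_div_iff (mul_ne_zero hL0ne hLne)
      (mul_ne_zero hLne (mul_ne_zero hg0.ne' hL0ne))]
    linear_combination (L0 * L) * (L * hgp - p * hgL + b' * hdet)
  have hYpos := hP.Y0
  have e3 : |b' * Y / (L * (g * L0))| = b' * Y / (|L| * (g * |L0|)) := by
    rw [abs_div, abs_mul, abs_mul, e1, abs_of_nonneg hb0, abs_of_pos hYpos]
  rw [key, e3, div_le_iff₀ (mul_pos hLpos hgL0)]
  have hpow : G ^ (-(β / 100)) * G ^ (1 + β / 100) = G := by
    rw [← Real.rpow_add hG0]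
    have : -(β / 100) + (1 + β / 100) = 1 := by ring
    rw [this, Real.rpow_one]
  have hk0 : 0 < G ^ (-(β / 100)) := Real.rpow_pos_of_pos hG0 _
  calc b' * Y ≤ B * Y := mul_le_mul_of_nonneg_right hb1 hYpos.le
    _ = B * (G ^ (-(β / 100)) * G ^ (1 + β / 100)) * b * D ^ 2 := by
        rw [hpow, hY]
        ring
    _ = G ^ (-(β / 100)) * ((b * D) * ((A * b) * D)) := by
        rw [hP.Ab]
        ring
    _ ≤ 21 / 10 * G ^ (-(β / 100)) * ((b * D) * (49 / 100 * (A * b * D))) := by
        have h0 : 0 ≤ G ^ (-(β / 100)) * ((b * D) * ((A * b) * D)) := by positivity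
        have e4 : 21 / 10 * G ^ (-(β / 100)) * ((b * D) * (49 / 100 * (A * b * D))) =
          1029 / 1000 * (G ^ (-(β / 100)) * ((b * D) * ((A * b) * D))) := by ring
        rw [e4]
        linarith
    _ ≤ 21 / 10 * G ^ (-(β / 100)) * (|L| * (g * |L0|)) := by
        rw [hL]
        exact mul_le_mul_of_nonneg_left (mul_le_mul_of_nonneg_left c1 hbD.le) (by positivity)

end ULB
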