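import Pool.Agent.ULB.StmtsUCH

/-!
# The powers of a step (module PWR)   (helper50)
-/

set_option autoImplicit false

namespace ULB

namespace PWRaux

theorem mono {G x y : ℝ} (hG : 1 ≤ G) (h : x ≤ y) : G ^ x ≤ G ^ y :=
  Real.rpow_le_rpow_of_exponent_le hG h

theorem pmul {G x y z : ℝ} (hG : 0 < G) (h : x + y = z) : G ^ x * G ^ y = G ^ z := by
  rw [← Real.rpow_add hG, h]

end PWRaux

open PWRaux in
theorem t_PWR : Stmt_PWR := by
  intro β hβ hβ1
  refine ⟨1000000, ?_⟩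
  intro G B b D Y A cst Q r hG hB1 hB2 hb1 hb2 hD hY hA hcst hQ hr
  have G1 : 1000 ≤ G := by linarith
  have G1' : 1 ≤ G := by linarith
  have G0 : 0 < G := by linarith
  have hpos : ∀ x : ℝ, 0 < G ^ x := fun x => Real.rpow_pos_of_pos G0 x
  have b1 : 1 ≤ b := (Real.one_le_rpow G1' (by linarith)).trans hb1
  have D1 : 1 ≤ D := (one_le_pow₀ G1').trans hD
  have B0 : 0 < B := by linarith
  have b0 : 0 < b := by linarith
  have D0 : 0 < D := by linarith
  have Y0 : 0 < Y := by rw [hY]; positivity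
  have A0 : 0 < A := by
    rw [hA]
    have := hpos (1 + β / 100)
    positivity
  have c0 : 0 < cst := by
    rw [hcst]
    have := hpos (β / 400)
    positivity
  have Q0 : 0 < Q := by
    rw [hQ]
    have := hpos (-β)
    positivity
  have r0 : 0 < r := by rw [hr]; positivity
  have Ab : A * b = B * G ^ (1 + β / 100) := by
    rw [hA]
    field_simp
  have cAB : cst * A * B = G ^ (β / 400) := by
    rw [hcst]
    field_simp
  have Qc : Q * cst = G ^ (-β) := by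
    rw [hQ]
    field_simp
  -- bounds for `A`
  have hA1 : A ≤ G ^ (1 - 23 * (β / 100)) := by
    have h1 : A * G ^ (β / 4) ≤ G ^ (1 + 2 * (β / 100)) := by
      calc A * G ^ (β / 4) ≤ A * b := mul_le_mul_of_nonneg_left hb1 A0.le
        _ = B * G ^ (1 + β / 100) := Ab
        _ ≤ G ^ (β / 100) * G ^ (1 + β / 100) := mul_le_mul_of_nonneg_right hB2 (hpos _).le
        _ = G ^ (1 + 2 * (β / 100)) := pmul G0 (by ring)
    have h2 : A * G ^ (β / 4) * G ^ (-(β / 4)) ≤ G ^ (1 + 2 * (β / 100)) * G ^ (-(β / 4)) :=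
      mul_le_mul_of_nonneg_right h1 (hpos _).le
    rw [mul_assoc, pmul G0 (add_neg_cancel (β / 4)), Real.rpow_zero, mul_one,
      pmul G0 (show 1 + 2 * (β / 100) + -(β / 4) = 1 - 23 * (β / 100) by ring)] at h2
    exact h2
  have hA2 : B * G ^ (1 + β / 100 - 2 * β) ≤ A := by
    have h1 : B * G ^ (1 + β / 100) ≤ A * G ^ (2 * β) := by
      rw [← Ab]
      exact mul_le_mul_of_nonneg_left hb2 A0.le
    have h2 : B * G ^ (1 + β / 100) * G ^ (-(2 * β)) ≤ A * G ^ (2 * β) * G ^ (-(2 * β)) :=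
      mul_le_mul_of_nonneg_right h1 (hpos _).le
    rw [mul_assoc, mul_assoc, pmul G0 (add_neg_cancel (2 * β)), Real.rpow_zero, mul_one,
      pmul G0 (show 1 + β / 100 + -(2 * β) = 1 + β / 100 - 2 * β by ring)] at h2
    exact h2
  have c1 : G ^ (-1 : ℝ) ≤ cst := by
    rw [hcst, le_div_iff₀ (mul_pos A0 B0)]
    calc G ^ (-1 : ℝ) * (A * B)
        ≤ G ^ (-1 : ℝ) * (G ^ (1 - 23 * (β / 100)) * G ^ (β / 100)) :=
          mul_le_mul_of_nonneg_left (mul_le_mul hA1 hB2 B0.le (hpos _).le) (hpos _).le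
      _ = G ^ (-(22 * (β / 100))) := by
          rw [pmul G0 (show 1 - 23 * (β / 100) + β / 100 = 1 - 22 * (β / 100) by ring),
            pmul G0 (show -1 + (1 - 22 * (β / 100)) = -(22 * (β / 100)) by ring)]
      _ ≤ G ^ (β / 400) := mono G1' (by linarith)
  have c2 : cst ≤ G ^ (-(99 / 100) : ℝ) := by
    rw [hcst, div_le_iff₀ (mul_pos A0 B0)]
    have h1 : G ^ (1 + β / 100 - 2 * β) ≤ A * B := by
      calc G ^ (1 + β / 100 - 2 * β) ≤ B * G ^ (1 + β / 100 - 2 * β) :=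
            le_mul_of_one_le_left (hpos _).le hB1
        _ ≤ A := hA2
        _ ≤ A * B := le_mul_of_one_le_right A0.le hB1
    calc G ^ (β / 400) ≤ G ^ (1 / 100 + β / 100 - 2 * β) := mono G1' (by linarith)
      _ = G ^ (-(99 / 100) : ℝ) * G ^ (1 + β / 100 - 2 * β) := (pmul G0 (by ring)).symm
      _ ≤ G ^ (-(99 / 100) : ℝ) * (A * B) := mul_le_mul_of_nonneg_left h1 (hpos _).le
  have hQA : Q * (A * b) = G ^ (-β) * (B * G ^ (1 + β / 100)) / cst := by
    rw [Ab, hQ]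
    ring
  have N1 : G ^ (19 / 10 : ℝ) ≤ Q * (A * b) := by
    rw [hQA, le_div_iff₀ c0]
    calc G ^ (19 / 10 : ℝ) * cst ≤ G ^ (19 / 10 : ℝ) * G ^ (-(99 / 100) : ℝ) :=
          mul_le_mul_of_nonneg_left c2 (hpos _).le
      _ = G ^ (91 / 100 : ℝ) := pmul G0 (by norm_num)
      _ ≤ G ^ (-β + (1 + β / 100)) := mono G1' (by linarith)
      _ = G ^ (-β) * G ^ (1 + β / 100) := (pmul G0 rfl).symm
      _ ≤ G ^ (-β) * (B * G ^ (1 + β / 100)) :=
          mul_le_mul_of_nonneg_left (le_mul_of_one_le_left (hpos _).le hB1) (hpos _).le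
  have N2 : Q * (A * b) ≤ G ^ (2 : ℝ) := by
    rw [hQA, div_le_iff₀ c0]
    calc G ^ (-β) * (B * G ^ (1 + β / 100))
        ≤ G ^ (-β) * (G ^ (β / 100) * G ^ (1 + β / 100)) :=
          mul_le_mul_of_nonneg_left (mul_le_mul_of_nonneg_right hB2 (hpos _).le) (hpos _).le
      _ = G ^ (1 - 98 * (β / 100)) := by
          rw [pmul G0 (show β / 100 + (1 + β / 100) = 1 + 2 * (β / 100) by ring),
            pmul G0 (show -β + (1 + 2 * (β / 100)) = 1 - 98 * (β / 100) by ring)]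
      _ ≤ G ^ (1 : ℝ) := mono G1' (by linarith)
      _ = G ^ (2 : ℝ) * G ^ (-1 : ℝ) := (pmul G0 (by norm_num)).symm
      _ ≤ G ^ (2 : ℝ) * cst := mul_le_mul_of_nonneg_left c1 (hpos _).le
  have rD : r * Y ^ 2 = D := by
    rw [hr]
    field_simp
  have r1 : r ≤ G ^ (-60 : ℝ) := by
    have h1 : G ^ (60 : ℝ) ≤ D ^ 3 := by
      have : G ^ (60 : ℝ) = (G ^ (20 : ℕ)) ^ 3 := by
        rw [← pow_mul]
        norm_num
      rw [this]
      exact pow_le_pow_left₀ (by positivity) hD 3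
    have h2 : D ^ 3 * D ≤ Y ^ 2 := by
      rw [hY]
      have h3 : 1 ≤ G * b := one_le_mul_of_one_le_of_one_le G1' b1
      have h4 : 1 ≤ (G * b) ^ 2 := one_le_pow₀ h3
      calc D ^ 3 * D = 1 * D ^ 4 := by ring
        _ ≤ (G * b) ^ 2 * D ^ 4 := mul_le_mul_of_nonneg_right h4 (by positivity)
        _ = (G * b * D ^ 2) ^ 2 := by ring
    rw [hr, div_le_iff₀ (by positivity), Real.rpow_neg G0.le, ← div_eq_inv_mul,
      le_div_iff₀ (hpos _)]
    calc D * G ^ (60 : ℝ) ≤ D * D ^ 3 := mul_le_mul_of_nonneg_left h1 D0.le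
      _ = D ^ 3 * D := by ring
      _ ≤ Y ^ 2 := h2
  have A1 : 1000 * B ≤ A := by
    have h1 : (1000 : ℝ) ≤ G ^ (1 + β / 100 - 2 * β) := by
      have h2 : (1000 : ℝ) ≤ G ^ (1 / 2 : ℝ) := by
        rw [← Real.sqrt_eq_rpow]
        apply Real.le_sqrt_of_sq_le
        linarith
      exact h2.trans (mono G1' (by linarith))
    calc 1000 * B = B * 1000 := by ring
      _ ≤ B * G ^ (1 + β / 100 - 2 * β) := mul_le_mul_of_nonneg_left h1 B0.le
      _ ≤ A := hA2
  exact ⟨G1, D1, b1, Y0, A0, c0, Q0, r0, Ab, cAB, Qc, c1, c2, N1, N2, r1, rD, A1⟩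

end ULB
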