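import Pool.Agent.ULB.StmtsUCH

/-!
# Module UC_TTM (MP_c538e3_nt): direction of the child
-/

set_option autoImplicit false

namespace ULB

namespace TTMaux

theorem alg {s c qg L0 D p0 d al be : ℝ} (hs : s ^ 2 = 1) (hd : d ≠ 0)
    (hL : L0 ≠ 0) (hZ : c + qg * L0 / D ≠ 0)
    (h1 : d * al = s * (c + qg * L0 / D)) (h2 : d * be = qg * p0 / D) :
    al ≠ 0 ∧ be / al - s * (p0 / L0) = -(s * (p0 / L0) * (c / (c + qg * L0 / D))) := by
  have hs0 : s ≠ 0 := fun h => by rw [h] at hs; norm_num at hs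
  have hal : al ≠ 0 := fun h => by
    rw [h, mul_zero] at h1
    exact mul_ne_zero hs0 hZ h1.symm
  refine ⟨hal, ?_⟩
  have hsi : 1 / s = s := by
    field_simp
    linarith
  have e1 : be / al = s * ((qg * p0 / D) / (c + qg * L0 / D)) := by
    have : be / al = (d * be) / (d * al) := by
      field_simp
    rw [this, h1, h2]
    calc qg * p0 / D / (s * (c + qg * L0 / D))
        = (1 / s) * ((qg * p0 / D) / (c + qg * L0 / D)) := by
          rw [div_mul_eq_div_div]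
          ring
      _ = _ := by rw [hsi]
  have e2 : qg * p0 / D = (p0 / L0) * ((c + qg * L0 / D) - c) := by
    have : (c + qg * L0 / D) - c = qg * L0 / D := by ring
    rw [this]
    field_simp
  rw [e1, e2]
  generalize c + qg * L0 / D = W at hZ
  field_simp
  ring

end TTMaux

open TTMaux in
theorem t_TTM : Stmt_TTM := by
  intro β G B b D Y A cst Q r L0 p0 q g d c al be s hP hs hQq hg hd hc hcc hL hp h1 h2
  have hG : (0 : ℝ) < G := by linarith [hP.G1]
  have hD : 0 < D := by linarith [hP.D1]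
  have hA := hP.A0
  have hb : 0 < b := by linarith [hP.b1]
  have hQ := hP.Q0
  have hq : 0 < q := lt_of_lt_of_le hQ hQq
  have hg0 : 0 < g := by linarith
  have hAb : 0 < A * b := mul_pos hA hb
  have hL0 : 0 < |L0| := by
    have h3 : 0 < g * |L0| := lt_of_lt_of_le (by positivity) hL
    exact pos_of_mul_pos_right h3 hg0.le
  have hLne : L0 ≠ 0 := abs_pos.1 hL0
  -- size of Z
  have hZabs : |q * g * L0 / D| = q * (g * |L0|) / D := by
    rw [abs_div, abs_mul, abs_mul, abs_of_pos hq, abs_of_pos hg0, abs_of_pos hD]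
    ring
  have hZ1 : 49 / 100 * (Q * (A * b)) ≤ |q * g * L0 / D| := by
    rw [hZabs, le_div_iff₀ hD]
    calc 49 / 100 * (Q * (A * b)) * D = Q * (49 / 100 * (A * b * D)) := by ring
      _ ≤ q * (g * |L0|) := mul_le_mul hQq hL (by positivity) hq.le
  have hu1 : (1000 : ℝ) ≤ G ^ (19 / 10 : ℝ) := by
    calc (1000 : ℝ) ≤ G := hP.G1
      _ = G ^ (1 : ℝ) := (Real.rpow_one G).symm
      _ ≤ G ^ (19 / 10 : ℝ) := Real.rpow_le_rpow_of_exponent_le (by linarith [hP.G1]) (by norm_num)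
  have hZ2 : 49 / 100 * G ^ (19 / 10 : ℝ) ≤ |q * g * L0 / D| := by
    have := hP.N1
    linarith
  have hv1 : G ^ (-(99 / 100) : ℝ) ≤ 1 :=
    Real.rpow_le_one_of_one_le_of_nonpos (by linarith [hP.G1]) (by norm_num)
  have hc1 : c ≤ G ^ (-(99 / 100) : ℝ) := le_trans hcc hP.c2
  have hW : 48 / 100 * G ^ (19 / 10 : ℝ) ≤ |c + q * g * L0 / D| := by
    have h3 : |q * g * L0 / D| ≤ |c + q * g * L0 / D| + c := by
      have h4 : |q * g * L0 / D| = |(c + q * g * L0 / D) - c| := by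
        congr 1
        ring
      rw [h4]
      calc |(c + q * g * L0 / D) - c| ≤ |c + q * g * L0 / D| + |c| := abs_sub _ _
        _ = _ := by rw [abs_of_pos hc]
    linarith
  have hWpos : 0 < |c + q * g * L0 / D| := by linarith
  have hWne : c + q * g * L0 / D ≠ 0 := abs_pos.1 hWpos
  obtain ⟨_, hkey⟩ := alg (qg := q * g) hs hd hLne hWne h1 h2
  have hsabs : |s| = 1 := by
    have : |s| ^ 2 = 1 := by rw [sq_abs]; exact hs
    nlinarith [abs_nonneg s, this]
  have hpL : |p0 / L0| ≤ 5 / 2 := by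
    rw [abs_div, div_le_iff₀ hL0]
    exact hp
  -- powers
  have hw0 : 0 < G ^ (-2 : ℝ) := Real.rpow_pos_of_pos hG _
  have hv0 : 0 < G ^ (-(99 / 100) : ℝ) := Real.rpow_pos_of_pos hG _
  have e1 : G ^ (-2 : ℝ) * G ^ (19 / 10 : ℝ) = G ^ (-(99 / 100) : ℝ) * G ^ (89 / 100 : ℝ) := by
    rw [← Real.rpow_add hG, ← Real.rpow_add hG]
    norm_num
  have h30 : (30 : ℝ) ≤ G ^ (89 / 100 : ℝ) := by
    calc (30 : ℝ) = Real.sqrt 900 := by
          rw [show (900 : ℝ) = 30 ^ 2 by norm_num, Real.sqrt_sq (by norm_num)]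
      _ ≤ Real.sqrt G := Real.sqrt_le_sqrt (by linarith [hP.G1])
      _ = G ^ (1 / 2 : ℝ) := Real.sqrt_eq_rpow G
      _ ≤ G ^ (89 / 100 : ℝ) :=
          Real.rpow_le_rpow_of_exponent_le (by linarith [hP.G1]) (by norm_num)
  have hbig : 5 / 2 * G ^ (-(99 / 100) : ℝ) ≤ G ^ (-2 : ℝ) * (48 / 100 * G ^ (19 / 10 : ℝ)) := by
    have : G ^ (-2 : ℝ) * (48 / 100 * G ^ (19 / 10 : ℝ))
        = 48 / 100 * (G ^ (-(99 / 100) : ℝ) * G ^ (89 / 100 : ℝ)) := by
      rw [← e1]; ring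
    rw [this]
    nlinarith [mul_le_mul_of_nonneg_left h30 hv0.le]
  have hmain : |be / al - s * (p0 / L0)| ≤ G ^ (-2 : ℝ) := by
    rw [hkey, abs_neg, abs_mul, abs_mul, hsabs, one_mul, abs_div c, abs_of_pos hc, mul_div_assoc',
      div_le_iff₀ hWpos]
    calc |p0 / L0| * c ≤ 5 / 2 * G ^ (-(99 / 100) : ℝ) :=
          mul_le_mul hpL hc1 hc.le (by norm_num)
      _ ≤ G ^ (-2 : ℝ) * (48 / 100 * G ^ (19 / 10 : ℝ)) := hbig
      _ ≤ G ^ (-2 : ℝ) * |c + q * g * L0 / D| := mul_le_mul_of_nonneg_left hW hw0.le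
  refine ⟨hmain, ?_⟩
  have hw1 : G ^ (-2 : ℝ) ≤ 1 / 2 := by
    rw [show (-2 : ℝ) = -(2 : ℕ) by norm_num, Real.rpow_neg hG.le, Real.rpow_natCast]
    rw [inv_le_comm₀ (by positivity) (by norm_num)]
    nlinarith [hP.G1]
  have h5 : |be / al| ≤ |be / al - s * (p0 / L0)| + |s * (p0 / L0)| := by
    have : be / al = (be / al - s * (p0 / L0)) + s * (p0 / L0) := by ring
    calc |be / al| = |(be / al - s * (p0 / L0)) + s * (p0 / L0)| := by rw [← this]
      _ ≤ _ := abs_add_le _ _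
  have h6 : |s * (p0 / L0)| ≤ 5 / 2 := by
    rw [abs_mul, hsabs, one_mul]
    exact hpL
  linarith

end ULB
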