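import Pool.Agent.ULB.Chd
import Pool.Agent.ULB.Frm
import Pool.Agent.ULB.Pwr
import Pool.Agent.ULB.Num1
import Pool.Agent.ULB.Num2
import Pool.Agent.ULB.Num3
import Pool.Agent.ULB.Num4
import Pool.Agent.ULB.Pln
import Pool.Agent.ULB.Ttm
import Pool.Agent.ULB.NZ

/-!
# Block UCH, part 1: closed theorems
-/

set_option autoImplicit false

namespace ULB

/-- BAS -/
theorem bas : Stmt_BAS := t_BAS

/-- NZ -/
theorem nz : Stmt_NZ := t_NZ t_FRM

/-- CHD -/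
theorem chd : Stmt_CHD := t_CHD t_FRM t_PWR t_NUM1 t_NUM2 t_NUM3 t_NUM4 t_PLN t_TTM

end ULB
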