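import Pool.Agent.ULB.Stmts
import Pool.Agent.ULB.Alg

/-!
# UNI: a plane serves one prime and one vector (lower bound `1/3`, MP_c538e3_nt)
-/

set_option autoImplicit false

namespace ULB

open WHP (V3 det be ga dot cross lin tt)
open WHS (hh ev der)

namespace MUni

theorem sm_a (k : ℤ) (v : V3) : (sm k v).a = k * v.a := by simp [sm, lin]
theorem sm_b (k : ℤ) (v : V3) : (sm k v).b = k * v.b := by simp [sm, lin]
theorem sm_c (k : ℤ) (v : V3) : (sm k v).c = k * v.c := by simp [sm, lin]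

/-- equality with a multiple, by coordinates -/
theorem eq_sm_iff {w v : V3} {k : ℤ} : w = sm k v ↔ w.a = k * v.a ∧ w.b = k * v.b ∧ w.c = k * v.c := by
  constructor
  · rintro rfl; exact ⟨sm_a k v, sm_b k v, sm_c k v⟩
  · rintro ⟨h1, h2, h3⟩
    apply V3.ext
    · rw [sm_a]; exact h1
    · rw [sm_b]; exact h2
    · rw [sm_c]; exact h3

theorem sm_one (v : V3) : sm 1 v = v := by
  apply V3.ext
  · rw [sm_a, one_mul]
  · rw [sm_b, one_mul]
  · rw [sm_c, one_mul]

theorem dot_sm (P v : V3) (k : ℤ) : dot P (sm k v) = k * dot P v := by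
  simp only [dot, sm_a, sm_b, sm_c]; ring

theorem sm_dot (P v : V3) (k : ℤ) : dot (sm k P) v = k * dot P v := by
  simp only [dot, sm_a, sm_b, sm_c]; ring

theorem lin_dot (P R v : V3) (i k : ℤ) : dot (lin i P k R) v = i * dot P v + k * dot R v := by
  simp only [dot, lin]; ring

theorem cross_sm (y v : V3) (k : ℤ) : cross y (sm k v) = sm k (cross y v) := by
  apply V3.ext
  · simp only [cross, sm_a, sm_b, sm_c]; ring
  · simp only [cross, sm_a, sm_b, sm_c]; ring
  · simp only [cross, sm_a, sm_b, sm_c]; ring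

/-- a vector parallel to a primitive vector is an integer multiple of it -/
theorem par {y w : V3} (hy : Pr y) (h : cross y w = 0) : ∃ m : ℤ, w = sm m y := by
  obtain ⟨Q, hQ⟩ := hy
  refine ⟨dot Q w, eq_sm_iff.mpr ?_⟩
  have ha : y.b * w.c - y.c * w.b = 0 := congrArg V3.a h
  have hb : y.c * w.a - y.a * w.c = 0 := congrArg V3.b h
  have hc : y.a * w.b - y.b * w.a = 0 := congrArg V3.c h
  simp only [dot] at hQ ⊢
  refine ⟨?_, ?_, ?_⟩
  · linear_combination (-w.a) * hQ - Q.b * hc + Q.c * hb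
  · linear_combination (-w.b) * hQ + Q.a * hc - Q.c * ha
  · linear_combination (-w.c) * hQ - Q.a * hb + Q.b * ha

theorem cc_lin (y v w : V3) (i k : ℤ) : cc y (lin i v k w) = i * cc y v + k * cc y w := by
  simp only [cc, WHP.ga_lin]; ring

theorem cc_sm (y v : V3) (k : ℤ) : cc y (sm k v) = k * cc y v := by
  simp only [sm, cc_lin]; push_cast; ring

theorem dl_pos {y : V3} (h : det y ≠ 0) : 0 < dl y := by
  have : (det y : ℝ) ≠ 0 := by exact_mod_cast h
  exact abs_pos.mpr this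

theorem one_le_dl {y : V3} (h : det y ≠ 0) : 1 ≤ dl y := by
  have h1 : 1 ≤ |det y| := Int.one_le_abs h
  have h2 : (1 : ℝ) ≤ ((|det y| : ℤ) : ℝ) := by exact_mod_cast h1
  rw [Int.cast_abs] at h2
  exact h2

theorem si_sq {y : V3} (h : det y ≠ 0) : si y * si y = 1 := by
  rcases lt_or_gt_of_ne h with h' | h'
  · simp [si, Int.sign_eq_neg_one_of_neg h']
  · simp [si, Int.sign_eq_one_of_pos h']

theorem si_sq' {y : V3} (h : det y ≠ 0) : (si y : ℝ) * si y = 1 := by
  exact_mod_cast si_sq h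

theorem si_abs {y : V3} (h : det y ≠ 0) : |(si y : ℝ)| = 1 := by
  have h1 : |(si y : ℝ)| * |(si y : ℝ)| = 1 := by
    rw [← abs_mul, si_sq' h, abs_one]
  nlinarith [abs_nonneg (si y : ℝ)]

/-- `cc y y = si y` -/
theorem cc_self {y : V3} (ha : 0 < y.a) (h : det y ≠ 0) : cc y y = si y := by
  have ha' : (y.a : ℝ) ≠ 0 := by exact_mod_cast ha.ne'
  have hd : dl y ≠ 0 := (dl_pos h).ne'
  have e : (si y : ℝ) * dl y = det y := by
    have := Int.sign_mul_abs (det y)
    have h2 : ((Int.sign (det y) * |det y| : ℤ) : ℝ) = det y := by exact_mod_cast this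
    rw [Int.cast_mul, Int.cast_abs] at h2
    exact h2
  rw [cc, WHP.ga_self ha', zz, div_div_div_cancel_right₀ ha', div_eq_iff hd, e]

end MUni

open MUni

/-- the algebraic facts on a step: `g ≤ B`, `d ∣ g`, `y × y1 = q1 P0` with `q1 d = q g`,
`|cc y y1| |d| ≤ c*` -/
theorem MUni.step_facts {β B : ℝ} {y P wm v R y1 P0 : V3} {a b q k g d : ℤ} (hN : Nd β y P)
    (hB : 1 ≤ B) (hBas : Bas y P wm v R) (hS : Stp β B y P wm v R a b q k g d y1 P0) :
    (g : ℝ) ≤ B ∧ -b = g * dot P0 wm ∧ d ∣ g ∧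
      (∃ q1 : ℤ, q1 * d = q * g ∧ cross y y1 = sm q1 P0) ∧
      |cc y y1| * |(d : ℝ)| ≤ cs β B y P ∧ cs β B y P / 2 ≤ |cc y y1| * |(d : ℝ)| := by
  have hbpos : 0 < b := by
    have h1 := hS.b1
    have h2 : (0 : ℝ) < b := by linarith
    exact_mod_cast h2
  have hgpos : 0 < g := by have := hS.g1; omega
  -- `g ∣ b`
  have hPw : dot P wm = 0 := by
    rw [← hBas.hm]; exact WHP.dot_cross_right y wm
  have hRw : dot R wm = -1 := by
    have h1 : dot (cross y v) wm = -dot (cross y wm) v := by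
      simp only [dot, cross]; ring
    rw [hBas.hR, h1, hBas.hm, hBas.hv]
  have hgb : -b = g * dot P0 wm := by
    have h1 : dot (lin a P b R) wm = dot (sm g P0) wm := by rw [hS.hP]
    rw [lin_dot, sm_dot, hPw, hRw] at h1
    linarith
  have hgdvd : g ∣ b := by
    refine ⟨-dot P0 wm, ?_⟩
    linarith
  have hgle : g ≤ b := Int.le_of_dvd hbpos hgdvd
  have hgB : (g : ℝ) ≤ B := by
    have h1 : (g : ℝ) ≤ b := by exact_mod_cast hgle
    exact h1.trans hS.b2
  -- the cross product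
  have hcr : sm d (cross y y1) = sm (q * g) P0 := by
    have h1 : cross y (lin q (lin a wm b v) (-(k * si y)) y) = cross y (sm d y1) := by rw [hS.hy]
    rw [cross_sm, cross_lin, cross_lin, cross_self, hBas.hm, ← hBas.hR, hS.hP] at h1
    rw [← h1]
    apply V3.ext
    · simp only [lin, sm_a, WHP.zero_a]; ring
    · simp only [lin, sm_b, WHP.zero_b]; ring
    · simp only [lin, sm_c, WHP.zero_c]; ring
  obtain ⟨Q0, hQ0⟩ := hS.pP
  have hq1 : dot Q0 (cross y y1) * d = q * g := by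
    have h1 : dot Q0 (sm d (cross y y1)) = dot Q0 (sm (q * g) P0) := by rw [hcr]
    rw [dot_sm, dot_sm, hQ0] at h1
    linarith
  have hcr1 : cross y y1 = sm (dot Q0 (cross y y1)) P0 := by
    have ea : d * (cross y y1).a = q * g * P0.a := by
      have := congrArg V3.a hcr; rwa [sm_a, sm_a] at this
    have eb : d * (cross y y1).b = q * g * P0.b := by
      have := congrArg V3.b hcr; rwa [sm_b, sm_b] at this
    have ec : d * (cross y y1).c = q * g * P0.c := by
      have := congrArg V3.c hcr; rwa [sm_c, sm_c] at this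
    refine eq_sm_iff.mpr ⟨?_, ?_, ?_⟩
    · apply mul_left_cancel₀ hS.d0
      rw [ea, ← hq1]; ring
    · apply mul_left_cancel₀ hS.d0
      rw [eb, ← hq1]; ring
    · apply mul_left_cancel₀ hS.d0
      rw [ec, ← hq1]; ring
  -- `q` does not divide `d`
  have hqd : ¬ q ∣ d := by
    rintro ⟨e, he⟩
    obtain ⟨Qy, hQy⟩ := hN.py
    have h1 : dot Qy (lin q (lin a wm b v) (-(k * si y)) y) = dot Qy (sm d y1) := by rw [hS.hy]
    rw [WHP.dot_lin, dot_sm, hQy, he] at h1
    have h2 : k * si y = q * (dot Qy (lin a wm b v) - e * dot Qy y1) := by linarith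
    apply hS.qk
    refine ⟨si y * (dot Qy (lin a wm b v) - e * dot Qy y1), ?_⟩
    have h3 := si_sq hN.dt
    calc k = k * (si y * si y) := by rw [h3, mul_one]
      _ = (k * si y) * si y := by ring
      _ = _ := by rw [h2]; ring
  have hdg : d ∣ g := by
    have hco : IsCoprime q d := (hS.q0.irreducible.coprime_iff_not_dvd).mpr hqd
    have h1 : d ∣ q * g := ⟨dot Q0 (cross y y1), by rw [← hq1]; ring⟩
    exact hco.symm.dvd_of_dvd_mul_left h1
  -- third coordinate
  have hcc : |cc y y1| * |(d : ℝ)| = q * (a * cc y wm + b * cc y v) - k := by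
    have h1 : cc y (lin q (lin a wm b v) (-(k * si y)) y) = cc y (sm d y1) := by rw [hS.hy]
    rw [cc_lin, cc_lin, cc_sm, cc_self hN.ya hN.dt] at h1
    push_cast at h1
    have h2 := si_sq' hN.dt
    have h3 : (d : ℝ) * cc y y1 = q * (a * cc y wm + b * cc y v) - k := by
      rw [← h1]
      linear_combination -(k : ℝ) * h2
    rw [← abs_mul, mul_comm, h3, abs_of_nonneg]
    have h4 := hS.c1
    have h5 := hS.c2
    linarith
  refine ⟨hgB, hgb, hdg, ⟨_, hq1, hcr1⟩, ?_, ?_⟩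
  · rw [hcc]; exact hS.c2
  · rw [hcc]; exact hS.c1

/-- sizes of the parameters: `Q c* = G^(-β)` and `B < Q` -/
theorem MUni.param {β B : ℝ} {y P : V3} (hβ : 0 < β) (hβ1 : β ≤ 1 / 10000) (hN : Nd β y P)
    (hG : 1 < GG y P) (hB : 1 ≤ B) :
    0 < cs β B y P ∧ QQ β B y P * cs β B y P = GG y P ^ (-β) ∧ B < QQ β B y P := by
  have hGp : 0 < GG y P := by linarith
  have hbb : 0 < bb y P := by
    have := hN.b1
    have h1 : 0 < GG y P ^ (β / 4) := Real.rpow_pos_of_pos hGp _
    linarith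
  have hA : 0 < AA β B y P := by
    rw [AA]
    have h1 : 0 < GG y P ^ (1 + β / 100) := Real.rpow_pos_of_pos hGp _
    positivity
  have hcs : 0 < cs β B y P := by
    rw [cs]
    have h1 : 0 < GG y P ^ (β / 400) := Real.rpow_pos_of_pos hGp _
    positivity
  refine ⟨hcs, ?_, ?_⟩
  · rw [QQ, div_mul_cancel₀ _ hcs.ne']
  · -- `Q = B² G^(1+3κ/4-β)/b`
    have hQ : QQ β B y P * bb y P = B ^ 2 * GG y P ^ (1 + β / 100 - β / 400 - β) := by
      rw [QQ, cs, AA]
      rw [Real.rpow_sub hGp, Real.rpow_sub hGp, Real.rpow_neg hGp.le]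
      have h1 : GG y P ^ (1 + β / 100) ≠ 0 := (Real.rpow_pos_of_pos hGp _).ne'
      have h2 : GG y P ^ (β / 400) ≠ 0 := (Real.rpow_pos_of_pos hGp _).ne'
      have h3 : GG y P ^ β ≠ 0 := (Real.rpow_pos_of_pos hGp _).ne'
      have h4 := hbb.ne'
      field_simp
    have h1 : B * bb y P < QQ β B y P * bb y P := by
      rw [hQ]
      have h2 : bb y P ≤ GG y P ^ (2 * β) := hN.b2
      have h3 : GG y P ^ (2 * β) < GG y P ^ (1 + β / 100 - β / 400 - β) :=
        Real.rpow_lt_rpow_of_exponent_lt hG (by linarith)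
      have h4 : B * bb y P < B * GG y P ^ (1 + β / 100 - β / 400 - β) :=
        mul_lt_mul_of_pos_left (h2.trans_lt h3) (by linarith)
      have h5 : 0 < GG y P ^ (1 + β / 100 - β / 400 - β) := Real.rpow_pos_of_pos hGp _
      have h6 : B * GG y P ^ (1 + β / 100 - β / 400 - β) ≤
          B ^ 2 * GG y P ^ (1 + β / 100 - β / 400 - β) := by
        apply mul_le_mul_of_nonneg_right _ h5.le
        nlinarith
      linarith
    exact lt_of_mul_lt_mul_right h1 hbb.le

/-- UNI: a plane serves one prime and one vector. -/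
theorem t_UNI : Stmt_UNI := by
  intro β hβ hβ1
  refine ⟨max 2 ((5 : ℝ) ^ (2 / β)), ?_⟩
  intro B y P wm v R y1 y2 P0 a b q k g d a' b' q' k' g' d' hN hG0 hB hBG hBas hS hS'
  have hG2 : 2 ≤ GG y P := (le_max_left _ _).trans hG0
  have hGp : 0 < GG y P := by linarith
  obtain ⟨hcs, hQc, hBQ⟩ := param hβ hβ1 hN (by linarith) hB
  obtain ⟨hgB, -, hdg, ⟨q1, hq1, hcr1⟩, hc1, -⟩ := step_facts hN hB hBas hS
  obtain ⟨hgB', -, hdg', ⟨q2, hq2, hcr2⟩, hc2, -⟩ := step_facts hN hB hBas hS'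
  have hgpos : 0 < g := by have := hS.g1; omega
  have hgpos' : 0 < g' := by have := hS'.g1; omega
  have hqQ : (q : ℝ) ≤ 2 * QQ β B y P := hS.q2
  have hqQ' : (q' : ℝ) ≤ 2 * QQ β B y P := hS'.q2
  have hqpos : (0 : ℝ) < q := by have := hS.q1; linarith
  have hqpos' : (0 : ℝ) < q' := by have := hS'.q1; linarith
  have hqp : 0 < q := by exact_mod_cast hqpos
  have hqp' : 0 < q' := by exact_mod_cast hqpos'
  have hQpos : 0 < QQ β B y P := by linarith
  -- `|q1| ≤ 2 Q B`
  have hd1 : (1 : ℝ) ≤ |(d : ℝ)| := by exact_mod_cast Int.one_le_abs hS.d0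
  have hd1' : (1 : ℝ) ≤ |(d' : ℝ)| := by exact_mod_cast Int.one_le_abs hS'.d0
  have hb1 : |(q1 : ℝ)| ≤ 2 * QQ β B y P * B := by
    have h1 : |(q1 : ℝ)| * |(d : ℝ)| = q * g := by
      rw [← abs_mul]
      have h2 : (q1 : ℝ) * d = q * g := by exact_mod_cast hq1
      rw [h2, abs_of_pos]
      have : (0 : ℝ) < g := by exact_mod_cast hgpos
      positivity
    have h3 : (q : ℝ) * g ≤ 2 * QQ β B y P * B :=
      mul_le_mul hqQ hgB (by exact_mod_cast hgpos.le) (by positivity)
    nlinarith [abs_nonneg (q1 : ℝ)]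
  have hb2 : |(q2 : ℝ)| ≤ 2 * QQ β B y P * B := by
    have h1 : |(q2 : ℝ)| * |(d' : ℝ)| = q' * g' := by
      rw [← abs_mul]
      have h2 : (q2 : ℝ) * d' = q' * g' := by exact_mod_cast hq2
      rw [h2, abs_of_pos]
      have : (0 : ℝ) < g' := by exact_mod_cast hgpos'
      positivity
    have h3 : (q' : ℝ) * g' ≤ 2 * QQ β B y P * B :=
      mul_le_mul hqQ' hgB' (by exact_mod_cast hgpos'.le) (by positivity)
    nlinarith [abs_nonneg (q2 : ℝ)]
  have hcc1 : |cc y y1| ≤ cs β B y P := by nlinarith [abs_nonneg (cc y y1)]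
  have hcc2 : |cc y y2| ≤ cs β B y P := by nlinarith [abs_nonneg (cc y y2)]
  -- `q2 y1 - q1 y2 = m y`
  have hpar : cross y (lin q2 y1 (-q1) y2) = 0 := by
    rw [cross_lin, hcr1, hcr2]
    apply V3.ext
    · simp only [lin, sm_a, WHP.zero_a]; ring
    · simp only [lin, sm_b, WHP.zero_b]; ring
    · simp only [lin, sm_c, WHP.zero_c]; ring
  obtain ⟨m, hm⟩ := par hN.py hpar
  have hmcc : (q2 : ℝ) * cc y y1 - q1 * cc y y2 = m * si y := by
    have h1 : cc y (lin q2 y1 (-q1) y2) = cc y (sm m y) := by rw [hm]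
    rw [cc_lin, cc_sm, cc_self hN.ya hN.dt] at h1
    push_cast at h1
    linarith
  have hGb : 4 * (B * GG y P ^ (-β)) < 1 := by
    have h1 : B * GG y P ^ (-β) ≤ GG y P ^ (β / 100) * GG y P ^ (-β) :=
      mul_le_mul_of_nonneg_right hBG (Real.rpow_nonneg hGp.le _)
    rw [← Real.rpow_add hGp] at h1
    have h2 : GG y P ^ (β / 100 + -β) ≤ GG y P ^ (-(β / 2)) :=
      Real.rpow_le_rpow_of_exponent_le (by linarith) (by linarith)
    have h3 : (5 : ℝ) ≤ GG y P ^ (β / 2) := by
      have h4 : ((5 : ℝ) ^ (2 / β)) ^ (β / 2) ≤ GG y P ^ (β / 2) :=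
        Real.rpow_le_rpow (by positivity) ((le_max_right _ _).trans hG0) (by linarith)
      rw [← Real.rpow_mul (by norm_num)] at h4
      have h5 : 2 / β * (β / 2) = 1 := by field_simp
      rw [h5, Real.rpow_one] at h4
      exact h4
    have h6 : GG y P ^ (-(β / 2)) ≤ 1 / 5 := by
      rw [Real.rpow_neg hGp.le, inv_eq_one_div]
      exact one_div_le_one_div_of_le (by norm_num) h3
    linarith
  have hm0 : m = 0 := by
    have h1 : |(m : ℝ)| ≤ 4 * (B * GG y P ^ (-β)) := by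
      have h2 : |(m : ℝ)| = |(q2 : ℝ) * cc y y1 - q1 * cc y y2| := by
        rw [hmcc, abs_mul, si_abs hN.dt, mul_one]
      have h3 : |(q2 : ℝ) * cc y y1 - q1 * cc y y2| ≤ |(q2 : ℝ)| * |cc y y1| + |(q1 : ℝ)| * |cc y y2| := by
        rw [← abs_mul, ← abs_mul]; exact abs_sub _ _
      have h4 : |(q2 : ℝ)| * |cc y y1| ≤ (2 * QQ β B y P * B) * cs β B y P :=
        mul_le_mul hb2 hcc1 (abs_nonneg _) (by positivity)
      have h5 : |(q1 : ℝ)| * |cc y y2| ≤ (2 * QQ β B y P * B) * cs β B y P :=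
        mul_le_mul hb1 hcc2 (abs_nonneg _) (by positivity)
      have h6 : (2 * QQ β B y P * B) * cs β B y P = 2 * (B * GG y P ^ (-β)) := by
        rw [← hQc]; ring
      linarith
    have h7 : |(m : ℝ)| < 1 := lt_of_le_of_lt h1 hGb
    have h8 : |m| < 1 := by
      have : ((|m| : ℤ) : ℝ) < 1 := by rw [Int.cast_abs]; exact h7
      exact_mod_cast this
    exact Int.abs_lt_one_iff.mp h8
  -- `q2 y1 = q1 y2`
  rw [hm0] at hm
  have hma : q2 * y1.a = q1 * y2.a := by
    have := congrArg V3.a hm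
    rw [sm_a] at this
    simp only [lin] at this
    linarith
  have hmb : q2 * y1.b = q1 * y2.b := by
    have := congrArg V3.b hm
    rw [sm_b] at this
    simp only [lin] at this
    linarith
  have hmc : q2 * y1.c = q1 * y2.c := by
    have := congrArg V3.c hm
    rw [sm_c] at this
    simp only [lin] at this
    linarith
  have hq1n : q1 ≠ 0 := by
    rintro rfl
    rw [zero_mul] at hq1
    have : 0 < q * g := mul_pos hqp hgpos
    omega
  have hq2n : q2 ≠ 0 := by
    rintro rfl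
    rw [zero_mul] at hq2
    have : 0 < q' * g' := mul_pos hqp' hgpos'
    omega
  have hdv1 : q1 ∣ q2 := by
    obtain ⟨Q1, hQ1⟩ := hS.py
    refine ⟨dot Q1 y2, ?_⟩
    simp only [dot] at hQ1 ⊢
    linear_combination (-q2) * hQ1 + Q1.a * hma + Q1.b * hmb + Q1.c * hmc
  have hdv2 : q2 ∣ q1 := by
    obtain ⟨Q1, hQ1⟩ := hS'.py
    refine ⟨dot Q1 y1, ?_⟩
    simp only [dot] at hQ1 ⊢
    linear_combination (-q1) * hQ1 - Q1.a * hma - Q1.b * hmb - Q1.c * hmc
  have hqq : q1 = q2 := by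
    rcases (Int.natAbs_eq_natAbs_iff.mp (Nat.dvd_antisymm (Int.natAbs_dvd_natAbs.mpr hdv1)
      (Int.natAbs_dvd_natAbs.mpr hdv2))) with h | h
    · exact h
    · exfalso
      rw [h] at hma
      have h1 := hS.ya
      have h2 := hS'.ya
      have h3 : q2 * (y1.a + y2.a) = 0 := by linarith
      rcases mul_eq_zero.mp h3 with h4 | h4
      · exact hq2n h4
      · omega
  refine ⟨?_, ?_⟩
  · -- equality of the primes
    obtain ⟨e, he⟩ := hdg
    obtain ⟨e', he'⟩ := hdg'
    have h1 : q1 = q * e := by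
      apply mul_right_cancel₀ hS.d0
      rw [hq1, he]; ring
    have h2 : q2 = q' * e' := by
      apply mul_right_cancel₀ hS'.d0
      rw [hq2, he']; ring
    have h3 : q * e = q' * e' := by rw [← h1, ← h2, hqq]
    have hne : ∀ (r g0 d0 e0 : ℤ), 0 < g0 → (g0 : ℝ) ≤ B → g0 = d0 * e0 → d0 ≠ 0 →
        QQ β B y P ≤ r → ¬ r ∣ e0 := by
      intro r g0 d0 e0 hg hgB0 hge hd0 hr hdvd
      have he0 : e0 ≠ 0 := by
        rintro rfl; rw [mul_zero] at hge; omega
      have h4 : |e0| ≤ g0 := by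
        have h5 : |g0| = |d0| * |e0| := by rw [hge, abs_mul]
        have h6 : 1 ≤ |d0| := Int.one_le_abs hd0
        rw [abs_of_pos hg] at h5
        nlinarith [abs_nonneg e0]
      have h7 : |r| ≤ |e0| := by
        have h8 : |r| ∣ |e0| := (abs_dvd_abs r e0).mpr hdvd
        exact Int.le_of_dvd (abs_pos.mpr he0) h8
      have h9 : (r : ℝ) ≤ g0 := by exact_mod_cast (le_abs_self r).trans (h7.trans h4)
      linarith
    have h4 : q ∣ q' := by
      have h5 : q ∣ q' * e' := ⟨e, h3.symm⟩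
      rcases hS.q0.dvd_or_dvd h5 with h6 | h6
      · exact h6
      · exact absurd h6 (hne q g' d' e' hgpos' hgB' he' hS'.d0 hS.q1)
    have h5 : q' ∣ q := by
      have h5 : q' ∣ q * e := ⟨e', h3⟩
      rcases hS'.q0.dvd_or_dvd h5 with h6 | h6
      · exact h6
      · exact absurd h6 (hne q' g d e hgpos hgB he hS.d0 hS'.q1)
    exact Int.dvd_antisymm hqp.le hqp'.le h4 h5
  · rw [hqq] at hma hmb hmc
    apply V3.ext
    · exact mul_left_cancel₀ hq2n hma
    · exact mul_left_cancel₀ hq2n hmb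
    · exact mul_left_cancel₀ hq2n hmc

end ULB
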