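import Pool.Agent.ULB.WVnum

/-!
# VCH: `VV` for the child (MP_c538e3_nt, lower bound `1/3`)
-/

set_option autoImplicit false

namespace ULB

open WHP (V3 det be ga dot cross lin tt)
open WHS (hh ev der)

namespace WV

theorem zz_dd {y P : V3} (hy : 0 < y.a) (h : det y ≠ 0) (hG : 0 < GG y P) :
    zz y * |dd y P| = (GG y P)⁻¹ := by
  have h1 : (y.a : ℝ) ≠ 0 := by exact_mod_cast hy.ne'
  have h2 := (dl_pos h).ne'
  unfold zz GG
  rw [inv_div]
  ring

theorem bb_mul {y P : V3} (h : det y ≠ 0) : bb y P * dl y = |dd y P| := by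
  have h2 := (dl_pos h).ne'
  unfold bb
  field_simp

theorem abs_int_ge {l : ℤ} (h : l ≠ 0) : (1 : ℝ) ≤ |(l : ℝ)| := by
  have h2 : 1 ≤ |l| := Int.one_le_abs h
  exact_mod_cast h2

end WV

open WV in
theorem vch : Stmt_VCH := by
  intro β hβ hβ1
  obtain ⟨G0, h0⟩ := num β hβ hβ1
  obtain ⟨G1, hG1, h1⟩ := absorb (β / 400) 1000 (by positivity)
  refine ⟨max G0 G1, ?_⟩
  intro B y P wm v R y1 P0 a b q k g d hN hG hB1 hB2 hBas hS hC hW hV
  have N := h0 B y P wm v R y1 P0 a b q k g d hN ((le_max_left _ _).trans hG) hB1 hB2 hS hC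
  have h5 : 1000 ≤ GG y P ^ (β / 400) := h1 _ ((le_max_right _ _).trans hG)
  set G := GG y P with hGdef
  set G' := GG y1 P0 with hG'def
  have hG100 : (100 : ℝ) ≤ G := N.G2
  have hGpos : (0 : ℝ) < G := by linarith
  have hG1' : (1 : ℝ) ≤ G := by linarith
  have hg1 : G ^ (1 - β / 100) ≤ G' := N.g1
  have hg2 : G' ≤ G ^ (1 + 3 * (β / 100)) := N.g2
  have hG'1 : 1 ≤ G' := le_trans (Real.one_le_rpow hG1' (by linarith)) hg1
  have hG'2 : 2 ≤ G' := by
    have h2 : G ^ (β / 400) ≤ G ^ (1 - β / 100) := pw hG1' (by linarith)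
    linarith
  have hG'pos : 0 < G' := by linarith
  have hy := hN.ya
  have hy1 := hC.ya1
  have hd := hN.dt
  have hd1 := hC.dt
  have hD1 := dl_pos hd1
  intro w hw ha hb
  by_contra hcon
  push Not at hcon
  set L := G' ^ (1 + 3 * (β / 100)) with hL
  have hL1 : 1 ≤ L := Real.one_le_rpow hG'1 (by linarith)
  have hLG : L ≤ G ^ (1 + 7 * (β / 100)) := by
    have h2 : L ≤ (G ^ (1 + 3 * (β / 100))) ^ (1 + 3 * (β / 100)) :=
      Real.rpow_le_rpow hG'pos.le hg2 (by positivity)
    rw [← Real.rpow_mul hGpos.le] at h2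
    refine h2.trans (pw hG1' ?_)
    nlinarith
  have hccG' : |cc y1 w| ≤ G' ^ (-2 + 4 * β) := hcon.le
  have hcc1 : G' ^ (-2 + 4 * β) ≤ G' ^ (-1 : ℝ) := pw hG'1 (by linarith)
  have hcc2 : G' ^ (-1 : ℝ) ≤ 1 / 2 := by
    rw [Real.rpow_neg_one, one_div]
    exact inv_anti₀ (by norm_num) hG'2
  have hcchalf : |cc y1 w| ≤ 1 / 2 := by linarith
  have hccG : G' ^ (-2 + 4 * β) ≤ G ^ (-2 + 4 * β + 2 * (β / 100)) := by
    have h2 : G' ^ (-2 + 4 * β) ≤ (G ^ (1 - β / 100)) ^ (-2 + 4 * β) :=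
      Real.rpow_le_rpow_of_nonpos (Real.rpow_pos_of_pos hGpos _) hg1 (by linarith)
    rw [← Real.rpow_mul hGpos.le] at h2
    refine h2.trans (pw hG1' ?_)
    nlinarith
  -- the product with `P0`
  have hL3 : L = G' * G' ^ (3 * (β / 100)) := by
    rw [hL, Real.rpow_add hG'pos, Real.rpow_one]
  have hG'3 : G' ^ (3 * (β / 100)) ≤ G ^ (7 / 2 * (β / 100)) := by
    have h2 : G' ^ (3 * (β / 100)) ≤ (G ^ (1 + 3 * (β / 100))) ^ (3 * (β / 100)) :=
      Real.rpow_le_rpow hG'pos.le hg2 (by positivity)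
    rw [← Real.rpow_mul hGpos.le] at h2
    refine h2.trans (pw hG1' ?_)
    nlinarith
  have hm : |(dot P0 w : ℝ)| ≤ G ^ (4 * (β / 100)) := by
    have h2 := dot_le hy1 hd1 hC.o1 w (5 / 2) hC.sb1
    rw [zz_dd hy1 hd1 hG'pos, ← hG'def] at h2
    have h3 : |cb y1 w| + 5 / 2 * (|cc y1 w| + |ca y1 w|) ≤ 6 * L := by linarith
    have h4 : G'⁻¹ * (|cb y1 w| + 5 / 2 * (|cc y1 w| + |ca y1 w|)) ≤ G'⁻¹ * (6 * L) :=
      mul_le_mul_of_nonneg_left h3 (by positivity)
    have h6 : G'⁻¹ * (6 * L) = 6 * G' ^ (3 * (β / 100)) := by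
      rw [hL3]
      field_simp
    have h7 : 6 * G' ^ (3 * (β / 100)) ≤ G ^ (β / 400) * G ^ (7 / 2 * (β / 100)) := by
      have h8 := Real.rpow_nonneg hG'pos.le (3 * (β / 100))
      have h9 := Real.rpow_nonneg hGpos.le (7 / 2 * (β / 100))
      nlinarith
    have h8 : G ^ (β / 400) * G ^ (7 / 2 * (β / 100)) ≤ G ^ (4 * (β / 100)) := by
      rw [← Real.rpow_add hGpos]
      exact pw hG1' (by linarith)
    linarith
  by_cases hm0 : dot P0 w = 0
  · -- `w` is in the plane
    obtain ⟨j, hj⟩ := cross_of_orth hS.pP hC.o1 hm0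
    by_cases hj0 : j = 0
    · have h2 : cross y1 w = 0 := by
        rw [hj, hj0]
        apply V3.ext
        · show (0 : ℤ) * P0.a + 0 * P0.a = 0; ring
        · show (0 : ℤ) * P0.b + 0 * P0.b = 0; ring
        · show (0 : ℤ) * P0.c + 0 * P0.c = 0; ring
      obtain ⟨l, hl⟩ := self_cross y1 w h2 hS.py
      have hl0 : l ≠ 0 := by
        rintro rfl
        apply hw
        rw [hl]
        apply V3.ext
        · show (0 : ℤ) * y1.a + 0 * y1.a = 0; ring
        · show (0 : ℤ) * y1.b + 0 * y1.b = 0; ring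
        · show (0 : ℤ) * y1.c + 0 * y1.c = 0; ring
      rw [hl, cc_sm, abs_mul, cc_self hy1 hd1, mul_one] at hcchalf
      have := abs_int_ge hl0
      linarith
    · have h2 := hW w j hj0 hj hcchalf
      have h3 := cross_d_le hy1 hd1 hj
      have h4 : |(j : ℝ)| * bb y1 P0 ≤ 2 * L := by
        have h6 : |(j : ℝ)| * bb y1 P0 * dl y1 ≤ 2 * L * dl y1 := by
          rw [mul_assoc, bb_mul hd1]
          refine h3.trans ?_
          have h7 : |ca y1 w| + |cc y1 w| ≤ 2 * L := by linarith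
          have := mul_le_mul_of_nonneg_left h7 hD1.le
          linarith
        exact le_of_mul_le_mul_right h6 hD1
      have hb1 : G ^ (98 * (β / 100)) ≤ bb y1 P0 := N.b1
      have h6 : |(j : ℝ)| ≤ G' := by
        have h7 : |(j : ℝ)| * G ^ (98 * (β / 100)) ≤ G' * G ^ (98 * (β / 100)) := by
          have h8 : |(j : ℝ)| * G ^ (98 * (β / 100)) ≤ |(j : ℝ)| * bb y1 P0 :=
            mul_le_mul_of_nonneg_left hb1 (abs_nonneg _)
          have h9 : 2 * L ≤ G' * G ^ (98 * (β / 100)) := by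
            rw [hL3]
            have h10 : 2 * G' ^ (3 * (β / 100)) ≤ G ^ (98 * (β / 100)) := by
              have h11 : G ^ (β / 400) * G ^ (7 / 2 * (β / 100)) ≤ G ^ (98 * (β / 100)) := by
                rw [← Real.rpow_add hGpos]
                exact pw hG1' (by linarith)
              have h8 := Real.rpow_nonneg hG'pos.le (3 * (β / 100))
              have h9 := Real.rpow_nonneg hGpos.le (7 / 2 * (β / 100))
              nlinarith
            have := mul_le_mul_of_nonneg_left h10 hG'pos.le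
            linarith
          linarith
        exact le_of_mul_le_mul_right h7 (Real.rpow_pos_of_pos hGpos _)
      have hPhi : Phi G' |(j : ℝ)| ≤ G' ^ (99 / 100 : ℝ) := by
        unfold Phi
        refine max_le le_rfl ?_
        refine (Real.rpow_le_rpow (abs_nonneg _) h6 (by norm_num)).trans ?_
        exact pw hG'1 (by norm_num)
      have hdet := det_frame_le hy1 hd1 w
      have hr1 : rr y1 ≤ G ^ (-52 : ℝ) := by
        refine hC.rr1.trans ?_
        rw [← hGdef]
        have h7 := mul_le_mul_of_nonneg_right hC.rr0 (Real.rpow_nonneg hGpos.le (-2 : ℝ))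
        have e : (-50 : ℝ) + -2 = -52 := by norm_num
        rw [← hGdef, ← Real.rpow_add hGpos, e] at h7
        exact h7
      have hr1p := rr_pos hy1 hd1
      have h7 : dl y1 * |ca y1 w| * |cc y1 w| ≤ dl y1 * (L * G' ^ (-2 + 4 * β)) := by
        rw [mul_assoc]
        refine mul_le_mul_of_nonneg_left ?_ hD1.le
        exact mul_le_mul ha hccG' (abs_nonneg _) (by linarith)
      have h8 : dl y1 * rr y1 * cb y1 w ^ 2 ≤ dl y1 * (G ^ (-52 : ℝ) * (G ^ (1 + 7 * (β / 100))) ^ 2) := by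
        rw [mul_assoc]
        refine mul_le_mul_of_nonneg_left ?_ hD1.le
        refine mul_le_mul hr1 ?_ (sq_nonneg _) (Real.rpow_nonneg hGpos.le _)
        rw [← sq_abs]
        exact pow_le_pow_left₀ (abs_nonneg _) (hb.trans hLG) 2
      have h9 : L * G' ^ (-2 + 4 * β) * G' ^ (99 / 100 : ℝ) ≤ 1 := by
        rw [hL, ← Real.rpow_add hG'pos, ← Real.rpow_add hG'pos]
        exact Real.rpow_le_one_of_one_le_of_nonpos hG'1 (by linarith)
      have h10 : G ^ (-52 : ℝ) * (G ^ (1 + 7 * (β / 100))) ^ 2 * G' ^ (99 / 100 : ℝ) ≤ 1 := by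
        have h11 : G' ^ (99 / 100 : ℝ) ≤ G ^ (1 + 3 * (β / 100)) := by
          refine le_trans ?_ hg2
          calc G' ^ (99 / 100 : ℝ) ≤ G' ^ (1 : ℝ) := pw hG'1 (by norm_num)
            _ = G' := Real.rpow_one _
        have h12 : (G ^ (1 + 7 * (β / 100))) ^ 2 = G ^ (2 * (1 + 7 * (β / 100))) := by
          rw [← Real.rpow_natCast, ← Real.rpow_mul hGpos.le]
          congr 1
          push_cast
          ring
        rw [h12, ← Real.rpow_add hGpos]
        have h13 := mul_le_mul_of_nonneg_left h11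
          (Real.rpow_nonneg hGpos.le (-52 + 2 * (1 + 7 * (β / 100))))
        refine h13.trans ?_
        rw [← Real.rpow_add hGpos]
        exact Real.rpow_le_one_of_one_le_of_nonpos hG1' (by linarith)
      have h14 : |dd y1 P0| ≤ dl y1 * 2 := by
        have h15 : |(det w : ℝ)| * Phi G' |(j : ℝ)| ≤
            (dl y1 * (L * G' ^ (-2 + 4 * β)) + dl y1 * (G ^ (-52 : ℝ) *
              (G ^ (1 + 7 * (β / 100))) ^ 2)) * G' ^ (99 / 100 : ℝ) := by
          refine mul_le_mul (by linarith) hPhi ?_ ?_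
          · unfold Phi
            exact le_max_of_le_left (Real.rpow_nonneg hG'pos.le _)
          · have := Real.rpow_nonneg hG'pos.le (-2 + 4 * β)
            have := Real.rpow_nonneg hGpos.le (-52 : ℝ)
            positivity
        have h16 := mul_le_mul_of_nonneg_left h9 hD1.le
        have h17 := mul_le_mul_of_nonneg_left h10 hD1.le
        have h18 : (dl y1 * (L * G' ^ (-2 + 4 * β)) + dl y1 * (G ^ (-52 : ℝ) *
              (G ^ (1 + 7 * (β / 100))) ^ 2)) * G' ^ (99 / 100 : ℝ) =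
            dl y1 * (L * G' ^ (-2 + 4 * β) * G' ^ (99 / 100 : ℝ)) +
              dl y1 * (G ^ (-52 : ℝ) * (G ^ (1 + 7 * (β / 100))) ^ 2 * G' ^ (99 / 100 : ℝ)) := by
          ring
        linarith
      have h19 : bb y1 P0 ≤ 2 := by
        have h20 : bb y1 P0 * dl y1 ≤ 2 * dl y1 := by
          rw [bb_mul hd1]
          linarith
        exact le_of_mul_le_mul_right h20 hD1
      have h21 : G ^ (β / 400) ≤ G ^ (98 * (β / 100)) := pw hG1' (by linarith)
      linarith
  · -- `w` is outside of the plane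
    have hzz : zz y1 / zz y ≤ 101 / 100 * G ^ (-1 + 2 * β) := by
      refine N.zz1.trans ?_
      have := N.cc1.trans N.c1
      linarith
    have hzz0 : 0 < zz y1 / zz y := div_pos (zz_pos hy1 hd1) (zz_pos hy hd)
    have hzz1 : zz y1 / zz y ≤ 1 := by
      have h2 : G ^ (-1 + 2 * β) ≤ G ^ (-(β / 400)) := pw hG1' (by linarith)
      have h3 : G ^ (-(β / 400)) ≤ 1 / 1000 := by
        rw [Real.rpow_neg hGpos.le, one_div]
        exact inv_anti₀ (by norm_num) h5
      linarith
    have hca : |ca y w| ≤ G ^ (3 - 111 * (β / 100)) := by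
      rw [ca_change hy hy1 w, abs_mul, abs_of_pos N.ca0]
      have h2 := mul_le_mul N.ca (ha.trans hLG) (abs_nonneg _) (Real.rpow_nonneg hGpos.le _)
      rw [← hGdef, ← Real.rpow_add hGpos] at h2
      refine h2.trans (pw hG1' ?_)
      linarith
    have hr0 : rr y ≤ G ^ (-50 : ℝ) := hC.rr0
    have hrp := rr_pos hy hd
    refine absurd (hV w ?_ ?_ ?_ hm0) (not_lt.2 hm)
    · exact hca.trans (pw hG1' (by linarith))
    · refine (cb_change hy hy1 hd hd1 hC.tt2 w).trans ?_
      rw [← hGdef]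
      have h2 : zz y1 / zz y * |cb y1 w| ≤ G ^ (3 - 111 * (β / 100)) := by
        have h3 : zz y1 / zz y * |cb y1 w| ≤ 1 * G ^ (1 + 7 * (β / 100)) :=
          mul_le_mul hzz1 (hb.trans hLG) (abs_nonneg _) zero_le_one
        rw [one_mul] at h3
        exact h3.trans (pw hG1' (by linarith))
      have h3 : G ^ (β / 400) * G ^ (3 - 111 * (β / 100)) ≤ G ^ (3 - β) := by
        rw [← Real.rpow_add hGpos]
        exact pw hG1' (by linarith)
      have h4 := Real.rpow_nonneg hGpos.le (3 - 111 * (β / 100))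
      nlinarith
    · refine (cc_change hy hy1 hd hd1 hC.tt2 w).trans ?_
      rw [← hGdef]
      have h2 : zz y1 / zz y * |cc y1 w| ≤ 2 * G ^ (-3 + 6 * β + 2 * (β / 100)) := by
        have h3 : zz y1 / zz y * |cc y1 w| ≤
            101 / 100 * G ^ (-1 + 2 * β) * G ^ (-2 + 4 * β + 2 * (β / 100)) :=
          mul_le_mul hzz (hccG'.trans hccG) (abs_nonneg _) (by positivity)
        have h4 : 101 / 100 * G ^ (-1 + 2 * β) * G ^ (-2 + 4 * β + 2 * (β / 100)) =
            101 / 100 * G ^ (-3 + 6 * β + 2 * (β / 100)) := by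
          rw [mul_assoc, ← Real.rpow_add hGpos]
          congr 2
          ring
        have h6 := Real.rpow_nonneg hGpos.le (-3 + 6 * β + 2 * (β / 100))
        linarith
      have h3 : 6 * rr y * (zz y1 / zz y) * |cb y1 w| ≤ 6 * G ^ (-3 + 6 * β + 2 * (β / 100)) := by
        have h4 : 6 * rr y * (zz y1 / zz y) * |cb y1 w| ≤
            6 * G ^ (-50 : ℝ) * 1 * G ^ (1 + 7 * (β / 100)) := by
          refine mul_le_mul ?_ (hb.trans hLG) (abs_nonneg _) (by positivity)
          refine mul_le_mul ?_ hzz1 hzz0.le (by positivity)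
          linarith
        have h6 : 6 * G ^ (-50 : ℝ) * 1 * G ^ (1 + 7 * (β / 100)) =
            6 * G ^ (-50 + (1 + 7 * (β / 100))) := by
          rw [mul_one, mul_assoc, ← Real.rpow_add hGpos]
        rw [h6] at h4
        have h7 : G ^ (-50 + (1 + 7 * (β / 100))) ≤ G ^ (-3 + 6 * β + 2 * (β / 100)) :=
          pw hG1' (by linarith)
        linarith
      have h4 : 9 * rr y * |ca y w| ≤ 9 * G ^ (-3 + 6 * β + 2 * (β / 100)) := by
        have h4 : 9 * rr y * |ca y w| ≤ 9 * G ^ (-50 : ℝ) * G ^ (3 - 111 * (β / 100)) := by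
          refine mul_le_mul ?_ hca (abs_nonneg _) (by positivity)
          linarith
        have e : 9 * G ^ (-50 : ℝ) * G ^ (3 - 111 * (β / 100)) =
            9 * G ^ (-50 + (3 - 111 * (β / 100))) := by
          rw [mul_assoc, ← Real.rpow_add hGpos]
        rw [e] at h4
        have h7 : G ^ (-50 + (3 - 111 * (β / 100))) ≤ G ^ (-3 + 6 * β + 2 * (β / 100)) :=
          pw hG1' (by linarith)
        linarith
      have h6 : G ^ (β / 400) * G ^ (-3 + 6 * β + 2 * (β / 100)) ≤ G ^ (-3 + 7 * β) := by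
        rw [← Real.rpow_add hGpos]
        exact pw hG1' (by linarith)
      have h7 := Real.rpow_nonneg hGpos.le (-3 + 6 * β + 2 * (β / 100))
      nlinarith

end ULB
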