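import Pool.Agent.ULB.Vch

/-!
# WCH: `WW` for the child (MP_c538e3_nt, lower bound `1/3`)
-/

set_option autoImplicit false

namespace ULB

open WHP (V3 det be ga dot cross lin tt)
open WHS (hh ev der)

namespace WV

theorem zz_ratio {y y1 : V3} (hy : 0 < y.a) (hy1 : 0 < y1.a) (h : det y ≠ 0) :
    dl y1 = zz y1 / zz y * (dl y * ca y y1) := by
  have h1 : (y.a : ℝ) ≠ 0 := by exact_mod_cast hy.ne'
  have h2 : (y1.a : ℝ) ≠ 0 := by exact_mod_cast hy1.ne'
  have h3 := (dl_pos h).ne'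
  unfold zz ca
  field_simp

theorem a_formula {y P : V3} (h : det y ≠ 0) (hd : dd y P ≠ 0) :
    (y.a : ℝ) = GG y P * bb y P * dl y ^ 2 := by
  have h3 := (dl_pos h).ne'
  have h4 : |dd y P| ≠ 0 := abs_ne_zero.2 hd
  unfold GG bb
  field_simp

theorem rr_formula {y P : V3} (hy : 0 < y.a) (h : det y ≠ 0) (hd : dd y P ≠ 0) :
    rr y * (GG y P ^ 2 * bb y P ^ 2 * dl y ^ 3) = 1 := by
  have h3 := (dl_pos h).ne'
  have h1 : (y.a : ℝ) ≠ 0 := by exact_mod_cast hy.ne'
  have h5 := a_formula (P := P) h hd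
  unfold rr
  rw [div_mul_eq_mul_div, div_eq_one_iff_eq (by positivity)]
  rw [h5]
  ring

theorem phi_pos {G j : ℝ} (hG : 0 < G) : 0 < Phi G j :=
  lt_of_lt_of_le (Real.rpow_pos_of_pos hG _) (le_max_left _ _)

end WV

open WV in
theorem wch (hNZ : Stmt_NZ) : Stmt_WCH := by
  intro β hβ hβ1
  obtain ⟨G0, h0⟩ := num β hβ hβ1
  obtain ⟨G1, hG1, h1⟩ := absorb (β / 400) 3000 (by positivity)
  refine ⟨max G0 G1, ?_⟩
  intro B y P wm v R y1 P0 a b q k g d hN hG hB1 hB2 hBas hS hC hWpl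
  have N := h0 B y P wm v R y1 P0 a b q k g d hN ((le_max_left _ _).trans hG) hB1 hB2 hS hC
  have h5 : 3000 ≤ GG y P ^ (β / 400) := h1 _ ((le_max_right _ _).trans hG)
  set G := GG y P with hGdef
  set G' := GG y1 P0 with hG'def
  have hG100 : (100 : ℝ) ≤ G := N.G2
  have hGpos : (0 : ℝ) < G := by linarith
  have hG1' : (1 : ℝ) ≤ G := by linarith
  have hg1 : G ^ (1 - β / 100) ≤ G' := N.g1
  have hG'3000 : 3000 ≤ G' := by
    have h2 : G ^ (β / 400) ≤ G ^ (1 - β / 100) := pw hG1' (by linarith)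
    linarith
  have hG'1 : 1 ≤ G' := by linarith
  have hG'pos : 0 < G' := by linarith
  have hy := hN.ya
  have hy1 := hC.ya1
  have hd := hN.dt
  have hd1 := hC.dt
  have hD := dl_pos hd
  have hD' := one_le_dl hd
  have hD1 := dl_pos hd1
  have hb1 : G ^ (98 * (β / 100)) ≤ bb y1 P0 := N.b1
  have hb2 : bb y1 P0 ≤ G ^ (102 * (β / 100)) := N.b2
  have hb1' : 3000 ≤ bb y1 P0 := by
    have h2 : G ^ (β / 400) ≤ G ^ (98 * (β / 100)) := pw hG1' (by linarith)
    linarith
  have hrp := rr_pos hy hd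
  have hBpos : 0 < B := by linarith
  intro w j hj0 hj hcc
  have hw0 : dot P0 w = 0 := dot_of_cross hj0 hj
  obtain ⟨e, he⟩ := cross_of_orth hS.pP hC.o0 hw0
  obtain ⟨q1, hq1, hq1c⟩ := hC.cr
  have h3 := three hq1c he hj hS.pP hC.o0 hC.o1 hw0
  have hj1 : (1 : ℝ) ≤ |(j : ℝ)| := abs_int_ge hj0
  have hdet : det w ≠ 0 := by
    refine hNZ y1 P0 w j hy1 hd1 ?_ ?_ hC.sb1 ?_ ?_ hj0 hj hcc
    · have h6 := hC.tt2
      have h7 := hC.rr0
      have h8 : G ^ (-50 : ℝ) ≤ 1 / 3 := by
        have h9 : G ^ (-50 : ℝ) ≤ G ^ (-1 : ℝ) := pw hG1' (by norm_num)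
        have h10 : G ^ (-1 : ℝ) ≤ 1 / 100 := by
          rw [Real.rpow_neg_one, one_div]
          exact inv_anti₀ (by norm_num) hG100
        linarith
      have h11 : |tt y1| ≤ |tt y1 - tt y| + |tt y| := by
        have := abs_add_le (tt y1 - tt y) (tt y)
        simpa using this
      have := hN.tb
      rw [← hGdef] at h7
      linarith
    · rintro h6
      obtain ⟨Q, hQ⟩ := hS.pP
      rw [h6] at hQ
      have h7 : dot Q 0 = 0 := by
        show Q.a * 0 + Q.b * 0 + Q.c * 0 = 0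
        ring
      omega
    · have h6 : (y1.a : ℝ) = G' * (dl y1 * |dd y1 P0|) := by
        have h7 : |dd y1 P0| ≠ 0 := by
          rw [← bb_mul hd1]
          have : 0 < bb y1 P0 * dl y1 := by positivity
          exact this.ne'
        rw [hG'def]
        unfold GG
        field_simp
      rw [h6]
      have h8 : 0 ≤ dl y1 * |dd y1 P0| := by positivity
      nlinarith
    · rw [← bb_mul hd1]
      nlinarith
  have hdet1 : (1 : ℝ) ≤ |(det w : ℝ)| := abs_int_ge hdet
  have hzz0 : 0 < zz y1 / zz y := div_pos (zz_pos hy1 hd1) (zz_pos hy hd)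
  have hcs1 : cs β B y P ≤ 1 := by
    refine N.c1.trans ?_
    exact Real.rpow_le_one_of_one_le_of_nonpos hG1' (by linarith)
  have hzz1 : zz y1 / zz y ≤ 2 := by
    have h6 := N.zz1
    have h7 := N.cc1
    linarith
  by_cases hjD : dl y ^ 2 < |(j : ℝ)|
  · -- `|j|` is large
    have h6 : dl y1 ≤ 2 * (dl y * G ^ (2 : ℝ)) := by
      rw [zz_ratio hy hy1 hd]
      have h7 : ca y y1 ≤ G ^ (2 : ℝ) := N.ca.trans (pw hG1' (by linarith))
      have h8 : dl y * ca y y1 ≤ dl y * G ^ (2 : ℝ) := mul_le_mul_of_nonneg_left h7 hD.le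
      exact mul_le_mul hzz1 h8 (mul_nonneg hD.le N.ca0.le) (by norm_num)
    have h7 : |dd y1 P0| ≤ dl y * G ^ (4 : ℝ) := by
      rw [← bb_mul hd1]
      have h8 : bb y1 P0 * dl y1 ≤ G ^ (102 * (β / 100)) * (2 * (dl y * G ^ (2 : ℝ))) :=
        mul_le_mul hb2 h6 hD1.le (Real.rpow_nonneg hGpos.le _)
      have h9 : G ^ (102 * (β / 100)) * 2 * G ^ (2 : ℝ) ≤ G ^ (4 : ℝ) := by
        have h10 : (2 : ℝ) ≤ G ^ (β / 400) := by linarith
        have h11 : G ^ (102 * (β / 100)) * 2 * G ^ (2 : ℝ) ≤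
            G ^ (102 * (β / 100)) * G ^ (β / 400) * G ^ (2 : ℝ) := by
          refine mul_le_mul_of_nonneg_right ?_ (Real.rpow_nonneg hGpos.le _)
          exact mul_le_mul_of_nonneg_left h10 (Real.rpow_nonneg hGpos.le _)
        refine h11.trans ?_
        rw [← Real.rpow_add hGpos, ← Real.rpow_add hGpos]
        exact pw hG1' (by linarith)
      have h10 := mul_le_mul_of_nonneg_left h9 hD.le
      linarith
    have h8 : G ^ (4 : ℝ) ≤ dl y ^ (96 / 100 : ℝ) := by
      have h9 : (G ^ (20 : ℕ)) ^ (96 / 100 : ℝ) ≤ dl y ^ (96 / 100 : ℝ) :=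
        Real.rpow_le_rpow (by positivity) hN.big (by norm_num)
      refine le_trans ?_ h9
      rw [← Real.rpow_natCast, ← Real.rpow_mul hGpos.le]
      exact pw hG1' (by norm_num)
    have h9 : dl y * dl y ^ (96 / 100 : ℝ) = (dl y ^ 2) ^ (49 / 50 : ℝ) := by
      rw [← Real.rpow_natCast, ← Real.rpow_mul hD.le]
      nth_rewrite 1 [← Real.rpow_one (dl y)]
      rw [← Real.rpow_add hD]
      congr 1
      norm_num
    have h10 : (dl y ^ 2) ^ (49 / 50 : ℝ) ≤ |(j : ℝ)| ^ (49 / 50 : ℝ) :=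
      Real.rpow_le_rpow (by positivity) hjD.le (by norm_num)
    have h11 : |(j : ℝ)| ^ (49 / 50 : ℝ) ≤ Phi G' |(j : ℝ)| := le_max_right _ _
    have h12 : |dd y1 P0| ≤ Phi G' |(j : ℝ)| := by
      have := mul_le_mul_of_nonneg_left h8 hD.le
      linarith
    have h13 := phi_pos (j := |(j : ℝ)|) hG'pos
    nlinarith
  · push Not at hjD
    -- the third coordinate in the frame of `y`
    have hcs2 : G ^ (-1 : ℝ) ≤ cs β B y P := N.c2
    have hcc2 : G ^ (-1 : ℝ) ≤ 2 * (|cc y y1| * G ^ (β / 100)) := by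
      have h6 := N.cc2
      have h7 : |cc y y1| * |(d : ℝ)| ≤ |cc y y1| * G ^ (β / 100) :=
        mul_le_mul_of_nonneg_left (N.dB.trans hB2) (abs_nonneg _)
      linarith
    have hcc3 : G ^ (-2 : ℝ) ≤ |cc y y1| := by
      have h6 : 2 * G ^ (β / 100) ≤ G := by
        have h7 : (2 : ℝ) ≤ G ^ (β / 400) := by linarith
        have h8 : 2 * G ^ (β / 100) ≤ G ^ (β / 400) * G ^ (β / 100) :=
          mul_le_mul_of_nonneg_right h7 (Real.rpow_nonneg hGpos.le _)
        refine h8.trans ?_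
        rw [← Real.rpow_add hGpos]
        calc G ^ (β / 400 + β / 100) ≤ G ^ (1 : ℝ) := pw hG1' (by linarith)
          _ = G := Real.rpow_one _
      have h9 : G ^ (-1 : ℝ) ≤ |cc y y1| * G := by
        have := mul_le_mul_of_nonneg_left h6 (abs_nonneg (cc y y1))
        linarith
      have h10 : G ^ (-2 : ℝ) = G ^ (-1 : ℝ) * G⁻¹ := by
        rw [← Real.rpow_neg_one G, ← Real.rpow_add hGpos]
        norm_num
      rw [h10, ← div_eq_mul_inv, div_le_iff₀ hGpos]
      exact h9
    have hddne : dd y P ≠ 0 := by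
      intro h6
      have h7 : G = 0 := by
        rw [hGdef]
        unfold GG
        rw [h6]
        simp
      linarith
    have hbb : 1 ≤ bb y P := by
      refine le_trans ?_ hN.b1
      exact Real.one_le_rpow hG1' (by linarith)
    have hrD : rr y * dl y ^ 2 ≤ G ^ (-22 : ℝ) := by
      have h6 := rr_formula (P := P) hy hd hddne
      rw [← hGdef] at h6
      have h7 : rr y * dl y ^ 2 * (G ^ 2 * dl y) ≤ 1 := by
        have h8 : rr y * dl y ^ 2 * (G ^ 2 * dl y) * 1 ≤
            rr y * dl y ^ 2 * (G ^ 2 * dl y) * bb y P ^ 2 := by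
          refine mul_le_mul_of_nonneg_left ?_ (by positivity)
          nlinarith
        calc rr y * dl y ^ 2 * (G ^ 2 * dl y) = rr y * dl y ^ 2 * (G ^ 2 * dl y) * 1 := by ring
          _ ≤ _ := h8
          _ = rr y * (G ^ 2 * bb y P ^ 2 * dl y ^ 3) := by ring
          _ = 1 := h6
      have h9 : G ^ (22 : ℕ) ≤ G ^ 2 * dl y := by
        calc G ^ (22 : ℕ) = G ^ 2 * G ^ (20 : ℕ) := by ring
          _ ≤ G ^ 2 * dl y := mul_le_mul_of_nonneg_left hN.big (by positivity)
      have h10 : rr y * dl y ^ 2 * G ^ (22 : ℕ) ≤ 1 :=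
        (mul_le_mul_of_nonneg_left h9 (by positivity)).trans h7
      rw [Real.rpow_neg hGpos.le]
      have h11 : G ^ (22 : ℝ) = G ^ (22 : ℕ) := by
        rw [← Real.rpow_natCast]; norm_num
      rw [h11, ← one_div, le_div_iff₀ (by positivity)]
      exact h10
    have hb2' : bb y1 P0 ≤ G := by
      refine hb2.trans ?_
      calc G ^ (102 * (β / 100)) ≤ G ^ (1 : ℝ) := pw hG1' (by linarith)
        _ = G := Real.rpow_one _
    have hbb0 : 0 ≤ bb y1 P0 := by linarith
    have hcb : |cb y1 w| ≤ 5 / 2 * (dl y ^ 2 * G) := by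
      have h6 := cross_c hy1 hd1 hj
      have h7 : dl y1 * |cb y1 w| = |(j : ℝ)| * |(P0.c : ℝ)| := by
        rw [← abs_mul, h6, abs_mul, abs_of_pos hD1]
      have h8 : |(j : ℝ)| * |(P0.c : ℝ)| ≤ dl y ^ 2 * (5 / 2 * (G * dl y1)) := by
        refine mul_le_mul hjD ?_ (abs_nonneg _) (by positivity)
        refine hC.sb1.trans ?_
        rw [← bb_mul hd1]
        have := mul_le_mul_of_nonneg_right hb2' hD1.le
        linarith
      have h9 : dl y1 * |cb y1 w| ≤ dl y1 * (5 / 2 * (dl y ^ 2 * G)) := by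
        rw [h7]
        linarith
      exact le_of_mul_le_mul_left h9 hD1
    have hca : |ca y1 w| ≤ 2 * (dl y ^ 2 * G) := by
      have h6 := cross_d_ge hy1 hd1 hj
      have h7 : |(j : ℝ)| * |dd y1 P0| ≤ dl y ^ 2 * (G * dl y1) := by
        refine mul_le_mul hjD ?_ (abs_nonneg _) (by positivity)
        rw [← bb_mul hd1]
        exact mul_le_mul_of_nonneg_right hb2' hD1.le
      have h8 : dl y1 * |cc y1 w| ≤ dl y1 * (dl y ^ 2 * G) := by
        refine mul_le_mul_of_nonneg_left ?_ hD1.le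
        nlinarith [one_le_pow₀ hD' (n := 2)]
      have h9 : dl y1 * |ca y1 w| ≤ dl y1 * (2 * (dl y ^ 2 * G)) := by linarith
      exact le_of_mul_le_mul_left h9 hD1
    have hcay : |ca y w| ≤ G ^ (2 : ℝ) * (2 * (dl y ^ 2 * G)) := by
      rw [ca_change hy hy1 w, abs_mul, abs_of_pos N.ca0]
      exact mul_le_mul (N.ca.trans (pw hG1' (by linarith))) hca (abs_nonneg _)
        (Real.rpow_nonneg hGpos.le _)
    have hG22 : G ^ (2 : ℝ) = G ^ 2 := by
      rw [← Real.rpow_natCast]; norm_num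
    have hG19 : G ^ (-22 : ℝ) * G ^ 3 = G ^ (-19 : ℝ) := by
      have h6 : G ^ 3 = G ^ (3 : ℝ) := by
        rw [← Real.rpow_natCast]; norm_num
      rw [h6, ← Real.rpow_add hGpos]
      norm_num
    have hG17 : 100 * G ^ (-19 : ℝ) ≤ 9 / 100 * G ^ (-2 : ℝ) := by
      have h6 : G ^ (-2 : ℝ) = G ^ (-19 : ℝ) * G ^ (17 : ℕ) := by
        have h7 : G ^ (17 : ℕ) = G ^ (17 : ℝ) := by
          rw [← Real.rpow_natCast]; norm_num
        rw [h7, ← Real.rpow_add hGpos]
        norm_num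
      have h8 : (100 : ℝ) ^ 17 ≤ G ^ (17 : ℕ) := pow_le_pow_left₀ (by norm_num) hG100 17
      rw [h6]
      have h9 := Real.rpow_nonneg hGpos.le (-19 : ℝ)
      nlinarith
    have hccw : |cc y w| ≤ 6 / 10 * |cc y y1| := by
      have h6 := cc_change hy hy1 hd hd1 hC.tt2 w
      have h7 : zz y1 / zz y * |cc y1 w| ≤ 101 / 100 * |cc y y1| * (1 / 2) :=
        mul_le_mul N.zz1 hcc (abs_nonneg _) (by positivity)
      have h8 : 6 * rr y * (zz y1 / zz y) * |cb y1 w| ≤ 30 * G ^ (-19 : ℝ) := by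
        have h9 : 6 * rr y * (zz y1 / zz y) * |cb y1 w| ≤
            6 * rr y * 2 * (5 / 2 * (dl y ^ 2 * G)) := by
          refine mul_le_mul ?_ hcb (abs_nonneg _) (by positivity)
          exact mul_le_mul_of_nonneg_left hzz1 (by positivity)
        have h10 : 6 * rr y * 2 * (5 / 2 * (dl y ^ 2 * G)) = 30 * (rr y * dl y ^ 2 * G) := by ring
        have h11 : rr y * dl y ^ 2 * G ≤ G ^ (-22 : ℝ) * G ^ 3 := by
          refine mul_le_mul hrD ?_ hGpos.le (Real.rpow_nonneg hGpos.le _)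
          nlinarith
        rw [hG19] at h11
        linarith
      have h9 : 9 * rr y * |ca y w| ≤ 18 * G ^ (-19 : ℝ) := by
        have h10 : 9 * rr y * |ca y w| ≤ 9 * rr y * (G ^ (2 : ℝ) * (2 * (dl y ^ 2 * G))) :=
          mul_le_mul_of_nonneg_left hcay (by positivity)
        rw [hG22] at h10
        have h11 : 9 * rr y * (G ^ 2 * (2 * (dl y ^ 2 * G))) = 18 * (rr y * dl y ^ 2 * G ^ 3) := by
          ring
        have h12 : rr y * dl y ^ 2 * G ^ 3 ≤ G ^ (-22 : ℝ) * G ^ 3 :=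
          mul_le_mul_of_nonneg_right hrD (by positivity)
        rw [hG19] at h12
        linarith
      have h13 := Real.rpow_nonneg hGpos.le (-19 : ℝ)
      linarith
    -- comparison of `e` and `j`
    have hqc : |(q1 : ℝ)| * |cc y y1| ≤ 1 / 1000 := by
      have h6 : |(q1 : ℝ)| * |(d : ℝ)| = q * g := by
        have h7 : (q1 : ℝ) * d = q * g := by exact_mod_cast hq1
        rw [← abs_mul, h7, abs_of_pos]
        have := N.q0
        have := N.g0
        positivity
      have h8 : |(q1 : ℝ)| * |cc y y1| ≤ |(q1 : ℝ)| * |cc y y1| * |(d : ℝ)| :=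
        le_mul_of_one_le_right (by positivity) N.d1
      have h9 : |(q1 : ℝ)| * |cc y y1| * |(d : ℝ)| = q * g * |cc y y1| := by
        rw [← h6]
        ring
      have h10 : (q : ℝ) * g * |cc y y1| ≤ q * B * cs β B y P := by
        refine mul_le_mul ?_ N.cc1 (abs_nonneg _) ?_
        · exact mul_le_mul_of_nonneg_left hC.gB N.q0.le
        · have := N.q0
          positivity
      have h11 : (q : ℝ) * B * cs β B y P ≤ B * (2 * G ^ (-β)) := by
        have := mul_le_mul_of_nonneg_left N.qc hBpos.le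
        linarith
      have h12 : B * (2 * G ^ (-β)) ≤ 2 * G ^ (β / 100 + -β) := by
        rw [Real.rpow_add hGpos]
        have := mul_le_mul_of_nonneg_right hB2 (Real.rpow_nonneg hGpos.le (-β))
        linarith
      have h13 : G ^ (β / 100 + -β) ≤ G ^ (-(β / 400)) := pw hG1' (by linarith)
      have h14 : G ^ (-(β / 400)) ≤ 1 / 3000 := by
        rw [Real.rpow_neg hGpos.le, one_div]
        exact inv_anti₀ (by norm_num) h5
      linarith
    have hqw : |(q1 : ℝ)| * |cc y w| ≤ 1 / 1000 := by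
      have h6 : |(q1 : ℝ)| * |cc y w| ≤ |(q1 : ℝ)| * (6 / 10 * |cc y y1|) :=
        mul_le_mul_of_nonneg_left hccw (abs_nonneg _)
      have h7 : 0 ≤ |(q1 : ℝ)| * |cc y y1| := by positivity
      nlinarith
    have hself := cc_self hy hd
    have he1 : |(e : ℝ)| * |cc y y1| ≤ 11 / 10 * |(j : ℝ)| := by
      have h6 : (e : ℝ) * cc y y1 = q1 * cc y w + j * cc y y := by linarith
      rw [← abs_mul, h6]
      refine (abs_add_le _ _).trans ?_
      rw [abs_mul, abs_mul, hself]
      linarith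
    have he2 : 9 / 10 * |(j : ℝ)| ≤ |(e : ℝ)| * |cc y y1| := by
      have h6 : (j : ℝ) * cc y y = e * cc y y1 - q1 * cc y w := by linarith
      have h7 : |(j : ℝ)| = |(e : ℝ) * cc y y1 - q1 * cc y w| := by
        rw [← h6, abs_mul, hself, mul_one]
      have h8 := abs_sub ((e : ℝ) * cc y y1) (q1 * cc y w)
      rw [abs_mul, abs_mul] at h8
      linarith
    have hW := hWpl w e ?_ he ?_
    · rw [← hGdef] at hW
      have hcse : cs β B y P * |(e : ℝ)| ≤ 11 / 5 * G ^ (β / 100) * |(j : ℝ)| := by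
        have h6 := N.cc2
        have h7 : cs β B y P ≤ 2 * (|cc y y1| * G ^ (β / 100)) := by
          have h8 : |cc y y1| * |(d : ℝ)| ≤ |cc y y1| * G ^ (β / 100) :=
            mul_le_mul_of_nonneg_left (N.dB.trans hB2) (abs_nonneg _)
          linarith
        have h9 := mul_le_mul_of_nonneg_right h7 (abs_nonneg (e : ℝ))
        have h10 := mul_le_mul_of_nonneg_right he1 (Real.rpow_nonneg hGpos.le (β / 100))
        linarith
      have hκ1 : 1 ≤ G ^ (β / 100) := Real.one_le_rpow hG1' (by linarith)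
      have hPhi : Phi G (cs β B y P * |(e : ℝ)|) ≤
          11 / 5 * G ^ (β / 100) * Phi G' |(j : ℝ)| := by
        unfold Phi
        refine max_le ?_ ?_
        · have h6 : G ≤ G' * G ^ (β / 100) := by
            have h7 := mul_le_mul_of_nonneg_right hg1 (Real.rpow_nonneg hGpos.le (β / 100))
            rw [← Real.rpow_add hGpos] at h7
            have e1 : 1 - β / 100 + β / 100 = 1 := by ring
            rw [e1, Real.rpow_one] at h7
            exact h7
          have h8 : G ^ (99 / 100 : ℝ) ≤ (G' * G ^ (β / 100)) ^ (99 / 100 : ℝ) :=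
            Real.rpow_le_rpow hGpos.le h6 (by norm_num)
          rw [Real.mul_rpow hG'pos.le (Real.rpow_nonneg hGpos.le _)] at h8
          have h9 : (G ^ (β / 100)) ^ (99 / 100 : ℝ) ≤ G ^ (β / 100) := by
            calc (G ^ (β / 100)) ^ (99 / 100 : ℝ) ≤ (G ^ (β / 100)) ^ (1 : ℝ) :=
                  pw hκ1 (by norm_num)
              _ = G ^ (β / 100) := Real.rpow_one _
          have h10 : G' ^ (99 / 100 : ℝ) ≤
              max (G' ^ (99 / 100 : ℝ)) (|(j : ℝ)| ^ (49 / 50 : ℝ)) := le_max_left _ _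
          have h11 : 0 ≤ G' ^ (99 / 100 : ℝ) := Real.rpow_nonneg hG'pos.le _
          have h12 : G' ^ (99 / 100 : ℝ) * (G ^ (β / 100)) ^ (99 / 100 : ℝ) ≤
              max (G' ^ (99 / 100 : ℝ)) (|(j : ℝ)| ^ (49 / 50 : ℝ)) * G ^ (β / 100) :=
            mul_le_mul h10 h9 (Real.rpow_nonneg (by linarith) _) (h11.trans h10)
          have h13 : 0 ≤ max (G' ^ (99 / 100 : ℝ)) (|(j : ℝ)| ^ (49 / 50 : ℝ)) * G ^ (β / 100) := by
            have := h11.trans h10
            positivity
          linarith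
        · have hcspos : 0 ≤ cs β B y P * |(e : ℝ)| := by
            have : 0 ≤ cs β B y P := (Real.rpow_nonneg hGpos.le _).trans hcs2
            positivity
          have h6 : (cs β B y P * |(e : ℝ)|) ^ (49 / 50 : ℝ) ≤
              (11 / 5 * G ^ (β / 100) * |(j : ℝ)|) ^ (49 / 50 : ℝ) :=
            Real.rpow_le_rpow hcspos hcse (by norm_num)
          have e2 : (11 / 5 * G ^ (β / 100) * |(j : ℝ)|) ^ (49 / 50 : ℝ) =
              (11 / 5 * G ^ (β / 100)) ^ (49 / 50 : ℝ) * |(j : ℝ)| ^ (49 / 50 : ℝ) :=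
            Real.mul_rpow (by positivity) (abs_nonneg _)
          rw [e2] at h6
          have h7 : (11 / 5 * G ^ (β / 100)) ^ (49 / 50 : ℝ) ≤ 11 / 5 * G ^ (β / 100) := by
            calc (11 / 5 * G ^ (β / 100)) ^ (49 / 50 : ℝ) ≤ (11 / 5 * G ^ (β / 100)) ^ (1 : ℝ) :=
                  pw (by linarith) (by norm_num)
              _ = 11 / 5 * G ^ (β / 100) := Real.rpow_one _
          refine h6.trans ?_
          exact mul_le_mul h7 (le_max_right _ _) (Real.rpow_nonneg (abs_nonneg _) _) (by positivity)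
      have hdd3 : |dd y1 P0| ≤ 101 / 100 * |dd y P0| := by
        have h6 := hC.dd3
        have h7 : |dd y1 P0| ≤ |dd y1 P0 - dd y P0| + |dd y P0| := by
          have := abs_add_le (dd y1 P0 - dd y P0) (dd y P0)
          simpa using this
        linarith
      have hX := phi_pos (j := |(j : ℝ)|) hG'pos
      have h6 : Phi G (cs β B y P * |(e : ℝ)|) * G ^ (-(4 * (β / 100))) ≤
          11 / 5 * Phi G' |(j : ℝ)| * G ^ (-(3 * (β / 100))) := by
        have h7 := mul_le_mul_of_nonneg_right hPhi (Real.rpow_nonneg hGpos.le (-(4 * (β / 100))))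
        have h8 : 11 / 5 * G ^ (β / 100) * Phi G' |(j : ℝ)| * G ^ (-(4 * (β / 100))) =
            11 / 5 * Phi G' |(j : ℝ)| * (G ^ (β / 100) * G ^ (-(4 * (β / 100)))) := by ring
        rw [h8, ← Real.rpow_add hGpos] at h7
        have e1 : β / 100 + -(4 * (β / 100)) = -(3 * (β / 100)) := by ring
        rw [e1] at h7
        exact h7
      have h7 : G ^ (-(3 * (β / 100))) ≤ 1 / 3000 := by
        have h8 : G ^ (-(3 * (β / 100))) ≤ G ^ (-(β / 400)) := pw hG1' (by linarith)
        have h14 : G ^ (-(β / 400)) ≤ 1 / 3000 := by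
          rw [Real.rpow_neg hGpos.le, one_div]
          exact inv_anti₀ (by norm_num) h5
        linarith
      have h8 : 11 / 5 * Phi G' |(j : ℝ)| * G ^ (-(3 * (β / 100))) ≤
          11 / 5 * Phi G' |(j : ℝ)| * (1 / 3000) := mul_le_mul_of_nonneg_left h7 (by positivity)
      have h9 : |dd y P0| ≤ |(det w : ℝ)| * (11 / 5 * Phi G' |(j : ℝ)| * (1 / 3000)) :=
        hW.trans (mul_le_mul_of_nonneg_left (h6.trans h8) (abs_nonneg _))
      have h10 : 0 ≤ |(det w : ℝ)| * Phi G' |(j : ℝ)| := by positivity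
      nlinarith
    · have h6 : |cc y y1| * |(e : ℝ)| ≤ cs β B y P * |(e : ℝ)| :=
        mul_le_mul_of_nonneg_right N.cc1 (abs_nonneg _)
      nlinarith
    · have h6 := N.cc1
      have h7 := abs_nonneg (cc y y1)
      linarith

end ULB
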