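import Pool.Agent.ULB.Fin
import Pool.Agent.ULB.UCHMain
import Pool.Agent.ULB.Wch
import Pool.Agent.ULB.Vch
import Pool.Agent.ULB.Uni
import Pool.Agent.ULB.Sep
import Pool.Agent.ULB.Chn
import Pool.Agent.ULB.HV
import Pool.Agent.ULB.StepC
import Pool.Agent.ULB.StartC
import Pool.Agent.UEX.Ulb
import Pool.Agent.UEX.UlbPrm

/-!
# Lower bound 1/3 (MP_c538e3_nt): everything except HW, INV2 and ROOT   (helper33)
-/

set_option autoImplicit false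

namespace ULB

/-- STEP from HW and INV2 -/
theorem all_STEP (hHW : Stmt_HW) (hINV2 : Pool.Agent.UHJ.Stmt_INV2) : Stmt_STEP :=
  StepP.t_STEP bas chd (wch nz) vch t_UNI (t_SEP chd) t_CHN hHW (m_HV hINV2) Pool.Agent.UEX.t_EX Pool.Agent.UEX.t_PRM
    m_MKS m_MKN

/-- START from HW and INV2 -/
theorem all_START (hHW : Stmt_HW) (hINV2 : Pool.Agent.UHJ.Stmt_INV2) : Stmt_START :=
  StartP.t_START bas chd (wch nz) vch t_UNI hHW (m_HV hINV2) Pool.Agent.UEX.t_EX Pool.Agent.UEX.t_PRM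

/-- the two dimensions are at least `1/3`, from HW, INV2 and ROOT -/
theorem all_FIN (hHW : Stmt_HW) (hINV2 : Pool.Agent.UHJ.Stmt_INV2) (hROOT : Stmt_ROOT) :
    1 / 3 ≤ dimH {ξ : ℝ | ¬ WHP.AlgDegLeTwo ξ ∧ 2 < WHS.MAIN.uniformExponentStar ξ} ∧
      1 / 3 ≤ dimH {ξ : ℝ | ¬ WHP.AlgDegLeTwo ξ ∧ 2 < WHP.uniformExponent ξ} :=
  m_FIN (all_STEP hHW hINV2) (all_START hHW hINV2) hROOT

end ULB
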