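import Pool.Agent.ULB.AlgS

/-!
# CHD: facts on a child (block UCH), assembly
-/

set_option autoImplicit false

namespace ULB

open WHP (V3 det be ga dot cross lin tt)
open WHS (hh ev der)

namespace CHDaux

/-- for `κ > 0` the power `G ^ κ` is eventually large -/
theorem pow_large (κ K : ℝ) (hκ : 0 < κ) : ∃ G0 : ℝ, ∀ G : ℝ, G0 ≤ G → K ≤ G ^ κ := by
  have h := (tendsto_rpow_atTop hκ).eventually (Filter.eventually_ge_atTop K)
  exact Filter.eventually_atTop.1 h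

end CHDaux

open CHDaux ALGaux in
/-- **CHD.** -/
theorem t_CHD (hF : Stmt_FRM) (hPW : Stmt_PWR) (h1 : Stmt_NUM1) (h2 : Stmt_NUM2)
    (h3 : Stmt_NUM3) (h4 : Stmt_NUM4) (hPL : Stmt_PLN) (hTT : Stmt_TTM) : Stmt_CHD := by
  intro β hβ hβ1
  obtain ⟨Ga, hGa⟩ := hPW β hβ hβ1
  obtain ⟨Gb, hGb⟩ := h1 β hβ hβ1
  obtain ⟨Gc, hGc⟩ := h4 β hβ hβ1
  have hκ : 0 < β / 100 := by positivity
  obtain ⟨Gd, hGd⟩ := pow_large (β / 100) 8 hκ
  refine ⟨max (max Ga Gb) (max Gc (max Gd 1000)), ?_⟩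
  intro B y P wm v R y1 P0 a b q k g d hN hG hB1 hB2 hB hS
  set G := GG y P with hGdef
  have hG1 : Ga ≤ G := le_trans (le_trans (le_max_left _ _) (le_max_left _ _)) hG
  have hG2 : Gb ≤ G := le_trans (le_trans (le_max_right _ _) (le_max_left _ _)) hG
  have hG3 : Gc ≤ G := le_trans (le_trans (le_max_left _ _) (le_max_right _ _)) hG
  have hG45 : max Gd 1000 ≤ G := le_trans (le_trans (le_max_right _ _) (le_max_right _ _)) hG
  have hG4 : Gd ≤ G := le_trans (le_max_left _ _) hG45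
  have hG5 : 1000 ≤ G := le_trans (le_max_right _ _) hG45
  have hG0 : 0 < G := by linarith
  have hya : (0 : ℝ) < y.a := by exact_mod_cast hN.ya
  have hD := dl_pos hN.dt
  have hL : dd y P ≠ 0 := by
    intro h
    have h5 : G = 0 := by
      rw [hGdef]
      simp only [GG, h, abs_zero, mul_zero, div_zero]
    linarith
  have hLp : 0 < |dd y P| := abs_pos.2 hL
  have hLb : |dd y P| = bb y P * dl y := by
    simp only [bb]
    field_simp
  have hY : (y.a : ℝ) = G * bb y P * dl y ^ 2 := by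
    rw [hGdef]
    simp only [GG, bb]
    field_simp
  have hP := hGa G B (bb y P) (dl y) y.a (AA β B y P) (cs β B y P) (QQ β B y P) (rr y) hG1 hB1
    hB2 hN.b1 hN.b2 hN.big hY rfl rfl rfl rfl
  obtain ⟨ho1, ho0, hdg, hgb, hcr, hcc, hca, hcb, hgL, hgp, hYd⟩ :=
    t_ALG hF β B y P wm v R y1 P0 a b q k g d hN.ya hN.dt hN.py hN.pP hN.orth hB hS
  set c : ℝ := q * (a * cc y wm + b * cc y v) - k with hcdef
  have hg1 : (1 : ℝ) ≤ g := by exact_mod_cast hS.g1
  have hb1 : 1 ≤ b := by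
    by_contra h
    have h5 : (b : ℝ) ≤ 0 := by exact_mod_cast (by omega : b ≤ 0)
    have h6 := hS.b1
    linarith
  have hgB : (g : ℝ) ≤ B := by
    have h5 : g ≤ b := Int.le_of_dvd (by omega) hgb
    have h6 : (g : ℝ) ≤ b := by exact_mod_cast h5
    exact h6.trans hS.b2
  obtain ⟨hl01, hl02, hpl⟩ := hPL β G B (bb y P) (dl y) y.a (AA β B y P) (cs β B y P)
    (QQ β B y P) (rr y) (dd y P) (dd y P0) (dd y R) P.c P0.c R.c a b g hP hY hB1 hLb hB.hr
    hS.a1 hS.a2 (by exact_mod_cast (by omega : 0 ≤ b)) hS.b2 hg1 hgL hgp hYd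
  have hAbD : 0 < AA β B y P * bb y P * dl y := by
    have h5 := hP.A0
    have h6 := hP.b1
    have h7 : 0 < bb y P := by linarith
    positivity
  have hL0 : 0 < |dd y P0| := by
    by_contra h
    have h5 : |dd y P0| = 0 := le_antisymm (not_lt.1 h) (abs_nonneg _)
    rw [h5, mul_zero] at hl01
    linarith
  have hL0' : dd y P0 ≠ 0 := abs_pos.1 hL0
  have hGκ : G ^ (-(β / 100)) ≤ 1 / 8 := by
    rw [Real.rpow_neg hG0.le, inv_eq_one_div]
    exact one_div_le_one_div_of_le (by norm_num) (hGd G hG4)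
  have hGκ0 : 0 < G ^ (-(β / 100)) := by positivity
  have hpL : |(P.c : ℝ) / dd y P| ≤ 2 := by
    rw [abs_div, div_le_iff₀ hLp]
    exact hN.sb
  have hp0L0 : |(P0.c : ℝ) / dd y P0| ≤ |(P.c : ℝ) / dd y P| + 21 / 10 * G ^ (-(β / 100)) := by
    have h5 := abs_sub_abs_le_abs_sub ((P0.c : ℝ) / dd y P0) ((P.c : ℝ) / dd y P)
    linarith
  have hp0L0' : |(P0.c : ℝ) / dd y P0| ≤ 5 / 2 := by linarith
  have hsb0 : |(P0.c : ℝ)| ≤ 5 / 2 * |dd y P0| := by
    rwa [abs_div, div_le_iff₀ hL0] at hp0L0'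
  have hc0 : 0 < c := by
    have h5 := hS.c1
    have h6 := hP.c0
    linarith
  have hc2 : c ≤ cs β B y P := hS.c2
  obtain ⟨ht1, ht2⟩ := hTT β G B (bb y P) (dl y) y.a (AA β B y P) (cs β B y P)
    (QQ β B y P) (rr y) (dd y P0) P0.c q g d c (ca y y1) (cb y y1) (si y) hP (si_sq hN.dt)
    hS.q1 hg1 (by exact_mod_cast hS.d0) hc0 hc2 hl01 hsb0 hca hcb
  have hal0 : 0 < ca y y1 := by
    simp only [ca]
    have h5 : (0 : ℝ) < y1.a := by exact_mod_cast hS.ya
    positivity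
  have hy1a : y1.a ≠ 0 := hS.ya.ne'
  obtain ⟨hf1, hf2, hf3, hf4, hf5⟩ := hF y hN.ya hN.dt
  have hdr : (d : ℝ) ≠ 0 := by exact_mod_cast hS.d0
  have he0 : 0 < |(d : ℝ)| := abs_pos.2 hdr
  have he1 : 1 ≤ |(d : ℝ)| := by
    have h5 : 1 ≤ |d| := Int.one_le_abs hS.d0
    exact_mod_cast h5
  have he2 : |(d : ℝ)| ≤ g := by
    have h5 : |d| ≤ g := by
      have h6 : |d| ∣ g := (abs_dvd d g).2 hdg
      exact Int.le_of_dvd (by have := hS.g1; omega) h6
    exact_mod_cast h5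
  have hr0 := hP.r0
  have hG60 : G ^ (-60 : ℝ) ≤ 1 / 1000000 := by
    have h5 : (1000 : ℝ) ^ (2 : ℝ) ≤ G ^ (60 : ℝ) := by
      calc (1000 : ℝ) ^ (2 : ℝ) ≤ G ^ (2 : ℝ) := Real.rpow_le_rpow (by norm_num) hG5 (by norm_num)
        _ ≤ G ^ (60 : ℝ) := Real.rpow_le_rpow_of_exponent_le (by linarith) (by norm_num)
    rw [Real.rpow_neg hG0.le, inv_eq_one_div]
    have h6 : (1000 : ℝ) ^ (2 : ℝ) = 1000000 := by norm_num
    rw [h6] at h5
    exact one_div_le_one_div_of_le (by norm_num) h5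
  have hr6 : rr y ≤ 1 / 1000000 := hP.r1.trans hG60
  have htt : tt y1 - tt y = rr y * (cb y y1 / ca y y1) := hf2 y1 hy1a
  have htt2 : |tt y1 - tt y| ≤ 3 * rr y := by
    rw [htt, abs_mul, abs_of_pos hr0, mul_comm (3 : ℝ)]
    exact mul_le_mul_of_nonneg_left ht2 hr0.le
  have hdd : dd y1 P0 = dd y P0 + 2 * P0.c * (tt y1 - tt y) := by
    simp only [dd, der]
    ring
  have hdd3 : |dd y1 P0 - dd y P0| ≤ 15 * rr y * |dd y P0| := by
    rw [hdd, add_sub_cancel_left, abs_mul, abs_mul, abs_of_pos (by norm_num : (0 : ℝ) < 2)]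
    have h5 : 0 ≤ |(P0.c : ℝ)| := abs_nonneg _
    have h6 : 0 ≤ |tt y1 - tt y| := abs_nonneg _
    calc 2 * |(P0.c : ℝ)| * |tt y1 - tt y| ≤ 2 * (5 / 2 * |dd y P0|) * (3 * rr y) := by
          apply mul_le_mul _ htt2 h6 (by positivity)
          linarith
      _ = _ := by ring
  have hrl : 15 * rr y * |dd y P0| ≤ |dd y P0| / 1000 := by
    have h5 := mul_le_mul_of_nonneg_right hr6 hL0.le
    linarith
  have hdd4 : |dd y1 P0 - dd y P0| ≤ |dd y P0| / 1000 := hdd3.trans hrl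
  have hl1 : |(|dd y1 P0| - |dd y P0|)| ≤ |dd y P0| / 1000 :=
    (abs_abs_sub_abs_le _ _).trans hdd4
  have hL1 : 0 < |dd y1 P0| := by
    have h5 := (abs_le.1 hl1).1
    linarith
  have hxx : |(q * g * dd y P0 / dl y : ℝ)| = q * g * |dd y P0| / dl y := by
    have hq0 : (0 : ℝ) < q := lt_of_lt_of_le hP.Q0 hS.q1
    rw [abs_div, abs_mul, abs_mul, abs_of_pos hq0, abs_of_pos (by linarith : (0 : ℝ) < g),
      abs_of_pos hD]
  have hsia : |(si y : ℝ)| = 1 := by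
    have h5 := si_sq hN.dt
    have h6 : |(si y : ℝ)| ^ 2 = 1 := by rw [sq_abs]; exact h5
    exact (pow_eq_one_iff_of_nonneg (abs_nonneg _) (by norm_num : (2 : ℕ) ≠ 0)).1 h6
  have heal : |(d : ℝ)| * ca y y1 = |c + q * g * dd y P0 / dl y| := by
    have h5 : |(d : ℝ) * ca y y1| = |(si y : ℝ) * (c + q * g * dd y P0 / dl y)| := by
      rw [hca]
    rw [abs_mul, abs_mul, hsia, one_mul, abs_of_pos hal0] at h5
    exact h5
  have hcs1 : cs β B y P ≤ 1 := by
    refine hP.c2.trans ?_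
    exact Real.rpow_le_one_of_one_le_of_nonpos (by linarith) (by norm_num)
  have hal : |(|(d : ℝ)| * ca y y1 - q * g * |dd y P0| / dl y)| ≤ 1 := by
    rw [heal, ← hxx]
    have h5 := abs_abs_sub_abs_le (c + q * g * dd y P0 / dl y) (q * g * dd y P0 / dl y)
    rw [add_sub_cancel_right, abs_of_pos hc0] at h5
    linarith
  have hccabs : |cc y y1| * |(d : ℝ)| = c := by
    have h5 : |(d : ℝ) * cc y y1| = |c| := by rw [hcc]
    rw [abs_mul, abs_of_pos hc0] at h5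
    linarith
  have hY1 : (y1.a : ℝ) = ca y y1 * y.a := by
    simp only [ca]
    field_simp
  have hzz : zz y ^ 2 = rr y * dl y := by
    simp only [zz, rr]
    field_simp
  have hD1 : |dl y1 * |(d : ℝ)| ^ 2 - dl y * (|(d : ℝ)| * ca y y1) * c| ≤
      9 * (rr y * dl y) * (|(d : ℝ)| * ca y y1) ^ 2 := by
    have h5 : (d : ℝ) ^ 2 * det y1 =
        dl y * (d * ca y y1) * c - zz y ^ 2 * (d * cb y y1) ^ 2 := by
      rw [hf1 y1, ← hcc]
      ring
    have h6 : dl y1 * |(d : ℝ)| ^ 2 = |(d : ℝ) ^ 2 * det y1| := by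
      rw [abs_mul, abs_pow]
      simp only [dl]
      ring
    have h7 : dl y * (|(d : ℝ)| * ca y y1) * c = |dl y * (d * ca y y1) * c| := by
      rw [abs_mul, abs_mul, abs_mul, abs_of_pos hD, abs_of_pos hal0, abs_of_pos hc0]
    rw [h6, h7]
    refine (abs_abs_sub_abs_le _ _).trans ?_
    have h8 : (d : ℝ) ^ 2 * det y1 - dl y * (d * ca y y1) * c =
        -(zz y ^ 2 * (d * cb y y1) ^ 2) := by rw [h5]; ring
    rw [h8, abs_neg, hzz, abs_of_nonneg (by positivity)]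
    have h9 : (cb y y1) ^ 2 ≤ 9 * (ca y y1) ^ 2 := by
      have h10 : |cb y y1| ≤ 3 * ca y y1 := by
        rw [abs_div, abs_of_pos hal0, div_le_iff₀ hal0] at ht2
        exact ht2
      have h11 : |cb y y1| ^ 2 ≤ (3 * ca y y1) ^ 2 :=
        pow_le_pow_left₀ (abs_nonneg _) h10 2
      rw [sq_abs] at h11
      linarith
    have h12 : (d : ℝ) ^ 2 = |(d : ℝ)| ^ 2 := (sq_abs _).symm
    calc rr y * dl y * (d * cb y y1) ^ 2 = (rr y * dl y * |(d : ℝ)| ^ 2) * cb y y1 ^ 2 := by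
          rw [mul_pow, h12]; ring
      _ ≤ (rr y * dl y * |(d : ℝ)| ^ 2) * (9 * ca y y1 ^ 2) :=
          mul_le_mul_of_nonneg_left h9 (by positivity)
      _ = _ := by ring
  have hNum : Num β G B (bb y P) (dl y) y.a (AA β B y P) (cs β B y P) (QQ β B y P) q g
      |(d : ℝ)| c (ca y y1) y1.a (dl y1) |dd y P0| |dd y1 P0| (rr y) :=
    { hβ := hβ, hβ1 := hβ1, hB1 := hB1, hB2 := hB2, hb1 := hN.b1, hb2 := hN.b2, hD := hN.big,
      hY := hY, hA := rfl, hcst := rfl, hQ := rfl, hq1 := hS.q1, hq2 := hS.q2, hg1 := hg1,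
      hg2 := hgB, he1 := he1, he2 := he2, hc1 := hS.c1, hc2 := hc2, hl01 := hl01, hl02 := hl02,
      hal := hal, hY1 := hY1, hr := rfl, hD1 := hD1, hl1 := hl1 }
  obtain ⟨hW1, hW2, hda, hDe, -, -, -, hD10, hdl1, hya2⟩ := hGb G B (bb y P) (dl y) y.a
    (AA β B y P) (cs β B y P) (QQ β B y P) q g |(d : ℝ)| c (ca y y1) y1.a (dl y1) |dd y P0|
    |dd y1 P0| (rr y) hG2 hNum hP
  obtain ⟨hGG1, hGG2⟩ := h2 β G B (bb y P) (dl y) y.a (AA β B y P) (cs β B y P) (QQ β B y P)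
    q g |(d : ℝ)| c (ca y y1) y1.a (dl y1) |dd y P0| |dd y1 P0| (rr y) hNum hP hDe hal0 hc0
    hL0 hD10
  obtain ⟨hbb1, hbb2⟩ := h3 β G B (bb y P) (dl y) y.a (AA β B y P) (cs β B y P) (QQ β B y P)
    q g |(d : ℝ)| c (ca y y1) y1.a (dl y1) |dd y P0| |dd y1 P0| (rr y) hNum hP hW1 hDe hal0
    hc0 hL0 hD10
  obtain ⟨hrr1, hrr2⟩ := hGc G B (bb y P) (dl y) y.a (AA β B y P) (cs β B y P) (QQ β B y P)
    q g |(d : ℝ)| c (ca y y1) y1.a (dl y1) |dd y P0| |dd y1 P0| (rr y) hG3 hNum hP hW1 hW2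
    hDe hal0 hc0 hD10
  have hr60 : rr y ≤ G ^ (-60 : ℝ) := hP.r1
  have hGm : G ^ (-60 : ℝ) ≤ 1 / 100000 * G ^ (-(β / 100)) := by
    have h5 : G ^ (-60 : ℝ) = G ^ (-59 : ℝ) * G ^ (-1 : ℝ) := by
      rw [← Real.rpow_add hG0]; norm_num
    have h6 : G ^ (-59 : ℝ) ≤ 1 / 100000 := by
      have h7 : G ^ (-59 : ℝ) ≤ G ^ (-2 : ℝ) :=
        Real.rpow_le_rpow_of_exponent_le (by linarith) (by norm_num)
      have h8 : G ^ (-2 : ℝ) ≤ 1 / 1000000 := by
        rw [Real.rpow_neg hG0.le, inv_eq_one_div]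
        apply one_div_le_one_div_of_le (by norm_num)
        calc (1000000 : ℝ) = (1000 : ℝ) ^ (2 : ℝ) := by norm_num
          _ ≤ G ^ (2 : ℝ) := Real.rpow_le_rpow (by norm_num) hG5 (by norm_num)
      linarith
    have h7 : G ^ (-1 : ℝ) ≤ G ^ (-(β / 100)) :=
      Real.rpow_le_rpow_of_exponent_le (by linarith) (by linarith)
    rw [h5]
    exact mul_le_mul h6 h7 (by positivity) (by norm_num)
  have hsb : |(P0.c / dd y1 P0 : ℝ)| ≤ |(P.c / dd y P : ℝ)| + 4 * G ^ (-(β / 100)) := by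
    have h5 : |(P0.c : ℝ) / dd y1 P0| ≤ |(P0.c : ℝ) / dd y P0| + 100 * rr y := by
      rw [abs_div, abs_div, div_le_iff₀ hL1]
      have h6 : |dd y P0| ≤ |dd y1 P0| + 15 * rr y * |dd y P0| := by
        have h7 := abs_sub_abs_le_abs_sub (dd y P0) (dd y1 P0)
        rw [abs_sub_comm] at h7
        linarith
      have h8 : |(P0.c : ℝ)| = |(P0.c : ℝ)| / |dd y P0| * |dd y P0| := by
        field_simp
      have h9 : |(P0.c : ℝ)| / |dd y P0| ≤ 5 / 2 := by
        rw [div_le_iff₀ hL0]; exact hsb0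
      have h10 : 0 ≤ |(P0.c : ℝ)| / |dd y P0| := by positivity
      have h11 : |dd y P0| ≤ 2 * |dd y1 P0| := by linarith
      calc |(P0.c : ℝ)| = |(P0.c : ℝ)| / |dd y P0| * |dd y P0| := h8
        _ ≤ |(P0.c : ℝ)| / |dd y P0| * (|dd y1 P0| + 15 * rr y * |dd y P0|) :=
            mul_le_mul_of_nonneg_left h6 h10
        _ = |(P0.c : ℝ)| / |dd y P0| * |dd y1 P0| +
            |(P0.c : ℝ)| / |dd y P0| * (15 * rr y * |dd y P0|) := by ring
        _ ≤ |(P0.c : ℝ)| / |dd y P0| * |dd y1 P0| + 5 / 2 * (15 * rr y * (2 * |dd y1 P0|)) := by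
            have h12 : |(P0.c : ℝ)| / |dd y P0| * (15 * rr y * |dd y P0|) ≤
                5 / 2 * (15 * rr y * (2 * |dd y1 P0|)) := by
              apply mul_le_mul h9 _ (by positivity) (by norm_num)
              exact mul_le_mul_of_nonneg_left h11 (by positivity)
            linarith
        _ ≤ _ := by
            have h13 := mul_pos hr0 hL1
            rw [add_mul]
            linarith
    linarith
  have hsb1 : |(P0.c : ℝ)| ≤ 5 / 2 * |dd y1 P0| := by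
    have h5 : |(P0.c / dd y1 P0 : ℝ)| ≤ 5 / 2 := by linarith
    rwa [abs_div, div_le_iff₀ hL1] at h5
  have hAb := hP.Ab
  have hg0 : (0 : ℝ) < g := by linarith
  refine
    { dt := ?_, o1 := ho1, o0 := ho0, dg := hdg, gB := hgB, cr := hcr, tt1 := ?_, tt2 := htt2,
      sb := hsb, sb0 := hsb0, sb1 := hsb1, G1 := hGG1, G2 := hGG2, b1 := hbb1, b2 := hbb2,
      dl1 := hdl1, ya1 := hS.ya, ya2 := hya2, ca1 := ?_, da1 := ?_, rr0 := ?_, rr1 := hrr1,
      rr2 := hrr2, dd1 := ?_, dd2 := ?_, dd3 := ?_, cc1 := ?_, cc2 := ?_ }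
  · intro h
    simp only [dl, h, Int.cast_zero, abs_zero] at hD10
    exact lt_irrefl _ hD10
  · have h5 : tt y1 - tt y - rr y * si y * (P0.c / dd y P0) =
        rr y * (cb y y1 / ca y y1 - si y * (P0.c / dd y P0)) := by
      rw [htt]; ring
    rw [h5, abs_mul, abs_of_pos hr0]
    exact mul_le_mul_of_nonneg_left ht1 hr0.le
  · rw [mul_comm (ca y y1)]
    exact hal
  · have h5 : |cc y y1| = c / |(d : ℝ)| := by
      rw [← hccabs]
      field_simp
    rw [h5]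
    exact hda
  · refine hr60.trans ?_
    exact Real.rpow_le_rpow_of_exponent_le (by linarith) (by norm_num)
  · have h5 : |dd y P0| ≤ g * |dd y P0| := le_mul_of_one_le_left hL0.le hg1
    have h6 : AA β B y P * bb y P * dl y = B * G ^ (1 + β / 100) * dl y := by rw [hAb]
    have h7 : 0 < B * G ^ (1 + β / 100) * dl y := by rw [← h6]; exact hAbD
    rw [h6] at hl02
    linarith
  · have h5 : g * |dd y P0| ≤ B * |dd y P0| := mul_le_mul_of_nonneg_right hgB hL0.le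
    have h6 : AA β B y P * bb y P * dl y = B * (G ^ (1 + β / 100) * dl y) := by rw [hAb]; ring
    rw [h6] at hl01
    have hB0 : 0 < B := by linarith
    have h7 : B * (49 / 100 * (G ^ (1 + β / 100) * dl y)) ≤ B * |dd y P0| := by linarith
    have h8 := le_of_mul_le_mul_left h7 hB0
    have h9 : 0 < G ^ (1 + β / 100) * dl y := by positivity
    linarith
  · linarith
  · rw [hccabs]; exact hc2
  · rw [hccabs]; exact hS.c1

end ULB
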