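import Pool.Agent.WHS.Defs

/-!
# Lower bound 1/3 for both dimensions of MP_c538e3_nt: definitions

Blueprint: `Pool/Agent/ULB/BLUEPRINT.md` (helper40, helper27). `V3, det, be, ga, dot, cross, lin,
tt` are those of `WHP`, `hh, ev, der` those of `WHS`. A node is a pair `(y, P)`: `y` a primitive
integer vector with `y.a = Y > 0`, `δ = |det y|`, `t = y.b / y.a`, and `P` a primitive polynomial
orthogonal to `y`. `G` is the parameter of the node: `P'(t) = b δ` and the second basis vector of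
the lattice orthogonal to `y` has height about `G δ`; `Y = G b δ²`.
-/

namespace ULB

open WHP (V3 det be ga dot cross lin tt)
open WHS (hh ev der)

/-- `δ = |det y|` -/
noncomputable def dl (y : V3) : ℝ := |(det y : ℝ)|

/-- the sign of `det y` -/
def si (y : V3) : ℤ := Int.sign (det y)

/-- `z = δ / Y` -/
noncomputable def zz (y : V3) : ℝ := dl y / y.a

/-- the radius `r = δ / Y²` of a node -/
noncomputable def rr (y : V3) : ℝ := dl y / (y.a : ℝ) ^ 2

/-! ### coordinates of `v` in the frame of `y`; `y` itself is `(1, 0, si y)` -/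

/-- first coordinate `v₀ / Y` -/
noncomputable def ca (y v : V3) : ℝ := (v.a : ℝ) / y.a

/-- second coordinate `β(v) / z` -/
noncomputable def cb (y v : V3) : ℝ := be (tt y) v / zz y

/-- third coordinate `γ(v) / z` -/
noncomputable def cc (y v : V3) : ℝ := ga (tt y) v / zz y

/-- `P'(t)` -/
noncomputable def dd (y P : V3) : ℝ := der P (tt y)

/-- `b = |P'(t)| / δ` -/
noncomputable def bb (y P : V3) : ℝ := |dd y P| / dl y

/-- `G = Y / (δ |P'(t)|)` -/
noncomputable def GG (y P : V3) : ℝ := y.a / (dl y * |dd y P|)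

/-- primitive vectors -/
def Pr (v : V3) : Prop := ∃ Q : V3, dot Q v = 1

/-- multiples -/
def sm (k : ℤ) (v : V3) : V3 := lin k v 0 v

/-- the function in the condition `WW` -/
noncomputable def Phi (G j : ℝ) : ℝ := max (G ^ (99 / 100 : ℝ)) (j ^ (49 / 50 : ℝ))

/-- no vector of the plane `P` in front of `y` has a small determinant -/
def WW (y P : V3) : Prop := ∀ (w : V3) (j : ℤ), j ≠ 0 → cross y w = sm j P →
  |cc y w| ≤ 1 / 2 → |dd y P| ≤ |(det w : ℝ)| * Phi (GG y P) |(j : ℝ)|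

/-- no vector in a thin box around `y` -/
def VV (β : ℝ) (y P : V3) : Prop := ∀ w : V3, w ≠ 0 →
  |ca y w| ≤ GG y P ^ (1 + 3 * (β / 100)) → |cb y w| ≤ GG y P ^ (1 + 3 * (β / 100)) →
  GG y P ^ (-2 + 4 * β) ≤ |cc y w|

/-- weak nodes; `κ = β / 100` -/
structure Nd (β : ℝ) (y P : V3) : Prop where
  ya : 0 < y.a
  dt : det y ≠ 0
  py : Pr y
  pP : Pr P
  orth : dot P y = 0
  tb : |tt y| ≤ 2
  sb : |(P.c : ℝ)| ≤ 2 * |dd y P|
  b1 : GG y P ^ (β / 4) ≤ bb y P
  b2 : bb y P ≤ GG y P ^ (2 * β)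
  big : GG y P ^ (20 : ℕ) ≤ dl y
  cap : (y.a : ℝ) ≤ GG y P ^ (1000 / β)
  W : WW y P

/-- nodes of the tree -/
structure St (β : ℝ) (y P : V3) : Prop extends Nd β y P where
  b3 : GG y P ^ (β - 2 * (β / 100)) ≤ bb y P
  b4 : bb y P ≤ GG y P ^ (β + 3 * (β / 100))
  tb2 : |tt y| ≤ 2 - 1 / GG y P
  sb2 : |(P.c : ℝ)| ≤ (2 - GG y P ^ (-(β / 200))) * |dd y P|
  V : VV β y P

/-- a basis `y, wm, v` of `ℤ³` adapted to a node: `wm` is the second vector of the plane `P`,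
`v` is outside; `P = y × wm`, `R = y × v` is a basis of the lattice orthogonal to `y`. -/
structure Bas (y P wm v R : V3) : Prop where
  hm : cross y wm = P
  hv : dot P v = 1
  hR : R = cross y v
  hc : cross P R = y
  hr : |dd y R| ≤ |dd y P|
  gen : ∀ w : V3, ∃ x l : ℤ, w = lin 1 (lin (dot P w) v x wm) l y

/-! ### parameters of a step: `B = 1` (start) or `B = G^κ` -/

/-- `A = B G^(1+κ) / b` -/
noncomputable def AA (β B : ℝ) (y P : V3) : ℝ := B * GG y P ^ (1 + β / 100) / bb y P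

/-- `c* = G^(κ/4) / (A B)` -/
noncomputable def cs (β B : ℝ) (y P : V3) : ℝ := GG y P ^ (β / 400) / (AA β B y P * B)

/-- `Q = G^(-β) / c*` -/
noncomputable def QQ (β B : ℝ) (y P : V3) : ℝ := GG y P ^ (-β) / cs β B y P

/-- a step from the node `(y, P)` to the node `(y1, P0)`: the plane is the primitive part `P0` of
`a P + b R`, the vector is the primitive part `y1` of `q (a wm + b v) - k σ y`. -/
structure Stp (β B : ℝ) (y P wm v R : V3) (a b q k g d : ℤ) (y1 P0 : V3) : Prop where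
  a1 : AA β B y P / 2 ≤ a
  a2 : (a : ℝ) ≤ AA β B y P
  b1 : B / 2 ≤ b
  b2 : (b : ℝ) ≤ B
  q0 : Prime q
  q1 : QQ β B y P ≤ q
  q2 : (q : ℝ) ≤ 2 * QQ β B y P
  c1 : cs β B y P / 2 ≤ q * (a * cc y wm + b * cc y v) - k
  c2 : q * (a * cc y wm + b * cc y v) - k ≤ cs β B y P
  qk : ¬ q ∣ k
  g1 : 1 ≤ g
  hP : lin a P b R = sm g P0
  pP : Pr P0
  d0 : d ≠ 0
  hy : lin q (lin a wm b v) (-(k * si y)) y = sm d y1
  py : Pr y1
  ya : 0 < y1.a

/-- good planes for `WW` -/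
def Wpl (β B : ℝ) (y P P0 : V3) : Prop := ∀ (w : V3) (e : ℤ), 1 ≤ 2 * cs β B y P * |(e : ℝ)| →
  cross y w = sm e P0 → |cc y w| ≤ cs β B y P →
  |dd y P0| ≤ |(det w : ℝ)| *
    (Phi (GG y P) (cs β B y P * |(e : ℝ)|) * GG y P ^ (-(4 * (β / 100))))

/-- good planes for `VV` -/
def Vpl (β : ℝ) (y P P0 : V3) : Prop := ∀ w : V3, |ca y w| ≤ GG y P ^ (3 - β) →
  |cb y w| ≤ GG y P ^ (3 - β) → |cc y w| ≤ GG y P ^ (-3 + 7 * β) → dot P0 w ≠ 0 →
  GG y P ^ (4 * (β / 100)) < |(dot P0 w : ℝ)|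

end ULB
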