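import Mathlib

/-!
# The sharp tree lemma (MP_c538e3_nt, lower bound `1/3`, block UTR)

A tree of intervals with weights: the limit set of the tree carries a map onto `[0,1)` which is
Hölder continuous with exponent `σ`, so its Hausdorff dimension is at least `σ`.
-/

set_option autoImplicit false

namespace ULB

open Filter Topology
open scoped ENNReal NNReal

/-- The sharp tree lemma. -/
def Stmt_TREE : Prop := ∀ (S : Type) (s0 : S) (ctr rad gap w : S → ℝ) (F : S → Finset S)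
  (σ Cw : ℝ), 0 < σ → σ < 1 → 0 < Cw →
  (∀ s, 0 < rad s ∧ 0 < gap s ∧ 0 < w s ∧ (F s).Nonempty) →
  (∀ s, ∀ s' ∈ F s, |ctr s' - ctr s| + rad s' ≤ rad s ∧ rad s' ≤ rad s / 2 ∧
    w s ≤ (F s).card * w s') →
  (∀ s, ∀ s' ∈ F s, ∀ s'' ∈ F s, s' ≠ s'' →
    gap s ≤ |ctr s' - ctr s''| - rad s' - rad s'') →
  (∀ s, w s * (rad s) ^ (1 - σ) ≤ Cw * gap s * (F s).card) →
  (∀ s, w s ≤ Cw * (rad s) ^ σ) →
  ∃ E : Set ℝ, ENNReal.ofReal σ ≤ dimH E ∧
    ∀ ξ ∈ E, ∃ p : ℕ → S, p 0 = s0 ∧ (∀ k, p (k + 1) ∈ F (p k)) ∧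
      ∀ k, |ξ - ctr (p k)| ≤ rad (p k)

/-- children ordered by their centres -/
lemma utr_order {S : Type} (F : Finset S) (ctr rad : S → ℝ) (g : ℝ) (hg : 0 < g)
    (hne : F.Nonempty) (hrad : ∀ s ∈ F, 0 ≤ rad s)
    (hsep : ∀ s ∈ F, ∀ s' ∈ F, s ≠ s' → g ≤ |ctr s - ctr s'| - rad s - rad s') :
    ∃ c : ℕ → S, (∀ i < F.card, c i ∈ F) ∧
      ∀ i j : ℕ, i < j → j < F.card →
        ((j : ℝ) - i) * g + rad (c i) + rad (c j) ≤ ctr (c j) - ctr (c i) := by
  classical
  have hinj : Set.InjOn ctr F := by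
    intro a ha b hb hab
    by_contra h
    have h1 := hsep a ha b hb h
    rw [hab, sub_self, abs_zero] at h1
    have h2 := hrad a ha
    have h3 := hrad b hb
    linarith
  have hcard : (F.image ctr).card = F.card := Finset.card_image_of_injOn hinj
  set o := (F.image ctr).orderEmbOfFin hcard with ho
  have hmem : ∀ i : Fin F.card, ∃ s ∈ F, ctr s = o i := by
    intro i
    exact Finset.mem_image.1 ((F.image ctr).orderEmbOfFin_mem hcard i)
  choose d hdF hdc using hmem
  obtain ⟨s1, hs1⟩ := hne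
  have hlt : ∀ (i j : ℕ) (hi : i < F.card) (hj : j < F.card), i < j →
      g + rad (d ⟨i, hi⟩) + rad (d ⟨j, hj⟩) ≤ ctr (d ⟨j, hj⟩) - ctr (d ⟨i, hi⟩) := by
    intro i j hi hj hij
    have h1 : ctr (d ⟨i, hi⟩) < ctr (d ⟨j, hj⟩) := by
      rw [hdc, hdc]
      exact o.strictMono (by exact_mod_cast hij)
    have h2 : d ⟨j, hj⟩ ≠ d ⟨i, hi⟩ := by
      intro h
      rw [h] at h1
      exact lt_irrefl _ h1
    have h3 := hsep _ (hdF ⟨j, hj⟩) _ (hdF ⟨i, hi⟩) h2
    rw [abs_of_pos (by linarith)] at h3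
    linarith
  refine ⟨fun i => if h : i < F.card then d ⟨i, h⟩ else s1, ?_, ?_⟩
  · intro i hi
    simp only [hi, dif_pos]
    exact hdF _
  · intro i j hij hj
    induction j with
    | zero => omega
    | succ j ih =>
      have hi : i < F.card := by omega
      rcases Nat.lt_succ_iff_lt_or_eq.1 hij with h | h
      · have h1 := ih h (by omega)
        have hj' : j < F.card := by omega
        simp only [hi, hj, hj', dif_pos] at h1 ⊢
        have h2 := hlt j (j + 1) hj' hj (by omega)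
        have h3 := hrad _ (hdF ⟨j, hj'⟩)
        push_cast
        linarith
      · subst h
        simp only [hi, hj, dif_pos]
        have h2 := hlt i (i + 1) hi hj (by omega)
        push_cast
        linarith

/-- the path of a number `y` of `[0,1)`: states and remainders -/
noncomputable def utrSt {S : Type} (s0 : S) (c : S → ℕ → S) (n : S → ℕ) (y : ℝ) : ℕ → S × ℝ
  | 0 => (s0, y)
  | k + 1 => (c (utrSt s0 c n y k).1 ⌊(n (utrSt s0 c n y k).1 : ℝ) * (utrSt s0 c n y k).2⌋₊,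
      (n (utrSt s0 c n y k).1 : ℝ) * (utrSt s0 c n y k).2 -
        ⌊(n (utrSt s0 c n y k).1 : ℝ) * (utrSt s0 c n y k).2⌋₊)

lemma utrSt_mem {S : Type} (s0 : S) (c : S → ℕ → S) (n : S → ℕ) (y : ℝ)
    (h0 : 0 ≤ y) (h1 : y < 1) (k : ℕ) :
    0 ≤ (utrSt s0 c n y k).2 ∧ (utrSt s0 c n y k).2 < 1 := by
  induction k with
  | zero => exact ⟨h0, h1⟩
  | succ k ih =>
    simp only [utrSt]
    have h2 : (0 : ℝ) ≤ (n (utrSt s0 c n y k).1 : ℝ) * (utrSt s0 c n y k).2 :=
      mul_nonneg (Nat.cast_nonneg _) ih.1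
    have h3 := Nat.floor_le h2
    have h4 := Nat.lt_floor_add_one ((n (utrSt s0 c n y k).1 : ℝ) * (utrSt s0 c n y k).2)
    constructor <;> linarith

lemma utr_idx {n : ℕ} (hn : 0 < n) {z : ℝ} (h0 : 0 ≤ z) (h1 : z < 1) : ⌊(n : ℝ) * z⌋₊ < n := by
  have hn' : (0 : ℝ) < n := by exact_mod_cast hn
  rw [Nat.floor_lt (by positivity)]
  nlinarith

/-- **Block UTR, the sharp tree lemma.** -/
theorem t_TREE : Stmt_TREE := by
  intro S s0 ctr rad gap w F σ Cw hσ hσ1 hCw hpos hch hsep hgap hw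
  have hord : ∀ s, ∃ c : ℕ → S, (∀ i < (F s).card, c i ∈ F s) ∧
      ∀ i j : ℕ, i < j → j < (F s).card →
        ((j : ℝ) - i) * gap s + rad (c i) + rad (c j) ≤ ctr (c j) - ctr (c i) := by
    intro s
    exact utr_order (F s) ctr rad (gap s) (hpos s).2.1 (hpos s).2.2.2
      (fun s' _ => (hpos s').1.le) (hsep s)
  choose c hcF hcs using hord
  set n : S → ℕ := fun s => (F s).card with hn
  have hn0 : ∀ s, 0 < n s := fun s => Finset.card_pos.2 (hpos s).2.2.2
  set p : ℝ → ℕ → S × ℝ := utrSt s0 c n with hp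
  set ix : ℝ → ℕ → ℕ := fun y k => ⌊(n (p y k).1 : ℝ) * (p y k).2⌋₊ with hix
  have hp0 : ∀ y, p y 0 = (s0, y) := fun y => rfl
  have hps : ∀ y k, p y (k + 1) = (c (p y k).1 (ix y k),
      (n (p y k).1 : ℝ) * (p y k).2 - (ix y k : ℝ)) := fun y k => rfl
  have hpm : ∀ y, 0 ≤ y → y < 1 → ∀ k, 0 ≤ (p y k).2 ∧ (p y k).2 < 1 :=
    fun y h0 h1 k => utrSt_mem s0 c n y h0 h1 k
  have hixlt : ∀ y, 0 ≤ y → y < 1 → ∀ k, ix y k < n (p y k).1 :=
    fun y h0 h1 k => utr_idx (hn0 _) (hpm y h0 h1 k).1 (hpm y h0 h1 k).2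
  have hchild : ∀ y, 0 ≤ y → y < 1 → ∀ k, (p y (k + 1)).1 ∈ F (p y k).1 := by
    intro y h0 h1 k
    rw [hps]
    exact hcF _ _ (hixlt y h0 h1 k)
  -- limit points
  have hex : ∀ y : ℝ, ∃ ξ : ℝ, 0 ≤ y → y < 1 → ∀ k, |ξ - ctr (p y k).1| ≤ rad (p y k).1 := by
    intro y
    by_cases hy : 0 ≤ y ∧ y < 1
    · have h1 := IsCompact.nonempty_iInter_of_sequence_nonempty_isCompact_isClosed
        (fun k => Metric.closedBall (ctr (p y k).1) (rad (p y k).1))
        (fun k => ?_) (fun k => ?_) (isCompact_closedBall _ _)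
        (fun k => Metric.isClosed_closedBall)
      · obtain ⟨ξ, hξ⟩ := h1
        refine ⟨ξ, fun _ _ k => ?_⟩
        have h2 := Set.mem_iInter.1 hξ k
        rwa [Metric.mem_closedBall, Real.dist_eq] at h2
      · intro x hx
        rw [Metric.mem_closedBall, Real.dist_eq] at hx ⊢
        have h2 := (hch _ _ (hchild y hy.1 hy.2 k)).1
        have h3 := abs_add_le (x - ctr (p y (k + 1)).1) (ctr (p y (k + 1)).1 - ctr (p y k).1)
        rw [sub_add_sub_cancel] at h3
        linarith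
      · exact ⟨ctr (p y k).1, Metric.mem_closedBall_self (hpos _).1.le⟩
    · refine ⟨0, fun h0 h1 => absurd ⟨h0, h1⟩ hy⟩
  choose ψ hψ using hex
  -- common prefixes
  have hpre : ∀ y y', ∀ k, (∀ l < k, ix y l = ix y' l) →
      (p y k).1 = (p y' k).1 ∧ ∃ M : ℝ, 0 < M ∧ (p y k).2 - (p y' k).2 = M * (y - y') ∧
        (0 ≤ y → y < 1 → w s0 ≤ M * w (p y k).1) := by
    intro y y' k
    induction k with
    | zero =>
      intro _
      refine ⟨rfl, 1, one_pos, ?_, ?_⟩
      · rw [hp0, hp0, one_mul]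
      · intro _ _
        rw [hp0, one_mul]
    | succ k ih =>
      intro hl
      obtain ⟨h1, M, hM, h2, h3⟩ := ih fun l hl' => hl l (by omega)
      have h4 := hl k (by omega)
      have hnk : (0 : ℝ) < n (p y k).1 := by exact_mod_cast hn0 _
      refine ⟨?_, M * n (p y k).1, by positivity, ?_, ?_⟩
      · rw [hps, hps, h4, h1]
      · rw [hps, hps, h4, h1]
        simp only
        linear_combination (n (p y' k).1 : ℝ) * h2
      · intro h0 h0'
        have h5 := h3 h0 h0'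
        have h6 := (hch _ _ (hchild y h0 h0' k)).2.2
        calc w s0 ≤ M * w (p y k).1 := h5
          _ ≤ M * (n (p y k).1 * w (p y (k + 1)).1) := mul_le_mul_of_nonneg_left h6 hM.le
          _ = _ := by ring
  have hrad : ∀ y, 0 ≤ y → y < 1 → ∀ k, rad (p y k).1 ≤ rad s0 / 2 ^ k := by
    intro y h0 h1 k
    induction k with
    | zero => rw [hp0]; simp
    | succ k ih =>
      have h2 := (hch _ _ (hchild y h0 h1 k)).2.1
      rw [pow_succ, ← div_div]
      linarith
  have hw0 : 0 < w s0 := (hpos s0).2.2.1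
  -- different numbers have different paths
  have hdiff : ∀ y y', 0 ≤ y → y < 1 → 0 ≤ y' → y' < 1 → y ≠ y' → ∃ k, ix y k ≠ ix y' k := by
    intro y y' h0 h1 h0' h1' hne
    by_contra hcon
    push Not at hcon
    have hb : ∀ k : ℕ, |y - y'| ≤ Cw * (rad s0 / 2 ^ k) ^ σ / w s0 := by
      intro k
      obtain ⟨h2, M, hM, h3, h4⟩ := hpre y y' k fun l _ => hcon l
      have h5 := h4 h0 h1
      have h6 : M * |y - y'| ≤ 1 := by
        rw [← abs_of_pos hM, ← abs_mul, ← h3, abs_le]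
        have h7 := hpm y h0 h1 k
        have h8 := hpm y' h0' h1' k
        constructor <;> linarith [h7.1, h7.2, h8.1, h8.2]
      have h7 := hw (p y k).1
      have h8 : (rad (p y k).1) ^ σ ≤ (rad s0 / 2 ^ k) ^ σ :=
        Real.rpow_le_rpow (hpos _).1.le (hrad y h0 h1 k) hσ.le
      have h9 : w (p y k).1 ≤ Cw * (rad s0 / 2 ^ k) ^ σ :=
        h7.trans (mul_le_mul_of_nonneg_left h8 hCw.le)
      rw [le_div_iff₀ hw0]
      have h10 : 0 ≤ |y - y'| := abs_nonneg _
      calc |y - y'| * w s0 ≤ |y - y'| * (M * w (p y k).1) := mul_le_mul_of_nonneg_left h5 h10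
        _ = (M * |y - y'|) * w (p y k).1 := by ring
        _ ≤ 1 * w (p y k).1 := mul_le_mul_of_nonneg_right h6 (hpos _).2.2.1.le
        _ ≤ _ := by rw [one_mul]; exact h9
    have ht : Tendsto (fun k : ℕ => Cw * (rad s0 / 2 ^ k) ^ σ / w s0) atTop (𝓝 0) := by
      have h2 : Tendsto (fun k : ℕ => rad s0 / 2 ^ k) atTop (𝓝 0) := by
        have h3 := (tendsto_pow_atTop_nhds_zero_of_lt_one (r := (1 / 2 : ℝ)) (by norm_num)
          (by norm_num)).const_mul (rad s0)
        rw [mul_zero] at h3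
        refine h3.congr fun k => ?_
        rw [one_div, inv_pow]
        rfl
      have h3 : Tendsto (fun k : ℕ => (rad s0 / 2 ^ k) ^ σ) atTop (𝓝 0) := by
        have h4 := h2.rpow_const (p := σ) (Or.inr hσ.le)
        rwa [Real.zero_rpow hσ.ne'] at h4
      have h4 := (h3.const_mul Cw).div_const (w s0)
      simpa using h4
    have h2 : |y - y'| ≤ 0 := ge_of_tendsto' ht hb
    exact hne (sub_eq_zero.1 (abs_eq_zero.1 (le_antisymm h2 (abs_nonneg _))))
  -- the Hölder estimate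
  have hkey : ∀ y y', 0 ≤ y → y < 1 → 0 ≤ y' → y' < 1 →
      |y - y'| ≤ (4 * Cw / w s0) * |ψ y - ψ y'| ^ σ := by
    intro y y' h0 h1 h0' h1'
    by_cases hne : y = y'
    · subst hne
      rw [sub_self, abs_zero]
      positivity
    classical
    have hkex := hdiff y y' h0 h1 h0' h1' hne
    set k := Nat.find hkex with hk
    have hk1 : ix y k ≠ ix y' k := Nat.find_spec hkex
    have hk2 : ∀ l < k, ix y l = ix y' l := by
      intro l hl
      by_contra h
      exact Nat.find_min hkex hl h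
    obtain ⟨h2, M, hM, h3, h4⟩ := hpre y y' k hk2
    have h5 := h4 h0 h1
    set s := (p y k).1 with hs
    have hnn : (0 : ℝ) < n s := by exact_mod_cast hn0 _
    have hpm1 := hpm y h0 h1 k
    have hpm2 := hpm y' h0' h1' k
    have hrs : 0 < rad s := (hpos s).1
    have hgs : 0 < gap s := (hpos s).2.1
    have hws : 0 < w s := (hpos s).2.2.1
    -- general estimate for `i < j`
    have hgen : ∀ (i j : ℕ) (z z' x x' : ℝ), i < j → j < n s → i = ⌊(n s : ℝ) * z⌋₊ →
        j = ⌊(n s : ℝ) * z'⌋₊ → 0 ≤ z → |x - ctr (c s i)| ≤ rad (c s i) →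
        |x' - ctr (c s j)| ≤ rad (c s j) →
        (z' - z) * n s * gap s ≤ 2 * (x' - x) := by
      intro i j z z' x x' hij hj hiz hjz hz hx hx'
      have h6 := hcs s i j hij hj
      have h7 : (j : ℝ) - i ≥ 1 := by
        have : (i : ℝ) + 1 ≤ j := by exact_mod_cast hij
        linarith
      have h8 : (n s : ℝ) * z' < j + 1 := by
        rw [hjz]
        exact Nat.lt_floor_add_one _
      have h9 : (i : ℝ) ≤ (n s : ℝ) * z := by
        rw [hiz]
        exact Nat.floor_le (by positivity)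
      have h10 := (abs_le.1 hx).2
      have h11 := (abs_le.1 hx').1
      have h12 : ((j : ℝ) - i) * gap s ≤ x' - x := by linarith
      have h13 : (z' - z) * n s ≤ 2 * ((j : ℝ) - i) := by nlinarith
      nlinarith
    have hx1 := hψ y h0 h1 (k + 1)
    have hx2 := hψ y' h0' h1' (k + 1)
    rw [hps] at hx1 hx2
    rw [← h2] at hx2
    simp only at hx1 hx2
    have hx0 := hψ y h0 h1 k
    have hx0' := hψ y' h0' h1' k
    rw [← h2] at hx0'
    have hlt1 := hixlt y h0 h1 k
    have hlt2 := hixlt y' h0' h1' k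
    rw [← h2] at hlt2
    have hixs : ix y' k = ⌊(n s : ℝ) * (p y' k).2⌋₊ := by
      simp only [hix]
      rw [h2]
    have hzz : |(p y k).2 - (p y' k).2| * n s * gap s ≤ 2 * |ψ y - ψ y'| := by
      rcases lt_or_gt_of_ne hk1 with h | h
      · have h6 := hgen (ix y k) (ix y' k) (p y k).2 (p y' k).2 (ψ y) (ψ y') h hlt2 rfl
          hixs hpm1.1 hx1 hx2
        have h7 : (p y k).2 ≤ (p y' k).2 := by
          by_contra hc
          push Not at hc
          have h8 : ix y' k ≤ ix y k := by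
            rw [hixs]
            exact Nat.floor_le_floor (mul_le_mul_of_nonneg_left hc.le (Nat.cast_nonneg _))
          omega
        rw [abs_sub_comm, abs_of_nonneg (by linarith)]
        have h8 := neg_abs_le (ψ y - ψ y')
        linarith
      · have h6 := hgen (ix y' k) (ix y k) (p y' k).2 (p y k).2 (ψ y') (ψ y) h hlt1
          hixs rfl hpm2.1 hx2 hx1
        have h7 : (p y' k).2 ≤ (p y k).2 := by
          by_contra hc
          push Not at hc
          have h8 : ix y k ≤ ix y' k := by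
            rw [hixs]
            exact Nat.floor_le_floor (mul_le_mul_of_nonneg_left hc.le (Nat.cast_nonneg _))
          omega
        rw [abs_of_nonneg (by linarith)]
        have h8 := le_abs_self (ψ y - ψ y')
        linarith
    set ρ := |ψ y - ψ y'| with hρ
    have hρ0 : 0 ≤ ρ := abs_nonneg _
    have hρ2 : ρ ≤ 2 * rad s := by
      have h6 := abs_sub_le (ψ y) (ctr s) (ψ y')
      rw [abs_sub_comm (ctr s)] at h6
      linarith
    have hMy : M * |y - y'| = |(p y k).2 - (p y' k).2| := by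
      rw [h3, abs_mul, abs_of_pos hM]
    -- `|y - y'| w0 n gap ≤ 2 w ρ`
    have hA : |y - y'| * w s0 * (n s * gap s) ≤ 2 * w s * ρ := by
      have h6 : 0 ≤ |y - y'| := abs_nonneg _
      calc |y - y'| * w s0 * (n s * gap s) ≤ |y - y'| * (M * w s) * (n s * gap s) := by
            apply mul_le_mul_of_nonneg_right _ (by positivity)
            exact mul_le_mul_of_nonneg_left h5 h6
        _ = (M * |y - y'|) * n s * gap s * w s := by ring
        _ ≤ 2 * ρ * w s := by
            rw [hMy]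
            exact mul_le_mul_of_nonneg_right hzz hws.le
        _ = _ := by ring
    have hB : w s * rad s ^ (1 - σ) ≤ Cw * gap s * n s := hgap s
    have hr1 : 0 < rad s ^ (1 - σ) := by positivity
    have hC : |y - y'| * w s0 * rad s ^ (1 - σ) ≤ 2 * Cw * ρ := by
      have h6 : 0 < (n s : ℝ) * gap s := by positivity
      have h7 : (|y - y'| * w s0 * rad s ^ (1 - σ)) * (n s * gap s) ≤
          (2 * Cw * ρ) * (n s * gap s) := by
        calc (|y - y'| * w s0 * rad s ^ (1 - σ)) * (n s * gap s)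
            = (|y - y'| * w s0 * (n s * gap s)) * rad s ^ (1 - σ) := by ring
          _ ≤ (2 * w s * ρ) * rad s ^ (1 - σ) := mul_le_mul_of_nonneg_right hA hr1.le
          _ = 2 * ρ * (w s * rad s ^ (1 - σ)) := by ring
          _ ≤ 2 * ρ * (Cw * gap s * n s) := mul_le_mul_of_nonneg_left hB (by positivity)
          _ = _ := by ring
      exact le_of_mul_le_mul_right h7 h6
    have hD : ρ ≤ 2 * rad s ^ (1 - σ) * ρ ^ σ := by
      rcases hρ0.eq_or_lt with h | h
      · rw [← h]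
        have : (0 : ℝ) ^ σ = 0 := Real.zero_rpow hσ.ne'
        rw [this, mul_zero]
      · have h6 : ρ = ρ ^ (1 - σ) * ρ ^ σ := by
          rw [← Real.rpow_add h]
          simp
        have h7 : ρ ^ (1 - σ) ≤ 2 * rad s ^ (1 - σ) := by
          calc ρ ^ (1 - σ) ≤ (2 * rad s) ^ (1 - σ) :=
                Real.rpow_le_rpow hρ0 hρ2 (by linarith)
            _ = 2 ^ (1 - σ) * rad s ^ (1 - σ) := Real.mul_rpow (by norm_num) hrs.le
            _ ≤ 2 * rad s ^ (1 - σ) := by
                apply mul_le_mul_of_nonneg_right _ hr1.le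
                calc (2 : ℝ) ^ (1 - σ) ≤ 2 ^ (1 : ℝ) :=
                      Real.rpow_le_rpow_of_exponent_le (by norm_num) (by linarith)
                  _ = 2 := Real.rpow_one 2
        calc ρ = ρ ^ (1 - σ) * ρ ^ σ := h6
          _ ≤ _ := mul_le_mul_of_nonneg_right h7 (by positivity)
    have hE : |y - y'| * w s0 ≤ 4 * Cw * ρ ^ σ := by
      have h7 : (|y - y'| * w s0) * rad s ^ (1 - σ) ≤ (4 * Cw * ρ ^ σ) * rad s ^ (1 - σ) := by
        calc (|y - y'| * w s0) * rad s ^ (1 - σ) ≤ 2 * Cw * ρ := hC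
          _ ≤ 2 * Cw * (2 * rad s ^ (1 - σ) * ρ ^ σ) :=
              mul_le_mul_of_nonneg_left hD (by positivity)
          _ = _ := by ring
      exact le_of_mul_le_mul_right h7 hr1
    calc |y - y'| ≤ 4 * Cw * ρ ^ σ / w s0 := by rwa [le_div_iff₀ hw0]
      _ = _ := by ring
  -- the set
  set J : Set ℝ := Set.Ico 0 1 with hJ
  refine ⟨ψ '' J, ?_, ?_⟩
  · have hinj : Set.InjOn ψ J := by
      intro y hy y' hy' h
      have h2 := hkey y y' hy.1 hy.2 hy'.1 hy'.2
      rw [h, sub_self, abs_zero, Real.zero_rpow hσ.ne', mul_zero] at h2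
      exact sub_eq_zero.1 (abs_eq_zero.1 (le_antisymm h2 (abs_nonneg _)))
    set r : ℝ≥0 := ⟨σ, hσ.le⟩ with hr
    have hrr : (r : ℝ) = σ := rfl
    have hr0 : 0 < r := by
      have : (0 : ℝ) < r := hσ
      exact_mod_cast this
    set g : ℝ → ℝ := Function.invFunOn ψ J with hg
    have hgψ : ∀ y ∈ J, g (ψ y) = y := fun y hy => hinj.leftInvOn_invFunOn hy
    have hC0 : (0 : ℝ) ≤ 4 * Cw / w s0 := by positivity
    have hgH : HolderOnWith (4 * Cw / w s0).toNNReal r g (ψ '' J) := by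
      rintro _ ⟨y, hy, rfl⟩ _ ⟨y', hy', rfl⟩
      rw [hgψ y hy, hgψ y' hy', edist_dist, edist_dist, Real.dist_eq]
      rw [ENNReal.ofReal_rpow_of_nonneg dist_nonneg r.coe_nonneg]
      have h128 : (((4 * Cw / w s0).toNNReal : ℝ≥0) : ℝ≥0∞) =
          ENNReal.ofReal (4 * Cw / w s0) := rfl
      rw [h128, ← ENNReal.ofReal_mul hC0]
      apply ENNReal.ofReal_le_ofReal
      rw [Real.dist_eq]
      exact hkey y y' hy.1 hy.2 hy'.1 hy'.2
    have hsurj : J ⊆ g '' (ψ '' J) := by
      intro y hy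
      exact ⟨ψ y, ⟨y, hy, rfl⟩, hgψ y hy⟩
    have h1 : dimH J = 1 := by
      rw [Real.dimH_of_nonempty_interior]
      · simp
      · rw [hJ, interior_Ico]
        exact ⟨1 / 2, by norm_num, by norm_num⟩
    have h2 : dimH (g '' (ψ '' J)) ≤ dimH (ψ '' J) / (r : ℝ≥0∞) := hgH.dimH_image_le hr0
    have h3 : (1 : ℝ≥0∞) ≤ dimH (ψ '' J) / (r : ℝ≥0∞) := by
      rw [← h1]
      exact (dimH_mono hsurj).trans h2
    have hrE : (r : ℝ≥0∞) ≠ 0 := by exact_mod_cast hr0.ne'
    have hrT : (r : ℝ≥0∞) ≠ ⊤ := ENNReal.coe_ne_top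
    have h4 : (r : ℝ≥0∞) ≤ dimH (ψ '' J) := by
      have h5 := (ENNReal.le_div_iff_mul_le (Or.inl hrE) (Or.inl hrT)).1 h3
      rwa [one_mul] at h5
    refine le_trans (le_of_eq ?_) h4
    rw [← hrr]
    exact ENNReal.ofReal_coe_nnreal
  · rintro _ ⟨y, hy, rfl⟩
    exact ⟨fun k => (p y k).1, rfl, fun k => hchild y hy.1 hy.2 k, hψ y hy.1 hy.2⟩

end ULB
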