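import Pool.Agent.WHS.MAIN
import Pool.Agent.WHS.ROOT

/-!
# USV: from chains of polynomials to the exponents (MP_c538e3_nt, lower bound 1/3)   (helper34)
-/

set_option autoImplicit false

namespace ULB

open WHP (V3 AlgDegLeTwo height uniformExponent polyV poly_ne poly_deg poly_aeval poly_height)
open WHS (hh ev der)
open WHS.MAIN (admissibleStar uniformExponentStar exists_irr natDegree_pos_of_root height_factor
  height_pos star_lt)
open Polynomial Filter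

/-- A chain of polynomials `P k` for `ξ`: the heights tend to infinity and
`|P_k(ξ)| H(P_k) H(P_(k+1)) ^ (2 + ε) ≤ |P_k'(ξ)|`. -/
def Chain (ε ξ : ℝ) : Prop :=
  ∃ P : ℕ → V3, Tendsto (fun k => hh (P k)) atTop atTop ∧ ∀ k, P k ≠ 0 ∧ der (P k) ξ ≠ 0 ∧
    8 * |((P k).c : ℝ)| * |ev (P k) ξ| ≤ der (P k) ξ ^ 2 ∧
    |ev (P k) ξ| * hh (P k) * hh (P (k + 1)) ^ (2 + ε) ≤ |der (P k) ξ|

/-- the polynomial for the height `H` -/
theorem Chain.good {ε ξ : ℝ} (hε : 0 < ε) (h : Chain ε ξ) : ∃ H0 : ℝ, ∀ H : ℝ, H0 ≤ H →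
    ∃ P : V3, P ≠ 0 ∧ hh P ≤ H ∧ der P ξ ≠ 0 ∧ 8 * |(P.c : ℝ)| * |ev P ξ| ≤ der P ξ ^ 2 ∧
      |ev P ξ| * hh P * H ^ (2 + ε) ≤ |der P ξ| := by
  classical
  obtain ⟨P, hlim, hP⟩ := h
  refine ⟨max (hh (P 0)) 0, fun H hH => ?_⟩
  have hH0 : 0 ≤ H := (le_max_right _ _).trans hH
  have hex : ∃ k, H < hh (P (k + 1)) := by
    obtain ⟨N, hN⟩ := (tendsto_atTop.1 hlim (H + 1)).exists_forall_of_atTop
    exact ⟨N, by have := hN (N + 1) (Nat.le_succ N); linarith⟩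
  have hk := Nat.find_spec hex
  obtain ⟨k, hkdef⟩ : ∃ k, k = Nat.find hex := ⟨_, rfl⟩
  rw [← hkdef] at hk
  have hle : hh (P k) ≤ H := by
    rcases Nat.eq_zero_or_pos k with h0 | h0
    · rw [h0]
      exact (le_max_left _ _).trans hH
    · have := Nat.find_min hex (m := k - 1) (by omega)
      rw [not_lt, Nat.sub_add_cancel h0] at this
      exact this
  obtain ⟨h1, h2, h3, h4⟩ := hP k
  refine ⟨P k, h1, hle, h2, h3, le_trans ?_ h4⟩
  have hh0 : 0 ≤ hh (P k) := (abs_nonneg _).trans (le_max_left _ _)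
  exact mul_le_mul_of_nonneg_left (Real.rpow_le_rpow hH0 hk.le (by linarith)) (by positivity)

/-- the exponent `2 + ε / 2` is admissible -/
theorem Chain.adm {ε ξ : ℝ} (hε : 0 < ε) (hξ : ¬ AlgDegLeTwo ξ) (h : Chain ε ξ) :
    2 + ε / 2 ∈ admissibleStar ξ := by
  obtain ⟨H0, hH0⟩ := h.good hε
  obtain ⟨H₁, hH₁⟩ := Filter.eventually_atTop.mp
    ((tendsto_rpow_atTop (by linarith : 0 < ε / 2)).eventually_ge_atTop 2)
  refine ⟨max (max H₁ 1) H0, fun H hH => ?_⟩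
  have g1 : H₁ ≤ H := (le_max_left _ _).trans ((le_max_left _ _).trans hH)
  have g2 : 1 ≤ H := (le_max_right _ _).trans ((le_max_left _ _).trans hH)
  have g3 : H0 ≤ H := (le_max_right _ _).trans hH
  have gpos : 0 < H := by linarith
  obtain ⟨P, hP, hPH, hder, h8, hbig⟩ := hH0 H g3
  obtain ⟨α, hα, hdist⟩ := WHS.ROOT_thm P ξ hder h8
  have hder0 : 0 < |der P ξ| := abs_pos.2 hder
  have hroot : aeval α (polyV P) = 0 := by
    rw [poly_aeval]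
    exact hα
  obtain ⟨Q, R, hQ, hPQ, hQα⟩ := exists_irr α (polyV P) (poly_ne hP) hroot
  have hQ1 := natDegree_pos_of_root hQ.ne_zero hQα
  have hR0 : R ≠ 0 := by
    rintro rfl
    exact poly_ne hP (by rw [hPQ, mul_zero])
  have hQ2 : Q.natDegree ≤ 2 := by
    have h1 := poly_deg P
    rw [hPQ, natDegree_mul hQ.ne_zero hR0] at h1
    omega
  have hQh : (height Q : ℝ) ≤ hh P := by
    have h1 : height Q ≤ height (polyV P) := height_factor (poly_ne hP) (poly_deg P) hPQ hQ1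
    have h2 : (height (polyV P) : ℝ) ≤ hh P := poly_height ((WHS.sm_iff P _).2 le_rfl)
    exact (Nat.cast_le.2 h1).trans h2
  have hQp : (0 : ℝ) < (height Q : ℝ) := by exact_mod_cast height_pos hQ.ne_zero
  have hhp : 0 < hh P := hQp.trans_le hQh
  refine ⟨α, Q, hQ, hQ2, hQα, hQh.trans hPH, ?_, ?_⟩
  · rw [abs_pos, sub_ne_zero]
    rintro rfl
    exact hξ ⟨Q, hQ.ne_zero, hQ2, hQα⟩
  · have hw : H ^ (2 + ε) = H ^ (2 + ε / 2) * H ^ (ε / 2) := by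
      rw [← Real.rpow_add gpos]
      congr 1
      ring
    have hw0 : 0 < H ^ (2 + ε / 2) := Real.rpow_pos_of_pos gpos _
    have hw1 : 2 ≤ H ^ (ε / 2) := hH₁ H g1
    -- `|ξ - α| hh P H^(2 + ε/2) ≤ 1`
    have h1 : |ξ - α| * (hh P * H ^ (2 + ε / 2)) ≤ 1 := by
      have h2 : |ξ - α| * (hh P * H ^ (2 + ε / 2)) * |der P ξ| * 2 ≤ 1 * |der P ξ| * 2 := by
        calc |ξ - α| * (hh P * H ^ (2 + ε / 2)) * |der P ξ| * 2
            = (|ξ - α| * |der P ξ|) * (hh P * (H ^ (2 + ε / 2) * 2)) := by ring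
          _ ≤ (2 * |ev P ξ|) * (hh P * (H ^ (2 + ε / 2) * H ^ (ε / 2))) := by gcongr
          _ = 2 * (|ev P ξ| * hh P * H ^ (2 + ε)) := by rw [hw]; ring
          _ ≤ 2 * |der P ξ| := by linarith
          _ = 1 * |der P ξ| * 2 := by ring
      have h3 : |ξ - α| * (hh P * H ^ (2 + ε / 2)) * |der P ξ| ≤ 1 * |der P ξ| := by linarith
      exact le_of_mul_le_mul_right h3 hder0
    have h4 : |ξ - α| ≤ (hh P)⁻¹ * H ^ (-(2 + ε / 2)) := by
      rw [Real.rpow_neg gpos.le, ← mul_inv, ← one_div, le_div_iff₀ (by positivity)]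
      exact h1
    refine h4.trans ?_
    apply mul_le_mul_of_nonneg_right _ (Real.rpow_nonneg gpos.le _)
    exact inv_anti₀ hQp hQh

/-- **SV1** -/
theorem SV1 {ε ξ : ℝ} (hε : 0 < ε) (hξ : ¬ AlgDegLeTwo ξ) (h : Chain ε ξ) :
    2 < uniformExponentStar ξ ∧ 2 < uniformExponent ξ := by
  have e : (2 : EReal) = ((2 : ℝ) : EReal) := rfl
  have key : (2 : EReal) < uniformExponentStar ξ := by
    have hsup : ((2 + ε / 2 : ℝ) : EReal) ≤ uniformExponentStar ξ :=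
      le_iSup₂ (f := fun (v : ℝ) (_ : v ∈ admissibleStar ξ) => (v : EReal)) (2 + ε / 2)
        (h.adm hε hξ)
    refine lt_of_lt_of_le ?_ hsup
    rw [e, EReal.coe_lt_coe_iff]
    linarith
  refine ⟨key, ?_⟩
  rw [e] at key ⊢
  exact star_lt hξ (by norm_num) key

/-- **SV2** -/
theorem SV2 (h : ∀ τ : ℝ, 0 < τ → ∃ ε : ℝ, 0 < ε ∧ ∃ E : Set ℝ,
    ENNReal.ofReal (1 / 3 - τ) ≤ dimH E ∧ ∀ ξ ∈ E, Chain ε ξ) :
    1 / 3 ≤ dimH {ξ : ℝ | ¬ AlgDegLeTwo ξ ∧ 2 < uniformExponentStar ξ} ∧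
      1 / 3 ≤ dimH {ξ : ℝ | ¬ AlgDegLeTwo ξ ∧ 2 < uniformExponent ξ} := by
  have key : ∀ τ : ℝ, 0 < τ → ENNReal.ofReal (1 / 3 - τ) ≤
      dimH {ξ : ℝ | ¬ AlgDegLeTwo ξ ∧ 2 < uniformExponentStar ξ} := by
    intro τ hτ
    obtain ⟨ε, hε, E, hE, hall⟩ := h τ hτ
    have hsub : E ⊆ {ξ : ℝ | ¬ AlgDegLeTwo ξ ∧ 2 < uniformExponentStar ξ} ∪
        {ξ : ℝ | AlgDegLeTwo ξ} := by
      intro ξ hξ
      by_cases ha : AlgDegLeTwo ξ
      · exact Or.inr ha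
      · exact Or.inl ⟨ha, (SV1 hε ha (hall ξ hξ)).1⟩
    have h1 := dimH_mono hsub
    rw [dimH_union, WHP.alg_countable.dimH_zero] at h1
    have h2 := hE.trans h1
    rwa [max_eq_left (by exact bot_le)] at h2
  have lim : Tendsto (fun n : ℕ => ENNReal.ofReal (1 / 3 - 1 / ((n : ℝ) + 1))) atTop
      (nhds (ENNReal.ofReal (1 / 3 - 0))) :=
    ENNReal.tendsto_ofReal (tendsto_const_nhds.sub tendsto_one_div_add_atTop_nhds_zero_nat)
  have e3 : ENNReal.ofReal (1 / 3 - 0) = 1 / 3 := by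
    rw [sub_zero, ENNReal.ofReal_div_of_pos (by norm_num)]
    simp
  rw [e3] at lim
  have hstar : 1 / 3 ≤ dimH {ξ : ℝ | ¬ AlgDegLeTwo ξ ∧ 2 < uniformExponentStar ξ} :=
    le_of_tendsto' lim fun n => key _ (by positivity)
  refine ⟨hstar, hstar.trans (dimH_mono ?_)⟩
  rintro ξ ⟨h1, h2⟩
  refine ⟨h1, ?_⟩
  have e : (2 : EReal) = ((2 : ℝ) : EReal) := rfl
  change (2 : EReal) < _ at h2
  change (2 : EReal) < _
  rw [e] at h2 ⊢
  exact star_lt h1 (by norm_num) h2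

end ULB
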