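import Pool.Agent.ULB.Stmts
import Pool.Agent.ULB.Tree
import Pool.Agent.ULB.USV

/-!
# FIN: final assembly (lower bound 1/3, MP_c538e3_nt), block UST   (helper33)

`m_FIN`: both dimensions are at least `1/3`, from `Stmt_STEP`, `Stmt_START`, `Stmt_ROOT`. The tree has
the states `(y, P)` with `St β y P` and large `G`, the weight is `(4 r)^σ G^(-4 β)`, `σ = 1/3 - 2 β`.
-/

set_option autoImplicit false

namespace ULB

open WHP (V3 det be ga dot cross lin tt AlgDegLeTwo uniformExponent)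
open WHS (hh ev der)
open WHS.MAIN (uniformExponentStar)
open Filter

namespace FINaux

theorem dl_pos {y : V3} (h : det y ≠ 0) : 0 < dl y := by
  unfold dl
  exact abs_pos.2 (by exact_mod_cast h)

theorem rr_pos {y : V3} (ha : 0 < y.a) (h : det y ≠ 0) : 0 < rr y := by
  unfold rr
  have h1 : (0 : ℝ) < y.a := by exact_mod_cast ha
  have := dl_pos h
  positivity

theorem pr_ne {P : V3} (h : Pr P) : P ≠ 0 := by
  rintro rfl
  obtain ⟨Q, hQ⟩ := h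
  have : dot Q 0 = 0 := by
    show Q.a * 0 + Q.b * 0 + Q.c * 0 = 0
    ring
  omega

theorem one_le_hh {P : V3} (h : P ≠ 0) : 1 ≤ hh P := by
  unfold hh
  by_contra hc
  push Not at hc
  obtain ⟨h1, h2⟩ := max_lt_iff.1 hc
  obtain ⟨h2, h3⟩ := max_lt_iff.1 h2
  have key : ∀ n : ℤ, |(n : ℝ)| < 1 → n = 0 := by
    intro n hn
    have : |n| < 1 := by exact_mod_cast hn
    exact Int.abs_lt_one_iff.1 this
  apply h
  apply V3.ext
  · exact key _ h1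
  · exact key _ h2
  · exact key _ h3

/-- the weight condition -/
theorem weight {β G G' r r' N : ℝ} (hβ : 0 < β) (hβ1 : β ≤ 1 / 10000) (hG : 1 ≤ G) (hG' : 0 < G')
    (hr : 0 < r) (hN : G ^ (1 - 4 * β) ≤ N) (hr' : r * G ^ (-3 : ℝ) ≤ r')
    (hGG : G' ≤ G ^ (1 + 3 * (β / 100))) :
    (4 * r) ^ (1 / 3 - 2 * β) * G ^ (-(4 * β)) ≤
      N * ((4 * r') ^ (1 / 3 - 2 * β) * G' ^ (-(4 * β))) := by
  have hG0 : 0 < G := by linarith
  have hσ : 0 ≤ 1 / 3 - 2 * β := by linarith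
  have h1 : (4 * r) ^ (1 / 3 - 2 * β) * G ^ (-3 * (1 / 3 - 2 * β)) ≤ (4 * r') ^ (1 / 3 - 2 * β) := by
    have e : (4 * r) ^ (1 / 3 - 2 * β) * G ^ (-3 * (1 / 3 - 2 * β)) =
        (4 * (r * G ^ (-3 : ℝ))) ^ (1 / 3 - 2 * β) := by
      rw [← mul_assoc, Real.mul_rpow (x := 4 * r) (by positivity) (by positivity),
        ← Real.rpow_mul hG0.le]
    rw [e]
    apply Real.rpow_le_rpow (by positivity) (by linarith) hσ
  have h2 : G ^ (-(4 * β) * (1 + 3 * (β / 100))) ≤ G' ^ (-(4 * β)) := by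
    have e : G ^ (-(4 * β) * (1 + 3 * (β / 100))) = (G ^ (1 + 3 * (β / 100))) ^ (-(4 * β)) := by
      rw [← Real.rpow_mul hG0.le]
      congr 1
      ring
    rw [e]
    exact Real.rpow_le_rpow_of_nonpos hG' hGG (by linarith)
  have h3 : 0 < (4 * r) ^ (1 / 3 - 2 * β) := by positivity
  have h4 : 0 < G ^ (1 - 4 * β) := by positivity
  calc (4 * r) ^ (1 / 3 - 2 * β) * G ^ (-(4 * β))
      ≤ (4 * r) ^ (1 / 3 - 2 * β) *
        (G ^ (1 - 4 * β) * (G ^ (-3 * (1 / 3 - 2 * β)) * G ^ (-(4 * β) * (1 + 3 * (β / 100))))) := by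
        apply mul_le_mul_of_nonneg_left _ h3.le
        rw [← Real.rpow_add hG0, ← Real.rpow_add hG0]
        apply Real.rpow_le_rpow_of_exponent_le hG
        nlinarith
    _ = G ^ (1 - 4 * β) * (((4 * r) ^ (1 / 3 - 2 * β) * G ^ (-3 * (1 / 3 - 2 * β))) *
        G ^ (-(4 * β) * (1 + 3 * (β / 100)))) := by ring
    _ ≤ N * ((4 * r') ^ (1 / 3 - 2 * β) * G' ^ (-(4 * β))) := by
        apply mul_le_mul hN _ (by positivity) (by linarith)
        exact mul_le_mul h1 h2 (by positivity) (le_trans (by positivity) h1)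

/-- the states of the tree -/
abbrev TS (β G0 : ℝ) : Type := {x : V3 × V3 // St β x.1 x.2 ∧ G0 ≤ GG x.1 x.2}

end FINaux

open FINaux

/-- **FIN.** Both dimensions are at least `1/3`. -/
theorem m_FIN : Stmt_STEP → Stmt_START → Stmt_ROOT →
    1 / 3 ≤ dimH {ξ : ℝ | ¬ AlgDegLeTwo ξ ∧ 2 < uniformExponentStar ξ} ∧
      1 / 3 ≤ dimH {ξ : ℝ | ¬ AlgDegLeTwo ξ ∧ 2 < uniformExponent ξ} := by
  classical
  rintro ⟨β1, hβ1, hS⟩ ⟨β2, hβ2, hT⟩ hRoot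
  apply SV2
  intro τ hτ
  obtain ⟨β, hβdef⟩ : ∃ β : ℝ, β = min (min β1 β2) (min (1 / 10000) (τ / 2)) := ⟨_, rfl⟩
  have hb0 : 0 < β := by
    rw [hβdef]
    exact lt_min (lt_min hβ1 hβ2) (lt_min (by norm_num) (by linarith))
  have hb1 : β ≤ β1 := by rw [hβdef]; exact (min_le_left _ _).trans (min_le_left _ _)
  have hb2 : β ≤ β2 := by rw [hβdef]; exact (min_le_left _ _).trans (min_le_right _ _)
  have hb3 : β ≤ 1 / 10000 := by rw [hβdef]; exact (min_le_right _ _).trans (min_le_left _ _)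
  have hb4 : β ≤ τ / 2 := by rw [hβdef]; exact (min_le_right _ _).trans (min_le_right _ _)
  refine ⟨β ^ 2 / 100000, by positivity, ?_⟩
  obtain ⟨G1, hG1⟩ := hS β hb0 hb1
  obtain ⟨G2, hG2⟩ := hT β hb0 hb2
  obtain ⟨G0, hG0def⟩ : ∃ G0 : ℝ, G0 = max G1 1 := ⟨_, rfl⟩
  have hG0a : G1 ≤ G0 := by rw [hG0def]; exact le_max_left _ _
  have hG0b : 1 ≤ G0 := by rw [hG0def]; exact le_max_right _ _
  obtain ⟨y0, P0, hNd, ht, hPc, hcap, hM⟩ := hRoot β (max G2 (G0 ^ 2)) hb0 hb3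
  obtain ⟨y1, P1, hSt1, hGG1⟩ := hG2 y0 P0 hNd ht hPc hcap ((le_max_left _ _).trans hM)
  have hstart : G0 ≤ GG y1 P1 := by
    refine le_trans ?_ hGG1
    have h1 : G0 ^ 2 ≤ GG y0 P0 := (le_max_right _ _).trans hM
    have h2 : (G0 ^ 2) ^ (1 / 2 : ℝ) ≤ GG y0 P0 ^ (1 / 2 : ℝ) :=
      Real.rpow_le_rpow (by positivity) h1 (by norm_num)
    refine le_trans (le_of_eq ?_) h2
    rw [← Real.rpow_natCast, ← Real.rpow_mul (by linarith)]
    norm_num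
  -- the children
  have hF : ∀ s : TS β G0, ∃ F : Finset (TS β G0),
      GG s.1.1 s.1.2 ^ (1 - 4 * β) ≤ F.card ∧
      (∀ x ∈ F, GG x.1.1 x.1.2 ≤ GG s.1.1 s.1.2 ^ (1 + 3 * (β / 100)) ∧
        |tt x.1.1 - tt s.1.1| + 4 * rr x.1.1 ≤ 4 * rr s.1.1 ∧ 2 * rr x.1.1 ≤ rr s.1.1 ∧
        rr s.1.1 * GG s.1.1 s.1.2 ^ (-3 : ℝ) ≤ rr x.1.1 ∧
        ∀ ξ : ℝ, |ξ - tt s.1.1| ≤ 4 * rr s.1.1 →
          der s.1.2 ξ ≠ 0 ∧ 8 * |(s.1.2.c : ℝ)| * |ev s.1.2 ξ| ≤ der s.1.2 ξ ^ 2 ∧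
          2 * hh s.1.2 ≤ hh x.1.2 ∧
          |ev s.1.2 ξ| * hh s.1.2 * hh x.1.2 ^ (2 + β ^ 2 / 100000) ≤ |der s.1.2 ξ|) ∧
      ∀ x ∈ F, ∀ x' ∈ F, x ≠ x' →
        rr s.1.1 * GG s.1.1 s.1.2 ^ (-1 : ℝ) ≤
          |tt x.1.1 - tt x'.1.1| - 4 * rr x.1.1 - 4 * rr x'.1.1 := by
    intro s
    obtain ⟨F, hc, hch, hsep⟩ := hG1 s.1.1 s.1.2 s.2.1 (hG0a.trans s.2.2)
    have hsG : 1 ≤ GG s.1.1 s.1.2 := hG0b.trans s.2.2
    have hmem : ∀ x ∈ F, St β x.1 x.2 ∧ G0 ≤ GG x.1 x.2 := by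
      intro x hx
      obtain ⟨h1, h2, -⟩ := hch x hx
      refine ⟨h1, le_trans s.2.2 (le_trans ?_ h2)⟩
      calc GG s.1.1 s.1.2 = GG s.1.1 s.1.2 ^ (1 : ℝ) := (Real.rpow_one _).symm
        _ ≤ _ := Real.rpow_le_rpow_of_exponent_le hsG (by linarith)
    refine ⟨F.subtype (fun x : V3 × V3 => St β x.1 x.2 ∧ G0 ≤ GG x.1 x.2), ?_, ?_, ?_⟩
    · rw [Finset.card_subtype, Finset.filter_true_of_mem hmem]
      exact hc
    · intro x hx
      rw [Finset.mem_subtype] at hx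
      obtain ⟨-, -, h3, h4, h5, h6, h7⟩ := hch x.1 hx
      exact ⟨h3, h4, h5, h6, h7⟩
    · intro x hx x' hx' hne
      rw [Finset.mem_subtype] at hx hx'
      exact hsep x.1 hx x'.1 hx' (fun h => hne (Subtype.ext h))
  choose F hFc hFch hFsep using hF
  have hone : ∀ s : TS β G0, 1 ≤ GG s.1.1 s.1.2 := fun s => hG0b.trans s.2.2
  have hpos : ∀ s : TS β G0, 0 < GG s.1.1 s.1.2 := fun s => by linarith [hone s]
  have hrr : ∀ s : TS β G0, 0 < rr s.1.1 := fun s => rr_pos s.2.1.ya s.2.1.dt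
  have hσ0 : 0 < 1 / 3 - 2 * β := by linarith
  obtain ⟨E, hE, hEp⟩ := t_TREE (TS β G0) ⟨(y1, P1), hSt1, hstart⟩ (fun s => tt s.1.1)
    (fun s => 4 * rr s.1.1) (fun s => rr s.1.1 * GG s.1.1 s.1.2 ^ (-1 : ℝ))
    (fun s => (4 * rr s.1.1) ^ (1 / 3 - 2 * β) * GG s.1.1 s.1.2 ^ (-(4 * β))) F (1 / 3 - 2 * β) 4
    hσ0 (by linarith) (by norm_num)
    (by
      intro s
      have h1 := hrr s
      have h2 := hpos s
      refine ⟨by positivity, by positivity, by positivity, ?_⟩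
      rw [← Finset.card_pos]
      have h3 : (0 : ℝ) < (F s).card := lt_of_lt_of_le (by positivity) (hFc s)
      exact_mod_cast h3)
    (by
      intro s s' hs'
      obtain ⟨h1, h2, h3, h4, -⟩ := hFch s s' hs'
      refine ⟨h2, by linarith, ?_⟩
      exact weight hb0 hb3 (hone s) (hpos s') (hrr s) (hFc s) h4 h1)
    (by
      intro s s' hs' s'' hs'' hne
      exact hFsep s s' hs' s'' hs'' hne)
    (by
      intro s
      have h1 := hrr s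
      have h2 := hpos s
      have e1 : (4 * rr s.1.1) ^ (1 / 3 - 2 * β) * GG s.1.1 s.1.2 ^ (-(4 * β)) *
          (4 * rr s.1.1) ^ (1 - (1 / 3 - 2 * β)) =
          4 * rr s.1.1 * (GG s.1.1 s.1.2 ^ (-1 : ℝ) * GG s.1.1 s.1.2 ^ (1 - 4 * β)) := by
        have e2 : (4 * rr s.1.1) ^ (1 / 3 - 2 * β) * (4 * rr s.1.1) ^ (1 - (1 / 3 - 2 * β)) =
            4 * rr s.1.1 := by
          rw [← Real.rpow_add (by positivity)]
          ring_nf
          rw [Real.rpow_one]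
        rw [← Real.rpow_add h2]
        have e3 : -1 + (1 - 4 * β) = -(4 * β) := by ring
        rw [e3]
        calc _ = (4 * rr s.1.1) ^ (1 / 3 - 2 * β) * (4 * rr s.1.1) ^ (1 - (1 / 3 - 2 * β)) *
            GG s.1.1 s.1.2 ^ (-(4 * β)) := by ring
          _ = _ := by rw [e2]
      show (4 * rr s.1.1) ^ (1 / 3 - 2 * β) * GG s.1.1 s.1.2 ^ (-(4 * β)) *
          (4 * rr s.1.1) ^ (1 - (1 / 3 - 2 * β)) ≤
          4 * (rr s.1.1 * GG s.1.1 s.1.2 ^ (-1 : ℝ)) * ((F s).card : ℝ)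
      rw [e1]
      have h3 : 4 * rr s.1.1 * (GG s.1.1 s.1.2 ^ (-1 : ℝ) * GG s.1.1 s.1.2 ^ (1 - 4 * β)) ≤
          4 * rr s.1.1 * (GG s.1.1 s.1.2 ^ (-1 : ℝ) * ((F s).card : ℝ)) := by
        apply mul_le_mul_of_nonneg_left _ (by positivity)
        exact mul_le_mul_of_nonneg_left (hFc s) (by positivity)
      refine h3.trans (le_of_eq ?_)
      ring)
    (by
      intro s
      have h1 := hrr s
      have h2 := hpos s
      have h3 : GG s.1.1 s.1.2 ^ (-(4 * β)) ≤ 1 :=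
        Real.rpow_le_one_of_one_le_of_nonpos (hone s) (by linarith)
      have h4 : 0 < (4 * rr s.1.1) ^ (1 / 3 - 2 * β) := by positivity
      show (4 * rr s.1.1) ^ (1 / 3 - 2 * β) * GG s.1.1 s.1.2 ^ (-(4 * β)) ≤
        4 * (4 * rr s.1.1) ^ (1 / 3 - 2 * β)
      nlinarith)
  refine ⟨E, le_trans (ENNReal.ofReal_le_ofReal (by linarith)) hE, ?_⟩
  intro ξ hξ
  obtain ⟨p, -, hp1, hp2⟩ := hEp ξ hξ
  have hball : ∀ k, |ξ - tt (p k).1.1| ≤ 4 * rr (p k).1.1 := hp2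
  refine ⟨fun k => (p k).1.2, ?_, ?_⟩
  · have hgrow : ∀ k : ℕ, (2 : ℝ) ^ k ≤ hh (p k).1.2 := by
      intro k
      induction k with
      | zero =>
        rw [pow_zero]
        exact one_le_hh (pr_ne (p 0).2.1.pP)
      | succ k ih =>
        obtain ⟨-, -, -, -, h5⟩ := hFch (p k) (p (k + 1)) (hp1 k)
        have h6 := (h5 ξ (hball k)).2.2.1
        rw [pow_succ]
        linarith
    exact tendsto_atTop_mono hgrow (tendsto_pow_atTop_atTop_of_one_lt (by norm_num))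
  · intro k
    obtain ⟨-, -, -, -, h5⟩ := hFch (p k) (p (k + 1)) (hp1 k)
    obtain ⟨h6, h7, -, h9⟩ := h5 ξ (hball k)
    exact ⟨pr_ne (p k).2.1.pP, h6, h7, h9⟩

end ULB
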