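import Pool.Agent.ULB.StepDefs
import Pool.Agent.ULB.Alg

/-!
# MKS, MKN: the objects of a step exist; a child with `WW` and `VV` is a node   (helper33)
-/

set_option autoImplicit false

namespace ULB

open WHP (V3 det be ga dot cross lin tt)
open WHS (hh ev der)

namespace MKaux

/-- the primitive part of a vector -/
theorem prim_part (V : V3) (hV : V ≠ 0) : ∃ (g : ℤ) (u : V3), 1 ≤ g ∧ V = sm g u ∧ Pr u := by
  set g1 : ℤ := (Int.gcd V.b V.c : ℤ) with hg1
  set g : ℤ := (Int.gcd V.a g1 : ℤ) with hg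
  have hb1 : g1 = V.b * Int.gcdA V.b V.c + V.c * Int.gcdB V.b V.c := Int.gcd_eq_gcd_ab V.b V.c
  have hb2 : g = V.a * Int.gcdA V.a g1 + g1 * Int.gcdB V.a g1 := Int.gcd_eq_gcd_ab V.a g1
  have hda : g ∣ V.a := Int.gcd_dvd_left _ _
  have hdg : g ∣ g1 := Int.gcd_dvd_right _ _
  have hdb : g ∣ V.b := hdg.trans (Int.gcd_dvd_left _ _)
  have hdc : g ∣ V.c := hdg.trans (Int.gcd_dvd_right _ _)
  have hg0 : g ≠ 0 := by
    intro h
    rw [h] at hda hdb hdc
    apply hV
    apply V3.ext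
    · exact zero_dvd_iff.1 hda
    · exact zero_dvd_iff.1 hdb
    · exact zero_dvd_iff.1 hdc
  have hgn : 0 ≤ g := Int.natCast_nonneg _
  obtain ⟨a, ha⟩ := hda
  obtain ⟨b, hb⟩ := hdb
  obtain ⟨c, hc⟩ := hdc
  refine ⟨g, ⟨a, b, c⟩, by omega, ?_, ?_⟩
  · apply V3.ext
    · show V.a = g * a + 0 * a
      rw [ha]; ring
    · show V.b = g * b + 0 * b
      rw [hb]; ring
    · show V.c = g * c + 0 * c
      rw [hc]; ring
  · refine ⟨⟨Int.gcdA V.a g1, Int.gcdA V.b V.c * Int.gcdB V.a g1,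
      Int.gcdB V.b V.c * Int.gcdB V.a g1⟩, ?_⟩
    show Int.gcdA V.a g1 * a + Int.gcdA V.b V.c * Int.gcdB V.a g1 * b +
      Int.gcdB V.b V.c * Int.gcdB V.a g1 * c = 1
    apply mul_left_cancel₀ hg0
    have h3 : g = V.a * Int.gcdA V.a g1 +
        (V.b * Int.gcdA V.b V.c + V.c * Int.gcdB V.b V.c) * Int.gcdB V.a g1 := by
      rw [← hb1]; exact hb2
    calc g * (Int.gcdA V.a g1 * a + Int.gcdA V.b V.c * Int.gcdB V.a g1 * b +
          Int.gcdB V.b V.c * Int.gcdB V.a g1 * c)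
        = (g * a) * Int.gcdA V.a g1 +
          ((g * b) * Int.gcdA V.b V.c + (g * c) * Int.gcdB V.b V.c) * Int.gcdB V.a g1 := by ring
      _ = V.a * Int.gcdA V.a g1 +
          (V.b * Int.gcdA V.b V.c + V.c * Int.gcdB V.b V.c) * Int.gcdB V.a g1 := by
          rw [← ha, ← hb, ← hc]
      _ = g * 1 := by rw [← h3, mul_one]

theorem ca_lin (y v w : V3) (i k : ℤ) : ca y (lin i v k w) = i * ca y v + k * ca y w := by
  unfold ca
  show (((i * v.a + k * w.a : ℤ)) : ℝ) / y.a = _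
  push_cast
  ring

theorem cc_lin (y v w : V3) (i k : ℤ) : cc y (lin i v k w) = i * cc y v + k * cc y w := by
  unfold cc ga
  show ((((i * v.c + k * w.c : ℤ)) : ℝ) - 2 * tt y * ((i * v.b + k * w.b : ℤ) : ℝ) +
    tt y ^ 2 * ((i * v.a + k * w.a : ℤ) : ℝ)) / zz y = _
  push_cast
  ring

theorem dd_lin (y v w : V3) (i k : ℤ) : dd y (lin i v k w) = i * dd y v + k * dd y w := by
  unfold dd der
  show (((i * v.b + k * w.b : ℤ) : ℝ)) + 2 * ((i * v.c + k * w.c : ℤ) : ℝ) * tt y = _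
  push_cast
  ring

theorem ca_self {y : V3} (ha : 0 < y.a) : ca y y = 1 := by
  unfold ca
  have : (y.a : ℝ) ≠ 0 := by exact_mod_cast ha.ne'
  exact div_self this

theorem dl_mul_si (y : V3) : dl y * (si y : ℝ) = (det y : ℝ) := by
  unfold dl si
  have h := Int.sign_mul_abs (det y)
  have h2 : ((Int.sign (det y) : ℤ) : ℝ) * |((det y : ℤ) : ℝ)| = ((det y : ℤ) : ℝ) := by
    exact_mod_cast h
  linarith

theorem si_sq {y : V3} (hd : det y ≠ 0) : si y * si y = 1 := by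
  unfold si
  rcases lt_or_gt_of_ne hd with h | h
  · rw [Int.sign_eq_neg_one_of_neg h]; norm_num
  · rw [Int.sign_eq_one_of_pos h]; norm_num

theorem dl_pos {y : V3} (h : det y ≠ 0) : 0 < dl y := by
  unfold dl
  exact abs_pos.2 (by exact_mod_cast h)

theorem dl_mul_cc {y : V3} (ha : 0 < y.a) (hd : det y ≠ 0) (w : V3) :
    dl y * cc y w = y.a * ga (tt y) w := by
  unfold cc zz
  have h1 : (y.a : ℝ) ≠ 0 := by exact_mod_cast ha.ne'
  have h2 := (dl_pos hd).ne'
  field_simp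

/-- the frame identity -/
theorem dd_cross {y : V3} (ha : 0 < y.a) (hd : det y ≠ 0) (w : V3) :
    dd y (cross y w) = dl y * (si y * ca y w - cc y w) := by
  have h1 : (y.a : ℝ) ≠ 0 := by exact_mod_cast ha.ne'
  have e : dl y * (si y * ca y w - cc y w) = (dl y * si y) * ca y w - dl y * cc y w := by ring
  rw [e, dl_mul_si, dl_mul_cc ha hd]
  unfold dd der ca ga tt
  show ((y.c * w.a - y.a * w.c : ℤ) : ℝ) + 2 * ((y.a * w.b - y.b * w.a : ℤ) : ℝ) * (y.b / y.a) = _
  have h3 : (det y : ℝ) = y.a * y.c - y.b ^ 2 := by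
    unfold det
    push_cast
    ring
  rw [h3]
  push_cast
  field_simp
  ring

theorem big {c e G : ℝ} (hc : 1 ≤ c) (he : 0 < e) (h : c ^ (1 / e) ≤ G) : c ≤ G ^ e := by
  calc c = (c ^ (1 / e)) ^ e := by
        rw [← Real.rpow_mul (by linarith), one_div, inv_mul_cancel₀ he.ne', Real.rpow_one]
    _ ≤ G ^ e := Real.rpow_le_rpow (by positivity) h he.le

theorem sm_a (k : ℤ) (v : V3) : (sm k v).a = k * v.a := by
  show k * v.a + 0 * v.a = k * v.a
  ring

theorem sm_neg (k : ℤ) (v : V3) : sm k v = sm (-k) (sm (-1) v) := by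
  apply V3.ext
  · show k * v.a + 0 * v.a = -k * (-1 * v.a + 0 * v.a) + 0 * (-1 * v.a + 0 * v.a); ring
  · show k * v.b + 0 * v.b = -k * (-1 * v.b + 0 * v.b) + 0 * (-1 * v.b + 0 * v.b); ring
  · show k * v.c + 0 * v.c = -k * (-1 * v.c + 0 * v.c) + 0 * (-1 * v.c + 0 * v.c); ring

theorem pr_neg {v : V3} (h : Pr v) : Pr (sm (-1) v) := by
  obtain ⟨Q, hQ⟩ := h
  refine ⟨sm (-1) Q, ?_⟩
  refine Eq.trans ?_ hQ
  show (-1 * Q.a + 0 * Q.a) * (-1 * v.a + 0 * v.a) + (-1 * Q.b + 0 * Q.b) * (-1 * v.b + 0 * v.b) +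
    (-1 * Q.c + 0 * Q.c) * (-1 * v.c + 0 * v.c) = Q.a * v.a + Q.b * v.b + Q.c * v.c
  ring

/-- basic positivity of a node -/
theorem node_pos {β : ℝ} {y P : V3} (h : Nd β y P) (hG : 0 < GG y P) :
    0 < bb y P ∧ 0 < |dd y P| := by
  have h1 : 0 < bb y P := lt_of_lt_of_le (Real.rpow_pos_of_pos hG _) h.b1
  refine ⟨h1, ?_⟩
  have h2 := dl_pos h.dt
  have h3 : |dd y P| = bb y P * dl y := by
    unfold bb
    field_simp
  rw [h3]
  positivity

/-- the size of `A` -/
theorem AA_ge {β B : ℝ} {y P : V3} (hβ : 0 < β) (hβ1 : β ≤ 1 / 10000) (h : Nd β y P)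
    (hG : 1 ≤ GG y P) (hB : 1 ≤ B) : B * GG y P ^ (1 / 2 : ℝ) ≤ AA β B y P := by
  have hG0 : 0 < GG y P := by linarith
  obtain ⟨hb0, -⟩ := node_pos h hG0
  unfold AA
  rw [le_div_iff₀ hb0]
  have h1 : GG y P ^ (1 / 2 : ℝ) * bb y P ≤ GG y P ^ (1 / 2 : ℝ) * GG y P ^ (2 * β) :=
    mul_le_mul_of_nonneg_left h.b2 (Real.rpow_nonneg hG0.le _)
  have h2 : GG y P ^ (1 / 2 : ℝ) * GG y P ^ (2 * β) ≤ GG y P ^ (1 + β / 100) := by
    rw [← Real.rpow_add hG0]
    exact Real.rpow_le_rpow_of_exponent_le hG (by linarith)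
  calc B * GG y P ^ (1 / 2 : ℝ) * bb y P = B * (GG y P ^ (1 / 2 : ℝ) * bb y P) := by ring
    _ ≤ B * GG y P ^ (1 + β / 100) :=
      mul_le_mul_of_nonneg_left (h1.trans h2) (by linarith)

end MKaux

open MKaux

/-- **MKS.** -/
theorem m_MKS : Stmt_MKS := by
  intro β hβ hβ1
  refine ⟨36, ?_⟩
  intro B y P wm v R a b q k hNd hG hB hB2 hBas ha1 ha2 hb1 hb2 hq hq1 hq2 hc1 hc2 hqk
  have hG1 : 1 ≤ GG y P := by linarith
  have hG0 : 0 < GG y P := by linarith
  obtain ⟨hbb, hdd⟩ := node_pos hNd hG0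
  have hD := dl_pos hNd.dt
  have hAge := AA_ge hβ hβ1 hNd hG1 hB
  have h6 : 6 ≤ GG y P ^ (1 / 2 : ℝ) := by
    apply big (by norm_num) (by norm_num)
    norm_num
    linarith
  have hA6 : 6 * B ≤ AA β B y P := by nlinarith
  have hA0 : 0 < AA β B y P := by linarith
  have hab : (b : ℝ) + 2 ≤ a := by linarith
  have hb0 : 0 < (b : ℝ) := by linarith
  -- the size of `c*`
  have hcs0 : 0 < cs β B y P := by
    unfold cs
    have : 0 < GG y P ^ (β / 400) := Real.rpow_pos_of_pos hG0 _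
    positivity
  have hcs1 : cs β B y P ≤ 1 := by
    unfold cs
    rw [div_le_one (by positivity)]
    have h1 : GG y P ^ (β / 400) ≤ GG y P ^ (1 / 2 : ℝ) :=
      Real.rpow_le_rpow_of_exponent_le hG1 (by linarith)
    have h2 : 0 < GG y P ^ (1 / 2 : ℝ) := Real.rpow_pos_of_pos hG0 _
    nlinarith
  have hQ0 : 0 < QQ β B y P := by
    unfold QQ
    have : 0 < GG y P ^ (-β) := Real.rpow_pos_of_pos hG0 _
    positivity
  have hq0 : (0 : ℝ) < q := by linarith
  have hq1' : (1 : ℝ) ≤ q := by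
    have : (0 : ℤ) < q := by exact_mod_cast hq0
    have h2 : (1 : ℤ) ≤ q := by omega
    exact_mod_cast h2
  -- the plane
  have hPR : lin a P b R = cross y (lin a wm b v) := by
    rw [cross_lin, hBas.hm, ← hBas.hR]
  have hddP : 2 * |dd y P| ≤ |dd y (lin a P b R)| := by
    rw [dd_lin]
    have h1 : |(a : ℝ) * dd y P| = a * |dd y P| := by
      rw [abs_mul, abs_of_pos (by linarith)]
    have h2 : |(b : ℝ) * dd y R| ≤ b * |dd y P| := by
      rw [abs_mul, abs_of_pos hb0]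
      exact mul_le_mul_of_nonneg_left hBas.hr hb0.le
    have h3 := abs_sub_abs_le_abs_sub ((a : ℝ) * dd y P) (-((b : ℝ) * dd y R))
    rw [sub_neg_eq_add, abs_neg, h1] at h3
    nlinarith
  have hPne : lin a P b R ≠ 0 := by
    intro h
    rw [h] at hddP
    have : dd y 0 = 0 := by
      unfold dd der
      show ((0 : ℤ) : ℝ) + 2 * ((0 : ℤ) : ℝ) * tt y = 0
      push_cast
      ring
    rw [this, abs_zero] at hddP
    linarith
  obtain ⟨g, P0, hg1, hgP, hP0⟩ := prim_part _ hPne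
  -- the vector
  set w : V3 := lin a wm b v with hw
  set V : V3 := lin q w (-(k * si y)) y with hV
  have hcaV : (si y : ℝ) * ca y V = q * (dd y (lin a P b R) / dl y) +
      (q * (a * cc y wm + b * cc y v) - k) := by
    have h1 : ca y V = q * ca y w - (k * si y) := by
      rw [hV, ca_lin, ca_self hNd.ya]
      push_cast
      ring
    have h2 : dd y (lin a P b R) / dl y = si y * ca y w - cc y w := by
      rw [hPR, dd_cross hNd.ya hNd.dt]
      field_simp
    have h3 : (si y : ℝ) * si y = 1 := by exact_mod_cast si_sq hNd.dt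
    have h4 : cc y w = a * cc y wm + b * cc y v := by rw [hw, cc_lin]
    rw [h1, h2, h4]
    linear_combination (-(k : ℝ)) * h3
  have hVa : V.a ≠ 0 := by
    intro h0
    have h1 : ca y V = 0 := by
      unfold ca
      rw [h0]
      simp
    rw [h1, mul_zero] at hcaV
    have h2 : 2 ≤ |(q : ℝ) * (dd y (lin a P b R) / dl y)| := by
      rw [abs_mul, abs_of_pos hq0, abs_div, abs_of_pos hD]
      have h3 : 2 * bb y P ≤ |dd y (lin a P b R)| / dl y := by
        unfold bb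
        rw [← mul_div_assoc]
        exact div_le_div_of_nonneg_right hddP hD.le
      have h4 : 1 ≤ bb y P := (Real.one_le_rpow hG1 (by positivity)).trans hNd.b1
      nlinarith
    have h3 : (q : ℝ) * (dd y (lin a P b R) / dl y) =
        -(q * (a * cc y wm + b * cc y v) - k) := by linarith
    rw [h3, abs_neg, abs_of_pos (by linarith)] at h2
    linarith
  have hVne : V ≠ 0 := by
    intro h
    apply hVa
    rw [h]
    rfl
  obtain ⟨d0, u, hd0, hVu, hu⟩ := prim_part V hVne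
  have hua : u.a ≠ 0 := by
    intro h
    apply hVa
    rw [hVu, sm_a, h, mul_zero]
  have hex : ∃ (d : ℤ) (y1 : V3), d ≠ 0 ∧ V = sm d y1 ∧ Pr y1 ∧ 0 < y1.a := by
    rcases lt_or_gt_of_ne hua with h | h
    · refine ⟨-d0, sm (-1) u, by omega, ?_, pr_neg hu, ?_⟩
      · rw [hVu]
        exact sm_neg d0 u
      · rw [sm_a]
        omega
    · exact ⟨d0, u, by omega, hVu, hu, h⟩
  obtain ⟨d, y1, hd, hVy, hy1, hy1a⟩ := hex
  exact ⟨g, d, y1, P0,
    { a1 := ha1, a2 := ha2, b1 := hb1, b2 := hb2, q0 := hq, q1 := hq1, q2 := hq2, c1 := hc1,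
      c2 := hc2, qk := hqk, g1 := hg1, hP := hgP, pP := hP0, d0 := hd, hy := hVy, py := hy1,
      ya := hy1a }⟩

/-- **MKN.** -/
theorem m_MKN : Stmt_MKN := by
  intro β hβ hβ1
  refine ⟨max ((5 : ℝ) ^ (80 : ℕ)) ((15 : ℝ) ^ (1 / (β / 200))), ?_⟩
  intro B y P wm v R y1 P0 a b q k g d hNd hGm hB hB2 hStp hC hW hV hcap ht hs
  have hGa : (5 : ℝ) ^ (80 : ℕ) ≤ GG y P := (le_max_left _ _).trans hGm
  have hGb : (15 : ℝ) ^ (1 / (β / 200)) ≤ GG y P := (le_max_right _ _).trans hGm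
  set G : ℝ := GG y P with hG
  set G1 : ℝ := GG y1 P0 with hG1
  have h1G : 1 ≤ G := le_trans (one_le_pow₀ (by norm_num)) hGa
  have hG0 : 0 < G := by linarith
  have h15 : 15 ≤ G ^ (β / 200) := big (by norm_num) (by positivity) hGb
  have hB0 : 0 < B := by linarith
  -- bounds for `G1`
  have hlo : 9 / 10 * G ^ (1 - β / 400) ≤ G1 := by
    refine le_trans ?_ hC.G1
    have : 0 < G ^ (1 - β / 400) := Real.rpow_pos_of_pos hG0 _
    nlinarith
  have hB3 : B ^ 3 ≤ G ^ (3 * (β / 100)) := by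
    have h1 : B ^ 3 ≤ (G ^ (β / 100)) ^ 3 := pow_le_pow_left₀ hB0.le hB2 3
    refine h1.trans (le_of_eq ?_)
    rw [← Real.rpow_natCast, ← Real.rpow_mul hG0.le]
    congr 1
    push_cast
    ring
  have hhi : G1 ≤ 5 * G ^ (1 + 11 * β / 400) := by
    refine hC.G2.trans ?_
    have h1 : 0 < G ^ (1 - β / 400) := Real.rpow_pos_of_pos hG0 _
    have h2 : G ^ (1 + 11 * β / 400) = G ^ (3 * (β / 100)) * G ^ (1 - β / 400) := by
      rw [← Real.rpow_add hG0]
      congr 1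
      ring
    rw [h2]
    nlinarith [mul_le_mul_of_nonneg_right hB3 h1.le]
  have hG1one : 1 ≤ G1 := by
    refine le_trans ?_ hlo
    have h1 : G ^ (β / 200) ≤ G ^ (1 - β / 400) :=
      Real.rpow_le_rpow_of_exponent_le h1G (by linarith)
    linarith
  have hG1pos : 0 < G1 := by linarith
  -- `b3`
  have hb3 : G1 ^ (β - 2 * (β / 100)) ≤ bb y1 P0 := by
    have e0 : 0 ≤ β - 2 * (β / 100) := by linarith
    have h1 : G1 ^ (β - 2 * (β / 100)) ≤ (5 * G ^ (1 + 11 * β / 400)) ^ (β - 2 * (β / 100)) :=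
      Real.rpow_le_rpow hG1pos.le hhi e0
    have h2 : (5 * G ^ (1 + 11 * β / 400)) ^ (β - 2 * (β / 100)) ≤
        5 * G ^ (β - 3 * (β / 200)) := by
      rw [Real.mul_rpow (by norm_num) (Real.rpow_nonneg hG0.le _), ← Real.rpow_mul hG0.le]
      have h3 : (5 : ℝ) ^ (β - 2 * (β / 100)) ≤ 5 := by
        calc (5 : ℝ) ^ (β - 2 * (β / 100)) ≤ 5 ^ (1 : ℝ) :=
              Real.rpow_le_rpow_of_exponent_le (by norm_num) (by linarith)
          _ = 5 := Real.rpow_one _
      have h4 : G ^ ((1 + 11 * β / 400) * (β - 2 * (β / 100))) ≤ G ^ (β - 3 * (β / 200)) :=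
        Real.rpow_le_rpow_of_exponent_le h1G (by nlinarith)
      exact mul_le_mul h3 h4 (Real.rpow_nonneg hG0.le _) (by norm_num)
    -- `15 G ^ (β - 3 β / 200) ≤ G ^ (β - β / 100)`
    have h5 : 15 * G ^ (β - 3 * (β / 200)) ≤ G ^ (β - β / 100) := by
      have e : G ^ (β - β / 100) = G ^ (β / 200) * G ^ (β - 3 * (β / 200)) := by
        rw [← Real.rpow_add hG0]
        congr 1
        ring
      rw [e]
      exact mul_le_mul_of_nonneg_right h15 (Real.rpow_nonneg hG0.le _)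
    have h6 : G ^ (β - β / 100) * B ≤ G ^ β := by
      have e : G ^ β = G ^ (β - β / 100) * G ^ (β / 100) := by
        rw [← Real.rpow_add hG0]
        congr 1
        ring
      rw [e]
      exact mul_le_mul_of_nonneg_left hB2 (Real.rpow_nonneg hG0.le _)
    have h7 := hC.b1
    have h8 : G1 ^ (β - 2 * (β / 100)) * (3 * B) ≤ bb y1 P0 * (3 * B) := by
      calc G1 ^ (β - 2 * (β / 100)) * (3 * B) ≤ 5 * G ^ (β - 3 * (β / 200)) * (3 * B) :=
            mul_le_mul_of_nonneg_right (h1.trans h2) (by linarith)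
        _ = 15 * G ^ (β - 3 * (β / 200)) * B := by ring
        _ ≤ G ^ (β - β / 100) * B := mul_le_mul_of_nonneg_right h5 hB0.le
        _ ≤ G ^ β := h6
        _ ≤ bb y1 P0 * (3 * B) := by linarith
    exact le_of_mul_le_mul_right h8 (by linarith)
  -- `b4`
  have hb4 : bb y1 P0 ≤ G1 ^ (β + 3 * (β / 100)) := by
    have e0 : 0 ≤ β + 3 * (β / 100) := by linarith
    have h1 : (9 / 10 * G ^ (1 - β / 400)) ^ (β + 3 * (β / 100)) ≤ G1 ^ (β + 3 * (β / 100)) :=
      Real.rpow_le_rpow (by positivity) hlo e0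
    have h2 : 9 / 10 * G ^ (β + 2 * (β / 100)) ≤
        (9 / 10 * G ^ (1 - β / 400)) ^ (β + 3 * (β / 100)) := by
      rw [Real.mul_rpow (by norm_num) (Real.rpow_nonneg hG0.le _), ← Real.rpow_mul hG0.le]
      have h3 : (9 / 10 : ℝ) ≤ (9 / 10 : ℝ) ^ (β + 3 * (β / 100)) := by
        calc (9 / 10 : ℝ) = (9 / 10 : ℝ) ^ (1 : ℝ) := (Real.rpow_one _).symm
          _ ≤ _ := Real.rpow_le_rpow_of_exponent_ge (by norm_num) (by norm_num) (by linarith)
      have h4 : G ^ (β + 2 * (β / 100)) ≤ G ^ ((1 - β / 400) * (β + 3 * (β / 100))) :=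
        Real.rpow_le_rpow_of_exponent_le h1G (by nlinarith)
      exact mul_le_mul h3 h4 (Real.rpow_nonneg hG0.le _) (by positivity)
    have h5 : bb y1 P0 ≤ 3 * G ^ (β + β / 100) := by
      refine hC.b2.trans ?_
      have e : G ^ (β + β / 100) = G ^ (β / 100) * G ^ β := by
        rw [← Real.rpow_add hG0]
        congr 1
        ring
      rw [e]
      have h6 : 0 < G ^ β := Real.rpow_pos_of_pos hG0 _
      nlinarith [mul_le_mul_of_nonneg_right hB2 h6.le]
    have h7 : 3 * G ^ (β + β / 100) ≤ 9 / 10 * G ^ (β + 2 * (β / 100)) := by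
      have e : G ^ (β + 2 * (β / 100)) = G ^ (β / 100) * G ^ (β + β / 100) := by
        rw [← Real.rpow_add hG0]
        congr 1
        ring
      have h8 : 15 ≤ G ^ (β / 100) := h15.trans
        (Real.rpow_le_rpow_of_exponent_le h1G (by linarith))
      have h9 : 0 < G ^ (β + β / 100) := Real.rpow_pos_of_pos hG0 _
      rw [e]
      nlinarith
    linarith
  -- `big`
  have hbig : G1 ^ (20 : ℕ) ≤ dl y1 := by
    have h1 : G1 ^ (20 : ℕ) ≤ (5 * G ^ (1 + 11 * β / 400)) ^ (20 : ℕ) :=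
      pow_le_pow_left₀ hG1pos.le hhi 20
    have h2 : (5 * G ^ (1 + 11 * β / 400)) ^ (20 : ℕ) =
        5 ^ (20 : ℕ) * G ^ (20 * (1 + 11 * β / 400)) := by
      rw [mul_pow]
      congr 1
      rw [← Real.rpow_natCast, ← Real.rpow_mul hG0.le]
      congr 1
      push_cast
      ring
    have h3 : (5 : ℝ) ^ (20 : ℕ) ≤ G ^ (1 / 4 : ℝ) := by
      apply big (one_le_pow₀ (by norm_num)) (by norm_num)
      refine le_trans (le_of_eq ?_) hGa
      rw [one_div_one_div, ← Real.rpow_natCast, ← Real.rpow_mul (by norm_num),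
        ← Real.rpow_natCast]
      norm_num
    have h4 : G ^ (1 / 4 : ℝ) * G ^ (20 * (1 + 11 * β / 400)) ≤ G ^ (1 / 2 : ℝ) * G ^ (20 : ℕ) := by
      rw [← Real.rpow_natCast G 20, ← Real.rpow_add hG0, ← Real.rpow_add hG0]
      apply Real.rpow_le_rpow_of_exponent_le h1G
      push_cast
      linarith
    have h5 : 0 < G ^ (20 * (1 + 11 * β / 400)) := Real.rpow_pos_of_pos hG0 _
    have h6 : G ^ (1 / 2 : ℝ) * G ^ (20 : ℕ) ≤ G ^ (1 / 2 : ℝ) * dl y :=
      mul_le_mul_of_nonneg_left hNd.big (Real.rpow_nonneg hG0.le _)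
    calc G1 ^ (20 : ℕ) ≤ 5 ^ (20 : ℕ) * G ^ (20 * (1 + 11 * β / 400)) := by rw [← h2]; exact h1
      _ ≤ G ^ (1 / 4 : ℝ) * G ^ (20 * (1 + 11 * β / 400)) :=
        mul_le_mul_of_nonneg_right h3 h5.le
      _ ≤ G ^ (1 / 2 : ℝ) * G ^ (20 : ℕ) := h4
      _ ≤ G ^ (1 / 2 : ℝ) * dl y := h6
      _ ≤ dl y1 := hC.dl1
  have hdd0 : 0 ≤ |dd y1 P0| := abs_nonneg _
  exact
    { ya := hStp.ya
      dt := hC.dt
      py := hStp.py
      pP := hStp.pP
      orth := hC.o1
      tb := by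
        refine ht.trans ?_
        have : 0 < 1 / G1 := by positivity
        linarith
      sb := by
        refine hs.trans ?_
        apply mul_le_mul_of_nonneg_right _ hdd0
        have : 0 < G1 ^ (-(β / 200)) := Real.rpow_pos_of_pos hG1pos _
        linarith
      b1 := (Real.rpow_le_rpow_of_exponent_le hG1one (by linarith)).trans hb3
      b2 := hb4.trans (Real.rpow_le_rpow_of_exponent_le hG1one (by linarith))
      big := hbig
      cap := hcap
      W := hW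
      b3 := hb3
      b4 := hb4
      tb2 := ht
      sb2 := hs
      V := hV }

end ULB
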