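import Pool.Agent.ULB.Mk

/-!
# START, part A: separation of the multiples of `θ` (block UST, helper33)
-/

set_option autoImplicit false

namespace ULB

open WHP (V3 det be ga dot cross lin tt)
open WHS (hh ev der)

namespace STARTaux

open MKaux

theorem det_eq (t : ℝ) (w : V3) : (det w : ℝ) = w.a * ga t w - be t w ^ 2 := by
  unfold det ga be
  push_cast
  ring

theorem cc_self {y : V3} (ha : 0 < y.a) (hd : det y ≠ 0) : cc y y = si y := by
  have h1 := dl_mul_cc ha hd y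
  have h2 := dl_mul_si y
  have h3 : (y.a : ℝ) * ga (tt y) y = det y := by
    have h0 : (y.a : ℝ) ≠ 0 := by exact_mod_cast ha.ne'
    unfold ga tt det
    push_cast
    field_simp
    ring
  have h4 : dl y * cc y y = dl y * si y := by rw [h1, h2, h3]
  exact mul_left_cancel₀ (dl_pos hd).ne' h4

theorem be_self {y : V3} (ha : 0 < y.a) : be (tt y) y = 0 := by
  unfold be tt
  have h0 : (y.a : ℝ) ≠ 0 := by exact_mod_cast ha.ne'
  field_simp
  ring

theorem be_lin (t : ℝ) (v w : V3) (i k : ℤ) : be t (lin i v k w) = i * be t v + k * be t w := by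
  unfold be
  show ((i * v.b + k * w.b : ℤ) : ℝ) - t * ((i * v.a + k * w.a : ℤ) : ℝ) = _
  push_cast
  ring

/-- `y.a * be = third coordinate of the cross product` -/
theorem be_cross {y : V3} (ha : 0 < y.a) (w : V3) :
    (y.a : ℝ) * be (tt y) w = ((cross y w).c : ℝ) := by
  have h0 : (y.a : ℝ) ≠ 0 := by exact_mod_cast ha.ne'
  unfold be tt
  show (y.a : ℝ) * ((w.b : ℝ) - y.b / y.a * w.a) = ((y.a * w.b - y.b * w.a : ℤ) : ℝ)
  push_cast
  field_simp

theorem si_abs {y : V3} (hd : det y ≠ 0) : |(si y : ℝ)| = 1 := by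
  have h : (si y : ℝ) * si y = 1 := by exact_mod_cast si_sq hd
  have h2 : |(si y : ℝ)| * |(si y : ℝ)| = 1 := by rw [← abs_mul, h, abs_one]
  nlinarith [abs_nonneg (si y : ℝ)]

/-- the determinant of a vector of the plane `P` in front of `y` -/
theorem det_plane {y P w : V3} {j : ℤ} (ha : 0 < y.a) (hd : det y ≠ 0)
    (h : cross y w = sm j P) :
    |(det w : ℝ)| ≤ dl y * (|(j : ℝ)| * bb y P + |cc y w|) * |cc y w| +
      (j * P.c / y.a) ^ 2 := by
  have hY : (y.a : ℝ) ≠ 0 := by exact_mod_cast ha.ne'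
  have hD := dl_pos hd
  have h1 := det_eq (tt y) w
  have h2 : (y.a : ℝ) * be (tt y) w = j * P.c := by
    rw [be_cross ha, h]
    show ((j * P.c + 0 * P.c : ℤ) : ℝ) = _
    push_cast
    ring
  have h3 : be (tt y) w = j * P.c / y.a := by
    rw [eq_div_iff hY]
    linarith
  have h4 : (w.a : ℝ) * ga (tt y) w = dl y * ca y w * cc y w := by
    have := dl_mul_cc ha hd w
    calc (w.a : ℝ) * ga (tt y) w = (w.a / y.a) * (y.a * ga (tt y) w) := by field_simp
      _ = ca y w * (dl y * cc y w) := by rw [this]; rfl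
      _ = _ := by ring
  have h5 : dd y (sm j P) = j * dd y P := by
    unfold sm
    rw [dd_lin]
    push_cast
    ring
  have h6 : |ca y w| ≤ |(j : ℝ)| * bb y P + |cc y w| := by
    have h7 := dd_cross ha hd w
    rw [h, h5] at h7
    have h8 : (si y : ℝ) * ca y w = j * dd y P / dl y + cc y w := by
      field_simp
      linarith
    have h9 : |ca y w| = |(si y : ℝ) * ca y w| := by
      rw [abs_mul, si_abs hd, one_mul]
    rw [h9, h8]
    refine (abs_add_le _ _).trans ?_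
    rw [abs_div, abs_mul, abs_of_pos hD]
    unfold bb
    rw [mul_div_assoc]
  rw [h1, h3, h4]
  refine (abs_sub _ _).trans ?_
  rw [abs_of_nonneg (sq_nonneg ((j : ℝ) * P.c / y.a)), abs_mul, abs_mul, abs_of_pos hD]
  have h10 : dl y * |ca y w| * |cc y w| ≤
      dl y * (|(j : ℝ)| * bb y P + |cc y w|) * |cc y w| := by
    apply mul_le_mul_of_nonneg_right _ (abs_nonneg _)
    exact mul_le_mul_of_nonneg_left h6 hD.le
  linarith

/-- the parameters for `B = 1` -/
theorem params {β : ℝ} {y P : V3} (hb : 0 < bb y P) (hG : 0 < GG y P) :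
    AA β 1 y P * bb y P = GG y P ^ (1 + β / 100) ∧
      cs β 1 y P * AA β 1 y P = GG y P ^ (β / 400) ∧
      QQ β 1 y P * cs β 1 y P = GG y P ^ (-β) ∧ 0 < AA β 1 y P ∧ 0 < cs β 1 y P ∧
      0 < QQ β 1 y P := by
  have h1 : 0 < GG y P ^ (1 + β / 100) := Real.rpow_pos_of_pos hG _
  have h2 : 0 < GG y P ^ (β / 400) := Real.rpow_pos_of_pos hG _
  have h3 : 0 < GG y P ^ (-β) := Real.rpow_pos_of_pos hG _
  have hA : 0 < AA β 1 y P := by
    unfold AA
    positivity
  have hc : 0 < cs β 1 y P := by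
    unfold cs
    positivity
  have hQ : 0 < QQ β 1 y P := by
    unfold QQ
    positivity
  refine ⟨?_, ?_, ?_, hA, hc, hQ⟩
  · unfold AA
    rw [one_mul]
    field_simp
  · unfold cs
    rw [mul_one]
    field_simp
  · unfold QQ
    field_simp

/-- **S1.** The multiples of `θ = cc y wm` are far from the integers. -/
theorem theta_sep {β : ℝ} {y P wm v R : V3} (hβ : 0 < β) (hβ1 : β ≤ 1 / 10000) (hNd : Nd β y P)
    (hG : (32 : ℝ) ^ (1 / (1 / 1000 : ℝ)) ≤ GG y P) (hBas : Bas y P wm v R) (a k : ℤ)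
    (ha : a ≠ 0) (haA : |(a : ℝ)| ≤ 2 * AA β 1 y P) :
    GG y P ^ (-(249 / 125) : ℝ) ≤ |a * cc y wm - k| := by
  set G : ℝ := GG y P with hGdef
  have h32 : 32 ≤ G ^ (1 / 1000 : ℝ) := big (by norm_num) (by norm_num) hG
  have hG1 : 1 ≤ G := by
    refine le_trans ?_ hG
    exact Real.one_le_rpow (by norm_num) (by norm_num)
  clear hG
  have hG0 : 0 < G := by linarith
  obtain ⟨hb0, hdd0⟩ := node_pos hNd hG0
  have hb1 : 1 ≤ bb y P := (Real.one_le_rpow hG1 (by positivity)).trans hNd.b1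
  have hD := dl_pos hNd.dt
  obtain ⟨hAb, -, -, hA0, -, -⟩ := params (β := β) hb0 hG0
  rw [← hGdef] at hAb
  set Gk : ℝ := G ^ (1 + β / 100) with hGk
  have hGk1 : 1 ≤ Gk := Real.one_le_rpow hG1 (by positivity)
  by_contra hcon
  push Not at hcon
  set x : ℝ := |a * cc y wm - k| with hx
  have hx0 : 0 ≤ x := abs_nonneg _
  have hmono : ∀ s t : ℝ, s ≤ t → G ^ s ≤ G ^ t := fun s t h =>
    Real.rpow_le_rpow_of_exponent_le hG1 h
  have hxle : x ≤ 1 / 2 := by
    have h1 : G ^ (-(249 / 125) : ℝ) * 32 ≤ G ^ (-(249 / 125) : ℝ) * G ^ (1 / 1000 : ℝ) :=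
      mul_le_mul_of_nonneg_left h32 (Real.rpow_nonneg hG0.le _)
    rw [← Real.rpow_add hG0] at h1
    have h2 : G ^ (-(249 / 125) + 1 / 1000 : ℝ) ≤ 1 :=
      Real.rpow_le_one_of_one_le_of_nonpos hG1 (by norm_num)
    linarith
  set w : V3 := lin a wm (-(k * si y)) y with hw
  have hcr : cross y w = sm a P := by
    rw [hw, cross_lin, hBas.hm, cross_self]
    apply V3.ext
    · show a * P.a + -(k * si y) * 0 = a * P.a + 0 * P.a; ring
    · show a * P.b + -(k * si y) * 0 = a * P.b + 0 * P.b; ring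
    · show a * P.c + -(k * si y) * 0 = a * P.c + 0 * P.c; ring
  have hccw : |cc y w| = x := by
    rw [hx, hw, cc_lin, cc_self hNd.ya hNd.dt]
    have h3 : (si y : ℝ) * si y = 1 := by exact_mod_cast si_sq hNd.dt
    congr 1
    push_cast
    linear_combination (-(k : ℝ)) * h3
  have hWW := hNd.W w a ha hcr (by rw [hccw]; exact hxle)
  have hdet := det_plane hNd.ya hNd.dt hcr
  rw [hccw] at hdet
  -- the second term
  have hY : (0 : ℝ) < y.a := by exact_mod_cast hNd.ya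
  have hGY : (y.a : ℝ) = G * (dl y * |dd y P|) := by
    rw [hGdef]
    unfold GG
    field_simp
  have hAGk : AA β 1 y P ≤ Gk := by
    rw [← hAb]
    nlinarith
  have hsec : (a * P.c / (y.a : ℝ)) ^ 2 ≤ 16 * Gk ^ 2 / (G * dl y) ^ 2 := by
    have h1 : |(a : ℝ) * P.c / y.a| ≤ 4 * Gk / (G * dl y) := by
      rw [abs_div, abs_mul, abs_of_pos hY, div_le_div_iff₀ hY (by positivity)]
      have h2 : |(a : ℝ)| * |(P.c : ℝ)| ≤ (2 * Gk) * (2 * |dd y P|) :=
        mul_le_mul (by linarith) hNd.sb (abs_nonneg _) (by positivity)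
      calc |(a : ℝ)| * |(P.c : ℝ)| * (G * dl y) ≤ (2 * Gk) * (2 * |dd y P|) * (G * dl y) :=
            mul_le_mul_of_nonneg_right h2 (by positivity)
        _ = 4 * Gk * y.a := by rw [hGY]; ring
    have h3 := pow_le_pow_left₀ (abs_nonneg _) h1 2
    rw [sq_abs] at h3
    refine h3.trans (le_of_eq ?_)
    rw [div_pow]
    ring
  -- `Phi`
  have hPhi : Phi G |(a : ℝ)| ≤ G ^ (99 / 100 : ℝ) := by
    unfold Phi
    apply max_le le_rfl
    have h1 : |(a : ℝ)| ^ (49 / 50 : ℝ) ≤ (2 * Gk) ^ (49 / 50 : ℝ) :=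
      Real.rpow_le_rpow (abs_nonneg _) (by linarith) (by norm_num)
    have h2 : (2 * Gk) ^ (49 / 50 : ℝ) ≤ 2 * G ^ ((1 + β / 100) * (49 / 50)) := by
      rw [Real.mul_rpow (by norm_num) (by positivity), hGk, ← Real.rpow_mul hG0.le]
      apply mul_le_mul_of_nonneg_right _ (Real.rpow_nonneg hG0.le _)
      calc (2 : ℝ) ^ (49 / 50 : ℝ) ≤ 2 ^ (1 : ℝ) :=
            Real.rpow_le_rpow_of_exponent_le (by norm_num) (by norm_num)
        _ = 2 := Real.rpow_one _
    have h3 : 2 * G ^ ((1 + β / 100) * (49 / 50)) ≤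
        G ^ (1 / 1000 : ℝ) * G ^ ((1 + β / 100) * (49 / 50)) :=
      mul_le_mul_of_nonneg_right (by linarith) (Real.rpow_nonneg hG0.le _)
    rw [← Real.rpow_add hG0] at h3
    have h4 := hmono (1 / 1000 + (1 + β / 100) * (49 / 50)) (99 / 100) (by linarith)
    linarith
  -- assemble
  have hfirst : dl y * (|(a : ℝ)| * bb y P + x) * x ≤ dl y * (3 * Gk) * x := by
    apply mul_le_mul_of_nonneg_right _ hx0
    apply mul_le_mul_of_nonneg_left _ hD.le
    have h1 : |(a : ℝ)| * bb y P ≤ 2 * AA β 1 y P * bb y P :=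
      mul_le_mul_of_nonneg_right haA hb0.le
    have h2 : 2 * AA β 1 y P * bb y P = 2 * Gk := by rw [← hAb]; ring
    linarith
  have hPhi0 : 0 ≤ Phi G |(a : ℝ)| := by
    unfold Phi
    exact le_trans (Real.rpow_nonneg hG0.le _) (le_max_left _ _)
  have hall : |dd y P| ≤ (dl y * (3 * Gk) * x + 16 * Gk ^ 2 / (G * dl y) ^ 2) *
      G ^ (99 / 100 : ℝ) := by
    refine hWW.trans ?_
    apply mul_le_mul (hdet.trans (add_le_add hfirst hsec)) hPhi hPhi0
    positivity
  have hddb : |dd y P| = bb y P * dl y := by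
    unfold bb
    field_simp
  rw [hddb] at hall
  -- the second part is at most `dl y / 2`
  have hD20 := hNd.big
  rw [← hGdef] at hD20
  have hDG : G ^ (5 : ℝ) ≤ dl y := by
    refine le_trans ?_ hD20
    rw [← Real.rpow_natCast]
    exact hmono _ _ (by norm_num)
  have hpart2 : 16 * Gk ^ 2 / (G * dl y) ^ 2 * G ^ (99 / 100 : ℝ) ≤ dl y / 2 := by
    rw [div_mul_eq_mul_div, div_le_iff₀ (by positivity)]
    have h1 : Gk ^ 2 * G ^ (99 / 100 : ℝ) ≤ G ^ (4 : ℝ) := by
      rw [hGk, ← Real.rpow_natCast, ← Real.rpow_mul hG0.le, ← Real.rpow_add hG0]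
      apply hmono
      push_cast
      linarith
    have h2 : 32 * G ^ (4 : ℝ) ≤ G ^ (5 : ℝ) := by
      have h3 : G ^ (1 / 1000 : ℝ) * G ^ (4 : ℝ) ≤ G ^ (5 : ℝ) := by
        rw [← Real.rpow_add hG0]
        exact hmono _ _ (by norm_num)
      nlinarith [Real.rpow_nonneg hG0.le (4 : ℝ)]
    have hD1 : 1 ≤ dl y := by
      refine le_trans ?_ hDG
      exact Real.one_le_rpow hG1 (by norm_num)
    have h4 : dl y / 2 * (G * dl y) ^ 2 = (dl y * dl y * dl y * G ^ 2) / 2 := by ring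
    rw [h4]
    have h5 : 1 ≤ G ^ 2 := one_le_pow₀ hG1
    have h6 : dl y ≤ dl y * dl y * dl y * G ^ 2 := by
      have h7 : 1 ≤ dl y * dl y := one_le_mul_of_one_le_of_one_le hD1 hD1
      have h8 : 1 ≤ dl y * dl y * G ^ 2 := one_le_mul_of_one_le_of_one_le h7 h5
      calc dl y = 1 * dl y := (one_mul _).symm
        _ ≤ (dl y * dl y * G ^ 2) * dl y := mul_le_mul_of_nonneg_right h8 hD.le
        _ = _ := by ring
    have h9 : 16 * Gk ^ 2 * G ^ (99 / 100 : ℝ) = 16 * (Gk ^ 2 * G ^ (99 / 100 : ℝ)) := by ring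
    rw [h9]
    linarith
  have hmain : dl y / 2 ≤ dl y * (3 * Gk) * x * G ^ (99 / 100 : ℝ) := by
    have h1 : dl y ≤ bb y P * dl y := by nlinarith
    have h2 : (dl y * (3 * Gk) * x + 16 * Gk ^ 2 / (G * dl y) ^ 2) * G ^ (99 / 100 : ℝ) =
        dl y * (3 * Gk) * x * G ^ (99 / 100 : ℝ) +
        16 * Gk ^ 2 / (G * dl y) ^ 2 * G ^ (99 / 100 : ℝ) := by ring
    rw [h2] at hall
    linarith
  have h1 : 1 / 2 ≤ 3 * (Gk * G ^ (99 / 100 : ℝ)) * x := by
    have h2 : dl y * (1 / 2) ≤ dl y * (3 * (Gk * G ^ (99 / 100 : ℝ)) * x) := by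
      calc dl y * (1 / 2) = dl y / 2 := by ring
        _ ≤ _ := hmain
        _ = _ := by ring
    exact le_of_mul_le_mul_left h2 hD
  have h2 : Gk * G ^ (99 / 100 : ℝ) = G ^ (199 / 100 + β / 100) := by
    rw [hGk, ← Real.rpow_add hG0]
    congr 1
    ring
  rw [h2] at h1
  have h3 : G ^ (199 / 100 + β / 100) * x ≤
      G ^ (199 / 100 + β / 100) * G ^ (-(249 / 125) : ℝ) :=
    mul_le_mul_of_nonneg_left hcon.le (Real.rpow_nonneg hG0.le _)
  rw [← Real.rpow_add hG0] at h3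
  have h4 : G ^ (199 / 100 + β / 100 + -(249 / 125) : ℝ) * G ^ (1 / 1000 : ℝ) ≤ 1 := by
    rw [← Real.rpow_add hG0]
    exact Real.rpow_le_one_of_one_le_of_nonpos hG1 (by linarith)
  have h5 : 0 < G ^ (199 / 100 + β / 100 + -(249 / 125) : ℝ) := Real.rpow_pos_of_pos hG0 _
  nlinarith

end STARTaux

end ULB
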