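import Pool.Agent.ULB.StartA
import Pool.Agent.ULB.StepC

/-!
# START, part B: good primes for `B = 1`, assembly (block UST, helper33)
-/

set_option autoImplicit false

namespace ULB
namespace StartP

open WHP (V3 det be ga dot cross lin tt)
open WHS (hh ev der)
open Filter
open STARTaux StepP

/-- the sizes of the parameters, `B = 1` -/
theorem siz1 {β : ℝ} {y P : V3} (hβ : 0 < β) (S : Nd β y P)
    (hG : 1 ≤ GG y P) : GG y P ^ (1 - 2 * β) ≤ AA β 1 y P ∧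
      AA β 1 y P ≤ GG y P ^ (1 + β / 100) ∧
      cs β 1 y P * AA β 1 y P = GG y P ^ (β / 400) ∧
      GG y P ^ (-1 - β / 100) ≤ cs β 1 y P ∧ cs β 1 y P ≤ GG y P ^ (-1 + 2 * β) ∧
      GG y P ^ (1 - 3 * β) ≤ QQ β 1 y P ∧ QQ β 1 y P ≤ GG y P := by
  set G := GG y P with hGdef
  have hG0 : 0 < G := by linarith
  have p : ∀ x : ℝ, 0 < G ^ x := fun x => Real.rpow_pos_of_pos hG0 x
  obtain ⟨hb, -⟩ := MKaux.node_pos S hG0
  obtain ⟨e1, e2, e3, hA, hc, hQ⟩ := params (β := β) hb hG0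
  rw [← hGdef] at e1 e2 e3
  have hb1 : 1 ≤ bb y P := (Real.one_le_rpow hG (by positivity)).trans S.b1
  have hb2 := S.b2
  rw [← hGdef] at hb2
  have mono : ∀ s t : ℝ, s ≤ t → G ^ s ≤ G ^ t := fun s t h =>
    Real.rpow_le_rpow_of_exponent_le hG h
  have A1 : G ^ (1 - 2 * β) ≤ AA β 1 y P := by
    have h1 : G ^ (1 - 2 * β) * bb y P ≤ AA β 1 y P * bb y P := by
      rw [e1]
      calc G ^ (1 - 2 * β) * bb y P ≤ G ^ (1 - 2 * β) * G ^ (2 * β) :=
            mul_le_mul_of_nonneg_left hb2 (p _).le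
        _ = G ^ (1 - 2 * β + 2 * β) := (Real.rpow_add hG0 _ _).symm
        _ ≤ G ^ (1 + β / 100) := mono _ _ (by linarith)
    exact le_of_mul_le_mul_right h1 hb
  have A2 : AA β 1 y P ≤ G ^ (1 + β / 100) := by
    rw [← e1]
    nlinarith
  have c1 : G ^ (-1 - β / 100) ≤ cs β 1 y P := by
    have h1 : G ^ (-1 - β / 100) * AA β 1 y P ≤ cs β 1 y P * AA β 1 y P := by
      rw [e2]
      calc G ^ (-1 - β / 100) * AA β 1 y P ≤ G ^ (-1 - β / 100) * G ^ (1 + β / 100) :=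
            mul_le_mul_of_nonneg_left A2 (p _).le
        _ = G ^ (-1 - β / 100 + (1 + β / 100)) := (Real.rpow_add hG0 _ _).symm
        _ ≤ G ^ (β / 400) := mono _ _ (by linarith)
    exact le_of_mul_le_mul_right h1 hA
  have c2 : cs β 1 y P ≤ G ^ (-1 + 2 * β) := by
    -- `c A b = G^(β/400) b`, `A b = G^(1+β/100)`
    have h1 : cs β 1 y P * G ^ (1 + β / 100) ≤ G ^ (-1 + 2 * β) * G ^ (1 + β / 100) := by
      calc cs β 1 y P * G ^ (1 + β / 100) = (cs β 1 y P * AA β 1 y P) * bb y P := by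
            rw [← e1]; ring
        _ = G ^ (β / 400) * bb y P := by rw [e2]
        _ ≤ G ^ (β / 400) * G ^ (2 * β) := mul_le_mul_of_nonneg_left hb2 (p _).le
        _ = G ^ (β / 400 + 2 * β) := (Real.rpow_add hG0 _ _).symm
        _ ≤ G ^ (-1 + 2 * β + (1 + β / 100)) := mono _ _ (by linarith)
        _ = _ := Real.rpow_add hG0 _ _
    exact le_of_mul_le_mul_right h1 (p _)
  refine ⟨A1, A2, e2, c1, c2, ?_, ?_⟩
  · have h1 : G ^ (1 - 3 * β) * cs β 1 y P ≤ QQ β 1 y P * cs β 1 y P := by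
      rw [e3]
      calc G ^ (1 - 3 * β) * cs β 1 y P ≤ G ^ (1 - 3 * β) * G ^ (-1 + 2 * β) :=
            mul_le_mul_of_nonneg_left c2 (p _).le
        _ = G ^ (1 - 3 * β + (-1 + 2 * β)) := (Real.rpow_add hG0 _ _).symm
        _ ≤ G ^ (-β) := mono _ _ (by linarith)
    exact le_of_mul_le_mul_right h1 hc
  · have h1 : QQ β 1 y P * cs β 1 y P ≤ G * cs β 1 y P := by
      rw [e3]
      calc G ^ (-β) ≤ G ^ (1 + (-1 - β / 100)) := mono _ _ (by linarith)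
        _ = G ^ (1 : ℝ) * G ^ (-1 - β / 100) := Real.rpow_add hG0 _ _
        _ = G * G ^ (-1 - β / 100) := by rw [Real.rpow_one]
        _ ≤ G * cs β 1 y P := mul_le_mul_of_nonneg_left c1 hG0.le
    exact le_of_mul_le_mul_right h1 hc

/-- one half of `[A/2, A]` has no bad integer -/
theorem half {A : ℝ} (hA : 16 ≤ A) (bad : ℤ → Prop)
    (h : ∀ a a' : ℤ, a ≠ a' → A / 2 ≤ a → (a : ℝ) ≤ A → A / 2 ≤ a' → (a' : ℝ) ≤ A →
      bad a → bad a' → False) :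
    ∃ A1 A2 : ℤ, A1 ≤ A2 ∧ A / 2 ≤ A1 ∧ (A2 : ℝ) ≤ A ∧ A / 8 ≤ (A2 : ℝ) - A1 + 1 ∧
      (A2 : ℝ) - A1 + 1 ≤ A ∧ ∀ a : ℤ, A1 ≤ a → a ≤ A2 → ¬ bad a := by
  have h1 : (⌈A / 2⌉ : ℝ) < A / 2 + 1 := Int.ceil_lt_add_one _
  have h2 : A / 2 ≤ (⌈A / 2⌉ : ℝ) := Int.le_ceil _
  have h3 : A < (⌊A⌋ : ℝ) + 1 := Int.lt_floor_add_one _
  have h4 : (⌊A⌋ : ℝ) ≤ A := Int.floor_le _
  have h5 : 3 * A / 4 < (⌊3 * A / 4⌋ : ℝ) + 1 := Int.lt_floor_add_one _
  have h6 : (⌊3 * A / 4⌋ : ℝ) ≤ 3 * A / 4 := Int.floor_le _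
  by_cases hc : ∀ a : ℤ, ⌈A / 2⌉ ≤ a → a ≤ ⌊3 * A / 4⌋ → ¬ bad a
  · refine ⟨⌈A / 2⌉, ⌊3 * A / 4⌋, ?_, h2, by linarith, by linarith, by linarith, hc⟩
    have : (⌈A / 2⌉ : ℝ) < ⌊3 * A / 4⌋ + 1 := by linarith
    have h8 : ⌈A / 2⌉ < ⌊3 * A / 4⌋ + 1 := by exact_mod_cast this
    omega
  · push Not at hc
    obtain ⟨a, ha1, ha2, ha⟩ := hc
    have ha1' : (⌈A / 2⌉ : ℝ) ≤ a := by exact_mod_cast ha1
    have ha2' : (a : ℝ) ≤ ⌊3 * A / 4⌋ := by exact_mod_cast ha2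
    refine ⟨⌊3 * A / 4⌋ + 1, ⌊A⌋, ?_, ?_, h4, ?_, ?_, ?_⟩
    · have : (⌊3 * A / 4⌋ : ℝ) + 1 < ⌊A⌋ + 1 := by linarith
      have h8 : ⌊3 * A / 4⌋ + 1 < ⌊A⌋ + 1 := by exact_mod_cast this
      omega
    · push_cast
      linarith
    · push_cast
      linarith
    · push_cast
      linarith
    · intro a' ha3 ha4 hb
      have ha3' : (⌊3 * A / 4⌋ : ℝ) + 1 ≤ a' := by exact_mod_cast ha3
      have ha4' : (a' : ℝ) ≤ ⌊A⌋ := by exact_mod_cast ha4
      exact h a a' (by omega) (by linarith) (by linarith) (by linarith) (by linarith) ha hb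

/-- good primes, `B = 1` -/
theorem goodPrimes1 (β : ℝ) (hβ : 0 < β) (hβ1 : β ≤ 1 / 10000) (hEX : Stmt_EX)
    (hPRM : Stmt_PRM) : ∃ G0 : ℝ, ∀ (y P wm v R : V3),
    Nd β y P → G0 ≤ GG y P → Bas y P wm v R →
    ∃ F : Finset ℕ, GG y P ^ (1 - 4 * β) ≤ F.card ∧ ∀ q ∈ F, Prime (q : ℤ) ∧
      QQ β 1 y P ≤ q ∧ (q : ℝ) ≤ 2 * QQ β 1 y P ∧
      ∃ a k : ℤ, AA β 1 y P / 2 ≤ a ∧ (a : ℝ) ≤ AA β 1 y P ∧
        cs β 1 y P / 2 ≤ q * (a * cc y wm + cc y v) - k ∧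
        q * (a * cc y wm + cc y v) - k ≤ cs β 1 y P ∧
        ¬ (q : ℤ) ∣ k := by
  classical
  set η : ℝ := β / 800 with hη
  have hη0 : 0 < η := by positivity
  obtain ⟨G2, hEX2⟩ := hEX 3 η (by norm_num) hη0
  obtain ⟨Q0, hPR⟩ := hPRM (η / 8) (by positivity)
  have e1 := pw 16 0 (1 - 2 * β) (by linarith)
  have e2 := pw 4 (-3) (-1 - β / 100) (by linarith)
  have e3 := pw 2 (-1 + 2 * β) 0 (by linarith)
  have e4 := pw 32 η (β / 400) (by rw [hη]; linarith)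
  have e5 := pw 2 (-(η / 4)) (-(η / 8)) (by linarith)
  have e6 := pw Q0 0 (1 - 3 * β) (by linarith)
  have e7 := pw 4 (-1 + 2 * β) (1 - 3 * β + -(249 / 125)) (by linarith)
  have e8 := pw 2 0 (1 / 1000) (by norm_num)
  obtain ⟨G3, hG3⟩ := eventually_atTop.1 (e1.and (e2.and (e3.and (e4.and (e5.and (e6.and
    (e7.and (e8.and (eventually_ge_atTop (1 : ℝ))))))))))
  refine ⟨max ((32 : ℝ) ^ (1 / (1 / 1000 : ℝ))) (max G2 G3), fun y P wm v R S hG H => ?_⟩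
  have hGa : (32 : ℝ) ^ (1 / (1 / 1000 : ℝ)) ≤ GG y P := (le_max_left _ _).trans hG
  have hGb : G2 ≤ GG y P := (le_max_left _ _).trans ((le_max_right _ _).trans hG)
  have hGc : G3 ≤ GG y P := (le_max_right _ _).trans ((le_max_right _ _).trans hG)
  obtain ⟨f1, f2, f3, f4, f5, f6, f7, f8, hG1⟩ := hG3 _ hGc
  clear e1 e2 e3 e4 e5 e6 e7 e8 hG3 hG
  obtain ⟨A1, A2, cA, c1, c2, Q1, Q2⟩ := siz1 hβ S hG1
  have hsep := theta_sep hβ hβ1 S hGa H
  clear hGa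
  set G := GG y P with hGdef
  have hG0 : 0 < G := by linarith
  have p : ∀ x : ℝ, 0 < G ^ x := fun x => Real.rpow_pos_of_pos hG0 x
  have mono : ∀ s t : ℝ, s ≤ t → G ^ s ≤ G ^ t := fun s t h =>
    Real.rpow_le_rpow_of_exponent_le hG1 h
  rw [Real.rpow_zero, mul_one] at f1 f6
  rw [Real.rpow_zero] at f3
  set A := AA β 1 y P with hA
  set c := cs β 1 y P with hc
  set Q := QQ β 1 y P with hQ
  set θ := cc y wm with hθ
  set ρ := cc y v with hρ
  have hA16 : 16 ≤ A := f1.trans A1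
  have hc0 : 0 < c := (p _).trans_le c1
  have hQ1 : 1 ≤ Q := (Real.one_le_rpow hG1 (by linarith)).trans Q1
  have hQp : 0 < Q := by linarith
  have hQQ0 : Q0 ≤ Q := f6.trans Q1
  obtain ⟨FP, hFP, hcard⟩ := hPR Q hQQ0
  -- the half
  obtain ⟨a1, a2, h12, hh1, hh2, hh3, hh4, hh5⟩ := half hA16
    (fun a => ∃ k : ℤ, Q * |a * θ + ρ - k| ≤ c) (by
      rintro a a' hne ha1 ha2 ha3 ha4 ⟨k, hk⟩ ⟨k', hk'⟩
      have h1 := hsep (a - a') (k - k') (sub_ne_zero.2 hne) (by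
        push_cast
        rw [abs_le]
        constructor <;> linarith)
      have h2 : Q * |((a - a' : ℤ) : ℝ) * θ - ((k - k' : ℤ) : ℝ)| ≤ 2 * c := by
        have e : ((a - a' : ℤ) : ℝ) * θ - ((k - k' : ℤ) : ℝ) =
            (a * θ + ρ - k) - (a' * θ + ρ - k') := by
          push_cast
          ring
        rw [e]
        have h3 : |(a * θ + ρ - k) - (a' * θ + ρ - k')| ≤
            |a * θ + ρ - k| + |a' * θ + ρ - k'| := abs_sub _ _
        calc Q * |(a * θ + ρ - k) - (a' * θ + ρ - k')| ≤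
              Q * (|a * θ + ρ - k| + |a' * θ + ρ - k'|) :=
              mul_le_mul_of_nonneg_left h3 hQp.le
          _ = Q * |a * θ + ρ - k| + Q * |a' * θ + ρ - k'| := by ring
          _ ≤ 2 * c := by linarith
      have h3 : G ^ (1 - 3 * β) * G ^ (-(249 / 125) : ℝ) ≤ 2 * c :=
        le_trans (mul_le_mul Q1 h1 (p _).le hQp.le) h2
      rw [← Real.rpow_add hG0] at h3
      have h4 := p (-1 + 2 * β)
      linarith)
  have hSep : ∀ a b k : ℤ, |(a : ℝ)| ≤ 2 * ((a2 : ℝ) - a1 + 1) →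
      |(b : ℝ)| ≤ 2 * (((1 : ℤ) : ℝ) - ((1 : ℤ) : ℝ)) → (a ≠ 0 ∨ b ≠ 0) →
      1 / G ^ (249 / 125 : ℝ) ≤ |a * θ + b * ρ - k| := by
    intro a b k ha hb hab
    have hb0 : b = 0 := by
      rw [sub_self, mul_zero] at hb
      have h1 : |(b : ℝ)| = 0 := le_antisymm hb (abs_nonneg _)
      have h2 : (b : ℝ) = 0 := abs_eq_zero.1 h1
      exact_mod_cast h2
    have ha0 : a ≠ 0 := by
      rcases hab with h | h
      · exact h
      · exact absurd hb0 h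
    have h := hsep a k ha0 (by linarith)
    have e : 1 / G ^ (249 / 125 : ℝ) = G ^ (-(249 / 125) : ℝ) := by
      rw [one_div, ← Real.rpow_neg hG0.le]
    rw [e, hb0]
    push_cast
    rw [zero_mul, add_zero]
    exact h
  set Good : ℕ → Prop := fun q => ∃ a b k : ℤ, a1 ≤ a ∧ a ≤ a2 ∧ (1 : ℤ) ≤ b ∧ b ≤ (1 : ℤ) ∧
    |(q : ℝ) * (a * θ + b * ρ) - k - 3 * c / 4| ≤ c / 4 with hGood
  have hbad : ((FP.filter (fun q => ¬ Good q)).card : ℝ) ≤ Q * G ^ (-(η / 4)) := by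
    refine hEX2 G θ ρ (3 * c / 4) (c / 4) (G ^ (249 / 125 : ℝ)) Q a1 a2 1 1 hGb h12
      le_rfl ?_ ?_ (by linarith) (by linarith) hQ1 ?_ (p _) ?_ hSep ?_ _ ?_
    · have h := mono (1 + β / 100) 3 (by linarith)
      linarith
    · push_cast
      have h := Real.one_le_rpow hG1 (by norm_num : (0 : ℝ) ≤ 3)
      linarith
    · refine Q2.trans ?_
      have h : G ^ (1 : ℝ) ≤ G ^ (3 : ℝ) := mono _ _ (by norm_num)
      rwa [Real.rpow_one] at h
    · -- K1 ≤ Q / (c/4)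
      rw [le_div_iff₀ (by positivity)]
      have h2 : G ^ (249 / 125 : ℝ) * c ≤ G ^ (249 / 125 : ℝ) * G ^ (-1 + 2 * β) :=
        mul_le_mul_of_nonneg_left c2 (p _).le
      rw [← Real.rpow_add hG0] at h2
      have h3 := mono (249 / 125 + (-1 + 2 * β)) (1 - 3 * β) (by linarith)
      have h4 : 0 ≤ G ^ (249 / 125 : ℝ) * c := mul_nonneg (p _).le hc0.le
      linarith
    · push_cast
      have h3 : A / 8 * (c / 4) ≤ ((a2 : ℝ) - a1 + 1) * (c / 4) :=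
        mul_le_mul_of_nonneg_right hh3 (by positivity)
      have h5 : A / 8 * (c / 4) = G ^ (β / 400) / 32 := by
        rw [← cA]; ring
      have h6 : ((a2 : ℝ) - a1 + 1) * (1 - 1 + 1) * (c / 4) =
          ((a2 : ℝ) - a1 + 1) * (c / 4) := by ring
      rw [h6]
      linarith
    · intro q hq
      rw [Finset.mem_filter] at hq
      obtain ⟨h1, h2⟩ := hq
      obtain ⟨h3, h4, h5⟩ := hFP q h1
      refine ⟨h3, h4, h5, fun a b k ha1 ha2 hb1 hb2 => ?_⟩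
      by_contra hcon
      rw [not_lt] at hcon
      exact h2 ⟨a, b, k, ha1, ha2, hb1, hb2, hcon⟩
  refine ⟨FP.filter Good, ?_, ?_⟩
  · have h1 : (FP.filter Good).card + (FP.filter (fun q => ¬ Good q)).card = FP.card :=
      Finset.card_filter_add_card_filter_not _
    have h2 : ((FP.filter Good).card : ℝ) + ((FP.filter (fun q => ¬ Good q)).card : ℝ) =
        (FP.card : ℝ) := by exact_mod_cast h1
    have h3 : Q * G ^ (-(η / 8)) ≤ Q ^ (1 - η / 8) := by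
      rw [sub_eq_add_neg, Real.rpow_add hQp, Real.rpow_one]
      refine mul_le_mul_of_nonneg_left ?_ hQp.le
      exact Real.rpow_le_rpow_of_nonpos hQp Q2 (by linarith)
    have h4 : 2 * (Q * G ^ (-(η / 4))) ≤ Q * G ^ (-(η / 8)) := by
      have := mul_le_mul_of_nonneg_left f5 hQp.le
      linarith
    have h5 : G ^ (1 - 4 * β) ≤ Q * G ^ (-(η / 4)) := by
      have h6 : G ^ (1 - 3 * β) * G ^ (-(η / 4)) ≤ Q * G ^ (-(η / 4)) :=
        mul_le_mul_of_nonneg_right Q1 (p _).le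
      refine le_trans ?_ h6
      rw [← Real.rpow_add hG0]
      refine mono _ _ ?_
      rw [hη]
      linarith
    linarith
  · intro q hq
    rw [Finset.mem_filter] at hq
    obtain ⟨h1, a, b, k, ha1, ha2, hb1, hb2, habs⟩ := hq
    obtain ⟨h3, h4, h5⟩ := hFP q h1
    have hqp : (0 : ℝ) < q := by exact_mod_cast h3.pos
    have ha1' : (a1 : ℝ) ≤ a := by exact_mod_cast ha1
    have ha2' : (a : ℝ) ≤ a2 := by exact_mod_cast ha2
    have hb : b = 1 := by omega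
    rw [hb] at habs
    push_cast at habs
    rw [one_mul, abs_le] at habs
    refine ⟨Nat.prime_iff_prime_int.1 h3, h4, h5, a, k, by linarith, by linarith,
      by linarith [habs.1], by linarith [habs.2], ?_⟩
    rintro ⟨k', hk'⟩
    refine hh5 a ha1 ha2 ⟨k', ?_⟩
    have e : (q : ℝ) * |a * θ + ρ - k'| = |(q : ℝ) * (a * θ + ρ) - k| := by
      rw [hk']
      push_cast
      rw [← abs_of_pos hqp, ← abs_mul, abs_of_pos hqp]
      ring_nf
    have h7 : (q : ℝ) * |a * θ + ρ - k'| ≤ c := by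
      rw [e, abs_le]
      constructor <;> linarith [habs.1, habs.2]
    exact (mul_le_mul_of_nonneg_right h4 (abs_nonneg _)).trans h7

end StartP
end ULB
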