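import Pool.Agent.ULB.StepDefs

/-!
# STEP, part A: powers, the frame of a node, and the lower bound from `VV`   (helper21)
-/

set_option autoImplicit false

namespace ULB
namespace StepP

open WHP (V3 det be ga dot cross lin tt)
open WHS (hh ev der)
open Filter

theorem pw (C a b : ℝ) (h : a < b) : ∀ᶠ G : ℝ in atTop, C * G ^ a ≤ G ^ b := by
  have h1 := (tendsto_rpow_atTop (sub_pos.2 h)).eventually_ge_atTop C
  filter_upwards [h1, eventually_ge_atTop (1 : ℝ)] with G hG hG1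
  have hG0 : 0 < G := by linarith
  calc C * G ^ a ≤ G ^ (b - a) * G ^ a :=
        mul_le_mul_of_nonneg_right hG (Real.rpow_nonneg hG0.le _)
    _ = G ^ b := by rw [← Real.rpow_add hG0]; ring_nf

/-! ### the frame -/

theorem dl_pos {y : V3} (dt : det y ≠ 0) : 0 < dl y := by
  unfold dl
  exact abs_pos.2 (by exact_mod_cast dt)

theorem ya_pos {y : V3} (ya : 0 < y.a) : (0 : ℝ) < y.a := by exact_mod_cast ya

theorem zz_pos {y : V3} (ya : 0 < y.a) (dt : det y ≠ 0) : 0 < zz y :=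
  div_pos (dl_pos dt) (ya_pos ya)

theorem si_dl (y : V3) : (si y : ℝ) * dl y = det y := by
  unfold si dl
  have h := Int.sign_mul_abs (det y)
  have h2 : ((Int.sign (det y) * |det y| : ℤ) : ℝ) = (det y : ℝ) := by rw [h]
  push_cast at h2
  exact h2

theorem si_sq {y : V3} (dt : det y ≠ 0) : (si y : ℝ) * si y = 1 := by
  have h : Int.sign (det y) = 1 ∨ Int.sign (det y) = -1 := by
    rcases lt_trichotomy (det y) 0 with h | h | h
    · right; exact Int.sign_eq_neg_one_of_neg h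
    · exact absurd h dt
    · left; exact Int.sign_eq_one_of_pos h
  unfold si
  rcases h with h | h <;> rw [h] <;> norm_num

theorem si_abs {y : V3} (dt : det y ≠ 0) : |(si y : ℝ)| = 1 := by
  have h := si_sq dt
  have h1 : |(si y : ℝ)| * |(si y : ℝ)| = 1 := by rw [← abs_mul, h, abs_one]
  nlinarith [abs_nonneg (si y : ℝ)]

theorem cc_y {y : V3} (ya : 0 < y.a) (dt : det y ≠ 0) : cc y y = si y := by
  have h1 := ya_pos ya
  have h2 := dl_pos dt
  unfold cc zz
  rw [WHP.ga_self h1.ne', ← si_dl y]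
  field_simp

theorem ca_y {y : V3} (ya : 0 < y.a) : ca y y = 1 := by
  unfold ca
  exact div_self (ya_pos ya).ne'

theorem cb_y {y : V3} (ya : 0 < y.a) : cb y y = 0 := by
  unfold cb
  rw [WHP.be_self (ya_pos ya).ne', zero_div]

theorem cc_lin (y v w : V3) (i k : ℤ) : cc y (lin i v k w) = i * cc y v + k * cc y w := by
  unfold cc
  rw [WHP.ga_lin]
  ring

theorem cb_lin (y v w : V3) (i k : ℤ) : cb y (lin i v k w) = i * cb y v + k * cb y w := by
  unfold cb
  rw [WHP.be_lin]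
  ring

theorem ca_lin (y v w : V3) (i k : ℤ) : ca y (lin i v k w) = i * ca y v + k * ca y w := by
  unfold ca
  rw [WHP.a_lin]
  push_cast
  ring

theorem cb_cross {y w : V3} (ya : 0 < y.a) (dt : det y ≠ 0) :
    cb y w = ((cross y w).c : ℝ) / dl y := by
  have h1 := ya_pos ya
  have h2 := dl_pos dt
  rw [WHP.cross_c (tt y), WHP.be_self h1.ne']
  unfold cb zz
  field_simp
  ring

theorem ca_cross {y w : V3} (ya : 0 < y.a) (dt : det y ≠ 0) :
    ca y w = si y * (dd y (cross y w) / dl y + cc y w) := by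
  have h1 := ya_pos ya
  have h2 := dl_pos dt
  have h3 : dd y (cross y w) = -((y.a : ℝ) * ga (tt y) w - ga (tt y) y * w.a) := by
    unfold dd der
    exact WHP.cross_der (tt y) y w
  rw [h3, WHP.ga_self h1.ne', ← si_dl y]
  unfold ca cc zz
  have h4 : (si y : ℝ) * ((-((y.a : ℝ) * ga (tt y) w - (si y : ℝ) * dl y / y.a * w.a)) / dl y +
      ga (tt y) w / (dl y / y.a)) = ((si y : ℝ) * si y) * ((w.a : ℝ) / y.a) := by
    field_simp
    ring
  rw [h4, si_sq dt, one_mul]

theorem dd_lin (y P R : V3) (i k : ℤ) : dd y (lin i P k R) = i * dd y P + k * dd y R := by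
  unfold dd der
  simp only [lin]
  push_cast
  ring

/-- `P' R.c - R' P.c = Y` -/
theorem dd_rc {y P R : V3} (h : cross P R = y) :
    dd y P * R.c - dd y R * P.c = y.a := by
  have h1 : (cross P R).a = y.a := by rw [h]
  have h2 : P.b * R.c - P.c * R.b = y.a := h1
  have h3 : ((P.b * R.c - P.c * R.b : ℤ) : ℝ) = y.a := by rw [h2]
  push_cast at h3
  unfold dd der
  linear_combination h3

/-! ### positivity for nodes -/

theorem dd_ne {y P : V3} (hG : 1 ≤ GG y P) : dd y P ≠ 0 := by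
  intro h
  have h1 : GG y P = 0 := by
    unfold GG
    rw [h, abs_zero, mul_zero, div_zero]
  rw [h1] at hG
  norm_num at hG

theorem bb_pos {β : ℝ} {y P : V3} (N : Nd β y P) (hG : 1 ≤ GG y P) : 0 < bb y P :=
  div_pos (abs_pos.2 (dd_ne hG)) (dl_pos N.dt)

theorem rc_le {β : ℝ} {y P wm v R : V3} (N : Nd β y P) (H : Bas y P wm v R)
    (hG : 1 ≤ GG y P) : |(R.c : ℝ)| / dl y ≤ GG y P + 2 * bb y P := by
  have h1 := dd_rc H.hc
  have h2 : 0 < |dd y P| := abs_pos.2 (dd_ne hG)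
  have h3 := dl_pos N.dt
  have h4 := ya_pos N.ya
  have h5 : |dd y P| * |(R.c : ℝ)| ≤ y.a + |dd y P| * (2 * |dd y P|) := by
    rw [← abs_mul]
    have e : dd y P * (R.c : ℝ) = y.a + dd y R * P.c := by linear_combination h1
    rw [e]
    calc |(y.a : ℝ) + dd y R * P.c| ≤ |(y.a : ℝ)| + |dd y R * P.c| := abs_add_le _ _
      _ = y.a + |dd y R| * |(P.c : ℝ)| := by rw [abs_of_pos h4, abs_mul]
      _ ≤ y.a + |dd y P| * (2 * |dd y P|) := by
          have := mul_le_mul H.hr N.sb (abs_nonneg _) (abs_nonneg _)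
          linarith
  have e1 : GG y P + 2 * bb y P = (y.a + |dd y P| * (2 * |dd y P|)) / (dl y * |dd y P|) := by
    unfold GG bb
    field_simp
  rw [e1, div_le_div_iff₀ h3 (by positivity)]
  nlinarith [h5, h3]

theorem pc_le {β : ℝ} {y P : V3} (N : Nd β y P) : |(P.c : ℝ)| / dl y ≤ 2 * bb y P := by
  have h3 := dl_pos N.dt
  have e1 : 2 * bb y P = (2 * |dd y P|) / dl y := by
    unfold bb
    ring
  rw [e1]
  exact div_le_div_of_nonneg_right N.sb h3.le

/-- the vector of `(a, b, k)` -/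
theorem cross_vec {y P wm v R : V3} (H : Bas y P wm v R) (a b m : ℤ) :
    cross y (lin 1 (lin a wm b v) m y) = lin a P b R := by
  rw [H.hR, ← H.hm]
  simp only [cross, lin, V3.mk.injEq]
  refine ⟨?_, ?_, ?_⟩ <;> ring

theorem dot_P_wm {y P wm v R : V3} (H : Bas y P wm v R) : dot P wm = 0 := by
  rw [← H.hm]
  exact WHP.dot_cross_right _ _

theorem dot_R_v {y P wm v R : V3} (H : Bas y P wm v R) : dot R v = 0 := by
  rw [H.hR]
  exact WHP.dot_cross_right _ _

theorem dot_R_wm {y P wm v R : V3} (H : Bas y P wm v R) : dot R wm = -1 := by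
  have h := H.hv
  rw [← H.hm] at h
  rw [H.hR]
  simp only [dot, cross] at h ⊢
  linear_combination -h

theorem lin_ne {y P wm v R : V3} (H : Bas y P wm v R) {a b : ℤ} (hab : a ≠ 0 ∨ b ≠ 0) :
    lin a P b R ≠ 0 := by
  intro h
  have h1 : dot (lin a P b R) v = 0 := by
    rw [h]
    simp [dot, WHP.zero_a, WHP.zero_b, WHP.zero_c]
  have h2 : dot (lin a P b R) wm = 0 := by
    rw [h]
    simp [dot, WHP.zero_a, WHP.zero_b, WHP.zero_c]
  have e1 : dot (lin a P b R) v = a * dot P v + b * dot R v := by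
    simp only [dot, lin]
    ring
  have e2 : dot (lin a P b R) wm = a * dot P wm + b * dot R wm := by
    simp only [dot, lin]
    ring
  rw [e1, H.hv, dot_R_v H] at h1
  rw [e2, dot_P_wm H, dot_R_wm H] at h2
  rcases hab with h | h
  · exact h (by linarith)
  · exact h (by linarith)

/-- the lower bound `NR` from `VV` -/
theorem NR (β : ℝ) (hβ : 0 < β) (hβ1 : β ≤ 1 / 10000) : ∃ G0 : ℝ, ∀ (B : ℝ) (y P wm v R : V3),
    Nd β y P → VV β y P → G0 ≤ GG y P → 1 ≤ B → B ≤ GG y P ^ (β / 100) → Bas y P wm v R →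
    ∀ a b k : ℤ, (a ≠ 0 ∨ b ≠ 0) → |(a : ℝ)| ≤ AA β B y P + 3 → |(b : ℝ)| ≤ B + 3 →
      GG y P ^ (-2 + 4 * β) ≤ |a * cc y wm + b * cc y v - k| := by
  have e1 := pw 20 (1 + 2 * (β / 100)) (1 + 3 * (β / 100)) (by linarith)
  obtain ⟨G0, hG0⟩ := eventually_atTop.1 (e1.and (eventually_ge_atTop (1 : ℝ)))
  refine ⟨G0, fun B y P wm v R N V hG hB1 hB H a b k hab ha hb => ?_⟩
  obtain ⟨hpw, hG1⟩ := hG0 _ hG
  set G := GG y P with hGdef
  have hGp : 0 < G := by linarith
  set w : V3 := lin 1 (lin a wm b v) (-(k * si y)) y with hw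
  have hya := N.ya
  have hdt := N.dt
  have hcr : cross y w = lin a P b R := cross_vec H a b _
  have hw0 : w ≠ 0 := by
    intro h
    have h1 : cross y w = 0 := by
      rw [h]
      apply V3.ext <;> simp [cross, WHP.zero_a, WHP.zero_b, WHP.zero_c]
    rw [hcr] at h1
    exact lin_ne H hab h1
  have hcc : cc y w = a * cc y wm + b * cc y v - k := by
    rw [hw, cc_lin, cc_lin, cc_y hya hdt]
    have := si_sq hdt
    push_cast
    linear_combination (-(k : ℝ)) * this
  rw [← hcc]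
  by_contra hlt
  rw [not_le] at hlt
  have hsmall : |cc y w| ≤ 1 := by
    refine hlt.le.trans ?_
    exact Real.rpow_le_one_of_one_le_of_nonpos hG1 (by linarith)
  -- sizes
  set U := G ^ (1 + 2 * (β / 100)) with hU
  have hbp : 0 < bb y P := bb_pos N hG1
  have hU1 : 1 ≤ U := Real.one_le_rpow hG1 (by positivity)
  have hBU : B * G ^ (1 + β / 100) ≤ U := by
    have : U = G ^ (β / 100) * G ^ (1 + β / 100) := by
      rw [hU, ← Real.rpow_add hGp]; ring_nf
    rw [this]
    exact mul_le_mul_of_nonneg_right hB (Real.rpow_nonneg hGp.le _)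
  have hGG1 : G ≤ G ^ (1 + β / 100) := by
    have h : G ^ (1 : ℝ) ≤ G ^ (1 + β / 100) :=
      Real.rpow_le_rpow_of_exponent_le hG1 (by linarith)
    rwa [Real.rpow_one] at h
  have hbG : bb y P ≤ G := by
    have h : G ^ (2 * β) ≤ G ^ (1 : ℝ) := Real.rpow_le_rpow_of_exponent_le hG1 (by linarith)
    rw [Real.rpow_one] at h
    exact N.b2.trans h
  have hBG : B * G ≤ U := by
    refine le_trans ?_ hBU
    exact mul_le_mul_of_nonneg_left hGG1 (by linarith)
  have hGU : G ≤ U := by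
    refine le_trans ?_ hBG
    nlinarith
  have hBb : B * bb y P ≤ U := by
    refine le_trans ?_ hBG
    exact mul_le_mul_of_nonneg_left hbG (by linarith)
  have hAb : AA β B y P * bb y P ≤ U := by
    unfold AA
    rw [div_mul_cancel₀ _ hbp.ne']
    exact hBU
  have hbU : bb y P ≤ U := hbG.trans hGU
  have hab1 : |(a : ℝ)| * bb y P ≤ 4 * U := by
    calc |(a : ℝ)| * bb y P ≤ (AA β B y P + 3) * bb y P :=
          mul_le_mul_of_nonneg_right ha hbp.le
      _ = AA β B y P * bb y P + 3 * bb y P := by ring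
      _ ≤ 4 * U := by linarith
  have hbb1 : |(b : ℝ)| * bb y P ≤ 4 * U := by
    calc |(b : ℝ)| * bb y P ≤ (B + 3) * bb y P := mul_le_mul_of_nonneg_right hb hbp.le
      _ = B * bb y P + 3 * bb y P := by ring
      _ ≤ 4 * U := by linarith
  have hbG1 : |(b : ℝ)| * G ≤ 4 * U := by
    calc |(b : ℝ)| * G ≤ (B + 3) * G := mul_le_mul_of_nonneg_right hb hGp.le
      _ = B * G + 3 * G := by ring
      _ ≤ 4 * U := by linarith
  have hdl := dl_pos hdt
  have hD : |dd y (cross y w)| / dl y ≤ |(a : ℝ)| * bb y P + |(b : ℝ)| * bb y P := by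
    rw [hcr, dd_lin]
    have h1 : |(a : ℝ) * dd y P + b * dd y R| ≤ |(a : ℝ)| * |dd y P| + |(b : ℝ)| * |dd y P| := by
      refine (abs_add_le _ _).trans ?_
      rw [abs_mul, abs_mul]
      have := H.hr
      gcongr
    have e : |(a : ℝ)| * bb y P + |(b : ℝ)| * bb y P =
        (|(a : ℝ)| * |dd y P| + |(b : ℝ)| * |dd y P|) / dl y := by
      unfold bb
      ring
    rw [e]
    exact div_le_div_of_nonneg_right h1 hdl.le
  have hca : |ca y w| ≤ G ^ (1 + 3 * (β / 100)) := by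
    rw [ca_cross hya hdt, abs_mul, si_abs hdt, one_mul]
    refine le_trans (abs_add_le _ _) ?_
    rw [abs_div, abs_of_pos hdl]
    refine le_trans ?_ hpw
    linarith
  have hcb : |cb y w| ≤ G ^ (1 + 3 * (β / 100)) := by
    rw [cb_cross hya hdt, hcr, abs_div, abs_of_pos hdl]
    have h1 : |((lin a P b R).c : ℝ)| ≤ |(a : ℝ)| * |(P.c : ℝ)| + |(b : ℝ)| * |(R.c : ℝ)| := by
      have e : ((lin a P b R).c : ℝ) = a * P.c + b * R.c := by
        simp only [lin]
        push_cast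
        ring
      rw [e]
      refine (abs_add_le _ _).trans ?_
      rw [abs_mul, abs_mul]
    have h2 : (|(a : ℝ)| * |(P.c : ℝ)| + |(b : ℝ)| * |(R.c : ℝ)|) / dl y =
        |(a : ℝ)| * (|(P.c : ℝ)| / dl y) + |(b : ℝ)| * (|(R.c : ℝ)| / dl y) := by ring
    have h3 : |(a : ℝ)| * (|(P.c : ℝ)| / dl y) ≤ |(a : ℝ)| * (2 * bb y P) :=
      mul_le_mul_of_nonneg_left (pc_le N) (abs_nonneg _)
    have h4 : |(b : ℝ)| * (|(R.c : ℝ)| / dl y) ≤ |(b : ℝ)| * (G + 2 * bb y P) :=
      mul_le_mul_of_nonneg_left (rc_le N H hG1) (abs_nonneg _)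
    calc |((lin a P b R).c : ℝ)| / dl y
        ≤ (|(a : ℝ)| * |(P.c : ℝ)| + |(b : ℝ)| * |(R.c : ℝ)|) / dl y :=
          div_le_div_of_nonneg_right h1 hdl.le
      _ ≤ |(a : ℝ)| * (2 * bb y P) + |(b : ℝ)| * (G + 2 * bb y P) := by rw [h2]; linarith
      _ ≤ 20 * U := by nlinarith
      _ ≤ _ := hpw
  exact absurd (V w hw0 hca hcb) (not_le.2 hlt)

end StepP
end ULB
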