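import Pool.Agent.ULB.StepA

/-!
# STEP, part B: sizes of the parameters and the good primes   (helper21)
-/

set_option autoImplicit false

namespace ULB
namespace StepP

open WHP (V3 det be ga dot cross lin tt)
open WHS (hh ev der)
open Filter

/-- sizes of the parameters for `B = G^κ` -/
structure Siz (β : ℝ) (y P : V3) : Prop where
  A1 : GG y P ^ (1 - β - β / 100) ≤ AA β (GG y P ^ (β / 100)) y P
  A2 : AA β (GG y P ^ (β / 100)) y P ≤ GG y P ^ (1 - β + 4 * (β / 100))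
  c1 : GG y P ^ (-1 + β - 5 * (β / 100) + β / 400) ≤ cs β (GG y P ^ (β / 100)) y P
  c2 : cs β (GG y P ^ (β / 100)) y P ≤ GG y P ^ (-1 + β + β / 400)
  Q1 : GG y P ^ (1 - 2 * β - β / 400) ≤ QQ β (GG y P ^ (β / 100)) y P
  Q2 : QQ β (GG y P ^ (β / 100)) y P ≤ GG y P ^ (1 - 2 * β + 5 * (β / 100) - β / 400)
  ABc : AA β (GG y P ^ (β / 100)) y P * GG y P ^ (β / 100) *
    cs β (GG y P ^ (β / 100)) y P = GG y P ^ (β / 400)

theorem siz {β : ℝ} {y P : V3} (S : St β y P) (hG : 1 ≤ GG y P) : Siz β y P := by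
  set G := GG y P with hGdef
  have hG0 : 0 < G := by linarith
  have hb : 0 < bb y P := bb_pos S.toNd hG
  have hb3 := S.b3
  have hb4 := S.b4
  rw [← hGdef] at hb3 hb4
  have p : ∀ x : ℝ, 0 < G ^ x := fun x => Real.rpow_pos_of_pos hG0 x
  have eA : AA β (G ^ (β / 100)) y P = G ^ (1 + 2 * (β / 100)) / bb y P := by
    unfold AA
    rw [← hGdef, ← Real.rpow_add hG0]
    ring_nf
  have A1 : G ^ (1 - β - β / 100) ≤ AA β (G ^ (β / 100)) y P := by
    rw [eA, le_div_iff₀ hb]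
    calc G ^ (1 - β - β / 100) * bb y P ≤ G ^ (1 - β - β / 100) * G ^ (β + 3 * (β / 100)) :=
          mul_le_mul_of_nonneg_left hb4 (p _).le
      _ = G ^ (1 + 2 * (β / 100)) := by rw [← Real.rpow_add hG0]; ring_nf
  have A2 : AA β (G ^ (β / 100)) y P ≤ G ^ (1 - β + 4 * (β / 100)) := by
    rw [eA, div_le_iff₀ hb]
    calc G ^ (1 + 2 * (β / 100)) = G ^ (1 - β + 4 * (β / 100)) * G ^ (β - 2 * (β / 100)) := by
          rw [← Real.rpow_add hG0]; ring_nf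
      _ ≤ G ^ (1 - β + 4 * (β / 100)) * bb y P := mul_le_mul_of_nonneg_left hb3 (p _).le
  have hA0 : 0 < AA β (G ^ (β / 100)) y P := (p _).trans_le A1
  have hAB : 0 < AA β (G ^ (β / 100)) y P * G ^ (β / 100) := mul_pos hA0 (p _)
  have ec : cs β (G ^ (β / 100)) y P =
      G ^ (β / 400) / (AA β (G ^ (β / 100)) y P * G ^ (β / 100)) := rfl
  have c1 : G ^ (-1 + β - 5 * (β / 100) + β / 400) ≤ cs β (G ^ (β / 100)) y P := by
    rw [ec, le_div_iff₀ hAB]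
    calc G ^ (-1 + β - 5 * (β / 100) + β / 400) * (AA β (G ^ (β / 100)) y P * G ^ (β / 100))
        ≤ G ^ (-1 + β - 5 * (β / 100) + β / 400) *
          (G ^ (1 - β + 4 * (β / 100)) * G ^ (β / 100)) := by
          refine mul_le_mul_of_nonneg_left ?_ (p _).le
          exact mul_le_mul_of_nonneg_right A2 (p _).le
      _ = G ^ (β / 400) := by rw [← Real.rpow_add hG0, ← Real.rpow_add hG0]; ring_nf
  have c2 : cs β (G ^ (β / 100)) y P ≤ G ^ (-1 + β + β / 400) := by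
    rw [ec, div_le_iff₀ hAB]
    calc G ^ (β / 400) = G ^ (-1 + β + β / 400) *
          (G ^ (1 - β - β / 100) * G ^ (β / 100)) := by
          rw [← Real.rpow_add hG0, ← Real.rpow_add hG0]; ring_nf
      _ ≤ G ^ (-1 + β + β / 400) * (AA β (G ^ (β / 100)) y P * G ^ (β / 100)) := by
          refine mul_le_mul_of_nonneg_left ?_ (p _).le
          exact mul_le_mul_of_nonneg_right A1 (p _).le
  have hc0 : 0 < cs β (G ^ (β / 100)) y P := (p _).trans_le c1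
  have eQ : QQ β (G ^ (β / 100)) y P = G ^ (-β) / cs β (G ^ (β / 100)) y P := rfl
  refine ⟨A1, A2, c1, c2, ?_, ?_, ?_⟩
  · rw [eQ, le_div_iff₀ hc0]
    calc G ^ (1 - 2 * β - β / 400) * cs β (G ^ (β / 100)) y P
        ≤ G ^ (1 - 2 * β - β / 400) * G ^ (-1 + β + β / 400) :=
          mul_le_mul_of_nonneg_left c2 (p _).le
      _ = G ^ (-β) := by rw [← Real.rpow_add hG0]; ring_nf
  · rw [eQ, div_le_iff₀ hc0]
    calc G ^ (-β) = G ^ (1 - 2 * β + 5 * (β / 100) - β / 400) *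
          G ^ (-1 + β - 5 * (β / 100) + β / 400) := by rw [← Real.rpow_add hG0]; ring_nf
      _ ≤ _ := mul_le_mul_of_nonneg_left c1 (p _).le
  · rw [ec, mul_comm, div_mul_cancel₀ _ hAB.ne']

/-- the set of good primes -/
theorem goodPrimes (β : ℝ) (hβ : 0 < β) (hβ1 : β ≤ 1 / 10000) (hEX : Stmt_EX)
    (hPRM : Stmt_PRM) : ∃ G0 : ℝ, ∀ (y P wm v R : V3),
    St β y P → G0 ≤ GG y P → Bas y P wm v R →
    ∃ F : Finset ℕ, GG y P ^ (1 - 3 * β) ≤ F.card ∧ ∀ q ∈ F, Prime (q : ℤ) ∧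
      QQ β (GG y P ^ (β / 100)) y P ≤ q ∧ (q : ℝ) ≤ 2 * QQ β (GG y P ^ (β / 100)) y P ∧
      ∃ a b k : ℤ, AA β (GG y P ^ (β / 100)) y P / 2 ≤ a ∧
        (a : ℝ) ≤ AA β (GG y P ^ (β / 100)) y P ∧ GG y P ^ (β / 100) / 2 ≤ b ∧
        (b : ℝ) ≤ GG y P ^ (β / 100) ∧
        cs β (GG y P ^ (β / 100)) y P / 2 ≤ q * (a * cc y wm + b * cc y v) - k ∧
        q * (a * cc y wm + b * cc y v) - k ≤ cs β (GG y P ^ (β / 100)) y P ∧
        ¬ (q : ℤ) ∣ k := by
  classical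
  obtain ⟨G1, hNR⟩ := NR β hβ hβ1
  set η : ℝ := β / 800 with hη
  have hη0 : 0 < η := by positivity
  obtain ⟨G2, hEX2⟩ := hEX 3 η (by norm_num) hη0
  obtain ⟨Q0, hPR⟩ := hPRM (η / 8) (by positivity)
  have e1 := pw 4 0 (β / 100) (by positivity)
  have e2 := pw 4 0 (1 - β - β / 100) (by linarith)
  have e3 := pw 2 (1 - β + 4 * (β / 100)) 3 (by linarith)
  have e4 := pw 2 (β / 100) 3 (by linarith)
  have e5 := pw 4 (-3) (-1 + β - 5 * (β / 100) + β / 400) (by linarith)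
  have e6 := pw 2 (-1 + β + β / 400) 0 (by linarith)
  have e7 := pw 64 η (β / 400) (by rw [hη]; linarith)
  have e8 := pw 2 (-(η / 4)) (-(η / 8)) (by linarith)
  have e9 := pw Q0 0 (1 - 2 * β - β / 400) (by linarith)
  have e10 := pw 2 (-2 + 3 * β + β / 200) (-2 + 4 * β) (by linarith)
  obtain ⟨G3, hG3⟩ := eventually_atTop.1 (e1.and (e2.and (e3.and (e4.and (e5.and (e6.and
    (e7.and (e8.and (e9.and (e10.and (eventually_ge_atTop (1 : ℝ))))))))))))
  refine ⟨max G1 (max G2 G3), fun y P wm v R S hG H => ?_⟩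
  have hGa : G1 ≤ GG y P := (le_max_left _ _).trans hG
  have hGb : G2 ≤ GG y P := (le_max_left _ _).trans ((le_max_right _ _).trans hG)
  have hGc : G3 ≤ GG y P := (le_max_right _ _).trans ((le_max_right _ _).trans hG)
  obtain ⟨f1, f2, f3, f4, f5, f6, f7, f8, f9, f10, hG1⟩ := hG3 _ hGc
  have Z := siz S hG1
  set G := GG y P with hGdef
  have hG0 : 0 < G := by linarith
  have p : ∀ x : ℝ, 0 < G ^ x := fun x => Real.rpow_pos_of_pos hG0 x
  set B := G ^ (β / 100) with hB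
  rw [Real.rpow_zero, mul_one] at f1 f2 f9
  rw [Real.rpow_zero] at f6
  have hB4 : 4 ≤ B := f1
  set A := AA β B y P with hA
  set c := cs β B y P with hc
  set Q := QQ β B y P with hQ
  have hA4 : 4 ≤ A := f2.trans Z.A1
  have hA3 : 2 * A ≤ G ^ (3 : ℝ) := le_trans (by linarith [Z.A2]) f3
  have hB3 : 2 * B ≤ G ^ (3 : ℝ) := f4
  have hc0 : 0 < c := (p _).trans_le Z.c1
  have hc2 : 2 * c ≤ 1 := le_trans (by linarith [Z.c2]) f6
  have hc3 : 4 * G ^ (-3 : ℝ) ≤ c := f5.trans Z.c1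
  have hQ1 : 1 ≤ Q := (Real.one_le_rpow hG1 (by linarith)).trans Z.Q1
  have hQQ0 : Q0 ≤ Q := f9.trans Z.Q1
  have hQG : Q ≤ G := by
    refine Z.Q2.trans ?_
    have h : G ^ (1 - 2 * β + 5 * (β / 100) - β / 400) ≤ G ^ (1 : ℝ) :=
      Real.rpow_le_rpow_of_exponent_le hG1 (by linarith)
    rwa [Real.rpow_one] at h
  have hQc : Q * c = G ^ (-β) := by
    have : Q = G ^ (-β) / c := rfl
    rw [this, div_mul_cancel₀ _ hc0.ne']
  obtain ⟨FP, hFP, hcard⟩ := hPR Q hQQ0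
  set θ := cc y wm with hθ
  set ρ := cc y v with hρ
  -- the intervals
  have hA1 : (⌈A / 2⌉ : ℝ) < A / 2 + 1 := Int.ceil_lt_add_one _
  have hA1' : A / 2 ≤ (⌈A / 2⌉ : ℝ) := Int.le_ceil _
  have hA2 : A < (⌊A⌋ : ℝ) + 1 := Int.lt_floor_add_one _
  have hA2' : (⌊A⌋ : ℝ) ≤ A := Int.floor_le _
  have hB1 : (⌈B / 2⌉ : ℝ) < B / 2 + 1 := Int.ceil_lt_add_one _
  have hB1' : B / 2 ≤ (⌈B / 2⌉ : ℝ) := Int.le_ceil _
  have hB2 : B < (⌊B⌋ : ℝ) + 1 := Int.lt_floor_add_one _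
  have hB2' : (⌊B⌋ : ℝ) ≤ B := Int.floor_le _
  have hA12 : ⌈A / 2⌉ ≤ ⌊A⌋ := by
    have : (⌈A / 2⌉ : ℝ) < (⌊A⌋ : ℝ) + 1 := by linarith
    have h2 : ⌈A / 2⌉ < ⌊A⌋ + 1 := by exact_mod_cast this
    omega
  have hB12 : ⌈B / 2⌉ ≤ ⌊B⌋ := by
    have : (⌈B / 2⌉ : ℝ) < (⌊B⌋ : ℝ) + 1 := by linarith
    have h2 : ⌈B / 2⌉ < ⌊B⌋ + 1 := by exact_mod_cast this
    omega
  have hSep : ∀ a b k : ℤ, |(a : ℝ)| ≤ 2 * ((⌊A⌋ : ℝ) - ⌈A / 2⌉ + 1) →
      |(b : ℝ)| ≤ 2 * ((⌊B⌋ : ℝ) - ⌈B / 2⌉) → (a ≠ 0 ∨ b ≠ 0) →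
      1 / G ^ (2 - 4 * β) ≤ |a * θ + b * ρ - k| := by
    intro a b k ha hb hab
    have h := hNR B y P wm v R S.toNd S.V hGa (by linarith) le_rfl H a b k hab
      (by linarith) (by linarith)
    have e : 1 / G ^ (2 - 4 * β) = G ^ (-2 + 4 * β) := by
      rw [one_div, ← Real.rpow_neg hG0.le]
      ring_nf
    rw [e]
    exact h
  set Good : ℕ → Prop := fun q => ∃ a b k : ℤ, ⌈A / 2⌉ ≤ a ∧ a ≤ ⌊A⌋ ∧ ⌈B / 2⌉ ≤ b ∧ b ≤ ⌊B⌋ ∧
    |(q : ℝ) * (a * θ + b * ρ) - k - 3 * c / 4| ≤ c / 4 with hGood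
  have hbad : ((FP.filter (fun q => ¬ Good q)).card : ℝ) ≤ Q * G ^ (-(η / 4)) := by
    refine hEX2 G θ ρ (3 * c / 4) (c / 4) (G ^ (2 - 4 * β)) Q ⌈A / 2⌉ ⌊A⌋ ⌈B / 2⌉ ⌊B⌋ hGb hA12
      hB12 (by linarith) (by linarith) (by linarith) (by linarith) hQ1 ?_ (p _) ?_ hSep ?_ _ ?_
    · refine hQG.trans ?_
      have h : G ^ (1 : ℝ) ≤ G ^ (3 : ℝ) :=
        Real.rpow_le_rpow_of_exponent_le hG1 (by norm_num)
      rwa [Real.rpow_one] at h
    · -- K1 ≤ Q / (c/4)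
      rw [le_div_iff₀ (by positivity)]
      have h1 : G ^ (2 - 4 * β) * (c / 4) ≤ G ^ (2 - 4 * β) * c := by
        refine mul_le_mul_of_nonneg_left (by linarith) (p _).le
      have h2 : G ^ (2 - 4 * β) * c ≤ G ^ (2 - 4 * β) * G ^ (-1 + β + β / 400) :=
        mul_le_mul_of_nonneg_left Z.c2 (p _).le
      have h3 : G ^ (2 - 4 * β) * G ^ (-1 + β + β / 400) ≤ G ^ (1 - 2 * β - β / 400) := by
        rw [← Real.rpow_add hG0]
        exact Real.rpow_le_rpow_of_exponent_le hG1 (by linarith)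
      linarith [Z.Q1]
    · -- G^η ≤ ...
      have h1 : A / 4 ≤ (⌊A⌋ : ℝ) - ⌈A / 2⌉ + 1 := by linarith
      have h2 : B / 4 ≤ (⌊B⌋ : ℝ) - ⌈B / 2⌉ + 1 := by linarith
      have h3 : A / 4 * (B / 4) * (c / 4) ≤
          ((⌊A⌋ : ℝ) - ⌈A / 2⌉ + 1) * ((⌊B⌋ : ℝ) - ⌈B / 2⌉ + 1) * (c / 4) := by
        refine mul_le_mul_of_nonneg_right ?_ (by positivity)
        exact mul_le_mul h1 h2 (by positivity) (by linarith)
      have h4 : A * B * c = G ^ (β / 400) := Z.ABc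
      have h5 : A / 4 * (B / 4) * (c / 4) = G ^ (β / 400) / 64 := by
        rw [← h4]; ring
      linarith
    · intro q hq
      rw [Finset.mem_filter] at hq
      obtain ⟨h1, h2⟩ := hq
      obtain ⟨h3, h4, h5⟩ := hFP q h1
      refine ⟨h3, h4, h5, fun a b k ha1 ha2 hb1 hb2 => ?_⟩
      by_contra hcon
      rw [not_lt] at hcon
      exact h2 ⟨a, b, k, ha1, ha2, hb1, hb2, hcon⟩
  refine ⟨FP.filter Good, ?_, ?_⟩
  · have h1 : (FP.filter Good).card + (FP.filter (fun q => ¬ Good q)).card = FP.card :=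
      Finset.card_filter_add_card_filter_not _
    have h2 : ((FP.filter Good).card : ℝ) + ((FP.filter (fun q => ¬ Good q)).card : ℝ) =
        (FP.card : ℝ) := by exact_mod_cast h1
    have hQp : 0 < Q := by linarith
    have h3 : Q * G ^ (-(η / 8)) ≤ Q ^ (1 - η / 8) := by
      rw [sub_eq_add_neg, Real.rpow_add hQp, Real.rpow_one]
      refine mul_le_mul_of_nonneg_left ?_ hQp.le
      exact Real.rpow_le_rpow_of_nonpos hQp hQG (by linarith)
    have h4 : 2 * (Q * G ^ (-(η / 4))) ≤ Q * G ^ (-(η / 8)) := by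
      have := mul_le_mul_of_nonneg_left f8 hQp.le
      linarith
    have h5 : G ^ (1 - 3 * β) ≤ Q * G ^ (-(η / 4)) := by
      have h6 : G ^ (1 - 2 * β - β / 400) * G ^ (-(η / 4)) ≤ Q * G ^ (-(η / 4)) :=
        mul_le_mul_of_nonneg_right Z.Q1 (p _).le
      refine le_trans ?_ h6
      rw [← Real.rpow_add hG0]
      refine Real.rpow_le_rpow_of_exponent_le hG1 ?_
      rw [hη]
      linarith
    linarith
  · intro q hq
    rw [Finset.mem_filter] at hq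
    obtain ⟨h1, a, b, k, ha1, ha2, hb1, hb2, habs⟩ := hq
    obtain ⟨h3, h4, h5⟩ := hFP q h1
    have hqp : (0 : ℝ) < q := by exact_mod_cast h3.pos
    have ha1' : (⌈A / 2⌉ : ℝ) ≤ a := by exact_mod_cast ha1
    have ha2' : (a : ℝ) ≤ ⌊A⌋ := by exact_mod_cast ha2
    have hb1' : (⌈B / 2⌉ : ℝ) ≤ b := by exact_mod_cast hb1
    have hb2' : (b : ℝ) ≤ ⌊B⌋ := by exact_mod_cast hb2
    rw [abs_le] at habs
    refine ⟨Nat.prime_iff_prime_int.1 h3, h4, h5, a, b, k, by linarith, by linarith, by linarith,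
      by linarith, by linarith [habs.1], by linarith [habs.2], ?_⟩
    rintro ⟨k', hk'⟩
    have ha0 : a ≠ 0 := by
      rintro rfl
      have : (⌈A / 2⌉ : ℝ) ≤ 0 := by exact_mod_cast ha1
      linarith
    have hap : (0 : ℝ) < a := by linarith
    have hbp : (0 : ℝ) < b := by linarith
    have h6 := hNR B y P wm v R S.toNd S.V hGa (by linarith) le_rfl H a b k' (Or.inl ha0)
      (by rw [abs_of_pos hap]; linarith) (by rw [abs_of_pos hbp]; linarith)
    have h7 : (q : ℝ) * |a * θ + b * ρ - k'| ≤ c := by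
      have e : (q : ℝ) * |a * θ + b * ρ - k'| = |(q : ℝ) * (a * θ + b * ρ) - k| := by
        rw [hk']
        push_cast
        rw [← abs_of_pos hqp, ← abs_mul, abs_of_pos hqp]
        ring_nf
      rw [e, abs_le]
      constructor <;> linarith [habs.1, habs.2]
    have h8 : Q * G ^ (-2 + 4 * β) ≤ c := by
      calc Q * G ^ (-2 + 4 * β) ≤ (q : ℝ) * |a * θ + b * ρ - k'| :=
            mul_le_mul h4 h6 (p _).le hqp.le
        _ ≤ c := h7
    have h9 : G ^ (1 - 2 * β - β / 400) * G ^ (-2 + 4 * β) ≤ Q * G ^ (-2 + 4 * β) :=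
      mul_le_mul_of_nonneg_right Z.Q1 (p _).le
    have h10 : G ^ (-1 + β + β / 400) < G ^ (1 - 2 * β - β / 400) * G ^ (-2 + 4 * β) := by
      rw [← Real.rpow_add hG0]
      have h11 : G ^ (-1 + β + β / 400) * 2 ≤
          G ^ (1 - 2 * β - β / 400 + (-2 + 4 * β)) := by
        have h12 := mul_le_mul_of_nonneg_left f10 (p (1 - 2 * β - β / 400)).le
        have h13 : G ^ (1 - 2 * β - β / 400) * (2 * G ^ (-2 + 3 * β + β / 200)) =
            G ^ (-1 + β + β / 400) * 2 := by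
          have : G ^ (1 - 2 * β - β / 400) * G ^ (-2 + 3 * β + β / 200) =
              G ^ (-1 + β + β / 400) := by
            rw [← Real.rpow_add hG0]
            ring_nf
          linear_combination 2 * this
        rw [h13, ← Real.rpow_add hG0] at h12
        exact h12
      linarith [p (-1 + β + β / 400)]
    linarith [Z.c2]

end StepP
end ULB
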