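import Pool.Agent.ULB.Stmts

/-!
# Two auxiliary statements for STEP and START: the objects of a step exist, the child is a node
-/

set_option autoImplicit false

namespace ULB

open WHP (V3 det be ga dot cross lin tt)
open WHS (hh ev der)

/-- MKS: from `(a, b, q, k)` to a step. -/
def Stmt_MKS : Prop := ∀ β : ℝ, 0 < β → β ≤ 1 / 10000 → ∃ G0 : ℝ, ∀ (B : ℝ)
  (y P wm v R : V3) (a b q k : ℤ), Nd β y P → G0 ≤ GG y P → 1 ≤ B →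
  B ≤ GG y P ^ (β / 100) → Bas y P wm v R → AA β B y P / 2 ≤ a → (a : ℝ) ≤ AA β B y P →
  B / 2 ≤ b → (b : ℝ) ≤ B → Prime q → QQ β B y P ≤ q → (q : ℝ) ≤ 2 * QQ β B y P →
  cs β B y P / 2 ≤ q * (a * cc y wm + b * cc y v) - k →
  q * (a * cc y wm + b * cc y v) - k ≤ cs β B y P → ¬ q ∣ k →
  ∃ (g d : ℤ) (y1 P0 : V3), Stp β B y P wm v R a b q k g d y1 P0

/-- MKN: a child with `WW` and `VV` is a node. -/
def Stmt_MKN : Prop := ∀ β : ℝ, 0 < β → β ≤ 1 / 10000 → ∃ G0 : ℝ, ∀ (B : ℝ)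
  (y P wm v R y1 P0 : V3) (a b q k g d : ℤ), Nd β y P → G0 ≤ GG y P → 1 ≤ B →
  B ≤ GG y P ^ (β / 100) → Stp β B y P wm v R a b q k g d y1 P0 →
  Chd β B y P q g d y1 P0 → WW y1 P0 → VV β y1 P0 →
  (y1.a : ℝ) ≤ GG y1 P0 ^ (1000 / β) → |tt y1| ≤ 2 - 1 / GG y1 P0 →
  |(P0.c : ℝ)| ≤ (2 - GG y1 P0 ^ (-(β / 200))) * |dd y1 P0| → St β y1 P0

end ULB
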