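import Pool.Agent.ULB.Stmts
import Pool.Agent.ULB.Alg
import Pool.Agent.UHI.Stmts

/-!
# Block HW (few planes are bad for `WW`): statements and proofs

`κ = β / 100`, `G = GG y P`, `b = bb y P`, `D = dl y`, `A = AA β B y P`, `c* = cs β B y P`,
`σ = si y`, `s1 = 1/100000`. THEOREM: `Stmt_HW` with `s = 1/200000`, `β0 = 1/10000`.
Helper lemmas go to the namespace `ULB.XXXaux` (XXX the name of the module).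
-/

set_option autoImplicit false

namespace ULB

open WHP (V3 det be ga dot cross lin tt)
open WHS (hh ev der)

/-! ### Algebra -/

/-- the frame of `y` -/
structure Frm (y : V3) : Prop where
  la : ∀ (i k : ℤ) (v w : V3), ca y (lin i v k w) = i * ca y v + k * ca y w
  lb : ∀ (i k : ℤ) (v w : V3), cb y (lin i v k w) = i * cb y v + k * cb y w
  lc : ∀ (i k : ℤ) (v w : V3), cc y (lin i v k w) = i * cc y v + k * cc y w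
  ld : ∀ (i k : ℤ) (P R : V3), dd y (lin i P k R) = i * dd y P + k * dd y R
  cy : cc y y = (si y : ℝ)
  ss : (si y : ℝ) * si y = 1
  D1 : 1 ≤ dl y
  dt : ∀ v : V3, (det v : ℝ) = dl y * ca y v * cc y v - zz y ^ 2 * cb y v ^ 2
  crd : ∀ (w P : V3) (e : ℤ), cross y w = sm e P →
    (e : ℝ) * dd y P = dl y * (si y * ca y w - cc y w)
  crc : ∀ (w P : V3) (e : ℤ), cross y w = sm e P → (e : ℝ) * P.c = dl y * cb y w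

/-- HWFR. With `t = tt y`, `Y = y.a`: `be`, `ga` are linear; `Y t = y.b`, `Y * zz y = dl y`,
`y.c = (det y + y.b ^ 2) / Y`. `det v = Y ca * ga - be²` (expand), `e * P.c = y.a w.b - y.b w.a =
Y be (w)`, `e * dd y P = y.c w.a - y.a w.c + 2 t (y.a w.b - y.b w.a) = det y * ca w - Y ga (w)`. -/
def Stmt_HWFR : Prop := ∀ y : V3, 0 < y.a → det y ≠ 0 → Frm y

/-- NZ5. (Contains `Stmt_NZ`.) `w ≠ 0` as `j P ≠ 0`; let `w = s' w0`, `s' ≥ 1`, `w0` primitive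
(divide by the gcd of the coordinates) and suppose `det w = 0`, so `w0.a * w0.c = w0.b ^ 2`, hence
(`gcd = 1`) `w0 = ± (v ^ 2, u v, u ^ 2)`, `gcd (u, v) = 1`. As `j (P · w) = (y × w) · w = 0`:
`P.a v² + P.b u v + P.c u² = 0`. Write `P = m P1`, `m ≥ 1`, `P1` primitive (the same equation for
`P1`). If `v = 0` then `w = (0, 0, ± s')`, `cc y w = ± s' / zz y`, but `zz y = D / Y ≤ 1/2000`.
If `v ≠ 0`: `v ∣ P1.c u²`, so `v ∣ P1.c`; if `P1.c ≠ 0` then `|v| ≤ |P1.c| ≤ 5 |dd y P| / m`; if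
`P1.c = 0` then `P1.a v + P1.b u = 0`, `P1.b ≠ 0`, `v ∣ P1.b = dd y P1`. So
`|ca y w| = s' v² / Y ≤ 25 s' (dd y P)² / (m² Y)` in all cases. By `Frm.crd`
`|j| |dd y P| ≤ D (|ca y w| + 1/2)` and `D / 2 ≤ |j| |dd y P| / 2`, so `|j| |dd y P| / 2 ≤ D |ca y w|`,
`|j| ≤ 50 s' D |dd y P| / (m² Y) ≤ s' / (40 m²)`. But `s' (y × w0) = j m P1` with `P1` primitive
gives `s' ∣ j m`, so `s' ≤ |j| m ≤ s' / (40 m)`: contradiction. -/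
def Stmt_NZ5 : Prop := ∀ (y P w : V3) (j : ℤ), 0 < y.a → det y ≠ 0 → P ≠ 0 →
  |(P.c : ℝ)| ≤ 5 * |dd y P| → 2000 * dl y * |dd y P| ≤ y.a → dl y ≤ |dd y P| →
  j ≠ 0 → cross y w = sm j P → |cc y w| ≤ 1 / 2 → det w ≠ 0

/-! ### Parameters -/

/-- the sizes of the parameters -/
structure Par (β B : ℝ) (y P : V3) : Prop where
  ya : 0 < y.a
  dt : det y ≠ 0
  B1 : 1 ≤ B
  B2 : B ≤ GG y P ^ (β / 100)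
  G0 : 1 ≤ GG y P
  G1 : 1000000 ≤ GG y P ^ (β / 10000)
  b0 : 1 ≤ bb y P
  b1 : GG y P ^ (β / 4) ≤ bb y P
  b2 : bb y P ≤ GG y P ^ (2 * β)
  A1 : GG y P ^ (1 - 3 * β) ≤ AA β B y P / (2 * B)
  A2 : AA β B y P ≤ GG y P
  Ab : AA β B y P * bb y P = B * GG y P ^ (1 + β / 100)
  c1 : GG y P ^ (-1 - 3 * (β / 100)) ≤ cs β B y P
  c2 : cs β B y P ≤ 1 / 100
  D1 : GG y P ^ (20 : ℕ) ≤ dl y
  D2 : dl y ^ (6 / 5 : ℝ) ≤ GG y P ^ (1000 / β)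
  Yf : (y.a : ℝ) = GG y P * bb y P * dl y ^ 2
  df : |dd y P| = bb y P * dl y
  rf : rr y = 1 / (GG y P ^ 2 * bb y P ^ 2 * dl y ^ 3)

/-- HWPA. `G b D² = (Y / (D |dd|)) (|dd| / D) D² = Y`; `A = B G^(1+κ) / b`, so `A b = B G^(1+κ)`,
`A ≤ G^(1 + 2κ - β/4) ≤ G`, `A / (2B) = G^(1+κ) / (2b) ≥ G^(1+κ-2β) / 2 ≥ G^(1-3β)` (`2 ≤ G^β`);
`c* = G^(κ/4) / (A B) = b G^(-1-3κ/4) / B²`, `B ≤ G^κ`, `1 ≤ b ≤ G^(2β)`; `dd y P ≠ 0` since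
`GG y P > 0`; `D^(6/5) ≤ D² ≤ Y ≤ G^(1000/β)` (`D ≥ 1`, `G b ≥ 1`). -/
def Stmt_HWPA : Prop := ∀ β : ℝ, 0 < β → β ≤ 1 / 10000 → ∃ G0 : ℝ, ∀ (B : ℝ) (y P : V3),
  Nd β y P → G0 ≤ GG y P → 1 ≤ B → B ≤ GG y P ^ (β / 100) → Par β B y P

/-- HWPL. The planes `P0 = a0 P + b0 R`. `dd y P0 = a0 dd P + b0 dd R`, `|dd R| ≤ |dd P|` (`Bas.hr`),
`b0 ≤ B ≤ G^κ ≤ a0 / 100` (`a0 ≥ G^(1-3β)`). From `P × R = y`: `dd P * R.c - dd R * P.c = Y` (expand,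
`dd y P = P.b + 2 P.c t`), so `|R.c| ≤ Y / |dd P| + 2 |dd P| = D (G + 2 b)` (`Nd.sb`), `≤ 1.01 D G`;
`|P0.c| ≤ 2 a0 b D + 1.01 b0 D G` and `b0 G ≤ B G ≤ 2 a0 b B² G / (A b) = 2 a0 b B G^(-κ) ≤ 2 a0 b`. -/
def Stmt_HWPL : Prop := ∀ (β B : ℝ) (y P wm v R : V3), 0 < β → β ≤ 1 / 10000 → Nd β y P →
  Par β B y P → Bas y P wm v R → ∀ a0 b0 : ℤ, 1 ≤ b0 → (b0 : ℝ) ≤ B →
  AA β B y P / (2 * B) ≤ a0 → (a0 : ℝ) ≤ AA β B y P →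
    99 / 100 * (a0 * (bb y P * dl y)) ≤ |dd y (lin a0 P b0 R)| ∧
    |dd y (lin a0 P b0 R)| ≤ 101 / 100 * (a0 * (bb y P * dl y)) ∧
    |((lin a0 P b0 R).c : ℝ)| ≤ 5 * |dd y (lin a0 P b0 R)|

/-- the vector `j (a wm + b0 v) - p σ y` -/
def wv (y wm v : V3) (b0 a j p : ℤ) : V3 := lin j (lin a wm b0 v) (-(p * si y)) y

/-- HWBD. The vector which is responsible for a bad plane `P0 = a0 P + b0 R`. The negation of `Wpl`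
gives `w, e` with `1 ≤ 2 c* |e|`, `y × w = e P0`, `|cc w| ≤ c*`, `|det w| Phi G^(-4κ) < |dd y P0|`,
`Phi = Phi G (c* |e|)`. Replace `(w, e)` by `(-w, -e)` if `e < 0`. `y × (w - e (a0 wm + b0 v)) = 0`
(`Bas.hm`, `Bas.hR`) and `y` is primitive, so `w = e (a0 wm + b0 v) + l y` (`u = (Q · u) y` if
`y × u = 0`, `Q · y = 1`); put `j = e`, `p = - l σ`. So `cc w = j (θ a0 + ρ) - p`.
`Π := |dd y P0| / D ∈ [0.99 a0 b, 1.01 a0 b]` (HWPL). `|ca w| ≥ e Π - |cc w| ≥ 0.99 e Π` (`crd`, `Π ≥ 1`),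
`cb w = e P0.c / D`, `|cb w| ≤ 5 e Π` (`crc`), and `D ca cc = det w + zz² cb²` (`Frm.dt`), so
`|cc w| ≤ (Π D G^(4κ) / Phi + 25 zz² e² Π²) / (0.99 D e Π)`, `zz² / D = rr`.
The bound for `j`: NZ5 for `P0` (`2000 D |dd P0| ≤ 2020 D² A b = 2020 D² B G^(1+κ) ≤ G b D² = Y` as
`b ≥ G^(25κ)`) gives `|det w| ≥ 1`, so `(c* j)^(49/50) ≤ Phi ≤ 1.01 A b D G^(4κ) ≤ G^(1+7κ) D`,
`j ≤ G^(1+3κ) (G^(1+7κ) D)^(50/49) ≤ G^(2.1) D^(50/49) ≤ D^(6/5)` (`D ≥ G^20`). -/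
def Stmt_HWBD : Prop := ∀ (β B : ℝ) (y P wm v R : V3), 0 < β → β ≤ 1 / 10000 → Nd β y P →
  Par β B y P → Bas y P wm v R → ∀ a0 b0 : ℤ, 1 ≤ b0 → (b0 : ℝ) ≤ B →
  AA β B y P / (2 * B) ≤ a0 → (a0 : ℝ) ≤ AA β B y P → ¬ Wpl β B y P (lin a0 P b0 R) →
  ∃ j p : ℤ, 1 ≤ j ∧ (j : ℝ) ≤ dl y ^ (6 / 5 : ℝ) ∧
    |(p : ℝ) - j * (cc y wm * a0 + b0 * cc y v)| ≤
      2 * GG y P ^ (4 * (β / 100)) / (j * Phi (GG y P) (cs β B y P * j)) +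
        30 * rr y * j * (a0 * bb y P) ∧
    |(det (wv y wm v b0 a0 j p) : ℝ)| ≤
      2 * (a0 * (bb y P * dl y)) * GG y P ^ (4 * (β / 100)) / Phi (GG y P) (cs β B y P * j)

/-! ### Numerical inequalities -/

/-- HWEP. Two terms, each `≤ 1/2`. (i) `8 G^(4κ) X^(1/3) G^(1/4) ≤ Phi G (c X / 2)`: if `X ≤ G²` the
left side is `≤ 8 G^(0.917 + 4κ) ≤ G^(99/100)`; if `X ≥ G²`: `(c X / 2)^(49/50) ≥
(X G^(-1-3κ) / 2)^(49/50)` and `X^(49/50 - 1/3) ≥ G^(1.293) ≥ 16 G^(1/4 + 4κ + 49/50 (1 + 3κ))`.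
(ii) `60 r b X^(7/3) A'^(5/4) ≤ 60 (2 D^(6/5))^(7/3) G^(5/4) / (G² D³) ≤ 1`. -/
def Stmt_HWEP : Prop := ∀ (β G b D c r A' X : ℝ), 0 < β → β ≤ 1 / 10000 →
  1000000 ≤ G ^ (β / 10000) → 1 ≤ G → 1 ≤ b → G ^ (-1 - 3 * (β / 100)) ≤ c → 1 ≤ A' → A' ≤ G →
  1 ≤ X → X ≤ 2 * D ^ (6 / 5 : ℝ) → G ^ (20 : ℕ) ≤ D → r = 1 / (G ^ 2 * b ^ 2 * D ^ 3) →
  (4 * G ^ (4 * (β / 100)) / (X * Phi G (c * (X / 2))) + 30 * r * X * (A' * b)) *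
    X ^ (4 / 3 : ℝ) * A' ^ (1 / 4 : ℝ) ≤ 1

/-- HWFN. `A'^(-1 + 60 s1) ≤ G^(-1 + 60 s1 + 3β)`, `60 s1 = 6/10000`, `A'^(60 s1) ≤ G^(60 s1)`. If
`X ≤ G²`: `Phi G (X A'^(60 s1)) ≤ G^(1.9606)`, `2 G^(4κ) G^(-1 + 0.0006 + 3β + 1.9606) < G^(0.99)`. If
`X ≥ G²`: `Phi = (X A'^(60 s1))^(49/50)`, `Phi G (c X / 2) ≥ (X G^(-1-3κ) / 2)^(49/50)`; the exponent
of `G` in the quotient is `≤ -0.018`. -/
def Stmt_HWFN : Prop := ∀ (β G c A' X : ℝ), 0 < β → β ≤ 1 / 10000 →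
  1000000 ≤ G ^ (β / 10000) → 1 ≤ G → G ^ (-1 - 3 * (β / 100)) ≤ c → G ^ (1 - 3 * β) ≤ A' →
  A' ≤ G → 1 ≤ X →
  2 * G ^ (4 * (β / 100)) * A' ^ (-1 + 60 * (1 / 100000) : ℝ) *
    Phi G (X * A' ^ (60 * (1 / 100000) : ℝ)) < Phi G (c * (X / 2))

/-- HWPG. Dyadic pigeonhole. For `a ∈ F` let `i = Nat.log 2 ⌊A / a⌋₊` (`2^i ≤ A / a < 2^(i+1)`) and
`k = Nat.clog 2 (j a)` (`2^(k-1) < j a ≤ 2^k`; `k = 0` if `j a = 1`); `2^i ≤ 2 B ≤ 2 G`, `2^k ≤ 2 E`, so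
`i, k < N := ⌊(3000/β) log G⌋₊ + 3`. If `F.card > A^(1 - 1/200000)`, some fibre `S` has
`F.card / N² ≤ S.card ≤ A'^(1 - 1/100000) ≤ A^(1 - 1/100000)`, `A' = A / 2^i`, `X = 2^k`, so
`A^(1/200000) < N²`, false for large `G` as `A ≥ G^(9/10)`. -/
def Stmt_HWPG : Prop := ∀ β : ℝ, 0 < β → β ≤ 1 / 10000 → ∃ G0 : ℝ, ∀ (G A B E : ℝ)
  (F : Finset ℤ) (j : ℤ → ℤ), G0 ≤ G → 1 ≤ B → B ≤ G → G ^ (9 / 10 : ℝ) ≤ A → 1 ≤ E →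
  E ≤ G ^ (1000 / β) →
  (∀ a ∈ F, A / (2 * B) ≤ (a : ℝ) ∧ (a : ℝ) ≤ A ∧ 1 ≤ j a ∧ (j a : ℝ) ≤ E) →
  (∀ (A' X : ℝ) (S : Finset ℤ), S ⊆ F → A / (2 * B) ≤ A' → A' ≤ A → 1 ≤ X → X ≤ 2 * E →
    (∀ a ∈ S, A' / 2 ≤ (a : ℝ) ∧ (a : ℝ) ≤ A' ∧ X / 2 < (j a : ℝ) ∧ (j a : ℝ) ≤ X) →
    (S.card : ℝ) ≤ A' ^ (1 - 1 / 100000 : ℝ)) →
  (F.card : ℝ) ≤ A ^ (1 - 1 / 200000 : ℝ)

/-! ### One scale -/

/-- HWSC. One dyadic scale. Suppose `S.card > A'^(1 - s1)`. Apply the inverse theorem with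
`θ = cc wm`, `ρ = b0 cc v`, `ε = 4 G^(4κ) / (X Phi (c* X / 2)) + 30 rr X (A' b)`,
`Δ = 2 A' b D G^(4κ) / Phi (c* X / 2)` (`Phi` is monotone, `X / 2 < j a ≤ X`), `C = 2000 / β`
(`X ≤ 2 D^(6/5) ≤ A'^C`), HWEP, and the form `c` with `qf c u v w = det (v wm + u b0 v - w σ y)`
(coefficients `b0² det v, det wm, det y, b0 bil v wm, -(b0 σ bil v y), -(σ bil wm y)`). Result
`d, j', p'`; `w' = j' wm - p' σ y`: `y × w' = j' P`, `cc w' = j' θ - p'`, `|cc w'| ≤ ε A'^(-1+60 s1) ≤ 1/2`,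
`j' ≤ X A'^(60 s1)`, `|det w'| ≤ Δ A'^(-2 + 60 s1)`. `Nd.W` and HWFN:
`b D = |dd y P| ≤ |det w'| Phi G j' < b D`. -/
def Stmt_HWSC : Prop := Pool.Agent.UHI.Stmt_INV → Stmt_HWFR → Stmt_HWEP → Stmt_HWFN →
  ∀ β : ℝ, 0 < β → β ≤ 1 / 10000 → ∃ G0 : ℝ, ∀ (B : ℝ) (y P wm v R : V3), Nd β y P →
  G0 ≤ GG y P → Par β B y P → Bas y P wm v R → ∀ (b0 : ℤ) (A' X : ℝ) (S : Finset ℤ)
  (j p : ℤ → ℤ), AA β B y P / (2 * B) ≤ A' → A' ≤ AA β B y P → 1 ≤ X →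
  X ≤ 2 * dl y ^ (6 / 5 : ℝ) →
  (∀ a ∈ S, A' / 2 ≤ (a : ℝ) ∧ (a : ℝ) ≤ A' ∧ 1 ≤ j a ∧ X / 2 < (j a : ℝ) ∧ (j a : ℝ) ≤ X ∧
    |(p a : ℝ) - j a * (cc y wm * a + b0 * cc y v)| ≤
      2 * GG y P ^ (4 * (β / 100)) / (j a * Phi (GG y P) (cs β B y P * j a)) +
        30 * rr y * j a * (a * bb y P) ∧
    |(det (wv y wm v b0 a (j a) (p a)) : ℝ)| ≤
      2 * (a * (bb y P * dl y)) * GG y P ^ (4 * (β / 100)) /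
        Phi (GG y P) (cs β B y P * j a)) →
  (S.card : ℝ) ≤ A' ^ (1 - 1 / 100000 : ℝ)

end ULB
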