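import Pool.Agent.ULB.Stmts

/-!
# Modules of the block UCH, part 1 (BAS, NZ, CHD), helper65

`κ = β / 100` everywhere.
-/

set_option autoImplicit false

namespace ULB

open WHP (V3 det be ga dot cross lin tt)
open WHS (hh ev der)

/-- PROOF of `Stmt_NZ` (P need not be primitive). `P = n P1`, `P1` primitive, `n >= 1`; `|dd y P1| = |dd y P| / n > 0`
(`dl y >= 1`). Suppose `det w = 0`: `w.a w.c = w.b^2`, `w ≠ 0` (`cross y w = j P ≠ 0`). If `w.a = 0` then `w.b = 0` and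
`|cc y w| = |w.c| / zz y >= Y/D >= 2000 |dd y P| >= 2000`, a contradiction. So `w = ± s' (v^2, u v, u^2)`, `s' >= 1`, `v >= 1`,
`gcd(u,v) = 1` (divide by the content, `Int.sq_of_gcd_eq_one`); call the last vector `w0` (with the sign).
`cross y w0` is orthogonal to `y`, parallel to `P1`: `cross y w0 = j1 P1` with an integer `j1` (`P1` primitive), `s' j1 = j n`,
so `j1 ≠ 0`. `P1 · w0 = 0` (`dot (cross y w0) w0 = 0`): `P1.a v^2 + P1.b u v + P1.c u^2 = 0`. So `v` divides `P1.c`; if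
`P1.c ≠ 0` then `v <= |P1.c| <= 5/2 |dd y P1|`; if `P1.c = 0` then `P1.a v + P1.b u = 0`, `v` divides `P1.b`, `P1.b ≠ 0`
(else `P1 = 0`), `P1.b = dd y P1`: `v <= |dd y P1|`. FRM (third claim): `j1 dd y P1 = D (si ca w0 - cc w0)`, `ca w0 = ± v^2/Y`,
so `|j1| |dd y P1| <= D v^2/Y + D |cc w0|`. Here `D v^2/Y <= (25/4) |dd y P1| (D |dd y P1|/Y) <= (25/4)|dd y P1|/2000`, and
`|cc w0| = |cc w|/s' <= 1/(2 s')`, `D <= |dd y P| = n |dd y P1|`, `n/s' = |j1|/|j| <= |j1|`: `D |cc w0| <= |j1| |dd y P1|/2`.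
So `|j1| / 2 <= 25/8000`, i.e. `j1 = 0`: contradiction. (Hypothesis for the module: `Stmt_FRM`, or direct.) -/
def NZdoc : Prop := Stmt_NZ

/-- FRM: frame identities.
PROOF. `WHP.det_eq`, `cross_c`, `cross_der`, `dot_eq`, `be_self`, `ga_self` of `Pool/Agent/WHP/Basic.lean` (with `t = tt y`):
`w.a = Y ca`, `be = z cb`, `ga = z cc`, `Y z = D`, `z = D/Y`, `r = D/Y^2`, `det y = si y * D`
(`Int.sign_mul_abs`), `ga (tt y) y = det y / Y`, `ev P t = P.a + P.b t + P.c t^2`, `dd y P = P.b + 2 P.c t`. -/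
def Stmt_FRM : Prop := ∀ y : V3, 0 < y.a → det y ≠ 0 →
  (∀ w : V3, (det w : ℝ) = dl y * ca y w * cc y w - zz y ^ 2 * cb y w ^ 2) ∧
  (∀ w : V3, w.a ≠ 0 → tt w - tt y = rr y * (cb y w / ca y w)) ∧
  (∀ w : V3, ((cross y w).c : ℝ) = dl y * cb y w ∧
    dd y (cross y w) = dl y * (si y * ca y w - cc y w)) ∧
  (∀ P : V3, dot P y = 0 → ev P (tt y) = -(P.c * si y * rr y)) ∧
  (∀ P w : V3, dot P y = 0 →
    (dot P w : ℝ) = zz y * (dd y P * cb y w + P.c * (cc y w - si y * ca y w)))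

/-- ALG: exact facts on a step. -/
def Stmt_ALG : Prop := ∀ (β B : ℝ) (y P wm v R y1 P0 : V3) (a b q k g d : ℤ),
  0 < y.a → det y ≠ 0 → Pr y → Pr P → dot P y = 0 → Bas y P wm v R →
  Stp β B y P wm v R a b q k g d y1 P0 →
  dot P0 y1 = 0 ∧ dot P0 y = 0 ∧ d ∣ g ∧ g ∣ b ∧
  (∃ q1 : ℤ, q1 * d = q * g ∧ cross y y1 = sm q1 P0) ∧
  (d : ℝ) * cc y y1 = q * (a * cc y wm + b * cc y v) - k ∧
  (d : ℝ) * ca y y1 = si y * ((q * (a * cc y wm + b * cc y v) - k) + q * g * dd y P0 / dl y) ∧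
  (d : ℝ) * cb y y1 = q * g * P0.c / dl y ∧
  (g : ℝ) * dd y P0 = a * dd y P + b * dd y R ∧ (g : ℝ) * P0.c = a * P.c + b * R.c ∧
  dd y P * R.c - dd y R * P.c = y.a

/-- The numbers of a step: `l0 = |dd y P0|`, `l1 = |dd y1 P0|`, `al = ca y y1`, `e = |d|`,
`c = |cc y y1| e`, `cst = c*`. -/
structure Num (β G B b D Y A cst Q q g e c al Y1 D1 l0 l1 r : ℝ) : Prop where
  hβ : 0 < β
  hβ1 : β ≤ 1 / 10000
  hB1 : 1 ≤ B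
  hB2 : B ≤ G ^ (β / 100)
  hb1 : G ^ (β / 4) ≤ b
  hb2 : b ≤ G ^ (2 * β)
  hD : G ^ (20 : ℕ) ≤ D
  hY : Y = G * b * D ^ 2
  hA : A = B * G ^ (1 + β / 100) / b
  hcst : cst = G ^ (β / 400) / (A * B)
  hQ : Q = G ^ (-β) / cst
  hq1 : Q ≤ q
  hq2 : q ≤ 2 * Q
  hg1 : 1 ≤ g
  hg2 : g ≤ B
  he1 : 1 ≤ e
  he2 : e ≤ g
  hc1 : cst / 2 ≤ c
  hc2 : c ≤ cst
  hl01 : 49 / 100 * (A * b * D) ≤ g * l0
  hl02 : g * l0 ≤ 101 / 100 * (A * b * D)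
  hal : |e * al - q * g * l0 / D| ≤ 1
  hY1 : Y1 = al * Y
  hr : r = D / Y ^ 2
  hD1 : |D1 * e ^ 2 - D * (e * al) * c| ≤ 9 * (r * D) * (e * al) ^ 2
  hl1 : |l1 - l0| ≤ l0 / 1000

/-- the powers -/
structure Pwr (β G B b D Y A cst Q r : ℝ) : Prop where
  G1 : 1000 ≤ G
  D1 : 1 ≤ D
  b1 : 1 ≤ b
  Y0 : 0 < Y
  A0 : 0 < A
  c0 : 0 < cst
  Q0 : 0 < Q
  r0 : 0 < r
  Ab : A * b = B * G ^ (1 + β / 100)
  cAB : cst * A * B = G ^ (β / 400)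
  Qc : Q * cst = G ^ (-β)
  c1 : G ^ (-1 : ℝ) ≤ cst
  c2 : cst ≤ G ^ (-(99 / 100) : ℝ)
  N1 : G ^ (19 / 10 : ℝ) ≤ Q * (A * b)
  N2 : Q * (A * b) ≤ G ^ (2 : ℝ)
  r1 : r ≤ G ^ (-60 : ℝ)
  rD : r * Y ^ 2 = D
  A1 : 1000 * B ≤ A

/-- PWR: the powers (block CHD).
PROOF. `Ab, cAB, Qc` from the definitions. `cst = b G^(-1-3κ/4)/B^2`; `B <= G^κ`, `b >= G^(25κ)` gives `cst >= G^(-1)`;
`b <= G^(2β)`, `B >= 1` gives `cst <= G^(-1+2β)`. `Q A b = G^(-β) B G^(1+κ)/cst`. `r = D/Y^2 = 1/(G^2 b^2 D^3)`. -/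
def Stmt_PWR : Prop := ∀ β : ℝ, 0 < β → β ≤ 1 / 10000 → ∃ G0 : ℝ,
  ∀ (G B b D Y A cst Q r : ℝ), G0 ≤ G → 1 ≤ B → B ≤ G ^ (β / 100) → G ^ (β / 4) ≤ b →
    b ≤ G ^ (2 * β) → G ^ (20 : ℕ) ≤ D → Y = G * b * D ^ 2 → A = B * G ^ (1 + β / 100) / b →
    cst = G ^ (β / 400) / (A * B) → Q = G ^ (-β) / cst → r = D / Y ^ 2 →
    Pwr β G B b D Y A cst Q r

/-- NUM1: sizes of `W = e * al`, `D1`, `Y1`.
PROOF. `Z = q * g * l0 / D`: `49/100 * (Q (A b)) <= Z <= 202/100 * (Q (A b))` by `hq1, hq2, hl01, hl02`; `W` is within 1 of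
`Z`, `Q (A b) >= G^(19/10) >= 1000^(19/10)` (use `Pwr.N1`, `Pwr.G1`), so `48/100 N <= W <= 203/100 N`, `N = Q (A b)`.
`9 r D W^2 <= D W c * (9 r W/c)`, `9 r W / c <= 9 G^(-60) 3 G^2 2 G = 54 G^(-57) <= G^(-2) / 2 <= 1/1000`, so
`|D1 e^2 - D W c| <= D W c * (G^(-2)/2)` and, dividing by `e^2` (`W = e al`),
`|D1 - D al (c/e)| <= (D al (c/e)) G^(-2)/2 <= D1 G^(-2)` because `D1 >= (D al c/e)(1 - 1/1000)`. `D1 >= (999/1000) D W c / e^2`,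
`e <= B`, `W c >= (48/100) N cst/2 = (24/100) G^(-β) B G^(1+κ)` (`Pwr.Qc, Pwr.Ab`), so
`D1 >= (23/100) D G^(1+κ-β)/B >= (23/100) D G^(1-β) >= D G^(1/2)` (`G0` large). `Y1 = al Y <= W Y <= 3 G^2 Y <= G^(5/2) Y`
(for `G >= 1000`: `G^(1/2) >= 3`). -/
def Stmt_NUM1 : Prop := ∀ β : ℝ, 0 < β → β ≤ 1 / 10000 → ∃ G0 : ℝ,
  ∀ (G B b D Y A cst Q q g e c al Y1 D1 l0 l1 r : ℝ), G0 ≤ G →
    Num β G B b D Y A cst Q q g e c al Y1 D1 l0 l1 r → Pwr β G B b D Y A cst Q r →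
    48 / 100 * (Q * (A * b)) ≤ e * al ∧ e * al ≤ 203 / 100 * (Q * (A * b)) ∧
    |D1 - D * al * (c / e)| ≤ D1 * G ^ (-2 : ℝ) ∧
    |D1 * e ^ 2 - D * (e * al) * c| ≤ D * (e * al) * c / 1000 ∧
    0 < al ∧ 0 < c ∧ 0 < l0 ∧ 0 < D1 ∧
    G ^ (1 / 2 : ℝ) * D ≤ D1 ∧ Y1 ≤ G ^ (5 / 2 : ℝ) * Y

/-- NUM2: `G` of the child (hypothesis `Stmt_NUM1` not needed: its conclusions are hypotheses).
PROOF. Lower bound: `9/10 B G^(1-κ/4) D1 l1 <= Y1`. Multiply by `e^2 g`: `D1 e^2 <= 1001/1000 D W c`, `l1 <= 1001/1000 l0`,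
`g l0 <= 101/100 A b D`, `c <= cst`: the left side is at most `0.912 G^(1-κ/4) D^2 W b (cst A B) = 0.912 G D^2 b W = 0.912 Y W`,
and `Y1 e^2 g = Y W e g >= Y W`. Upper bound: `Y1 <= 5 B^3 G^(1-κ/4) D1 l1`: `D1 e^2 >= 999/1000 D W c`, `l1 >= 999/1000 l0`,
`g l0 >= 49/100 A b D`, `c >= cst/2`: `D1 l1 e^2 g >= 0.244 D^2 W b A cst`, times `5 B^3 G^(1-κ/4)`: at least
`1.2 B^2 G D^2 W b = 1.2 B^2 Y W >= Y W e g`. -/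
def Stmt_NUM2 : Prop := ∀ (β G B b D Y A cst Q q g e c al Y1 D1 l0 l1 r : ℝ),
    Num β G B b D Y A cst Q q g e c al Y1 D1 l0 l1 r → Pwr β G B b D Y A cst Q r →
    |D1 * e ^ 2 - D * (e * al) * c| ≤ D * (e * al) * c / 1000 →
    0 < al → 0 < c → 0 < l0 → 0 < D1 →
    9 / 10 * B * G ^ (1 - β / 400) ≤ Y1 / (D1 * l1) ∧
    Y1 / (D1 * l1) ≤ 5 * B ^ 3 * G ^ (1 - β / 400)

/-- NUM3: `b` of the child.
PROOF. `W = e al`, `Z = q g l0 / D`, `W` in `[0.99 Z, 1.01 Z]` since `|W - Z| <= 1` and `W >= 48/100 N >= 200`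
(`N = Q (A b) >= G^(19/10)`). `l1 / D1`: `D1 e^2 <= 1001/1000 D W c <= 1.02 D Z c = 1.02 q g l0 c`, so
`3 B l1 >= 3 B 0.999 l0 >= 3 B 0.999 D1 e^2/(1.02 q g c) >= G^β D1` because `q c <= 2 Q cst = 2 G^(-β)`, `g <= B`, `e >= 1`.
In the same way `D1 e^2 >= 0.999 D W c >= 0.98 q g l0 c`, `q c >= Q cst / 2 = G^(-β)/2`, `e^2 <= g e <= g B`:
`l1 <= 1.001 l0 <= 1.001 D1 e^2/(0.98 g q c) <= 1.001 * 2 D1 B G^β / 0.98 <= 3 B G^β D1`. -/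
def Stmt_NUM3 : Prop := ∀ (β G B b D Y A cst Q q g e c al Y1 D1 l0 l1 r : ℝ),
    Num β G B b D Y A cst Q q g e c al Y1 D1 l0 l1 r → Pwr β G B b D Y A cst Q r →
    48 / 100 * (Q * (A * b)) ≤ e * al →
    |D1 * e ^ 2 - D * (e * al) * c| ≤ D * (e * al) * c / 1000 →
    0 < al → 0 < c → 0 < l0 → 0 < D1 →
    G ^ β ≤ 3 * B * (l1 / D1) ∧ l1 / D1 ≤ 3 * B * G ^ β

/-- NUM4: the radius of the child.
PROOF. `Y1 = al Y`, `D1 e^2 = D W c (1 ± 1/1000)`, `W = e al`: `D1 / Y1^2 = r (c / W) (1 ± 1/1000)` (`r = D/Y^2`).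
`c/W <= cst / (0.48 N)`, `N = Q (A b) >= G^(19/10)`, `cst <= G^(-99/100)`: `<= 2.1 G^(-2.89)`, at most `G^(-2)/1.001` for
`G >= 1000`. Lower bound: `c/W >= (cst/2)/(2.03 N)`, `1/N = cst G^β/(A b)` (`N cst = G^(-β) A b`), `A b = B G^(1+κ)`,
`cst = b G^(-1-3κ/4)/B^2` (from `cAB`, `Ab`), so `c/W >= b^2 G^(-3-5κ/2+β)/(4.06 B^5) >= G^(-3+β-15κ/2)/4.06` and this is at least
`G^(-3)/0.999` for `G >= G0` (`b >= 1`, `B <= G^κ`, `β = 100 κ`). -/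
def Stmt_NUM4 : Prop := ∀ β : ℝ, 0 < β → β ≤ 1 / 10000 → ∃ G0 : ℝ,
  ∀ (G B b D Y A cst Q q g e c al Y1 D1 l0 l1 r : ℝ), G0 ≤ G →
    Num β G B b D Y A cst Q q g e c al Y1 D1 l0 l1 r → Pwr β G B b D Y A cst Q r →
    48 / 100 * (Q * (A * b)) ≤ e * al → e * al ≤ 203 / 100 * (Q * (A * b)) →
    |D1 * e ^ 2 - D * (e * al) * c| ≤ D * (e * al) * c / 1000 →
    0 < al → 0 < c → 0 < D1 →
    D1 / Y1 ^ 2 ≤ r * G ^ (-2 : ℝ) ∧ r * G ^ (-3 : ℝ) ≤ D1 / Y1 ^ 2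

/-- PLN: the plane of a step. `L = dd y P`, `L0 = dd y P0`, `M = dd y R`, `p = P.c`, `p0 = P0.c`, `m = R.c`.
PROOF. `|g L0 - a L| = |b' M| <= B |L|`, `B <= A/1000 <= a/500`, `|L| = b D`: `g |L0|` is between `(a - B) b D` and
`(a + B) b D` (`A/2 <= a <= A`), which gives the first two claims. `p0 / L0 = g p0/(g L0)`, and
`g p0 L - p g L0 = (a p + b' m) L - p (a L + b' M) = b' (m L - p M) = b' Y`, so `p0/L0 - p/L = b' Y/(L (g L0))`, at most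
`B Y/(b D * 49/100 * A b D) = (100/49) B G/(A b) = (100/49) G^(-κ)` (`Y = G b D^2`, `A b = B G^(1+κ)`). -/
def Stmt_PLN : Prop := ∀ (β G B b D Y A cst Q r L L0 M p p0 m a b' g : ℝ),
  Pwr β G B b D Y A cst Q r → Y = G * b * D ^ 2 → 1 ≤ B → |L| = b * D → |M| ≤ |L| →
  A / 2 ≤ a → a ≤ A → 0 ≤ b' → b' ≤ B → 1 ≤ g → g * L0 = a * L + b' * M →
  g * p0 = a * p + b' * m → L * m - M * p = Y →
  49 / 100 * (A * b * D) ≤ g * |L0| ∧ g * |L0| ≤ 101 / 100 * (A * b * D) ∧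
  |p0 / L0 - p / L| ≤ 21 / 10 * G ^ (-(β / 100))

/-- TTM: direction of the child. `s = si y`, `al = ca y y1`, `be = cb y y1`, `c` is the (signed) number
`q (a cc wm + b cc v) - k`, `L0 = dd y P0`, `p0 = P0.c`.
PROOF. `be / al = (d be)/(d al) = (q g p0/D)/(s (c + q g L0/D)) = s p0/(L0 (1 + x))`, `x = c D/(q g L0)`, `|x| <= cst/Z`,
`Z = q g |L0|/D >= 49/100 N`, `N = Q (A b) >= G^(19/10)`, `cst <= G^(-99/100)`: `|x| <= 2.1 G^(-2.89)`. So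
`|be/al - s p0/L0| <= (5/2) 2 |x| <= G^(-2)` for `G >= 1000`; `|be/al| <= 5/2 + G^(-2) <= 3`. -/
def Stmt_TTM : Prop := ∀ (β G B b D Y A cst Q r L0 p0 q g d c al be s : ℝ),
  Pwr β G B b D Y A cst Q r → s ^ 2 = 1 → Q ≤ q → 1 ≤ g → d ≠ 0 → 0 < c → c ≤ cst →
  49 / 100 * (A * b * D) ≤ g * |L0| → |p0| ≤ 5 / 2 * |L0| →
  d * al = s * (c + q * g * L0 / D) → d * be = q * g * p0 / D →
  |be / al - s * (p0 / L0)| ≤ G ^ (-2 : ℝ) ∧ |be / al| ≤ 3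

end ULB
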