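import Pool.Agent.ULB.Stmts

/-!
# Block URT: an explicit root (Stmt_ROOT), statements of the modules

Proofs: `Pool/Agent/ULB/BLUEPRINT_ROOT.md` and the doc-strings below. `n` is large,
`τ = ⌈9 β n⌉`, `d = 7^(125n)`, `s = 7^(9n)`, `m = s d`,
`u = 7^(125n-τ) + 7^(117n) + 7^(105n) + 7^(75n) + 2`, `κ` a root of `u κ² + 2 κ + u` modulo `d`.
-/

namespace ULB

namespace URT

open WHP (V3 det be ga dot cross lin tt)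
open WHS (hh ev der)

/-- `d` -/
def dz (n : ℕ) : ℤ := 7 ^ (125 * n)

/-- `s` -/
def sz (n : ℕ) : ℤ := 7 ^ (9 * n)

/-- `m = s d` -/
def mz (n : ℕ) : ℤ := 7 ^ (134 * n)

/-- `u`, lacunary in base 7 -/
def uz (n τ : ℕ) : ℤ := 7 ^ (125 * n - τ) + 7 ^ (117 * n) + 7 ^ (105 * n) + 7 ^ (75 * n) + 2

/-- the form `p² + m p k - k²` -/
def ff (m p k : ℤ) : ℤ := p ^ 2 + m * p * k - k ^ 2

/-- `a' = y₀ / d` -/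
def az (m u : ℤ) : ℤ := m + (m - u) * (m ^ 2 + 1)

/-- `X` -/
def xz (m u : ℤ) : ℤ := 1 + m * (m - u)

/-- the vector `y` of the root -/
def yv (d s m u κ E : ℤ) : V3 :=
  ⟨d * az m u, xz m u - κ * az m u,
    -(E + s) * xz m u + (κ ^ 2 + 1) * s * (m ^ 2 + 2 - u ^ 2)⟩

/-- the second vector of the plane -/
def ys (d s m u κ E : ℤ) : V3 :=
  ⟨d ^ 2 * (m ^ 2 + 1), d * m - κ * d * (m ^ 2 + 1),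
    -(E + s) * d * m + (κ ^ 2 + 1) * (m ^ 2 + 1 + u * m)⟩

/-- the plane (polynomial) of the root -/
def Pv (d m κ : ℤ) : V3 := ⟨κ ^ 2 + m * κ - 1, d * (2 * κ + m), d ^ 2⟩

/-- UNIT. By strong induction on `|p| + |k|` prove the same for pairs with
`∃ ε ∈ {1,-1}, d ∣ k - ε u p ∨ d ∣ p - ε u k`.
`p = 0`: `d ∣ k`, `ff = -k²`; `k = 0`: `d ∣ p`, `ff = p²`. Otherwise wlog `p ≥ 1`
(`ff (-p) (-k) = ff p k`).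
(i) `1 ≤ k < m p`: `ff = p² + k (m p - k) ≥ p² + m p - 1 ≥ m`.
(ii) `k ≥ m p`: with `k' = k - m p ≥ 0`: `ff p k = - ff k' p`, the pair `(k', p)` is smaller and
satisfies the relation as `d ∣ m`.
(iii) `k = - l < 0`, `p' = p - m l ≥ 0`: `ff p k = ff p' l`, smaller pair.
(iv) `k = - l < 0`, `p' = p - m l < 0`: `ff p k = - ff l (-p')` with `1 ≤ -p' < m l`: case (i). -/
def Stmt_UNIT : Prop := ∀ m d u p k : ℤ, 1 ≤ m → 1 ≤ d → d ∣ m → IsCoprime u d →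
  (p ≠ 0 ∨ k ≠ 0) → d ∣ k - u * p → m ≤ |ff m p k| ∨ d ^ 2 ≤ |ff m p k|

/-- HEN (Hensel). Induction on `r` without the bound on `κ` (start `κ = 2`: `u 4 + 4 + u ≡ 14 ≡ 0`);
step: `κ + 7^r c` changes the value by `7^r c (2 u κ + 2)` modulo `7^(r+1)` and
`2 u κ + 2 ≡ 10 ≡ 3` modulo `7` is invertible. At the end reduce `κ` modulo `7^r` (emod). -/
def Stmt_HEN : Prop := ∀ (r : ℕ) (u : ℤ), 1 ≤ r → 7 ∣ u - 2 →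
  ∃ κ : ℤ, 0 ≤ κ ∧ κ < 7 ^ r ∧ 7 ∣ κ - 2 ∧ (7 : ℤ) ^ r ∣ u * κ ^ 2 + 2 * κ + u

/-- UZ: size and residue of `u`; `7^(117n) ≤ 7^(125n-τ) / 7^70` etc. -/
def Stmt_UZ : Prop := ∀ n τ : ℕ, 10 ≤ n → 1 ≤ τ → 4 * τ ≤ n →
  (7 : ℤ) ^ (125 * n - τ) ≤ uz n τ ∧ 1000 * uz n τ ≤ 1001 * 7 ^ (125 * n - τ) ∧
  7 ∣ uz n τ - 2 ∧ IsCoprime (uz n τ) (dz n)

/-- XP: `J ≥ 7^(e n) / (16 · 7^τ) ≥ 7^(e n - τ - 2)` and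
`49 (e n - τ - 2) ≥ 50 (e - 2) n` for `e ≤ 75`, `4 τ ≤ n`, `n ≥ 10`. -/
def Stmt_XP : Prop := ∀ (n τ e : ℕ) (p J : ℝ), 10 ≤ n → 4 * τ ≤ n →
  (e = 12 ∨ e = 20 ∨ e = 30 ∨ e = 50 ∨ e = 75) → (7 : ℝ) ^ (e * n) ≤ 8 * p →
  p ≤ 2 * 7 ^ τ * J → (7 : ℝ) ^ ((e - 2) * n) ≤ J ^ (49 / 50 : ℝ)

/-- LAC. Put `k = u p - j d`.
Case 0: `4 p < 7^(12n)`. `u = a₀ 7^(117n) + ρ₀`, `a₀ = 7^(8n-τ) + 1`,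
`7^(105n) ≤ ρ₀ = 7^(105n) + 7^(75n) + 2 ≤ 2 · 7^(105n)`.
If `a₀ p ≠ j 7^(8n)`: `|k| ≥ 7^(117n) - ρ₀ p ≥ 7^(117n)/2`, use `7^(8n+1)`. Otherwise `7^(8n) ∣ p`
(`a₀` is prime to 7), so `p ≥ 7^(8n)`, `k = ρ₀ p ≥ 7^(113n)`, use `7^(8n+1)`.
Case 1: `7^(12n) ≤ 4 p < 7^(30n)`. `a₁ = 7^(20n-τ) + 7^(12n) + 1`, `u = a₁ 7^(105n) + ρ₁`,
`ρ₁ = 7^(75n) + 2`. If `a₁ p ≠ j 7^(20n)`: `|k| ≥ 7^(105n)/2`, `x ≥ 7^(10n)` (`e = 12`), product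
`≥ (10/8) 7^(127n)`. Otherwise `p ≥ 7^(20n)`, `k = ρ₁ p ≥ 7^(95n)`, `x ≥ 7^(18n)` (`e = 20`).
Case 2: `7^(30n) ≤ 4 p`, `8 p < 7^(75n)`. `a₂ = 7^(50n-τ) + 7^(42n) + 7^(30n) + 1`,
`u = a₂ 7^(75n) + 2`. If `a₂ p ≠ j 7^(50n)`: `|k| ≥ 7^(75n)/2`, `x ≥ 7^(28n)` (`e = 30`).
Otherwise `p ≥ 7^(50n)`, `k = 2 p`, `x ≥ 7^(48n)` (`e = 50`).
Case 3: `7^(75n) ≤ 8 p`: `|k| ≥ 1`, `x ≥ 7^(73n)` (`e = 75`). -/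
def Stmt_LAC : Prop := ∀ (n τ : ℕ) (p j : ℤ) (x : ℝ), 10 ≤ n → 1 ≤ τ → 4 * τ ≤ n → 1 ≤ p →
  uz n τ * p - j * dz n ≠ 0 →
  (∀ e : ℕ, (e = 12 ∨ e = 20 ∨ e = 30 ∨ e = 50 ∨ e = 75) → (7 : ℝ) ^ (e * n) ≤ 8 * p →
    (7 : ℝ) ^ ((e - 2) * n) ≤ x) →
  21 * (7 : ℝ) ^ (125 * n) ≤
    10 * (p * |((uz n τ * p - j * dz n : ℤ) : ℝ)|) * max ((7 : ℝ) ^ (8 * n + 1)) x

/-- ALG: identities -/
def Stmt_ALG : Prop := ∀ d s m u κ E : ℤ, m = s * d → u * κ ^ 2 + 2 * κ + u = d * E →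
  dot (Pv d m κ) (yv d s m u κ E) = 0 ∧
  cross (yv d s m u κ E) (ys d s m u κ E) = sm (-1) (Pv d m κ) ∧
  det (yv d s m u κ E) = -(u * (m - u) + 1) ∧
  ∀ p j : ℤ, det (lin p (yv d s m u κ E) j (ys d s m u κ E)) = -ff m p (u * p - j * d)

/-- sizes at the root -/
structure Est (n τ : ℕ) (y P : V3) : Prop where
  ya : 0 < y.a
  ya2 : (y.a : ℝ) ≤ 7 ^ (528 * n)
  tb : |tt y| ≤ 1
  dd1 : (7 : ℝ) ^ (259 * n) ≤ dd y P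
  dd2 : dd y P ≤ 101 / 100 * 7 ^ (259 * n)
  pc : |(P.c : ℝ)| ≤ dd y P
  dl1 : 9 / 10 * (7 : ℝ) ^ (259 * n - τ) ≤ dl y
  b1 : 9 / 10 * (7 : ℝ) ^ τ ≤ bb y P
  b2 : bb y P ≤ 11 / 10 * 7 ^ τ
  G1 : 9 / 10 * (7 : ℝ) ^ (9 * n + τ) ≤ GG y P
  G2 : GG y P ≤ 11 / 10 * 7 ^ (9 * n + τ)

/-- EST (hypotheses `Stmt_ALG`, `Stmt_UZ`). `t = X/(d a') - κ/d`, so `|t| ≤ 1` (`0 < X ≤ a'`,
`0 ≤ κ ≤ d - 1`); `dd y P = d (m + 2 X/a')` with `0 < X/a' ≤ 2/m`; `|P.c| = d²`;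
`dl y = u (m - u) + 1 ∈ [u (m - u), u m]`; `y.a = d a'`, `m² (m - u) ≤ a' ≤ m³ + 2 m`;
`bb = dd/dl`, `GG = y.a/(dl dd)`; `u ∈ [1, 1.001] 7^(125n-τ)`, `u ≤ m/1000`. -/
def Stmt_EST : Prop := ∀ (n τ : ℕ) (κ E : ℤ), 10 ≤ n → 1 ≤ τ → 4 * τ ≤ n → 0 ≤ κ → κ < dz n →
  uz n τ * κ ^ 2 + 2 * κ + uz n τ = dz n * E →
  Est n τ (yv (dz n) (sz n) (mz n) (uz n τ) κ E) (Pv (dz n) (mz n) κ)

/-- CC (hypotheses `Stmt_ALG`, `Stmt_UZ`, `Stmt_EST`). `η = cc y ys`. `cc` is linear,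
`cc y y = det y / dl y = -1` (`WHP.ga_self`). From `WHP.cross_der` with `v = y`, `w = ys`,
`cross y ys = -P`: `y.a ga(ys) = dd + ga(y) ys.a`, so `η = dd/D - ys.a/y.a`, `D = dl y`,
`ys.a/y.a = d (m² + 1)/a' ∈ (0, 1/100]`. With `e = m - u`, `D = u e + 1`, `a' = m + e (m² + 1)`,
`dd = d (m + 2 (1 + m e)/a')` one has exactly `u η - d = - d e (m e + 2) / (D a')`, of absolute
value `≤ 4 d/(u m) ≤ 7^(τ + 1 - 134n)`. -/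
def Stmt_CC : Prop := ∀ (n τ : ℕ) (κ E : ℤ), 10 ≤ n → 1 ≤ τ → 4 * τ ≤ n → 0 ≤ κ → κ < dz n →
  uz n τ * κ ^ 2 + 2 * κ + uz n τ = dz n * E →
  ∃ η : ℝ, 8 / 10 * (7 : ℝ) ^ τ ≤ η ∧ η ≤ 11 / 10 * 7 ^ τ ∧
    |(uz n τ : ℝ) * η - dz n| ≤ 1 / (7 : ℝ) ^ (130 * n) ∧
    ∀ p j : ℤ, cc (yv (dz n) (sz n) (mz n) (uz n τ) κ E)
      (lin p (yv (dz n) (sz n) (mz n) (uz n τ) κ E) j (ys (dz n) (sz n) (mz n) (uz n τ) κ E)) =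
        -p + j * η

/-- WWR (hypotheses `Stmt_UNIT`, `Stmt_UZ`, `Stmt_XP`, `Stmt_LAC`, `Stmt_ALG`, `Stmt_EST`,
`Stmt_CC`), see the blueprint. -/
def Stmt_WWR : Prop := ∀ (n τ : ℕ) (κ E : ℤ), 10 ≤ n → 1 ≤ τ → 4 * τ ≤ n → 0 ≤ κ → κ < dz n →
  7 ∣ κ - 2 → uz n τ * κ ^ 2 + 2 * κ + uz n τ = dz n * E →
  WW (yv (dz n) (sz n) (mz n) (uz n τ) κ E) (Pv (dz n) (mz n) κ)

end URT

end ULB
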