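import Pool.Agent.WHP.TreeDim

/-!
# The quantitative tree theorem (MP_c538e3_nt, lower bound `1/3`)

A tree of compact intervals: the node `s` has `2 ^ e` children whose intervals are separated by
`ρ s ^ C`, and the radius drops by at most the factor `2 ^ (B e)`.  The limit set has Hausdorff
dimension at least `1 / (B C)`.
-/

set_option autoImplicit false

namespace ULB

open Filter Topology WHP
open scoped ENNReal NNReal

/-- separation of the points of a binary tree gives a lower bound of the dimension -/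
lemma tq_dim (f : (ℕ → Fin 2) → ℝ) (c B : ℝ) (hc : 0 < c) (hB : 0 < B)
    (hf : ∀ (w w' : ℕ → Fin 2) (m : ℕ), (∀ i < m, w i = w' i) → w m ≠ w' m →
      c * ((2 : ℝ) ^ m)⁻¹ ^ B ≤ |f w - f w'|) :
    ENNReal.ofReal (1 / B) ≤ dimH (Set.range f) := by
  have hinj : Function.Injective f := by
    intro w w' h
    by_contra hne
    obtain ⟨m, h1, h2⟩ := td_first hne
    have h3 := hf w w' m h1 h2
    rw [h, sub_self, abs_zero] at h3
    have : 0 < c * ((2 : ℝ) ^ m)⁻¹ ^ B := by positivity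
    linarith
  set r : ℝ≥0 := (B⁻¹).toNNReal with hr
  have hrr : (r : ℝ) = B⁻¹ := by
    rw [hr]
    exact Real.coe_toNNReal _ (by positivity)
  have hr0 : 0 < r := by
    have : (0 : ℝ) < r := by rw [hrr]; positivity
    exact_mod_cast this
  have hholder : ∀ w w' : ℕ → Fin 2,
      |Real.ofDigits w - Real.ofDigits w'| ≤
        (c⁻¹) ^ (r : ℝ) * dist (f w) (f w') ^ (r : ℝ) := by
    intro w w'
    by_cases h : w = w'
    · subst h
      simp only [sub_self, abs_zero]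
      positivity
    obtain ⟨m, h1, h2⟩ := td_first h
    have h3 := hf w w' m h1 h2
    have h4 := Real.abs_ofDigits_sub_ofDigits_le h1
    push_cast at h4
    rw [Real.dist_eq]
    have h2m : (0 : ℝ) < 2 ^ m := by positivity
    have h5 : ((2 : ℝ) ^ m)⁻¹ ^ B ≤ c⁻¹ * |f w - f w'| := by
      rw [inv_mul_eq_div, le_div_iff₀ hc]
      linarith
    have h6 : ((2 : ℝ) ^ m)⁻¹ = (((2 : ℝ) ^ m)⁻¹ ^ B) ^ (r : ℝ) := by
      rw [hrr, Real.rpow_rpow_inv (by positivity) hB.ne']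
    calc |Real.ofDigits w - Real.ofDigits w'| ≤ ((2 : ℝ) ^ m)⁻¹ := h4
      _ = (((2 : ℝ) ^ m)⁻¹ ^ B) ^ (r : ℝ) := h6
      _ ≤ (c⁻¹ * |f w - f w'|) ^ (r : ℝ) := Real.rpow_le_rpow (by positivity) h5 r.coe_nonneg
      _ = _ := Real.mul_rpow (by positivity) (abs_nonneg _)
  set g : ℝ → ℝ := fun x => Real.ofDigits (Function.invFun f x) with hg
  have hgf : ∀ w, g (f w) = Real.ofDigits w := by
    intro w
    simp only [hg]
    rw [Function.leftInverse_invFun hinj w]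
  have hgH : HolderOnWith ((c⁻¹) ^ (r : ℝ)).toNNReal r g (Set.range f) := by
    rintro _ ⟨w, rfl⟩ _ ⟨w', rfl⟩
    rw [hgf, hgf, edist_dist, edist_dist, Real.dist_eq]
    rw [ENNReal.ofReal_rpow_of_nonneg (dist_nonneg (x := f w) (y := f w')) r.coe_nonneg]
    have h128 : ((((c⁻¹) ^ (r : ℝ)).toNNReal : ℝ≥0) : ℝ≥0∞) =
        ENNReal.ofReal ((c⁻¹) ^ (r : ℝ)) := rfl
    rw [h128, ← ENNReal.ofReal_mul (by positivity)]
    exact ENNReal.ofReal_le_ofReal (hholder w w')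
  have hsurj : Set.Icc (0 : ℝ) 1 ⊆ g '' (Set.range f) := by
    intro y hy
    obtain ⟨w, -, hw⟩ := Real.ofDigits_SurjOn (b := 2) (by norm_num) hy
    exact ⟨f w, ⟨w, rfl⟩, by rw [hgf, hw]⟩
  have h1 : dimH (Set.Icc (0 : ℝ) 1) = 1 := by
    rw [Real.dimH_of_nonempty_interior]
    · simp
    · rw [interior_Icc]
      exact ⟨1 / 2, by norm_num, by norm_num⟩
  have h2 : dimH (g '' (Set.range f)) ≤ dimH (Set.range f) / (r : ℝ≥0∞) :=
    hgH.dimH_image_le hr0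
  have h3 : (1 : ℝ≥0∞) ≤ dimH (Set.range f) / (r : ℝ≥0∞) := by
    rw [← h1]
    exact (dimH_mono hsurj).trans h2
  have hrE : (r : ℝ≥0∞) ≠ 0 := by exact_mod_cast hr0.ne'
  have hrT : (r : ℝ≥0∞) ≠ ⊤ := ENNReal.coe_ne_top
  have h4 : (r : ℝ≥0∞) ≤ dimH (Set.range f) := by
    have := (ENNReal.le_div_iff_mul_le (Or.inl hrE) (Or.inl hrT)).1 h3
    rwa [one_mul] at this
  refine le_trans (le_of_eq ?_) h4
  rw [hr]
  rw [one_div]
  rfl

/-- **The quantitative tree theorem.** -/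
theorem treeDimQ (S : Type) (I : S → Set ℝ) (ρ : S → ℝ) (R : S → S → Prop) (s0 : S) (B C : ℝ)
    (hB : 0 < B) (hC : 0 < C) (hρ : ∀ s, 0 < ρ s) (hcomp : ∀ s, IsCompact (I s))
    (hne : ∀ s, (I s).Nonempty)
    (hstep : ∀ s, ∃ (e : ℕ) (ch : ℕ → S), 1 ≤ e ∧
      (∀ j < 2 ^ e, R s (ch j) ∧ I (ch j) ⊆ I s ∧ ρ s ≤ ρ (ch j) * ((2 : ℝ) ^ e) ^ B) ∧
      ∀ j < 2 ^ e, ∀ j' < 2 ^ e, j ≠ j' → ∀ ξ ∈ I (ch j), ∀ ξ' ∈ I (ch j'),
        ρ s ^ C ≤ |ξ - ξ'|) :
    ∃ E : Set ℝ, ENNReal.ofReal (1 / (B * C)) ≤ dimH E ∧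
      ∀ ξ ∈ E, ∃ p : ℕ → S, p 0 = s0 ∧ (∀ k, R (p k) (p (k + 1))) ∧ ∀ k, ξ ∈ I (p k) := by
  choose e ch he hch hsep using hstep
  set p : (ℕ → Fin 2) → ℕ → S × ℕ := tdSt s0 e ch with hp
  have hp0 : ∀ w, p w 0 = (s0, 0) := fun w => rfl
  have hps : ∀ w k, p w (k + 1) = (ch (p w k).1 (tdVal w (p w k).2 (e (p w k).1)),
      (p w k).2 + e (p w k).1) := fun w k => rfl
  have hchp : ∀ w k, R (p w k).1 (p w (k + 1)).1 ∧ I (p w (k + 1)).1 ⊆ I (p w k).1 ∧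
      ρ (p w k).1 ≤ ρ (p w (k + 1)).1 * ((2 : ℝ) ^ e (p w k).1) ^ B := by
    intro w k
    rw [hps]
    exact hch (p w k).1 _ (tdVal_lt _ _ _)
  have hex : ∀ w, ∃ ξ, ∀ k, ξ ∈ I (p w k).1 := by
    intro w
    have h1 := IsCompact.nonempty_iInter_of_sequence_nonempty_isCompact_isClosed
      (fun k => I (p w k).1) (fun k => (hchp w k).2.1) (fun k => hne _) (hcomp _)
      (fun k => (hcomp _).isClosed)
    obtain ⟨ξ, hξ⟩ := h1
    exact ⟨ξ, fun k => Set.mem_iInter.1 hξ k⟩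
  choose f hf using hex
  have hrad : ∀ w k, ρ s0 ≤ ρ (p w k).1 * ((2 : ℝ) ^ (p w k).2) ^ B := by
    intro w k
    induction k with
    | zero => rw [hp0]; simp
    | succ k ih =>
      have h1 := (hchp w k).2.2
      have h2 : (p w (k + 1)).2 = (p w k).2 + e (p w k).1 := by rw [hps]
      rw [h2, pow_add, Real.mul_rpow (by positivity) (by positivity)]
      have h3 : (0 : ℝ) < ((2 : ℝ) ^ (p w k).2) ^ B := by positivity
      calc ρ s0 ≤ ρ (p w k).1 * ((2 : ℝ) ^ (p w k).2) ^ B := ih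
        _ ≤ (ρ (p w (k + 1)).1 * ((2 : ℝ) ^ e (p w k).1) ^ B) * ((2 : ℝ) ^ (p w k).2) ^ B :=
            mul_le_mul_of_nonneg_right h1 h3.le
        _ = _ := by ring
  refine ⟨Set.range f, ?_, ?_⟩
  · have hs0 := hρ s0
    refine tq_dim f (ρ s0 ^ C) (B * C) (by positivity) (by positivity) ?_
    intro w w' m hlt hm
    obtain ⟨k, hk1, hk2⟩ := td_block (fun k => (p w k).2) (fun k => e (p w k).1)
      rfl (fun k => rfl) (fun k => he _) m
    have hpe : p w k = p w' k := tdSt_congr s0 e ch hlt k hk1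
    have hval : tdVal w (p w k).2 (e (p w k).1) ≠ tdVal w' (p w k).2 (e (p w k).1) := by
      intro h
      apply hm
      have h1 := tdVal_inj _ h (m - (p w k).2) (by omega)
      have h2 : (p w k).2 + (m - (p w k).2) = m := by omega
      rwa [h2] at h1
    have h1 := hf w (k + 1)
    have h2 := hf w' (k + 1)
    rw [hps] at h1 h2
    rw [← hpe] at h2
    have h3 := hsep (p w k).1 _ (tdVal_lt _ _ _) _ (tdVal_lt _ _ _) hval _ h1 _ h2
    refine le_trans ?_ h3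
    have h4 := hrad w k
    have h5 : ((2 : ℝ) ^ (p w k).2) ^ B ≤ ((2 : ℝ) ^ m) ^ B := by
      apply Real.rpow_le_rpow (by positivity) _ hB.le
      exact pow_le_pow_right₀ (by norm_num) hk1
    have h6 : ρ s0 * (((2 : ℝ) ^ m)⁻¹ ^ B) ≤ ρ (p w k).1 := by
      rw [Real.inv_rpow (by positivity), ← div_eq_mul_inv, div_le_iff₀ (by positivity)]
      exact h4.trans (mul_le_mul_of_nonneg_left h5 (hρ _).le)
    calc ρ s0 ^ C * ((2 : ℝ) ^ m)⁻¹ ^ (B * C)
        = (ρ s0 * (((2 : ℝ) ^ m)⁻¹ ^ B)) ^ C := by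
          rw [Real.mul_rpow hs0.le (by positivity), ← Real.rpow_mul (by positivity)]
      _ ≤ ρ (p w k).1 ^ C := Real.rpow_le_rpow (by positivity) h6 hC.le
  · rintro _ ⟨w, rfl⟩
    exact ⟨fun k => (p w k).1, rfl, fun k => (hchp w k).1, hf w⟩

/-- The version with finite sets of children. -/
theorem treeDimF (S : Type) (I : S → Set ℝ) (ρ : S → ℝ) (R : S → S → Prop) (s0 : S) (B C : ℝ)
    (hB : 0 < B) (hC : 0 < C) (hρ : ∀ s, 0 < ρ s) (hcomp : ∀ s, IsCompact (I s))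
    (hne : ∀ s, (I s).Nonempty)
    (hstep : ∀ s, ∃ F : Finset S, 2 ≤ F.card ∧
      (∀ t ∈ F, R s t ∧ I t ⊆ I s ∧ ρ s ≤ ρ t * ((F.card : ℝ) / 2) ^ B) ∧
      ∀ t ∈ F, ∀ t' ∈ F, t ≠ t' → ∀ ξ ∈ I t, ∀ ξ' ∈ I t', ρ s ^ C ≤ |ξ - ξ'|) :
    ∃ E : Set ℝ, ENNReal.ofReal (1 / (B * C)) ≤ dimH E ∧
      ∀ ξ ∈ E, ∃ p : ℕ → S, p 0 = s0 ∧ (∀ k, R (p k) (p (k + 1))) ∧ ∀ k, ξ ∈ I (p k) := by
  refine treeDimQ S I ρ R s0 B C hB hC hρ hcomp hne ?_
  intro s
  obtain ⟨F, hF2, hF, hsep⟩ := hstep s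
  set e : ℕ := Nat.log 2 F.card with he
  have he1 : 1 ≤ e := by
    rw [he]
    exact Nat.log_pos (by norm_num) hF2
  have hle : 2 ^ e ≤ F.card := Nat.pow_log_le_self 2 (by omega)
  have hlt : F.card < 2 ^ (e + 1) := Nat.lt_pow_succ_log_self (by norm_num) _
  refine ⟨e, fun j => if h : j < F.card then (F.equivFin.symm ⟨j, h⟩ : S) else s, he1, ?_, ?_⟩
  · intro j hj
    have hjF : j < F.card := hj.trans_le hle
    simp only [hjF, dif_pos]
    have hm : ((F.equivFin.symm ⟨j, hjF⟩ : F) : S) ∈ F := (F.equivFin.symm ⟨j, hjF⟩).2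
    refine ⟨(hF _ hm).1, (hF _ hm).2.1, (hF _ hm).2.2.trans ?_⟩
    apply mul_le_mul_of_nonneg_left _ (hρ _).le
    apply Real.rpow_le_rpow (by positivity) _ hB.le
    rw [div_le_iff₀ (by norm_num)]
    have : (F.card : ℝ) ≤ (2 : ℝ) ^ (e + 1) := by exact_mod_cast hlt.le
    rwa [pow_succ] at this
  · intro j hj j' hj' hne
    have hjF : j < F.card := hj.trans_le hle
    have hjF' : j' < F.card := hj'.trans_le hle
    simp only [hjF, hjF', dif_pos]
    refine hsep _ (F.equivFin.symm ⟨j, hjF⟩).2 _ (F.equivFin.symm ⟨j', hjF'⟩).2 ?_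
    intro h
    have h1 : F.equivFin.symm ⟨j, hjF⟩ = F.equivFin.symm ⟨j', hjF'⟩ := Subtype.ext h
    have h2 := F.equivFin.symm.injective h1
    exact hne (by simpa using h2)

end ULB
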