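import Pool.Agent.ULB.URTRoot
import Pool.Agent.ULB.URTHen
import Pool.Agent.ULB.URTUz
import Pool.Agent.ULB.URTAlg
import Pool.Agent.ULB.URTEst
import Pool.Agent.ULB.URTCc
import Pool.Agent.ULB.URTUnit
import Pool.Agent.ULB.URTLac
import Pool.Agent.ULB.URTWw

/-!
# Block URT closed: the root exists (MP_c538e3_nt, lower bound 1/3)
-/

set_option autoImplicit false

namespace ULB

open URT in
/-- the root node, no hypotheses -/
theorem root : Stmt_ROOT := by
  have hE : Stmt_EST := t_EST t_ALG t_UZ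
  have hC : Stmt_CC := t_CC t_ALG t_UZ hE
  exact t_ROOT t_HEN t_UZ hE (t_WWR t_UNIT t_UZ t_XP t_LAC hE hC)

end ULB
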