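import Pool.Agent.ULB.Stmts
import Pool.Agent.ULB.Alg

/-!
# Frames: exact identities and the change of the frame (MP_c538e3_nt, lower bound `1/3`)
-/

set_option autoImplicit false

namespace ULB

open WHP (V3 det be ga dot cross lin tt)
open WHS (hh ev der)

namespace WV

theorem absorb (x C : ℝ) (hx : 0 < x) : ∃ G0 : ℝ, 1 ≤ G0 ∧ ∀ G : ℝ, G0 ≤ G → C ≤ G ^ x := by
  have h := (tendsto_rpow_atTop hx).eventually (Filter.eventually_ge_atTop C)
  obtain ⟨G0, h0⟩ := Filter.eventually_atTop.1 h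
  exact ⟨max 1 G0, le_max_left _ _, fun G hG => h0 G (le_trans (le_max_right _ _) hG)⟩

theorem det_eq (t : ℝ) (w : V3) : (det w : ℝ) = w.a * ga t w - be t w ^ 2 := by
  simp only [det, ga, be]
  push_cast
  ring

theorem dot_eq (t : ℝ) (P v : V3) :
    (dot P v : ℝ) = v.a * ev P t + be t v * der P t + ga t v * P.c := by
  simp only [dot, ga, be, ev, der]
  push_cast
  ring

theorem be_self {y : V3} (hy : 0 < y.a) : be (tt y) y = 0 := by
  have h : (y.a : ℝ) ≠ 0 := by exact_mod_cast hy.ne'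
  simp only [be, tt]
  field_simp
  ring

theorem ga_self {y : V3} (hy : 0 < y.a) : ga (tt y) y = det y / y.a := by
  have h : (y.a : ℝ) ≠ 0 := by exact_mod_cast hy.ne'
  rw [eq_div_iff h, det_eq (tt y) y, be_self hy]
  ring

theorem dl_pos {y : V3} (h : det y ≠ 0) : 0 < dl y := by
  unfold dl
  rw [abs_pos]
  exact_mod_cast h

theorem one_le_dl {y : V3} (h : det y ≠ 0) : 1 ≤ dl y := by
  unfold dl
  have h1 : 1 ≤ |det y| := Int.one_le_abs h
  exact_mod_cast h1

theorem zz_pos {y : V3} (hy : 0 < y.a) (h : det y ≠ 0) : 0 < zz y := by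
  unfold zz
  have := dl_pos h
  have h1 : (0 : ℝ) < y.a := by exact_mod_cast hy
  positivity

theorem rr_pos {y : V3} (hy : 0 < y.a) (h : det y ≠ 0) : 0 < rr y := by
  unfold rr
  have := dl_pos h
  have h1 : (0 : ℝ) < y.a := by exact_mod_cast hy
  positivity

theorem a_eq {y : V3} (hy : 0 < y.a) (w : V3) : (w.a : ℝ) = y.a * ca y w := by
  unfold ca
  have h1 : (y.a : ℝ) ≠ 0 := by exact_mod_cast hy.ne'
  field_simp

theorem be_eq {y : V3} (hy : 0 < y.a) (h : det y ≠ 0) (w : V3) :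
    be (tt y) w = zz y * cb y w := by
  unfold cb
  have := (zz_pos hy h).ne'
  field_simp

theorem ga_eq {y : V3} (hy : 0 < y.a) (h : det y ≠ 0) (w : V3) :
    ga (tt y) w = zz y * cc y w := by
  unfold cc
  have := (zz_pos hy h).ne'
  field_simp

theorem zz_mul {y : V3} (hy : 0 < y.a) : zz y * y.a = dl y := by
  unfold zz
  have h1 : (y.a : ℝ) ≠ 0 := by exact_mod_cast hy.ne'
  field_simp

theorem rr_mul {y : V3} (hy : 0 < y.a) : rr y * y.a = zz y := by
  unfold zz rr
  have h1 : (y.a : ℝ) ≠ 0 := by exact_mod_cast hy.ne'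
  field_simp

/-- the determinant in the frame of `y` -/
theorem det_frame {y : V3} (hy : 0 < y.a) (h : det y ≠ 0) (w : V3) :
    (det w : ℝ) = dl y * ca y w * cc y w - zz y ^ 2 * cb y w ^ 2 := by
  rw [det_eq (tt y) w, be_eq hy h, ga_eq hy h, a_eq hy w, ← zz_mul hy]
  ring

theorem det_frame_le {y : V3} (hy : 0 < y.a) (h : det y ≠ 0) (w : V3) :
    |(det w : ℝ)| ≤ dl y * |ca y w| * |cc y w| + dl y * rr y * cb y w ^ 2 := by
  rw [det_frame hy h w]
  have h1 : zz y ^ 2 = dl y * rr y := by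
    rw [← zz_mul hy, ← rr_mul hy]
    ring
  rw [h1]
  have h2 := dl_pos h
  have h3 := rr_pos hy h
  refine (abs_sub _ _).trans ?_
  rw [abs_mul, abs_mul, abs_of_pos h2, abs_mul, abs_mul, abs_of_pos h2, abs_of_pos h3,
    abs_of_nonneg (sq_nonneg (cb y w))]

theorem cc_self {y : V3} (hy : 0 < y.a) (h : det y ≠ 0) : |cc y y| = 1 := by
  have h1 : (y.a : ℝ) ≠ 0 := by exact_mod_cast hy.ne'
  have h2 := (dl_pos h).ne'
  unfold cc
  rw [ga_self hy]
  unfold zz
  rw [div_div_div_cancel_right₀ h1, abs_div, abs_of_pos (dl_pos h)]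
  unfold dl at h2 ⊢
  exact div_self h2

/-- `P.c` and `P'(t)` of `y × w` -/
theorem cross_c {y w P : V3} {j : ℤ} (hy : 0 < y.a) (h : det y ≠ 0) (hc : cross y w = sm j P) :
    (j : ℝ) * P.c = dl y * cb y w := by
  have h1 : (cross y w).c = (sm j P).c := by rw [hc]
  have h2 : ((cross y w).c : ℝ) = ((sm j P).c : ℝ) := by exact_mod_cast h1
  have h3 : ((sm j P).c : ℝ) = j * P.c := by
    simp only [sm, lin]
    push_cast
    ring
  have h4 : ((cross y w).c : ℝ) = y.a * be (tt y) w := by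
    have h5 : (y.a : ℝ) ≠ 0 := by exact_mod_cast hy.ne'
    simp only [cross, be, tt]
    push_cast
    field_simp
  rw [← h3, ← h2, h4, be_eq hy h, ← zz_mul hy]
  ring

theorem cross_d {y w P : V3} {j : ℤ} (hy : 0 < y.a) (h : det y ≠ 0) (hc : cross y w = sm j P) :
    (j : ℝ) * dd y P = det y * ca y w - dl y * cc y w := by
  have h5 : (y.a : ℝ) ≠ 0 := by exact_mod_cast hy.ne'
  have h1 : (cross y w).c = (sm j P).c := by rw [hc]
  have h2 : ((cross y w).c : ℝ) = ((sm j P).c : ℝ) := by exact_mod_cast h1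
  have h1' : (cross y w).b = (sm j P).b := by rw [hc]
  have h2' : ((cross y w).b : ℝ) = ((sm j P).b : ℝ) := by exact_mod_cast h1'
  have h3 : (j : ℝ) * dd y P = ((sm j P).b : ℝ) + 2 * ((sm j P).c : ℝ) * tt y := by
    simp only [sm, lin, dd, der]
    push_cast
    ring
  rw [h3, ← h2, ← h2']
  have h6 : dl y * cc y w = y.a * ga (tt y) w := by
    rw [ga_eq hy h, ← zz_mul hy]
    ring
  rw [h6]
  simp only [cross, ga, tt, ca, det]
  push_cast
  field_simp
  ring

theorem cross_d_le {y w P : V3} {j : ℤ} (hy : 0 < y.a) (h : det y ≠ 0)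
    (hc : cross y w = sm j P) : |(j : ℝ)| * |dd y P| ≤ dl y * (|ca y w| + |cc y w|) := by
  rw [← abs_mul, cross_d hy h hc]
  refine (abs_sub _ _).trans ?_
  rw [abs_mul, abs_mul, abs_of_pos (dl_pos h)]
  unfold dl
  nlinarith

theorem cross_d_ge {y w P : V3} {j : ℤ} (hy : 0 < y.a) (h : det y ≠ 0)
    (hc : cross y w = sm j P) : dl y * |ca y w| ≤ |(j : ℝ)| * |dd y P| + dl y * |cc y w| := by
  have h1 := cross_d hy h hc
  have h2 : (det y : ℝ) * ca y w = j * dd y P + dl y * cc y w := by linarith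
  have h3 : dl y * |ca y w| = |(det y : ℝ) * ca y w| := by
    rw [abs_mul]
    rfl
  rw [h3, h2]
  refine (abs_add_le _ _).trans ?_
  rw [abs_mul, abs_mul, abs_of_pos (dl_pos h)]

/-- the product with a vector of `y^⊥` -/
theorem dot_le {y P : V3} (hy : 0 < y.a) (h : det y ≠ 0) (ho : dot P y = 0) (w : V3) (M : ℝ)
    (hM : |(P.c : ℝ)| ≤ M * |dd y P|) :
    |(dot P w : ℝ)| ≤ zz y * |dd y P| * (|cb y w| + M * (|cc y w| + |ca y w|)) := by
  have h5 : (y.a : ℝ) ≠ 0 := by exact_mod_cast hy.ne'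
  have h1 := dot_eq (tt y) P y
  rw [ho, be_self hy, ga_self hy] at h1
  push_cast at h1
  have h2 : ev P (tt y) = -(P.c * det y / (y.a : ℝ) ^ 2) := by
    field_simp
    field_simp at h1
    linarith
  have h3 : (dot P w : ℝ) = zz y * (dd y P * cb y w + P.c * (cc y w - det y / dl y * ca y w)) := by
    rw [dot_eq (tt y) P w, h2, be_eq hy h, ga_eq hy h, a_eq hy w]
    unfold dd
    have h6 : (y.a : ℝ) * ca y w * -(P.c * det y / (y.a : ℝ) ^ 2) =
        -(zz y * (P.c * (det y / dl y * ca y w))) := by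
      have h7 := (dl_pos h).ne'
      unfold zz
      field_simp
    rw [h6]
    ring
  rw [h3, abs_mul, abs_of_pos (zz_pos hy h), mul_assoc]
  refine mul_le_mul_of_nonneg_left ?_ (zz_pos hy h).le
  refine (abs_add_le _ _).trans ?_
  rw [abs_mul, abs_mul]
  have h8 : |cc y w - det y / dl y * ca y w| ≤ |cc y w| + |ca y w| := by
    refine (abs_sub _ _).trans ?_
    rw [abs_mul, abs_div, abs_of_pos (dl_pos h)]
    have h9 : |(det y : ℝ)| / dl y = 1 := by
      have := (dl_pos h).ne'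
      unfold dl at this ⊢
      exact div_self this
    rw [h9, one_mul]
  have h10 : |(P.c : ℝ)| * |cc y w - det y / dl y * ca y w| ≤
      M * |dd y P| * (|cc y w| + |ca y w|) := by
    refine mul_le_mul hM h8 (abs_nonneg _) ((abs_nonneg _).trans hM)
  linarith

/-! ### two vectors in a plane -/

theorem orth_smul {P X : V3} (hP : Pr P) (h : cross P X = 0) : ∃ j : ℤ, X = sm j P := by
  obtain ⟨Q, hQ⟩ := hP
  refine ⟨dot Q X, ?_⟩
  have ha : (cross P X).a = 0 := by rw [h]; rfl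
  have hb : (cross P X).b = 0 := by rw [h]; rfl
  have hc : (cross P X).c = 0 := by rw [h]; rfl
  simp only [cross] at ha hb hc
  simp only [dot] at hQ
  apply V3.ext
  · simp only [sm, lin, dot]
    linear_combination (-X.a) * hQ - Q.b * hc + Q.c * hb
  · simp only [sm, lin, dot]
    linear_combination (-X.b) * hQ + Q.a * hc - Q.c * ha
  · simp only [sm, lin, dot]
    linear_combination (-X.c) * hQ - Q.a * hb + Q.b * ha

theorem cross_of_orth {P u w : V3} (hP : Pr P) (hu : dot P u = 0) (hw : dot P w = 0) :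
    ∃ j : ℤ, cross u w = sm j P := by
  refine orth_smul hP ?_
  simp only [dot] at hu hw
  apply V3.ext
  · show P.b * (u.a * w.b - u.b * w.a) - P.c * (u.c * w.a - u.a * w.c) = 0
    linear_combination (u.a) * hw - w.a * hu
  · show P.c * (u.b * w.c - u.c * w.b) - P.a * (u.a * w.b - u.b * w.a) = 0
    linear_combination (u.b) * hw - w.b * hu
  · show P.a * (u.c * w.a - u.a * w.c) - P.b * (u.b * w.c - u.c * w.b) = 0
    linear_combination (u.c) * hw - w.c * hu

theorem dot_of_cross {P u w : V3} {j : ℤ} (hj : j ≠ 0) (h : cross u w = sm j P) :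
    dot P w = 0 := by
  have h1 : dot (cross u w) w = 0 := by
    simp only [dot, cross]
    ring
  rw [h] at h1
  have h2 : j * dot P w = 0 := by
    rw [← h1]
    simp only [dot, sm, lin]
    ring
  exact (mul_eq_zero.1 h2).resolve_left hj

theorem self_cross (v : V3) (w : V3) (h : cross v w = 0) (hv : Pr v) : ∃ l : ℤ, w = sm l v :=
  orth_smul hv h

theorem cc_lin (y v w : V3) (i k : ℤ) : cc y (lin i v k w) = i * cc y v + k * cc y w := by
  simp only [cc, ga, lin]
  push_cast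
  ring

theorem cc_sm (y v : V3) (k : ℤ) : cc y (sm k v) = k * cc y v := by
  simp only [cc, ga, lin, sm]
  push_cast
  ring

theorem dot_sm (Q P : V3) (k : ℤ) : dot Q (sm k P) = k * dot Q P := by
  simp only [dot, sm, lin]
  ring

/-- three vectors of a plane: `q1 w = e y1 - j y` -/
theorem three {y y1 w P : V3} {q1 e j : ℤ} (h1 : cross y y1 = sm q1 P)
    (h2 : cross y w = sm e P) (h3 : cross y1 w = sm j P) (hP : Pr P) (h0 : dot P y = 0)
    (h01 : dot P y1 = 0) (h0w : dot P w = 0) :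
    (q1 : ℝ) * cc y w = e * cc y y1 - j * cc y y := by
  obtain ⟨Q, hQ⟩ := hP
  have k1 : dot Q (cross y y1) = q1 := by rw [h1, dot_sm, hQ, mul_one]
  have k2 : dot Q (cross y w) = e := by rw [h2, dot_sm, hQ, mul_one]
  have k3 : dot Q (cross y1 w) = j := by rw [h3, dot_sm, hQ, mul_one]
  have hd : y.a * (y1.b * w.c - y1.c * w.b) - y.b * (y1.a * w.c - y1.c * w.a) +
      y.c * (y1.a * w.b - y1.b * w.a) = 0 := by
    simp only [dot] at h0 h01 h0w hQ
    have e1 : P.a * (y.a * (y1.b * w.c - y1.c * w.b) - y.b * (y1.a * w.c - y1.c * w.a) +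
      y.c * (y1.a * w.b - y1.b * w.a)) = 0 := by
      linear_combination (y1.b * w.c - y1.c * w.b) * h0 + (y.c * w.b - y.b * w.c) * h01 +
        (y.b * y1.c - y.c * y1.b) * h0w
    have e2 : P.b * (y.a * (y1.b * w.c - y1.c * w.b) - y.b * (y1.a * w.c - y1.c * w.a) +
      y.c * (y1.a * w.b - y1.b * w.a)) = 0 := by
      linear_combination (y1.c * w.a - y1.a * w.c) * h0 + (y.a * w.c - y.c * w.a) * h01 +
        (y.c * y1.a - y.a * y1.c) * h0w
    have e3 : P.c * (y.a * (y1.b * w.c - y1.c * w.b) - y.b * (y1.a * w.c - y1.c * w.a) +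
      y.c * (y1.a * w.b - y1.b * w.a)) = 0 := by
      linear_combination (y1.a * w.b - y1.b * w.a) * h0 + (y.b * w.a - y.a * w.b) * h01 +
        (y.a * y1.b - y.b * y1.a) * h0w
    linear_combination (-(y.a * (y1.b * w.c - y1.c * w.b) - y.b * (y1.a * w.c - y1.c * w.a) +
      y.c * (y1.a * w.b - y1.b * w.a))) * hQ + Q.a * e1 + Q.b * e2 + Q.c * e3
  have ea : dot Q (cross y y1) * w.a - dot Q (cross y w) * y1.a + dot Q (cross y1 w) * y.a = 0 := by
    simp only [dot, cross]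
    linear_combination Q.a * hd
  have eb : dot Q (cross y y1) * w.b - dot Q (cross y w) * y1.b + dot Q (cross y1 w) * y.b = 0 := by
    simp only [dot, cross]
    linear_combination Q.b * hd
  have ec : dot Q (cross y y1) * w.c - dot Q (cross y w) * y1.c + dot Q (cross y1 w) * y.c = 0 := by
    simp only [dot, cross]
    linear_combination Q.c * hd
  rw [k1, k2, k3] at ea eb ec
  have ea' : (q1 : ℝ) * w.a - e * y1.a + j * y.a = 0 := by exact_mod_cast ea
  have eb' : (q1 : ℝ) * w.b - e * y1.b + j * y.b = 0 := by exact_mod_cast eb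
  have ec' : (q1 : ℝ) * w.c - e * y1.c + j * y.c = 0 := by exact_mod_cast ec
  have h5 : (q1 : ℝ) * ga (tt y) w = e * ga (tt y) y1 - j * ga (tt y) y := by
    simp only [ga]
    linear_combination ec' - 2 * tt y * eb' + tt y ^ 2 * ea'
  simp only [cc]
  rw [mul_div_assoc', h5]
  ring

/-! ### change of the frame -/

theorem be_change (t t1 : ℝ) (w : V3) : be t w = be t1 w + (t1 - t) * w.a := by
  simp only [be]
  ring

theorem ga_change (t t1 : ℝ) (w : V3) :
    ga t w = ga t1 w + 2 * (t1 - t) * be t1 w + (t1 - t) ^ 2 * w.a := by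
  simp only [ga, be]
  ring

theorem ca_change {y y1 : V3} (hy : 0 < y.a) (hy1 : 0 < y1.a) (w : V3) :
    ca y w = ca y y1 * ca y1 w := by
  unfold ca
  have h1 : (y.a : ℝ) ≠ 0 := by exact_mod_cast hy.ne'
  have h2 : (y1.a : ℝ) ≠ 0 := by exact_mod_cast hy1.ne'
  field_simp

theorem cb_change {y y1 : V3} (hy : 0 < y.a) (hy1 : 0 < y1.a) (h : det y ≠ 0) (h1 : det y1 ≠ 0)
    (hr : |tt y1 - tt y| ≤ 3 * rr y) (w : V3) :
    |cb y w| ≤ zz y1 / zz y * |cb y1 w| + 3 * |ca y w| := by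
  have hz := zz_pos hy h
  have hz1 := zz_pos hy1 h1
  have e1 : cb y w = zz y1 / zz y * cb y1 w + (tt y1 - tt y) * w.a / zz y := by
    have h2 : be (tt y) w = zz y1 * cb y1 w + (tt y1 - tt y) * w.a := by
      rw [← be_eq hy1 h1, ← be_change]
    unfold cb at h2 ⊢
    rw [h2]
    field_simp
  rw [e1]
  refine (abs_add_le _ _).trans ?_
  rw [abs_mul, abs_of_pos (div_pos hz1 hz)]
  have h3 : |(tt y1 - tt y) * w.a / zz y| ≤ 3 * |ca y w| := by
    rw [abs_div, abs_of_pos hz, div_le_iff₀ hz, abs_mul, a_eq hy w, abs_mul]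
    have h4 : (0 : ℝ) < y.a := by exact_mod_cast hy
    rw [abs_of_pos h4, ← rr_mul hy]
    have := mul_le_mul_of_nonneg_right hr (mul_nonneg h4.le (abs_nonneg (ca y w)))
    linarith
  linarith

theorem cc_change {y y1 : V3} (hy : 0 < y.a) (hy1 : 0 < y1.a) (h : det y ≠ 0) (h1 : det y1 ≠ 0)
    (hr : |tt y1 - tt y| ≤ 3 * rr y) (w : V3) :
    |cc y w| ≤ zz y1 / zz y * |cc y1 w| + 6 * rr y * (zz y1 / zz y) * |cb y1 w| +
      9 * rr y * |ca y w| := by
  have hz := zz_pos hy h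
  have hz1 := zz_pos hy1 h1
  have hrp := rr_pos hy h
  have e1 : cc y w = zz y1 / zz y * cc y1 w + 2 * (tt y1 - tt y) * (zz y1 / zz y * cb y1 w) +
      (tt y1 - tt y) ^ 2 * w.a / zz y := by
    have h2 : ga (tt y) w = zz y1 * cc y1 w + 2 * (tt y1 - tt y) * (zz y1 * cb y1 w) +
        (tt y1 - tt y) ^ 2 * w.a := by
      rw [← be_eq hy1 h1, ← ga_eq hy1 h1, ← ga_change]
    unfold cc at h2 ⊢
    rw [h2]
    field_simp
  rw [e1]
  refine (abs_add_le _ _).trans ?_
  have h5 := abs_add_le (zz y1 / zz y * cc y1 w) (2 * (tt y1 - tt y) * (zz y1 / zz y * cb y1 w))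
  have h6 : |zz y1 / zz y * cc y1 w| = zz y1 / zz y * |cc y1 w| := by
    rw [abs_mul, abs_of_pos (div_pos hz1 hz)]
  have h7 : |2 * (tt y1 - tt y) * (zz y1 / zz y * cb y1 w)| ≤
      6 * rr y * (zz y1 / zz y) * |cb y1 w| := by
    rw [abs_mul, abs_mul, abs_mul, abs_of_pos (div_pos hz1 hz), abs_two]
    have := mul_le_mul_of_nonneg_right hr
      (mul_nonneg (div_pos hz1 hz).le (abs_nonneg (cb y1 w)))
    nlinarith
  have h8 : |(tt y1 - tt y) ^ 2 * w.a / zz y| ≤ 9 * rr y * |ca y w| := by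
    rw [abs_div, abs_of_pos hz, div_le_iff₀ hz, abs_mul, abs_pow, a_eq hy w, abs_mul]
    have h4 : (0 : ℝ) < y.a := by exact_mod_cast hy
    rw [abs_of_pos h4, ← rr_mul hy]
    have h9 : |tt y1 - tt y| ^ 2 ≤ (3 * rr y) ^ 2 :=
      pow_le_pow_left₀ (abs_nonneg _) hr 2
    have := mul_le_mul_of_nonneg_right h9 (mul_nonneg h4.le (abs_nonneg (ca y w)))
    nlinarith
  linarith

end WV

end ULB
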