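import Pool.Agent.ULB.WV

/-!
# Numerical facts on a child (MP_c538e3_nt, lower bound `1/3`)
-/

set_option autoImplicit false

namespace ULB

open WHP (V3 det be ga dot cross lin tt)
open WHS (hh ev der)

namespace WV

/-- the numerical facts that are used for `WW` and `VV` of the child; `κ = β / 100` -/
structure Num (β B : ℝ) (y P : V3) (q g d : ℤ) (y1 P0 : V3) : Prop where
  G2 : 100 ≤ GG y P
  c1 : cs β B y P ≤ GG y P ^ (-1 + 2 * β)
  c2 : GG y P ^ (-1 : ℝ) ≤ cs β B y P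
  qc : (q : ℝ) * cs β B y P ≤ 2 * GG y P ^ (-β)
  ca0 : 0 < ca y y1
  ca : ca y y1 ≤ GG y P ^ (2 - 118 * (β / 100))
  g1 : GG y P ^ (1 - β / 100) ≤ GG y1 P0
  g2 : GG y1 P0 ≤ GG y P ^ (1 + 3 * (β / 100))
  g3 : 9 / 10 * GG y P ^ (1 - β / 400) ≤ GG y1 P0
  b1 : GG y P ^ (98 * (β / 100)) ≤ bb y1 P0
  b2 : bb y1 P0 ≤ GG y P ^ (102 * (β / 100))
  zz1 : zz y1 / zz y ≤ 101 / 100 * |cc y y1|
  cc1 : |cc y y1| ≤ cs β B y P
  cc2 : cs β B y P / 2 ≤ |cc y y1| * |(d : ℝ)|
  d1 : 1 ≤ |(d : ℝ)|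
  dB : |(d : ℝ)| ≤ B
  q0 : (0 : ℝ) < q
  g0 : (1 : ℝ) ≤ g

theorem pw {G : ℝ} (hG : 1 ≤ G) {x y : ℝ} (h : x ≤ y) : G ^ x ≤ G ^ y :=
  Real.rpow_le_rpow_of_exponent_le hG h

theorem num (β : ℝ) (hβ : 0 < β) (hβ1 : β ≤ 1 / 10000) : ∃ G0 : ℝ, ∀ (B : ℝ)
    (y P wm v R y1 P0 : V3) (a b q k g d : ℤ), Nd β y P → G0 ≤ GG y P → 1 ≤ B →
    B ≤ GG y P ^ (β / 100) → Stp β B y P wm v R a b q k g d y1 P0 →
    Chd β B y P q g d y1 P0 → Num β B y P q g d y1 P0 := by
  obtain ⟨G1, hG1, h1⟩ := absorb (β / 400) 5 (by positivity)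
  refine ⟨max 100 G1, ?_⟩
  intro B y P wm v R y1 P0 a b q k g d hN hG hB1 hB2 hS hC
  have hG100 : (100 : ℝ) ≤ GG y P := (le_max_left _ _).trans hG
  have h5 : 5 ≤ GG y P ^ (β / 400) := h1 _ ((le_max_right _ _).trans hG)
  set G := GG y P with hGdef
  have hGpos : (0 : ℝ) < G := by linarith
  have hG1' : (1 : ℝ) ≤ G := by linarith
  have hBpos : (0 : ℝ) < B := by linarith
  have hbb1 := hN.b1
  have hbb2 := hN.b2
  rw [← hGdef] at hbb1 hbb2
  have hbpos : 0 < bb y P := lt_of_lt_of_le (Real.rpow_pos_of_pos hGpos _) hbb1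
  -- the formula for cs
  have hcs : cs β B y P = G ^ (β / 400) * bb y P / (B ^ 2 * G ^ (1 + β / 100)) := by
    unfold cs AA
    rw [← hGdef]
    have h2 : G ^ (1 + β / 100) ≠ 0 := (Real.rpow_pos_of_pos hGpos _).ne'
    field_simp
  have hcspos : 0 < cs β B y P := by
    rw [hcs]
    have h2 : 0 < G ^ (1 + β / 100) := Real.rpow_pos_of_pos hGpos _
    have h3 : 0 < G ^ (β / 400) := Real.rpow_pos_of_pos hGpos _
    positivity
  have hB2' : B ^ 2 ≤ G ^ (2 * (β / 100)) := by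
    rw [mul_comm, Real.rpow_mul hGpos.le]
    have := pow_le_pow_left₀ hBpos.le hB2 2
    simpa using this
  have hB4 : B ^ 4 ≤ G ^ (4 * (β / 100)) := by
    rw [mul_comm, Real.rpow_mul hGpos.le]
    have := pow_le_pow_left₀ hBpos.le hB2 4
    have e : (G ^ (β / 100)) ^ (4 : ℝ) = (G ^ (β / 100)) ^ 4 := by
      rw [← Real.rpow_natCast]; norm_num
    rw [e]
    exact this
  have hB3 : B ^ 3 ≤ G ^ (3 * (β / 100)) := by
    rw [mul_comm, Real.rpow_mul hGpos.le]
    have := pow_le_pow_left₀ hBpos.le hB2 3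
    have e : (G ^ (β / 100)) ^ (3 : ℝ) = (G ^ (β / 100)) ^ 3 := by
      rw [← Real.rpow_natCast]; norm_num
    rw [e]
    exact this
  have c1 : cs β B y P ≤ G ^ (-1 + 2 * β) := by
    rw [hcs, div_le_iff₀ (by positivity)]
    have h2 : G ^ (β / 400) * bb y P ≤ G ^ (β / 400) * G ^ (2 * β) :=
      mul_le_mul_of_nonneg_left hbb2 (Real.rpow_nonneg hGpos.le _)
    have h3 : G ^ (β / 400) * G ^ (2 * β) ≤ G ^ (-1 + 2 * β) * (1 * G ^ (1 + β / 100)) := by
      rw [one_mul, ← Real.rpow_add hGpos, ← Real.rpow_add hGpos]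
      exact pw hG1' (by linarith)
    have h4 : G ^ (-1 + 2 * β) * (1 * G ^ (1 + β / 100)) ≤
        G ^ (-1 + 2 * β) * (B ^ 2 * G ^ (1 + β / 100)) := by
      refine mul_le_mul_of_nonneg_left ?_ (Real.rpow_nonneg hGpos.le _)
      refine mul_le_mul_of_nonneg_right ?_ (Real.rpow_nonneg hGpos.le _)
      nlinarith
    linarith
  have c2 : G ^ (-1 : ℝ) ≤ cs β B y P := by
    rw [hcs, le_div_iff₀ (by positivity)]
    have h2 : G ^ (β / 400) * G ^ (β / 4) ≤ G ^ (β / 400) * bb y P :=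
      mul_le_mul_of_nonneg_left hbb1 (Real.rpow_nonneg hGpos.le _)
    have h3 : G ^ (-1 : ℝ) * (G ^ (2 * (β / 100)) * G ^ (1 + β / 100)) ≤
        G ^ (β / 400) * G ^ (β / 4) := by
      rw [← Real.rpow_add hGpos, ← Real.rpow_add hGpos, ← Real.rpow_add hGpos]
      exact pw hG1' (by linarith)
    have h4 : G ^ (-1 : ℝ) * (B ^ 2 * G ^ (1 + β / 100)) ≤
        G ^ (-1 : ℝ) * (G ^ (2 * (β / 100)) * G ^ (1 + β / 100)) := by
      refine mul_le_mul_of_nonneg_left ?_ (Real.rpow_nonneg hGpos.le _)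
      exact mul_le_mul_of_nonneg_right hB2' (Real.rpow_nonneg hGpos.le _)
    linarith
  have hq2 := hS.q2
  have hQ : QQ β B y P = G ^ (-β) / cs β B y P := rfl
  have qc : (q : ℝ) * cs β B y P ≤ 2 * G ^ (-β) := by
    rw [hQ] at hq2
    have h2 := mul_le_mul_of_nonneg_right hq2 hcspos.le
    have h3 : 2 * (G ^ (-β) / cs β B y P) * cs β B y P = 2 * G ^ (-β) := by
      field_simp
    linarith
  have hq1 := hS.q1
  have q0 : (0 : ℝ) < q := by
    refine lt_of_lt_of_le ?_ hq1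
    rw [hQ]
    exact div_pos (Real.rpow_pos_of_pos hGpos _) hcspos
  have g0 : (1 : ℝ) ≤ g := by exact_mod_cast hS.g1
  have hya : (0 : ℝ) < y.a := by exact_mod_cast hN.ya
  have hy1a : (0 : ℝ) < y1.a := by exact_mod_cast hC.ya1
  have ca0 : 0 < ca y y1 := by
    unfold ULB.ca
    positivity
  have d1 : 1 ≤ |(d : ℝ)| := by
    have h2 : 1 ≤ |d| := Int.one_le_abs hS.d0
    exact_mod_cast h2
  have hgz : (0 : ℤ) < g := by have := hS.g1; omega
  have dB : |(d : ℝ)| ≤ B := by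
    have h2 : |d| ≤ g := by
      have h3 : d.natAbs ≤ g.natAbs := Int.natAbs_le_of_dvd_ne_zero hC.dg hgz.ne'
      have h4 : |d| = (d.natAbs : ℤ) := Int.abs_eq_natAbs d
      have h5 : (g.natAbs : ℤ) = g := Int.natAbs_of_nonneg hgz.le
      omega
    have h3 : (|d| : ℝ) ≤ g := by exact_mod_cast h2
    exact h3.trans hC.gB
  have hDpos := dl_pos hN.dt
  -- the bound for ca
  have hca : ca y y1 ≤ G ^ (2 - 118 * (β / 100)) := by
    have h2 := (abs_le.1 hC.ca1).2
    have h3 : ca y y1 ≤ ca y y1 * |(d : ℝ)| := le_mul_of_one_le_right ca0.le d1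
    have h4 : (q : ℝ) * g * |dd y P0| / dl y ≤ q * B * (2 * B * G ^ (1 + β / 100)) := by
      rw [div_le_iff₀ hDpos]
      have h5 := hC.dd1
      have h6 : (q : ℝ) * g ≤ q * B := mul_le_mul_of_nonneg_left hC.gB q0.le
      have h7 := mul_le_mul h6 h5 (abs_nonneg _) (by positivity)
      rw [← hGdef] at h7
      calc (q : ℝ) * g * |dd y P0| ≤ q * B * (2 * B * G ^ (1 + β / 100) * dl y) := h7
        _ = _ := by ring
    have h5' : (q : ℝ) ≤ 2 * (G ^ (2 * (β / 100)) * G ^ (1 - β + β / 100 - β / 400 - β / 4)) := by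
      refine hq2.trans ?_
      rw [hQ, hcs]
      have h6 : G ^ (-β) / (G ^ (β / 400) * bb y P / (B ^ 2 * G ^ (1 + β / 100))) =
          B ^ 2 * (G ^ (-β) * G ^ (1 + β / 100) / G ^ (β / 400)) / bb y P := by
        have h2 : G ^ (1 + β / 100) ≠ 0 := (Real.rpow_pos_of_pos hGpos _).ne'
        have h3 : G ^ (β / 400) ≠ 0 := (Real.rpow_pos_of_pos hGpos _).ne'
        field_simp
      rw [h6]
      refine mul_le_mul_of_nonneg_left ?_ (by norm_num)
      rw [div_le_iff₀ hbpos]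
      have h7 : G ^ (-β) * G ^ (1 + β / 100) / G ^ (β / 400) =
          G ^ (1 - β + β / 100 - β / 400) := by
        rw [← Real.rpow_add hGpos, ← Real.rpow_sub hGpos]
        congr 1
        ring
      rw [h7]
      have h8 : G ^ (1 - β + β / 100 - β / 400) =
          G ^ (1 - β + β / 100 - β / 400 - β / 4) * G ^ (β / 4) := by
        rw [← Real.rpow_add hGpos]
        congr 1
        ring
      rw [h8]
      have h9 : B ^ 2 * (G ^ (1 - β + β / 100 - β / 400 - β / 4) * G ^ (β / 4)) ≤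
          G ^ (2 * (β / 100)) * (G ^ (1 - β + β / 100 - β / 400 - β / 4) * bb y P) := by
        refine mul_le_mul hB2' ?_ (by positivity) (Real.rpow_nonneg hGpos.le _)
        exact mul_le_mul_of_nonneg_left hbb1 (Real.rpow_nonneg hGpos.le _)
      calc _ ≤ _ := h9
        _ = _ := by ring
    have h10 : (q : ℝ) * B * (2 * B * G ^ (1 + β / 100)) ≤
        4 * (G ^ (2 * (β / 100)) * G ^ (1 - β + β / 100 - β / 400 - β / 4) *
          (G ^ (2 * (β / 100)) * G ^ (1 + β / 100))) := by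
      have h11 : (q : ℝ) * B * (2 * B * G ^ (1 + β / 100)) =
          2 * (q * (B ^ 2 * G ^ (1 + β / 100))) := by ring
      rw [h11]
      have h12 : (q : ℝ) * (B ^ 2 * G ^ (1 + β / 100)) ≤
          2 * (G ^ (2 * (β / 100)) * G ^ (1 - β + β / 100 - β / 400 - β / 4)) *
            (G ^ (2 * (β / 100)) * G ^ (1 + β / 100)) := by
        refine mul_le_mul h5' ?_ (by positivity) (by positivity)
        exact mul_le_mul_of_nonneg_right hB2' (Real.rpow_nonneg hGpos.le _)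
      linarith
    have h13 : G ^ (2 * (β / 100)) * G ^ (1 - β + β / 100 - β / 400 - β / 4) *
          (G ^ (2 * (β / 100)) * G ^ (1 + β / 100)) =
        G ^ (2 - β + 6 * (β / 100) - β / 400 - β / 4) := by
      rw [← Real.rpow_add hGpos, ← Real.rpow_add hGpos, ← Real.rpow_add hGpos]
      congr 1
      ring
    rw [h13] at h10
    have h14 : 1 ≤ G ^ (2 - β + 6 * (β / 100) - β / 400 - β / 4) :=
      Real.one_le_rpow hG1' (by linarith)
    have h15 : 5 * G ^ (2 - β + 6 * (β / 100) - β / 400 - β / 4) ≤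
        G ^ (2 - 118 * (β / 100)) := by
      have h16 : G ^ (β / 400) * G ^ (2 - β + 6 * (β / 100) - β / 400 - β / 4) ≤
          G ^ (2 - 118 * (β / 100)) := by
        rw [← Real.rpow_add hGpos]
        exact pw hG1' (by linarith)
      have h17 := mul_le_mul_of_nonneg_right h5
        (Real.rpow_nonneg hGpos.le (2 - β + 6 * (β / 100) - β / 400 - β / 4))
      linarith
    linarith
  have hg3 : 9 / 10 * G ^ (1 - β / 400) ≤ GG y1 P0 := by
    refine le_trans ?_ hC.G1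
    rw [← hGdef]
    refine mul_le_mul_of_nonneg_right ?_ (Real.rpow_nonneg hGpos.le _)
    linarith
  have hg1 : G ^ (1 - β / 100) ≤ GG y1 P0 := by
    refine le_trans ?_ hg3
    have h2 : G ^ (1 - β / 400) = G ^ (1 - β / 100) * G ^ (3 * (β / 400)) := by
      rw [← Real.rpow_add hGpos]
      congr 1
      ring
    rw [h2]
    have h3 : G ^ (β / 400) ≤ G ^ (3 * (β / 400)) := pw hG1' (by linarith)
    have h4 : 0 < G ^ (1 - β / 100) := Real.rpow_pos_of_pos hGpos _
    nlinarith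
  have hg2 : GG y1 P0 ≤ G ^ (1 + 3 * (β / 100)) := by
    refine hC.G2.trans ?_
    rw [← hGdef]
    have h2 : 5 * B ^ 3 * G ^ (1 - β / 400) ≤
        G ^ (β / 400) * G ^ (3 * (β / 100)) * G ^ (1 - β / 400) := by
      refine mul_le_mul_of_nonneg_right ?_ (Real.rpow_nonneg hGpos.le _)
      exact mul_le_mul h5 hB3 (by positivity) (Real.rpow_nonneg hGpos.le _)
    refine h2.trans ?_
    rw [← Real.rpow_add hGpos, ← Real.rpow_add hGpos]
    exact pw hG1' (by linarith)
  have hb1 : G ^ (98 * (β / 100)) ≤ bb y1 P0 := by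
    have h2 := hC.b1
    rw [← hGdef] at h2
    have h3 : 0 ≤ bb y1 P0 := by
      unfold bb dl
      positivity
    have h4 : 3 * B * bb y1 P0 ≤ G ^ (β / 400) * G ^ (β / 100) * bb y1 P0 := by
      refine mul_le_mul_of_nonneg_right ?_ h3
      refine mul_le_mul (by linarith) hB2 hBpos.le (Real.rpow_nonneg hGpos.le _)
    have h5 : G ^ (98 * (β / 100)) * (G ^ (β / 400) * G ^ (β / 100)) ≤ G ^ β := by
      rw [← Real.rpow_add hGpos, ← Real.rpow_add hGpos]
      exact pw hG1' (by linarith)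
    have h6 : 0 < G ^ (β / 400) * G ^ (β / 100) := by
      have := Real.rpow_pos_of_pos hGpos (β / 400)
      have := Real.rpow_pos_of_pos hGpos (β / 100)
      positivity
    have h7 : G ^ (98 * (β / 100)) * (G ^ (β / 400) * G ^ (β / 100)) ≤
        bb y1 P0 * (G ^ (β / 400) * G ^ (β / 100)) := by linarith
    exact le_of_mul_le_mul_right h7 h6
  have hb2 : bb y1 P0 ≤ G ^ (102 * (β / 100)) := by
    refine hC.b2.trans ?_
    rw [← hGdef]
    have h4 : 3 * B * G ^ β ≤ G ^ (β / 400) * G ^ (β / 100) * G ^ β := by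
      refine mul_le_mul_of_nonneg_right ?_ (Real.rpow_nonneg hGpos.le _)
      refine mul_le_mul (by linarith) hB2 hBpos.le (Real.rpow_nonneg hGpos.le _)
    refine h4.trans ?_
    rw [← Real.rpow_add hGpos, ← Real.rpow_add hGpos]
    exact pw hG1' (by linarith)
  have hD1pos := dl_pos hC.dt
  have hzz : zz y1 / zz y ≤ 101 / 100 * |cc y y1| := by
    have h2 := (abs_le.1 hC.da1).2
    rw [← hGdef] at h2
    have h3 : G ^ (-2 : ℝ) ≤ 1 / 10000 := by
      rw [Real.rpow_neg hGpos.le, one_div]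
      refine inv_anti₀ (by norm_num) ?_
      have h4 : (100 : ℝ) ^ 2 ≤ G ^ 2 := pow_le_pow_left₀ (by norm_num) hG100 2
      have h5 : G ^ (2 : ℝ) = G ^ 2 := by
        rw [← Real.rpow_natCast]; norm_num
      rw [h5]
      linarith
    have h4 : dl y1 * (9999 / 10000) ≤ dl y * ca y y1 * |cc y y1| := by
      have := mul_le_mul_of_nonneg_left h3 hD1pos.le
      nlinarith
    have h5 : zz y1 / zz y = dl y1 / (dl y * ca y y1) := by
      unfold zz ULB.ca
      field_simp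
    rw [h5, div_le_iff₀ (by positivity)]
    have h6 : 0 ≤ dl y * ca y y1 * |cc y y1| := by positivity
    nlinarith
  have hcc1 : |cc y y1| ≤ cs β B y P := by
    refine le_trans ?_ hC.cc1
    exact le_mul_of_one_le_right (abs_nonneg _) d1
  exact ⟨hG100, c1, c2, qc, ca0, hca, hg1, hg2, hg3, hb1, hb2, hzz, hcc1, hC.cc2, d1, dB, q0, g0⟩

end WV

end ULB
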